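import Pool.Agent.CMG.EDefs

/-!
# induction principle for Z[i]

`P(i)`, `P(-α)`, `P(-iα)` from `hi`. Naturals: `n + 1` from `n, 1, n - 1`. `a + i` (`a ∈ ℕ`): `a + 1 + i`
from `a + i, 1, a - 1 + i`, starting with `i` and `1 + i`. Then `a + (b+1) i` from
`a + b i, i, a + (b-1) i` (`a, b ∈ ℕ`), starting with `b = 0, 1`. Every Gaussian integer is
`i^k (a + b i)` with `a, b ≥ 0`.
-/

set_option autoImplicit false

noncomputable section

open Complex Filter Topology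
open scoped PeriodPair Classical


namespace Pool.Agent.CMG

/-- induction for the Gaussian integers; `⟨0, 1⟩` is `i` -/
theorem gauss_induction {P : GaussianInt → Prop} (h0 : P 0) (h1 : P 1) (h2 : P ⟨1, 1⟩)
    (hi : ∀ α, P α → P (⟨0, 1⟩ * α)) (hadd : ∀ α β, P α → P β → P (α - β) → P (α + β)) (α : GaussianInt) :
    P α := by
  have e1 : ∀ a b : ℤ, (⟨0, 1⟩ : GaussianInt) * ⟨a, b⟩ = ⟨-b, a⟩ := by
    intro a b
    apply Zsqrtd.ext
    · simp
    · simp
  have s1 : ∀ n : ℕ, P ⟨(n : ℤ), 0⟩ ∧ P ⟨((n + 1 : ℕ) : ℤ), 0⟩ := by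
    intro n
    induction n with
    | zero => exact ⟨h0, h1⟩
    | succ n ih =>
      refine ⟨ih.2, ?_⟩
      have h := hadd ⟨((n + 1 : ℕ) : ℤ), 0⟩ 1 ih.2 h1 (by
        convert ih.1 using 1
        apply Zsqrtd.ext
        · simp
        · simp)
      convert h using 1
      apply Zsqrtd.ext
      · simp
      · simp
  have s2 : ∀ n : ℕ, P ⟨(n : ℤ), 1⟩ ∧ P ⟨((n + 1 : ℕ) : ℤ), 1⟩ := by
    intro n
    induction n with
    | zero =>
      refine ⟨?_, h2⟩
      convert hi 1 h1 using 1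
      rw [mul_one]
      rfl
    | succ n ih =>
      refine ⟨ih.2, ?_⟩
      have h := hadd ⟨((n + 1 : ℕ) : ℤ), 1⟩ 1 ih.2 h1 (by
        convert ih.1 using 1
        apply Zsqrtd.ext
        · simp
        · simp)
      convert h using 1
      apply Zsqrtd.ext
      · simp
      · simp
  have hI : P ⟨0, 1⟩ := (s2 0).1
  have s3 : ∀ a b : ℕ, P ⟨(a : ℤ), (b : ℤ)⟩ ∧ P ⟨(a : ℤ), ((b + 1 : ℕ) : ℤ)⟩ := by
    intro a b
    induction b with
    | zero => exact ⟨(s1 a).1, (s2 a).1⟩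
    | succ b ih =>
      refine ⟨ih.2, ?_⟩
      have h := hadd ⟨(a : ℤ), ((b + 1 : ℕ) : ℤ)⟩ ⟨0, 1⟩ ih.2 hI (by
        convert ih.1 using 1
        apply Zsqrtd.ext
        · simp
        · simp)
      convert h using 1
      apply Zsqrtd.ext
      · simp
      · simp
  have s4 : ∀ x y : ℤ, 0 ≤ x → 0 ≤ y → P ⟨x, y⟩ := by
    intro x y hx hy
    have h := (s3 x.toNat y.toNat).1
    rwa [Int.toNat_of_nonneg hx, Int.toNat_of_nonneg hy] at h
  have s5 : ∀ x y : ℤ, x ≤ 0 → 0 ≤ y → P ⟨x, y⟩ := by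
    intro x y hx hy
    have h := hi _ (s4 y (-x) hy (by omega))
    rwa [e1, neg_neg] at h
  have s6 : ∀ x y : ℤ, x ≤ 0 → y ≤ 0 → P ⟨x, y⟩ := by
    intro x y hx hy
    have h := hi _ (s5 y (-x) hy (by omega))
    rwa [e1, neg_neg] at h
  have s7 : ∀ x y : ℤ, 0 ≤ x → y ≤ 0 → P ⟨x, y⟩ := by
    intro x y hx hy
    have h := hi _ (s6 y (-x) hy (by omega))
    rwa [e1, neg_neg] at h
  obtain ⟨x, y⟩ := α
  rcases le_total 0 x with hx | hx
  · rcases le_total 0 y with hy | hy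
    · exact s4 x y hx hy
    · exact s7 x y hx hy
  · rcases le_total 0 y with hy | hy
    · exact s5 x y hx hy
    · exact s6 x y hx hy

end Pool.Agent.CMG
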