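import Pool.Agent.CMG.XBasic

/-!
# torsion points of C/Z[i]

Elementary: `mem_LG`, arithmetic of `GaussianInt`. `card_quot`: `Ideal.absNorm_span_singleton` with the basis
`1, i` (multiplication by `a + bi` has determinant `a² + b²`).
-/

set_option autoImplicit false

noncomputable section

open Complex Filter Topology
open scoped PeriodPair Classical


namespace Pool.Agent.CMG

theorem nG_eq (α : GaussianInt) : (nG α : ℝ) = ‖(α : ℂ)‖ ^ 2 := by
  rw [← Complex.normSq_eq_norm_sq, ← GaussianInt.intCast_real_norm]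
  unfold nG
  rw [Nat.cast_natAbs, abs_of_nonneg (GaussianInt.norm_nonneg α)]

theorem nG_mul (α β : GaussianInt) : nG (α * β) = nG α * nG β := by
  unfold nG
  rw [Zsqrtd.norm_mul, Int.natAbs_mul]

theorem IsOdd.ne_zero {α : GaussianInt} (hα : IsOdd α) : α ≠ 0 := by
  rintro rfl
  simp [IsOdd, nG] at hα

/-- the basis `1, i` of `GaussianInt` -/
private def torsBasis : Module.Basis (Fin 2) ℤ GaussianInt := Module.Basis.ofEquivFun
  { toFun := fun z => ![z.re, z.im]
    invFun := fun v => ⟨v 0, v 1⟩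
    left_inv := fun z => rfl
    right_inv := fun v => by ext i; fin_cases i <;> rfl
    map_add' := fun x y => by ext i; fin_cases i <;> simp
    map_smul' := fun c x => by ext i; fin_cases i <;> simp }

private theorem norm_eq (α : GaussianInt) : Algebra.norm ℤ α = Zsqrtd.norm α := by
  rw [Algebra.norm_eq_matrix_det torsBasis, Matrix.det_fin_two]
  simp only [Algebra.leftMulMatrix_eq_repr_mul]
  have h0 : (torsBasis 0 : GaussianInt) = ⟨1, 0⟩ := by
    simp [torsBasis, Module.Basis.coe_ofEquivFun]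
  have h1 : (torsBasis 1 : GaussianInt) = ⟨0, 1⟩ := by
    simp [torsBasis, Module.Basis.coe_ofEquivFun]
  have hr : ∀ (z : GaussianInt) (j : Fin 2), torsBasis.repr z j = ![z.re, z.im] j := by
    intro z j
    rfl
  rw [hr, hr, hr, hr, h0, h1]
  simp [Zsqrtd.norm]

private theorem card_quot_aux {α : GaussianInt} : Nat.card (GaussianInt ⧸ Ideal.span {α}) = nG α := by
  have : Module.Free ℤ GaussianInt := Module.Free.of_basis torsBasis
  have : Module.Finite ℤ GaussianInt := Module.Finite.of_basis torsBasis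
  rw [← Submodule.cardQuot_apply, ← Ideal.absNorm_apply, Ideal.absNorm_span_singleton, norm_eq]
  rfl

theorem card_quot {α : GaussianInt} (hα : α ≠ 0) : Nat.card (GaussianInt ⧸ Ideal.span {α}) = nG α :=
  card_quot_aux

theorem finite_quot {α : GaussianInt} (hα : α ≠ 0) : Finite (GaussianInt ⧸ Ideal.span {α}) := by
  apply Nat.finite_of_card_ne_zero
  rw [card_quot hα]
  unfold nG
  intro h
  exact hα (GaussianInt.norm_eq_zero.1 (Int.natAbs_eq_zero.1 h))

private theorem coe_ne {α : GaussianInt} (hα : α ≠ 0) : (α : ℂ) ≠ 0 :=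
  fun h => hα (GaussianInt.toComplex_eq_zero.1 h)

theorem div_mem_iff {a n : GaussianInt} (hn : n ≠ 0) : (a : ℂ) / n ∈ LG.lattice ↔ n ∣ a := by
  rw [mem_LG]
  constructor
  · rintro ⟨k, hk⟩
    rw [eq_div_iff (coe_ne hn), ← GaussianInt.toComplex_mul, GaussianInt.toComplex_inj] at hk
    exact ⟨k, by rw [← hk, mul_comm]⟩
  · rintro ⟨k, rfl⟩
    refine ⟨k, ?_⟩
    rw [GaussianInt.toComplex_mul, mul_div_cancel_left₀ _ (coe_ne hn)]

private theorem mk_out {α : GaussianInt} (q : GaussianInt ⧸ Ideal.span {α}) :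
    Ideal.Quotient.mk (Ideal.span {α}) (Quotient.out q) = q :=
  Quotient.out_eq q

theorem exists_tor {α : GaussianInt} (hα : α ≠ 0) {w : ℂ} (hw : α * w ∈ LG.lattice) :
    ∃! q : GaussianInt ⧸ Ideal.span {α}, w - tor α q ∈ LG.lattice := by
  obtain ⟨a, ha⟩ := mem_LG.1 hw
  have hw' : w = (a : ℂ) / α := by
    rw [ha, mul_div_cancel_left₀ _ (coe_ne hα)]
  have key : ∀ q : GaussianInt ⧸ Ideal.span {α}, w - tor α q ∈ LG.lattice ↔
      Ideal.Quotient.mk (Ideal.span {α}) a = q := by
    intro q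
    have h1 : w - tor α q = ((a - Quotient.out q : GaussianInt) : ℂ) / α := by
      rw [hw', tor, GaussianInt.toComplex_sub, sub_div]
    rw [h1, div_mem_iff hα, ← Ideal.mem_span_singleton, ← Ideal.Quotient.eq, mk_out]
  exact ⟨Ideal.Quotient.mk (Ideal.span {α}) a, (key _).2 rfl, fun q hq => ((key q).1 hq).symm⟩

theorem mul_tor_mem {α : GaussianInt} (hα : α ≠ 0) (q : GaussianInt ⧸ Ideal.span {α}) :
    α * tor α q ∈ LG.lattice := by
  rw [tor, mul_div_cancel₀ _ (coe_ne hα)]
  exact mem_LG.2 ⟨_, rfl⟩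

theorem tor_mem_iff {α : GaussianInt} (hα : α ≠ 0) (q : GaussianInt ⧸ Ideal.span {α}) :
    tor α q ∈ LG.lattice ↔ q = 0 := by
  rw [tor, div_mem_iff hα, ← Ideal.mem_span_singleton, ← Ideal.Quotient.eq_zero_iff_mem, mk_out]

theorem HS_finite {α : GaussianInt} (hα : α ≠ 0) : (HS α).Finite := by
  have := finite_quot hα
  apply (Set.finite_range (fun q : GaussianInt ⧸ Ideal.span {α} => hG (tor α q))).subset
  rintro t ⟨w, ⟨-, hw⟩, rfl⟩
  obtain ⟨q, hq, -⟩ := exists_tor hα hw
  refine ⟨q, ?_⟩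
  have h := XG_add_coe (tor α q) hq
  rw [add_sub_cancel] at h
  simp only [hG, h]

/-- a point killed by coprime Gaussian integers is in the lattice -/
theorem mem_of_coprime {α β : GaussianInt} (h : IsCoprime α β) {w : ℂ} (hα : α * w ∈ LG.lattice)
    (hβ : β * w ∈ LG.lattice) : w ∈ LG.lattice := by
  obtain ⟨a, b, hab⟩ := h
  have h1 : w = (a : ℂ) * (α * w) + (b : ℂ) * (β * w) := by
    have h2 : ((a * α + b * β : GaussianInt) : ℂ) = 1 := by
      rw [hab, GaussianInt.toComplex_one]
    rw [GaussianInt.toComplex_add, GaussianInt.toComplex_mul, GaussianInt.toComplex_mul] at h2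
    calc w = ((a : ℂ) * α + b * β) * w := by rw [h2, one_mul]
      _ = _ := by ring
  rw [h1]
  exact add_mem (mul_mem_LG a hα) (mul_mem_LG b hβ)

end Pool.Agent.CMG
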