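import Pool.Agent.CMG.AnPP

/-!
# dsum = -2 log |PP|, periodicity of BB

`dsum_eq`: for `n ≥ 0`, `|n+y| = n+y` and `∑_{m≥1} (2/m) Re w^m = -2 log |1-w|` with
`w = qⁿ e(z)`, `z = x + r y i`, `|w| < 1` (`Complex.hasSum_taylorSeries_neg_log`); for
`n = -(k+1)`, `|n+y| = k+1-y`, `w = q^{k+1} e(-z)`. Log of the infinite product: continuity of `log`
and of the norm along partial products (or `Real.log` of `tprod` of norms; all factors nonzero).
`BB_periodic`: by induction from `m,n = ±1`; `z + 1` clear; `z + rI`: `PP_add_rI`,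
`‖ee (-z)‖ = exp (2π z.im)`.
-/

set_option autoImplicit false

noncomputable section

open Complex HurwitzZeta MeasureTheory

namespace Pool.Agent.CMG

theorem dsum_hasSum_inner {w : ℂ} (hw : ‖w‖ < 1) :
    HasSum (fun m : ℕ => 2 / ((m : ℝ) + 1) * (w ^ (m + 1)).re) (-2 * Real.log ‖1 - w‖) := by
  have h := (Complex.hasSum_re (Complex.hasSum_taylorSeries_neg_log' hw)).mul_left (2 : ℝ)
  rw [Complex.neg_re, Complex.log_re] at h
  have e : (fun m : ℕ => 2 / ((m : ℝ) + 1) * (w ^ (m + 1)).re) =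
      fun m : ℕ => 2 * (w ^ (m + 1) / ((m : ℂ) + 1)).re := by
    funext m
    have : (w ^ (m + 1) / ((m : ℂ) + 1)).re = (w ^ (m + 1)).re / ((m : ℝ) + 1) := by
      have h1 : ((m : ℂ) + 1) = (((m : ℝ) + 1 : ℝ) : ℂ) := by push_cast; rfl
      rw [h1, Complex.div_ofReal_re]
    rw [this]
    ring
  rw [e, show -2 * Real.log ‖1 - w‖ = 2 * -Real.log ‖1 - w‖ by ring]
  exact h

theorem ee_norm (z : ℂ) : ‖ee z‖ = Real.exp (-(2 * Real.pi * z.im)) := by
  unfold ee
  rw [Complex.norm_exp]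
  congr 1
  simp

theorem ee_pow_re (x t : ℝ) (m : ℕ) :
    ((ee (x + t * I)) ^ (m + 1)).re =
      Real.cos (2 * Real.pi * (m + 1) * x) * Real.exp (-(2 * Real.pi * (m + 1) * t)) := by
  unfold ee
  rw [← Complex.exp_nat_mul]
  have : ((m + 1 : ℕ) : ℂ) * (2 * Real.pi * I * (x + t * I)) =
      ((-(2 * Real.pi * (m + 1) * t) : ℝ) : ℂ) + ((2 * Real.pi * (m + 1) * x : ℝ) : ℂ) * I := by
    push_cast
    linear_combination (2 * ((m : ℂ) + 1) * Real.pi * t) * Complex.I_sq
  rw [this, Complex.exp_add, Complex.exp_mul_I, ← Complex.ofReal_exp, ← Complex.ofReal_cos,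
    ← Complex.ofReal_sin, Complex.re_ofReal_mul, Complex.add_re, Complex.ofReal_re,
    Complex.re_ofReal_mul, Complex.I_re, mul_zero, add_zero, mul_comm]

theorem log_tprod {a : ℕ → ℂ} (ha : Summable a) (hne : ∀ n, 1 + a n ≠ 0) :
    (∏' n, (1 + a n)) ≠ 0 ∧
    HasSum (fun n => Real.log ‖1 + a n‖) (Real.log ‖∏' n, (1 + a n)‖) := by
  have hs := Complex.summable_log_one_add_of_summable ha
  have he := Complex.cexp_tsum_eq_tprod hne hs
  refine ⟨by rw [← he]; exact Complex.exp_ne_zero _, ?_⟩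
  rw [← he, Complex.norm_exp, Real.log_exp]
  have := Complex.hasSum_re hs.hasSum
  simpa only [Complex.log_re] using this

theorem summable_qpow {r : ℝ} (hr : 0 < r) :
    Summable (fun n : ℕ => Real.exp (-(2 * Real.pi * r * (n + 1)))) := by
  have h1 : Real.exp (-(2 * Real.pi * r)) < 1 := by
    rw [Real.exp_lt_one_iff]
    have := Real.pi_pos
    have : 0 < 2 * Real.pi * r := by positivity
    linarith
  have h2 : Summable (fun n : ℕ => Real.exp (-(2 * Real.pi * r)) ^ (n + 1)) := by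
    have := (summable_geometric_of_lt_one (Real.exp_pos _).le h1)
    exact (summable_nat_add_iff 1).2 this
  refine h2.congr fun n => ?_
  rw [← Real.exp_nat_mul]
  congr 1
  push_cast
  ring

theorem one_sub_ne {w : ℂ} (hw : ‖w‖ < 1) : 1 - w ≠ 0 := by
  intro h
  have : w = 1 := by linear_combination -h
  rw [this] at hw
  simp at hw

theorem dsum_eq {r x y : ℝ} (hr : 0 < r) (hy0 : 0 < y) (hy1 : y < 1) :
    dsum r x y = -2 * Real.log ‖PP r (x + r * y * I)‖ := by
  have hpi := Real.pi_pos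
  set z : ℂ := x + r * y * I with hz
  have hzim : z.im = r * y := by simp [hz]
  set a : ℕ → ℂ := fun n => -((Real.exp (-(2 * Real.pi * r * (n + 1))) : ℂ) * ee z) with ha
  set b : ℕ → ℂ := fun n => -((Real.exp (-(2 * Real.pi * r * (n + 1))) : ℂ) * ee (-z)) with hb
  have hq : Summable (fun n : ℕ => (Real.exp (-(2 * Real.pi * r * (n + 1))) : ℂ)) :=
    Complex.summable_ofReal.2 (summable_qpow hr)
  have hsa : Summable a := (hq.mul_right (ee z)).neg
  have hsb : Summable b := (hq.mul_right (ee (-z))).neg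
  have hna : ∀ n, ‖(Real.exp (-(2 * Real.pi * r * ((n : ℕ) + 1))) : ℂ) * ee z‖ < 1 := by
    intro n
    rw [norm_mul, ee_norm, hzim, Complex.norm_real, Real.norm_of_nonneg (Real.exp_pos _).le,
      ← Real.exp_add, Real.exp_lt_one_iff]
    have : 0 < 2 * Real.pi * r * ((n : ℝ) + 1 + y) := by positivity
    linarith
  have hnb : ∀ n, ‖(Real.exp (-(2 * Real.pi * r * ((n : ℕ) + 1))) : ℂ) * ee (-z)‖ < 1 := by
    intro n
    rw [norm_mul, ee_norm, Complex.neg_im, hzim, Complex.norm_real,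
      Real.norm_of_nonneg (Real.exp_pos _).le, ← Real.exp_add, Real.exp_lt_one_iff]
    have h0 : 0 < (n : ℝ) + 1 - y := by
      have : (0 : ℝ) ≤ n := Nat.cast_nonneg n
      linarith
    have : 0 < 2 * Real.pi * r * ((n : ℝ) + 1 - y) := by positivity
    linarith
  have hnz : ‖ee z‖ < 1 := by
    rw [ee_norm, hzim, Real.exp_lt_one_iff]
    have : 0 < 2 * Real.pi * (r * y) := by positivity
    linarith
  obtain ⟨hPa, hSa⟩ := log_tprod hsa (fun n => by
    have := one_sub_ne (hna n)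
    simpa [ha, sub_eq_add_neg] using this)
  obtain ⟨hPb, hSb⟩ := log_tprod hsb (fun n => by
    have := one_sub_ne (hnb n)
    simpa [hb, sub_eq_add_neg] using this)
  have hPP : PP r z = (1 - ee z) * ((∏' n, (1 + a n)) * ∏' n, (1 + b n)) := by
    unfold PP
    rw [← (Complex.multipliable_one_add_of_summable hsa).tprod_mul
      (Complex.multipliable_one_add_of_summable hsb)]
    simp only [ha, hb, sub_eq_add_neg]
  rw [hPP, norm_mul, norm_mul, Real.log_mul (norm_ne_zero_iff.2 (one_sub_ne hnz))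
    (mul_ne_zero (norm_ne_zero_iff.2 hPa) (norm_ne_zero_iff.2 hPb)),
    Real.log_mul (norm_ne_zero_iff.2 hPa) (norm_ne_zero_iff.2 hPb)]
  unfold dsum
  have hF : ∀ n : ℤ, ∑' m : ℕ, 2 / ((m : ℝ) + 1) * Real.cos (2 * Real.pi * (m + 1) * x) *
      Real.exp (-(2 * Real.pi * (m + 1) * r * |n + y|)) =
      -2 * Real.log ‖1 - ee (x + ((r * |n + y| : ℝ) : ℂ) * I)‖ := by
    intro n
    have hpos : 0 < |(n : ℝ) + y| := by
      rw [abs_pos]
      intro h
      rcases lt_or_ge n 0 with hn | hn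
      · have : (n : ℝ) ≤ -1 := by exact_mod_cast Int.le_sub_one_of_lt hn
        linarith
      · have : (0 : ℝ) ≤ n := by exact_mod_cast hn
        linarith
    have hw : ‖ee (x + ((r * |n + y| : ℝ) : ℂ) * I)‖ < 1 := by
      rw [ee_norm, Real.exp_lt_one_iff]
      have h1 : ((x : ℂ) + ((r * |n + y| : ℝ) : ℂ) * I).im = r * |n + y| := by
        rw [Complex.add_im, Complex.ofReal_im, Complex.im_ofReal_mul]
        simp
      rw [h1]
      have : 0 < 2 * Real.pi * (r * |n + y|) := by positivity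
      linarith
    rw [← (dsum_hasSum_inner hw).tsum_eq]
    refine tsum_congr fun m => ?_
    rw [ee_pow_re]
    ring_nf
  simp_rw [hF]
  have h1 : HasSum (fun n : ℕ => -2 * Real.log ‖1 - ee (x +
      ((r * |((n : ℤ) : ℝ) + y| : ℝ) : ℂ) * I)‖)
      (-2 * Real.log ‖1 - ee z‖ + -2 * Real.log ‖∏' n, (1 + a n)‖) := by
    have h2 := hSa.mul_left (-2 : ℝ)
    have h3 := (hasSum_nat_add_iff' (f := fun n : ℕ => -2 * Real.log ‖1 - ee (x +
      ((r * |((n : ℤ) : ℝ) + y| : ℝ) : ℂ) * I)‖)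
      (g := -2 * Real.log ‖1 - ee z‖ + -2 * Real.log ‖∏' n, (1 + a n)‖) 1).1
    apply h3
    simp only [Finset.range_one, Finset.sum_singleton]
    have h4 : ee (x + ((r * |(((0 : ℕ) : ℤ) : ℝ) + y| : ℝ) : ℂ) * I) = ee z := by
      congr 1
      rw [hz]
      simp [abs_of_pos hy0]
    rw [h4, add_sub_cancel_left]
    have h5 : (fun n : ℕ => -2 * Real.log ‖1 - ee (x +
        ((r * |(((n + 1 : ℕ) : ℤ) : ℝ) + y| : ℝ) : ℂ) * I)‖) =
        fun n => -2 * Real.log ‖1 + a n‖ := by
      funext n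
      have h6 : ee (x + ((r * |(((n + 1 : ℕ) : ℤ) : ℝ) + y| : ℝ) : ℂ) * I) =
          (Real.exp (-(2 * Real.pi * r * (n + 1))) : ℂ) * ee z := by
        have h7 : |(((n + 1 : ℕ) : ℤ) : ℝ) + y| = (n : ℝ) + 1 + y := by
          rw [abs_of_pos (by push_cast; positivity)]
          push_cast
          ring
        rw [h7, hz]
        unfold ee
        rw [Complex.ofReal_exp, ← Complex.exp_add]
        congr 1
        push_cast
        linear_combination (2 * Real.pi * r * ((n : ℂ) + 1)) * Complex.I_sq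
      rw [h6, ha, sub_eq_add_neg]
    rw [h5]
    exact h2
  have h2 : HasSum (fun n : ℕ => -2 * Real.log ‖1 - ee (x +
      ((r * |(((-((n : ℤ) + 1)) : ℤ) : ℝ) + y| : ℝ) : ℂ) * I)‖)
      (-2 * Real.log ‖∏' n, (1 + b n)‖) := by
    have h2 := hSb.mul_left (-2 : ℝ)
    have h5 : (fun n : ℕ => -2 * Real.log ‖1 - ee (x +
        ((r * |(((-((n : ℤ) + 1)) : ℤ) : ℝ) + y| : ℝ) : ℂ) * I)‖) =
        fun n => -2 * Real.log ‖1 + b n‖ := by
      funext n
      have h7 : |(((-((n : ℤ) + 1)) : ℤ) : ℝ) + y| = (n : ℝ) + 1 - y := by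
        rw [abs_of_neg (by
          push_cast
          have : (0 : ℝ) ≤ n := Nat.cast_nonneg n
          linarith)]
        push_cast
        ring
      have h6 : (starRingEnd ℂ) (1 - ee (x + ((r * |(((-((n : ℤ) + 1)) : ℤ) : ℝ) + y| : ℝ) : ℂ)
          * I)) = 1 + b n := by
        rw [h7, hb, hz]
        unfold ee
        simp only
        rw [map_sub, map_one, ← Complex.exp_conj, Complex.ofReal_exp]
        simp only [map_mul, map_add, Complex.conj_ofReal, Complex.conj_I, map_ofNat]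
        rw [← Complex.exp_add, sub_eq_add_neg]
        congr 3
        push_cast
        linear_combination (2 * Real.pi * r * ((n : ℂ) + 1)) * Complex.I_sq
      rw [← h6, Complex.norm_conj]
    rw [h5]
    exact h2
  have h3 := (HasSum.of_nat_of_neg_add_one (f := fun n : ℤ => -2 * Real.log ‖1 - ee (x +
      ((r * |(n : ℝ) + y| : ℝ) : ℂ) * I)‖) h1 h2).tsum_eq
  rw [h3]
  ring

theorem PP_add_int (r : ℝ) (z : ℂ) (m : ℤ) : PP r (z + m) = PP r z := by
  induction m using Int.induction_on with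
  | zero => simp
  | succ k ih =>
    rw [← ih, ← PP_add_one r (z + ((k : ℤ) : ℂ))]
    congr 1
    push_cast
    ring
  | pred k ih =>
    rw [← ih, ← PP_add_one r (z + ((-(k : ℤ) - 1 : ℤ) : ℂ))]
    congr 1
    push_cast
    ring

theorem BB_add_rI {r : ℝ} (hr : 0 < r) {z : ℂ} (hz : PP r z ≠ 0) :
    BB r (z + r * I) = BB r z := by
  unfold BB
  have him : (z + r * I).im = z.im + r := by simp
  rw [PP_add_rI hr, norm_mul, norm_neg, ee_norm, Real.log_mul (Real.exp_ne_zero _)
    (norm_ne_zero_iff.2 hz), Real.log_exp, him, Complex.neg_im]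
  field_simp
  ring

theorem BB_add_int_rI {r : ℝ} (hr : 0 < r) {z : ℂ} (hz : PP r z ≠ 0) (n : ℤ) :
    PP r (z + n * r * I) ≠ 0 ∧ BB r (z + n * r * I) = BB r z := by
  have hne : ∀ w : ℂ, PP r (w + r * I) ≠ 0 ↔ PP r w ≠ 0 := by
    intro w
    rw [PP_add_rI hr]
    have : -ee (-w) ≠ 0 := by
      unfold ee
      exact neg_ne_zero.2 (Complex.exp_ne_zero _)
    exact ⟨fun h => right_ne_zero_of_mul h, fun h => mul_ne_zero this h⟩
  induction n using Int.induction_on with
  | zero => simpa using hz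
  | succ k ih =>
    have e : z + ((k : ℤ) + 1 : ℤ) * r * I = (z + (k : ℤ) * r * I) + r * I := by
      push_cast
      ring
    rw [e]
    exact ⟨(hne _).2 ih.1, (BB_add_rI hr ih.1).trans ih.2⟩
  | pred k ih =>
    have e : z + (-(k : ℤ) : ℤ) * r * I = (z + (-(k : ℤ) - 1 : ℤ) * r * I) + r * I := by
      push_cast
      ring
    rw [e] at ih
    have h1 := (hne _).1 ih.1
    exact ⟨h1, (BB_add_rI hr h1).symm.trans ih.2⟩

theorem BB_periodic {r : ℝ} (hr : 0 < r) {z : ℂ} (hz : PP r z ≠ 0) (m n : ℤ) :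
    BB r (z + m + n * r * I) = BB r z := by
  have h1 : PP r (z + m) ≠ 0 := by rwa [PP_add_int]
  rw [(BB_add_int_rI hr h1 n).2]
  unfold BB
  rw [PP_add_int]
  simp

end Pool.Agent.CMG
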