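import Pool.Agent.CMG.AnDefs

/-!
# completedCosZeta_two

`completedCosZeta y 2 = Gammaℝ 2 * cosZeta y 2`, `Gammaℝ 2 = 1/π`,
`cosZeta y 2 = ∑ cos(2π n y)/n² = π² B₂(y)` (`hasSum_one_div_nat_pow_mul_cos` or
`cosZeta_two_mul_nat`), `B₂(y) = y² - y + 1/6`.
-/

set_option autoImplicit false

noncomputable section

open Complex HurwitzZeta MeasureTheory

namespace Pool.Agent.CMG

theorem completedCosZeta_two {y : ℝ} (hy0 : 0 < y) (hy1 : y < 1) :
    completedCosZeta y 2 = ((Real.pi * (y ^ 2 - y + 1 / 6) : ℝ) : ℂ) := by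
  have h1 := cosZeta_two_mul_nat (k := 1) one_ne_zero (x := y) ⟨hy0.le, hy1.le⟩
  rw [Nat.cast_one, mul_one, mul_one] at h1
  have h2 : cosZeta (y : UnitAddCircle) 2 = completedCosZeta y 2 / Gammaℝ 2 := by
    rw [cosZeta, Function.update_of_ne two_ne_zero]
  have h3 : Gammaℝ 2 = (Real.pi : ℂ)⁻¹ := by
    rw [Gammaℝ_def, div_self (two_ne_zero' ℂ), Complex.Gamma_one, mul_one, neg_div,
      div_self (two_ne_zero' ℂ), cpow_neg_one]
  have hpi : (Real.pi : ℂ) ≠ 0 := ofReal_ne_zero.2 Real.pi_ne_zero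
  have h4 : ((Polynomial.bernoulli 2).map (algebraMap ℚ ℂ)).eval (y : ℂ) = y ^ 2 - y + 1 / 6 := by
    rw [Polynomial.bernoulli_def]
    simp [Finset.sum_range_succ, bernoulli_eq_bernoulli'_of_ne_one]
    ring
  rw [h2, h3, h4, div_inv_eq_mul] at h1
  have h5 : completedCosZeta y 2 = (completedCosZeta y 2 * (Real.pi : ℂ)) / Real.pi := by
    field_simp
  rw [h5, h1]
  push_cast
  field_simp
  norm_num [Nat.factorial]

end Pool.Agent.CMG
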