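import Mathlib

/-!
# Kronecker's second limit formula for rectangular lattices: definitions
-/

set_option autoImplicit false

noncomputable section

open Complex HurwitzZeta MeasureTheory

namespace Pool.Agent.CMG

/-- `Z` is the continuation to `ℂ ∖ {1}` of `∑ ((x + m)² + r² (y + n)²)^{-s}`, and `Z 0 = 0`. -/
structure IsRect (r x y : ℝ) (Z : ℂ → ℂ) : Prop where
  diff : DifferentiableOn ℂ Z {1}ᶜ
  sum : ∀ s : ℂ, 1 < s.re → HasSum (fun p : ℤ × ℤ =>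
    (((x + p.1) ^ 2 + r ^ 2 * (y + p.2) ^ 2 : ℝ) : ℂ) ^ (-s)) (Z s)
  zero : Z 0 = 0

/-- `∑ exp (-π t ((x + m)² + r² (y + n)²))` -/
def fker (r x y t : ℝ) : ℝ := evenKernel x t * evenKernel y (r ^ 2 * t)

/-- the dual kernel -/
def gker (r x y t : ℝ) : ℝ := r⁻¹ * (cosKernel x t * cosKernel y (t / r ^ 2))

/-- `P` is the pair of `fker` and `gker`, for `(x, y) ∉ ℤ²`. -/
structure IsRectPair (r x y : ℝ) (P : WeakFEPair ℂ) : Prop where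
  f : P.f = fun t => (fker r x y t : ℂ)
  g : P.g = fun t => (gker r x y t : ℂ)
  k : P.k = 1
  ε : P.ε = 1
  f₀ : P.f₀ = 0
  g₀ : P.g₀ = (r⁻¹ : ℝ)

/-- the double series `∑_{n ∈ ℤ} ∑_{m ≥ 1} (2 / m) cos (2 π m x) exp (-2 π m r |n + y|)` -/
def dsum (r x y : ℝ) : ℝ :=
  ∑' n : ℤ, ∑' m : ℕ, 2 / ((m : ℝ) + 1) * Real.cos (2 * Real.pi * (m + 1) * x) *
    Real.exp (-(2 * Real.pi * (m + 1) * r * |n + y|))

/-- `exp (2 π i z)` -/
def ee (z : ℂ) : ℂ := exp (2 * Real.pi * I * z)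

/-- `(1 - e(z)) ∏_{n ≥ 1} (1 - qⁿ e(z)) (1 - qⁿ e(-z))`, `q = exp (-2 π r)` -/
def PP (r : ℝ) (z : ℂ) : ℂ :=
  (1 - ee z) * ∏' n : ℕ, ((1 - (Real.exp (-(2 * Real.pi * r * (n + 1))) : ℂ) * ee z) *
    (1 - (Real.exp (-(2 * Real.pi * r * (n + 1))) : ℂ) * ee (-z)))

/-- the value of the derivative at `0` -/
def BB (r : ℝ) (z : ℂ) : ℝ :=
  -2 * Real.log ‖PP r z‖ + 2 * Real.pi * r * ((z.im / r) ^ 2 - z.im / r + 1 / 6)

end Pool.Agent.CMG
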