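import Pool.Agent.CMG.AnExp

/-!
# integral_eq_dsum (term by term integration)

`evenKernel x t = t^{-1/2} cosKernel x (1/t)`, `cosKernel x (1/t) - 1 =
∑_{m ≥ 1} 2 cos (2π m x) exp (-π m²/t)` (`hasSum_int_cosKernel` or `hasSum_nat_cosKernel₀`), and
`evenKernel y (r² t) = ∑_{n ∈ ℤ} exp (-π (n+y)² r² t)`. Integrate term by term with
`integral_exp_neg_div` (`a = π m²`, `b = π (n+y)² r²`): the value is
`(1/m) exp (-2π m r |n+y|)`. The swap is `hasSum_integral_of_summable_integral_norm`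
(sum over `ℤ × ℕ`; summable as `|n + y| ≥ c (1 + |n|)`).
-/

set_option autoImplicit false

noncomputable section

open Complex HurwitzZeta MeasureTheory

namespace Pool.Agent.CMG

/-- the summand without the cosine -/
private def kk (r y : ℝ) (p : ℤ × ℕ) (t : ℝ) : ℝ :=
  t ^ (-(3 / 2) : ℝ) * Real.exp (-(Real.pi * ((p.2 : ℝ) + 1) ^ 2 / t) -
    Real.pi * (((p.1 : ℝ) + y) ^ 2 * r ^ 2) * t)

private theorem kk_int {r y : ℝ} (hr : 0 < r) (p : ℤ × ℕ) :
    IntegrableOn (kk r y p) (Set.Ioi 0) ∧ ∫ t in Set.Ioi (0 : ℝ), kk r y p t =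
      1 / ((p.2 : ℝ) + 1) * Real.exp (-(2 * Real.pi * (p.2 + 1) * r * |p.1 + y|)) := by
  have hm : (0 : ℝ) < (p.2 : ℝ) + 1 := by positivity
  have ha : 0 < Real.pi * ((p.2 : ℝ) + 1) ^ 2 := by positivity
  have hb : 0 ≤ Real.pi * (((p.1 : ℝ) + y) ^ 2 * r ^ 2) := by positivity
  obtain ⟨h1, h2⟩ := integral_exp_neg_div ha hb
  refine ⟨h1, ?_⟩
  have h3 : Real.sqrt (Real.pi / (Real.pi * ((p.2 : ℝ) + 1) ^ 2)) = 1 / ((p.2 : ℝ) + 1) := by
    have : Real.pi / (Real.pi * ((p.2 : ℝ) + 1) ^ 2) = (1 / ((p.2 : ℝ) + 1)) ^ 2 := by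
      field_simp
    rw [this, Real.sqrt_sq (by positivity)]
  have h4 : Real.sqrt (Real.pi * ((p.2 : ℝ) + 1) ^ 2 *
      (Real.pi * (((p.1 : ℝ) + y) ^ 2 * r ^ 2))) =
      Real.pi * ((p.2 : ℝ) + 1) * r * |(p.1 : ℝ) + y| := by
    have : Real.pi * ((p.2 : ℝ) + 1) ^ 2 * (Real.pi * (((p.1 : ℝ) + y) ^ 2 * r ^ 2)) =
        (Real.pi * ((p.2 : ℝ) + 1) * r * |(p.1 : ℝ) + y|) ^ 2 := by
      rw [mul_pow _ |(p.1 : ℝ) + y|, sq_abs]
      ring
    rw [this, Real.sqrt_sq (by positivity)]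
  change ∫ t in Set.Ioi (0 : ℝ), t ^ (-(3 / 2) : ℝ) * Real.exp (-(Real.pi *
    ((p.2 : ℝ) + 1) ^ 2 / t) - Real.pi * (((p.1 : ℝ) + y) ^ 2 * r ^ 2) * t) = _
  rw [h2, h3, h4]
  congr 2
  ring

private theorem exists_lower {y : ℝ} (hy : (y : UnitAddCircle) ≠ 0) :
    ∃ c : ℝ, 0 < c ∧ ∀ n : ℤ, c * (1 + |(n : ℝ)|) ≤ |(n : ℝ) + y| := by
  have hδ : 0 < |y - round y| := by
    rw [abs_pos]
    intro h0
    apply hy
    rw [AddCircle.coe_eq_zero_iff]
    exact ⟨round y, by rw [zsmul_one]; linarith⟩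
  set δ := |y - round y| with hδdef
  have hden : 0 < 1 + |y| + δ := by positivity
  refine ⟨δ / (1 + |y| + δ), by positivity, fun n => ?_⟩
  have h1 : δ ≤ |(n : ℝ) + y| := by
    have := round_le y (-n)
    rw [Int.cast_neg, sub_neg_eq_add, add_comm y] at this
    exact this
  have h2 : |(n : ℝ)| ≤ |(n : ℝ) + y| + |y| := by
    have : (n : ℝ) = ((n : ℝ) + y) - y := by ring
    calc |(n : ℝ)| = |((n : ℝ) + y) - y| := by rw [← this]
      _ ≤ |(n : ℝ) + y| + |y| := abs_sub _ _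
  rw [div_mul_eq_mul_div, div_le_iff₀ hden]
  have h3 : 0 ≤ |y| := abs_nonneg y
  nlinarith [mul_le_mul_of_nonneg_left h2 hδ.le, mul_le_mul_of_nonneg_right h1 h3]

private theorem summable_aux {r y : ℝ} (hr : 0 < r) (hy : (y : UnitAddCircle) ≠ 0) :
    Summable fun p : ℤ × ℕ => Real.exp (-(2 * Real.pi * (p.2 + 1) * r * |p.1 + y|)) := by
  obtain ⟨c, hc, hlow⟩ := exists_lower hy
  set q := Real.exp (-(2 * Real.pi * r * c)) with hq
  have hq0 : 0 < q := Real.exp_pos _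
  have hq1 : q < 1 := by
    rw [hq, Real.exp_lt_one_iff]
    have : 0 < 2 * Real.pi * r * c := by positivity
    linarith
  have hZ : Summable fun n : ℤ => q ^ n.natAbs := by
    refine Summable.of_nat_of_neg ?_ ?_
    · simpa using summable_geometric_of_lt_one hq0.le hq1
    · simpa using summable_geometric_of_lt_one hq0.le hq1
  have hN : Summable fun m : ℕ => q ^ (m + 1) :=
    (summable_nat_add_iff 1).2 (summable_geometric_of_lt_one hq0.le hq1)
  have hprod : Summable fun p : ℤ × ℕ => q ^ p.1.natAbs * q ^ (p.2 + 1) :=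
    summable_mul_of_summable_norm hZ.norm hN.norm
  refine Summable.of_nonneg_of_le (fun p => (Real.exp_pos _).le) (fun p => ?_) hprod
  rw [hq, ← Real.exp_nat_mul, ← Real.exp_nat_mul, ← Real.exp_add, Real.exp_le_exp]
  have h1 := hlow p.1
  have h2 : (0 : ℝ) ≤ |(p.1 : ℝ)| := abs_nonneg _
  have h3 : (0 : ℝ) ≤ (p.2 : ℝ) := Nat.cast_nonneg _
  have h4 : ((p.1.natAbs : ℕ) : ℝ) = |(p.1 : ℝ)| := by
    rw [Nat.cast_natAbs, Int.cast_abs]
  rw [h4]
  push_cast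
  have h5 : c * (1 + |(p.1 : ℝ)|) * ((p.2 : ℝ) + 1) ≤ |(p.1 : ℝ) + y| * ((p.2 : ℝ) + 1) :=
    mul_le_mul_of_nonneg_right h1 (by positivity)
  have h6 : c * (|(p.1 : ℝ)| + ((p.2 : ℝ) + 1)) ≤ c * (1 + |(p.1 : ℝ)|) * ((p.2 : ℝ) + 1) := by
    have : 0 ≤ c * (|(p.1 : ℝ)| * (p.2 : ℝ)) := by positivity
    nlinarith
  have h7 : 0 < 2 * Real.pi * r := by positivity
  have h8 := mul_le_mul_of_nonneg_left (h6.trans h5) h7.le
  nlinarith

theorem integral_eq_dsum {r x y : ℝ} (hr : 0 < r) (hy : (y : UnitAddCircle) ≠ 0) :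
    ∫ t in Set.Ioi (0 : ℝ), (fker r x y t - t ^ (-(1 / 2) : ℝ) * evenKernel y (r ^ 2 * t)) / t =
      dsum r x y := by
  let F : ℤ × ℕ → ℝ → ℝ := fun p t =>
    2 * Real.cos (2 * Real.pi * x * ((p.2 : ℝ) + 1)) * kk r y p t
  have hFint : ∀ p, Integrable (F p) (volume.restrict (Set.Ioi 0)) := fun p =>
    (kk_int hr p).1.const_mul _
  have hnorm : ∀ p, ∫ t in Set.Ioi (0 : ℝ), ‖F p t‖ =
      |2 * Real.cos (2 * Real.pi * x * ((p.2 : ℝ) + 1))| *
        (1 / ((p.2 : ℝ) + 1) * Real.exp (-(2 * Real.pi * (p.2 + 1) * r * |p.1 + y|))) := by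
    intro p
    rw [← (kk_int hr p).2, ← integral_const_mul]
    refine setIntegral_congr_fun measurableSet_Ioi fun t ht => ?_
    have ht' : (0 : ℝ) < t := ht
    have hk : 0 ≤ kk r y p t := by unfold kk; positivity
    change ‖2 * Real.cos (2 * Real.pi * x * ((p.2 : ℝ) + 1)) * kk r y p t‖ = _
    rw [norm_mul, Real.norm_eq_abs, Real.norm_of_nonneg hk]
  have hFsum : Summable fun p => ∫ t in Set.Ioi (0 : ℝ), ‖F p t‖ := by
    refine Summable.of_nonneg_of_le (fun p => integral_nonneg fun t => norm_nonneg _)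
      (fun p => ?_) ((summable_aux hr hy).mul_left 2)
    rw [hnorm]
    have h1 : |2 * Real.cos (2 * Real.pi * x * ((p.2 : ℝ) + 1))| ≤ 2 := by
      rw [abs_mul, abs_two]
      have := Real.abs_cos_le_one (2 * Real.pi * x * ((p.2 : ℝ) + 1))
      linarith
    have h2 : 1 / ((p.2 : ℝ) + 1) ≤ 1 := by
      rw [div_le_one (by positivity)]
      have : (0 : ℝ) ≤ (p.2 : ℝ) := Nat.cast_nonneg _
      linarith
    have h3 : 0 < Real.exp (-(2 * Real.pi * (p.2 + 1) * r * |p.1 + y|)) := Real.exp_pos _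
    have h4 : 1 / ((p.2 : ℝ) + 1) * Real.exp (-(2 * Real.pi * (p.2 + 1) * r * |p.1 + y|)) ≤
        Real.exp (-(2 * Real.pi * (p.2 + 1) * r * |p.1 + y|)) := by
      nlinarith
    have h5 : 0 ≤ 1 / ((p.2 : ℝ) + 1) *
        Real.exp (-(2 * Real.pi * (p.2 + 1) * r * |p.1 + y|)) := by positivity
    exact mul_le_mul h1 h4 h5 (by norm_num)
  have hS := hasSum_integral_of_summable_integral_norm hFint hFsum
  have hval : ∀ p : ℤ × ℕ, ∫ t in Set.Ioi (0 : ℝ), F p t = 2 / ((p.2 : ℝ) + 1) *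
      Real.cos (2 * Real.pi * (p.2 + 1) * x) *
        Real.exp (-(2 * Real.pi * (p.2 + 1) * r * |p.1 + y|)) := by
    intro p
    change ∫ t in Set.Ioi (0 : ℝ),
      2 * Real.cos (2 * Real.pi * x * ((p.2 : ℝ) + 1)) * kk r y p t = _
    rw [integral_const_mul, (kk_int hr p).2]
    have : 2 * Real.pi * x * ((p.2 : ℝ) + 1) = 2 * Real.pi * ((p.2 : ℝ) + 1) * x := by ring
    rw [this]
    ring
  have hint : ∫ t in Set.Ioi (0 : ℝ), ∑' p, F p t =
      ∫ t in Set.Ioi (0 : ℝ),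
        (fker r x y t - t ^ (-(1 / 2) : ℝ) * evenKernel y (r ^ 2 * t)) / t := by
    refine setIntegral_congr_fun measurableSet_Ioi fun t ht => ?_
    have ht' : (0 : ℝ) < t := ht
    have hrt : 0 < r ^ 2 * t := by positivity
    have hC := hasSum_nat_cosKernel₀ x (t := 1 / t) (by positivity)
    have hE := hasSum_int_evenKernel y hrt
    have hP := (hE.mul hC (summable_mul_of_summable_norm hE.summable.norm
      hC.summable.norm)).mul_left (t ^ (-(3 / 2) : ℝ))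
    have hfe := evenKernel_functional_equation (x : UnitAddCircle) t
    have h32 : t ^ (-(3 / 2) : ℝ) = t ^ (-(1 / 2) : ℝ) / t := by
      rw [← Real.rpow_sub_one ht'.ne']
      norm_num
    have h12 : t ^ (-(1 / 2) : ℝ) = 1 / t ^ (1 / 2 : ℝ) := by
      rw [Real.rpow_neg ht'.le, one_div (t ^ (1 / 2 : ℝ))]
    have hgoal : (fker r x y t - t ^ (-(1 / 2) : ℝ) * evenKernel y (r ^ 2 * t)) / t =
        t ^ (-(3 / 2) : ℝ) * (evenKernel y (r ^ 2 * t) * (cosKernel x (1 / t) - 1)) := by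
      unfold fker
      rw [hfe, h32, h12]
      ring
    change ∑' p, F p t = (fker r x y t - t ^ (-(1 / 2) : ℝ) * evenKernel y (r ^ 2 * t)) / t
    rw [hgoal, ← hP.tsum_eq]
    refine tsum_congr fun p => ?_
    change 2 * Real.cos (2 * Real.pi * x * ((p.2 : ℝ) + 1)) * kk r y p t = _
    unfold kk
    have e : Real.exp (-(Real.pi * ((p.2 : ℝ) + 1) ^ 2 / t) -
        Real.pi * (((p.1 : ℝ) + y) ^ 2 * r ^ 2) * t) =
        Real.exp (-Real.pi * ((p.1 : ℝ) + y) ^ 2 * (r ^ 2 * t)) *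
          Real.exp (-Real.pi * ((p.2 : ℝ) + 1) ^ 2 * (1 / t)) := by
      rw [← Real.exp_add]
      congr 1
      ring
    rw [e]
    ring
  rw [hint] at hS
  have hS' : HasSum (fun p : ℤ × ℕ => 2 / ((p.2 : ℝ) + 1) *
      Real.cos (2 * Real.pi * (p.2 + 1) * x) *
        Real.exp (-(2 * Real.pi * (p.2 + 1) * r * |p.1 + y|)))
      (∫ t in Set.Ioi (0 : ℝ),
        (fker r x y t - t ^ (-(1 / 2) : ℝ) * evenKernel y (r ^ 2 * t)) / t) := by
    have : (fun p : ℤ × ℕ => ∫ t in Set.Ioi (0 : ℝ), F p t) = fun p : ℤ × ℕ =>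
        2 / ((p.2 : ℝ) + 1) * Real.cos (2 * Real.pi * (p.2 + 1) * x) *
          Real.exp (-(2 * Real.pi * (p.2 + 1) * r * |p.1 + y|)) := funext hval
    rw [← this]
    exact hS
  rw [← hS'.tsum_eq, hS'.summable.tsum_prod]
  rfl

end Pool.Agent.CMG
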