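import Pool.Agent.CMG.AnDefs

/-!
# integral of t^(-3/2) exp(-a/t - b t)

Classical. With `G x = ∫_0^x exp (-v²) dv` and `φ∓(t) = √a/√t ∓ √b √t` we have
`exp (-a/t - b t) = exp (∓2√(ab)) exp (-φ∓(t)²)`, so
`-(1/√a) (exp (-2√(ab)) G (φ₋ t) + exp (2√(ab)) G (φ₊ t))` is an antiderivative of the integrand.
-/

set_option autoImplicit false

noncomputable section

open Complex HurwitzZeta MeasureTheory

namespace Pool.Agent.CMG

namespace AnExpAux

open Filter Topology

/-- the integral of `exp (-v²)` from `0` -/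
private def G (x : ℝ) : ℝ := ∫ v in (0 : ℝ)..x, Real.exp (-v ^ 2)

private theorem G_deriv (x : ℝ) : HasDerivAt G (Real.exp (-x ^ 2)) x := by
  have hc : Continuous (fun v : ℝ => Real.exp (-v ^ 2)) := by fun_prop
  exact intervalIntegral.integral_hasDerivAt_right (hc.intervalIntegrable _ _)
    hc.stronglyMeasurable.stronglyMeasurableAtFilter hc.continuousAt

private theorem G_int : Integrable (fun v : ℝ => Real.exp (-v ^ 2)) := by
  have h := integrable_exp_neg_mul_sq (b := 1) one_pos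
  simpa using h

private theorem G_top : Tendsto G atTop (𝓝 (Real.sqrt Real.pi / 2)) := by
  have h := intervalIntegral_tendsto_integral_Ioi 0 (G_int.integrableOn) (tendsto_id (x := atTop))
  have h2 : ∫ v in Set.Ioi (0 : ℝ), Real.exp (-v ^ 2) = Real.sqrt Real.pi / 2 := by
    have := integral_gaussian_Ioi 1
    simpa using this
  rw [h2] at h
  exact h

private theorem G_neg (x : ℝ) : G (-x) = -G x := by
  unfold G
  have h := intervalIntegral.integral_comp_neg (a := 0) (b := x)
    (fun v : ℝ => Real.exp (-v ^ 2))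
  simp only [neg_zero, neg_sq] at h
  rw [intervalIntegral.integral_symm, ← h]

private theorem G_bot : Tendsto G atBot (𝓝 (-(Real.sqrt Real.pi / 2))) := by
  have h := (G_top.comp tendsto_neg_atBot_atTop).neg
  refine h.congr (fun x => ?_)
  simp only [Function.comp, G_neg, neg_neg]

private theorem G_cont : Continuous G :=
  continuous_iff_continuousAt.mpr fun x => (G_deriv x).continuousAt

/-- the arguments of `G` -/
private def phi (a c t : ℝ) : ℝ := Real.sqrt a / Real.sqrt t + c * Real.sqrt t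

private theorem phi_deriv (a c : ℝ) {t : ℝ} (ht : 0 < t) :
    HasDerivAt (phi a c)
      (-(Real.sqrt a * t ^ (-(3 / 2) : ℝ)) / 2 + c / (2 * Real.sqrt t)) t := by
  have hs : 0 < Real.sqrt t := Real.sqrt_pos.mpr ht
  have h1 : HasDerivAt Real.sqrt (1 / (2 * Real.sqrt t)) t := Real.hasDerivAt_sqrt ht.ne'
  have h2 := ((h1.inv hs.ne').const_mul (Real.sqrt a)).add (h1.const_mul c)
  have e : (-(Real.sqrt a * t ^ (-(3 / 2) : ℝ)) / 2 + c / (2 * Real.sqrt t)) =
      Real.sqrt a * (-(1 / (2 * Real.sqrt t)) / Real.sqrt t ^ 2) + c * (1 / (2 * Real.sqrt t)) := by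
    have h3 : t ^ (-(3 / 2) : ℝ) = (Real.sqrt t ^ 3)⁻¹ := by
      rw [Real.rpow_neg ht.le, Real.sqrt_eq_rpow, ← Real.rpow_natCast, ← Real.rpow_mul ht.le]
      norm_num
    rw [h3]
    field_simp
  rw [e]
  exact h2

private theorem phi_zero {a : ℝ} (ha : 0 < a) (c : ℝ) :
    Tendsto (phi a c) (𝓝[>] 0) atTop := by
  have h1 : Tendsto Real.sqrt (𝓝[>] 0) (𝓝[>] 0) := by
    refine tendsto_nhdsWithin_iff.mpr ⟨?_, ?_⟩
    · have := (Real.continuous_sqrt.tendsto 0).mono_left (nhdsWithin_le_nhds (s := Set.Ioi 0))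
      simpa using this
    · filter_upwards [self_mem_nhdsWithin] with t ht
      exact Real.sqrt_pos.mpr ht
  have h2 : Tendsto (fun t : ℝ => Real.sqrt a / Real.sqrt t) (𝓝[>] 0) atTop := by
    simp only [div_eq_mul_inv]
    exact Tendsto.const_mul_atTop (Real.sqrt_pos.mpr ha) (tendsto_inv_nhdsGT_zero.comp h1)
  have h3 : Tendsto (fun t : ℝ => c * Real.sqrt t) (𝓝[>] 0) (𝓝 (c * 0)) :=
    (h1.mono_right nhdsWithin_le_nhds).const_mul c
  exact tendsto_atTop_add_right_of_le' _ (c * 0 - 1) h2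
    ((h3.eventually (lt_mem_nhds (sub_one_lt _))).mono fun _ h => h.le)

private theorem phi_one (a : ℝ) :
    Tendsto (fun t : ℝ => Real.sqrt a / Real.sqrt t) atTop (𝓝 0) := by
  simp only [div_eq_mul_inv]
  simpa using (tendsto_inv_atTop_zero.comp Real.tendsto_sqrt_atTop).const_mul (Real.sqrt a)

private theorem phi_top (a : ℝ) {c : ℝ} (hc : 0 < c) : Tendsto (phi a c) atTop atTop :=
  (phi_one a).add_atTop (Real.tendsto_sqrt_atTop.const_mul_atTop hc)

private theorem phi_bot (a : ℝ) {c : ℝ} (hc : c < 0) : Tendsto (phi a c) atTop atBot :=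
  (phi_one a).add_atBot (Real.tendsto_sqrt_atTop.const_mul_atTop_of_neg hc)

private theorem phi_nil (a : ℝ) : Tendsto (phi a 0) atTop (𝓝 0) := by
  refine (phi_one a).congr (fun t => ?_)
  simp [phi]

private theorem phi_sq {a b : ℝ} (ha : 0 < a) (hb : 0 ≤ b) {t : ℝ} (ht : 0 < t) (σ : ℝ)
    (hσ : σ ^ 2 = 1) :
    phi a (σ * Real.sqrt b) t ^ 2 = a / t + b * t + 2 * σ * Real.sqrt (a * b) := by
  have hs : 0 < Real.sqrt t := Real.sqrt_pos.mpr ht
  have h1 : Real.sqrt a ^ 2 = a := Real.sq_sqrt ha.le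
  have h2 : Real.sqrt b ^ 2 = b := Real.sq_sqrt hb
  have h3 : Real.sqrt t ^ 2 = t := Real.sq_sqrt ht.le
  rw [Real.sqrt_mul ha.le]
  unfold phi
  have e : (Real.sqrt a / Real.sqrt t + σ * Real.sqrt b * Real.sqrt t) ^ 2 =
      Real.sqrt a ^ 2 / Real.sqrt t ^ 2 + σ ^ 2 * Real.sqrt b ^ 2 * Real.sqrt t ^ 2 +
        2 * σ * (Real.sqrt a * Real.sqrt b) := by
    field_simp
    ring
  rw [e, h1, h2, h3, hσ, one_mul]

end AnExpAux

open AnExpAux Filter Topology in
theorem integral_exp_neg_div {a b : ℝ} (ha : 0 < a) (hb : 0 ≤ b) :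
    IntegrableOn (fun t : ℝ => t ^ (-(3 / 2) : ℝ) * Real.exp (-(a / t) - b * t)) (Set.Ioi 0) ∧
    ∫ t in Set.Ioi (0 : ℝ), t ^ (-(3 / 2) : ℝ) * Real.exp (-(a / t) - b * t) =
      Real.sqrt (Real.pi / a) * Real.exp (-(2 * Real.sqrt (a * b))) := by
  set A := Real.sqrt a with hA
  have hA0 : 0 < A := Real.sqrt_pos.mpr ha
  set s := Real.sqrt (a * b) with hs
  set P := Real.sqrt Real.pi / 2 with hP
  set l0 : ℝ := -(1 / A) * (Real.exp (-(2 * s)) * P + Real.exp (2 * s) * P) with hl0
  set H : ℝ → ℝ := fun t => -(1 / A) * (Real.exp (-(2 * s)) * G (phi a (-1 * Real.sqrt b) t) +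
    Real.exp (2 * s) * G (phi a (1 * Real.sqrt b) t)) with hH
  set F : ℝ → ℝ := fun t => if t ≤ 0 then l0 else H t with hF
  have hF0 : F 0 = l0 := by simp [hF]
  have hFH : ∀ t, 0 < t → F t = H t := fun t ht => by simp [hF, not_le.mpr ht]
  have hd : ∀ t ∈ Set.Ioi (0 : ℝ),
      HasDerivAt F (t ^ (-(3 / 2) : ℝ) * Real.exp (-(a / t) - b * t)) t := by
    intro t ht
    have ht : 0 < t := ht
    have hev : F =ᶠ[𝓝 t] H := by
      filter_upwards [lt_mem_nhds ht] with u hu
      exact hFH u hu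
    refine HasDerivAt.congr_of_eventuallyEq ?_ hev
    have d1 := ((G_deriv (phi a (-1 * Real.sqrt b) t)).comp t
      (phi_deriv a (-1 * Real.sqrt b) ht)).const_mul (Real.exp (-(2 * s)))
    have d2 := ((G_deriv (phi a (1 * Real.sqrt b) t)).comp t
      (phi_deriv a (1 * Real.sqrt b) ht)).const_mul (Real.exp (2 * s))
    have d3 := (d1.add d2).const_mul (-(1 / A))
    refine d3.congr_deriv ?_
    rw [phi_sq ha hb ht (-1) (by norm_num), phi_sq ha hb ht 1 (by norm_num)]
    have e1 : Real.exp (-(2 * s)) * (Real.exp (-(a / t + b * t + 2 * -1 * Real.sqrt (a * b))) *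
        (-(Real.sqrt a * t ^ (-(3 / 2) : ℝ)) / 2 + -1 * Real.sqrt b / (2 * Real.sqrt t))) =
        Real.exp (-(a / t) - b * t) *
        (-(Real.sqrt a * t ^ (-(3 / 2) : ℝ)) / 2 + -1 * Real.sqrt b / (2 * Real.sqrt t)) := by
      rw [← mul_assoc, ← Real.exp_add]
      congr 2
      rw [← hs]
      ring
    have e2 : Real.exp (2 * s) * (Real.exp (-(a / t + b * t + 2 * 1 * Real.sqrt (a * b))) *
        (-(Real.sqrt a * t ^ (-(3 / 2) : ℝ)) / 2 + 1 * Real.sqrt b / (2 * Real.sqrt t))) =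
        Real.exp (-(a / t) - b * t) *
        (-(Real.sqrt a * t ^ (-(3 / 2) : ℝ)) / 2 + 1 * Real.sqrt b / (2 * Real.sqrt t)) := by
      rw [← mul_assoc, ← Real.exp_add]
      congr 2
      rw [← hs]
      ring
    rw [e1, e2, ← hA]
    field_simp
    ring
  have hcont : ContinuousWithinAt F (Set.Ici 0) 0 := by
    rw [← continuousWithinAt_Ioi_iff_Ici]
    unfold ContinuousWithinAt
    rw [hF0]
    have h1 : Tendsto H (𝓝[>] 0) (𝓝 l0) := by
      have g1 := (G_top.comp (phi_zero ha (-1 * Real.sqrt b))).const_mul (Real.exp (-(2 * s)))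
      have g2 := (G_top.comp (phi_zero ha (1 * Real.sqrt b))).const_mul (Real.exp (2 * s))
      exact (g1.add g2).const_mul (-(1 / A))
    refine h1.congr' ?_
    filter_upwards [self_mem_nhdsWithin] with t ht
    exact (hFH t ht).symm
  have hpos : ∀ t ∈ Set.Ioi (0 : ℝ), 0 ≤ t ^ (-(3 / 2) : ℝ) * Real.exp (-(a / t) - b * t) :=
    fun t ht => mul_nonneg (Real.rpow_nonneg (le_of_lt ht) _) (Real.exp_pos _).le
  have hval : Real.sqrt (Real.pi / a) * Real.exp (-(2 * s)) = 2 * P / A * Real.exp (-(2 * s)) := by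
    rw [Real.sqrt_div Real.pi_pos.le, hP, hA]
    ring
  have htop : Tendsto F atTop (𝓝 (l0 + Real.sqrt (Real.pi / a) * Real.exp (-(2 * s)))) := by
    have hev : H =ᶠ[atTop] F := by
      filter_upwards [eventually_gt_atTop 0] with t ht
      exact (hFH t ht).symm
    refine Tendsto.congr' hev ?_
    rcases hb.eq_or_lt with rfl | hb'
    · have s0 : s = 0 := by simp [hs]
      have g0 : Tendsto G (𝓝 0) (𝓝 0) := by
        have := G_cont.tendsto 0
        have h0 : G 0 = 0 := by simp [G]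
        rwa [h0] at this
      have g1 := ((g0.comp (phi_nil a)).const_mul (Real.exp (-(2 * s))))
      have g2 := ((g0.comp (phi_nil a)).const_mul (Real.exp (2 * s)))
      have g3 := (g1.add g2).const_mul (-(1 / A))
      have e : l0 + Real.sqrt (Real.pi / a) * Real.exp (-(2 * s)) =
          -(1 / A) * (Real.exp (-(2 * s)) * 0 + Real.exp (2 * s) * 0) := by
        rw [hval, hl0, s0]
        simp
        ring
      rw [e]
      simpa [hH, Function.comp_def] using g3
    · have hB : 0 < Real.sqrt b := Real.sqrt_pos.mpr hb'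
      have g1 := ((G_bot.comp (phi_bot a (c := -1 * Real.sqrt b) (by linarith))).const_mul
        (Real.exp (-(2 * s))))
      have g2 := ((G_top.comp (phi_top a (c := 1 * Real.sqrt b) (by linarith))).const_mul
        (Real.exp (2 * s)))
      have g3 := (g1.add g2).const_mul (-(1 / A))
      have e : l0 + Real.sqrt (Real.pi / a) * Real.exp (-(2 * s)) =
          -(1 / A) * (Real.exp (-(2 * s)) * -P + Real.exp (2 * s) * P) := by
        rw [hval, hl0]
        ring
      rw [e]
      exact g3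
  refine ⟨integrableOn_Ioi_deriv_of_nonneg hcont hd hpos htop, ?_⟩
  rw [integral_Ioi_of_hasDerivAt_of_nonneg hcont hd hpos htop, hF0]
  ring

end Pool.Agent.CMG
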