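import Pool.Agent.CMG.AnPair

/-!
# Lambda_zero_split (splitting off the m = 0 term)

Put `f₁ t = fker r x y t - t^{-1/2} evenKernel y (r² t)`. At `0`:
`f₁ = t^{-1/2} (cosKernel x (1/t) - 1) evenKernel y (r² t)` decays like `exp(-c/t)`; at `∞` both
terms decay exponentially since `y ∉ ℤ`. So `mellin f₁` is entire. For `Re s > 1`
`Λ(s) = mellin f s = mellin f₁ s + 2 r^{1-2s} completedHurwitzZetaEven y (2s-1)`, because
`mellin (t^{-1/2} evenKernel y (r² t)) s = (r²)^{1/2-s} mellin (evenKernel y) (s-1/2)` and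
`completedHurwitzZetaEven y s' = (hurwitzEvenFEPair y).Λ (s'/2) / 2`. Both sides are analytic off
`s = 1` (`differentiableAt_completedHurwitzZetaEven`, `y ≠ 0`), so they agree at `s = 0` (identity
theorem on the connected set `{1}ᶜ`), and `completedHurwitzZetaEven y (-1) = completedCosZeta y 2`
(`completedHurwitzZetaEven_one_sub`).
-/

set_option autoImplicit false

noncomputable section

open Complex HurwitzZeta MeasureTheory

namespace Pool.Agent.CMG

open Filter Asymptotics Topology in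
private theorem split_bigO {l : Filter ℝ} (hl0 : ∀ᶠ t in l, (0 : ℝ) < t) {r : ℝ} (hr : 0 < r)
    (hl : Tendsto (fun t => r ^ 2 * t) l l) {h : ℝ → ℂ} {a : ℝ}
    (hh : h =O[l] (fun t : ℝ => t ^ (-a + 1 / 2))) :
    (fun t : ℝ => (t : ℂ) ^ (-(1 / 2) : ℂ) • h (r ^ 2 * t)) =O[l] (fun t : ℝ => t ^ (-a)) := by
  obtain ⟨C, hC⟩ := (hh.comp_tendsto hl).bound
  refine IsBigO.of_bound (C * (r ^ 2) ^ (-a + 1 / 2)) ?_
  filter_upwards [hC, hl0] with t ht ht0
  have hr2 : (0 : ℝ) < r ^ 2 := by positivity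
  rw [norm_smul, norm_cpow_eq_rpow_re_of_pos ht0]
  have e0 : ((-(1 / 2) : ℂ)).re = -(1 / 2) := by norm_num
  rw [e0]
  have h1 : ‖h (r ^ 2 * t)‖ ≤ C * (r ^ 2 * t) ^ (-a + 1 / 2) := by
    have h2 : ‖((fun t : ℝ => t ^ (-a + 1 / 2)) ∘ fun t => r ^ 2 * t) t‖
        = (r ^ 2 * t) ^ (-a + 1 / 2) := by
      show ‖(r ^ 2 * t) ^ (-a + 1 / 2)‖ = _
      exact Real.norm_of_nonneg (Real.rpow_nonneg (by positivity) _)
    rw [h2] at ht
    exact ht
  have h3 : (0 : ℝ) ≤ t ^ (-(1 / 2) : ℝ) := Real.rpow_nonneg ht0.le _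
  have h4 : ‖t ^ (-a)‖ = t ^ (-a) := Real.norm_of_nonneg (Real.rpow_nonneg ht0.le _)
  rw [h4]
  calc t ^ (-(1 / 2) : ℝ) * ‖h (r ^ 2 * t)‖
      ≤ t ^ (-(1 / 2) : ℝ) * (C * (r ^ 2 * t) ^ (-a + 1 / 2)) := mul_le_mul_of_nonneg_left h1 h3
    _ = C * (r ^ 2) ^ (-a + 1 / 2) * (t ^ (-(1 / 2) : ℝ) * t ^ (-a + 1 / 2)) := by
        rw [Real.mul_rpow hr2.le ht0.le]
        ring
    _ = C * (r ^ 2) ^ (-a + 1 / 2) * t ^ (-a) := by
        rw [← Real.rpow_add ht0]
        congr 2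
        ring

open Filter Asymptotics Topology in
theorem Lambda_zero_split {r x y : ℝ} (hr : 0 < r) (hy : (y : UnitAddCircle) ≠ 0)
    {P : WeakFEPair ℂ} (hP : IsRectPair r x y P) :
    P.Λ 0 = 2 * r * completedCosZeta y 2 +
      ∫ t in Set.Ioi (0 : ℝ), (((fker r x y t - t ^ (-(1 / 2) : ℝ) * evenKernel y (r ^ 2 * t)) / t
        : ℝ) : ℂ) := by
  have hr2 : (0 : ℝ) < r ^ 2 := by positivity
  set E : WeakFEPair ℂ := hurwitzEvenFEPair (y : UnitAddCircle) with hE
  have hEf : ∀ t, E.f t = (evenKernel y t : ℂ) := fun t => rfl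
  have hEk : E.k = 1 / 2 := rfl
  have hEf₀ : E.f₀ = 0 := by
    show (if (y : UnitAddCircle) = 0 then (1 : ℂ) else 0) = 0
    rw [if_neg hy]
  have hEε : E.ε = 1 := rfl
  have hEg₀ : E.g₀ = 1 := rfl
  -- the two parts
  set F2 : ℝ → ℂ := fun t => (t : ℂ) ^ (-(1 / 2) : ℂ) • E.f (r ^ 2 * t) with hF2
  set F1 : ℝ → ℂ := fun t => P.f t - F2 t with hF1
  -- asymptotics
  have htop : Tendsto (fun t : ℝ => r ^ 2 * t) atTop atTop := tendsto_id.const_mul_atTop hr2
  have hzero : Tendsto (fun t : ℝ => r ^ 2 * t) (𝓝[>] 0) (𝓝[>] 0) := by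
    rw [tendsto_nhdsWithin_iff]
    constructor
    · have h1 : Tendsto (fun t : ℝ => r ^ 2 * t) (𝓝 0) (𝓝 (r ^ 2 * 0)) :=
        tendsto_id.const_mul _
      rw [mul_zero] at h1
      exact h1.mono_left nhdsWithin_le_nhds
    · filter_upwards [self_mem_nhdsWithin] with t ht
      exact mul_pos hr2 ht
  have hF1top : ∀ a : ℝ, F1 =O[atTop] (fun t : ℝ => t ^ (-a)) := by
    intro a
    have h1 := P.hf_top (-a)
    have h2 := E.hf_top (-a + 1 / 2)
    rw [hP.f₀] at h1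
    rw [hEf₀] at h2
    simp only [sub_zero] at h1 h2
    exact h1.sub (split_bigO (eventually_gt_atTop 0) hr htop h2)
  have hF1zero : ∀ a : ℝ, F1 =O[𝓝[>] 0] (fun t : ℝ => t ^ (-a)) := by
    intro a
    have h1 := P.hf_zero (-a)
    have h2 := E.hf_zero (-a + 1 / 2)
    rw [hP.ε, hP.k, hP.g₀] at h1
    rw [hEε, hEk, hEg₀] at h2
    have h3 := h1.sub (split_bigO self_mem_nhdsWithin hr hzero h2)
    refine h3.congr' ?_ EventuallyEq.rfl
    filter_upwards [self_mem_nhdsWithin] with t ht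
    have ht0 : (0 : ℝ) < t := ht
    have h4 : (t : ℂ) ^ (-(1 / 2) : ℂ) = ((t ^ (-(1 / 2) : ℝ) : ℝ) : ℂ) := by
      rw [ofReal_cpow ht0.le]
      norm_num
    have h5 : (r ^ 2 * t) ^ (-(1 / 2) : ℝ) = r⁻¹ * t ^ (-(1 / 2) : ℝ) := by
      rw [Real.mul_rpow hr2.le ht0.le]
      congr 1
      rw [← Real.rpow_natCast, ← Real.rpow_mul hr.le]
      norm_num
      rw [Real.rpow_neg_one]
    have h6 : t ^ (-(1 / 2) : ℝ) * t ^ (-(1 / 2) : ℝ) = t ^ (-1 : ℝ) := by
      rw [← Real.rpow_add ht0]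
      norm_num
    show (P.f t - (1 * ((t ^ (-1 : ℝ) : ℝ) : ℂ)) • ((r⁻¹ : ℝ) : ℂ)) -
      (t : ℂ) ^ (-(1 / 2) : ℂ) • (E.f (r ^ 2 * t) -
        (1 * (((r ^ 2 * t) ^ (-(1 / 2) : ℝ) : ℝ) : ℂ)) • (1 : ℂ)) = P.f t - F2 t
    rw [hF2]
    simp only [smul_eq_mul, one_mul, mul_one]
    rw [h5, ← h6, h4]
    push_cast
    ring
  have hF2cont : ContinuousOn F2 (Set.Ioi 0) := by
    have c1 : ContinuousOn (fun t : ℝ => (t : ℂ) ^ (-(1 / 2) : ℂ)) (Set.Ioi 0) := by
      intro t ht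
      apply ContinuousAt.continuousWithinAt
      exact (continuousAt_ofReal_cpow_const t _ (Or.inr (ne_of_gt ht)))
    have c2 : ContinuousOn (fun t : ℝ => E.f (r ^ 2 * t)) (Set.Ioi 0) := by
      have h1 : ContinuousOn (fun t : ℝ => evenKernel (y : UnitAddCircle) (r ^ 2 * t))
          (Set.Ioi 0) :=
        (continuousOn_evenKernel (y : UnitAddCircle)).comp (continuousOn_const.mul continuousOn_id)
          fun t ht => mul_pos hr2 ht
      exact continuous_ofReal.comp_continuousOn h1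
    exact c1.smul c2
  have hF1int : LocallyIntegrableOn F1 (Set.Ioi 0) :=
    P.hf_int.sub (hF2cont.locallyIntegrableOn measurableSet_Ioi)
  have hM1 : ∀ s : ℂ, MellinConvergent F1 s := fun s =>
    mellinConvergent_of_isBigO_rpow hF1int (hF1top (s.re + 1)) (by linarith)
      (hF1zero (s.re - 1)) (by linarith)
  have hD1 : Differentiable ℂ (mellin F1) := fun s =>
    mellin_differentiableAt_of_isBigO_rpow hF1int (hF1top (s.re + 1)) (by linarith)
      (hF1zero (s.re - 1)) (by linarith)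
  -- the Mellin transform for large `s`
  have hlarge : ∀ s : ℂ, 1 < s.re → P.Λ s = mellin F1 s +
      2 * (((r ^ 2 : ℝ) : ℂ) ^ (1 / 2 - s) * completedHurwitzZetaEven y (2 * s - 1)) := by
    intro s hs
    have h1 : HasMellin (P.f · - P.f₀) s (P.Λ s) := P.hasMellin (by rw [hP.k]; exact hs)
    rw [hP.f₀] at h1
    simp only [sub_zero] at h1
    have hre : ((s + -(1 / 2) : ℂ)).re = s.re - 1 / 2 := by
      simp
      ring
    have h2 : HasMellin (E.f · - E.f₀) (s + -(1 / 2)) (E.Λ (s + -(1 / 2))) :=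
      E.hasMellin (by rw [hEk, hre]; linarith)
    rw [hEf₀] at h2
    simp only [sub_zero] at h2
    have h3 : MellinConvergent F2 s := by
      rw [hF2, MellinConvergent.cpow_smul, MellinConvergent.comp_mul_left hr2]
      exact h2.1
    have h4 : mellin F2 s = 2 * (((r ^ 2 : ℝ) : ℂ) ^ (1 / 2 - s) *
        completedHurwitzZetaEven y (2 * s - 1)) := by
      rw [hF2, mellin_cpow_smul, mellin_comp_mul_left _ _ hr2, h2.2]
      unfold completedHurwitzZetaEven
      have e1 : (2 * s - 1) / 2 = s + -(1 / 2) := by ring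
      have e2 : -(s + -(1 / 2)) = 1 / 2 - s := by ring
      rw [e1, e2, smul_eq_mul]
      ring
    have h5 := (hasMellin_add (hM1 s) h3).2
    have h6 : (fun t => F1 t + F2 t) = P.f := by
      funext t
      rw [hF1]
      exact sub_add_cancel _ _
    rw [h6, h1.2, h4] at h5
    exact h5
  -- identity theorem
  have hconn : IsPreconnected ({1}ᶜ : Set ℂ) :=
    (isConnected_compl_singleton_of_one_lt_rank (by simp) 1).isPreconnected
  have hL : DifferentiableOn ℂ P.Λ {1}ᶜ := by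
    intro s hs
    refine (P.differentiableAt_Λ (Or.inr hP.f₀) (Or.inl ?_)).differentiableWithinAt
    rw [hP.k]
    simpa using hs
  have hR : DifferentiableOn ℂ (fun s => mellin F1 s +
      2 * (((r ^ 2 : ℝ) : ℂ) ^ (1 / 2 - s) * completedHurwitzZetaEven y (2 * s - 1))) {1}ᶜ := by
    intro s hs
    have hs1 : s ≠ 1 := hs
    have h1 : DifferentiableAt ℂ (fun s : ℂ => completedHurwitzZetaEven y (2 * s - 1)) s := by
      have h2 : DifferentiableAt ℂ (completedHurwitzZetaEven y) (2 * s - 1) := by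
        apply differentiableAt_completedHurwitzZetaEven _ (Or.inr hy)
        intro h3
        apply hs1
        linear_combination (1 / 2 : ℂ) * h3
      exact DifferentiableAt.comp (g := completedHurwitzZetaEven y)
        (f := fun s : ℂ => 2 * s - 1) s h2 (by fun_prop)
    have h4 : DifferentiableAt ℂ (fun s : ℂ => ((r ^ 2 : ℝ) : ℂ) ^ (1 / 2 - s)) s := by
      apply DifferentiableAt.const_cpow (by fun_prop)
      left
      exact_mod_cast hr2.ne'
    exact ((hD1 s).add ((h4.mul h1).const_mul 2)).differentiableWithinAt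
  have hopen : IsOpen ({1}ᶜ : Set ℂ) := isOpen_compl_singleton
  have heq := (hL.analyticOnNhd hopen).eqOn_of_preconnected_of_eventuallyEq
    (hR.analyticOnNhd hopen) hconn (z₀ := 2) (by simp) (by
      have h1 : {s : ℂ | 1 < s.re} ∈ 𝓝 (2 : ℂ) :=
        (isOpen_lt continuous_const continuous_re).mem_nhds (by simp)
      filter_upwards [h1] with s hs
      exact hlarge s hs)
  have h0 := heq (show (0 : ℂ) ∈ ({1}ᶜ : Set ℂ) by simp)
  have e1 : ((r ^ 2 : ℝ) : ℂ) ^ (1 / 2 - 0 : ℂ) = r := by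
    have h1 : (1 / 2 - 0 : ℂ) = ((1 / 2 : ℝ) : ℂ) := by push_cast; ring
    rw [h1, ← ofReal_cpow hr2.le, ← Real.sqrt_eq_rpow, Real.sqrt_sq hr.le]
  have e2 : completedHurwitzZetaEven y (2 * 0 - 1) = completedCosZeta y 2 := by
    rw [← completedHurwitzZetaEven_one_sub]
    congr 1
    ring
  have e3 : mellin F1 0 = ∫ t in Set.Ioi (0 : ℝ),
      (((fker r x y t - t ^ (-(1 / 2) : ℝ) * evenKernel y (r ^ 2 * t)) / t : ℝ) : ℂ) := by
    unfold mellin
    refine setIntegral_congr_fun measurableSet_Ioi fun t ht => ?_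
    have ht0 : (0 : ℝ) < t := ht
    have h4 : (t : ℂ) ^ (-(1 / 2) : ℂ) = ((t ^ (-(1 / 2) : ℝ) : ℝ) : ℂ) := by
      rw [ofReal_cpow ht0.le]
      norm_num
    have h5 : (t : ℂ) ^ (0 - 1 : ℂ) = (t : ℂ)⁻¹ := by
      rw [zero_sub, cpow_neg_one]
    show (t : ℂ) ^ (0 - 1 : ℂ) • (P.f t - (t : ℂ) ^ (-(1 / 2) : ℂ) • E.f (r ^ 2 * t)) = _
    rw [h5, h4, hP.f, hEf]
    push_cast
    rw [smul_eq_mul, smul_eq_mul, inv_mul_eq_div]
  rw [h0]
  simp only
  rw [e1, e2, e3]
  ring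

end Pool.Agent.CMG
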