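import Pool.Agent.CMG.AnRect
import Pool.Agent.CMG.AnSplit
import Pool.Agent.CMG.AnDsumInt
import Pool.Agent.CMG.AnCos
import Pool.Agent.CMG.AnBB

/-!
# kron_rect: Kronecker second limit formula for rectangular lattices

If `y ∉ ℤ`: everything depends only on `y` modulo `1` (`IsRect` by reindexing, `BB_periodic`),
so `0 < y < 1`, and the previous files give `Z'(0) = Λ(0) = 2r π (y² - y + 1/6) + dsum = BB`.
If `y ∈ ℤ`, then `x ∉ ℤ`. Swap: `((x+m)² + r²(y+n)²)^{-s} = r^{-2s} ((y+n)² + r^{-2}(x+m)²)^{-s}`, so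
if `IsRect r⁻¹ y x Z'` then `IsRect r x y (fun s => r^{-2s} Z' s)` (with the same derivative at `0`,
as `Z' 0 = 0`). Hence `Z'(0) = BB r⁻¹ (y + (x/r) i)`. For `x, y` both not in `ℤ` both formulas hold and
`Z` is unique (identity theorem, `Z` is determined by its values for `Re s > 1`), so
`BB r (x + r y i) = BB r⁻¹ (y + r⁻¹ x i)` for `x, y ∉ ℤ`; by continuity of `BB` where `PP ≠ 0` also
for `y ∈ ℤ`, `x ∉ ℤ`.
-/

set_option autoImplicit false

noncomputable section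

open Complex HurwitzZeta MeasureTheory Filter Topology

namespace Pool.Agent.CMG

private lemma kron_int_iff (x : ℝ) : (x : UnitAddCircle) = 0 ↔ ∃ n : ℤ, (n : ℝ) = x := by
  rw [AddCircle.coe_eq_zero_iff]
  simp

private lemma isRect_shift {r x y : ℝ} {Z : ℂ → ℂ} (h : IsRect r x y Z) (m n : ℤ) :
    IsRect r (x + m) (y + n) Z where
  diff := h.diff
  zero := h.zero
  sum := by
    intro s hs
    have h1 := (Equiv.addLeft ((m, n) : ℤ × ℤ)).hasSum_iff.2 (h.sum s hs)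
    have h2 : (fun p : ℤ × ℤ => (((x + m + p.1) ^ 2 + r ^ 2 * (y + n + p.2) ^ 2 : ℝ) : ℂ) ^ (-s)) =
        (fun p : ℤ × ℤ => (((x + p.1) ^ 2 + r ^ 2 * (y + p.2) ^ 2 : ℝ) : ℂ) ^ (-s)) ∘
          (Equiv.addLeft ((m, n) : ℤ × ℤ)) := by
      funext p
      simp only [Function.comp_apply, Equiv.coe_addLeft, Prod.fst_add, Prod.snd_add, Int.cast_add,
        add_assoc]
    rw [h2]
    exact h1

/-- uniqueness of the continuation -/
private lemma isRect_deriv {r x y : ℝ} {Z Z' : ℂ → ℂ} (h : IsRect r x y Z)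
    (h' : IsRect r x y Z') : deriv Z 0 = deriv Z' 0 := by
  have hopen : IsOpen ({1}ᶜ : Set ℂ) := isOpen_compl_singleton
  have hmem : (0 : ℂ) ∈ ({1}ᶜ : Set ℂ) := by simp
  have hZ : AnalyticOnNhd ℂ Z {1}ᶜ := h.diff.analyticOnNhd hopen
  have hW : AnalyticOnNhd ℂ Z' {1}ᶜ := h'.diff.analyticOnNhd hopen
  have hconn : IsPreconnected ({1}ᶜ : Set ℂ) :=
    (isConnected_compl_singleton_of_one_lt_rank (by simp) 1).isPreconnected
  have hev : Z =ᶠ[𝓝 (2 : ℂ)] Z' := by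
    have ho : IsOpen {s : ℂ | 1 < s.re} := isOpen_lt continuous_const Complex.continuous_re
    filter_upwards [ho.mem_nhds (show (2 : ℂ) ∈ {s : ℂ | 1 < s.re} by simp)] with s hs
    exact (h.sum s hs).unique (h'.sum s hs)
  have hall := hZ.eqOn_of_preconnected_of_eventuallyEq hW hconn
    (show (2 : ℂ) ∈ ({1}ᶜ : Set ℂ) by simp) hev
  have h0 : Z =ᶠ[𝓝 (0 : ℂ)] Z' := by
    filter_upwards [hopen.mem_nhds hmem] with s hs
    exact hall hs
  exact h0.deriv_eq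

/-- exchanging the two coordinates -/
private lemma isRect_swap {r x y : ℝ} (hr : 0 < r) {Z : ℂ → ℂ} (h : IsRect r⁻¹ y x Z) :
    ∃ Z' : ℂ → ℂ, IsRect r x y Z' ∧ deriv Z' 0 = deriv Z 0 := by
  have hc : (((r ^ 2 : ℝ)) : ℂ) ≠ 0 := by
    exact_mod_cast (pow_pos hr 2).ne'
  have hd : Differentiable ℂ fun s : ℂ => (((r ^ 2 : ℝ)) : ℂ) ^ (-s) := fun s =>
    (differentiableAt_id.neg).const_cpow (Or.inl hc)
  refine ⟨fun s => (((r ^ 2 : ℝ)) : ℂ) ^ (-s) * Z s, ⟨?_, ?_, ?_⟩, ?_⟩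
  · exact hd.differentiableOn.mul h.diff
  · intro s hs
    have h1 := ((Equiv.prodComm ℤ ℤ).hasSum_iff.2 (h.sum s hs)).mul_left
      ((((r ^ 2 : ℝ)) : ℂ) ^ (-s))
    have h2 : (fun p : ℤ × ℤ => (((x + p.1) ^ 2 + r ^ 2 * (y + p.2) ^ 2 : ℝ) : ℂ) ^ (-s)) =
        fun p : ℤ × ℤ => (((r ^ 2 : ℝ)) : ℂ) ^ (-s) *
          ((fun p : ℤ × ℤ => (((y + p.1) ^ 2 + r⁻¹ ^ 2 * (x + p.2) ^ 2 : ℝ) : ℂ) ^ (-s)) ∘
            (Equiv.prodComm ℤ ℤ)) p := by
      funext p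
      simp only [Function.comp_apply, Equiv.prodComm_apply, Prod.fst_swap, Prod.snd_swap]
      rw [← mul_cpow_ofReal_nonneg (by positivity) (by positivity), ← ofReal_mul]
      congr 2
      field_simp
      ring
    rw [h2]
    exact h1
  · rw [h.zero, mul_zero]
  · have hZ : DifferentiableAt ℂ Z 0 :=
      h.diff.differentiableAt (isOpen_compl_singleton.mem_nhds (by simp))
    have e1 := ((hd 0).hasDerivAt.mul hZ.hasDerivAt).deriv
    have e2 : deriv (fun s => (((r ^ 2 : ℝ)) : ℂ) ^ (-s) * Z s) 0 = _ := e1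
    rw [e2, h.zero, mul_zero, zero_add, neg_zero, cpow_zero, one_mul]

private lemma kron_unit {r x y : ℝ} (hr : 0 < r) (hy0 : 0 < y) (hy1 : y < 1) :
    ∃ Z : ℂ → ℂ, IsRect r x y Z ∧ deriv Z 0 = (BB r (x + r * y * I) : ℝ) := by
  have hy : (y : UnitAddCircle) ≠ 0 := by
    rw [Ne, kron_int_iff]
    rintro ⟨n, rfl⟩
    have h1 : (0 : ℤ) < n := by exact_mod_cast hy0
    have h2 : n < (1 : ℤ) := by exact_mod_cast hy1
    omega
  obtain ⟨P, hP⟩ := exists_pair (x := x) hr (Or.inr hy)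
  obtain ⟨Z, hZ, hd⟩ := isRect_of_pair hr (Or.inr hy) hP
  refine ⟨Z, hZ, ?_⟩
  rw [hd, Lambda_zero_split hr hy hP, completedCosZeta_two hy0 hy1, integral_complex_ofReal,
    integral_eq_dsum hr hy, dsum_eq hr hy0 hy1]
  have him : ((x : ℂ) + r * y * I).im = r * y := by simp
  rw [BB, him, mul_div_cancel_left₀ _ hr.ne']
  push_cast
  ring

private lemma PP_ne {r x y : ℝ} (hr : 0 < r) (h : ¬ ((∃ m : ℤ, (m : ℝ) = x) ∧ ∃ n : ℤ, (n : ℝ) = y)) :
    PP r (x + r * y * I) ≠ 0 := by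
  rw [Ne, PP_eq_zero_iff hr]
  rintro ⟨m, n, hmn⟩
  apply h
  have h1 := congrArg Complex.re hmn
  have h2 := congrArg Complex.im hmn
  simp at h1 h2
  refine ⟨⟨m, h1.symm⟩, ⟨n, ?_⟩⟩
  apply mul_left_cancel₀ hr.ne'
  rw [h2]
  ring

private lemma kron_y {r x y : ℝ} (hr : 0 < r) (hy : ¬ ∃ n : ℤ, (n : ℝ) = y) :
    ∃ Z : ℂ → ℂ, IsRect r x y Z ∧ deriv Z 0 = (BB r (x + r * y * I) : ℝ) := by
  have hf0 : 0 < Int.fract y := by
    rcases (Int.fract_nonneg y).eq_or_lt with h | h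
    · exact absurd ⟨⌊y⌋, by have := Int.self_sub_floor y; linarith⟩ hy
    · exact h
  have hf1 := Int.fract_lt_one y
  obtain ⟨Z, hZ, hd⟩ := kron_unit (x := x) hr hf0 hf1
  have hne : PP r (x + r * (Int.fract y : ℝ) * I) ≠ 0 := by
    apply PP_ne hr
    rintro ⟨-, n, hn⟩
    rw [← hn] at hf0 hf1
    have h1 : (0 : ℤ) < n := by exact_mod_cast hf0
    have h2 : n < (1 : ℤ) := by exact_mod_cast hf1
    omega
  refine ⟨Z, ?_, ?_⟩
  · have h1 := isRect_shift hZ 0 ⌊y⌋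
    have e1 : x + ((0 : ℤ) : ℝ) = x := by simp
    have e2 : Int.fract y + (⌊y⌋ : ℝ) = y := Int.fract_add_floor y
    rwa [e1, e2] at h1
  · have h1 := BB_periodic hr hne 0 ⌊y⌋
    have e1 : (x : ℂ) + r * (Int.fract y : ℝ) * I + ((0 : ℤ) : ℂ) + (⌊y⌋ : ℂ) * r * I =
        x + r * y * I := by
      have e2 : (y : ℂ) = (Int.fract y : ℝ) + (⌊y⌋ : ℂ) := by
        exact_mod_cast (Int.fract_add_floor y).symm
      rw [e2]
      push_cast
      ring
    rw [e1] at h1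
    rw [hd, h1]

private lemma kron_continuousAt {r : ℝ} (hr : 0 < r) {z : ℂ} (hz : PP r z ≠ 0) :
    ContinuousAt (BB r) z := by
  unfold BB
  have h1 : ContinuousAt (fun z => Real.log ‖PP r z‖) z := by
    apply ContinuousAt.log
    · exact ((differentiable_PP hr).continuous.continuousAt).norm
    · exact norm_ne_zero_iff.2 hz
  have h2 : Continuous fun z : ℂ => 2 * Real.pi * r * ((z.im / r) ^ 2 - z.im / r + 1 / 6) := by
    fun_prop
  exact (h1.const_mul (-2)).add h2.continuousAt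

private lemma kron_symm {r x y : ℝ} (hr : 0 < r) (hx : ¬ ∃ n : ℤ, (n : ℝ) = x)
    (hy : ¬ ∃ n : ℤ, (n : ℝ) = y) :
    BB r (x + r * y * I) = BB r⁻¹ (y + (r⁻¹ : ℝ) * x * I) := by
  obtain ⟨Z, hZ, hd⟩ := kron_y (x := x) hr hy
  obtain ⟨Z', hZ', hd'⟩ := kron_y (x := y) (inv_pos.2 hr) hx
  obtain ⟨Z₂, hZ₂, hd₂⟩ := isRect_swap hr hZ'
  have h1 := isRect_deriv hZ hZ₂
  rw [hd, hd₂, hd'] at h1
  exact_mod_cast h1

/-- Kronecker's second limit formula for a rectangular lattice -/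
theorem kron_rect {r x y : ℝ} (hr : 0 < r)
    (hxy : (x : UnitAddCircle) ≠ 0 ∨ (y : UnitAddCircle) ≠ 0) :
    ∃ Z : ℂ → ℂ, IsRect r x y Z ∧ deriv Z 0 = (BB r (x + r * y * I) : ℝ) := by
  by_cases hy : ∃ n : ℤ, (n : ℝ) = y
  swap
  · exact kron_y hr hy
  have hx : ¬ ∃ n : ℤ, (n : ℝ) = x := by
    rw [← kron_int_iff]
    rcases hxy with h | h
    · exact h
    · exact absurd ((kron_int_iff y).2 hy) h
  obtain ⟨Z', hZ', hd'⟩ := kron_y (x := y) (inv_pos.2 hr) hx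
  obtain ⟨Z₂, hZ₂, hd₂⟩ := isRect_swap hr hZ'
  refine ⟨Z₂, hZ₂, ?_⟩
  rw [hd₂, hd']
  congr 1
  -- continuity
  have c1 : ContinuousAt (fun t : ℝ => BB r (x + r * t * I)) y := by
    have h1 : ContinuousAt (BB r) ((fun t : ℝ => (x : ℂ) + r * t * I) y) :=
      kron_continuousAt hr (PP_ne hr fun h => hx h.1)
    exact ContinuousAt.comp (f := fun t : ℝ => (x : ℂ) + r * t * I) h1
      (by fun_prop)
  have c2 : ContinuousAt (fun t : ℝ => BB r⁻¹ (t + (r⁻¹ : ℝ) * x * I)) y := by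
    have h1 : ContinuousAt (BB r⁻¹) ((fun t : ℝ => (t : ℂ) + (r⁻¹ : ℝ) * x * I) y) :=
      kron_continuousAt (inv_pos.2 hr) (PP_ne (inv_pos.2 hr) fun h => hx h.2)
    exact ContinuousAt.comp (f := fun t : ℝ => (t : ℂ) + (r⁻¹ : ℝ) * x * I) h1
      (by fun_prop)
  have hev : ∀ᶠ t : ℝ in 𝓝[≠] y, BB r (x + r * t * I) = BB r⁻¹ (t + (r⁻¹ : ℝ) * x * I) := by
    have h1 : ∀ᶠ t : ℝ in 𝓝[≠] y, ¬ ∃ n : ℤ, (n : ℝ) = t := by
      obtain ⟨m, hm⟩ := hy
      rw [eventually_nhdsWithin_iff]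
      have h2 : Set.Ioo (y - 1) (y + 1) ∈ 𝓝 y := Ioo_mem_nhds (by linarith) (by linarith)
      filter_upwards [h2] with t ht hne
      rintro ⟨n, hn⟩
      apply hne
      rw [← hn, ← hm] at ht ⊢
      have a1 : m - 1 < n := by exact_mod_cast ht.1
      have a2 : n < m + 1 := by exact_mod_cast ht.2
      have : n = m := by omega
      rw [this]
      rfl
    filter_upwards [h1] with t ht
    exact kron_symm hr hx ht
  have l1 := c1.tendsto.mono_left (nhdsWithin_le_nhds (s := {y}ᶜ))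
  have l2 := c2.tendsto.mono_left (nhdsWithin_le_nhds (s := {y}ᶜ))
  exact (tendsto_nhds_unique (l1.congr' hev) l2).symm

end Pool.Agent.CMG
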