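import Pool.Agent.CMG.AnDefs

/-!
# PP: holomorphy, quasi-periodicity, zeros

`q = exp(-2πr)`. The product converges locally uniformly (compare Mathlib's treatment of the
Dedekind eta function / `HasProdLocallyUniformlyOn`, `multipliable_one_add_of_summable`).
`PP_add_rI`: `ee (z + rI) = q ee z`, `PP (z + rI) = (1 - q e(z)) ∏_{n≥0} (1 - q^{n+2} e(z))
(1 - q^n e(-z)) = (1 - e(-z)) ∏ (1 - q^{n+1} e(z)) (1 - q^{n+1} e(-z))` (split the product in two,
shift the index: `Multipliable.tprod_eq_zero_mul`), and `1 - e(-z) = -e(-z) (1 - e(z))`. Zeros: an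
infinite product `∏ (1 + a_n)` with `∑ |a_n| < ∞` is nonzero iff no factor vanishes
(`tprod_one_add_ne_zero_of_summable`). Derivative at `0`: `PP = (1 - e(z)) g(z)`,
`PP'(0) = -2πi g(0)`, `g(0) ≠ 0`.
-/

set_option autoImplicit false

noncomputable section

open Complex HurwitzZeta MeasureTheory

namespace Pool.Agent.CMG

/-- `q = exp (-2 π r)` -/
private def qq (r : ℝ) : ℝ := Real.exp (-(2 * Real.pi * r))

private lemma qq_pos (r : ℝ) : 0 < qq r := Real.exp_pos _

private lemma qq_lt_one {r : ℝ} (hr : 0 < r) : qq r < 1 := by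
  unfold qq
  rw [Real.exp_lt_one_iff]
  have := Real.pi_pos
  nlinarith [mul_pos this hr]

private lemma qq_pow (r : ℝ) (n : ℕ) :
    ((Real.exp (-(2 * Real.pi * r * (n + 1))) : ℝ) : ℂ) = ((qq r : ℝ) : ℂ) ^ (n + 1) := by
  rw [← Complex.ofReal_pow]
  congr 1
  unfold qq
  rw [← Real.exp_nat_mul]
  congr 1
  push_cast
  ring

/-- `∏_{n ≥ 1} (1 - qⁿ w)` -/
private def QQ (q : ℝ) (w : ℂ) : ℂ := ∏' n : ℕ, (1 + -((q : ℂ) ^ (n + 1) * w))

private lemma summable_QQ {q : ℝ} (h0 : 0 < q) (h1 : q < 1) (w : ℂ) :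
    Summable fun n : ℕ => ‖-((q : ℂ) ^ (n + 1) * w)‖ := by
  have h2 : Summable fun n : ℕ => q ^ (n + 1) * ‖w‖ :=
    ((summable_nat_add_iff 1).mpr (summable_geometric_of_lt_one h0.le h1)).mul_right _
  refine h2.congr fun n => ?_
  rw [norm_neg, norm_mul, norm_pow, Complex.norm_real, Real.norm_of_nonneg h0.le]

private lemma mult_QQ {q : ℝ} (h0 : 0 < q) (h1 : q < 1) (w : ℂ) :
    Multipliable fun n : ℕ => (1 + -((q : ℂ) ^ (n + 1) * w)) :=
  multipliable_one_add_of_summable (summable_QQ h0 h1 w)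

private lemma QQ_shift {q : ℝ} (h0 : 0 < q) (h1 : q < 1) (w : ℂ) :
    QQ q w = (1 - q * w) * QQ q (q * w) := by
  set f : ℕ → ℂ := fun n => 1 + -((q : ℂ) ^ (n + 1) * w) with hf
  have hfs : (fun n : ℕ => f (n + 1)) = fun n : ℕ => 1 + -((q : ℂ) ^ (n + 1) * (q * w)) := by
    funext n
    rw [hf]
    simp only [pow_succ]
    ring
  have h2 : Multipliable fun n : ℕ => f (n + 1) := by
    rw [hfs]
    exact mult_QQ h0 h1 (q * w)
  have h3 : ∏' n, f n = f 0 * ∏' n, f (n + 1) := tprod_eq_zero_mul' h2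
  have h4 : f 0 = 1 - q * w := by
    rw [hf]
    simp only [zero_add, pow_one]
    ring
  rw [hfs, h4] at h3
  exact h3

private lemma differentiable_QQ {q : ℝ} (h0 : 0 < q) (h1 : q < 1) : Differentiable ℂ (QQ q) := by
  have hP : HasProdLocallyUniformlyOn (fun (n : ℕ) (w : ℂ) => 1 + -((q : ℂ) ^ (n + 1) * w))
      (QQ q) Set.univ := by
    apply hasProdLocallyUniformlyOn_of_forall_compact isOpen_univ
    intro K _ hK
    obtain ⟨C, hC⟩ := hK.isBounded.exists_norm_le
    have hu : Summable fun n : ℕ => q ^ (n + 1) * C :=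
      ((summable_nat_add_iff 1).mpr (summable_geometric_of_lt_one h0.le h1)).mul_right _
    refine hu.hasProdUniformlyOn_nat_one_add hK (.of_forall fun n x hx => ?_)
      (fun _ => by fun_prop)
    rw [norm_neg, norm_mul, norm_pow, Complex.norm_real, Real.norm_of_nonneg h0.le]
    exact mul_le_mul_of_nonneg_left (hC x hx) (by positivity)
  have := hP.differentiableOn (.of_forall fun _ => by
    simpa [Finset.prod_fn] using DifferentiableOn.finsetProd (fun _ _ => by fun_prop)) isOpen_univ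
  exact differentiableOn_univ.1 this

private lemma QQ_ne_zero {q : ℝ} (h0 : 0 < q) (h1 : q < 1) {w : ℂ}
    (hw : ∀ n : ℕ, (q : ℂ) ^ (n + 1) * w ≠ 1) : QQ q w ≠ 0 := by
  unfold QQ
  refine tprod_one_add_ne_zero_of_summable (fun n h => hw n ?_) (summable_QQ h0 h1 w)
  linear_combination -h

private lemma QQ_eq_zero {q : ℝ} (h0 : 0 < q) (h1 : q < 1) {w : ℂ} {n : ℕ}
    (hw : (q : ℂ) ^ (n + 1) * w = 1) : QQ q w = 0 := by
  induction n generalizing w with
  | zero =>
    rw [QQ_shift h0 h1]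
    have : (q : ℂ) * w = 1 := by simpa using hw
    rw [this]
    simp
  | succ n ih =>
    rw [QQ_shift h0 h1, ih (w := q * w), mul_zero]
    rw [← mul_assoc, ← pow_succ]
    exact hw

private lemma PP_eq {r : ℝ} (hr : 0 < r) (z : ℂ) :
    PP r z = (1 - ee z) * (QQ (qq r) (ee z) * QQ (qq r) (ee (-z))) := by
  unfold PP QQ
  rw [← (mult_QQ (qq_pos r) (qq_lt_one hr) _).tprod_mul (mult_QQ (qq_pos r) (qq_lt_one hr) _)]
  congr 1
  refine tprod_congr fun n => ?_
  rw [qq_pow]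
  ring

private lemma ee_add (z w : ℂ) : ee (z + w) = ee z * ee w := by
  unfold ee
  rw [← Complex.exp_add]
  congr 1
  ring

private lemma ee_neg_mul (z : ℂ) : ee (-z) * ee z = 1 := by
  rw [← ee_add]
  unfold ee
  simp

private lemma ee_krI (r : ℝ) (k : ℕ) : ee (k * (r * I)) = ((qq r : ℝ) : ℂ) ^ k := by
  unfold ee qq
  rw [Complex.ofReal_exp, ← Complex.exp_nat_mul]
  congr 1
  push_cast
  linear_combination (2 * Real.pi * k * r : ℂ) * Complex.I_mul_I

private lemma ee_rI (r : ℝ) : ee (r * I) = ((qq r : ℝ) : ℂ) := by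
  have := ee_krI r 1
  simpa using this

private lemma ee_eq_one_iff (z : ℂ) : ee z = 1 ↔ ∃ m : ℤ, z = m := by
  unfold ee
  rw [Complex.exp_eq_one_iff]
  have h2 : (2 * Real.pi * I : ℂ) ≠ 0 := by
    simp [Real.pi_ne_zero, Complex.I_ne_zero]
  constructor
  · rintro ⟨n, hn⟩
    refine ⟨n, mul_left_cancel₀ h2 ?_⟩
    rw [hn]
    ring
  · rintro ⟨m, rfl⟩
    exact ⟨m, by ring⟩

theorem differentiable_PP {r : ℝ} (hr : 0 < r) : Differentiable ℂ (PP r) := by
  have h1 : PP r = fun z => (1 - ee z) * (QQ (qq r) (ee z) * QQ (qq r) (ee (-z))) := by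
    funext z
    exact PP_eq hr z
  have h2 : Differentiable ℂ (QQ (qq r)) := differentiable_QQ (qq_pos r) (qq_lt_one hr)
  have h3 : Differentiable ℂ ee := by
    unfold ee
    fun_prop
  rw [h1]
  exact ((differentiable_const _).sub h3).mul
    ((h2.comp h3).mul (h2.comp (h3.comp differentiable_neg)))

theorem PP_add_one (r : ℝ) (z : ℂ) : PP r (z + 1) = PP r z := by
  have h1 : ∀ w : ℂ, ee (w + 1) = ee w := by
    intro w
    rw [ee_add, (ee_eq_one_iff 1).2 ⟨1, by simp⟩, mul_one]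
  have h2 : ee (-(z + 1)) = ee (-z) := by
    have := h1 (-(z + 1))
    rw [← this]
    congr 1
    ring
  unfold PP
  rw [h1, h2]

theorem PP_add_rI {r : ℝ} (hr : 0 < r) (z : ℂ) : PP r (z + r * I) = - ee (-z) * PP r z := by
  have hq0 : ((qq r : ℝ) : ℂ) ≠ 0 := by
    exact_mod_cast (qq_pos r).ne'
  have h1 : ee (z + r * I) = (qq r : ℝ) * ee z := by
    rw [ee_add, ee_rI, mul_comm]
  have h2 : ee (-(z + r * I)) * (qq r : ℝ) = ee (-z) := by
    rw [← ee_rI, ← ee_add]
    congr 1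
    ring
  have h3 := QQ_shift (qq_pos r) (qq_lt_one hr) (ee z)
  have h4 := QQ_shift (qq_pos r) (qq_lt_one hr) (ee (-(z + r * I)))
  have h5 : ((qq r : ℝ) : ℂ) * ee (-(z + r * I)) = ee (-z) := by
    rw [mul_comm]
    exact h2
  rw [h5] at h4
  rw [PP_eq hr, PP_eq hr, h1, h4, h3]
  have h6 := ee_neg_mul z
  linear_combination (-(1 - (qq r : ℂ) * ee z) * QQ (qq r) ((qq r : ℂ) * ee z) *
    QQ (qq r) (ee (-z))) * h6

theorem PP_eq_zero_iff {r : ℝ} (hr : 0 < r) (z : ℂ) :
    PP r z = 0 ↔ ∃ m n : ℤ, z = m + n * r * I := by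
  have hq := qq_pos r
  have hq1 := qq_lt_one hr
  have key : ∀ (k : ℕ) (w : ℂ), ((qq r : ℝ) : ℂ) ^ k * ee w = 1 ↔ ∃ m : ℤ, w = m - k * r * I := by
    intro k w
    rw [← ee_krI, ← ee_add, ee_eq_one_iff]
    constructor
    · rintro ⟨m, hm⟩
      exact ⟨m, by linear_combination hm⟩
    · rintro ⟨m, hm⟩
      exact ⟨m, by linear_combination hm⟩
  constructor
  · intro h
    by_contra hcon
    push Not at hcon
    rw [PP_eq hr] at h
    rcases mul_eq_zero.1 h with h1 | h1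
    · obtain ⟨m, hm⟩ := (ee_eq_one_iff z).1 (sub_eq_zero.1 h1).symm
      exact hcon m 0 (by rw [hm]; simp)
    rcases mul_eq_zero.1 h1 with h2 | h2
    · refine QQ_ne_zero hq hq1 (fun n hn => ?_) h2
      obtain ⟨m, hm⟩ := (key (n + 1) z).1 hn
      exact hcon m (-(n + 1)) (by rw [hm]; push_cast; ring)
    · refine QQ_ne_zero hq hq1 (fun n hn => ?_) h2
      obtain ⟨m, hm⟩ := (key (n + 1) (-z)).1 hn
      refine hcon (-m) (n + 1) ?_
      rw [← neg_neg z, hm]
      push_cast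
      ring
  · rintro ⟨m, n, hz⟩
    rw [PP_eq hr]
    rcases lt_trichotomy n 0 with hn | hn | hn
    · obtain ⟨k, hk⟩ : ∃ k : ℕ, n = -((k : ℤ) + 1) := ⟨(-n - 1).toNat, by omega⟩
      have h1 : ((qq r : ℝ) : ℂ) ^ (k + 1) * ee z = 1 := by
        rw [key]
        refine ⟨m, ?_⟩
        rw [hz, hk]
        push_cast
        ring
      rw [QQ_eq_zero hq hq1 h1]
      ring
    · have h1 : ee z = 1 := by
        rw [ee_eq_one_iff]
        exact ⟨m, by rw [hz, hn]; simp⟩
      rw [h1]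
      ring
    · obtain ⟨k, hk⟩ : ∃ k : ℕ, n = (k : ℤ) + 1 := ⟨(n - 1).toNat, by omega⟩
      have h1 : ((qq r : ℝ) : ℂ) ^ (k + 1) * ee (-z) = 1 := by
        rw [key]
        refine ⟨-m, ?_⟩
        rw [hz, hk]
        push_cast
        ring
      rw [QQ_eq_zero hq hq1 h1]
      ring

theorem deriv_PP_zero_ne {r : ℝ} (hr : 0 < r) : deriv (PP r) 0 ≠ 0 := by
  have hq := qq_pos r
  have hq1 := qq_lt_one hr
  have h1 : PP r = fun z => (1 - ee z) * (QQ (qq r) (ee z) * QQ (qq r) (ee (-z))) := by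
    funext z
    exact PP_eq hr z
  have h2 : Differentiable ℂ (QQ (qq r)) := differentiable_QQ hq hq1
  have h3 : Differentiable ℂ ee := by
    unfold ee
    fun_prop
  have h4 : Differentiable ℂ (fun z => QQ (qq r) (ee z) * QQ (qq r) (ee (-z))) :=
    (h2.comp h3).mul (h2.comp (h3.comp differentiable_neg))
  have h5 : HasDerivAt ee (2 * Real.pi * I) 0 := by
    have h6 : HasDerivAt (fun z : ℂ => 2 * Real.pi * I * z) (2 * Real.pi * I) 0 := by
      simpa using (hasDerivAt_id (0 : ℂ)).const_mul (2 * Real.pi * I : ℂ)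
    have h7 := h6.cexp
    simpa [ee] using! h7
  have h6 : HasDerivAt (fun z => 1 - ee z) (-(2 * Real.pi * I)) 0 := by
    exact h5.const_sub 1
  have h7 := h6.mul (h4 0).hasDerivAt
  have h8 : ee 0 = 1 := by simp [ee]
  have h9 : QQ (qq r) 1 ≠ 0 := by
    refine QQ_ne_zero hq hq1 fun n hn => ?_
    rw [mul_one] at hn
    have h10 : qq r ^ (n + 1) = 1 := by exact_mod_cast hn
    have h11 : qq r ^ (n + 1) < 1 := pow_lt_one₀ hq.le hq1 (by omega)
    linarith
  have h10 : deriv (PP r) 0 = -(2 * Real.pi * I) * (QQ (qq r) 1 * QQ (qq r) 1) := by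
    rw [h1]
    have h11 := h7.deriv
    simp only [neg_zero, h8, sub_self, zero_mul, add_zero] at h11
    exact h11
  rw [h10]
  have h11 : (2 * Real.pi * I : ℂ) ≠ 0 := by
    simp [Real.pi_ne_zero, Complex.I_ne_zero]
  exact mul_ne_zero (neg_ne_zero.2 h11) (mul_ne_zero h9 h9)

end Pool.Agent.CMG
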