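import Pool.Agent.CMG.AnDefs

/-!
# exists_pair (theta kernel of a rectangular lattice as WeakFEPair)

Fields of `WeakFEPair`: local integrability from continuity of `evenKernel`, `cosKernel` on
`(0, ∞)` (`continuousOn_evenKernel`, `continuousOn_cosKernel`). `f (1/t) = t g(t)`:
`evenKernel_functional_equation` (`evenKernel a x = 1 / x ^ (1/2) * cosKernel a (1/x)`) applied to
`evenKernel x (1/t)` and `evenKernel y (r²/t)`, `(t^{1/2}) (t/r²)^{1/2} = t / r`. Decay: f₀ = 0 as
one of the two factors decays exponentially and the other is bounded at `∞`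
(`isBigO_atTop_evenKernel_sub`), g₀ = 1/r as both factors are `1 + O(exp)`
(`isBigO_atTop_cosKernel_sub`). Compare `hurwitzEvenFEPair` in Mathlib.
-/

set_option autoImplicit false

noncomputable section

open Complex HurwitzZeta MeasureTheory Filter Set Asymptotics

namespace Pool.Agent.CMG

theorem isBigO_scale {h : ℝ → ℝ} {p c : ℝ} (hp : 0 < p) (hc : 0 < c)
    (hh : h =O[atTop] fun t => Real.exp (-p * t)) (s : ℝ) :
    (fun t => h (c * t)) =O[atTop] fun t => t ^ s := by
  have h1 : Tendsto (fun t : ℝ => c * t) atTop atTop := tendsto_id.const_mul_atTop hc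
  have h2 := hh.comp_tendsto h1
  have h3 : ((fun t => Real.exp (-p * t)) ∘ fun t : ℝ => c * t) =
      fun t => Real.exp (-(p * c) * t) := by
    funext t
    simp only [Function.comp]
    congr 1
    ring
  rw [h3] at h2
  exact h2.trans (isLittleO_exp_neg_mul_rpow_atTop (mul_pos hp hc) s).isBigO

theorem isBigO_even_zero {a : UnitAddCircle} (ha : a ≠ 0) {c : ℝ} (hc : 0 < c) (s : ℝ) :
    (fun t => evenKernel a (c * t)) =O[atTop] fun t => t ^ s := by
  obtain ⟨p, hp, h⟩ := isBigO_atTop_evenKernel_sub a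
  simp only [if_neg ha, sub_zero] at h
  exact isBigO_scale hp hc h s

theorem isBigO_even_one (a : UnitAddCircle) {c : ℝ} (hc : 0 < c) :
    (fun t => evenKernel a (c * t)) =O[atTop] fun _ => (1 : ℝ) := by
  obtain ⟨p, hp, h⟩ := isBigO_atTop_evenKernel_sub a
  have h1 := isBigO_scale hp hc h 0
  simp only [Real.rpow_zero] at h1
  have h2 : (fun _ : ℝ => (if a = 0 then 1 else 0 : ℝ)) =O[atTop] fun _ => (1 : ℝ) :=
    isBigO_const_const _ one_ne_zero _
  have h3 := h1.add h2
  simpa using h3

theorem isBigO_cos_sub (a : UnitAddCircle) {c : ℝ} (hc : 0 < c) (s : ℝ) :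
    (fun t => cosKernel a (c * t) - 1) =O[atTop] fun t => t ^ s := by
  obtain ⟨p, hp, h⟩ := isBigO_atTop_cosKernel_sub a
  exact isBigO_scale hp hc h s

theorem isBigO_cos_one (a : UnitAddCircle) {c : ℝ} (hc : 0 < c) :
    (fun t => cosKernel a (c * t)) =O[atTop] fun _ => (1 : ℝ) := by
  have h1 := isBigO_cos_sub a hc 0
  simp only [Real.rpow_zero] at h1
  have h2 : (fun _ : ℝ => (1 : ℝ)) =O[atTop] fun _ => (1 : ℝ) := isBigO_refl _ _
  have h3 := h1.add h2
  simpa using h3

theorem fker_isBigO {r x y : ℝ} (hr : 0 < r)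
    (hxy : (x : UnitAddCircle) ≠ 0 ∨ (y : UnitAddCircle) ≠ 0) (s : ℝ) :
    (fun t => fker r x y t) =O[atTop] fun t => t ^ s := by
  rcases hxy with h | h
  · have h1 := (isBigO_even_zero h one_pos s).mul (isBigO_even_one (y : UnitAddCircle) (pow_pos hr 2))
    simpa [fker] using h1
  · have h1 := (isBigO_even_one (x : UnitAddCircle) one_pos).mul (isBigO_even_zero h (pow_pos hr 2) s)
    simpa [fker] using h1

theorem gker_isBigO {r x y : ℝ} (hr : 0 < r) (s : ℝ) :
    (fun t => gker r x y t - r⁻¹) =O[atTop] fun t => t ^ s := by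
  have hc : 0 < (r ^ 2)⁻¹ := by positivity
  have h1 := (isBigO_cos_sub (x : UnitAddCircle) one_pos s).mul
    (isBigO_cos_one (y : UnitAddCircle) hc)
  have h2 := isBigO_cos_sub (y : UnitAddCircle) hc s
  simp only [mul_one] at h1
  have h3 := (h1.add h2).const_mul_left r⁻¹
  refine h3.congr_left fun t => ?_
  simp only [gker, one_mul, div_eq_inv_mul]
  ring

theorem exists_pair {r x y : ℝ} (hr : 0 < r)
    (hxy : (x : UnitAddCircle) ≠ 0 ∨ (y : UnitAddCircle) ≠ 0) :
    ∃ P : WeakFEPair ℂ, IsRectPair r x y P := by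
  have hr2 : 0 < r ^ 2 := pow_pos hr 2
  refine ⟨{ f := fun t => (fker r x y t : ℂ)
            g := fun t => (gker r x y t : ℂ)
            k := 1
            ε := 1
            f₀ := 0
            g₀ := (r⁻¹ : ℝ)
            hf_int := ?_
            hg_int := ?_
            hk := one_pos
            hε := one_ne_zero
            h_feq := ?_
            hf_top := ?_
            hg_top := ?_ }, ⟨rfl, rfl, rfl, rfl, rfl, rfl⟩⟩
  · have h : ContinuousOn (fun t => fker r x y t) (Ioi 0) :=
      (continuousOn_evenKernel x).mul ((continuousOn_evenKernel y).comp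
        (by fun_prop) fun t ht => mul_pos hr2 ht)
    exact (continuous_ofReal.comp_continuousOn h).locallyIntegrableOn measurableSet_Ioi
  · have h : ContinuousOn (fun t => gker r x y t) (Ioi 0) :=
      continuousOn_const.mul ((continuousOn_cosKernel x).mul ((continuousOn_cosKernel y).comp
        (by fun_prop) fun t ht => div_pos ht hr2))
    exact (continuous_ofReal.comp_continuousOn h).locallyIntegrableOn measurableSet_Ioi
  · intro t ht
    have ht : 0 < t := ht
    have h1 : fker r x y (1 / t) = t * gker r x y t := by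
      simp only [fker, gker]
      rw [evenKernel_functional_equation x (1 / t), evenKernel_functional_equation y (r ^ 2 * (1 / t))]
      have e1 : 1 / (1 / t) = t := one_div_one_div t
      have e2 : 1 / (r ^ 2 * (1 / t)) = t / r ^ 2 := by field_simp
      rw [e1, e2]
      have e3 : 1 / (1 / t) ^ (1 / 2 : ℝ) = t ^ (1 / 2 : ℝ) := by
        rw [one_div t, Real.inv_rpow ht.le, one_div, inv_inv]
      have e4 : 1 / (r ^ 2 * (1 / t)) ^ (1 / 2 : ℝ) = t ^ (1 / 2 : ℝ) * r⁻¹ := by
        rw [Real.mul_rpow hr2.le (by positivity), one_div t, Real.inv_rpow ht.le,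
          ← Real.sqrt_eq_rpow (r ^ 2), Real.sqrt_sq hr.le]
        field_simp
      rw [e3, e4]
      have e5 : t ^ (1 / 2 : ℝ) * t ^ (1 / 2 : ℝ) = t := by
        rw [← Real.rpow_add ht]
        norm_num
      calc t ^ (1 / 2 : ℝ) * cosKernel x t * (t ^ (1 / 2 : ℝ) * r⁻¹ * cosKernel y (t / r ^ 2))
          = (t ^ (1 / 2 : ℝ) * t ^ (1 / 2 : ℝ)) * (r⁻¹ * (cosKernel x t * cosKernel y (t / r ^ 2))) := by
            ring
        _ = _ := by rw [e5]
    show ((fker r x y (1 / t) : ℝ) : ℂ) = ((1 : ℂ) * ((t ^ (1 : ℝ) : ℝ) : ℂ)) • ((gker r x y t : ℝ) : ℂ)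
    rw [h1, Real.rpow_one, one_mul, smul_eq_mul, ofReal_mul]
  · intro s
    simp only [sub_zero]
    exact isBigO_ofReal_left.mpr (fker_isBigO hr hxy s)
  · intro s
    have h := isBigO_ofReal_left.mpr (gker_isBigO (x := x) (y := y) hr s)
    simpa using h

end Pool.Agent.CMG
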