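import Pool.Agent.CMG.AnPair

/-!
# isRect_of_pair (continuation of the Epstein zeta function, derivative at 0)

`Z s = π^s Λ(s) (Γ s)⁻¹`. `Λ s = Λ₀ s - (1/s) • f₀ - (ε/(k-s)) • g₀` with `f₀ = 0`, so `Λ` is
differentiable off `1`; `(Γ s)⁻¹` is entire (`Complex.differentiable_one_div_Gamma`), vanishes at
`0` and has derivative `1` there (`1/Γ(s) = s/Γ(s+1)`), hence `Z 0 = 0`, `Z'(0) = Λ(0)`.
For `Re s > 1`: `P.hasMellin` and `hasSum_mellin_pi_mul` (or a sibling) for the family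
`exp (-π t ((x+m)² + r²(y+n)²))`; `fker r x y t` is the sum of this family over `ℤ × ℤ` by
`hasSum_int_evenKernel` twice (product of two summable nonnegative families). Summability of
`((x+m)² + r²(y+n)²)^{-Re s}` over `ℤ × ℤ`: compare with `‖(m,n)‖^{-2 Re s}`
(`EisensteinSeries.summable_one_div_norm_rpow` on `Fin 2 → ℤ`), for all but finitely many `(m,n)`.
No term has base `0` because `(x,y)` is not in `ℤ²`.
-/

set_option autoImplicit false

noncomputable section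

open Complex HurwitzZeta MeasureTheory

namespace Pool.Agent.CMG

/-- the quadratic form -/
private def anq (r x y : ℝ) (p : ℤ × ℤ) : ℝ := (x + p.1) ^ 2 + r ^ 2 * (y + p.2) ^ 2

private theorem anq_pos {r x y : ℝ} (hr : 0 < r)
    (hxy : (x : UnitAddCircle) ≠ 0 ∨ (y : UnitAddCircle) ≠ 0) (p : ℤ × ℤ) : 0 < anq r x y p := by
  have hz : ∀ (u : ℝ) (m : ℤ), (u : UnitAddCircle) ≠ 0 → u + m ≠ 0 := by
    intro u m hu h
    apply hu
    rw [AddCircle.coe_eq_zero_iff]
    refine ⟨-m, ?_⟩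
    rw [zsmul_eq_mul, mul_one]
    push_cast
    linarith
  unfold anq
  rcases hxy with h | h
  · have h1 := hz x p.1 h
    have h2 : 0 < (x + p.1) ^ 2 := by positivity
    positivity
  · have h1 := hz y p.2 h
    have h2 : 0 < (y + p.2) ^ 2 := by positivity
    positivity

private theorem anq_ge {r x y : ℝ} (p : ℤ × ℤ)
    (hp : 2 * max |x| |y| ≤ ‖p‖) : min 1 (r ^ 2) / 4 * ‖p‖ ^ 2 ≤ anq r x y p := by
  have key : ∀ (u : ℝ) (m : ℤ), |u| ≤ max |x| |y| → ‖p‖ = |(m : ℝ)| →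
      ‖p‖ ^ 2 / 4 ≤ (u + m) ^ 2 := by
    intro u m hu hm
    have h1 : ‖p‖ / 2 ≤ |u + m| := by
      have h2 : |(m : ℝ)| ≤ |u + m| + |u| := by
        have := abs_sub (u + (m : ℝ)) u
        rwa [add_sub_cancel_left] at this
      linarith
    have h3 : (‖p‖ / 2) ^ 2 ≤ |u + m| ^ 2 := pow_le_pow_left₀ (by positivity) h1 2
    rw [sq_abs] at h3
    linarith
  have hn : ‖p‖ = max |(p.1 : ℝ)| |(p.2 : ℝ)| := by
    rw [Prod.norm_def, Int.norm_eq_abs, Int.norm_eq_abs]
  have hm1 : min 1 (r ^ 2) ≤ 1 := min_le_left _ _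
  have hm2 : min 1 (r ^ 2) ≤ r ^ 2 := min_le_right _ _
  have hN : 0 ≤ ‖p‖ ^ 2 := by positivity
  unfold anq
  rcases max_cases |(p.1 : ℝ)| |(p.2 : ℝ)| with h | h
  · have h1 := key x p.1 (le_max_left _ _) (hn.trans h.1)
    have h2 : 0 ≤ r ^ 2 * (y + p.2) ^ 2 := by positivity
    nlinarith
  · have h1 := key y p.2 (le_max_right _ _) (hn.trans h.1)
    have h2 : 0 ≤ (x + (p.1 : ℝ)) ^ 2 := by positivity
    have h3 : r ^ 2 * (‖p‖ ^ 2 / 4) ≤ r ^ 2 * (y + p.2) ^ 2 :=
      mul_le_mul_of_nonneg_left h1 (by positivity)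
    nlinarith

private theorem an_summable_norm {k : ℝ} (hk : 2 < k) :
    Summable fun p : ℤ × ℤ => ‖p‖ ^ (-k) := by
  have h := EisensteinSeries.summable_one_div_norm_rpow hk
  rw [← (finTwoArrowEquiv ℤ).symm.summable_iff] at h
  refine h.congr fun p => ?_
  have h1 : ‖(finTwoArrowEquiv ℤ).symm p‖ = ‖p‖ := by
    rw [EisensteinSeries.norm_eq_max_natAbs, Prod.norm_def, Int.norm_eq_abs, Int.norm_eq_abs]
    simp [finTwoArrowEquiv]
  rw [Function.comp_apply, h1]

private theorem anq_summable {r x y : ℝ} (hr : 0 < r) {σ : ℝ} (hσ : 1 < σ) :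
    Summable fun p : ℤ × ℤ => 1 / (anq r x y p) ^ σ := by
  set c : ℝ := min 1 (r ^ 2) / 4 with hc
  have hc0 : 0 < c := by
    have : 0 < min 1 (r ^ 2) := lt_min one_pos (by positivity)
    positivity
  have h1 : Summable fun p : ℤ × ℤ => c ^ (-σ) * ‖p‖ ^ (-(2 * σ)) :=
    (an_summable_norm (by linarith)).mul_left _
  refine Summable.of_norm_bounded_eventually h1 ?_
  have h2 : Filter.Tendsto (fun p : ℤ × ℤ => ‖p‖) Filter.cofinite Filter.atTop := by
    rw [← Filter.cocompact_eq_cofinite]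
    exact tendsto_norm_cocompact_atTop
  filter_upwards [h2.eventually_ge_atTop (2 * max |x| |y|), h2.eventually_gt_atTop 0] with p hp hp0
  have h3 := anq_ge (r := r) p hp
  rw [← hc] at h3
  have h4 : 0 < c * ‖p‖ ^ 2 := by positivity
  have h5 : 0 < anq r x y p := h4.trans_le h3
  rw [Real.norm_of_nonneg (by positivity), one_div, ← Real.rpow_neg h5.le]
  calc (anq r x y p) ^ (-σ) ≤ (c * ‖p‖ ^ 2) ^ (-σ) :=
        Real.rpow_le_rpow_of_nonpos h4 h3 (by linarith)
    _ = c ^ (-σ) * (‖p‖ ^ 2) ^ (-σ) := Real.mul_rpow hc0.le (by positivity)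
    _ = c ^ (-σ) * ‖p‖ ^ (-(2 * σ)) := by
        rw [← Real.rpow_natCast, ← Real.rpow_mul hp0.le]
        congr 2
        push_cast
        ring

private theorem an_hasSum {r x y t : ℝ} (hr : 0 < r) (ht : 0 < t) :
    HasSum (fun p : ℤ × ℤ => (1 : ℂ) * (Real.exp (-Real.pi * anq r x y p * t) : ℂ))
      (fker r x y t : ℂ) := by
  have h1 := hasSum_int_evenKernel x ht
  have h2 := hasSum_int_evenKernel y (t := r ^ 2 * t) (by positivity)
  have h3 := h1.mul h2 (h1.summable.mul_of_nonneg h2.summable (fun _ => (Real.exp_pos _).le)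
    (fun _ => (Real.exp_pos _).le))
  have h4 : HasSum (fun p : ℤ × ℤ => Real.exp (-Real.pi * anq r x y p * t)) (fker r x y t) := by
    unfold fker
    refine h3.congr_fun fun p => ?_
    rw [← Real.exp_add]
    congr 1
    unfold anq
    ring
  simpa only [one_mul] using (hasSum_ofReal.2 h4)

theorem isRect_of_pair {r x y : ℝ} (hr : 0 < r)
    (hxy : (x : UnitAddCircle) ≠ 0 ∨ (y : UnitAddCircle) ≠ 0) {P : WeakFEPair ℂ}
    (hP : IsRectPair r x y P) :
    ∃ Z : ℂ → ℂ, IsRect r x y Z ∧ deriv Z 0 = P.Λ 0 := by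
  have hpi : (Real.pi : ℂ) ≠ 0 := by exact_mod_cast Real.pi_ne_zero
  have hA : ∀ s : ℂ, s ≠ 1 → DifferentiableAt ℂ (fun s => (Real.pi : ℂ) ^ s * P.Λ s) s := by
    intro s hs
    refine DifferentiableAt.mul ?_ (P.differentiableAt_Λ (Or.inr hP.f₀) (Or.inl ?_))
    · exact (differentiableAt_id).const_cpow (Or.inl hpi)
    · rw [hP.k]
      simpa using hs
  refine ⟨fun s => (Real.pi : ℂ) ^ s * P.Λ s * (Gamma s)⁻¹, ⟨?_, ?_, ?_⟩, ?_⟩
  · intro s hs
    exact ((hA s hs).mul (differentiable_one_div_Gamma s)).differentiableWithinAt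
  · intro s hs
    have h0 : 0 < s.re := by linarith
    have h1 := (P.hasMellin (s := s) (by rw [hP.k]; exact hs)).2
    rw [hP.f₀] at h1
    have h2 := hasSum_mellin_pi_mul (a := fun _ : ℤ × ℤ => (1 : ℂ)) (q := anq r x y)
      (F := fun t => (fker r x y t : ℂ)) (s := s) (fun p => Or.inr (anq_pos hr hxy p)) h0
      (fun t ht => an_hasSum hr ht) (by simpa only [norm_one] using anq_summable hr hs)
    have h3 : mellin (fun t => (fker r x y t : ℂ)) s = P.Λ s := by
      rw [← h1]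
      congr 1
      funext t
      rw [hP.f, sub_zero]
    rw [h3] at h2
    have h4 := h2.mul_left ((Real.pi : ℂ) ^ s * (Gamma s)⁻¹)
    have hG : Gamma s ≠ 0 := Gamma_ne_zero_of_re_pos h0
    have hps : (Real.pi : ℂ) ^ s ≠ 0 := by
      rw [Ne, cpow_eq_zero_iff]
      exact fun h => hpi h.1
    have e1 : (Real.pi : ℂ) ^ s * (Gamma s)⁻¹ * P.Λ s = (Real.pi : ℂ) ^ s * P.Λ s * (Gamma s)⁻¹ := by
      ring
    rw [e1] at h4
    refine h4.congr_fun fun p => ?_
    have h5 : ((anq r x y p : ℝ) : ℂ) ^ s ≠ 0 := by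
      rw [Ne, cpow_eq_zero_iff]
      exact fun h => (anq_pos hr hxy p).ne' (by exact_mod_cast h.1)
    change ((anq r x y p : ℝ) : ℂ) ^ (-s) = _
    rw [cpow_neg, cpow_neg]
    field_simp
  · simp [Gamma_zero]
  · have hG : HasDerivAt (fun s : ℂ => (Gamma s)⁻¹) 1 0 := by
      have h1 : (fun s : ℂ => (Gamma s)⁻¹) = fun s => s * (Gamma (s + 1))⁻¹ := by
        funext s
        exact one_div_Gamma_eq_self_mul_one_div_Gamma_add_one s
      rw [h1]
      have h2 : DifferentiableAt ℂ (fun s : ℂ => (Gamma (s + 1))⁻¹) 0 := by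
        have := (differentiable_one_div_Gamma (0 + 1)).comp (0 : ℂ)
          (differentiableAt_id.add_const (1 : ℂ))
        exact this
      have h3 := (hasDerivAt_id (0 : ℂ)).mul h2.hasDerivAt
      have h4 : (1 : ℂ) * (Gamma (0 + 1))⁻¹ + id (0 : ℂ) * deriv (fun s : ℂ => (Gamma (s + 1))⁻¹) 0
          = 1 := by
        simp [Gamma_one]
      rw [h4] at h3
      exact h3
    have h5 := ((hA 0 zero_ne_one).hasDerivAt.mul hG).deriv
    have h6 : deriv (fun s : ℂ => (Real.pi : ℂ) ^ s * P.Λ s * (Gamma s)⁻¹) 0 =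
        deriv (fun s => (Real.pi : ℂ) ^ s * P.Λ s) 0 * (Gamma 0)⁻¹ +
          (Real.pi : ℂ) ^ (0 : ℂ) * P.Λ 0 * 1 := h5
    rw [h6, Gamma_zero]
    simp

end Pool.Agent.CMG
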