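import Pool.Agent.CMG.Interface
import Pool.Agent.StarkRQ.ArtSpec

/-!
# S14: Artin symbols on roots of unity

By induction on the list in `HasArtinSymbol`: for a Frobenius `φ` at `𝔭`, `N𝔭` prime to `w`:
`φ ζ ≡ ζ^{N𝔭}` modulo a prime `𝔓` of `M` over `𝔭`; two different `w`-th roots of unity are incongruent
modulo `𝔓`: for `ρ ≠ 1`, `ρ ^ w = 1` we have `0 = ∑_{j < w} ρ ^ j ≡ w` modulo `ρ - 1`, and `w ∉ 𝔓`.
-/

set_option autoImplicit false

noncomputable section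

open NumberField Pool.Agent.StarkRQ

namespace Pool.Agent.CMG

/-- two `w`-th roots of unity which are congruent modulo a prime ideal not containing `w` are equal -/
private theorem root_eq {R : Type*} [CommRing R] [IsDomain R] {P : Ideal R} {w : ℕ}
    (hw0 : w ≠ 0) (hP : (w : R) ∉ P) {a b : R} (ha : a ^ w = 1) (hb : b ^ w = 1)
    (h : a - b ∈ P) : a = b := by
  by_contra hne
  -- `b` is a unit
  have hbu : b * b ^ (w - 1) = 1 := by
    rw [← pow_succ', Nat.sub_add_cancel (Nat.one_le_iff_ne_zero.2 hw0), hb]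
  set ρ : R := a * b ^ (w - 1) with hρ
  have h1 : ρ ^ w = 1 := by
    rw [hρ, mul_pow, ha, ← pow_mul, mul_comm (w - 1) w, pow_mul, hb, one_pow, one_mul]
  have h2 : ρ - 1 = (a - b) * b ^ (w - 1) := by
    rw [hρ, sub_mul, hbu]
  have h3 : ρ - 1 ≠ 0 := by
    intro h0
    apply hne
    have h4 : (ρ - 1) * b = a - b := by
      rw [h2]
      linear_combination (a - b) * hbu
    rw [h0, zero_mul] at h4
    exact sub_eq_zero.1 h4.symm
  have h4 : ρ - 1 ∈ P := by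
    rw [h2]
    exact P.mul_mem_right _ h
  have h5 : ∑ j ∈ Finset.range w, ρ ^ j = 0 := by
    have h6 := mul_geom_sum ρ w
    rw [h1, sub_self] at h6
    exact (mul_eq_zero.1 h6).resolve_left h3
  apply hP
  have h7 : (w : R) = -∑ j ∈ Finset.range w, (ρ ^ j - 1) := by
    rw [Finset.sum_sub_distrib, h5]
    simp
  rw [h7]
  refine P.neg_mem (P.sum_mem fun j _ => ?_)
  have h8 : ρ ^ j - 1 = (ρ - 1) * ∑ i ∈ Finset.range j, ρ ^ i := (mul_geom_sum ρ j).symm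
  rw [h8]
  exact P.mul_mem_right _ h4

private theorem frob_root {k M : Type} [Field k] [NumberField k] [Field M] [NumberField M]
    [Algebra k M] {𝔭 : Ideal (𝓞 k)} {φ : Gal(M/k)} (h : IsFrob 𝔭 φ) {w : ℕ} (hw0 : w ≠ 0)
    (hw : (Ideal.absNorm 𝔭).Coprime w) {ζ : M} (hζ : ζ ^ w = 1) :
    φ ζ = ζ ^ Ideal.absNorm 𝔭 := by
  obtain ⟨P, hP, hP𝔭, hφ⟩ := h
  have hint : IsIntegral ℤ ζ := by
    refine ⟨Polynomial.X ^ w - 1, ?_, ?_⟩
    · have h1 := Polynomial.monic_X_pow_sub_C (1 : ℤ) hw0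
      rwa [Polynomial.C_1] at h1
    · simp [hζ]
  set z : 𝓞 M := ⟨ζ, hint⟩ with hz
  have hzw : z ^ w = 1 := by
    apply RingOfIntegers.ext
    simpa [hz] using hζ
  have hφz : ((φ • z : 𝓞 M) : M) = φ ζ := rfl
  have hwP : ((w : ℕ) : 𝓞 M) ∉ P := by
    intro hwP
    have h1 : ((Ideal.absNorm 𝔭 : ℕ) : 𝓞 M) ∈ P := by
      have h2 : ((Ideal.absNorm 𝔭 : ℕ) : 𝓞 k) ∈ 𝔭 := Ideal.absNorm_mem 𝔭
      have h2' : ((Ideal.absNorm 𝔭 : ℕ) : 𝓞 k) ∈ P.comap (algebraMap (𝓞 k) (𝓞 M)) := by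
        rw [hP𝔭]
        exact h2
      rw [Ideal.mem_comap, map_natCast] at h2'
      exact h2'
    apply hP.ne_top
    rw [Ideal.eq_top_iff_one]
    have h3 : IsCoprime ((Ideal.absNorm 𝔭 : ℕ) : ℤ) (w : ℤ) := Nat.isCoprime_iff_coprime.2 hw
    obtain ⟨u, v, huv⟩ := h3
    have h4 : (1 : 𝓞 M) = (u : 𝓞 M) * ((Ideal.absNorm 𝔭 : ℕ) : 𝓞 M) + (v : 𝓞 M) * (w : 𝓞 M) := by
      have h5 := congrArg (fun t : ℤ => (t : 𝓞 M)) huv
      push_cast at h5
      exact h5.symm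
    rw [h4]
    exact P.add_mem (P.mul_mem_left _ h1) (P.mul_mem_left _ hwP)
  have key : φ • z = z ^ Ideal.absNorm 𝔭 := by
    refine root_eq hw0 hwP ?_ ?_ (hφ z)
    · rw [← smul_pow', hzw, smul_one]
    · rw [← pow_mul, mul_comm, pow_mul, hzw, one_pow]
  rw [← hφz, key]
  simp [hz]

/-- S14 -/
theorem artin_root {k M : Type} [Field k] [NumberField k] [Field M] [NumberField M] [Algebra k M]
    {𝔞 : Ideal (𝓞 k)} {σ : Gal(M/k)} (h : HasArtinSymbol 𝔞 σ) {w : ℕ} (hw0 : w ≠ 0)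
    (hw : (Ideal.absNorm 𝔞).Coprime w) {ζ : M} (hζ : ζ ^ w = 1) :
    σ ζ = ζ ^ Ideal.absNorm 𝔞 := by
  obtain ⟨l, hl, rfl, rfl⟩ := h
  induction l with
  | nil => simp
  | cons x l ih =>
    rw [List.map_cons, List.prod_cons, map_mul] at hw
    rw [List.map_cons, List.prod_cons, List.map_cons, List.prod_cons, map_mul, AlgEquiv.mul_apply,
      ih (fun y hy => hl y (List.mem_cons_of_mem _ hy)) hw.coprime_mul_left, map_pow,
      frob_root (hl x List.mem_cons_self).2.2 hw0 hw.coprime_mul_right hζ, ← pow_mul]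

end Pool.Agent.CMG
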