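import Pool.Agent.CMG.Rho
import Pool.Agent.StarkRQ.ArtSpec

/-!
# S7: Artin symbols are given by rho

For a prime `π` prime to `N`: a Frobenius element `φ ∈ Gal(M/k)` at `(π)` (`IsFrob`, `StarkRQ/Defs.lean`)
is the restriction of `ρ (cls π)`: by `frob_acts` a Frobenius `τ` of `F` at a prime `𝔓` over `(π)` has
`τ θ1 = θ π = ρ(cls π) θ1`, so `τ = ρ (cls π)` (`A.gen`), and its restriction is a Frobenius of `M` at
`𝔓 ∩ M`. Factoring `a` into primes, `rs (ρ (cls a))` is an Artin symbol of `(a)` (for units `ε`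
`ρ (cls ε) = 1`, as `θ ε = θ 1`; `a ≠ 0`: `N ≥ 3` by `D.units_inj` for `ε = -1`), and the Artin symbol
is unique because `M/k` is abelian and unramified at the primes which are prime to `N`
(`art_spec`, which uses `hram`).
-/

set_option autoImplicit false
set_option linter.unusedSectionVars false

noncomputable section

open NumberField Pool.Agent.StarkRQ

namespace Pool.Agent.CMG

/-- the norm of an element prime to `N` is prime to `N` -/
private lemma artin_coprime {k : Type} [Field k] [NumberField k] {N : ℕ} {a : 𝓞 k} (h0 : a ≠ 0)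
    (ha : IsCoprime a (N : 𝓞 k)) : (Ideal.absNorm (Ideal.span {a})).Coprime N := by
  by_contra h
  obtain ⟨p, hp, hpa, hpN⟩ := Nat.Prime.not_coprime_iff_dvd.1 h
  have hI : Ideal.span {a} ≠ ⊥ := by
    rw [Ne, Ideal.span_singleton_eq_bot]
    exact h0
  have hfin : Finite (𝓞 k ⧸ Ideal.span {a}) := Ideal.finiteQuotientOfFreeOfNeBot _ hI
  rw [Ideal.absNorm_apply, Submodule.cardQuot_apply] at hpa
  have : Fact p.Prime := ⟨hp⟩
  obtain ⟨x, hx⟩ := exists_prime_addOrderOf_dvd_card' p hpa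
  have h1 : (p : 𝓞 k ⧸ Ideal.span {a}) * x = 0 := by
    rw [← nsmul_eq_mul, ← hx]
    exact addOrderOf_nsmul_eq_zero x
  obtain ⟨u, v, huv⟩ := ha
  obtain ⟨M, rfl⟩ := hpN
  have h2 := congrArg (Ideal.Quotient.mk (Ideal.span {a})) huv
  have h3 : Ideal.Quotient.mk (Ideal.span {a}) a = 0 :=
    Ideal.Quotient.eq_zero_iff_mem.2 (Ideal.mem_span_singleton_self a)
  rw [map_add, map_mul, h3, mul_zero, zero_add, Nat.cast_mul, map_mul, map_mul, map_natCast,
    map_natCast, map_one] at h2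
  have h4 : x = 0 := by
    calc x = 1 * x := (one_mul x).symm
      _ = Ideal.Quotient.mk (Ideal.span {a}) v * (M : 𝓞 k ⧸ Ideal.span {a}) *
          ((p : 𝓞 k ⧸ Ideal.span {a}) * x) := by
        rw [← h2]
        ring
      _ = 0 := by rw [h1, mul_zero]
  rw [h4, addOrderOf_zero] at hx
  exact hp.one_lt.ne hx

section model

variable {k : Type} [Field k] [NumberField k] [Algebra k ℂ] (D : EllData k) {N : ℕ}
  (hN : D.N₀ ∣ N) (hN0 : N ≠ 0)

variable {F : Type} [Field F] [NumberField F] [Algebra k F] [IsGalois k F] (A : Model D N F)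
  {M : Type} [Field M] [NumberField M] [Algebra k M] [Algebra M F] [IsScalarTower k M F]
  [IsGalois ℚ M] [IsAbelianGalois k M]

include hN in
private lemma artin_ne_zero {a : 𝓞 k} (ha : IsCoprime a (N : 𝓞 k)) : a ≠ 0 := by
  rintro rfl
  rw [isCoprime_zero_left] at ha
  have h1 : (D.N₀ : 𝓞 k) ∣ ((-1 : (𝓞 k)ˣ) : 𝓞 k) - 1 :=
    ((Nat.cast_dvd_cast hN).trans ha.dvd)
  have h2 := D.units_inj (-1) h1
  have h3 := congrArg (fun u : (𝓞 k)ˣ => (u : 𝓞 k)) h2
  simp only [Units.val_neg, Units.val_one] at h3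
  have h4 : (2 : 𝓞 k) = 0 := by linear_combination -h3
  exact two_ne_zero h4

private lemma artin_ext {τ τ' : Gal(F/k)} (h : τ (A.θ 1) = τ' (A.θ 1)) : τ = τ' := by
  ext x
  have hx : x ∈ IntermediateField.adjoin k {A.θ 1} := by
    rw [A.gen]
    exact IntermediateField.mem_top
  induction hx using IntermediateField.adjoin_induction with
  | mem y hy =>
    rw [Set.mem_singleton_iff] at hy
    rw [hy, h]
  | algebraMap y => rw [AlgEquiv.commutes, AlgEquiv.commutes]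
  | add y z _ _ hy hz => rw [map_add, map_add, hy, hz]
  | inv y _ hy => rw [map_inv₀, map_inv₀, hy]
  | mul y z _ _ hy hz => rw [map_mul, map_mul, hy, hz]

private lemma artin_theta_unit (ε : (𝓞 k)ˣ) : A.θ (ε : 𝓞 k) = A.θ 1 := by
  have h1 : IsCoprime (ε : 𝓞 k) (N : 𝓞 k) := ⟨((ε⁻¹ : (𝓞 k)ˣ) : 𝓞 k), 0, by simp⟩
  have h2 : IsCoprime (1 : 𝓞 k) (N : 𝓞 k) := isCoprime_one_left
  apply A.κ.injective
  change A.κ (A.θ (ε : 𝓞 k)) = A.κ (A.θ 1)
  have h3 := D.h_unit N 1 ε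
  rw [mul_one] at h3
  rw [A.κθ _ h1, A.κθ _ h2, h3]

include hN hN0 in
/-- Frobenius elements -/
private lemma artin_frob (ρ : (𝓞 k ⧸ Ideal.span {(N : 𝓞 k)})ˣ →* Gal(F/k))
    (hρ : ∀ (a : 𝓞 k) (ha : IsCoprime a (N : 𝓞 k)), ρ (cls N a ha) (A.θ 1) = A.θ a)
    {π : 𝓞 k} (hπ : Prime π) (hπN : IsCoprime π (N : 𝓞 k)) :
    IsFrob (Ideal.span {π}) (rs k M F (ρ (cls N π hπN))) := by
  have h1 : (Ideal.span {π}).IsPrime := (Ideal.span_singleton_prime hπ.ne_zero).2 hπ
  have h0 : Ideal.span {π} ≠ ⊥ := by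
    rw [Ne, Ideal.span_singleton_eq_bot]
    exact hπ.ne_zero
  obtain ⟨P, hP, hc⟩ := exists_over (F := k) (M := F) (Ideal.span {π})
  obtain ⟨τ, hτ⟩ := exists_cong_over (F := k) (M := F) h0 hc
  have h2 := frob_acts D hN hN0 A hP hπ hπN hc (τ := τ) (fun x => hτ x)
  have h3 : τ = ρ (cls N π hπN) := artin_ext D A (h2.trans (hρ π hπN).symm)
  rw [← h3]
  refine ⟨P.comap (algebraMap (𝓞 M) (𝓞 F)), Ideal.comap_isPrime _ _, ?_, fun x => ?_⟩
  · rw [← hc, Ideal.comap_comap]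
    congr 1
    ext x
    rw [RingHom.comp_apply]
    exact (IsScalarTower.algebraMap_apply k M F (x : k)).symm
  · have h4 : algebraMap (𝓞 M) (𝓞 F) ((rs k M F τ) • x) =
        toG k F τ • algebraMap (𝓞 M) (𝓞 F) x := by
      ext
      exact AlgEquiv.restrictNormal_commutes τ M (x : M)
    rw [Ideal.mem_comap, map_sub, map_pow, h4]
    exact hτ _

include hN hN0 in
private lemma artin_exists (ρ : (𝓞 k ⧸ Ideal.span {(N : 𝓞 k)})ˣ →* Gal(F/k))
    (hρ : ∀ (a : 𝓞 k) (ha : IsCoprime a (N : 𝓞 k)), ρ (cls N a ha) (A.θ 1) = A.θ a)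
    (a : 𝓞 k) : ∀ ha : IsCoprime a (N : 𝓞 k),
      HasArtinSymbol (Ideal.span {a}) (rs k M F (ρ (cls N a ha))) := by
  have := D.pid
  induction a using UniqueFactorizationMonoid.induction_on_prime with
  | h₁ => exact fun ha => absurd rfl (artin_ne_zero D hN ha)
  | h₂ ε hε =>
    intro ha
    obtain ⟨ε, rfl⟩ := hε
    have h1 : ρ (cls N (ε : 𝓞 k) ha) = 1 := by
      apply artin_ext D A
      rw [hρ, artin_theta_unit D A]
      rfl
    rw [h1, map_one]
    refine ⟨[], by simp, ?_, by simp⟩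
    rw [List.map_nil, List.prod_nil, Ideal.one_eq_top]
    exact (Ideal.span_singleton_eq_top.2 ε.isUnit).symm
  | h₃ a π _ hπ ih =>
    intro ha
    have ha1 : IsCoprime π (N : 𝓞 k) := ha.of_mul_left_left
    have ha2 : IsCoprime a (N : 𝓞 k) := ha.of_mul_left_right
    obtain ⟨l, h1, h2, h3⟩ := ih ha2
    have h4 : cls N (π * a) ha = cls N π ha1 * cls N a ha2 := by
      ext
      exact map_mul _ _ _
    refine ⟨(Ideal.span {π}, rs k M F (ρ (cls N π ha1))) :: l, ?_, ?_, ?_⟩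
    · intro x hx
      rcases List.mem_cons.1 hx with rfl | hx
      · refine ⟨(Ideal.span_singleton_prime hπ.ne_zero).2 hπ, ?_,
          artin_frob D hN hN0 A ρ hρ hπ ha1⟩
        rw [Ne, Ideal.span_singleton_eq_bot]
        exact hπ.ne_zero
      · exact h1 x hx
    · rw [List.map_cons, List.prod_cons, h2, Ideal.span_singleton_mul_span_singleton]
    · rw [List.map_cons, List.prod_cons, h3, h4, map_mul, map_mul]

include hN hN0

/-- S7 -/
theorem artin_iff (hram : ∀ p : ℕ, p.Prime → (p : ℤ) ∣ discr M → p ∣ N)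
    (ρ : (𝓞 k ⧸ Ideal.span {(N : 𝓞 k)})ˣ →* Gal(F/k))
    (hρ : ∀ (a : 𝓞 k) (ha : IsCoprime a (N : 𝓞 k)), ρ (cls N a ha) (A.θ 1) = A.θ a)
    (a : 𝓞 k) (ha : IsCoprime a (N : 𝓞 k)) (σ : Gal(M/k)) :
    HasArtinSymbol (Ideal.span {a}) σ ↔ σ = rs k M F (ρ (cls N a ha)) := by
  have h0 := artin_ne_zero D hN ha
  have h1 : Ideal.span {a} ≠ ⊥ := by
    rw [Ne, Ideal.span_singleton_eq_bot]
    exact h0
  have h2 := artin_coprime h0 ha
  have hab : ∀ σ τ : Gal(M/k), σ * τ = τ * σ := fun σ τ => mul_comm' σ τ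
  have h3 := artin_exists D hN hN0 A (M := M) ρ hρ a ha
  rw [art_spec hab hram h1 h2] at h3 ⊢
  rw [h3]

end model

end Pool.Agent.CMG
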