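import Mathlib

/-!
# The elliptic curve `y² = x³ - x` over `ℚ(i)` and its elliptic units: definitions
-/

set_option autoImplicit false

noncomputable section

open Complex Filter Topology
open scoped PeriodPair


namespace Pool.Agent.CMG

/-- the lattice `ℤ + ℤ i` -/
def LG : PeriodPair where
  ω₁ := 1
  ω₂ := I
  indep := by
    have h : ![(1 : ℂ), I] = Complex.basisOneI := by
      ext i
      fin_cases i <;> simp
    rw [h]
    exact Complex.basisOneI.linearIndependent

/-- `XG z = ℘(z) / ℘(1/2)`, so that `XG'² = 4 ℘(1/2) (XG³ - XG)` -/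
def XG (z : ℂ) : ℂ := ℘[LG] z / ℘[LG] (1 / 2)

/-- the Weber function `XG² = 4 ℘² / g₂` -/
def hG (z : ℂ) : ℂ := XG z ^ 2

/-- the nontrivial point of order `1 + i` -/
def tau : ℂ := (1 + I) / 2

/-- the norm of a Gaussian integer -/
def nG (α : GaussianInt) : ℕ := (Zsqrtd.norm α).natAbs

/-- `α` is prime to `1 + i` -/
def IsOdd (α : GaussianInt) : Prop := Odd (nG α)

/-- the torsion point belonging to a class modulo `α` -/
def tor (α : GaussianInt) (q : GaussianInt ⧸ Ideal.span {α}) : ℂ := ((Quotient.out q : GaussianInt) : ℂ) / (α : ℂ)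

/-- the values of `hG` at the nonzero points of `E[α]` -/
def HS (α : GaussianInt) : Set ℂ := hG '' {w : ℂ | w ∉ LG.lattice ∧ (α : ℂ) * w ∈ LG.lattice}

/-- the elliptic function with divisor `N(α) (0) - E[α]` -/
def PsiG (α : GaussianInt) (z : ℂ) : ℂ :=
  2 ^ ((nG α - 1) / 2) / ((α : ℂ) * ∏ᶠ t ∈ HS α, (hG z - t))

/-- the subfield `ℚ(i)` of `ℂ` -/
abbrev Qi : IntermediateField ℚ ℂ := IntermediateField.adjoin ℚ {I}

/-- the field `ℚ(i, h(1/N))` -/
abbrev TN (N : GaussianInt) : IntermediateField ℚ ℂ := IntermediateField.adjoin ℚ {I, hG (1 / (N : ℂ))}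

end Pool.Agent.CMG
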