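import Pool.Agent.CMG.SigmaPsi
import Pool.Agent.CMG.AlgX

/-!
# the field k(h(1/N)): Galois, action on h(a/N) and Psi

`Q̄ = algebraicClosure k ℂ` contains all `XG z`, `z` torsion (`isAlgebraic_XG`). `exists_c`: by
`exists_sigma` with `K = Q̄` (as a subfield), composed with the inclusion `Q̄ → ℂ`, `n = N`; then
`sigma_PsiG` with `z = a/N`, `w = c a/N`. (`a/N` for `N ∣ a` is fine as well: both values are the
junk value of `hG` on `L`.) `hG_mem`: an element of `Q̄` fixed by all `σ ∈ Gal(Q̄/T)` is in `T`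
(`T = k(hG(1/N))`, viewed in `Q̄`; `IsGalois T Q̄`; use `InfiniteGalois`/`IsGalois.mem_bot_iff_fixed`
or the normal closure, or `IntermediateField` of a finite Galois extension containing both): if
`σ (hG (1/N)) = hG (1/N)` then `hG (c/N) = hG (1/N)`, so `c ≡ ε` mod `N` for a unit `ε`
(`hG_eq_iff`) and `hG (c a/N) = hG (a/N)`. Same for `PsiG_mem` (`PsiG α z` depends only on `hG z`;
`α` prime to `N` and `4 ∣ N` imply `α` odd). `isGalois_TN`: all conjugates `hG (c/N)` of the generator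
are in `T`. `act_TN`: extend `τ` to `Q̄` (`AlgEquiv.liftNormal` or `IsAlgClosed.lift`), use
`exists_c`.
-/

set_option autoImplicit false

noncomputable section

open Complex Filter Topology NumberField
open scoped PeriodPair Classical


namespace Pool.Agent.CMG

namespace GalTN

theorem natCast_coe (N : ℕ) : (((N : ℕ) : GaussianInt) : ℂ) = (N : ℂ) := map_natCast _ N

theorem div_mem_iff' {N : ℕ} (hN0 : N ≠ 0) (a : GaussianInt) :
    (a : ℂ) / (N : ℂ) ∈ LG.lattice ↔ (N : GaussianInt) ∣ a := by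
  have h : ((N : ℕ) : GaussianInt) ≠ 0 := by exact_mod_cast hN0
  rw [← div_mem_iff (a := a) h, natCast_coe]

/-- `a + b i ↦ a + b` modulo `2` -/
def red2 : GaussianInt →+* ZMod 2 := Zsqrtd.lift ⟨1, by decide⟩

theorem red2_apply (a : GaussianInt) : red2 a = (a.re : ZMod 2) + (a.im : ZMod 2) := by
  simp [red2, Zsqrtd.lift]

theorem red2_N {N : ℕ} (hN : 4 ∣ N) : red2 (N : GaussianInt) = 0 := by
  rw [map_natCast]
  exact (ZMod.natCast_eq_zero_iff N 2).2 (dvd_trans (by norm_num) hN)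

theorem isOdd_of_coprime {N : ℕ} (hN : 4 ∣ N) {α : GaussianInt} (hα : IsCoprime α (N : GaussianInt)) :
    IsOdd α := by
  obtain ⟨x, y, hxy⟩ := hα
  have h1 := congrArg red2 hxy
  rw [map_add, map_mul, map_mul, red2_N hN, mul_zero, add_zero, map_one] at h1
  have h2 : red2 α ≠ 0 := by
    intro h
    rw [h, mul_zero] at h1
    exact absurd h1 (by decide)
  unfold IsOdd nG
  rw [← Nat.not_even_iff_odd]
  intro h3
  apply h2
  rw [red2_apply, ← Int.cast_add]
  rw [Int.natAbs_even, Zsqrtd.norm_def] at h3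
  have h4 : Even (α.re + α.im) := by
    have h5 : (α.re * α.re - -1 * α.im * α.im : ℤ) = (α.re + α.im) * (α.re + α.im) -
      2 * (α.re * α.im) := by ring
    rw [h5, Int.even_sub] at h3
    have h6 : Even (2 * (α.re * α.im)) := even_two_mul _
    have h7 := h3.2 h6
    rw [Int.even_mul, or_self] at h7
    exact h7
  exact (ZMod.intCast_zmod_eq_zero_iff_dvd _ 2).2 (by exact_mod_cast h4.two_dvd)

theorem not_dvd_of_coprime {N : ℕ} (hN : 4 ∣ N) {a : GaussianInt} (ha : IsCoprime a (N : GaussianInt)) :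
    ¬ (N : GaussianInt) ∣ a := by
  intro h
  obtain ⟨x, y, hxy⟩ := ha
  obtain ⟨b, rfl⟩ := h
  have h1 := congrArg red2 hxy
  rw [map_add, map_mul, map_mul, map_mul, red2_N hN, zero_mul, mul_zero, mul_zero, add_zero,
    map_one] at h1
  exact absurd h1 (by decide)

theorem notMem_of_coprime {N : ℕ} (hN : 4 ∣ N) (hN0 : N ≠ 0) {a : GaussianInt}
    (ha : IsCoprime a (N : GaussianInt)) : (a : ℂ) / (N : ℂ) ∉ LG.lattice := fun h =>
  not_dvd_of_coprime hN ha ((div_mem_iff' hN0 a).1 h)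

/-- the key fact: `hG (c/N) = hG (1/N)` implies `hG (ca/N) = hG (a/N)` -/
theorem hG_of_eq {N : ℕ} (hN : 4 ∣ N) (hN0 : N ≠ 0) {c a : GaussianInt} (hc : IsCoprime c (N : GaussianInt))
    (ha : IsCoprime a (N : GaussianInt)) (h : hG ((c : ℂ) / N) = hG (1 / N)) :
    hG ((c : ℂ) * a / N) = hG (a / N) := by
  have h1 : (1 : ℂ) / N ∉ LG.lattice := by
    have := notMem_of_coprime hN hN0 (a := 1) isCoprime_one_left
    rwa [map_one] at this
  have hN' : (N : ℂ) ≠ 0 := by exact_mod_cast hN0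
  obtain ⟨ε, hε, h2⟩ := (hG_eq_iff (notMem_of_coprime hN hN0 hc) h1).1 h
  have hca : (c : ℂ) * a / N = ((c * a : GaussianInt) : ℂ) / N := by rw [map_mul]
  rw [hca, hG_eq_iff (notMem_of_coprime hN hN0 (hc.mul_left ha)) (notMem_of_coprime hN hN0 ha)]
  refine ⟨ε, hε, ?_⟩
  have h3 := mul_mem_LG a h2
  have h4 : (a : ℂ) * ((c : ℂ) / N - ε * (1 / N)) = ((c * a : GaussianInt) : ℂ) / N - ε * (a / N) := by
    rw [map_mul]
    ring
  rwa [h4] at h3

theorem PsiG_congr {α : GaussianInt} {z w : ℂ} (h : hG z = hG w) : PsiG α z = PsiG α w := by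
  unfold PsiG
  rw [h]

section

variable {k : Type} [Field k] [NumberField k] [Algebra k ℂ]

theorem XG_mem_closure {z : ℂ} (hz : ∃ m : GaussianInt, m ≠ 0 ∧ m * z ∈ LG.lattice) :
    XG z ∈ algebraicClosure k ℂ := by
  obtain ⟨m, hm, hz⟩ := hz
  rw [mem_algebraicClosure_iff]
  exact (isAlgebraic_XG hm hz).tower_top k

theorem tors_div {N : ℕ} (hN0 : N ≠ 0) (a : GaussianInt) :
    ∃ m : GaussianInt, m ≠ 0 ∧ m * ((a : ℂ) / N) ∈ LG.lattice := by
  have hN' : (N : ℂ) ≠ 0 := by exact_mod_cast hN0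
  refine ⟨(N : GaussianInt), by exact_mod_cast hN0, ?_⟩
  rw [natCast_coe, mul_div_cancel₀ _ hN']
  exact mem_LG.2 ⟨a, rfl⟩

end

end GalTN

open GalTN

section gal

variable {k : Type} [Field k] [NumberField k] [Algebra k ℂ]
  (hI : ∃ j : k, algebraMap k ℂ j = I) {N : ℕ} (hN : 4 ∣ N) (hN0 : N ≠ 0)
include hI hN hN0

/-- automorphisms of the field of algebraic numbers; `c` serves all `a` and all `α` -/
theorem exists_c (σ : algebraicClosure k ℂ ≃ₐ[k] algebraicClosure k ℂ) :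
    ∃ c : GaussianInt, IsCoprime c (N : GaussianInt) ∧ ∀ a : GaussianInt,
      (∃ h : hG (a / N) ∈ algebraicClosure k ℂ, (σ ⟨hG (a / N), h⟩ : ℂ) = hG (c * a / N)) ∧
      ∀ α : GaussianInt, IsOdd α →
        ∃ h : PsiG α (a / N) ∈ algebraicClosure k ℂ,
          (σ ⟨PsiG α (a / N), h⟩ : ℂ) = PsiG α (c * a / N) := by
  obtain ⟨j, hj⟩ := hI
  set K : Subfield ℂ := (algebraicClosure k ℂ).toSubfield with hK
  let s : K →+* ℂ :=
    { toFun := fun x => (σ ⟨x.1, x.2⟩ : ℂ)
      map_one' := by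
        have : (⟨((1 : K) : ℂ), (1 : K).2⟩ : algebraicClosure k ℂ) = 1 := rfl
        rw [this, map_one]
        rfl
      map_mul' := fun x y => by
        have : (⟨((x * y : K) : ℂ), (x * y : K).2⟩ : algebraicClosure k ℂ) =
          ⟨x.1, x.2⟩ * ⟨y.1, y.2⟩ := rfl
        rw [this, map_mul]
        rfl
      map_zero' := by
        have : (⟨((0 : K) : ℂ), (0 : K).2⟩ : algebraicClosure k ℂ) = 0 := rfl
        rw [this, map_zero]
        rfl
      map_add' := fun x y => by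
        have : (⟨((x + y : K) : ℂ), (x + y : K).2⟩ : algebraicClosure k ℂ) =
          ⟨x.1, x.2⟩ + ⟨y.1, y.2⟩ := rfl
        rw [this, map_add]
        rfl }
  have hs : ∀ x : K, s x = (σ ⟨x.1, x.2⟩ : ℂ) := fun _ => rfl
  have hIK : I ∈ K := by
    rw [← hj]
    exact (algebraicClosure k ℂ).algebraMap_mem j
  have hsI : s ⟨I, hIK⟩ = I := by
    rw [hs]
    have : (⟨I, hIK⟩ : algebraicClosure k ℂ) = algebraMap k (algebraicClosure k ℂ) j :=
      Subtype.ext hj.symm
    have h2 : σ ⟨I, hIK⟩ = algebraMap k (algebraicClosure k ℂ) j := by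
      rw [this, σ.commutes]
    rw [h2]
    exact hj
  have hX : ∀ z : ℂ, (∃ m : GaussianInt, m ≠ 0 ∧ m * z ∈ LG.lattice) → XG z ∈ K := fun z hz =>
    XG_mem_closure hz
  have hNG : ((N : ℕ) : GaussianInt) ≠ 0 := by exact_mod_cast hN0
  have h1 : XG (1 / ((N : GaussianInt) : ℂ)) ∈ K := by
    have h := hX _ (tors_div hN0 1)
    rw [natCast_coe]
    rwa [map_one] at h
  obtain ⟨c, hc, hca⟩ := exists_sigma hNG K s hIK hsI h1
  have key : ∀ a : GaussianInt, ∃ h : hG (a / N) ∈ K, s ⟨hG (a / N), h⟩ = hG (c * a / N) := by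
    intro a
    have key0 : ∃ h : XG (a / N) ∈ K, s ⟨XG (a / N), h⟩ = XG (c * a / N) := by
      simpa only [natCast_coe] using hca a
    obtain ⟨h', e1⟩ := key0
    refine ⟨pow_mem h' 2, ?_⟩
    have e2 : (⟨hG (a / N), pow_mem h' 2⟩ : K) = ⟨XG (a / N), h'⟩ ^ 2 := rfl
    rw [e2, map_pow, e1]
    rfl
  refine ⟨c, hc, fun a => ⟨?_, fun α hα => ?_⟩⟩
  · obtain ⟨h, h2⟩ := key a
    exact ⟨h, h2⟩
  · obtain ⟨h, h2⟩ := key a
    obtain ⟨h3, h4⟩ := sigma_PsiG hα K s hIK hsI hX (z := a / N) (w := c * a / N)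
      (tors_div hN0 a) h2
    exact ⟨h3, h4⟩

theorem GalTN.one_mem : hG (1 / N) ∈ algebraicClosure k ℂ := by
  obtain ⟨c, -, hc⟩ := exists_c (k := k) hI hN hN0 AlgEquiv.refl
  obtain ⟨h, -⟩ := (hc 1).1
  rwa [map_one] at h

omit hI hN hN0 in
/-- elements fixed by all automorphisms fixing the generator -/
theorem GalTN.mem_of_fixed {t x : ℂ} (ht : t ∈ algebraicClosure k ℂ)
    (hx : x ∈ algebraicClosure k ℂ)
    (h : ∀ σ : algebraicClosure k ℂ ≃ₐ[k] algebraicClosure k ℂ, σ ⟨t, ht⟩ = ⟨t, ht⟩ →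
      σ ⟨x, hx⟩ = ⟨x, hx⟩) : x ∈ IntermediateField.adjoin k {t} := by
  set T' : IntermediateField k (algebraicClosure k ℂ) :=
    IntermediateField.adjoin k {⟨t, ht⟩} with hT'
  have h1 : (⟨x, hx⟩ : algebraicClosure k ℂ) ∈ T' := by
    rw [← InfiniteGalois.fixedField_fixingSubgroup T', IntermediateField.mem_fixedField_iff]
    intro σ hσ
    rw [IntermediateField.mem_fixingSubgroup_iff] at hσ
    exact h σ (hσ _ (IntermediateField.mem_adjoin_simple_self k _))
  have h2 : T'.map (algebraicClosure k ℂ).val = IntermediateField.adjoin k {t} := by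
    rw [hT', IntermediateField.adjoin_map, Set.image_singleton]
    rfl
  rw [← h2]
  exact ⟨_, h1, rfl⟩

theorem GalTN.fixes {σ : algebraicClosure k ℂ ≃ₐ[k] algebraicClosure k ℂ}
    {ht : hG (1 / N) ∈ algebraicClosure k ℂ}
    (hσ : σ ⟨hG (1 / N), ht⟩ = ⟨hG (1 / N), ht⟩) {a : GaussianInt} (ha : IsCoprime a (N : GaussianInt)) :
    (∃ h : hG (a / N) ∈ algebraicClosure k ℂ, σ ⟨hG (a / N), h⟩ = ⟨hG (a / N), h⟩) ∧
      ∀ α : GaussianInt, IsOdd α → ∃ h : PsiG α (a / N) ∈ algebraicClosure k ℂ,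
        σ ⟨PsiG α (a / N), h⟩ = ⟨PsiG α (a / N), h⟩ := by
  obtain ⟨c, hc, hca⟩ := exists_c (k := k) hI hN hN0 σ
  have h1 : hG ((c : ℂ) / N) = hG (1 / N) := by
    obtain ⟨h, h2⟩ := (hca 1).1
    have e1 : (⟨hG (((1 : GaussianInt) : ℂ) / N), h⟩ : algebraicClosure k ℂ) = ⟨hG (1 / N), ht⟩ := by
      apply Subtype.ext
      simp only [map_one]
    rw [e1, hσ] at h2
    rw [map_one, mul_one] at h2
    exact h2.symm
  have h2 := hG_of_eq hN hN0 hc ha h1
  refine ⟨?_, fun α hα => ?_⟩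
  · obtain ⟨h, h3⟩ := (hca a).1
    exact ⟨h, Subtype.ext (h3.trans h2)⟩
  · obtain ⟨h, h3⟩ := (hca a).2 α hα
    exact ⟨h, Subtype.ext (h3.trans (PsiG_congr h2))⟩

theorem hG_mem {a : GaussianInt} (ha : IsCoprime a (N : GaussianInt)) :
    hG (a / N) ∈ IntermediateField.adjoin k {hG (1 / N)} := by
  have ht := GalTN.one_mem (k := k) hI hN hN0
  have hx : hG (a / N) ∈ algebraicClosure k ℂ := by
    obtain ⟨c, -, hc⟩ := exists_c (k := k) hI hN hN0 AlgEquiv.refl
    exact (hc a).1.1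
  exact GalTN.mem_of_fixed ht hx fun σ hσ => (GalTN.fixes hI hN hN0 hσ ha).1.2

theorem PsiG_mem {α a : GaussianInt} (hα : IsCoprime α (N : GaussianInt)) (ha : IsCoprime a (N : GaussianInt)) :
    PsiG α (a / N) ∈ IntermediateField.adjoin k {hG (1 / N)} := by
  have ho := isOdd_of_coprime hN hα
  have ht := GalTN.one_mem (k := k) hI hN hN0
  have hx : PsiG α (a / N) ∈ algebraicClosure k ℂ := by
    obtain ⟨c, -, hc⟩ := exists_c (k := k) hI hN hN0 AlgEquiv.refl
    exact ((hc a).2 α ho).1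
  exact GalTN.mem_of_fixed ht hx fun σ hσ => ((GalTN.fixes hI hN hN0 hσ ha).2 α ho).2

theorem finite_TN : FiniteDimensional k (IntermediateField.adjoin k {hG (1 / N)}) := by
  have ht := GalTN.one_mem (k := k) hI hN hN0
  rw [mem_algebraicClosure_iff] at ht
  exact IntermediateField.adjoin.finiteDimensional ht.isIntegral

theorem isGalois_TN : IsGalois k (IntermediateField.adjoin k {hG (1 / N)}) := by
  have hfin := finite_TN (k := k) hI hN hN0
  have ht := GalTN.one_mem (k := k) hI hN hN0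
  set T' : IntermediateField k (algebraicClosure k ℂ) :=
    IntermediateField.adjoin k {⟨hG (1 / N), ht⟩} with hT'
  have h2 : T'.map (algebraicClosure k ℂ).val = IntermediateField.adjoin k {hG (1 / N)} := by
    rw [hT', IntermediateField.adjoin_map, Set.image_singleton]
    rfl
  have hn : Normal k T' := by
    rw [IntermediateField.normal_iff_forall_map_le']
    intro σ
    rw [hT', IntermediateField.adjoin_map, Set.image_singleton,
      IntermediateField.adjoin_simple_le_iff]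
    obtain ⟨c, hc, hca⟩ := exists_c (k := k) hI hN hN0 σ
    obtain ⟨h, h3⟩ := (hca 1).1
    have e1 : (⟨hG (((1 : GaussianInt) : ℂ) / N), h⟩ : algebraicClosure k ℂ) = ⟨hG (1 / N), ht⟩ := by
      apply Subtype.ext
      simp only [map_one]
    rw [e1, map_one, mul_one] at h3
    have h4 := hG_mem (k := k) hI hN hN0 hc
    rw [← h2] at h4
    obtain ⟨y, hy, hy2⟩ := h4
    have h5 : σ ⟨hG (1 / N), ht⟩ = y := Subtype.ext (h3.trans hy2.symm)
    have h6 : (σ : algebraicClosure k ℂ →ₐ[k] algebraicClosure k ℂ) ⟨hG (1 / N), ht⟩ = y := h5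
    rw [h6]
    exact hy
  have hn2 : Normal k (T'.map (algebraicClosure k ℂ).val) :=
    Normal.of_algEquiv (T'.equivMap (algebraicClosure k ℂ).val)
  rw [h2] at hn2
  exact ⟨⟩

theorem act_TN (τ : IntermediateField.adjoin k {hG (1 / N)} ≃ₐ[k]
      IntermediateField.adjoin k {hG (1 / N)}) : ∃ c : GaussianInt, IsCoprime c (N : GaussianInt) ∧
    (∀ (a : GaussianInt) (ha : IsCoprime a (N : GaussianInt)),
      (τ ⟨hG (a / N), hG_mem hI hN hN0 ha⟩ : ℂ) = hG (c * a / N)) ∧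
    ∀ (α a : GaussianInt) (hα : IsCoprime α (N : GaussianInt)) (ha : IsCoprime a (N : GaussianInt)),
      (τ ⟨PsiG α (a / N), PsiG_mem hI hN hN0 hα ha⟩ : ℂ) = PsiG α (c * a / N) := by
  have ht := GalTN.one_mem (k := k) hI hN hN0
  have hle : IntermediateField.adjoin k {hG (1 / N)} ≤ algebraicClosure k ℂ :=
    IntermediateField.adjoin_simple_le_iff.2 ht
  let alg : Algebra (IntermediateField.adjoin k {hG (1 / N)}) (algebraicClosure k ℂ) :=
    (IntermediateField.inclusion hle).toRingHom.toAlgebra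
  have hst : IsScalarTower k (IntermediateField.adjoin k {hG (1 / N)})
      (algebraicClosure k ℂ) := IsScalarTower.of_algebraMap_eq fun x => by
    exact ((IntermediateField.inclusion hle).commutes x).symm
  have hcomm := AlgEquiv.liftNormal_commutes τ (algebraicClosure k ℂ)
  set σ := AlgEquiv.liftNormal τ (algebraicClosure k ℂ) with hσ
  have hcomm' : ∀ (x : ℂ) (hx : x ∈ IntermediateField.adjoin k {hG (1 / N)}),
      (σ ⟨x, hle hx⟩ : ℂ) = (τ ⟨x, hx⟩ : ℂ) := by
    intro x hx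
    have := hcomm ⟨x, hx⟩
    exact congrArg Subtype.val this
  obtain ⟨c, hc, hca⟩ := exists_c (k := k) hI hN hN0 σ
  refine ⟨c, hc, fun a ha => ?_, fun α a hα ha => ?_⟩
  · rw [← hcomm']
    exact (hca a).1.2
  · rw [← hcomm']
    exact ((hca a).2 α (isOdd_of_coprime hN hα)).2

end gal

end Pool.Agent.CMG
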