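import Pool.Agent.CMG.XBasic

/-!
# translation by tau, multiplication by 1+i, fibres of hG

`XG_add_tau`: `XG_sum` with `v = τ` (`XG τ = 0`, `XG (z+τ) = XG (z-τ)` since `2τ ∈ L`):
`2 XG(z+τ) XG(z)² = -2 XG(z)`, and `XG z ≠ 0` by `XG_inj` (`z ∓ τ ∉ L`).
`XG_one_add_I`: `P_diff` with `u = z`, `v = iz`: `℘(z - iz) = ℘(-i (1+i) z) = -℘((1+i)z)`,
`℘'(iz) = i ℘'(z)` (differentiate `℘(iz) = -℘(z)`), `℘'(z)² = 4 e₁³ (X³ - X)`, `X z ≠ 0`.
`hG_one_add_I`: square it.
`hG_eq_iff`: `(Xu - Xv)(Xu + Xv) = 0` and `-X(v) = X(iv)`; the units of `GaussianInt` are `±1, ±i`.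
`odd_mul_tau`: the norm `a² + b²` is odd iff `a + b` is odd, so `α - 1 ∈ (1+i)` and `(1+i) τ = i`.
-/

set_option autoImplicit false

noncomputable section

open Complex Filter Topology
open scoped PeriodPair Classical


namespace Pool.Agent.CMG

private theorem e1_ne : ℘[LG] (1 / 2) ≠ 0 := XG_tendsto.2

private theorem P_eq (z : ℂ) : ℘[LG] z = ℘[LG] (1 / 2) * XG z := by
  unfold XG
  rw [mul_div_cancel₀ _ e1_ne]

private theorem coe_eq (a b : ℤ) : (((⟨a, b⟩ : GaussianInt) : GaussianInt) : ℂ) = a + b * I := by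
  simp [GaussianInt.toComplex_def]

private theorem mem_of_ints {z : ℂ} (a b : ℤ) (h : z = a + b * I) : z ∈ LG.lattice :=
  mem_LG.2 ⟨⟨a, b⟩, by rw [coe_eq, h]⟩

private theorem ints_of_mem {z : ℂ} (h : z ∈ LG.lattice) : ∃ a b : ℤ, z = a + b * I := by
  obtain ⟨c, hc⟩ := mem_LG.1 h
  exact ⟨c.re, c.im, by rw [← hc, ← coe_eq]⟩

private theorem mul_add_mem (a b : ℤ) {z : ℂ} (hz : z ∈ LG.lattice) :
    ((a : ℂ) + b * I) * z ∈ LG.lattice := by
  rw [← coe_eq]
  exact mul_mem_LG _ hz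

private theorem P'_I_mul {z : ℂ} (hz : z ∉ LG.lattice) : ℘'[LG] (I * z) = I * ℘'[LG] z := by
  have hIz : I * z ∉ LG.lattice := fun h => hz (by
    have h1 := mul_add_mem 0 (-1) h
    have h2 : ((0 : ℤ) : ℂ) + ((-1 : ℤ) : ℂ) * I = -I := by push_cast; ring
    rw [h2] at h1
    have h3 : -I * (I * z) = z := by
      have : -I * (I * z) = -(I * I) * z := by ring
      rw [this, I_mul_I]; ring
    rwa [h3] at h1)
  have hd : ∀ w : ℂ, w ∉ LG.lattice → HasDerivAt ℘[LG] (℘'[LG] w) w := by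
    intro w hw
    have h1 := (LG.analyticOnNhd_weierstrassP w hw).differentiableAt.hasDerivAt
    rwa [PeriodPair.deriv_weierstrassP] at h1
  have h1 : HasDerivAt (fun w => ℘[LG] (I * w)) (℘'[LG] (I * z) * (I * 1)) z :=
    (hd (I * z) hIz).comp z ((hasDerivAt_id z).const_mul I)
  have h2 : (fun w => ℘[LG] (I * w)) = fun w => -℘[LG] w := by
    funext w
    rw [P_eq (I * w), P_eq w, XG_I_mul]
    ring
  rw [h2] at h1
  have h3 := h1.unique (hd z hz).neg
  have h4 : I * (℘'[LG] (I * z) * (I * 1)) = I * (-℘'[LG] z) := by rw [h3]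
  have h5 : I * (℘'[LG] (I * z) * (I * 1)) = (I * I) * ℘'[LG] (I * z) := by ring
  rw [h5, I_mul_I] at h4
  linear_combination -h4

private theorem g3_zero : LG.g₃ = 0 := by
  have h0 : (1 / 2 : ℂ) ∉ LG.lattice := by
    intro h
    obtain ⟨a, b, hab⟩ := ints_of_mem h
    have h1 := congrArg Complex.re hab
    simp at h1
    have h2 : (2 * a : ℝ) = 1 := by linarith
    have h3 : (2 * a : ℤ) = 1 := by exact_mod_cast h2
    omega
  have h0' : I * (1 / 2 : ℂ) ∉ LG.lattice := by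
    intro h
    obtain ⟨a, b, hab⟩ := ints_of_mem h
    have h1 := congrArg Complex.im hab
    simp at h1
    have h2 : (2 * b : ℝ) = 1 := by linarith
    have h3 : (2 * b : ℤ) = 1 := by exact_mod_cast h2
    omega
  have h1 := LG.derivWeierstrassP_sq (1 / 2) h0
  have h2 := LG.derivWeierstrassP_sq (I * (1 / 2)) h0'
  rw [P'_I_mul h0, P_eq (I * (1 / 2)), XG_I_mul] at h2
  rw [P_eq (1 / 2)] at h1
  have h3 : (I * ℘'[LG] (1 / 2)) ^ 2 = -℘'[LG] (1 / 2) ^ 2 := by
    rw [mul_pow, I_sq]; ring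
  rw [h3] at h2
  linear_combination (1 / 2 : ℂ) * h1 + (1 / 2 : ℂ) * h2

private theorem P'_sq {z : ℂ} (hz : z ∉ LG.lattice) :
    ℘'[LG] z ^ 2 = 4 * ℘[LG] (1 / 2) ^ 3 * (XG z ^ 3 - XG z) := by
  have h0 : (1 / 2 : ℂ) ∉ LG.lattice := by
    intro h
    obtain ⟨a, b, hab⟩ := ints_of_mem h
    have h1 := congrArg Complex.re hab
    simp at h1
    have h2 : (2 * a : ℝ) = 1 := by linarith
    have h3 : (2 * a : ℤ) = 1 := by exact_mod_cast h2
    omega
  have h1 := LG.derivWeierstrassP_sq (1 / 2) h0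
  have h2 : ℘'[LG] (1 / 2) = 0 := by
    rw [P'_eq_zero_iff LG h0]
    exact mem_of_ints 1 0 (by norm_num)
  rw [h2, g3_zero] at h1
  have h3 : LG.g₂ = 4 * ℘[LG] (1 / 2) ^ 2 := by
    have h4 : ℘[LG] (1 / 2) * (LG.g₂ - 4 * ℘[LG] (1 / 2) ^ 2) = 0 := by
      linear_combination h1
    rcases mul_eq_zero.1 h4 with h5 | h5
    · exact absurd h5 e1_ne
    · linear_combination h5
  rw [LG.derivWeierstrassP_sq z hz, g3_zero, h3, P_eq z]
  ring

theorem tau_notMem : tau ∉ LG.lattice ∧ (1 + I) * tau = I := by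
  constructor
  · intro h
    obtain ⟨a, b, hab⟩ := ints_of_mem h
    have h1 := congrArg Complex.re hab
    simp [tau] at h1
    have h2 : (2 * a : ℝ) = 1 := by linarith
    have h3 : (2 * a : ℤ) = 1 := by exact_mod_cast h2
    omega
  · unfold tau
    have : (1 + I) * ((1 + I) / 2) = (1 + 2 * I + I * I) / 2 := by ring
    rw [this, I_mul_I]
    ring

private theorem two_tau_mem : 2 * tau ∈ LG.lattice :=
  mem_of_ints 1 1 (by unfold tau; push_cast; ring)

theorem XG_add_tau {z : ℂ} (hz : z ∉ LG.lattice) (h : z + tau ∉ LG.lattice) :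
    XG (z + tau) * XG z = -1 := by
  have h' : z - tau ∉ LG.lattice := fun h1 => h (by
    have := LG.lattice.add_mem h1 two_tau_mem
    have h2 : z - tau + 2 * tau = z + tau := by ring
    rwa [h2] at this)
  have hX : XG z ≠ 0 := by
    intro h0
    rw [← XG_tau] at h0
    rcases XG_inj hz tau_notMem.1 h0 with h1 | h1
    · exact h' h1
    · exact h h1
  have h1 := XG_sum hz tau_notMem.1 h h'
  have h2 : XG (z + tau) = XG (z - tau) := by
    have : z + tau = z - tau + 2 * tau := by ring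
    rw [this, XG_add_coe _ two_tau_mem]
  rw [← h2, XG_tau] at h1
  have h3 : XG z * (XG (z + tau) * XG z + 1) = 0 := by linear_combination h1 / 2
  rcases mul_eq_zero.1 h3 with h4 | h4
  · exact absurd h4 hX
  · linear_combination h4

private theorem not_mem_of_one_add_I {z : ℂ} (hz : (1 + I) * z ∉ LG.lattice) :
    z ∉ LG.lattice := fun h => hz (by
  have := mul_add_mem 1 1 h
  have h2 : ((1 : ℤ) : ℂ) + ((1 : ℤ) : ℂ) * I = 1 + I := by push_cast; ring
  rwa [h2] at this)

private theorem I_mul_notMem {z : ℂ} (hz : z ∉ LG.lattice) : I * z ∉ LG.lattice := fun h => hz (by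
  have h1 := mul_add_mem 0 (-1) h
  have h2 : ((0 : ℤ) : ℂ) + ((-1 : ℤ) : ℂ) * I = -I := by push_cast; ring
  rw [h2] at h1
  have h3 : -I * (I * z) = z := by
    have : -I * (I * z) = -(I * I) * z := by ring
    rw [this, I_mul_I]; ring
  rwa [h3] at h1)

private theorem I_mem : I ∈ LG.lattice := mem_of_ints 0 1 (by push_cast; ring)

theorem XG_one_add_I {z : ℂ} (hz : (1 + I) * z ∉ LG.lattice) :
    2 * I * XG z * XG ((1 + I) * z) = XG z ^ 2 - 1 := by
  have hz0 := not_mem_of_one_add_I hz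
  have hX : XG z ≠ 0 := by
    intro h0
    rw [← XG_tau] at h0
    have h5 : ∀ w : ℂ, w ∈ LG.lattice → (1 + I) * w ∈ LG.lattice := fun w hw => by
      have := mul_add_mem 1 1 hw
      have h2 : ((1 : ℤ) : ℂ) + ((1 : ℤ) : ℂ) * I = 1 + I := by push_cast; ring
      rwa [h2] at this
    rcases XG_inj hz0 tau_notMem.1 h0 with h1 | h1
    · have h6 := LG.lattice.add_mem (h5 _ h1) I_mem
      have h7 : (1 + I) * (z - tau) + I = (1 + I) * z := by
        rw [mul_sub, tau_notMem.2]; ring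
      rw [h7] at h6
      exact hz h6
    · have h6 := LG.lattice.sub_mem (h5 _ h1) I_mem
      have h7 : (1 + I) * (z + tau) - I = (1 + I) * z := by
        rw [mul_add, tau_notMem.2]; ring
      rw [h7] at h6
      exact hz h6
  have hadd : z + I * z = (1 + I) * z := by ring
  have hsub : z - I * z = I * (-((1 + I) * z)) := by
    have : I * (-((1 + I) * z)) = -I * z - (I * I) * z := by ring
    rw [this, I_mul_I]; ring
  have h1 : z + I * z ∉ LG.lattice := by rwa [hadd]
  have h2 : z - I * z ∉ LG.lattice := by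
    rw [hsub]
    exact I_mul_notMem fun h => hz (by simpa using LG.lattice.neg_mem h)
  have h3 := P_diff LG hz0 (I_mul_notMem hz0) h1 h2
  rw [P'_I_mul hz0, P_eq (z + I * z), P_eq (z - I * z), P_eq z, P_eq (I * z), XG_I_mul, hadd, hsub,
    XG_I_mul, XG_neg] at h3
  have h4 := P'_sq hz0
  have h5 : ℘[LG] (1 / 2) ^ 3 * XG z *
      (8 * (XG ((1 + I) * z) * XG z) + 4 * I * (XG z ^ 2 - 1)) = 0 := by
    linear_combination h3 + (-I) * h4
  rcases mul_eq_zero.1 h5 with h6 | h6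
  · rcases mul_eq_zero.1 h6 with h7 | h7
    · exact absurd h7 (pow_ne_zero 3 e1_ne)
    · exact absurd h7 hX
  · have hII : I * I = -1 := I_mul_I
    linear_combination (I / 4) * h6 - (XG z ^ 2 - 1) * hII

theorem hG_one_add_I {z : ℂ} (hz : (1 + I) * z ∉ LG.lattice) :
    4 * hG z * hG ((1 + I) * z) = -(hG z - 1) ^ 2 := by
  have h := XG_one_add_I hz
  unfold hG
  rw [← h]
  have hII : I ^ 2 = -1 := I_sq
  linear_combination (-4 * XG z ^ 2 * XG ((1 + I) * z) ^ 2) * (- hII)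

private theorem unit_cases {ε : GaussianInt} (h : IsUnit ε) :
    (ε : ℂ) = 1 ∨ (ε : ℂ) = -1 ∨ (ε : ℂ) = I ∨ (ε : ℂ) = -I := by
  have h1 : ε.norm.natAbs = 1 := Zsqrtd.norm_eq_one_iff.2 h
  have h2 : ε.re * ε.re + ε.im * ε.im = 1 := by
    have h3 : ε.norm = ε.re * ε.re + ε.im * ε.im := by
      rw [Zsqrtd.norm_def]; ring
    have h4 : 0 ≤ ε.re * ε.re + ε.im * ε.im := by nlinarith [mul_self_nonneg ε.re, mul_self_nonneg ε.im]
    rw [h3] at h1
    omega
  have hre : -1 ≤ ε.re ∧ ε.re ≤ 1 := by constructor <;> nlinarith [mul_self_nonneg ε.im]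
  have him : -1 ≤ ε.im ∧ ε.im ≤ 1 := by constructor <;> nlinarith [mul_self_nonneg ε.re]
  have hcoe : (ε : ℂ) = (ε.re : ℂ) + ε.im * I := by
    rw [← coe_eq]
  obtain ⟨a1, a2⟩ := hre
  obtain ⟨b1, b2⟩ := him
  rw [hcoe]
  have ha : ε.re = -1 ∨ ε.re = 0 ∨ ε.re = 1 := by omega
  have hb : ε.im = -1 ∨ ε.im = 0 ∨ ε.im = 1 := by omega
  rcases ha with ha | ha | ha <;> rcases hb with hb | hb | hb <;> rw [ha, hb] at h2 ⊢ <;>
    simp at h2 ⊢

theorem hG_eq_iff {u v : ℂ} (hu : u ∉ LG.lattice) (hv : v ∉ LG.lattice) :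
    hG u = hG v ↔ ∃ ε : GaussianInt, IsUnit ε ∧ u - ε * v ∈ LG.lattice := by
  constructor
  · intro h
    have hprod : (XG u - XG v) * (XG u + XG v) = 0 := by
      unfold hG at h
      linear_combination h
    rcases mul_eq_zero.1 hprod with h1 | h1
    · rcases XG_inj hu hv (by linear_combination h1) with h2 | h2
      · exact ⟨1, isUnit_one, by simpa using h2⟩
      · refine ⟨-1, isUnit_one.neg, ?_⟩
        have : u - ((-1 : GaussianInt) : ℂ) * v = u + v := by
          rw [map_neg, map_one]; ring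
        rwa [this]
    · have h3 : XG u = XG (I * v) := by rw [XG_I_mul]; linear_combination h1
      have hIu : IsUnit (⟨0, 1⟩ : GaussianInt) := by
        rw [← Zsqrtd.norm_eq_one_iff]; decide
      have hcI : (((⟨0, 1⟩ : GaussianInt) : GaussianInt) : ℂ) = I := by rw [coe_eq]; push_cast; ring
      rcases XG_inj hu (I_mul_notMem hv) h3 with h2 | h2
      · refine ⟨⟨0, 1⟩, hIu, ?_⟩
        rwa [hcI]
      · refine ⟨-⟨0, 1⟩, hIu.neg, ?_⟩
        rw [map_neg, hcI]
        have : u - -I * v = u + I * v := by ring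
        rwa [this]
  · rintro ⟨ε, hε, hmem⟩
    have h1 : u = (ε : ℂ) * v + (u - ε * v) := by ring
    unfold hG
    rw [h1, XG_add_coe _ hmem]
    rcases unit_cases hε with h | h | h | h <;> rw [h]
    · rw [one_mul]
    · rw [neg_one_mul, XG_neg]
    · rw [XG_I_mul]; ring
    · have : -I * v = I * (-v) := by ring
      rw [this, XG_I_mul, XG_neg]; ring

/-- for odd `α`: `α τ ≡ τ` -/
theorem odd_mul_tau {α : GaussianInt} (hα : IsOdd α) : (α : ℂ) * tau - tau ∈ LG.lattice := by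
  unfold IsOdd nG at hα
  have h3 : α.norm = α.re * α.re + α.im * α.im := by
    rw [Zsqrtd.norm_def]; ring
  have h4 : Odd α.norm := Int.natAbs_odd.1 hα
  rw [h3] at h4
  have h5 : Odd (α.re + α.im) := by
    rcases Int.even_or_odd α.re with h6 | h6 <;> rcases Int.even_or_odd α.im with h7 | h7
    · exact absurd ((h6.mul_left α.re).add (h7.mul_left α.im)) (Int.not_even_iff_odd.2 h4)
    · exact h6.add_odd h7
    · exact h6.add_even h7
    · exact absurd ((h6.mul h6).add_odd (h7.mul h7)) (Int.not_even_iff_odd.2 h4)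
  obtain ⟨c, hc⟩ := h5
  have hcoe : (α : ℂ) = (α.re : ℂ) + α.im * I := by
    rw [← coe_eq]
  refine mem_of_ints (c - α.im) c ?_
  have hre : (α.re : ℂ) = 2 * c + 1 - α.im := by
    have : α.re = 2 * c + 1 - α.im := by omega
    rw [this]; push_cast; ring
  rw [hcoe, hre]
  unfold tau
  have hII : I * I = -1 := I_mul_I
  push_cast
  linear_combination ((α.im : ℂ) / 2) * hII

/-- points of order `1 + i` -/
theorem mem_or_tau {z : ℂ} (hz : (1 + I) * z ∈ LG.lattice) :
    z ∈ LG.lattice ∨ z - tau ∈ LG.lattice := by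
  obtain ⟨a, b, hab⟩ := ints_of_mem hz
  have hII : I * I = -1 := I_mul_I
  have hz2 : z = ((a + b : ℂ) + (b - a) * I) / 2 := by
    have h1 : (1 - I) * ((1 + I) * z) = (1 - I * I) * z := by ring
    rw [hab, hII] at h1
    linear_combination (-1 / 2 : ℂ) * h1 - ((b : ℂ) / 2) * hII
  rcases Int.even_or_odd (a + b) with h | h
  · obtain ⟨c, hc⟩ := h
    left
    refine mem_of_ints c (c - a) ?_
    have : (b : ℂ) = 2 * c - a := by
      have : b = 2 * c - a := by omega
      rw [this]; push_cast; ring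
    rw [hz2, this]
    push_cast
    ring
  · obtain ⟨c, hc⟩ := h
    right
    refine mem_of_ints c (c - a) ?_
    have : (b : ℂ) = 2 * c + 1 - a := by
      have : b = 2 * c + 1 - a := by omega
      rw [this]; push_cast; ring
    rw [hz2, this]
    unfold tau
    push_cast
    ring

end Pool.Agent.CMG
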