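import Pool.Agent.CMG.AnKron
import Pool.Agent.CMG.XTau

/-!
# distribution relation for BB under 1+i

`kron_rect` with `r = 1` for the three points `z, z + τ, (1+i)z` (none in `L`) gives `Z₁, Z₂, Z₃`. For
`Re s > 1`: `(1+i)(z + ω)` and `(1+i)(z + τ + ω) = (1+i)z + i + (1+i)ω` (`ω ∈ GaussianInt`) run exactly
through `(1+i)z + GaussianInt`, so `Z₁(s) + Z₂(s) = 2^s Z₃(s)` (`|1+i|² = 2`); identity theorem on `{1}ᶜ`;
derivative at `0`, `Z₃(0) = 0`.
-/

set_option autoImplicit false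

noncomputable section

open Complex Filter Topology
open scoped PeriodPair Classical


namespace Pool.Agent.CMG

private theorem kd_sum {x y : ℝ} {Z₁ Z₂ Z₃ : ℂ → ℂ} (h1 : IsRect 1 x y Z₁)
    (h2 : IsRect 1 (x + 1 / 2) (y + 1 / 2) Z₂) (h3 : IsRect 1 (x - y) (x + y) Z₃) {s : ℂ}
    (hs : 1 < s.re) : Z₁ s + Z₂ s = 2 ^ s * Z₃ s := by
  set f : ℤ × ℤ → ℂ := fun p =>
    (((x - y + p.1) ^ 2 + (1 : ℝ) ^ 2 * (x + y + p.2) ^ 2 : ℝ) : ℂ) ^ (-s) with hf
  set g₁ : ℤ × ℤ → ℤ × ℤ := fun p => (p.1 - p.2, p.1 + p.2) with hg₁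
  set g₂ : ℤ × ℤ → ℤ × ℤ := fun p => (p.1 - p.2, p.1 + p.2 + 1) with hg₂
  have i1 : Function.Injective g₁ := by
    rintro ⟨a, b⟩ ⟨c, d⟩ h
    simp only [hg₁, Prod.mk.injEq] at h
    ext <;> simp only <;> omega
  have i2 : Function.Injective g₂ := by
    rintro ⟨a, b⟩ ⟨c, d⟩ h
    simp only [hg₂, Prod.mk.injEq] at h
    ext <;> simp only <;> omega
  have hc : IsCompl (Set.range g₁) (Set.range g₂) := by
    refine ⟨?_, ?_⟩
    · rw [Set.disjoint_left]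
      rintro p ⟨⟨a, b⟩, rfl⟩ ⟨⟨c, d⟩, h⟩
      simp only [hg₁, hg₂, Prod.mk.injEq] at h
      omega
    · rw [codisjoint_iff]
      ext ⟨a, b⟩
      simp only [Set.sup_eq_union, Set.mem_union, Set.mem_range, Set.top_eq_univ, Set.mem_univ,
        iff_true]
      rcases Int.even_or_odd (a + b) with ⟨c, hc⟩ | ⟨c, hc⟩
      · left
        exact ⟨(c, c - a), by simp only [hg₁, Prod.mk.injEq]; omega⟩
      · right
        exact ⟨(c, c - a), by simp only [hg₂, Prod.mk.injEq]; omega⟩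
  have key : ∀ u : ℝ, 0 ≤ u → (((2 * u : ℝ)) : ℂ) ^ (-s) = (2 : ℂ) ^ (-s) * (u : ℂ) ^ (-s) := by
    intro u hu
    rw [Complex.ofReal_mul, Complex.mul_cpow_ofReal_nonneg (by norm_num) hu]
    norm_num
  have s1 : HasSum (f ∘ g₁) ((2 : ℂ) ^ (-s) * Z₁ s) := by
    have h := (h1.sum s hs).mul_left ((2 : ℂ) ^ (-s))
    refine h.congr_fun ?_
    intro p
    simp only [Function.comp, hf, hg₁]
    rw [← key _ (by positivity)]
    congr 2
    push_cast
    ring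
  have s2 : HasSum (f ∘ g₂) ((2 : ℂ) ^ (-s) * Z₂ s) := by
    have h := (h2.sum s hs).mul_left ((2 : ℂ) ^ (-s))
    refine h.congr_fun ?_
    intro p
    simp only [Function.comp, hf, hg₂]
    rw [← key _ (by positivity)]
    congr 2
    push_cast
    ring
  have t1 : HasSum (f ∘ ((↑) : Set.range g₁ → ℤ × ℤ)) ((2 : ℂ) ^ (-s) * Z₁ s) :=
    i1.hasSum_range_iff.mpr s1
  have t2 : HasSum (f ∘ ((↑) : Set.range g₂ → ℤ × ℤ)) ((2 : ℂ) ^ (-s) * Z₂ s) :=
    i2.hasSum_range_iff.mpr s2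
  have s3 : HasSum f _ := HasSum.add_isCompl hc t1 t2
  have s4 := (h3.sum s hs).unique s3
  rw [s4, ← mul_add, ← mul_assoc, ← Complex.cpow_add _ _ two_ne_zero]
  simp

theorem BB_distr {z : ℂ} (hz : (1 + I) * z ∉ LG.lattice) :
    BB 1 z + BB 1 (z + tau) = BB 1 ((1 + I) * z) := by
  have hI : ∀ w : ℂ, w ∉ LG.lattice →
      ((w.re : UnitAddCircle) ≠ 0 ∨ (w.im : UnitAddCircle) ≠ 0) := by
    intro w hw
    by_contra hcon
    push Not at hcon
    obtain ⟨ha, hb⟩ := hcon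
    rw [AddCircle.coe_eq_zero_iff] at ha hb
    obtain ⟨m, hm⟩ := ha
    obtain ⟨n, hn⟩ := hb
    apply hw
    rw [PeriodPair.mem_lattice]
    refine ⟨m, n, ?_⟩
    simp only [zsmul_eq_mul, mul_one] at hm hn
    have : w = (w.re : ℂ) + (w.im : ℂ) * I := (Complex.re_add_im w).symm
    rw [this, ← hm, ← hn]
    simp [LG]
  have hImul : ∀ w : ℂ, w ∈ LG.lattice → (1 + I) * w ∈ LG.lattice := by
    intro w hw
    have := mul_mem_LG (⟨1, 1⟩ : GaussianInt) hw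
    have e : ((⟨1, 1⟩ : GaussianInt) : ℂ) = 1 + I := by
      rw [GaussianInt.toComplex_def']
      simp
    rwa [e] at this
  have hz1 : z ∉ LG.lattice := fun h => hz (hImul z h)
  have hIL : I ∈ LG.lattice := LG.ω₂_mem_lattice
  have hz2 : z + tau ∉ LG.lattice := by
    intro h
    apply hz
    have h' := hImul _ h
    rw [mul_add, tau_notMem.2] at h'
    have := Submodule.sub_mem _ h' hIL
    simpa using this
  obtain ⟨Z₁, r1, d1⟩ := kron_rect one_pos (hI z hz1)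
  obtain ⟨Z₂, r2, d2⟩ := kron_rect one_pos (hI _ hz2)
  obtain ⟨Z₃, r3, d3⟩ := kron_rect one_pos (hI _ hz)
  have ee : ∀ w : ℂ, ((w.re : ℂ) + ((1 : ℝ) : ℂ) * (w.im : ℂ) * I) = w := by
    intro w
    simp [Complex.re_add_im w]
  rw [ee] at d1 d2 d3
  have e2 : (z + tau).re = z.re + 1 / 2 ∧ (z + tau).im = z.im + 1 / 2 := by
    simp [tau]
  have e3 : ((1 + I) * z).re = z.re - z.im ∧ ((1 + I) * z).im = z.re + z.im := by
    constructor
    · simp
    · simp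
      ring
  rw [e2.1, e2.2] at r2
  rw [e3.1, e3.2] at r3
  have hopen : IsOpen ({1}ᶜ : Set ℂ) := isOpen_compl_singleton
  have hpre : IsPreconnected ({1}ᶜ : Set ℂ) :=
    (isConnected_compl_singleton_of_one_lt_rank (by simp) _).isPreconnected
  have hdL : DifferentiableOn ℂ (fun s => Z₁ s + Z₂ s) {1}ᶜ := r1.diff.add r2.diff
  have hdp : Differentiable ℂ (fun s : ℂ => (2 : ℂ) ^ s) := by
    intro s
    exact (differentiableAt_id.const_cpow (Or.inl two_ne_zero))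
  have hdR : DifferentiableOn ℂ (fun s => (2 : ℂ) ^ s * Z₃ s) {1}ᶜ :=
    hdp.differentiableOn.mul r3.diff
  have hev : (fun s => Z₁ s + Z₂ s) =ᶠ[𝓝 2] (fun s => (2 : ℂ) ^ s * Z₃ s) := by
    have : ∀ᶠ s : ℂ in 𝓝 2, 1 < s.re :=
      (Complex.continuous_re.tendsto 2).eventually (lt_mem_nhds (by norm_num))
    filter_upwards [this] with s hs
    exact kd_sum r1 r2 r3 hs
  have heq := (hdL.analyticOnNhd hopen).eqOn_of_preconnected_of_eventuallyEq
    (hdR.analyticOnNhd hopen) hpre (z₀ := 2) (by simp) hev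
  have h0 : (fun s => Z₁ s + Z₂ s) =ᶠ[𝓝 0] (fun s => (2 : ℂ) ^ s * Z₃ s) := by
    filter_upwards [hopen.mem_nhds (show (0 : ℂ) ∈ ({1}ᶜ : Set ℂ) by simp)] with s hs
    exact heq hs
  have hder := h0.deriv_eq
  have n0 : ({1}ᶜ : Set ℂ) ∈ 𝓝 (0 : ℂ) := hopen.mem_nhds (by simp)
  have D1 := r1.diff.differentiableAt n0
  have D2 := r2.diff.differentiableAt n0
  have D3 := r3.diff.differentiableAt n0
  have l1 : deriv (fun s => Z₁ s + Z₂ s) 0 = deriv Z₁ 0 + deriv Z₂ 0 := deriv_fun_add D1 D2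
  have l2 : deriv (fun s => (2 : ℂ) ^ s * Z₃ s) 0 = deriv Z₃ 0 := by
    rw [deriv_fun_mul (hdp 0) D3, r3.zero]
    simp
  rw [l1, l2, d1, d2, d3] at hder
  exact_mod_cast hder

end Pool.Agent.CMG
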