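import Pool.Agent.CMG.PsiOrd

/-!
# distribution relation for PsiG under 1+i

`x = hG z`; `hG (z + τ) = 1/x` (`XG_add_tau`), `hG ((1+i)z) = T x`, `T x = -(x-1)²/(4x)`
(`hG_one_add_I`). `T x - T t = -(x-t)(xt-1)/(4xt)`. `t ↦ T t` permutes `HS α` (`w ↦ (1+i)w` permutes
`E[α] ∖ 0` modulo units). So `∏_t (T x - t) = ∏_t (T x - T t)` and
`∏_t (x-t)(1/x - t) / ∏_t (T x - t) = ∏_t 4t`, so
`PsiG α z PsiG α (z+τ) / PsiG α ((1+i)z) = 2^{(Nα-1)/2} / (α ∏ 4t) = 1/(α ∏ t)` (`4 |HS α| = Nα - 1`),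
and `(∏ t)² = ±α⁻²` by `HS_prod` and `hT5` (which is the last part of theorem `T5`).
-/

set_option autoImplicit false

noncomputable section

open Complex Filter Topology
open scoped PeriodPair Classical


namespace Pool.Agent.CMG

private theorem pd_coe_ne_zero {α : GaussianInt} (hα : α ≠ 0) : (α : ℂ) ≠ 0 := fun h =>
  hα (GaussianInt.toComplex_eq_zero.1 h)

private theorem pd_PsiG_eq {α : GaussianInt} (hα : α ≠ 0) (z : ℂ) : PsiG α z =
    2 ^ ((nG α - 1) / 2) / ((α : ℂ) * ∏ t ∈ (HS_finite hα).toFinset, (hG z - t)) := by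
  unfold PsiG
  rw [finprod_mem_eq_finite_toFinset_prod _ (HS_finite hα)]

private theorem pd_coprime_two {α : GaussianInt} (hα : IsOdd α) : IsCoprime α 2 := by
  obtain ⟨k, hk⟩ := hα
  have h1 : ((Zsqrtd.norm α : ℤ) : GaussianInt) = α * star α := Zsqrtd.norm_eq_mul_conj α
  have h2 : (Zsqrtd.norm α : ℤ) = 2 * k + 1 := by
    have h3 : (0 : ℤ) ≤ Zsqrtd.norm α := GaussianInt.norm_nonneg α
    unfold nG at hk
    omega
  refine ⟨star α, -(k : GaussianInt), ?_⟩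
  have h4 : α * star α = 2 * (k : GaussianInt) + 1 := by
    rw [← h1, h2]
    push_cast
    ring
  linear_combination h4

private theorem pd_two {α : GaussianInt} (hα : IsOdd α) {w : ℂ} (hw : w ∉ LG.lattice)
    (hαw : α * w ∈ LG.lattice) : 2 * w ∉ LG.lattice := by
  intro h
  apply hw
  refine mem_of_coprime (pd_coprime_two hα) hαw ?_
  have h2 : ((2 : GaussianInt) : ℂ) = 2 := map_ofNat GaussianInt.toComplex 2
  rw [h2]
  exact h

private theorem pd_coe (a b : ℤ) : (((⟨a, b⟩ : GaussianInt) : GaussianInt) : ℂ) = a + b * I := by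
  simp [GaussianInt.toComplex_def]

private theorem pd_one_add_I_mul {z : ℂ} (hz : z ∈ LG.lattice) : (1 + I) * z ∈ LG.lattice := by
  have h := mul_mem_LG (⟨1, 1⟩ : GaussianInt) hz
  rw [pd_coe] at h
  have h2 : ((1 : ℤ) : ℂ) + ((1 : ℤ) : ℂ) * I = 1 + I := by push_cast; ring
  rwa [h2] at h

private theorem pd_one_add_I {α : GaussianInt} (hα : IsOdd α) {w : ℂ} (hw : w ∉ LG.lattice)
    (hαw : α * w ∈ LG.lattice) : (1 + I) * w ∉ LG.lattice := by
  intro h
  apply pd_two hα hw hαw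
  have h1 := mul_mem_LG (⟨1, -1⟩ : GaussianInt) h
  rw [pd_coe] at h1
  have h2 : (((1 : ℤ) : ℂ) + ((-1 : ℤ) : ℂ) * I) * ((1 + I) * w) = 2 * w := by
    push_cast
    linear_combination (-w) * I_mul_I
  rwa [h2] at h1

private theorem pd_I_mem : I ∈ LG.lattice := by
  rw [mem_LG]
  exact ⟨⟨0, 1⟩, by rw [pd_coe]; push_cast; ring⟩

private theorem pd_hG_ne {α : GaussianInt} (hα : IsOdd α) {w : ℂ} (hw : w ∉ LG.lattice)
    (hαw : α * w ∈ LG.lattice) : hG w ≠ 0 := by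
  intro h
  apply pd_two hα hw hαw
  have h1 : XG w = 0 := by
    unfold hG at h
    exact pow_eq_zero_iff two_ne_zero |>.1 h
  rw [XG_two_mul_mem_iff hw, h1]
  ring

/-- the map `T` on the values -/
private def TT (t : ℂ) : ℂ := -(t - 1) ^ 2 / (4 * t)

private theorem pd_TT {w : ℂ} (hw : (1 + I) * w ∉ LG.lattice) (h0 : hG w ≠ 0) :
    TT (hG w) = hG ((1 + I) * w) := by
  have h := hG_one_add_I hw
  rw [TT, div_eq_iff (mul_ne_zero (by norm_num) h0)]
  linear_combination -h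

private theorem pd_maps {α : GaussianInt} (hα : IsOdd α) {t : ℂ} (ht : t ∈ HS α) : TT t ∈ HS α := by
  obtain ⟨w, ⟨hw, hαw⟩, rfl⟩ := ht
  have h1 := pd_one_add_I hα hw hαw
  rw [pd_TT h1 (pd_hG_ne hα hw hαw)]
  refine ⟨(1 + I) * w, ⟨h1, ?_⟩, rfl⟩
  have h2 := pd_one_add_I_mul hαw
  have h3 : (1 + I) * ((α : ℂ) * w) = α * ((1 + I) * w) := by ring
  rwa [h3] at h2

private theorem pd_notMem_tau {z : ℂ} (hz : (1 + I) * z ∉ LG.lattice) :
    z ∉ LG.lattice ∧ z + tau ∉ LG.lattice := by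
  refine ⟨fun h => hz (pd_one_add_I_mul h), fun h => hz ?_⟩
  have h1 := LG.lattice.sub_mem (pd_one_add_I_mul h) pd_I_mem
  have h2 : (1 + I) * (z + tau) - I = (1 + I) * z := by
    rw [mul_add, tau_notMem.2]
    ring
  rwa [h2] at h1

private theorem pd_hG_add_tau {z : ℂ} (hz : (1 + I) * z ∉ LG.lattice) :
    hG (z + tau) * hG z = 1 := by
  obtain ⟨h1, h2⟩ := pd_notMem_tau hz
  have h3 := XG_add_tau h1 h2
  unfold hG
  rw [← mul_pow, h3]
  norm_num

private theorem pd_inj {α : GaussianInt} (hα : IsOdd α) {t t' : ℂ} (ht : t ∈ HS α) (ht' : t' ∈ HS α)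
    (h : TT t = TT t') : t = t' := by
  obtain ⟨w, ⟨hw, hαw⟩, rfl⟩ := ht
  obtain ⟨w', ⟨hw', hαw'⟩, rfl⟩ := ht'
  have h0 := pd_hG_ne hα hw hαw
  have h0' := pd_hG_ne hα hw' hαw'
  have h1 : (hG w - hG w') * (hG w * hG w' - 1) = 0 := by
    rw [TT, TT, div_eq_div_iff (mul_ne_zero (by norm_num) h0)
      (mul_ne_zero (by norm_num) h0')] at h
    linear_combination (-1 / 4) * h
  rcases mul_eq_zero.1 h1 with h2 | h2
  · exact sub_eq_zero.1 h2
  · exfalso
    have h3 := pd_one_add_I hα hw hαw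
    obtain ⟨_, h4⟩ := pd_notMem_tau h3
    have h5 : hG (w + tau) = hG w' := by
      apply mul_right_cancel₀ h0
      rw [pd_hG_add_tau h3]
      linear_combination -h2
    obtain ⟨ε, _, h6⟩ := (hG_eq_iff h4 hw').1 h5
    have h7 := mul_mem_LG α h6
    have h8 := mul_mem_LG ε hαw'
    have h9 := LG.lattice.add_mem h7 h8
    have h10 := LG.lattice.sub_mem (LG.lattice.sub_mem h9 hαw) (odd_mul_tau hα)
    apply tau_notMem.1
    have h11 : (α : ℂ) * (w + tau - ε * w') + ε * (α * w') - α * w - (α * tau - tau) = tau := by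
      ring
    rwa [h11] at h10

theorem PsiG_distr {α : GaussianInt} (hα : IsOdd α)
    (hT5 : ∃ ε : ℂ, ε ^ 2 = 1 ∧
      ∏ᶠ (q : GaussianInt ⧸ Ideal.span {α}) (_ : q ≠ 0), XG (tor α q) = ε / α ^ 2)
    {z : ℂ} (hz : α * (1 + I) * z ∉ LG.lattice) :
    ‖PsiG α z * PsiG α (z + tau)‖ = ‖PsiG α ((1 + I) * z)‖ := by
  have hα0 := hα.ne_zero
  have hαc := pd_coe_ne_zero hα0
  set S := (HS_finite hα0).toFinset with hS
  have hmS : ∀ t, t ∈ S ↔ t ∈ HS α := fun t => by rw [hS, Set.Finite.mem_toFinset]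
  have hcard : 4 * S.card + 1 = nG α := by
    rw [← HS_card hα, hS, ← Set.ncard_eq_toFinset_card _ (HS_finite hα0)]
  have hm : (nG α - 1) / 2 = 2 * S.card := by omega
  have hz1 : (1 + I) * z ∉ LG.lattice := by
    intro h
    apply hz
    have := mul_mem_LG α h
    rwa [← mul_assoc] at this
  have hx : hG (z + tau) * hG z = 1 := pd_hG_add_tau hz1
  have hx0 : hG z ≠ 0 := right_ne_zero_of_mul_eq_one hx
  have hy := pd_TT hz1 hx0
  have ht0 : ∀ t ∈ S, t ≠ 0 := by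
    intro t ht
    obtain ⟨w, ⟨hw, hαw⟩, rfl⟩ := (hmS t).1 ht
    exact pd_hG_ne hα hw hαw
  -- the permutation
  have himg : S.image TT = S := by
    apply Finset.eq_of_subset_of_card_le
    · intro t ht
      obtain ⟨s, hs, rfl⟩ := Finset.mem_image.1 ht
      exact (hmS _).2 (pd_maps hα ((hmS s).1 hs))
    · rw [Finset.card_image_of_injOn]
      intro t ht t' ht' h
      exact pd_inj hα ((hmS t).1 ht) ((hmS t').1 ht') h
  have hperm : ∏ t ∈ S, (hG ((1 + I) * z) - t) = ∏ t ∈ S, (hG ((1 + I) * z) - TT t) := by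
    conv_lhs => rw [← himg]
    rw [Finset.prod_image]
    intro t ht t' ht' h
    exact pd_inj hα ((hmS t).1 ht) ((hmS t').1 ht') h
  have hfac : ∀ t ∈ S, (hG z - t) * (hG (z + tau) - t) =
      4 * t * (hG ((1 + I) * z) - TT t) := by
    intro t ht
    have h1 : hG (z + tau) = 1 / hG z := by
      rw [eq_div_iff hx0]
      exact hx
    have h2 := ht0 t ht
    rw [← hy, h1, TT, TT]
    field_simp
    ring
  have hprod : (∏ t ∈ S, (hG z - t)) * ∏ t ∈ S, (hG (z + tau) - t) =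
      4 ^ S.card * (∏ t ∈ S, t) * ∏ t ∈ S, (hG ((1 + I) * z) - t) := by
    rw [← Finset.prod_mul_distrib, Finset.prod_congr rfl hfac, Finset.prod_mul_distrib,
      Finset.prod_mul_distrib, Finset.prod_const, hperm]
  -- the product of the elements
  have hTn : ‖(α : ℂ) * ∏ t ∈ S, t‖ = 1 := by
    obtain ⟨ε, hε, h1⟩ := hT5
    rw [← HS_prod hα, finprod_mem_eq_finite_toFinset_prod _ (HS_finite hα0), ← hS] at h1
    have h2 : ((α : ℂ) * ∏ t ∈ S, t) ^ 2 = ε := by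
      rw [mul_pow, h1]
      field_simp
    have h3 : ((α : ℂ) * ∏ t ∈ S, t) ^ 4 = 1 := by
      have h4 : ((α : ℂ) * ∏ t ∈ S, t) ^ 4 = (((α : ℂ) * ∏ t ∈ S, t) ^ 2) ^ 2 := by ring
      rw [h4, h2, hε]
    have h5 := congrArg norm h3
    rw [norm_pow, norm_one] at h5
    exact (pow_eq_one_iff_of_nonneg (norm_nonneg _) (by norm_num)).1 h5
  have hT0 : ∏ t ∈ S, t ≠ 0 := Finset.prod_ne_zero_iff.2 ht0
  have hmain : PsiG α z * PsiG α (z + tau) * ((α : ℂ) * ∏ t ∈ S, t) =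
      PsiG α ((1 + I) * z) := by
    rw [pd_PsiG_eq hα0, pd_PsiG_eq hα0, pd_PsiG_eq hα0, ← hS, hm]
    have h1 : (2 : ℂ) ^ (2 * S.card) = 4 ^ S.card := by
      rw [pow_mul]
      norm_num
    have h4 : (4 : ℂ) ^ S.card ≠ 0 := pow_ne_zero _ (by norm_num)
    rw [h1, div_mul_div_comm]
    have h2 : (α : ℂ) * (∏ t ∈ S, (hG z - t)) * (α * ∏ t ∈ S, (hG (z + tau) - t)) =
        α ^ 2 * (4 ^ S.card * (∏ t ∈ S, t) * ∏ t ∈ S, (hG ((1 + I) * z) - t)) := by
      rw [← hprod]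
      ring
    rw [h2]
    by_cases h3 : ∏ t ∈ S, (hG ((1 + I) * z) - t) = 0
    · rw [h3]
      simp
    · field_simp
  rw [← hmain, norm_mul (PsiG α z * PsiG α (z + tau)), hTn, mul_one]

end Pool.Agent.CMG
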