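import Pool.Agent.CMG.XTau
import Pool.Agent.CMG.Tors

/-!
# product of XG over translates by E[α]

`F(z) = ∏_q XG (z + tor α q)`, `G(z) = XG (α z)`. Orders (from `XG_order_sub` with `v = τ`,
`XG τ = 0`: order of `XG` is `-2` on `L`, `2` on `τ + L`, `0` elsewhere): if `α z ∈ L` exactly one
`z + tor α q` is in `L` and none in `τ + L` (`α τ ≡ τ ∉ L`), so both orders are `-2`; if
`α z ∈ τ + L` both are `2`; otherwise `0`. `F/G` is `L`-periodic, so
`F = c G` by `liouville`. `F(z) F(z+τ) = (-1)^{N α} = -1` and `G(z) G(z+τ) = -1` (`XG_add_tau`,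
`odd_mul_tau`), so `c² = 1`. Dividing by `XG z` and `z → 0` (`XG_tendsto`): `∏_{q≠0} = c/α²`.
-/

set_option autoImplicit false

noncomputable section

open Complex Filter Topology
open scoped PeriodPair Classical

namespace Pool.Agent.CMG

theorem tfive_two_tau : 2 * tau ∈ LG.lattice := by
  have h : 2 * tau = (1 + I) := by unfold tau; ring
  rw [h, mem_LG]
  exact ⟨⟨1, 1⟩, by simp [GaussianInt.toComplex_def]⟩

theorem tfive_order (z : ℂ) : meromorphicOrderAt XG z =
    ((if z ∈ LG.lattice then -2 else if z - tau ∈ LG.lattice then 2 else 0 : ℤ) : WithTop ℤ) := by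
  have h := XG_order_sub tau_notMem.1 z
  simp only [XG_tau, sub_zero] at h
  rw [h]
  have h2 : (z - tau ∈ LG.lattice ∨ z + tau ∈ LG.lattice) ↔ z - tau ∈ LG.lattice := by
    refine ⟨?_, Or.inl⟩
    rintro (h3 | h3)
    · exact h3
    · have := LG.lattice.sub_mem h3 tfive_two_tau
      rwa [show z + tau - 2 * tau = z - tau by ring] at this
  simp only [h2, if_pos tfive_two_tau]

theorem tfive_notMem_half : (1 / 2 : ℂ) ∉ LG.lattice := by
  rw [mem_LG]
  rintro ⟨a, ha⟩
  have h := congrArg Complex.re ha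
  rw [← GaussianInt.intCast_re] at h
  have h0 : (1 / 2 : ℂ).re = 1 / 2 := by norm_num
  rw [h0] at h
  have h1 : ((2 * a.re : ℤ) : ℝ) = ((1 : ℤ) : ℝ) := by push_cast; linarith
  have h2 : 2 * a.re = 1 := by exact_mod_cast h1
  omega

theorem tfive_notMem_half_tau : (1 / 2 + tau : ℂ) ∉ LG.lattice := by
  rw [mem_LG]
  rintro ⟨a, ha⟩
  have h := congrArg Complex.im ha
  rw [← GaussianInt.intCast_im] at h
  have h0 : (1 / 2 + tau : ℂ).im = 1 / 2 := by simp [tau]
  rw [h0] at h
  have h1 : ((2 * a.im : ℤ) : ℝ) = ((1 : ℤ) : ℝ) := by push_cast; linarith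
  have h2 : 2 * a.im = 1 := by exact_mod_cast h1
  omega

section

variable {α : GaussianInt}

theorem tfive_mul_tor (hα : IsOdd α) (z : ℂ) (q : GaussianInt ⧸ Ideal.span {α}) :
    (α : ℂ) * (z + tor α q) ∈ LG.lattice ↔ (α : ℂ) * z ∈ LG.lattice := by
  have h := mul_tor_mem hα.ne_zero q
  rw [mul_add]
  exact ⟨fun h1 => by simpa using LG.lattice.sub_mem h1 h, fun h1 => LG.lattice.add_mem h1 h⟩

theorem tfive_tau (hα : IsOdd α) (z : ℂ) :
    (α : ℂ) * (z - tau) ∈ LG.lattice ↔ (α : ℂ) * z - tau ∈ LG.lattice := by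
  have h := odd_mul_tau hα
  constructor
  · intro h1
    have := LG.lattice.add_mem h1 h
    rwa [show (α : ℂ) * (z - tau) + ((α : ℂ) * tau - tau) = (α : ℂ) * z - tau by ring] at this
  · intro h1
    have := LG.lattice.sub_mem h1 h
    rwa [show (α : ℂ) * z - tau - ((α : ℂ) * tau - tau) = (α : ℂ) * (z - tau) by ring] at this

theorem tfive_unique (hα : IsOdd α) {z : ℂ} (hz : (α : ℂ) * z ∈ LG.lattice) :
    ∃! q : GaussianInt ⧸ Ideal.span {α}, z + tor α q ∈ LG.lattice := by
  have h : (α : ℂ) * (-z) ∈ LG.lattice := by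
    rw [mul_neg]
    exact LG.lattice.neg_mem hz
  have h2 := exists_tor hα.ne_zero h
  convert h2 using 2 with q
  constructor
  · intro h3
    rw [show -z - tor α q = -(z + tor α q) by ring]
    exact LG.lattice.neg_mem h3
  · intro h3
    rw [show z + tor α q = -(-z - tor α q) by ring]
    exact LG.lattice.neg_mem h3

theorem tfive_sum (hα : IsOdd α) [Fintype (GaussianInt ⧸ Ideal.span {α})] (z : ℂ) :
    ∑ q : GaussianInt ⧸ Ideal.span {α}, (if z + tor α q ∈ LG.lattice then -2 else
      if z + tor α q - tau ∈ LG.lattice then 2 else 0 : ℤ) =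
    (if (α : ℂ) * z ∈ LG.lattice then -2 else if (α : ℂ) * z - tau ∈ LG.lattice then 2 else 0) := by
  by_cases h1 : (α : ℂ) * z ∈ LG.lattice
  · rw [if_pos h1]
    obtain ⟨q₀, hq₀, hu⟩ := tfive_unique hα h1
    rw [Finset.sum_eq_single q₀]
    · rw [if_pos hq₀]
    · intro q _ hq
      rw [if_neg fun h => hq (hu q h), if_neg]
      intro h
      have h2 := mul_mem_LG α h
      rw [tfive_tau hα, mul_add] at h2
      have h3 := LG.lattice.sub_mem (LG.lattice.add_mem h1 (mul_tor_mem hα.ne_zero q)) h2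
      rw [sub_sub_cancel] at h3
      exact tau_notMem.1 h3
    · intro h
      exact absurd (Finset.mem_univ _) h
  · rw [if_neg h1]
    by_cases h2 : (α : ℂ) * z - tau ∈ LG.lattice
    · rw [if_pos h2]
      rw [← tfive_tau hα] at h2
      obtain ⟨q₀, hq₀, hu⟩ := tfive_unique hα h2
      have hn : ∀ q : GaussianInt ⧸ Ideal.span {α}, z + tor α q ∉ LG.lattice := by
        intro q h
        exact h1 ((tfive_mul_tor hα z q).1 (mul_mem_LG α h))
      rw [Finset.sum_eq_single q₀]
      · rw [if_neg (hn q₀), if_pos]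
        rwa [show z + tor α q₀ - tau = z - tau + tor α q₀ by ring]
      · intro q _ hq
        rw [if_neg (hn q), if_neg]
        intro h
        rw [show z + tor α q - tau = z - tau + tor α q by ring] at h
        exact hq (hu q h)
      · intro h
        exact absurd (Finset.mem_univ _) h
    · rw [if_neg h2]
      refine Finset.sum_eq_zero fun q _ => ?_
      rw [if_neg, if_neg]
      · intro h
        rw [show z + tor α q - tau = z - tau + tor α q by ring] at h
        exact h2 ((tfive_tau hα z).1 ((tfive_mul_tor hα _ q).1 (mul_mem_LG α h)))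
      · intro h
        exact h1 ((tfive_mul_tor hα z q).1 (mul_mem_LG α h))

theorem tfive_coe_ne (hα : IsOdd α) : (α : ℂ) ≠ 0 := by
  rw [Ne, GaussianInt.toComplex_eq_zero]
  exact hα.ne_zero

theorem tfive_mero_G (z : ℂ) : MeromorphicAt (fun z => XG ((α : ℂ) * z)) z :=
  (XG_meromorphic _).comp_analyticAt (by fun_prop)

theorem tfive_order_G (hα : IsOdd α) (z : ℂ) : meromorphicOrderAt (fun z => XG ((α : ℂ) * z)) z =
    ((if (α : ℂ) * z ∈ LG.lattice then -2 else if (α : ℂ) * z - tau ∈ LG.lattice then 2 else 0 : ℤ) :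
      WithTop ℤ) := by
  have h : meromorphicOrderAt (XG ∘ fun z => (α : ℂ) * z) z = meromorphicOrderAt XG ((α : ℂ) * z) := by
    apply meromorphicOrderAt_comp_of_deriv_ne_zero
    · fun_prop
    · simp [tfive_coe_ne hα]
  rw [tfive_order] at h
  exact h

theorem tfive_mero_F [Fintype (GaussianInt ⧸ Ideal.span {α})] (z : ℂ) :
    MeromorphicAt (fun z => ∏ q : GaussianInt ⧸ Ideal.span {α}, XG (z + tor α q)) z := by
  refine MeromorphicAt.fun_prod fun q _ => ?_
  exact (XG_meromorphic _).comp_analyticAt (by fun_prop)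

theorem tfive_order_F (hα : IsOdd α) [Fintype (GaussianInt ⧸ Ideal.span {α})] (z : ℂ) :
    meromorphicOrderAt (fun z => ∏ q : GaussianInt ⧸ Ideal.span {α}, XG (z + tor α q)) z =
    ((if (α : ℂ) * z ∈ LG.lattice then -2 else if (α : ℂ) * z - tau ∈ LG.lattice then 2 else 0 : ℤ) :
      WithTop ℤ) := by
  have h0 : ∀ q ∈ (Finset.univ : Finset (GaussianInt ⧸ Ideal.span {α})),
      MeromorphicAt ((fun (q : GaussianInt ⧸ Ideal.span {α}) (z : ℂ) => XG (z + tor α q)) q) z :=
    fun q _ => (XG_meromorphic _).comp_analyticAt (by fun_prop)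
  rw [meromorphicOrderAt_fun_prod h0, ← tfive_sum hα z]
  push_cast
  refine Finset.sum_congr rfl fun q _ => ?_
  have h : meromorphicOrderAt (XG ∘ (· + tor α q)) z = meromorphicOrderAt XG (z + tor α q) :=
    meromorphicOrderAt_comp_add_const_eq_meromorphicOrderAt
  rw [tfive_order] at h
  have h2 : (fun z => XG (z + tor α q)) = XG ∘ (· + tor α q) := rfl
  rw [h2, h]

theorem tfive_eventually {P : ℂ → Prop} (h : ∀ᶠ z in codiscrete ℂ, P z) (z : ℂ) :
    ∀ᶠ y in 𝓝[≠] z, P y := by
  have h1 : {y | P y} ∈ codiscrete ℂ := h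
  rw [mem_codiscrete] at h1
  have h2 := h1 z
  rw [disjoint_principal_right, compl_compl] at h2
  exact h2

/-- the two functions are proportional -/
theorem tfive_const (hα : IsOdd α) [Fintype (GaussianInt ⧸ Ideal.span {α})] : ∃ c : ℂ,
    ∀ z : ℂ, ∀ᶠ y in 𝓝[≠] z, ∏ q : GaussianInt ⧸ Ideal.span {α}, XG (y + tor α q) =
      c * XG (α * y) := by
  obtain ⟨c, hc⟩ := liouville LG
    (F := fun z => (∏ q : GaussianInt ⧸ Ideal.span {α}, XG (z + tor α q)) / XG ((α : ℂ) * z))
    (fun z => (tfive_mero_F z).fun_div (tfive_mero_G z))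
    (fun z => by
      rw [fun_meromorphicOrderAt_div (tfive_mero_F z) (tfive_mero_G z), tfive_order_F hα,
        tfive_order_G hα, ← WithTop.LinearOrderedAddCommGroup.coe_sub, sub_self]
      exact le_rfl)
    (fun l hl => by
      refine Eventually.of_forall fun z => ?_
      have h1 : ∀ q : GaussianInt ⧸ Ideal.span {α}, XG (z + l + tor α q) = XG (z + tor α q) := by
        intro q
        rw [show z + l + tor α q = z + tor α q + l by ring, XG_add_coe _ hl]
      simp only [h1]
      rw [mul_add, XG_add_coe _ (mul_mem_LG α hl)])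
  refine ⟨c, fun z => ?_⟩
  have h2 : meromorphicOrderAt (fun z => XG ((α : ℂ) * z)) z ≠ ⊤ := by
    rw [tfive_order_G hα]
    exact WithTop.coe_ne_top
  have h3 := (meromorphicOrderAt_ne_top_iff_eventually_ne_zero (tfive_mero_G z)).1 h2
  filter_upwards [tfive_eventually hc z, h3] with y h4 h5
  rw [← h4, div_mul_cancel₀ _ h5]

theorem tfive_cont {z : ℂ} (hz : z ∉ LG.lattice) : ContinuousAt XG z :=
  ((XG_diff z hz).differentiableAt (LG.isClosed_lattice.isOpen_compl.mem_nhds hz)).continuousAt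

theorem T5 {α : GaussianInt} (hα : IsOdd α) : ∃ ε : ℂ, ε ^ 2 = 1 ∧
    (∀ z : ℂ, α * z ∉ LG.lattice →
      ∏ᶠ q : GaussianInt ⧸ Ideal.span {α}, XG (z + tor α q) = ε * XG (α * z)) ∧
    ∏ᶠ (q : GaussianInt ⧸ Ideal.span {α}) (_ : q ≠ 0), XG (tor α q) = ε / α ^ 2 := by
  have := finite_quot hα.ne_zero
  have := Fintype.ofFinite (GaussianInt ⧸ Ideal.span {α})
  have hα0 := tfive_coe_ne hα
  obtain ⟨c, hc⟩ := tfive_const hα
  -- everywhere
  have hall : ∀ z : ℂ, α * z ∉ LG.lattice →
      ∏ q : GaussianInt ⧸ Ideal.span {α}, XG (z + tor α q) = c * XG (α * z) := by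
    intro z hz
    have h1 : Tendsto (fun y => ∏ q : GaussianInt ⧸ Ideal.span {α}, XG (y + tor α q)) (𝓝[≠] z)
        (𝓝 (∏ q : GaussianInt ⧸ Ideal.span {α}, XG (z + tor α q))) := by
      refine Tendsto.mono_left ?_ nhdsWithin_le_nhds
      refine tendsto_finsetProd _ fun q _ => ?_
      have h2 : z + tor α q ∉ LG.lattice := fun h =>
        hz ((tfive_mul_tor hα z q).1 (mul_mem_LG α h))
      have h3 : ContinuousAt (fun y => XG (y + tor α q)) z :=
        ContinuousAt.comp (f := fun y => y + tor α q) (tfive_cont h2) (by fun_prop)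
      exact h3
    have h4 : Tendsto (fun y => c * XG (α * y)) (𝓝[≠] z) (𝓝 (c * XG (α * z))) := by
      refine Tendsto.mono_left ?_ nhdsWithin_le_nhds
      have h3 : ContinuousAt (fun y => XG (α * y)) z :=
        ContinuousAt.comp (f := fun y => (α : ℂ) * y) (tfive_cont hz) (by fun_prop)
      exact h3.const_mul c
    exact tendsto_nhds_unique (h1.congr' (hc z)) h4
  refine ⟨c, ?_, ?_, ?_⟩
  · -- `c² = 1`
    obtain ⟨z, hz⟩ : ∃ z : ℂ, (α : ℂ) * z = 1 / 2 := ⟨(1 / 2) / α, mul_div_cancel₀ _ hα0⟩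
    have hz1 : (α : ℂ) * z ∉ LG.lattice := hz ▸ tfive_notMem_half
    have hz2 : (α : ℂ) * (z + tau) ∉ LG.lattice := by
      intro h
      have h1 := LG.lattice.sub_mem h (odd_mul_tau hα)
      rw [mul_add, hz, show (1 / 2 + (α : ℂ) * tau - ((α : ℂ) * tau - tau)) = 1 / 2 + tau by ring] at h1
      exact tfive_notMem_half_tau h1
    have e1 := hall z hz1
    have e2 := hall (z + tau) hz2
    have e3 : XG (α * (z + tau)) = XG (α * z + tau) := by
      rw [show (α : ℂ) * (z + tau) = (α * z + tau) + (α * tau - tau) by ring,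
        XG_add_coe _ (odd_mul_tau hα)]
    have hz3 : (α : ℂ) * z + tau ∉ LG.lattice := by
      rw [hz]
      exact tfive_notMem_half_tau
    have e4 : XG (α * (z + tau)) * XG (α * z) = -1 := by
      rw [e3]
      exact XG_add_tau hz1 hz3
    have e5 : (∏ q : GaussianInt ⧸ Ideal.span {α}, XG (z + tau + tor α q)) *
        ∏ q : GaussianInt ⧸ Ideal.span {α}, XG (z + tor α q) = -1 := by
      rw [← Finset.prod_mul_distrib]
      have h6 : ∀ q ∈ (Finset.univ : Finset (GaussianInt ⧸ Ideal.span {α})),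
          XG (z + tau + tor α q) * XG (z + tor α q) = -1 := by
        intro q _
        rw [show z + tau + tor α q = z + tor α q + tau by ring]
        refine XG_add_tau (fun h => hz1 ((tfive_mul_tor hα z q).1 (mul_mem_LG α h))) fun h => ?_
        rw [show z + tor α q + tau = z + tau + tor α q by ring] at h
        exact hz2 ((tfive_mul_tor hα _ q).1 (mul_mem_LG α h))
      rw [Finset.prod_congr rfl h6, Finset.prod_const, Finset.card_univ, ← Nat.card_eq_fintype_card,
        card_quot hα.ne_zero]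
      exact Odd.neg_one_pow hα
    rw [e1, e2] at e5
    have e6 : c ^ 2 * (XG (α * (z + tau)) * XG (α * z)) = -1 := by
      rw [← e5]
      ring
    rw [e4] at e6
    linear_combination -e6
  · intro z hz
    rw [finprod_eq_prod_of_fintype]
    exact hall z hz
  · rw [finprod_cond_eq_prod_of_cond_iff (t := Finset.univ.erase 0) _ (fun _ => by simp)]
    obtain ⟨hX, he⟩ := XG_tendsto
    -- the value near `0`
    have hne : ∀ᶠ y in 𝓝[≠] (0 : ℂ), y ≠ 0 := self_mem_nhdsWithin
    have h1 : Tendsto (fun y : ℂ => y ^ 2 * ∏ q : GaussianInt ⧸ Ideal.span {α}, XG (y + tor α q))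
        (𝓝[≠] 0) (𝓝 ((℘[LG] (1 / 2))⁻¹ *
          ∏ q ∈ Finset.univ.erase (0 : GaussianInt ⧸ Ideal.span {α}), XG (tor α q))) := by
      have h2 : ∀ y : ℂ, y ^ 2 * ∏ q : GaussianInt ⧸ Ideal.span {α}, XG (y + tor α q) =
          (y ^ 2 * XG y) *
            ∏ q ∈ Finset.univ.erase (0 : GaussianInt ⧸ Ideal.span {α}), XG (y + tor α q) := by
        intro y
        rw [← Finset.mul_prod_erase _ _ (Finset.mem_univ (0 : GaussianInt ⧸ Ideal.span {α})),
          XG_add_coe _ ((tor_mem_iff hα.ne_zero 0).2 rfl)]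
        ring
      simp only [h2]
      refine hX.mul (Tendsto.mono_left ?_ nhdsWithin_le_nhds)
      refine tendsto_finsetProd _ fun q hq => ?_
      have h3 : tor α q ∉ LG.lattice := fun h =>
        (Finset.ne_of_mem_erase hq) ((tor_mem_iff hα.ne_zero q).1 h)
      have h4 : ContinuousAt (fun y => XG (y + tor α q)) 0 :=
        ContinuousAt.comp (g := XG) (f := fun y => y + tor α q) (x := 0)
          (by simp only [zero_add]; exact tfive_cont h3) (by fun_prop)
      have h5 := h4.tendsto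
      simp only [zero_add] at h5
      exact h5
    have h6 : Tendsto (fun y : ℂ => y ^ 2 * (c * XG (α * y))) (𝓝[≠] 0)
        (𝓝 (c / α ^ 2 * (℘[LG] (1 / 2))⁻¹)) := by
      have h7 : Tendsto (fun y : ℂ => (α : ℂ) * y) (𝓝[≠] 0) (𝓝[≠] 0) := by
        refine tendsto_nhdsWithin_iff.2 ⟨?_, ?_⟩
        · have : Tendsto (fun y : ℂ => (α : ℂ) * y) (𝓝 0) (𝓝 ((α : ℂ) * 0)) :=
            (continuous_const.mul continuous_id).tendsto 0
          rw [mul_zero] at this
          exact this.mono_left nhdsWithin_le_nhds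
        · filter_upwards [self_mem_nhdsWithin] with y hy
          exact mul_ne_zero hα0 hy
      have h8 := (hX.comp h7).const_mul (c / (α : ℂ) ^ 2)
      refine h8.congr fun y => ?_
      simp only [Function.comp]
      field_simp
    have h9 := tendsto_nhds_unique (h1.congr' ((hc 0).mono fun y hy => by rw [hy])) h6
    have h10 : (℘[LG] (1 / 2))⁻¹ ≠ 0 := inv_ne_zero he
    rw [mul_comm] at h9
    exact mul_right_cancel₀ h10 h9

end

end Pool.Agent.CMG
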