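import Pool.Agent.CMG.KConst
import Pool.Agent.CMG.KDistr
import Pool.Agent.CMG.PsiDistr
import Pool.Agent.CMG.TFive

/-!
# Kronecker limit formula for PsiG

`d` from `kron_const`; choose `z₀` with `α(1+i)z₀ ∉ L` and add the formula at `z₀` and `z₀ + τ`, subtract
the one at `(1+i)z₀`. By `BB_distr` at `z₀` and at `αz₀` (`α(z₀+τ) ≡ αz₀ + τ`, `odd_mul_tau`,
`BB_periodic`) the `BB` terms cancel, and `PsiG_distr` gives `d = 0`.
-/

set_option autoImplicit false

noncomputable section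

open Complex Filter Topology
open scoped PeriodPair Classical


namespace Pool.Agent.CMG

private theorem kronG_coe (m n : ℤ) : ((⟨m, n⟩ : GaussianInt) : ℂ) = m + n * I := by
  rw [GaussianInt.toComplex_def]

theorem PP_one_ne_zero {z : ℂ} (hz : z ∉ LG.lattice) : PP 1 z ≠ 0 := by
  intro h
  obtain ⟨m, n, hmn⟩ := (PP_eq_zero_iff one_pos z).1 h
  refine hz (mem_LG.2 ⟨⟨m, n⟩, ?_⟩)
  rw [kronG_coe, hmn]
  push_cast
  ring

theorem BB_add_coe {z l : ℂ} (hz : z ∉ LG.lattice) (hl : l ∈ LG.lattice) :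
    BB 1 (z + l) = BB 1 z := by
  obtain ⟨a, ha⟩ := mem_LG.1 hl
  have h := BB_periodic one_pos (PP_one_ne_zero hz) a.re a.im
  rw [← h]
  congr 1
  rw [← ha, GaussianInt.toComplex_def]
  push_cast
  ring

theorem kronG {α : GaussianInt} (hα : IsOdd α) {z : ℂ} (hz : α * z ∉ LG.lattice) :
    nG α * BB 1 z - BB 1 (α * z) = - 2 * Real.log ‖PsiG α z‖ := by
  obtain ⟨d, hd⟩ := kron_const hα
  have hα0 : (α : ℂ) ≠ 0 := by
    intro h
    exact hα.ne_zero (by rwa [GaussianInt.toComplex_eq_zero] at h)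
  have hI : (1 + I : ℂ) ≠ 0 := by
    intro h
    have := congrArg Complex.re h
    simp at this
  have hmulI : ∀ {w : ℂ}, w ∈ LG.lattice → (1 + I) * w ∈ LG.lattice := by
    intro w hw
    have := mul_mem_LG (⟨1, 1⟩ : GaussianInt) hw
    rwa [kronG_coe, Int.cast_one, one_mul] at this
  have hhalf : (1 / 2 : ℂ) ∉ LG.lattice := LG.ω₁_div_two_notMem_lattice
  set z₀ : ℂ := 1 / 2 / (α * (1 + I)) with hz₀
  have e0 : α * (1 + I) * z₀ = 1 / 2 := by
    rw [hz₀]
    field_simp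
  have e1 : (1 + I) * (α * z₀) = 1 / 2 := by rw [← e0]; ring
  have e2 : α * ((1 + I) * z₀) = 1 / 2 := by rw [← e0]; ring
  have n0 : α * z₀ ∉ LG.lattice := fun h => hhalf (e1 ▸ hmulI h)
  have n1 : α * ((1 + I) * z₀) ∉ LG.lattice := by rwa [e2]
  have n2 : (1 + I) * z₀ ∉ LG.lattice := fun h => n1 (mul_mem_LG α h)
  obtain ⟨-, htau⟩ := tau_notMem
  have n3 : α * (z₀ + tau) ∉ LG.lattice := by
    intro h
    have h1 := hmulI h
    have h2 : (1 + I) * (α * (z₀ + tau)) = 1 / 2 + α * I := by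
      linear_combination e1 + (α : ℂ) * htau
    rw [h2] at h1
    have h3 : (α : ℂ) * I ∈ LG.lattice := mul_mem_LG α (LG.ω₂_mem_lattice)
    exact hhalf (by simpa using sub_mem h1 h3)
  have n4 : α * z₀ + tau ∉ LG.lattice := by
    intro h
    refine n3 ?_
    have := add_mem h (odd_mul_tau hα)
    convert this using 1
    ring
  have E1 := hd z₀ n0
  have E2 := hd (z₀ + tau) n3
  have E3 := hd ((1 + I) * z₀) n1
  have D1 := BB_distr n2
  have D2 := BB_distr (z := α * z₀) (by rwa [e1])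
  have P1 : BB 1 (α * (z₀ + tau)) = BB 1 (α * z₀ + tau) := by
    rw [← BB_add_coe n4 (odd_mul_tau hα)]
    congr 1
    ring
  have P2 : α * ((1 + I) * z₀) = (1 + I) * (α * z₀) := by ring
  obtain ⟨ε, hε, -, hε'⟩ := T5 hα
  have H := PsiG_distr hα ⟨ε, hε, hε'⟩ (z := z₀) (by rwa [e0])
  rw [norm_mul] at H
  have H' := congrArg Real.log H
  rw [Real.log_mul (norm_ne_zero_iff.2 (PsiG_ne_zero hα n0))
    (norm_ne_zero_iff.2 (PsiG_ne_zero hα n3))] at H'
  rw [P1] at E2
  rw [P2] at E3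
  have hd0 : d = 0 := by
    linear_combination (nG α : ℝ) * D1 - D2 + 2 * H' - E1 - E2 + E3
  have := hd z hz
  rw [hd0] at this
  linarith

end Pool.Agent.CMG
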