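import Pool.Agent.CMG.PsiOrd

/-!
# symmetry relation for PsiG

Both sides are `L`-periodic with the same orders: at `z ∈ L`: `Nβ (Nα - 1) + (Nβ - 1) = NαNβ - 1`;
in general the order is `NαNβ [z ∈ L] - [αβz ∈ L]` (check the cases `z ∈ L`; `αz ∈ L`, `z ∉ L`;
`βz ∈ L`, `z ∉ L`; `αβz ∈ L`; else). So the quotient is a constant (`liouville`), and it is `1` by
`PsiG_tendsto`: both leading coefficients are `(2e₁)^{(NαNβ-1)/2} / (αβ)`
(left: `α^{-Nβ} β^{-1} α^{Nβ-1}`). Equality at every `z` with `αβz ∉ L` by continuity.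
-/

set_option autoImplicit false

noncomputable section

open Complex Filter Topology
open scoped PeriodPair Classical


namespace Pool.Agent.CMG

private lemma ps_ne_zero {α : GaussianInt} (hα : IsOdd α) : (α : ℂ) ≠ 0 := by
  intro h
  have h1 : α = 0 := GaussianInt.toComplex_eq_zero.1 h
  rw [h1] at hα
  unfold IsOdd nG at hα
  simp at hα

private lemma ps_nG_pos {α : GaussianInt} (hα : IsOdd α) : 1 ≤ nG α := by
  unfold IsOdd at hα
  exact hα.pos

private lemma ps_ord_eq {α β : GaussianInt} (hα : IsOdd α) (hβ : IsOdd β) (z : ℂ) :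
    meromorphicOrderAt (fun z => PsiG α z ^ nG β * PsiG β (α * z)) z =
    (((if z ∈ LG.lattice then (nG α * nG β : ℤ) - 1 else
      if α * β * z ∈ LG.lattice then -1 else 0 : ℤ)) : WithTop ℤ) := by
  have ha := ps_ne_zero hα
  have h1 : MeromorphicAt (PsiG α ^ nG β) z := (PsiG_meromorphic α z).pow _
  have hg : AnalyticAt ℂ (fun z : ℂ => (α : ℂ) * z) z := by fun_prop
  have hg' : deriv (fun z : ℂ => (α : ℂ) * z) z ≠ 0 := by
    have : HasDerivAt (fun z : ℂ => (α : ℂ) * z) (α : ℂ) z := by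
      simpa using (hasDerivAt_id z).const_mul (α : ℂ)
    rw [this.deriv]
    exact ha
  have h2 : MeromorphicAt (fun z => PsiG β (α * z)) z :=
    (PsiG_meromorphic β (α * z)).comp_analyticAt hg
  have h3 : meromorphicOrderAt (fun z => PsiG β (α * z)) z =
      meromorphicOrderAt (PsiG β) (α * z) :=
    meromorphicOrderAt_comp_of_deriv_ne_zero (f := PsiG β) hg hg'
  have h4 : meromorphicOrderAt (fun z => PsiG α z ^ nG β * PsiG β (α * z)) z =
      (nG β : WithTop ℤ) * meromorphicOrderAt (PsiG α) z + meromorphicOrderAt (PsiG β) (α * z) := by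
    rw [← h3, ← meromorphicOrderAt_pow (PsiG_meromorphic α z)]
    exact meromorphicOrderAt_mul h1 h2
  rw [h4, PsiG_order hα, PsiG_order hβ]
  have h5 : ∀ x y : ℤ, ((nG β : ℕ) : WithTop ℤ) * ((x : ℤ) : WithTop ℤ) + ((y : ℤ) : WithTop ℤ) =
      ((nG β * x + y : ℤ) : WithTop ℤ) := by
    intro x y
    push_cast
    rfl
  rw [h5]
  congr 1
  have e1 : (β : ℂ) * (α * z) = α * β * z := by ring
  by_cases hz : z ∈ LG.lattice
  · have haz : (α : ℂ) * z ∈ LG.lattice := mul_mem_LG α hz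
    rw [if_pos hz, if_pos haz, if_pos hz]
    ring
  · rw [if_neg hz, if_neg hz, e1]
    by_cases haz : (α : ℂ) * z ∈ LG.lattice
    · have habz : (α : ℂ) * β * z ∈ LG.lattice := by
        rw [← e1]
        exact mul_mem_LG β haz
      rw [if_pos haz, if_pos haz, if_pos habz]
      ring
    · rw [if_neg haz, if_neg haz]
      ring

private lemma ps_tendsto {α β : GaussianInt} (hα : IsOdd α) (hβ : IsOdd β) :
    Tendsto (fun z : ℂ => PsiG α z ^ nG β * PsiG β (α * z) / z ^ (nG α * nG β - 1)) (𝓝[≠] 0)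
      (𝓝 ((2 * ℘[LG] (1 / 2)) ^ ((nG α * nG β - 1) / 2) / (α * β))) := by
  have ha := ps_ne_zero hα
  have hb := ps_ne_zero hβ
  obtain ⟨m, hm⟩ := hα
  obtain ⟨n, hn⟩ := hβ
  have hα : IsOdd α := ⟨m, hm⟩
  have hβ : IsOdd β := ⟨n, hn⟩
  have h1 := (PsiG_tendsto hα).pow (nG β)
  have hmul : Tendsto (fun z : ℂ => (α : ℂ) * z) (𝓝[≠] 0) (𝓝[≠] 0) := by
    rw [tendsto_nhdsWithin_iff]
    constructor
    · have : Tendsto (fun z : ℂ => (α : ℂ) * z) (𝓝 0) (𝓝 ((α : ℂ) * 0)) :=
        (continuous_const.mul continuous_id).tendsto 0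
      rw [mul_zero] at this
      exact this.mono_left nhdsWithin_le_nhds
    · filter_upwards [self_mem_nhdsWithin] with z hz
      exact mul_ne_zero ha hz
  have h2 := ((PsiG_tendsto hβ).comp hmul).mul_const ((α : ℂ) ^ (nG β - 1))
  have h3 := h1.mul h2
  have e1 : ((2 * ℘[LG] (1 / 2)) ^ ((nG α - 1) / 2) / (α : ℂ)) ^ nG β *
      ((2 * ℘[LG] (1 / 2)) ^ ((nG β - 1) / 2) / (β : ℂ) * (α : ℂ) ^ (nG β - 1)) =
      (2 * ℘[LG] (1 / 2)) ^ ((nG α * nG β - 1) / 2) / (α * β) := by
    have f1 : (nG α - 1) / 2 = m := by omega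
    have f2 : (nG β - 1) / 2 = n := by omega
    have f3 : (nG α * nG β - 1) / 2 = m * nG β + n := by
      rw [hm, hn]
      have : (2 * m + 1) * (2 * n + 1) - 1 = 2 * (m * (2 * n + 1) + n) := by
        have : (2 * m + 1) * (2 * n + 1) = 2 * (m * (2 * n + 1) + n) + 1 := by ring
        omega
      rw [this]
      omega
    have f4 : (α : ℂ) ^ nG β = (α : ℂ) ^ (nG β - 1) * α := by
      rw [← pow_succ]
      congr 1
      omega
    rw [f1, f2, f3, pow_add, pow_mul, div_pow, f4]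
    field_simp
  rw [e1] at h3
  refine h3.congr' ?_
  filter_upwards [self_mem_nhdsWithin] with z hz
  have hz0 : z ≠ 0 := hz
  have f5 : nG α * nG β - 1 = (nG α - 1) * nG β + (nG β - 1) := by
    have h6 : nG α * nG β = (nG α - 1) * nG β + nG β := by
      have : nG α = (nG α - 1) + 1 := by omega
      conv_lhs => rw [this, add_mul, one_mul]
    omega
  simp only [Function.comp]
  rw [f5, pow_add, pow_mul, div_pow, mul_pow]
  field_simp

theorem PsiG_symm {α β : GaussianInt} (hα : IsOdd α) (hβ : IsOdd β) {z : ℂ}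
    (hz : α * β * z ∉ LG.lattice) :
    PsiG α z ^ nG β * PsiG β (α * z) = PsiG β z ^ nG α * PsiG α (β * z) := by
  set Nu : ℂ → ℂ := fun z => PsiG α z ^ nG β * PsiG β (α * z) with hNu
  set De : ℂ → ℂ := fun z => PsiG β z ^ nG α * PsiG α (β * z) with hDe
  have hmer : ∀ (γ δ : GaussianInt) (z : ℂ),
      MeromorphicAt (fun z => PsiG γ z ^ nG δ * PsiG δ (γ * z)) z := by
    intro γ δ z
    refine ((PsiG_meromorphic γ z).pow _).mul ?_
    exact (PsiG_meromorphic δ (γ * z)).comp_analyticAt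
      (show AnalyticAt ℂ (fun z : ℂ => (γ : ℂ) * z) z by fun_prop)
  have hNm : ∀ z, MeromorphicAt Nu z := hmer α β
  have hDm : ∀ z, MeromorphicAt De z := hmer β α
  have hord : ∀ z, meromorphicOrderAt Nu z = meromorphicOrderAt De z := by
    intro z
    rw [hNu, hDe, ps_ord_eq hα hβ, ps_ord_eq hβ hα, mul_comm (nG β : ℤ), mul_comm (β : ℂ)]
  have hordne : ∀ z, meromorphicOrderAt De z ≠ ⊤ := by
    intro z
    rw [hDe, ps_ord_eq hβ hα]
    exact WithTop.coe_ne_top
  have hord0 : ∀ z, meromorphicOrderAt (fun z => Nu z / De z) z = 0 := by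
    intro z
    have h1 : meromorphicOrderAt (fun z => Nu z / De z) z =
        meromorphicOrderAt Nu z - meromorphicOrderAt De z := by
      exact meromorphicOrderAt_div (hNm z) (hDm z)
    rw [h1, hord z]
    exact LinearOrderedAddCommGroupWithTop.sub_self_eq_zero_of_ne_top (hordne z)
  -- periodicity
  have hperg : ∀ (γ δ : GaussianInt) (z l : ℂ), l ∈ LG.lattice →
      PsiG γ (z + l) ^ nG δ * PsiG δ (γ * (z + l)) = PsiG γ z ^ nG δ * PsiG δ (γ * z) := by
    intro γ δ z l hl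
    rw [PsiG_add_coe γ z hl, mul_add, PsiG_add_coe δ _ (mul_mem_LG γ hl)]
  obtain ⟨c, hc⟩ := liouville LG (F := fun z => Nu z / De z) (fun z => (hNm z).div (hDm z))
    (fun z => (hord0 z).ge) (fun l hl => Eventually.of_forall fun z => by
      simp only [hNu, hDe]
      rw [hperg α β z l hl, hperg β α z l hl])
  have hcz : ∀ x : ℂ, ∀ᶠ z in 𝓝[≠] x, Nu z / De z = c := by
    intro x
    have h1 := mem_codiscreteWithin.1 hc x (Set.mem_univ x)
    rw [disjoint_principal_right] at h1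
    filter_upwards [h1] with w hw
    by_contra h2
    exact hw ⟨Set.mem_univ _, h2⟩
  -- the constant is `1`
  have hc1 : c = 1 := by
    have h1 := ps_tendsto hα hβ
    have h2 := ps_tendsto hβ hα
    have hP : (2 * ℘[LG] (1 / 2)) ^ ((nG α * nG β - 1) / 2) / ((α : ℂ) * β) ≠ 0 :=
      div_ne_zero (pow_ne_zero _ (mul_ne_zero two_ne_zero XG_tendsto.2))
        (mul_ne_zero (ps_ne_zero hα) (ps_ne_zero hβ))
    rw [mul_comm (nG β), mul_comm (β : ℂ)] at h2
    have h3 := h1.div h2 hP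
    rw [div_self hP] at h3
    have h4 : ∀ᶠ z in 𝓝[≠] (0 : ℂ), (PsiG α z ^ nG β * PsiG β (α * z) / z ^ (nG α * nG β - 1)) /
        (PsiG β z ^ nG α * PsiG α (β * z) / z ^ (nG α * nG β - 1)) = c := by
      filter_upwards [hcz 0, self_mem_nhdsWithin] with w hw hw0
      have hw0' : w ^ (nG α * nG β - 1) ≠ 0 := pow_ne_zero _ hw0
      rw [div_div_div_cancel_right₀ hw0']
      exact hw
    exact tendsto_nhds_unique (tendsto_const_nhds.congr' (h4.mono fun _ h => h.symm)) h3
  -- continuity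
  have hcont : ∀ (γ δ : GaussianInt), IsOdd γ → IsOdd δ → (γ : ℂ) * δ * z ∉ LG.lattice →
      ContinuousAt (fun z => PsiG γ z ^ nG δ * PsiG δ (γ * z)) z := by
    intro γ δ hγ hδ h
    have h1 : (γ : ℂ) * z ∉ LG.lattice := by
      intro h2
      apply h
      have := mul_mem_LG δ h2
      rwa [show (δ : ℂ) * (γ * z) = γ * δ * z by ring] at this
    have h2 : (δ : ℂ) * (γ * z) ∉ LG.lattice := by
      rwa [show (δ : ℂ) * (γ * z) = γ * δ * z by ring]
    refine ((PsiG_analytic hγ h1).continuousAt.pow _).mul ?_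
    have h3 : ContinuousAt (fun z : ℂ => (γ : ℂ) * z) z := by fun_prop
    exact ContinuousAt.comp (f := fun z : ℂ => (γ : ℂ) * z) (PsiG_analytic hδ h2).continuousAt h3
  have hN := hcont α β hα hβ hz
  have hD := hcont β α hβ hα (by rwa [mul_comm (β : ℂ)])
  have hev : ∀ᶠ w in 𝓝[≠] z, Nu w = De w := by
    filter_upwards [hcz z] with w hw
    rw [hc1] at hw
    have hne : De w ≠ 0 := by
      intro h0
      rw [h0, div_zero] at hw
      exact zero_ne_one hw
    rwa [div_eq_one_iff_eq hne] at hw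
  have h1 : Tendsto Nu (𝓝[≠] z) (𝓝 (Nu z)) := hN.tendsto.mono_left nhdsWithin_le_nhds
  have h2 : Tendsto De (𝓝[≠] z) (𝓝 (De z)) := hD.tendsto.mono_left nhdsWithin_le_nhds
  exact tendsto_nhds_unique (h1.congr' hev) h2

end Pool.Agent.CMG
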