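import Pool.Agent.CMG.Interface

/-!
# S8: norms, units, uniqueness of the continuation

S8: `k` is imaginary quadratic (`finrank_eq`, `isComplex`), the embeddings of `k` are
`φ = algebraMap k ℂ` and its conjugate; the norm is `φ(α) conj φ(α)` (`Algebra.norm_eq_prod_embeddings`,
`Ideal.absNorm_span_singleton`). S8': unit rank `0` (`NumberField.Units.rank`), torsion finite.
`eqOn`: identity theorem (the complement of a point is connected).
-/

set_option autoImplicit false

noncomputable section

open NumberField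

namespace Pool.Agent.CMG

private theorem smisc_card {k : Type} [Field k] [NumberField k]
    (hk : Module.finrank ℚ k = 2) (hc : IsTotallyComplex k) :
    Fintype.card (InfinitePlace k) = 1 := by
  have h1 := InfinitePlace.card_add_two_mul_card_eq_rank k
  have h2 := IsTotallyComplex.nrRealPlaces_eq_zero k
  rw [InfinitePlace.card_eq_nrRealPlaces_add_nrComplexPlaces k]
  omega

/-- S8 -/
theorem nrm_eq_of {k : Type} [Field k] [NumberField k] [Algebra k ℂ]
    (hk : Module.finrank ℚ k = 2) (hc : IsTotallyComplex k) (α : 𝓞 k) :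
    (nrm α : ℝ) = ‖algebraMap k ℂ (α : k)‖ ^ 2 := by
  have h1 := smisc_card hk hc
  obtain ⟨w₀, hw₀⟩ := Fintype.card_eq_one_iff.1 h1
  have h2 := InfinitePlace.prod_eq_abs_norm (K := k) (α : k)
  have h3 : ∏ w : InfinitePlace k, w (α : k) ^ w.mult = ‖algebraMap k ℂ (α : k)‖ ^ 2 := by
    have h4 : (Finset.univ : Finset (InfinitePlace k)) = {w₀} := by
      ext w
      simp [hw₀ w]
    rw [h4, Finset.prod_singleton, IsTotallyComplex.mult_eq,
      ← hw₀ (InfinitePlace.mk (algebraMap k ℂ)), InfinitePlace.apply]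
  rw [← h3, h2, nrm, Ideal.absNorm_span_singleton, ← Algebra.coe_norm_int, Nat.cast_natAbs]
  push_cast
  simp

theorem nrm_eq {k : Type} [Field k] [NumberField k] [Algebra k ℂ] (D : EllData k) (α : 𝓞 k) :
    (nrm α : ℝ) = ‖algebraMap k ℂ (α : k)‖ ^ 2 :=
  nrm_eq_of D.finrank_eq D.isComplex α

/-- S8' -/
theorem finite_units {k : Type} [Field k] [NumberField k] [Algebra k ℂ] (D : EllData k) :
    Finite (𝓞 k)ˣ := by
  have h1 := smisc_card D.finrank_eq D.isComplex
  have h2 : NumberField.Units.rank k = 0 := by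
    rw [NumberField.Units.rank, h1]
  have h3 : Function.Surjective (fun ζ : NumberField.Units.torsion k => (ζ : (𝓞 k)ˣ)) := by
    intro x
    obtain ⟨⟨ζ, e⟩, h, _⟩ := NumberField.Units.exist_unique_eq_mul_prod k x
    refine ⟨ζ, ?_⟩
    have h4 : IsEmpty (Fin (NumberField.Units.rank k)) := by
      rw [h2]
      infer_instance
    rw [h]
    simp
  exact Finite.of_surjective _ h3

/-- continuations are unique -/
theorem IsEpstein.eqOn {k : Type} [Field k] [NumberField k] [Algebra k ℂ] {z : ℂ} {Z Z' : ℂ → ℂ}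
    (h : IsEpstein k z Z) (h' : IsEpstein k z Z') : Set.EqOn Z Z' {1}ᶜ := by
  have ho : IsOpen ({1}ᶜ : Set ℂ) := isOpen_compl_singleton
  have h2 : (2 : ℂ) ∈ ({1}ᶜ : Set ℂ) := by
    simp
  refine (h.diff.analyticOnNhd ho).eqOn_of_preconnected_of_eventuallyEq
    (h'.diff.analyticOnNhd ho) ?_ h2 ?_
  · have : 1 < Module.rank ℝ ℂ := by
      rw [Complex.rank_real_complex]
      norm_num
    exact (isConnected_compl_singleton_of_one_lt_rank this 1).isPreconnected
  · have h3 : {s : ℂ | 1 < s.re} ∈ nhds (2 : ℂ) :=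
      (isOpen_lt continuous_const Complex.continuous_re).mem_nhds (by simp)
    filter_upwards [h3] with s hs
    exact (h.sum s hs).unique (h'.sum s hs)

end Pool.Agent.CMG
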