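import Pool.Agent.CMG.ValTors

/-!
# Kronecker congruence and injectivity of reduction

`frobG`: `XG (πu) = ±∏_q XG (u + tor π q)` (`T5`), every factor is congruent to `XG u` modulo the
maximal ideal (`InE_of_prime`, `XG_add_InE`) and `v(XG u) ≤ 1`; there are `nG π` factors; square.
`red_injG`: `u, w ∉ InE` by `mem_of_InE`. `hG u - hG w = (XG u - XG w)(XG u - XG (iw))`, so one factor
has `v < 1`, `InE_of_XG_sub` gives `u ± w` or `u ± iw ∈ InE`, hence in `L` by `mem_of_InE`; so
`hG u = hG w`.
-/

set_option autoImplicit false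

noncomputable section

open Complex Filter Topology
open scoped PeriodPair Classical


namespace Pool.Agent.CMG

section val

variable {V : ValuationSubring ℂ}

theorem prod_sub_pow_lt {ι : Type*} (s : Finset ι) (f : ι → ℂ) {a : ℂ}
    (ha : V.valuation a ≤ 1) (hf : ∀ i ∈ s, V.valuation (f i - a) < 1) :
    V.valuation (∏ i ∈ s, f i - a ^ s.card) < 1 := by
  induction s using Finset.induction_on with
  | empty => simp
  | insert i s hi ih =>
    have ih' := ih (fun j hj => hf j (Finset.mem_insert_of_mem hj))
    have h1 := hf i (Finset.mem_insert_self i s)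
    rw [Finset.prod_insert hi, Finset.card_insert_of_notMem hi]
    have hfi : V.valuation (f i) ≤ 1 := by
      have : f i = (f i - a) + a := by ring
      rw [this]
      exact (V.valuation.map_add _ _).trans (max_le h1.le ha)
    have hap : V.valuation (a ^ s.card) ≤ 1 := by
      rw [map_pow]
      exact pow_le_one' ha _
    have he : f i * ∏ j ∈ s, f j - a ^ (s.card + 1)
        = f i * (∏ j ∈ s, f j - a ^ s.card) + (f i - a) * a ^ s.card := by ring
    rw [he]
    refine V.valuation.map_add_lt ?_ ?_
    · rw [map_mul, mul_comm]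
      exact mul_lt_one_of_lt_of_le ih' hfi
    · rw [map_mul]
      exact mul_lt_one_of_lt_of_le h1 hap

theorem frobG {π : GaussianInt} (hπ : Prime π) (hπ' : IsOdd π) (hV : V.valuation (π : ℂ) < 1)
    {u : ℂ} (hu : ¬ InE V u) (hu' : π * u ∉ LG.lattice) :
    V.valuation (hG (π * u) - hG u ^ nG π) < 1 := by
  obtain ⟨ε, hε, hT, -⟩ := T5 hπ'
  have hX := hT u hu'
  have hfin : Finite (GaussianInt ⧸ Ideal.span {π}) := finite_quot hπ.ne_zero
  have hft : Fintype (GaussianInt ⧸ Ideal.span {π}) := Fintype.ofFinite _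
  rw [finprod_eq_prod_of_fintype] at hX
  have hXu : V.valuation (XG u) ≤ 1 := by
    by_contra hc
    exact hu (Or.inr (not_le.mp hc))
  have hcard : (Finset.univ : Finset (GaussianInt ⧸ Ideal.span {π})).card = nG π := by
    rw [← card_quot hπ.ne_zero, Finset.card_univ, Nat.card_eq_fintype_card]
  have key := prod_sub_pow_lt (V := V) (Finset.univ : Finset (GaussianInt ⧸ Ideal.span {π}))
    (fun q => XG (u + tor π q)) hXu
    (fun q _ => XG_add_InE hu (InE_of_prime hπ hπ' hV (mul_tor_mem hπ.ne_zero q)))
  rw [hcard, hX] at key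
  set A : ℂ := XG u ^ nG π with hA
  set P : ℂ := ε * XG (π * u) with hP
  have hAv : V.valuation A ≤ 1 := by
    rw [hA, map_pow]
    exact pow_le_one' hXu _
  have hPv : V.valuation P ≤ 1 := by
    have : P = (P - A) + A := by ring
    rw [this]
    exact (V.valuation.map_add _ _).trans (max_le key.le hAv)
  have he : hG (π * u) - hG u ^ nG π = (P - A) * (P + A) := by
    have h1 : P ^ 2 = hG (π * u) := by
      rw [hP, mul_pow, hε, one_mul]; rfl
    have h2 : A ^ 2 = hG u ^ nG π := by
      rw [hA, hG, ← pow_mul, ← pow_mul, mul_comm]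
    rw [← h1, ← h2]; ring
  rw [he, map_mul]
  exact mul_lt_one_of_lt_of_le key ((V.valuation.map_add _ _).trans (max_le hPv hAv))

theorem red_injG {n : GaussianInt} (hn : V.valuation (n : ℂ) = 1) (h2 : V.valuation (2 : ℂ) = 1)
    {u w : ℂ} (hu : n * u ∈ LG.lattice) (hw : n * w ∈ LG.lattice) (hu' : u ∉ LG.lattice)
    (hw' : w ∉ LG.lattice) (h : V.valuation (hG u - hG w) < 1) : hG u = hG w := by
  have hI : ∀ z : ℂ, n * z ∈ LG.lattice → n * (I * z) ∈ LG.lattice := by
    intro z hz
    have h1 := mul_mem_LG (⟨0, 1⟩ : GaussianInt) hz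
    have h2 : (((⟨0, 1⟩ : GaussianInt) : ℂ)) = I := by
      rw [GaussianInt.toComplex_def]
      simp
    rw [h2] at h1
    have : (n : ℂ) * (I * z) = I * (n * z) := by ring
    rw [this]; exact h1
  have hIw' : I * w ∉ LG.lattice := by
    intro hc
    have h1 := mul_mem_LG (⟨0, -1⟩ : GaussianInt) hc
    have h2 : (((⟨0, -1⟩ : GaussianInt) : ℂ)) = -I := by
      rw [GaussianInt.toComplex_def]
      simp
    rw [h2] at h1
    have h3 : -I * (I * w) = w := by
      have : -I * (I * w) = -(I * I) * w := by ring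
      rw [this, I_mul_I]; ring
    rw [h3] at h1
    exact hw' h1
  have hnu : ¬ InE V u := fun hc => hu' (mem_of_InE hn hu hc)
  have hnw : ¬ InE V w := fun hc => hw' (mem_of_InE hn hw hc)
  have hnIw : ¬ InE V (I * w) := fun hc => hIw' (mem_of_InE hn (hI w hw) hc)
  -- the general step
  have step : ∀ z : ℂ, n * z ∈ LG.lattice → ¬ InE V z → V.valuation (XG u - XG z) < 1 →
      XG u = XG z := by
    intro z hz hnz hv
    rcases InE_of_XG_sub h2 hnu hnz hv with h1 | h1
    · have h3 : u + z ∈ LG.lattice := by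
        refine mem_of_InE hn ?_ h1
        rw [mul_add]
        exact add_mem hu hz
      have h4 := XG_add_coe (-z) h3
      have h5 : -z + (u + z) = u := by ring
      rw [h5, XG_neg] at h4
      exact h4
    · have h3 : u - z ∈ LG.lattice := by
        refine mem_of_InE hn ?_ h1
        rw [mul_sub]
        exact sub_mem hu hz
      have h4 := XG_add_coe z h3
      have h5 : z + (u - z) = u := by ring
      rw [h5] at h4
      exact h4
  have he : hG u - hG w = (XG u - XG w) * (XG u - XG (I * w)) := by
    rw [XG_I_mul, hG, hG]; ring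
  rw [he, map_mul] at h
  have hor : V.valuation (XG u - XG w) < 1 ∨ V.valuation (XG u - XG (I * w)) < 1 := by
    by_contra hc
    push Not at hc
    exact absurd h (not_lt.mpr (one_le_mul hc.1 hc.2))
  rcases hor with h1 | h1
  · rw [hG, hG, step w hw hnw h1]
  · rw [hG, hG, step (I * w) (hI w hw) hnIw h1, XG_I_mul]; ring

end val

end Pool.Agent.CMG
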