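import Pool.Agent.CMG.HSet

/-!
# orders, zeros, leading coefficient of PsiG

`hG z - t = (XG z - XG w)(XG z + XG w) = (XG z - XG w)(XG z - XG (iw))` for `t = hG w`; orders from
`XG_order_sub` (`2w ∉ L` for `w ∈ E[α]`, `α` odd): `-4` on `L`, `1` on `εw + L` (`ε` a unit), else
`0`. Sum over `t ∈ HS α`, `4 |HS α| = N α - 1` (`HS_card`); every nonzero `z ∈ E[α]` belongs to
exactly one `t` (`hG_eq_iff`). `PsiG_tendsto`: `z⁴ (hG z - t) → 1/e₁²` (`XG_tendsto`), so
`PsiG α z / z^{Nα-1} → 2^{(Nα-1)/2} e₁^{(Nα-1)/2} / α`.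
-/

set_option autoImplicit false

noncomputable section

open Complex Filter Topology
open scoped PeriodPair Classical


namespace Pool.Agent.CMG

private theorem coe_ne_zero {α : GaussianInt} (hα : α ≠ 0) : (α : ℂ) ≠ 0 := by
  intro h
  apply hα
  exact GaussianInt.toComplex_eq_zero.1 h

private theorem PsiG_eq {α : GaussianInt} (hα : α ≠ 0) : PsiG α = fun z =>
    2 ^ ((nG α - 1) / 2) / ((α : ℂ) * ∏ t ∈ (HS_finite hα).toFinset, (hG z - t)) := by
  funext z
  unfold PsiG
  rw [finprod_mem_eq_finite_toFinset_prod _ (HS_finite hα)]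

private theorem hG_meromorphic (z : ℂ) : MeromorphicAt hG z := by
  have h : hG = XG ^ 2 := by
    funext z
    rfl
  rw [h]
  exact (XG_meromorphic z).pow 2

private theorem sub_meromorphic (t z : ℂ) : MeromorphicAt (fun z => hG z - t) z :=
  (hG_meromorphic z).sub (MeromorphicAt.const t z)

theorem PsiG_meromorphic (α : GaussianInt) (z : ℂ) : MeromorphicAt (PsiG α) z := by
  by_cases hα : α = 0
  · have h : PsiG α = fun _ => 0 := by
      funext z
      unfold PsiG
      rw [hα]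
      simp
    rw [h]
    exact MeromorphicAt.const 0 z
  · rw [PsiG_eq hα]
    exact (MeromorphicAt.const _ z).div ((MeromorphicAt.const _ z).mul
      (MeromorphicAt.fun_prod fun t _ => sub_meromorphic t z))

private theorem coprime_two {α : GaussianInt} (hα : IsOdd α) : IsCoprime α 2 := by
  obtain ⟨k, hk⟩ := hα
  have h1 : ((Zsqrtd.norm α : ℤ) : GaussianInt) = α * star α := Zsqrtd.norm_eq_mul_conj α
  have h2 : (Zsqrtd.norm α : ℤ) = 2 * k + 1 := by
    have h3 : (0 : ℤ) ≤ Zsqrtd.norm α := GaussianInt.norm_nonneg α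
    unfold nG at hk
    omega
  refine ⟨star α, -(k : GaussianInt), ?_⟩
  have h4 : α * star α = 2 * (k : GaussianInt) + 1 := by
    rw [← h1, h2]
    push_cast
    ring
  linear_combination h4

private theorem two_mul_notMem {α : GaussianInt} (hα : IsOdd α) {w : ℂ} (hw : w ∉ LG.lattice)
    (hαw : α * w ∈ LG.lattice) : 2 * w ∉ LG.lattice := by
  intro h
  apply hw
  refine mem_of_coprime (coprime_two hα) hαw ?_
  have h2 : ((2 : GaussianInt) : ℂ) = 2 := map_ofNat GaussianInt.toComplex 2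
  rw [h2]
  exact h

private theorem I_mem {z : ℂ} (hz : z ∈ LG.lattice) : I * z ∈ LG.lattice := by
  have h := mul_mem_LG (⟨0, 1⟩ : GaussianInt) hz
  have h2 : ((⟨0, 1⟩ : GaussianInt) : ℂ) = I := by
    rw [GaussianInt.toComplex_def]
    simp
  rwa [h2] at h

private theorem I_mem_iff {z : ℂ} : I * z ∈ LG.lattice ↔ z ∈ LG.lattice := by
  constructor
  · intro h
    have h1 := LG.lattice.neg_mem (I_mem h)
    have h2 : -(I * (I * z)) = z := by
      rw [← mul_assoc, I_mul_I]
      ring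
    rwa [h2] at h1
  · exact I_mem

private theorem XG_eq_iff {z w : ℂ} (hz : z ∉ LG.lattice) (hw : w ∉ LG.lattice) :
    (z - w ∈ LG.lattice ∨ z + w ∈ LG.lattice) ↔ XG z = XG w := by
  constructor
  · rintro (h | h)
    · have h1 := XG_add_coe w h
      rw [← h1]
      congr 1
      ring
    · have h1 := XG_add_coe (-w) h
      rw [← XG_neg w, ← h1]
      congr 1
      ring
  · exact XG_inj hz hw

/-- the order of `hG - t` at points of the lattice and outside -/
private theorem order_sub {α : GaussianInt} (hα : IsOdd α) {t : ℂ} (ht : t ∈ HS α) (z : ℂ) :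
    meromorphicOrderAt (fun z => hG z - t) z =
      ((if z ∈ LG.lattice then -4 else if hG z = t then 1 else 0 : ℤ) : WithTop ℤ) := by
  obtain ⟨w, ⟨hw, hαw⟩, rfl⟩ := ht
  have h2w := two_mul_notMem hα hw hαw
  have hIw : I * w ∉ LG.lattice := fun h => hw (I_mem_iff.1 h)
  have h2Iw : 2 * (I * w) ∉ LG.lattice := by
    intro h
    apply h2w
    rw [← I_mem_iff]
    have h1 : I * (2 * w) = 2 * (I * w) := by ring
    rwa [h1]
  have hXw : XG w ≠ 0 := by
    intro h0
    apply h2w
    rw [XG_two_mul_mem_iff hw, h0]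
    ring
  have hfac : (fun z => hG z - hG w) = (fun z => XG z - XG w) * fun z => XG z - XG (I * w) := by
    funext z
    show hG z - hG w = (XG z - XG w) * (XG z - XG (I * w))
    rw [XG_I_mul]
    unfold hG
    ring
  have m1 : ∀ c : ℂ, MeromorphicAt (fun z => XG z - c) z := fun c =>
    (XG_meromorphic z).sub (MeromorphicAt.const c z)
  rw [hfac, meromorphicOrderAt_mul (m1 _) (m1 _), XG_order_sub hw, XG_order_sub hIw,
    if_neg h2w, if_neg h2Iw, ← WithTop.coe_add]
  congr 1
  by_cases hz : z ∈ LG.lattice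
  · simp only [if_pos hz]
    norm_num
  · simp only [if_neg hz]
    have e1 : (z - w ∈ LG.lattice ∨ z + w ∈ LG.lattice) = (XG z = XG w) :=
      propext (XG_eq_iff hz hw)
    have e2 : (z - I * w ∈ LG.lattice ∨ z + I * w ∈ LG.lattice) = (XG z = - XG w) := by
      rw [← XG_I_mul]
      exact propext (XG_eq_iff hz hIw)
    simp only [e1, e2]
    by_cases h1 : XG z = XG w
    · have h2 : XG z ≠ - XG w := by
        intro h2
        apply hXw
        have h3 : XG w = - XG w := h1.symm.trans h2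
        have h4 : 2 * XG w = 0 := by linear_combination h3
        exact (mul_eq_zero.1 h4).resolve_left two_ne_zero
      have h3 : hG z = hG w := by
        unfold hG
        rw [h1]
      rw [if_pos h1, if_neg h2, if_pos h3]
      norm_num
    · by_cases h2 : XG z = - XG w
      · have h3 : hG z = hG w := by
          unfold hG
          rw [h2]
          ring
        rw [if_neg h1, if_pos h2, if_pos h3]
        norm_num
      · have h3 : hG z ≠ hG w := by
          intro h3
          have h4 : (XG z - XG w) * (XG z + XG w) = 0 := by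
            have h5 : XG z ^ 2 = XG w ^ 2 := h3
            linear_combination h5
          rcases mul_eq_zero.1 h4 with h5 | h5
          · exact h1 (sub_eq_zero.1 h5)
          · exact h2 (eq_neg_of_add_eq_zero_left h5)
        rw [if_neg h1, if_neg h2, if_neg h3]
        norm_num

private theorem hG_mem_iff {α : GaussianInt} {z : ℂ} (hz : z ∉ LG.lattice) :
    hG z ∈ HS α ↔ α * z ∈ LG.lattice := by
  constructor
  · rintro ⟨w, ⟨hw, hαw⟩, h⟩
    obtain ⟨ε, _, h1⟩ := (hG_eq_iff hz hw).1 h.symm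
    have h2 := LG.lattice.add_mem (mul_mem_LG α h1) (mul_mem_LG ε hαw)
    have h3 : (α : ℂ) * (z - ε * w) + ε * (α * w) = α * z := by ring
    rwa [h3] at h2
  · intro h
    exact ⟨z, ⟨hz, h⟩, rfl⟩

private theorem notMem_of {α : GaussianInt} {z : ℂ} (hz : α * z ∉ LG.lattice) : z ∉ LG.lattice :=
  fun h => hz (mul_mem_LG α h)

theorem PsiG_order {α : GaussianInt} (hα : IsOdd α) (z : ℂ) : meromorphicOrderAt (PsiG α) z =
    ((if z ∈ LG.lattice then (nG α : ℤ) - 1 else if α * z ∈ LG.lattice then -1 else 0 : ℤ) :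
      WithTop ℤ) := by
  have hα0 := hα.ne_zero
  set S := (HS_finite hα0).toFinset with hS
  have hmS : ∀ t, t ∈ S ↔ t ∈ HS α := fun t => by rw [hS, Set.Finite.mem_toFinset]
  have hcard : 4 * S.card + 1 = nG α := by
    rw [← HS_card hα, hS, ← Set.ncard_eq_toFinset_card _ (HS_finite hα0)]
  have hprod : MeromorphicAt (fun z => ∏ t ∈ S, (hG z - t)) z :=
    MeromorphicAt.fun_prod fun t _ => sub_meromorphic t z
  have hord : meromorphicOrderAt (fun z => ∏ t ∈ S, (hG z - t)) z =
      ((∑ t ∈ S, (if z ∈ LG.lattice then -4 else if hG z = t then 1 else 0) : ℤ) :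
        WithTop ℤ) := by
    rw [meromorphicOrderAt_fun_prod fun t _ => sub_meromorphic t z]
    have h1 : ∀ T : Finset ℂ, (∀ t ∈ T, t ∈ HS α) →
        ∑ t ∈ T, meromorphicOrderAt (fun z => hG z - t) z =
        ((∑ t ∈ T, (if z ∈ LG.lattice then -4 else if hG z = t then 1 else 0) : ℤ) :
          WithTop ℤ) := by
      intro T
      induction T using Finset.induction_on with
      | empty =>
        intro _
        simp
      | insert a T ha ih =>
        intro hT
        rw [Finset.sum_insert ha, Finset.sum_insert ha, WithTop.coe_add,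
          ih (fun t ht => hT t (Finset.mem_insert_of_mem ht)),
          order_sub hα (hT a (Finset.mem_insert_self a T))]
    exact h1 S fun t ht => (hmS t).1 ht
  have hconst : ∀ c : ℂ, c ≠ 0 → meromorphicOrderAt (fun _ : ℂ => c) z = 0 := by
    intro c hc
    rw [meromorphicOrderAt_const, if_neg hc]
  have hc1 : (2 : ℂ) ^ ((nG α - 1) / 2) ≠ 0 := pow_ne_zero _ two_ne_zero
  have hP : PsiG α = (fun _ => (2 : ℂ) ^ ((nG α - 1) / 2)) /
      ((fun _ => (α : ℂ)) * fun z => ∏ t ∈ S, (hG z - t)) := by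
    rw [PsiG_eq hα0]
    rfl
  rw [hP, meromorphicOrderAt_div (MeromorphicAt.const _ z) ((MeromorphicAt.const _ z).mul hprod),
    meromorphicOrderAt_mul (MeromorphicAt.const _ z) hprod, hconst _ hc1,
    hconst _ (coe_ne_zero hα0), hord, zero_add, zero_sub]
  have hneg : ∀ n : ℤ, -((n : ℤ) : WithTop ℤ) = ((-n : ℤ) : WithTop ℤ) := fun n => rfl
  rw [hneg]
  congr 1
  by_cases hz : z ∈ LG.lattice
  · simp only [if_pos hz, Finset.sum_const, nsmul_eq_mul]
    push_cast [← hcard]
    ring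
  · simp only [if_neg hz]
    by_cases hαz : α * z ∈ LG.lattice
    · rw [if_pos hαz, Finset.sum_ite_eq, if_pos ((hmS _).2 ((hG_mem_iff hz).2 hαz))]
    · rw [if_neg hαz, Finset.sum_ite_eq, if_neg fun h => hαz ((hG_mem_iff hz).1 ((hmS _).1 h)),
        neg_zero]

private theorem den_ne_zero {α : GaussianInt} (hα0 : α ≠ 0) {z : ℂ} (hz : α * z ∉ LG.lattice) :
    (α : ℂ) * ∏ t ∈ (HS_finite hα0).toFinset, (hG z - t) ≠ 0 := by
  refine mul_ne_zero (coe_ne_zero hα0) (Finset.prod_ne_zero_iff.2 ?_)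
  intro t ht h0
  rw [Set.Finite.mem_toFinset] at ht
  rw [← sub_eq_zero.1 h0] at ht
  exact hz ((hG_mem_iff (notMem_of hz)).1 ht)

theorem PsiG_ne_zero {α : GaussianInt} (hα : IsOdd α) {z : ℂ} (hz : α * z ∉ LG.lattice) :
    PsiG α z ≠ 0 := by
  rw [PsiG_eq hα.ne_zero]
  exact div_ne_zero (pow_ne_zero _ two_ne_zero) (den_ne_zero hα.ne_zero hz)

theorem PsiG_analytic {α : GaussianInt} (hα : IsOdd α) {z : ℂ} (hz : α * z ∉ LG.lattice) :
    AnalyticAt ℂ (PsiG α) z := by
  have hX : AnalyticAt ℂ XG z :=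
    XG_diff.analyticAt (LG.isClosed_lattice.isOpen_compl.mem_nhds (notMem_of hz))
  have hh : AnalyticAt ℂ hG z := hX.pow 2
  rw [PsiG_eq hα.ne_zero]
  refine AnalyticAt.div analyticAt_const (analyticAt_const.mul ?_) (den_ne_zero hα.ne_zero hz)
  exact Finset.analyticAt_fun_prod _ fun t _ => hh.sub analyticAt_const

theorem PsiG_add_coe (α : GaussianInt) (z : ℂ) {l : ℂ} (hl : l ∈ LG.lattice) :
    PsiG α (z + l) = PsiG α z := by
  unfold PsiG hG
  rw [XG_add_coe z hl]

/-- leading coefficient at `0` -/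
theorem PsiG_tendsto {α : GaussianInt} (hα : IsOdd α) :
    Tendsto (fun z : ℂ => PsiG α z / z ^ (nG α - 1)) (𝓝[≠] 0)
      (𝓝 ((2 * ℘[LG] (1 / 2)) ^ ((nG α - 1) / 2) / α)) := by
  have hα0 := hα.ne_zero
  obtain ⟨hX, he⟩ := XG_tendsto
  set e : ℂ := ℘[LG] (1 / 2) with hedef
  set S := (HS_finite hα0).toFinset with hS
  have hcard : 4 * S.card + 1 = nG α := by
    rw [← HS_card hα, hS, ← Set.ncard_eq_toFinset_card _ (HS_finite hα0)]
  have h4 : nG α - 1 = 4 * S.card := by omega
  have h2 : (nG α - 1) / 2 = 2 * S.card := by omega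
  -- the factors
  have hid : Tendsto (fun z : ℂ => z) (𝓝[≠] 0) (𝓝 0) := nhdsWithin_le_nhds
  have hfac : ∀ t ∈ S, Tendsto (fun z : ℂ => z ^ 4 * (hG z - t)) (𝓝[≠] 0) (𝓝 ((e⁻¹) ^ 2)) := by
    intro t _
    have h1 := (hX.pow 2).sub ((hid.pow 4).mul_const t)
    have h3 : (e⁻¹) ^ 2 - 0 ^ 4 * t = (e⁻¹) ^ 2 := by ring
    rw [h3] at h1
    refine h1.congr fun z => ?_
    unfold hG
    ring
  have hprod := tendsto_finsetProd S hfac
  rw [Finset.prod_const] at hprod
  have hne : (α : ℂ) * ((e⁻¹) ^ 2) ^ S.card ≠ 0 :=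
    mul_ne_zero (coe_ne_zero hα0) (pow_ne_zero _ (pow_ne_zero _ (inv_ne_zero he)))
  have hlim := (tendsto_const_nhds (x := (2 : ℂ) ^ ((nG α - 1) / 2)) (f := 𝓝[≠] (0 : ℂ))).div
    (hprod.const_mul (α : ℂ)) hne
  have heq : (2 : ℂ) ^ ((nG α - 1) / 2) / ((α : ℂ) * ((e⁻¹) ^ 2) ^ S.card)
      = (2 * e) ^ ((nG α - 1) / 2) / α := by
    rw [h2, mul_pow, ← pow_mul, inv_pow]
    have h5 := coe_ne_zero hα0
    field_simp
  rw [heq] at hlim
  refine hlim.congr' ?_
  filter_upwards [self_mem_nhdsWithin] with z hz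
  have hz0 : z ≠ 0 := hz
  rw [PsiG_eq hα0]
  show (2 : ℂ) ^ ((nG α - 1) / 2) / ((α : ℂ) * ∏ t ∈ S, z ^ 4 * (hG z - t)) =
    2 ^ ((nG α - 1) / 2) / ((α : ℂ) * ∏ t ∈ S, (hG z - t)) / z ^ (nG α - 1)
  rw [Finset.prod_mul_distrib, Finset.prod_const, h4, ← pow_mul, div_div]
  congr 1
  ring

end Pool.Agent.CMG
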