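import Pool.Agent.CMG.ValTwo
import Pool.Agent.CMG.PsiOrd

/-!
# valuations over 2: N not a power of 2

`N = 2^n N'`, `N' > 1` odd, prime to `α`. `v(α) = 1`. `z = a/N`, `z_j = (1+i)^j z`; `z_{2n}` has odd
order, `N' z_{2n} ∈ L`, no `z_j` is killed by `α` or by a power of `1+i`. Claim: for all `j ≤ 2n` and
`w ∈ E[α] ∖ 0`: `v(hG z_j - hG w) = v(4)`. `j = 2n`: `val_odd_odd` with `β = α N'`
(`hG z_{2n} ≠ hG w` as `z_{2n} ∉ E[α]`). From `j+1` to `j`: `x = hG z_j`, `y = hG w`; `T_sub` and the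
claim for `(1+i)w ∈ E[α] ∖ 0` give `v(4)² v(x) = v(x-y) v(xy-1)`. (As in `val_odd`:
`4 x hG(z_{j+1}) = -(x-1)²`; the claim for `j+1` and `val_odd` give `v(hG z_{j+1}) = 1`, hence
`v(x) = 1`.) `xy - 1 = y(x-y) + (y²-1)`, `v(y) = 1`, `v(y²-1) < v(4)`: if `v(x-y) < v(4)` the product is
`< v(4)²`, if `v(x-y) > v(4)` it is `> v(4)²`. So `v(x-y) = v(4)`.
Then `PsiG α z = 2^{(Nα-1)/2}/(α ∏_t (hG z - t))` with `(Nα-1)/4` values `t` (`HS_card`).
-/

set_option autoImplicit false

noncomputable section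

open Complex Filter Topology
open scoped PeriodPair Classical


namespace Pool.Agent.CMG

section val

variable {V : ValuationSubring ℂ}

theorem vnp_int (n : ℤ) : V.valuation (n : ℂ) ≤ 1 := by
  rw [ValuationSubring.valuation_le_one_iff]
  exact intCast_mem V n

theorem vnp_odd_nat (h2 : V.valuation (2 : ℂ) < 1) {n : ℕ} (hn : Odd n) :
    V.valuation (n : ℂ) = 1 := by
  obtain ⟨k, hk⟩ := hn
  have h1 : V.valuation ((2 : ℂ) * (k : ℂ)) < 1 := by
    rw [map_mul]
    have := vnp_int (V := V) k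
    push_cast at this
    exact mul_lt_one_of_lt_of_le h2 this
  have h3 : V.valuation (1 + (2 : ℂ) * (k : ℂ)) = V.valuation (1 : ℂ) := by
    refine Valuation.map_add_eq_of_lt_left V.valuation ?_
    rw [map_one]
    exact h1
  rw [hk]
  push_cast
  rw [add_comm, h3, map_one]

theorem vnp_gauss_le (α : GaussianInt) : V.valuation (α : ℂ) ≤ 1 := by
  rw [ValuationSubring.valuation_le_one_iff, GaussianInt.toComplex_def]
  have hI : I ∈ V := by
    rw [← ValuationSubring.valuation_le_one_iff]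
    by_contra h
    push Not at h
    have h1 : V.valuation (I * I) = 1 := by
      rw [Complex.I_mul_I, Valuation.map_neg, map_one]
    rw [map_mul] at h1
    have h2 : 1 < V.valuation I * V.valuation I := lt_of_lt_of_le h (le_mul_of_one_le_right' h.le)
    rw [h1] at h2
    exact lt_irrefl _ h2
  exact add_mem (intCast_mem V _) (mul_mem (intCast_mem V _) hI)

theorem vnp_star_mul (α : GaussianInt) : (α : ℂ) * ((star α : GaussianInt) : ℂ) = (nG α : ℂ) := by
  rw [GaussianInt.toComplex_star]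
  have := nG_eq α
  rw [Complex.mul_conj, Complex.normSq_eq_norm_sq, ← this]
  simp

theorem vnp_odd (h2 : V.valuation (2 : ℂ) < 1) {α : GaussianInt} (hα : IsOdd α) :
    V.valuation (α : ℂ) = 1 := by
  have h1 := vnp_star_mul α
  have h3 := vnp_odd_nat h2 hα
  rw [← h1, map_mul] at h3
  refine le_antisymm (vnp_gauss_le α) ?_
  by_contra h
  push Not at h
  have h4 := mul_lt_one_of_lt_of_le h (vnp_gauss_le (V := V) (star α))
  rw [h3] at h4
  exact lt_irrefl _ h4

theorem vnp_four_lt (h2 : V.valuation (2 : ℂ) < 1) : V.valuation (4 : ℂ) < 1 := by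
  have : (4 : ℂ) = 2 * 2 := by norm_num
  rw [this, map_mul]
  exact mul_lt_one_of_lt_of_le h2 h2.le

theorem vnp_isOdd {α : GaussianInt} (h : IsCoprime α ((2 : ℕ) : GaussianInt)) : IsOdd α := by
  obtain ⟨u, v, huv⟩ := h
  let φ : GaussianInt →+* ZMod 2 := Zsqrtd.lift ⟨1, by decide⟩
  have hφ : φ α = ((nG α : ℕ) : ZMod 2) := by
    have h1 : ((nG α : ℕ) : ℤ) = α.norm := Int.natAbs_of_nonneg (GaussianInt.norm_nonneg α)
    have h2 : ((nG α : ℕ) : ZMod 2) = ((α.norm : ℤ) : ZMod 2) := by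
      rw [← h1]
      simp
    rw [h2, Zsqrtd.norm_def]
    have h3 : φ α = (α.re : ZMod 2) + (α.im : ZMod 2) * 1 := rfl
    rw [h3]
    push_cast
    generalize (α.re : ZMod 2) = x
    generalize (α.im : ZMod 2) = y
    revert x y
    decide
  have h4 := congrArg φ huv
  rw [map_add, map_mul, map_mul, map_natCast, map_one, hφ] at h4
  have h5 : ((nG α : ℕ) : ZMod 2) ≠ 0 := by
    intro h0
    rw [h0] at h4
    have : ((2 : ℕ) : ZMod 2) = 0 := rfl
    rw [this] at h4
    simp at h4
  unfold IsOdd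
  rw [← Nat.not_even_iff_odd]
  intro he
  exact h5 ((ZMod.natCast_eq_zero_iff_even).2 he)

/-- multiplication by `1 + i` on points of odd order -/
theorem vnp_one_add_I {α : GaussianInt} (hα : IsOdd α) {w : ℂ} (hw : w ∉ LG.lattice)
    (h : α * w ∈ LG.lattice) : (1 + I) * w ∉ LG.lattice ∧ α * ((1 + I) * w) ∈ LG.lattice := by
  constructor
  · intro h1
    apply hw
    have h2 : ((2 : GaussianInt) : ℂ) * w ∈ LG.lattice := by
      have h3 := mul_mem_LG (⟨1, -1⟩ : GaussianInt) h1
      rw [GaussianInt.toComplex_def'] at h3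
      have : ((1 : ℤ) : ℂ) + ((-1 : ℤ) : ℂ) * I = 1 - I := by
        push_cast
        ring
      rw [this] at h3
      have h4 : ((2 : GaussianInt) : ℂ) * w = (1 - I) * ((1 + I) * w) := by
        have : ((2 : GaussianInt) : ℂ) = 2 := map_ofNat GaussianInt.toComplex 2
        rw [this]
        linear_combination w * Complex.I_sq
      rw [h4]
      exact h3
    have h5 : ((nG α : GaussianInt) : ℂ) * w ∈ LG.lattice := by
      have h6 := mul_mem_LG (star α) h
      rw [← mul_assoc, mul_comm ((star α : GaussianInt) : ℂ), vnp_star_mul] at h6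
      simpa using h6
    have h7 : IsCoprime (2 : GaussianInt) (nG α : GaussianInt) := by
      have h8 : Nat.Coprime 2 (nG α) := (Nat.coprime_two_left).2 hα
      have h9 := (Nat.isCoprime_iff_coprime.2 h8).map (Int.castRingHom GaussianInt)
      simpa using h9
    exact mem_of_coprime h7 h2 h5
  · have h1 := mul_mem_LG (⟨1, 1⟩ : GaussianInt) h
    rw [GaussianInt.toComplex_def'] at h1
    have h2 : (α : ℂ) * ((1 + I) * w) = (((1 : ℤ) : ℂ) + ((1 : ℤ) : ℂ) * I) * ((α : ℂ) * w) := by
      push_cast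
      ring
    rw [h2]
    exact h1

/-- the backward step -/
theorem vnp_step (h2 : V.valuation (2 : ℂ) < 1) {α : GaussianInt} (hα : IsOdd α) {z : ℂ}
    (hz : (1 + I) * z ∉ LG.lattice)
    (H : ∀ w : ℂ, w ∉ LG.lattice → α * w ∈ LG.lattice →
      V.valuation (hG ((1 + I) * z) - hG w) = V.valuation (4 : ℂ)) :
    ∀ w : ℂ, w ∉ LG.lattice → α * w ∈ LG.lattice →
      V.valuation (hG z - hG w) = V.valuation (4 : ℂ) := by
  intro w hw hαw
  have h4 := vnp_four_lt h2
  have h40 : V.valuation (4 : ℂ) ≠ 0 := (Valuation.ne_zero_iff _).2 (by norm_num)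
  obtain ⟨hw1, hw2⟩ := vnp_one_add_I hα hw hαw
  obtain ⟨hy1, -, hy2⟩ := val_odd h2 hw hα hαw
  have hT := T_sub (x := hG z) (y := hG w) rfl rfl hz hw1
  have hH1 := H _ hw1 hw2
  have hH2 := H _ hw hαw
  have hx' : V.valuation (hG ((1 + I) * z)) = 1 := by
    have e : hG ((1 + I) * z) = hG w + (hG ((1 + I) * z) - hG w) := by ring
    rw [e, Valuation.map_add_eq_of_lt_left V.valuation (by rw [hH2, hy1]; exact h4), hy1]
  have hdup := hG_one_add_I hz
  have hdup' : V.valuation (4 : ℂ) * V.valuation (hG z) = V.valuation (hG z - 1) ^ 2 := by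
    have := congrArg V.valuation hdup
    rw [map_mul, map_mul, hx', Valuation.map_neg, map_pow, mul_one] at this
    exact this
  have hx : V.valuation (hG z) = 1 := by
    rcases lt_trichotomy (V.valuation (hG z)) 1 with h | h | h
    · exfalso
      have e : V.valuation (hG z - 1) = 1 := by
        rw [Valuation.map_sub_eq_of_lt_right V.valuation (by rw [map_one]; exact h), map_one]
      rw [e, one_pow] at hdup'
      have := mul_lt_one_of_lt_of_le h4 h.le
      rw [hdup'] at this
      exact lt_irrefl _ this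
    · exact h
    · exfalso
      have e : V.valuation (hG z - 1) = V.valuation (hG z) := by
        rw [Valuation.map_sub_eq_of_lt_left V.valuation (by rw [map_one]; exact h)]
      rw [e, sq] at hdup'
      have h0 : V.valuation (hG z) ≠ 0 := (zero_lt_one.trans h).ne'
      have := mul_right_cancel₀ h0 hdup'
      rw [this] at h4
      exact lt_asymm h4 h
  have hprod : V.valuation (4 : ℂ) * V.valuation (4 : ℂ) =
      V.valuation (hG z - hG w) * V.valuation (hG z * hG w - 1) := by
    have := congrArg V.valuation hT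
    rw [map_mul, map_mul, map_mul, hx, hy1, hH1, Valuation.map_neg, map_mul, mul_one, mul_one]
      at this
    exact this
  have e : hG z * hG w - 1 = hG w * (hG z - hG w) + (hG w ^ 2 - 1) := by ring
  have e1 : V.valuation (hG w * (hG z - hG w)) = V.valuation (hG z - hG w) := by
    rw [map_mul, hy1, one_mul]
  have h4pos : 0 < V.valuation (4 : ℂ) := zero_lt_iff.2 h40
  rcases lt_trichotomy (V.valuation (hG z - hG w)) (V.valuation (4 : ℂ)) with h | h | h
  · exfalso
    have h5 : V.valuation (hG z * hG w - 1) < V.valuation (4 : ℂ) := by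
      rw [e]
      refine Valuation.map_add_lt V.valuation ?_ hy2
      rw [e1]
      exact h
    have := mul_lt_mul'' h h5 zero_le zero_le
    rw [← hprod] at this
    exact lt_irrefl _ this
  · exact h
  · exfalso
    have h5 : V.valuation (hG z * hG w - 1) = V.valuation (hG z - hG w) := by
      rw [e, Valuation.map_add_eq_of_lt_left V.valuation (by rw [e1]; exact hy2.trans h), e1]
    rw [h5] at hprod
    have := mul_lt_mul'' h h zero_le zero_le
    rw [hprod] at this
    exact lt_irrefl _ this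

theorem vnp_iter (h2 : V.valuation (2 : ℂ) < 1) {α : GaussianInt} (hα : IsOdd α) (j : ℕ) : ∀ {z : ℂ},
    (1 + I) ^ j * z ∉ LG.lattice →
    (∀ w : ℂ, w ∉ LG.lattice → α * w ∈ LG.lattice →
      V.valuation (hG ((1 + I) ^ j * z) - hG w) = V.valuation (4 : ℂ)) →
    ∀ w : ℂ, w ∉ LG.lattice → α * w ∈ LG.lattice →
      V.valuation (hG z - hG w) = V.valuation (4 : ℂ) := by
  induction j with
  | zero =>
    intro z hz H
    simpa using H
  | succ j ih =>
    intro z hz H
    have e : (1 + I) ^ (j + 1) * z = (1 + I) ^ j * ((1 + I) * z) := by ring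
    rw [e] at hz H
    have h1 := ih hz H
    refine vnp_step h2 hα ?_ h1
    intro h3
    apply hz
    have h4 := mul_mem_LG ((⟨1, 1⟩ : GaussianInt) ^ j) h3
    have h5 : (((⟨1, 1⟩ : GaussianInt) ^ j : GaussianInt) : ℂ) = (1 + I) ^ j := by
      rw [map_pow, GaussianInt.toComplex_def']
      push_cast
      ring
    rw [h5] at h4
    exact h4

/-- the value from the valuations of the differences -/
theorem vnp_PsiG (h2 : V.valuation (2 : ℂ) < 1) {α : GaussianInt} (hα : IsOdd α) {z : ℂ}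
    (H : ∀ w : ℂ, w ∉ LG.lattice → α * w ∈ LG.lattice →
      V.valuation (hG z - hG w) = V.valuation (4 : ℂ)) :
    V.valuation (PsiG α z) = 1 := by
  have h40 : V.valuation (4 : ℂ) ≠ 0 := (Valuation.ne_zero_iff _).2 (by norm_num)
  have hfin := HS_finite hα.ne_zero
  have h1 : V.valuation (∏ᶠ t ∈ HS α, (hG z - t)) = V.valuation (4 : ℂ) ^ (HS α).ncard := by
    rw [finprod_mem_eq_finite_toFinset_prod _ hfin, map_prod,
      Finset.prod_congr rfl (g := fun _ => V.valuation (4 : ℂ)), Finset.prod_const,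
      Set.ncard_eq_toFinset_card _ hfin]
    intro t ht
    rw [Set.Finite.mem_toFinset] at ht
    obtain ⟨w, ⟨hw, hαw⟩, rfl⟩ := ht
    exact H w hw hαw
  have hc := HS_card hα
  have h3 : (nG α - 1) / 2 = 2 * (HS α).ncard := by omega
  have h4 : (2 : ℂ) ^ (2 * (HS α).ncard) = 4 ^ (HS α).ncard := by
    rw [pow_mul]
    norm_num
  unfold PsiG
  rw [map_div₀, map_mul, h1, h3, h4, map_pow, vnp_odd h2 hα, one_mul,
    div_self (pow_ne_zero _ h40)]

theorem val_PsiG_not_pow (h2 : V.valuation (2 : ℂ) < 1) {α : GaussianInt} {N : ℕ} (hN : 4 ∣ N)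
    (hN0 : N ≠ 0) (hN' : ¬ IsPrimePow N) (hα : IsCoprime α (N : GaussianInt)) {a : GaussianInt}
    (ha : IsCoprime a (N : GaussianInt)) : V.valuation (PsiG α (a / N)) = 1 := by
  obtain ⟨n, N', hodd, hNe⟩ := Nat.exists_eq_two_pow_mul_odd hN0
  have hn0 : n ≠ 0 := by
    rintro rfl
    rw [pow_zero, one_mul] at hNe
    rw [hNe] at hN
    exact (Nat.not_even_iff_odd.2 hodd) ((even_iff_two_dvd).2 (dvd_trans (by norm_num) hN))
  have hN'1 : N' ≠ 1 := by
    rintro rfl
    apply hN'
    rw [hNe, mul_one]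
    exact (Nat.prime_two.isPrimePow).pow hn0
  have hN'0 : (N' : GaussianInt) ≠ 0 := by
    have : N' ≠ 0 := by
      rintro rfl
      exact absurd hodd (by decide)
    exact_mod_cast this
  have hdvd : ((2 : ℕ) : GaussianInt) ∣ (N : GaussianInt) := Nat.cast_dvd_cast (dvd_trans (by norm_num : 2 ∣ 4) hN)
  have hαodd : IsOdd α := vnp_isOdd (hα.of_isCoprime_of_dvd_right hdvd)
  have hN'dvd : (N' : GaussianInt) ∣ (N : GaussianInt) := Nat.cast_dvd_cast ⟨2 ^ n, by rw [hNe, mul_comm]⟩
  have hN'α : IsCoprime (N' : GaussianInt) α := (hα.of_isCoprime_of_dvd_right hN'dvd).symm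
  have hN'a : IsCoprime (N' : GaussianInt) a := (ha.of_isCoprime_of_dvd_right hN'dvd).symm
  refine vnp_PsiG h2 hαodd ?_
  set b : GaussianInt := (⟨0, 1⟩ : GaussianInt) ^ n * a with hb
  have hI : ((⟨0, 1⟩ : GaussianInt) : ℂ) = I := by
    rw [GaussianInt.toComplex_def']
    push_cast
    ring
  have hIu : IsUnit ((⟨0, 1⟩ : GaussianInt) ^ n) := by
    refine IsUnit.pow n ?_
    rw [← Zsqrtd.norm_eq_one_iff]
    decide
  have hz2 : (1 + I) ^ (2 * n) * ((a : ℂ) / (N : ℂ)) = (b : ℂ) / ((N' : GaussianInt) : ℂ) := by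
    have e1 : (1 + I) ^ (2 * n) = 2 ^ n * I ^ n := by
      rw [pow_mul, ← mul_pow]
      congr 1
      linear_combination Complex.I_sq
    have e2 : ((N' : GaussianInt) : ℂ) = (N' : ℂ) := map_natCast GaussianInt.toComplex N'
    have e3 : (N' : ℂ) ≠ 0 := by
      intro h0
      apply hN'0
      have : N' = 0 := by exact_mod_cast h0
      rw [this]
      simp
    rw [e1, e2, hb, map_mul, map_pow, hI, hNe]
    push_cast
    field_simp
  have hαz : α * ((b : ℂ) / ((N' : GaussianInt) : ℂ)) ∉ LG.lattice := by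
    intro h
    have e1 : (α : ℂ) * ((b : ℂ) / ((N' : GaussianInt) : ℂ)) = ((α * b : GaussianInt) : ℂ) / ((N' : GaussianInt) : ℂ) := by
      rw [GaussianInt.toComplex.map_mul α b, mul_div_assoc]
    rw [e1, div_mem_iff hN'0] at h
    have h3 := hN'a.dvd_of_dvd_mul_right (hN'α.dvd_of_dvd_mul_left h)
    have h4 := isUnit_of_dvd_unit h3 hIu
    rw [← Zsqrtd.norm_eq_one_iff, Zsqrtd.norm_natCast] at h4
    apply hN'1
    have h5 : N' * N' = 1 := by
      have : ((N' : ℤ) * (N' : ℤ)).natAbs = N' * N' := by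
        rw [Int.natAbs_mul]
        simp
      rw [← this]
      exact h4
    exact Nat.eq_one_of_mul_eq_one_right h5
  have hz : (b : ℂ) / ((N' : GaussianInt) : ℂ) ∉ LG.lattice := fun h => hαz (mul_mem_LG α h)
  have hN'C : ((N' : GaussianInt) : ℂ) ≠ 0 := by
    rw [Ne, GaussianInt.toComplex_eq_zero]
    exact hN'0
  have hNz : ((N' : GaussianInt) : ℂ) * ((b : ℂ) / ((N' : GaussianInt) : ℂ)) ∈ LG.lattice := by
    rw [mul_div_cancel₀ _ hN'C]
    exact mem_LG.2 ⟨b, rfl⟩
  have hβ : IsOdd (α * (N' : GaussianInt)) := by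
    unfold IsOdd
    rw [nG_mul]
    refine Nat.odd_mul.2 ⟨hαodd, ?_⟩
    unfold nG
    rw [Zsqrtd.norm_natCast, Int.natAbs_mul]
    simpa using hodd.mul hodd
  refine vnp_iter h2 hαodd (2 * n) ?_ ?_
  · rw [hz2]
    exact hz
  · rw [hz2]
    intro w hw hαw
    refine val_odd_odd h2 hz hw hβ ?_ ?_ ?_
    · rw [map_mul, mul_assoc]
      exact mul_mem_LG α hNz
    · rw [map_mul, mul_comm (α : ℂ), mul_assoc]
      exact mul_mem_LG _ hαw
    · intro heq
      obtain ⟨ε, -, hε⟩ := (hG_eq_iff hz hw).1 heq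
      apply hαz
      have h3 := mul_mem_LG α hε
      have h4 := mul_mem_LG ε hαw
      have h5 : (α : ℂ) * ((b : ℂ) / ((N' : GaussianInt) : ℂ)) =
          α * ((b : ℂ) / ((N' : GaussianInt) : ℂ) - ε * w) + ε * (α * w) := by ring
      rw [h5]
      exact add_mem h3 h4

end val

end Pool.Agent.CMG
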