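import Pool.Agent.CMG.ValTwo
import Pool.Agent.CMG.PsiOrd

/-!
# valuations over 2: N a power of 2

Let `u` have exact order `(1+i)^m`, `m ≥ 1`, and `w ∈ E[α] ∖ 0`, `A_m = v(hG u - hG w)`. Claim:
`A_m > v(4)` and `A_m ^ (2^{m-1}) = v(4) ^ (2^{m-1} - 1)`. `m = 1`: `u ≡ τ`, `hG u = 0`, `A_1 = v(hG w) = 1`
(`val_odd`). Step: `x = hG u`, `y = hG w`, `(1+i)u` has order `(1+i)^{m-1}`, `T_sub`:
`v(4) v(x) A_{m-1} = v(x-y) v(xy-1)` with `v(x) = 1` for `m ≥ 2` (`m = 2`: `4 x·0 = -(x-1)²`, `x = 1`;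
`m > 2`: `v(hG((1+i)u)) = 1` for `m > 2` by induction and `4 x x' = -(x-1)²` as in `val_odd`: if
`v(x) > 1`, `v(x') = v(x)/v(4) > 1`, if `v(x) < 1`, `v(x') > 1`). `xy-1 = y(x-y) + (y²-1)`; if
`v(x-y) ≤ v(4)` then `v(xy-1) ≤ v(4)` and `A_{m-1} ≤ v(4)`, contradiction; so `v(xy-1) = v(x-y)`,
`A_m² = v(4) A_{m-1}`. For `u = a/2^n`, `m = 2n` (`2 = -i(1+i)²`).
`PsiG α u = 2^{(Nα-1)/2}/(α ∏_t (hG u - t))`, `(Nα-1)/4` values `t`, `v(α) = 1`:
`v(PsiG)^{2^{2n-1}} = v(4)^{(Nα-1)/4}`.
-/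

set_option autoImplicit false

noncomputable section

open Complex Filter Topology
open scoped PeriodPair Classical


namespace Pool.Agent.CMG

section val

variable {V : ValuationSubring ℂ}

private theorem vp_v4 : V.valuation (4 : ℂ) = V.valuation (2 : ℂ) ^ 2 := by
  rw [← map_pow]; norm_num

private theorem vp_v2_ne : V.valuation (2 : ℂ) ≠ 0 := (Valuation.ne_zero_iff _).2 two_ne_zero

private theorem vp_v4_lt (h2 : V.valuation (2 : ℂ) < 1) : V.valuation (4 : ℂ) < 1 := by
  rw [vp_v4]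
  exact pow_lt_one₀ zero_le h2 two_ne_zero

private theorem vp_nat_le (n : ℕ) : V.valuation (n : ℂ) ≤ 1 := by
  rw [ValuationSubring.valuation_le_one_iff]
  exact natCast_mem V n

private theorem vp_int_le (n : ℤ) : V.valuation (n : ℂ) ≤ 1 := by
  rw [ValuationSubring.valuation_le_one_iff]
  exact intCast_mem V n

private theorem vp_I : V.valuation I = 1 := by
  have h : V.valuation I ^ 4 = 1 := by rw [← map_pow, I_pow_four, map_one]
  exact (pow_eq_one_iff.1 h).resolve_right (by norm_num)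

private theorem vp_odd_nat (h2 : V.valuation (2 : ℂ) < 1) {n : ℕ} (hn : Odd n) :
    V.valuation (n : ℂ) = 1 := by
  obtain ⟨k, rfl⟩ := hn
  have h1 : V.valuation ((2 : ℂ) * k) < 1 := by
    rw [map_mul]
    exact lt_of_le_of_lt (mul_le_of_le_one_right' (vp_nat_le k)) h2
  have h3 : (((2 * k + 1 : ℕ)) : ℂ) = 2 * k + 1 := by push_cast; ring
  rw [h3, Valuation.map_add_eq_of_lt_right, map_one]
  rwa [map_one]

private theorem vp_odd (h2 : V.valuation (2 : ℂ) < 1) {α : GaussianInt} (hα : IsOdd α) :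
    V.valuation (α : ℂ) = 1 := by
  have hcoe : (α : ℂ) = (α.re : ℂ) + α.im * I := by
    simp [GaussianInt.toComplex_def]
  have h1 : V.valuation ((α.re : ℂ) + α.im * I) ≤ 1 := by
    refine Valuation.map_add_le _ (vp_int_le _) ?_
    rw [map_mul, vp_I, mul_one]
    exact vp_int_le _
  have h3 : V.valuation ((α.re : ℂ) - α.im * I) ≤ 1 := by
    refine Valuation.map_sub_le _ (vp_int_le _) ?_
    rw [map_mul, vp_I, mul_one]
    exact vp_int_le _
  have h4 : ((α.re : ℂ) + α.im * I) * ((α.re : ℂ) - α.im * I) = (nG α : ℂ) := by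
    have h5 : ((nG α : ℕ) : ℤ) = α.re * α.re + α.im * α.im := by
      have h6 : α.norm = α.re * α.re + α.im * α.im := by
        rw [Zsqrtd.norm_def]; ring
      have h7 : 0 ≤ α.norm := GaussianInt.norm_nonneg α
      rw [nG, Int.natAbs_of_nonneg h7, h6]
    have h8 : ((nG α : ℕ) : ℂ) = (α.re : ℂ) * α.re + α.im * α.im := by exact_mod_cast h5
    rw [h8]
    have hII : I * I = -1 := I_mul_I
    linear_combination (-(α.im : ℂ) ^ 2) * hII
  have h9 := congrArg V.valuation h4
  rw [map_mul, vp_odd_nat h2 hα] at h9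
  rw [hcoe]
  refine le_antisymm h1 ?_
  by_contra hlt
  rw [not_le] at hlt
  have h10 := lt_of_le_of_lt (mul_le_of_le_one_right' h3) hlt
  rw [h9] at h10
  exact lt_irrefl _ h10

private theorem vp_one {x x' : ℂ} (h2 : V.valuation (2 : ℂ) < 1)
    (h : 4 * x * x' = -(x - 1) ^ 2) (hx' : V.valuation x' = 1) : V.valuation x = 1 := by
  have h4 := vp_v4_lt h2
  have h3 : V.valuation 4 * V.valuation x = V.valuation (x - 1) ^ 2 := by
    have h5 := congrArg V.valuation h
    rwa [map_mul, map_mul, hx', mul_one, Valuation.map_neg, map_pow] at h5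
  rcases lt_trichotomy (V.valuation x) 1 with h5 | h5 | h5
  · exfalso
    have h6 : V.valuation (x - 1) = 1 := by
      rw [Valuation.map_sub_eq_of_lt_right, map_one]
      rwa [map_one]
    rw [h6, one_pow] at h3
    have h7 := lt_of_le_of_lt (mul_le_of_le_one_right' h5.le) h4
    rw [h3] at h7
    exact lt_irrefl _ h7
  · exact h5
  · exfalso
    have h6 : V.valuation (x - 1) = V.valuation x := by
      rw [Valuation.map_sub_eq_of_lt_left]
      rwa [map_one]
    rw [h6, pow_two] at h3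
    have hx0 : V.valuation x ≠ 0 := (lt_trans zero_lt_one h5).ne'
    have h7 : V.valuation 4 = V.valuation x := mul_right_cancel₀ hx0 h3
    rw [h7] at h4
    exact lt_asymm h4 h5

private theorem vp_one_add_I_mul {z : ℂ} (hz : z ∈ LG.lattice) : (1 + I) * z ∈ LG.lattice := by
  have := mul_mem_LG (⟨1, 1⟩ : GaussianInt) hz
  have h : (((⟨1, 1⟩ : GaussianInt)) : ℂ) = 1 + I := by
    simp [GaussianInt.toComplex_def]
  rwa [h] at this

private theorem vp_pow_mul {z : ℂ} (m : ℕ) (hz : z ∈ LG.lattice) :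
    (1 + I) ^ m * z ∈ LG.lattice := by
  induction m with
  | zero => simpa using hz
  | succ m ih =>
    have := vp_one_add_I_mul ih
    rwa [← mul_assoc, ← pow_succ'] at this

private theorem vp_w {α : GaussianInt} (hα : IsOdd α) {w : ℂ} (hw : w ∉ LG.lattice)
    (hαw : (α : ℂ) * w ∈ LG.lattice) :
    (1 + I) * w ∉ LG.lattice ∧ (α : ℂ) * ((1 + I) * w) ∈ LG.lattice := by
  constructor
  · intro h
    rcases mem_or_tau h with h1 | h1
    · exact hw h1
    · refine tau_notMem.1 ?_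
      have h3 : (α : ℂ) * (w - tau) ∈ LG.lattice := mul_mem_LG α h1
      have h4 := LG.lattice.sub_mem (LG.lattice.sub_mem hαw h3) (odd_mul_tau hα)
      have h5 : (α : ℂ) * w - (α : ℂ) * (w - tau) - ((α : ℂ) * tau - tau) = tau := by ring
      rwa [h5] at h4
  · have := vp_one_add_I_mul hαw
    have h5 : (1 + I) * ((α : ℂ) * w) = (α : ℂ) * ((1 + I) * w) := by ring
    rwa [h5] at this

private theorem vp_tau {u : ℂ} (h : u - tau ∈ LG.lattice) : hG u = 0 := by
  have h1 : XG u = XG (tau + (u - tau)) := by congr 1; ring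
  rw [hG, h1, XG_add_coe _ h, XG_tau]
  norm_num

private theorem vp_claim (h2 : V.valuation (2 : ℂ) < 1) {α : GaussianInt} (hα : IsOdd α) (m : ℕ) :
    ∀ u : ℂ, (1 + I) ^ (m + 1) * u ∈ LG.lattice → (1 + I) ^ m * u ∉ LG.lattice →
      (1 ≤ m → V.valuation (hG u) = 1) ∧
      ∀ w : ℂ, w ∉ LG.lattice → (α : ℂ) * w ∈ LG.lattice →
        V.valuation (4 : ℂ) < V.valuation (hG u - hG w) ∧
        V.valuation (hG u - hG w) ^ (2 ^ m) = V.valuation (4 : ℂ) ^ (2 ^ m - 1) := by
  have h4 := vp_v4_lt h2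
  induction m with
  | zero =>
    intro u h1 h3
    rw [zero_add, pow_one] at h1
    rw [pow_zero, one_mul] at h3
    refine ⟨fun h => absurd h (by norm_num), fun w hw hαw => ?_⟩
    have h5 : hG u = 0 := by
      rcases mem_or_tau h1 with h6 | h6
      · exact absurd h6 h3
      · exact vp_tau h6
    have h6 : V.valuation (hG u - hG w) = 1 := by
      rw [h5, zero_sub, Valuation.map_neg]
      exact (val_odd h2 hw hα hαw).1
    rw [h6]
    refine ⟨h4, ?_⟩
    simp
  | succ m ih =>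
    intro u h1 h3
    have h5 : (1 + I) ^ (m + 1) * ((1 + I) * u) ∈ LG.lattice := by
      rw [← mul_assoc, ← pow_succ]
      exact h1
    have h6 : (1 + I) ^ m * ((1 + I) * u) ∉ LG.lattice := by
      rw [← mul_assoc, ← pow_succ]
      exact h3
    have hz : (1 + I) * u ∉ LG.lattice := fun h => h6 (vp_pow_mul m h)
    obtain ⟨ih1, ih2⟩ := ih _ h5 h6
    have hx : V.valuation (hG u) = 1 := by
      rcases Nat.eq_zero_or_pos m with hm | hm
      · subst hm
        rw [zero_add, pow_one] at h5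
        have h7 : hG ((1 + I) * u) = 0 := by
          rcases mem_or_tau h5 with h8 | h8
          · exact absurd h8 hz
          · exact vp_tau h8
        have h9 := hG_one_add_I hz
        rw [h7, mul_zero] at h9
        have h10 : (hG u - 1) ^ 2 = 0 := by linear_combination h9
        have h11 : hG u = 1 := by
          have := pow_eq_zero_iff (two_ne_zero) |>.1 h10
          linear_combination this
        rw [h11, map_one]
      · exact vp_one h2 (hG_one_add_I hz) (ih1 hm)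
    refine ⟨fun _ => hx, fun w hw hαw => ?_⟩
    obtain ⟨hw', hαw'⟩ := vp_w hα hw hαw
    obtain ⟨h7, h8⟩ := ih2 _ hw' hαw'
    obtain ⟨hy, _, hy2⟩ := val_odd h2 hw hα hαw
    have hT := T_sub rfl rfl hz hw'
    have hT' := congrArg V.valuation hT
    rw [map_mul, map_mul, map_mul, hx, hy, mul_one, mul_one, Valuation.map_neg, map_mul] at hT'
    have hxy : hG u * hG w - 1 = hG w * (hG u - hG w) + (hG w ^ 2 - 1) := by ring
    have hgt : V.valuation (4 : ℂ) < V.valuation (hG u - hG w) := by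
      by_contra hle
      rw [not_lt] at hle
      have h9 : V.valuation (hG u * hG w - 1) ≤ V.valuation (4 : ℂ) := by
        rw [hxy]
        refine Valuation.map_add_le _ ?_ hy2.le
        rw [map_mul, hy, one_mul]
        exact hle
      have h10 := mul_le_mul' hle h9
      rw [← hT'] at h10
      have h40 : (0 : V.ValueGroup) < V.valuation (4 : ℂ) :=
        zero_lt_iff.2 ((Valuation.ne_zero_iff _).2 (by norm_num))
      exact absurd h7 (not_lt.2 (le_of_mul_le_mul_left h10 h40))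
    have h9 : V.valuation (hG u * hG w - 1) = V.valuation (hG u - hG w) := by
      rw [hxy, Valuation.map_add_eq_of_lt_left]
      · rw [map_mul, hy, one_mul]
      · rw [map_mul, hy, one_mul]
        exact hy2.trans hgt
    rw [h9, ← pow_two] at hT'
    refine ⟨hgt, ?_⟩
    have h10 : 2 ^ (m + 1) = 2 * 2 ^ m := by rw [pow_succ]; ring
    have h11 : 1 ≤ 2 ^ m := Nat.one_le_two_pow
    rw [h10, pow_mul, ← hT', mul_pow, h8, ← pow_add]
    congr 1
    omega

theorem val_PsiG_pow (h2 : V.valuation (2 : ℂ) < 1) {α : GaussianInt} {n : ℕ} (hn : 2 ≤ n)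
    (hα : IsOdd α) {a : GaussianInt} (ha : IsOdd a) :
    V.valuation (PsiG α (a / (2 ^ n : ℕ))) ^ (2 ^ (2 * n - 1)) =
      V.valuation (2 : ℂ) ^ ((nG α - 1) / 2) := by
  set u : ℂ := (a : ℂ) / (2 ^ n : ℕ) with hu
  have h2n : ((2 ^ n : ℕ) : ℂ) = 2 ^ n := by push_cast; ring
  have hsq : (1 + I) ^ 2 = 2 * I := by
    have : (1 + I) ^ 2 = 1 + 2 * I + I ^ 2 := by ring
    rw [this, I_sq]; ring
  have hpow : (1 + I) ^ (2 * n) * u = I ^ n * a := by
    rw [pow_mul, hsq, mul_pow, hu, h2n]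
    have : (2 : ℂ) ^ n ≠ 0 := pow_ne_zero _ two_ne_zero
    field_simp
  have h1 : (1 + I) ^ (2 * n - 1 + 1) * u ∈ LG.lattice := by
    have h3 : 2 * n - 1 + 1 = 2 * n := by omega
    rw [h3, hpow]
    have h4 : (I ^ n * (a : ℂ)) = (((⟨0, 1⟩ : GaussianInt) ^ n * a : GaussianInt) : ℂ) := by
      have h5 : (((⟨0, 1⟩ : GaussianInt)) : ℂ) = I := by
        simp [GaussianInt.toComplex_def]
      rw [map_mul, map_pow, h5]
    rw [h4]
    exact mem_LG.2 ⟨_, rfl⟩
  have h3 : (1 + I) ^ (2 * n - 1) * u ∉ LG.lattice := by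
    intro h
    obtain ⟨c, hc⟩ := mem_LG.1 h
    have h4 : (1 + I) * (c : ℂ) = I ^ n * a := by
      rw [hc, ← hpow, ← mul_assoc, ← pow_succ']
      congr 2
      omega
    have h5 : ‖(1 + I) * (c : ℂ)‖ ^ 2 = ‖I ^ n * (a : ℂ)‖ ^ 2 := by rw [h4]
    rw [norm_mul, norm_mul, norm_pow, Complex.norm_I, one_pow, one_mul, mul_pow, ← nG_eq,
      ← nG_eq] at h5
    have h6 : ‖(1 : ℂ) + I‖ ^ 2 = 2 := by
      rw [Complex.sq_norm, Complex.normSq_apply]
      simp
      norm_num
    rw [h6] at h5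
    have h7 : 2 * nG c = nG a := by exact_mod_cast h5
    have h8 : Odd (nG a) := ha
    rw [← h7] at h8
    exact (Nat.not_odd_iff_even.2 (even_two_mul _)) h8
  have hcl := (vp_claim h2 hα (2 * n - 1) u h1 h3).2
  set e := 2 ^ (2 * n - 1) with he
  have he1 : 1 ≤ e := Nat.one_le_two_pow
  have hfin := HS_finite hα.ne_zero
  have hcard := HS_card hα
  rw [Set.ncard_eq_toFinset_card _ hfin] at hcard
  set K := hfin.toFinset.card with hK
  have hprod : V.valuation (∏ᶠ t ∈ HS α, (hG u - t)) ^ e =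
      (V.valuation (4 : ℂ) ^ (e - 1)) ^ K := by
    rw [finprod_mem_eq_finite_toFinset_prod _ hfin, map_prod, ← Finset.prod_pow, hK,
      ← Finset.prod_const]
    refine Finset.prod_congr rfl fun t ht => ?_
    obtain ⟨w, ⟨hw1, hw2⟩, rfl⟩ := (Set.Finite.mem_toFinset hfin).1 ht
    exact (hcl w hw1 hw2).2
  have hN : (nG α - 1) / 2 = 2 * K := by omega
  rw [PsiG, hN, map_div₀, map_mul, vp_odd h2 hα, one_mul, div_pow, hprod, map_pow, vp_v4]
  have h20 : V.valuation (2 : ℂ) ≠ 0 := vp_v2_ne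
  rw [div_eq_iff (pow_ne_zero _ (pow_ne_zero _ (pow_ne_zero _ h20))), ← pow_mul, ← pow_mul,
    ← pow_mul, ← pow_add]
  congr 1
  obtain ⟨e', he'⟩ : ∃ e', e = e' + 1 := ⟨e - 1, by omega⟩
  rw [he', Nat.add_sub_cancel]
  ring

end val

end Pool.Agent.CMG
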