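import Pool.Agent.CMG.ValTors
import Pool.Agent.CMG.PsiOrd

/-!
# valuations: PsiG is a unit at odd places

`z = a/N`. `PsiG α z ² = 2^{Nα-1}/(α² ∏_{q≠0}(XG z - XG (tor α q)))` (`HS_prod_sub`), so the claim is
`∏ v(XG z - XG w) = v(α)⁻²`, `w` over `E[α] ∖ 0`. `z ∉ InE`: otherwise `(N/2) z ∈ InE` is killed by `2`,
so it is in `L` (`mem_of_InE`, `v(2) = 1`), but `a` is prime to `N`. If `w ∈ InE` then
`v(XG z - XG w) = v(XG w)`. If `w ∉ InE`: `v(XG z - XG w) = 1`, otherwise `z ± w ∈ InE`
(`InE_of_XG_sub`), so `αz ∈ InE` and `N w ∈ InE`, thus `w ∈ InE` (`N` is prime to `α`, `αw ∈ L`), a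
contradiction; moreover `v(XG w) = 1`: otherwise `v(XG w - XG τ) < 1` (`XG τ = 0`, `τ ∉ InE`),
`w ± τ ∈ InE`, `α(w ± τ) ≡ ±τ ∈ InE` (`odd_mul_tau`), contradiction. So in both cases
`v(XG z - XG w) = v(XG w)` and the product is `v(∏ XG w) = v(±α⁻²)` by `T5`.
-/

set_option autoImplicit false

noncomputable section

open Complex Filter Topology
open scoped PeriodPair Classical


namespace Pool.Agent.CMG

section val

variable {V : ValuationSubring ℂ}

private theorem isOdd_of_coprime {α : GaussianInt} {N : ℕ} (hN : 4 ∣ N)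
    (hα : IsCoprime α (N : GaussianInt)) : IsOdd α := by
  obtain ⟨M, rfl⟩ := hN
  obtain ⟨u, v, h⟩ := hα
  by_contra hodd
  rw [IsOdd, Nat.not_odd_iff_even] at hodd
  have he : Even (Zsqrtd.norm α) := by
    rw [nG] at hodd
    exact Int.natAbs_even.1 hodd
  obtain ⟨a, b⟩ := α
  obtain ⟨c, d⟩ := u
  obtain ⟨e, f⟩ := v
  rw [Zsqrtd.norm_def] at he
  replace he : Even (a * a + b * b) := by
    have e : a * a + b * b = a * a - -1 * b * b := by ring
    rw [e]; exact he
  have hre := congrArg Zsqrtd.re h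
  have him := congrArg Zsqrtd.im h
  simp only [Zsqrtd.re_add, Zsqrtd.im_add, Zsqrtd.re_mul, Zsqrtd.im_mul, Zsqrtd.re_one,
    Zsqrtd.im_one, Zsqrtd.re_natCast, Zsqrtd.im_natCast] at hre him
  have h1 : ¬ Even (c * a - d * b) := by
    rw [Int.not_even_iff_odd]
    refine ⟨-(2 * e * M), ?_⟩
    push_cast at hre
    linarith
  have h2 : Even (c * b + d * a) := by
    refine ⟨-(2 * f * M), ?_⟩
    push_cast at him
    linarith
  simp only [Int.even_add, Int.even_sub, Int.even_mul] at he h1 h2
  tauto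

private theorem InE_of_mem {u : ℂ} (h : u ∈ LG.lattice) : InE V u := Or.inl h

private theorem not_InE_tau : ¬ InE V tau := by
  rintro (h | h)
  · exact tau_notMem.1 h
  · rw [XG_tau, map_zero] at h
    exact absurd h (not_lt.2 zero_le)

private theorem finprod_ne' {α : GaussianInt} [Fintype (GaussianInt ⧸ Ideal.span {α})]
    (f : (GaussianInt ⧸ Ideal.span {α}) → ℂ) :
    ∏ᶠ (q : GaussianInt ⧸ Ideal.span {α}) (_ : q ≠ 0), f q =
      ∏ q ∈ Finset.univ.filter (fun q : GaussianInt ⧸ Ideal.span {α} => q ≠ 0), f q := by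
  rw [← finprod_mem_coe_finset]
  refine finprod_congr fun q => ?_
  have : (q ≠ 0) = (q ∈ ((Finset.univ.filter
      (fun q : GaussianInt ⧸ Ideal.span {α} => q ≠ 0) : Finset _) : Set _)) := by
    simp
  rw [this]

private theorem not_InE_div (h2 : V.valuation (2 : ℂ) = 1) {N : ℕ} (hN : 4 ∣ N)
    (hN0 : N ≠ 0) {a : GaussianInt} (ha : IsCoprime a (N : GaussianInt)) :
    ¬ InE V ((a : ℂ) / N) := by
  intro h
  obtain ⟨M, rfl⟩ := hN
  have hM : (M : ℂ) ≠ 0 := by
    intro h0
    apply hN0
    have : M = 0 := by exact_mod_cast h0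
    rw [this]
  have h1 := h.mul ((2 * M : ℕ) : GaussianInt)
  have hc : (((2 : GaussianInt)) : ℂ) = 2 := map_ofNat GaussianInt.toComplex 2
  have e1 : (((2 * M : ℕ) : GaussianInt) : ℂ) * ((a : ℂ) / ((4 * M : ℕ) : ℂ)) =
      (a : ℂ) / ((2 : GaussianInt) : ℂ) := by
    rw [hc]
    simp only [map_natCast]
    push_cast
    field_simp
    ring
  rw [e1] at h1
  have h3 : (2 : GaussianInt) ∣ a := by
    rw [← div_mem_iff (by norm_num : (2 : GaussianInt) ≠ 0)]
    refine mem_of_InE (V := V) (α := (2 : GaussianInt)) (by rw [hc]; exact h2) ?_ h1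
    rw [mem_LG]
    refine ⟨a, ?_⟩
    rw [hc]
    field_simp
  obtain ⟨u, v, huv⟩ := ha
  have h4 : (2 : GaussianInt) ∣ 1 := by
    rw [← huv]
    refine dvd_add (h3.mul_left u) (Dvd.dvd.mul_left ?_ v)
    exact ⟨((2 * M : ℕ) : GaussianInt), by push_cast; ring⟩
  obtain ⟨c, hc'⟩ := h4
  have := congrArg Zsqrtd.re hc'
  obtain ⟨x, y⟩ := c
  simp [Zsqrtd.re_mul] at this
  omega

private theorem val_eq_one_of_sq {x : ℂ} (h : V.valuation x ^ 2 = 1) : V.valuation x = 1 := by
  rcases lt_trichotomy (V.valuation x) 1 with h1 | h1 | h1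
  · exact absurd h (ne_of_lt (pow_lt_one' h1 two_ne_zero))
  · exact h1
  · exact absurd h (ne_of_gt (one_lt_pow' h1 two_ne_zero))

theorem val_PsiG_of_two (h2 : V.valuation (2 : ℂ) = 1) {α : GaussianInt} {N : ℕ} (hN : 4 ∣ N)
    (hN0 : N ≠ 0) (hα : IsCoprime α (N : GaussianInt)) {a : GaussianInt} (ha : IsCoprime a (N : GaussianInt)) :
    V.valuation (PsiG α (a / N)) = 1 := by
  have hodd : IsOdd α := isOdd_of_coprime hN hα
  have hα0 : α ≠ 0 := hodd.ne_zero
  have hαC : (α : ℂ) ≠ 0 := by
    intro h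
    exact hα0 (by exact_mod_cast (GaussianInt.toComplex_eq_zero).1 h)
  have hNC : (N : ℂ) ≠ 0 := by exact_mod_cast hN0
  have hzin : ¬ InE V ((a : ℂ) / N) := not_InE_div h2 hN hN0 ha
  set z : ℂ := (a : ℂ) / N with hz
  have hzv : V.valuation (XG z) ≤ 1 := by
    by_contra h
    exact hzin (Or.inr (not_le.1 h))
  have := finite_quot hα0
  letI := Fintype.ofFinite (GaussianInt ⧸ Ideal.span {α})
  -- the valuations of the factors
  have key : ∀ q : GaussianInt ⧸ Ideal.span {α}, q ≠ 0 →
      V.valuation (XG z - XG (tor α q)) = V.valuation (XG (tor α q)) := by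
    intro q hq
    set w := tor α q with hw
    have hwL : w ∉ LG.lattice := fun h => hq ((tor_mem_iff hα0 q).1 h)
    have hαw : (α : ℂ) * w ∈ LG.lattice := mul_tor_mem hα0 q
    by_cases hwin : InE V w
    · have h1 : 1 < V.valuation (XG w) := by
        rcases hwin with h | h
        · exact absurd h hwL
        · exact h
      exact Valuation.map_sub_eq_of_lt_right _ (lt_of_le_of_lt hzv h1)
    · have hwv : V.valuation (XG w) ≤ 1 := by
        by_contra h
        exact hwin (Or.inr (not_le.1 h))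
      have h1 : V.valuation (XG w) = 1 := by
        refine le_antisymm hwv (not_lt.1 fun hlt => ?_)
        have h3 : V.valuation (XG w - XG tau) < 1 := by rw [XG_tau, sub_zero]; exact hlt
        rcases InE_of_XG_sub h2 hwin not_InE_tau h3 with h | h
        · have h4 := (h.mul α).add ((InE_of_mem (V := V) hαw).neg.add
            (InE_of_mem (V := V) (odd_mul_tau hodd)).neg)
          apply not_InE_tau (V := V)
          convert h4 using 1; ring
        · have h4 := (h.mul α).add ((InE_of_mem (V := V) hαw).neg.add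
            (InE_of_mem (V := V) (odd_mul_tau hodd)))
          apply not_InE_tau (V := V)
          convert h4.neg using 1; ring
      rw [h1]
      refine le_antisymm ((Valuation.map_sub _ _ _).trans (max_le hzv hwv))
        (not_lt.1 fun hlt => ?_)
      have haL : InE V (a : ℂ) := InE_of_mem (mem_LG.2 ⟨a, rfl⟩)
      have hNz : ((N : GaussianInt) : ℂ) * z = a := by
        rw [hz, map_natCast]
        field_simp
      have hNw : InE V (((N : GaussianInt) : ℂ) * w) := by
        rcases InE_of_XG_sub h2 hzin hwin hlt with h | h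
        · have h4 := (h.mul (N : GaussianInt)).add haL.neg
          convert h4 using 1
          linear_combination -hNz
        · have h4 := (h.mul (N : GaussianInt)).add haL.neg
          convert h4.neg using 1
          linear_combination hNz
      obtain ⟨u, v, huv⟩ := hα
      apply hwin
      have h5 := ((InE_of_mem (V := V) hαw).mul u).add (hNw.mul v)
      convert h5 using 1
      have h6 := congrArg (fun x : GaussianInt => (x : ℂ)) huv
      simp only [GaussianInt.toComplex_add, GaussianInt.toComplex_mul,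
        GaussianInt.toComplex_one] at h6
      linear_combination (-w) * h6
  obtain ⟨ε, hε, -, hprod⟩ := T5 hodd
  have hεv : V.valuation ε = 1 := by
    apply val_eq_one_of_sq
    rw [← map_pow, hε, map_one]
  have hP : V.valuation (∏ᶠ t ∈ HS α, (hG z - t)) ^ 2 * V.valuation (α : ℂ) ^ 2 = 1 := by
    rw [← map_pow, HS_prod_sub hodd z, finprod_ne', map_prod]
    rw [Finset.prod_congr rfl (fun q hq => key q (by simpa using hq)), ← map_prod, ← finprod_ne',
      hprod, map_div₀, map_pow, hεv]
    have : V.valuation (α : ℂ) ≠ 0 := (Valuation.ne_zero_iff _).2 hαC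
    field_simp
  apply val_eq_one_of_sq
  rw [PsiG, map_div₀, map_mul, map_pow, h2, one_pow, div_pow, one_pow, mul_pow, mul_comm, hP,
    div_one]

end val

end Pool.Agent.CMG
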