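import Pool.Agent.CMG.EpsG
import Pool.Agent.CMG.KronG
import Pool.Agent.CMG.GalTN
import Pool.Agent.CMG.ValFrob
import Pool.Agent.CMG.ValUnit
import Pool.Agent.CMG.ValNP
import Pool.Agent.CMG.ValPow
import Pool.Agent.CMG.PsiSymm
import Pool.Agent.CMG.SMisc

/-!
# assembly: EllData for Q(i)

`h = hG`, `Ψ α = PsiG (e α)`, `e` from `exists_iso`, `N₀ = 4`, `m = 1`, `B = 2`. `α` prime to `N`, `4 ∣ N`
implies `α` odd. `val`: if `N = 2^n`: `K = 2^{2n-1}`, `L = (Nα - 1)/2` (both sides `1` if `v(2) = 1`,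
`val_PsiG_of_two`); otherwise `K = 1`, `L = 0`. `nrm α = nG (e α)`: `nrm_eq_of`, `nG_eq`.
-/

set_option autoImplicit false

noncomputable section

open Complex Filter Topology NumberField
open scoped PeriodPair Classical

namespace Pool.Agent.CMG

namespace EllG

theorem hG_add_coe (z : ℂ) {l : ℂ} (hl : l ∈ LG.lattice) : hG (z + l) = hG z := by
  unfold hG
  rw [XG_add_coe z hl]

theorem hG_unit_mul {ε : GaussianInt} (hε : IsUnit ε) (z : ℂ) : hG (ε * z) = hG z := by
  by_cases hz : z ∈ LG.lattice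
  · have h1 := hG_add_coe 0 (mul_mem_LG ε hz)
    have h2 := hG_add_coe 0 hz
    rw [zero_add] at h1 h2
    rw [h1, h2]
  · have hz' : (ε : ℂ) * z ∉ LG.lattice := by
      intro h
      obtain ⟨δ, hδ⟩ := hε.exists_left_inv
      have := mul_mem_LG δ h
      rw [← mul_assoc, ← map_mul, hδ, map_one, one_mul] at this
      exact hz this
    refine (hG_eq_iff hz' hz).2 ⟨ε, hε, ?_⟩
    rw [sub_self]
    exact zero_mem _

theorem mul_div_notMem {N : ℕ} (hN : 4 ∣ N) (hN0 : N ≠ 0) {α a : GaussianInt}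
    (hα : IsCoprime α (N : GaussianInt)) (ha : IsCoprime a (N : GaussianInt)) :
    (α : ℂ) * (a / N) ∉ LG.lattice := by
  have := GalTN.notMem_of_coprime hN hN0 (hα.mul_left ha)
  rwa [map_mul, mul_div_assoc] at this

variable {V : ValuationSubring ℂ}

theorem val_le_one (a : GaussianInt) : V.valuation (a : ℂ) ≤ 1 := by
  rw [ValuationSubring.valuation_le_one_iff]
  have hI : I ∈ V := by
    by_contra h
    have h1 := V.mem_or_inv_mem I
    rcases h1 with h1 | h1
    · exact h h1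
    · rw [Complex.inv_I] at h1
      exact h (by simpa using neg_mem h1)
  rw [GaussianInt.toComplex_def]
  exact add_mem (intCast_mem V _) (mul_mem (intCast_mem V _) hI)

theorem val_natCast {π : GaussianInt} {N : ℕ} (hπ : IsCoprime π (N : GaussianInt))
    (hV : V.valuation (π : ℂ) < 1) : V.valuation (N : ℂ) = 1 := by
  refine le_antisymm (by simp) ?_
  by_contra h
  rw [not_le] at h
  obtain ⟨x, y, hxy⟩ := hπ
  have h1 : (x : ℂ) * π + y * N = 1 := by
    have := congrArg GaussianInt.toComplex hxy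
    simpa using this
  have h2 : V.valuation ((x : ℂ) * π + y * N) < 1 := by
    refine Valuation.map_add_lt _ ?_ ?_
    · rw [map_mul]
      exact (mul_le_of_le_one_left' (val_le_one x)).trans_lt hV
    · rw [map_mul]
      exact (mul_le_of_le_one_left' (val_le_one y)).trans_lt h
  rw [h1, map_one] at h2
  exact lt_irrefl _ h2

theorem val_two_of {N : ℕ} (hN : 4 ∣ N) (h : V.valuation (N : ℂ) = 1) :
    V.valuation (2 : ℂ) = 1 := by
  obtain ⟨t, rfl⟩ := hN
  refine le_antisymm (by simp) ?_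
  by_contra h2
  rw [not_le] at h2
  have h1 : ((4 * t : ℕ) : ℂ) = 2 * ((2 * t : ℕ) : ℂ) := by push_cast; ring
  rw [h1, map_mul] at h
  have h3 : V.valuation ((2 * t : ℕ) : ℂ) ≤ 1 :=
    (V.valuation_le_one_iff _).2 (natCast_mem V _)
  have h4 := (mul_le_of_le_one_right' h3).trans_lt h2
  rw [h] at h4
  exact lt_irrefl _ h4

theorem notInE {N : ℕ} (hN : 4 ∣ N) (hN0 : N ≠ 0) {π a : GaussianInt}
    (hπ : IsCoprime π (N : GaussianInt)) (hV : V.valuation (π : ℂ) < 1)
    (ha : IsCoprime a (N : GaussianInt)) : ¬ InE V (a / N : ℂ) := by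
  intro h
  refine GalTN.notMem_of_coprime hN hN0 ha (mem_of_InE (α := (N : GaussianInt)) ?_ ?_ h)
  · rw [GalTN.natCast_coe]
    exact val_natCast hπ hV
  · rw [GalTN.natCast_coe, mul_div_cancel₀ _ (Nat.cast_ne_zero.2 hN0)]
    exact mem_LG.2 ⟨a, rfl⟩

theorem frob_aux {N : ℕ} (hN : 4 ∣ N) (hN0 : N ≠ 0) {π a : GaussianInt} (hπp : Prime π)
    (hπ : IsCoprime π (N : GaussianInt)) (hV : V.valuation (π : ℂ) < 1)
    (ha : IsCoprime a (N : GaussianInt)) :
    hG (a / N) ∈ V ∧ V.valuation (hG (π * a / N) - hG (a / N) ^ nG π) < 1 := by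
  have h1 := notInE hN hN0 hπ hV ha
  constructor
  · rw [← ValuationSubring.valuation_le_one_iff]
    have h2 : V.valuation (XG (a / N)) ≤ 1 := by
      rw [InE, not_or, not_lt] at h1
      exact h1.2
    unfold hG
    rw [map_pow]
    exact pow_le_one' h2 2
  · rw [mul_div_assoc]
    exact frobG hπp (GalTN.isOdd_of_coprime hN hπ) hV h1 (mul_div_notMem hN hN0 hπ ha)

theorem red_aux {N : ℕ} (hN : 4 ∣ N) (hN0 : N ≠ 0) {π a b : GaussianInt}
    (hπ : IsCoprime π (N : GaussianInt)) (hV : V.valuation (π : ℂ) < 1)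
    (ha : IsCoprime a (N : GaussianInt)) (hb : IsCoprime b (N : GaussianInt))
    (h : V.valuation (hG (a / N) - hG (b / N)) < 1) : hG (a / N) = hG (b / N) := by
  have h1 := val_natCast hπ hV
  have h2 : ∀ c : GaussianInt, ((N : GaussianInt) : ℂ) * (c / N) ∈ LG.lattice := by
    intro c
    rw [GalTN.natCast_coe, mul_div_cancel₀ _ (Nat.cast_ne_zero.2 hN0)]
    exact mem_LG.2 ⟨c, rfl⟩
  exact red_injG (n := (N : GaussianInt)) (by rwa [GalTN.natCast_coe]) (val_two_of hN h1)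
    (h2 a) (h2 b) (GalTN.notMem_of_coprime hN hN0 ha) (GalTN.notMem_of_coprime hN hN0 hb) h

theorem two_lt {V : ValuationSubring ℂ} (h : ¬ V.valuation (2 : ℂ) < 1) :
    V.valuation (2 : ℂ) = 1 :=
  le_antisymm (by simp) (not_lt.1 h)

theorem val_one_aux {N : ℕ} (hN : 4 ∣ N) (hN0 : N ≠ 0) (hN' : ¬ IsPrimePow N) {α a : GaussianInt}
    (hα : IsCoprime α (N : GaussianInt)) (ha : IsCoprime a (N : GaussianInt)) :
    V.valuation (PsiG α (a / N)) = 1 := by
  by_cases h2 : V.valuation (2 : ℂ) < 1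
  · exact val_PsiG_not_pow h2 hN hN0 hN' hα ha
  · exact val_PsiG_of_two (two_lt h2) hN hN0 hα ha

theorem val_aux {N : ℕ} (hN : 4 ∣ N) (hN0 : N ≠ 0) {α : GaussianInt}
    (hα : IsCoprime α (N : GaussianInt)) :
    ∃ K L : ℕ, 0 < K ∧ ∀ (V : ValuationSubring ℂ) (a : GaussianInt),
      IsCoprime a (N : GaussianInt) →
      V.valuation (PsiG α (a / N)) ^ K = V.valuation ((2 : ℕ) : ℂ) ^ L := by
  by_cases hN' : IsPrimePow N
  · obtain ⟨p, n, hp, hn, rfl⟩ := (isPrimePow_nat_iff _).1 hN'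
    have hp2 : p = 2 := by
      have h1 : 2 ∣ p ^ n := dvd_trans (by norm_num) hN
      exact ((Nat.prime_dvd_prime_iff_eq Nat.prime_two hp).1 (Nat.prime_two.dvd_of_dvd_pow h1)).symm
    subst hp2
    have hn2 : 2 ≤ n := by
      have h1 : 2 ^ 2 ∣ 2 ^ n := hN
      exact (Nat.pow_dvd_pow_iff_le_right (by norm_num)).1 h1
    refine ⟨2 ^ (2 * n - 1), (nG α - 1) / 2, by positivity, fun V a ha => ?_⟩
    rw [Nat.cast_ofNat]
    by_cases h2 : V.valuation (2 : ℂ) < 1
    · exact val_PsiG_pow h2 hn2 (GalTN.isOdd_of_coprime hN hα) (GalTN.isOdd_of_coprime hN ha)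
    · rw [val_PsiG_of_two (two_lt h2) hN hN0 hα ha, two_lt h2, one_pow, one_pow]
  · refine ⟨1, 0, one_pos, fun V a ha => ?_⟩
    rw [pow_one, pow_zero]
    exact val_one_aux hN hN0 hN' hα ha

section

variable {k : Type} [Field k] [NumberField k] [Algebra k ℂ]

theorem act_aux (hI : ∃ j : k, algebraMap k ℂ j = I) {N : ℕ} (hN : 4 ∣ N) (hN0 : N ≠ 0)
    {x : ℂ} (hx : x = 1 / N)
    (h1 : ∀ a : GaussianInt, IsCoprime a (N : GaussianInt) →
      hG (a / N) ∈ IntermediateField.adjoin k {hG x})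
    (h2 : ∀ α a : GaussianInt, IsCoprime α (N : GaussianInt) → IsCoprime a (N : GaussianInt) →
      PsiG α (a / N) ∈ IntermediateField.adjoin k {hG x})
    (τ : IntermediateField.adjoin k {hG x} ≃ₐ[k] IntermediateField.adjoin k {hG x}) :
    ∃ c : GaussianInt, IsCoprime c (N : GaussianInt) ∧
    (∀ (a : GaussianInt) (ha : IsCoprime a (N : GaussianInt)),
      (τ ⟨hG (a / N), h1 a ha⟩ : ℂ) = hG (c * a / N)) ∧
    ∀ (α a : GaussianInt) (hα : IsCoprime α (N : GaussianInt))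
      (ha : IsCoprime a (N : GaussianInt)),
      (τ ⟨PsiG α (a / N), h2 α a hα ha⟩ : ℂ) = PsiG α (c * a / N) := by
  subst hx
  exact act_TN hI hN hN0 τ

end

end EllG

open EllG GalTN in
theorem exists_ellData {k : Type} [Field k] [NumberField k] [Algebra k ℂ]
    (hk : Module.finrank ℚ k = 2) (hI : ∃ j : k, algebraMap k ℂ j = I) :
    ∃ D : EllData k, D.N₀ = 4 ∧ D.m = 1 ∧ D.h = hG := by
  obtain ⟨e, he⟩ := exists_iso hk hI
  have hc := isTotallyComplex_of_I hk hI
  have hpt : ∀ (a : 𝓞 k) (N : ℕ), pt a N = (e a : ℂ) / N := fun a N => by rw [pt, ← he]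
  have hpt1 : ∀ N : ℕ, pt (1 : 𝓞 k) N = 1 / N := fun N => by rw [hpt, map_one, map_one]
  have hcop : ∀ {a : 𝓞 k} {N : ℕ}, IsCoprime a (N : 𝓞 k) →
      IsCoprime (e a) (N : GaussianInt) := by
    intro a N h
    have := h.map (e : 𝓞 k →+* GaussianInt)
    simpa using this
  have hcop1 : ∀ {a : 𝓞 k} {N : ℕ}, IsCoprime a ((1 * N : ℕ) : 𝓞 k) →
      IsCoprime (e a) (N : GaussianInt) := by
    intro a N h
    rw [one_mul] at h
    exact hcop h
  have hnrm : ∀ α : 𝓞 k, nrm α = nG (e α) := by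
    intro α
    have h1 := nrm_eq_of hk hc α
    rw [← he, ← nG_eq] at h1
    exact_mod_cast h1
  have hdvd : ∀ {a b : 𝓞 k} {N : ℕ}, N ≠ 0 → (N : 𝓞 k) ∣ a - b → ∃ l ∈ LG.lattice,
      pt a N = pt b N + l := by
    intro a b N hN0 ⟨c, hc⟩
    refine ⟨e c, mem_LG.2 ⟨e c, rfl⟩, ?_⟩
    rw [hpt, hpt]
    have h1 : e a = e b + N * e c := by
      have := congrArg e hc
      rw [map_sub, map_mul, map_natCast] at this
      linear_combination this
    have hN : (N : ℂ) ≠ 0 := Nat.cast_ne_zero.2 hN0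
    rw [h1, map_add, map_mul, natCast_coe]
    field_simp
  have hunit : ∀ ε : (𝓞 k)ˣ, IsUnit (e (ε : 𝓞 k)) := fun ε => ε.isUnit.map e
  have hcongr : ∀ (N : ℕ) (a b : 𝓞 k), N ≠ 0 → (N : 𝓞 k) ∣ a - b →
      hG (pt a N) = hG (pt b N) := by
    intro N a b hN0 h
    obtain ⟨l, hl, h'⟩ := hdvd hN0 h
    rw [h', hG_add_coe _ hl]
  have hhunit : ∀ (N : ℕ) (a : 𝓞 k) (ε : (𝓞 k)ˣ), hG (pt ((ε : 𝓞 k) * a) N) = hG (pt a N) := by
    intro N a ε
    rw [hpt, hpt, map_mul, map_mul, mul_div_assoc]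
    exact hG_unit_mul (hunit ε) _
  refine ⟨{
    pid := IsPrincipalIdealRing.of_surjective (e.symm : GaussianInt →+* 𝓞 k) e.symm.surjective
    finrank_eq := hk
    isComplex := hc
    N₀ := 4
    m := 1
    B := 2
    N₀_pos := by norm_num
    m_pos := by norm_num
    B_pos := by norm_num
    two_dvd := by norm_num
    h := hG
    Ψ := fun α => PsiG (e α)
    units_inj := ?_
    h_congr := fun N a b _ hN0 h => hcongr N a b hN0 h
    h_unit := hhunit
    h_inj := ?_
    isGalois := ?_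
    finite := ?_
    h_mem := ?_
    Ψ_mem := ?_
    act := ?_
    Ψ_congr := ?_
    Ψ_unit := ?_
    Ψ_ne := ?_
    frob := ?_
    red_inj := ?_
    Ψ_symm := ?_
    val := ?_
    val_one := ?_
    epstein := ?_
    kron := ?_ }, rfl, rfl, rfl⟩
  · -- units_inj
    rintro ε ⟨t, ht⟩
    have h1 : e (ε : 𝓞 k) - 1 = 4 * e t := by
      have := congrArg e ht
      rwa [map_sub, map_one, map_mul, map_natCast] at this
    have h2 : nG (e (ε : 𝓞 k)) = 1 := by
      obtain ⟨u, hu⟩ := hunit ε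
      have h3 : nG (u : GaussianInt) * nG ((u⁻¹ : GaussianIntˣ) : GaussianInt) = 1 := by
        rw [← nG_mul, ← Units.val_mul, mul_inv_cancel, Units.val_one]
        rfl
      rw [← hu]
      exact Nat.eq_one_of_mul_eq_one_right h3
    have h3 : ‖((e (ε : 𝓞 k) : GaussianInt) : ℂ)‖ = 1 := by
      have := nG_eq (e (ε : 𝓞 k))
      rw [h2, Nat.cast_one] at this
      exact (pow_eq_one_iff_of_nonneg (norm_nonneg _) two_ne_zero).1 this.symm
    have h4 : ‖(4 : ℂ) * (e t : ℂ)‖ ≤ 2 := by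
      have h5 : (4 : ℂ) * (e t : ℂ) = (e (ε : 𝓞 k) : ℂ) - 1 := by
        have := congrArg GaussianInt.toComplex h1
        rw [map_sub, map_one, map_mul, map_ofNat] at this
        exact this.symm
      rw [h5]
      refine (norm_sub_le _ _).trans ?_
      rw [h3, norm_one]
      norm_num
    have h5 : nG (e t) = 0 := by
      have h6 := nG_eq (e t)
      have h7 : (nG (e t) : ℝ) < 1 := by
        rw [h6]
        rw [norm_mul] at h4
        have : ‖(4 : ℂ)‖ = 4 := by norm_num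
        rw [this] at h4
        nlinarith [norm_nonneg (e t : ℂ)]
      have h8 : nG (e t) < 1 := by exact_mod_cast h7
      omega
    have h6 : e t = 0 := by
      have := nG_eq (e t)
      rw [h5, Nat.cast_zero] at this
      have h7 : (e t : ℂ) = 0 := norm_eq_zero.1 (pow_eq_zero_iff two_ne_zero |>.1 this.symm)
      rwa [GaussianInt.toComplex_eq_zero] at h7
    rw [h6, mul_zero, sub_eq_zero] at h1
    refine Units.ext (e.injective ?_)
    rw [h1, Units.val_one, map_one]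
  · -- h_inj
    intro N a b hN hN0 ha hb h
    rw [hpt, hpt, hG_eq_iff (notMem_of_coprime hN hN0 (hcop ha))
      (notMem_of_coprime hN hN0 (hcop hb))] at h
    obtain ⟨ε, hε, hεl⟩ := h
    obtain ⟨u, hu⟩ := hε.map (e.symm : GaussianInt →+* 𝓞 k)
    refine ⟨u, ?_⟩
    have h1 : (e a : ℂ) / N - ε * (e b / N) = ((e a - ε * e b : GaussianInt) : ℂ) / N := by
      rw [map_sub, map_mul]
      ring
    rw [h1, div_mem_iff' hN0] at hεl
    have h2 := map_dvd (e.symm : GaussianInt →+* 𝓞 k) hεl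
    rw [hu]
    simpa using h2
  · intro N hN hN0
    rw [hpt1]
    exact isGalois_TN hI hN hN0
  · intro N hN hN0
    rw [hpt1]
    exact finite_TN hI hN hN0
  · intro N a hN hN0 ha
    rw [hpt1, hpt]
    exact hG_mem hI hN hN0 (hcop ha)
  · intro N α a hN hN0 hα ha
    rw [hpt1, hpt]
    exact PsiG_mem hI hN hN0 (hcop1 hα) (hcop ha)
  · -- act
    intro N hN hN0 τ
    obtain ⟨c, hcN, hc1, hc2⟩ := act_aux hI hN hN0 (hpt1 N)
      (fun a ha => by rw [hpt1]; exact hG_mem hI hN hN0 ha)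
      (fun α a hα ha => by rw [hpt1]; exact PsiG_mem hI hN hN0 hα ha) τ
    have hc' : ∀ a : 𝓞 k, pt (e.symm c * a) N = c * e a / N := by
      intro a
      rw [hpt, map_mul, RingEquiv.apply_symm_apply, map_mul]
    refine ⟨e.symm c, ?_, ?_, ?_⟩
    · have := hcN.map (e.symm : GaussianInt →+* 𝓞 k)
      simpa using this
    · intro a ha
      rw [hc', ← hc1 (e a) (hcop ha)]
      exact congrArg (fun x => (τ x : ℂ)) (Subtype.ext (congrArg hG (hpt a N)))
    · intro α a hα ha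
      rw [hc', ← hc2 (e α) (e a) (hcop1 hα) (hcop ha)]
      exact congrArg (fun x => (τ x : ℂ)) (Subtype.ext (congrArg (PsiG (e α)) (hpt a N)))
  · intro N α a b hN hN0 _ h
    exact PsiG_congr (hcongr N a b hN0 h)
  · intro N α a ε hN hN0 _
    exact PsiG_congr (hhunit N a ε)
  · intro N α a hN hN0 hα ha
    rw [hpt]
    exact PsiG_ne_zero (isOdd_of_coprime hN (hcop1 hα)) (mul_div_notMem hN hN0 (hcop1 hα) (hcop ha))
  · intro N V π a hN hN0 hπp hπ hV ha
    rw [← he] at hV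
    rw [hpt, hpt, map_mul, map_mul, hnrm]
    exact frob_aux hN hN0 ((MulEquiv.prime_iff e).2 hπp) (hcop hπ) hV (hcop ha)
  · intro N V π a b hN hN0 hπp hπ hV ha hb h
    rw [← he] at hV
    rw [hpt, hpt] at h ⊢
    exact red_aux hN hN0 (hcop hπ) hV (hcop ha) (hcop hb) h
  · -- symmetry
    intro N α β a hN hN0 hα hβ ha
    have h1 : ∀ x : 𝓞 k, pt (x * a) N = (e x : ℂ) * (e a / N) := by
      intro x
      rw [hpt, map_mul, map_mul, mul_div_assoc]
    rw [h1, h1, hpt, hnrm, hnrm]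
    refine PsiG_symm (isOdd_of_coprime hN (hcop1 hα)) (isOdd_of_coprime hN (hcop1 hβ)) ?_
    have := mul_div_notMem hN hN0 ((hcop1 hα).mul_left (hcop1 hβ)) (hcop ha)
    rwa [map_mul] at this
  · intro N α hN hN0 hα
    obtain ⟨K, L, hK, h⟩ := val_aux hN hN0 (hcop1 hα)
    refine ⟨K, L, hK, fun V a ha => ?_⟩
    rw [hpt]
    exact h V (e a) (hcop ha)
  · intro N α V a hN hN0 hN' hα ha
    rw [hpt]
    exact val_one_aux hN hN0 hN' (hcop1 hα) (hcop ha)
  · intro N a hN hN0 ha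
    rw [hpt]
    exact exists_epstein hk hI (notMem_of_coprime hN hN0 (hcop ha))
  · -- Kronecker
    intro N α a Z₁ Z₂ hN hN0 hα ha h1 h2
    have h3 : pt (α * a) N = (e α : ℂ) * (e a / N) := by
      rw [hpt, map_mul, map_mul, mul_div_assoc]
    rw [hpt] at h1
    rw [h3] at h2
    have n1 := notMem_of_coprime hN hN0 (hcop ha)
    have n2 := mul_div_notMem hN hN0 (hcop1 hα) (hcop ha)
    rw [deriv_epstein hk hI n1 h1, deriv_epstein hk hI n2 h2, hpt, hnrm,
      ← kronG (isOdd_of_coprime hN (hcop1 hα)) n2]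
    push_cast
    ring

end Pool.Agent.CMG
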