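import Mathlib
import Pool.Agent.StarkRQ.Defs

/-!
# Elliptic units: the data used for the construction of Stark units

`k` is an imaginary quadratic field contained in `ℂ` in which all ideals are principal.
-/

set_option autoImplicit false

noncomputable section

open NumberField

namespace Pool.Agent.CMG

section

variable (k : Type) [Field k] [NumberField k] [Algebra k ℂ]

variable {k} in
/-- the point `a / N` -/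
def pt (a : 𝓞 k) (N : ℕ) : ℂ := algebraMap k ℂ (a : k) / (N : ℂ)

/-- `Z` is the continuation to `ℂ ∖ {1}` of `∑_{ω ∈ 𝓞 k} |z + ω|^{-2s}`, and `Z 0 = 0`. -/
structure IsEpstein (z : ℂ) (Z : ℂ → ℂ) : Prop where
  diff : DifferentiableOn ℂ Z {1}ᶜ
  sum : ∀ s : ℂ, 1 < s.re → HasSum (fun ω : 𝓞 k =>
    ((‖z + algebraMap k ℂ (ω : k)‖ ^ 2 : ℝ) : ℂ) ^ (-s)) (Z s)
  zero : Z 0 = 0

variable {k} in
/-- the norm of `α` -/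
abbrev nrm (α : 𝓞 k) : ℕ := Ideal.absNorm (Ideal.span {α})

/-- The properties of the Weber function `h` and of the elliptic functions `Ψ α` (with divisor
`N(α) (0) - E[α]`) which are used for the construction of Stark units. -/
structure EllData where
  pid : IsPrincipalIdealRing (𝓞 k)
  finrank_eq : Module.finrank ℚ k = 2
  isComplex : IsTotallyComplex k
  /-- the levels `N` are the positive multiples of `N₀` -/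
  N₀ : ℕ
  /-- the elements `α` are prime to `m` -/
  m : ℕ
  /-- only the primes over `B` are bad -/
  B : ℕ
  N₀_pos : 0 < N₀
  m_pos : 0 < m
  B_pos : 0 < B
  two_dvd : 2 ∣ m * N₀
  h : ℂ → ℂ
  Ψ : 𝓞 k → ℂ → ℂ
  units_inj : ∀ ε : (𝓞 k)ˣ, (N₀ : 𝓞 k) ∣ (ε : 𝓞 k) - 1 → ε = 1
  h_congr : ∀ (N : ℕ) (a b : 𝓞 k), N₀ ∣ N → N ≠ 0 → (N : 𝓞 k) ∣ a - b → h (pt a N) = h (pt b N)
  h_unit : ∀ (N : ℕ) (a : 𝓞 k) (ε : (𝓞 k)ˣ), h (pt ((ε : 𝓞 k) * a) N) = h (pt a N)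
  h_inj : ∀ (N : ℕ) (a b : 𝓞 k), N₀ ∣ N → N ≠ 0 → IsCoprime a (N : 𝓞 k) →
    IsCoprime b (N : 𝓞 k) → h (pt a N) = h (pt b N) → ∃ ε : (𝓞 k)ˣ, (N : 𝓞 k) ∣ a - (ε : 𝓞 k) * b
  isGalois : ∀ N : ℕ, N₀ ∣ N → N ≠ 0 →
    IsGalois k (IntermediateField.adjoin k {h (pt (1 : 𝓞 k) N)})
  finite : ∀ N : ℕ, N₀ ∣ N → N ≠ 0 →
    FiniteDimensional k (IntermediateField.adjoin k {h (pt (1 : 𝓞 k) N)})
  h_mem : ∀ (N : ℕ) (a : 𝓞 k), N₀ ∣ N → N ≠ 0 → IsCoprime a (N : 𝓞 k) →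
    h (pt a N) ∈ IntermediateField.adjoin k {h (pt (1 : 𝓞 k) N)}
  Ψ_mem : ∀ (N : ℕ) (α a : 𝓞 k), N₀ ∣ N → N ≠ 0 → IsCoprime α ((m * N : ℕ) : 𝓞 k) →
    IsCoprime a (N : 𝓞 k) → Ψ α (pt a N) ∈ IntermediateField.adjoin k {h (pt (1 : 𝓞 k) N)}
  act : ∀ (N : ℕ) (hN : N₀ ∣ N) (hN0 : N ≠ 0)
    (τ : IntermediateField.adjoin k {h (pt (1 : 𝓞 k) N)} ≃ₐ[k]
      IntermediateField.adjoin k {h (pt (1 : 𝓞 k) N)}),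
    ∃ c : 𝓞 k, IsCoprime c (N : 𝓞 k) ∧
      (∀ (a : 𝓞 k) (ha : IsCoprime a (N : 𝓞 k)),
        (τ ⟨h (pt a N), h_mem N a hN hN0 ha⟩ : ℂ) = h (pt (c * a) N)) ∧
      ∀ (α a : 𝓞 k) (hα : IsCoprime α ((m * N : ℕ) : 𝓞 k)) (ha : IsCoprime a (N : 𝓞 k)),
        (τ ⟨Ψ α (pt a N), Ψ_mem N α a hN hN0 hα ha⟩ : ℂ) = Ψ α (pt (c * a) N)
  Ψ_congr : ∀ (N : ℕ) (α a b : 𝓞 k), N₀ ∣ N → N ≠ 0 → IsCoprime α ((m * N : ℕ) : 𝓞 k) →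
    (N : 𝓞 k) ∣ a - b → Ψ α (pt a N) = Ψ α (pt b N)
  Ψ_unit : ∀ (N : ℕ) (α a : 𝓞 k) (ε : (𝓞 k)ˣ), N₀ ∣ N → N ≠ 0 →
    IsCoprime α ((m * N : ℕ) : 𝓞 k) → Ψ α (pt ((ε : 𝓞 k) * a) N) = Ψ α (pt a N)
  Ψ_ne : ∀ (N : ℕ) (α a : 𝓞 k), N₀ ∣ N → N ≠ 0 → IsCoprime α ((m * N : ℕ) : 𝓞 k) →
    IsCoprime a (N : 𝓞 k) → Ψ α (pt a N) ≠ 0
  /-- the congruence of Kronecker and Hasse -/
  frob : ∀ (N : ℕ) (V : ValuationSubring ℂ) (π a : 𝓞 k), N₀ ∣ N → N ≠ 0 → Prime π →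
    IsCoprime π (N : 𝓞 k) → V.valuation (algebraMap k ℂ (π : k)) < 1 → IsCoprime a (N : 𝓞 k) →
    h (pt a N) ∈ V ∧ V.valuation (h (pt (π * a) N) - h (pt a N) ^ nrm π) < 1
  /-- the reduction is injective on points of order `N` -/
  red_inj : ∀ (N : ℕ) (V : ValuationSubring ℂ) (π a b : 𝓞 k), N₀ ∣ N → N ≠ 0 → Prime π →
    IsCoprime π (N : 𝓞 k) → V.valuation (algebraMap k ℂ (π : k)) < 1 → IsCoprime a (N : 𝓞 k) →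
    IsCoprime b (N : 𝓞 k) → V.valuation (h (pt a N) - h (pt b N)) < 1 →
    h (pt a N) = h (pt b N)
  Ψ_symm : ∀ (N : ℕ) (α β a : 𝓞 k), N₀ ∣ N → N ≠ 0 → IsCoprime α ((m * N : ℕ) : 𝓞 k) →
    IsCoprime β ((m * N : ℕ) : 𝓞 k) → IsCoprime a (N : 𝓞 k) →
    Ψ α (pt a N) ^ nrm β * Ψ β (pt (α * a) N) = Ψ β (pt a N) ^ nrm α * Ψ α (pt (β * a) N)
  /-- the valuations of the units -/
  val : ∀ (N : ℕ) (α : 𝓞 k), N₀ ∣ N → N ≠ 0 → IsCoprime α ((m * N : ℕ) : 𝓞 k) →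
    ∃ K L : ℕ, 0 < K ∧ ∀ (V : ValuationSubring ℂ) (a : 𝓞 k), IsCoprime a (N : 𝓞 k) →
      V.valuation (Ψ α (pt a N)) ^ K = V.valuation (B : ℂ) ^ L
  val_one : ∀ (N : ℕ) (α : 𝓞 k) (V : ValuationSubring ℂ) (a : 𝓞 k), N₀ ∣ N → N ≠ 0 →
    ¬ IsPrimePow N → IsCoprime α ((m * N : ℕ) : 𝓞 k) → IsCoprime a (N : 𝓞 k) →
    V.valuation (Ψ α (pt a N)) = 1
  epstein : ∀ (N : ℕ) (a : 𝓞 k), N₀ ∣ N → N ≠ 0 → IsCoprime a (N : 𝓞 k) →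
    ∃ Z : ℂ → ℂ, IsEpstein k (pt a N) Z
  /-- Kronecker's limit formula -/
  kron : ∀ (N : ℕ) (α a : 𝓞 k) (Z₁ Z₂ : ℂ → ℂ), N₀ ∣ N → N ≠ 0 →
    IsCoprime α ((m * N : ℕ) : 𝓞 k) → IsCoprime a (N : 𝓞 k) → IsEpstein k (pt a N) Z₁ →
    IsEpstein k (pt (α * a) N) Z₂ →
    nrm α * deriv Z₁ 0 - deriv Z₂ 0 = ((-2 * Real.log ‖Ψ α (pt a N)‖ : ℝ) : ℂ)

end

end Pool.Agent.CMG
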