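import Pool.Agent.CMG.EDefs
import Pool.Agent.CMG.Interface

/-!
# O_k = Z[i]

`j² = -1`, `k = ℚ(j)` has basis `1, j`; an element `x + yj` is integral iff `x, y ∈ ℤ` (trace `2x`
and norm `x² + y²` are integers, so `2x, 2y ∈ ℤ` and `(2x)² + (2y)² ≡ 0` mod `4` forces both even). The
map `GaussianInt → 𝓞 k`, `a + bi ↦ a + bj` is the inverse of `e`. A real embedding would send `j` to a
square root of `-1`.
-/

set_option autoImplicit false

noncomputable section

open Complex Filter Topology NumberField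
open scoped PeriodPair Classical


namespace Pool.Agent.CMG

private theorem j_sq {k : Type} [Field k] [Algebra k ℂ] {j : k} (hj : algebraMap k ℂ j = I) :
    j ^ 2 = -1 := by
  apply (algebraMap k ℂ).injective
  rw [map_pow, hj, map_neg, map_one, I_sq]

private theorem exists_coord {k : Type} [Field k] [NumberField k] [Algebra k ℂ]
    (hk : Module.finrank ℚ k = 2) {j : k} (hj : algebraMap k ℂ j = I) (a : k) :
    ∃ x y : ℚ, algebraMap k ℂ a = (x : ℂ) + (y : ℂ) * I := by
  have hli : LinearIndependent ℚ ![(1 : k), j] := by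
    rw [LinearIndependent.pair_iff]
    intro s t hst
    have h1 : (s : ℂ) + (t : ℂ) * I = 0 := by
      have h2 := congrArg (algebraMap k ℂ) hst
      rw [map_add, Algebra.smul_def, Algebra.smul_def, map_mul, map_mul, map_one, hj, map_zero,
        mul_one] at h2
      simpa using h2
    have h3 := congrArg Complex.re h1
    have h4 := congrArg Complex.im h1
    simp at h3 h4
    exact ⟨h3, h4⟩
  have hspan := hli.span_eq_top_of_card_eq_finrank (by rw [hk]; simp)
  have ha : a ∈ Submodule.span ℚ (Set.range ![(1 : k), j]) := by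
    rw [hspan]
    trivial
  rw [Matrix.range_cons, Matrix.range_cons, Matrix.range_empty, Set.union_empty,
    Set.singleton_union, Submodule.mem_span_pair] at ha
  obtain ⟨x, y, hxy⟩ := ha
  refine ⟨x, y, ?_⟩
  rw [← hxy, map_add, Algebra.smul_def, Algebra.smul_def, map_mul, map_mul, map_one, hj, mul_one]
  simp

private theorem int_of_rat {x : ℚ} (h : IsIntegral ℤ (x : ℂ)) : ∃ n : ℤ, (n : ℚ) = x := by
  have h1 : IsIntegral ℤ (algebraMap ℚ ℂ x) := by simpa using h
  rw [isIntegral_algebraMap_iff (algebraMap ℚ ℂ).injective] at h1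
  obtain ⟨n, hn⟩ := IsIntegrallyClosed.isIntegral_iff.1 h1
  exact ⟨n, by simpa using hn⟩

private theorem coord_int {x y : ℚ} (h : IsIntegral ℤ ((x : ℂ) + (y : ℂ) * I)) :
    ∃ m n : ℤ, (m : ℚ) = x ∧ (n : ℚ) = y := by
  have hI : IsIntegral ℤ I := by
    refine ⟨Polynomial.X ^ 2 + 1, ?_, ?_⟩
    · have h1 := Polynomial.monic_X_pow_add_C (1 : ℤ) (two_ne_zero)
      rwa [Polynomial.C_1] at h1
    · simp
  have hc : IsIntegral ℤ ((x : ℂ) - (y : ℂ) * I) := by
    have h1 := h.map (Complex.conjAe.toAlgHom.restrictScalars ℤ)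
    simpa [sub_eq_add_neg] using h1
  have h1 : IsIntegral ℤ (((2 * x : ℚ)) : ℂ) := by
    have e : (((2 * x : ℚ)) : ℂ) = ((x : ℂ) + (y : ℂ) * I) + ((x : ℂ) - (y : ℂ) * I) := by
      push_cast
      ring
    rw [e]
    exact h.add hc
  have h2 : IsIntegral ℤ (((2 * y : ℚ)) : ℂ) := by
    have e : (((2 * y : ℚ)) : ℂ) =
        (((x : ℂ) + (y : ℂ) * I) - ((x : ℂ) - (y : ℂ) * I)) * (-I) := by
      push_cast
      linear_combination (2 * (y : ℂ)) * I_sq
    rw [e]
    exact (h.sub hc).mul hI.neg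
  have h3 : IsIntegral ℤ (((x ^ 2 + y ^ 2 : ℚ)) : ℂ) := by
    have e : (((x ^ 2 + y ^ 2 : ℚ)) : ℂ) =
        ((x : ℂ) + (y : ℂ) * I) * ((x : ℂ) - (y : ℂ) * I) := by
      push_cast
      linear_combination ((y : ℂ) ^ 2) * I_sq
    rw [e]
    exact h.mul hc
  obtain ⟨a, ha⟩ := int_of_rat h1
  obtain ⟨b, hb⟩ := int_of_rat h2
  obtain ⟨c, hc'⟩ := int_of_rat h3
  have h4 : a ^ 2 + b ^ 2 = 4 * c := by
    have h5 : ((a ^ 2 + b ^ 2 : ℤ) : ℚ) = ((4 * c : ℤ) : ℚ) := by
      push_cast
      rw [ha, hb, hc']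
      ring
    exact_mod_cast h5
  have h5 : Even a ∧ Even b := by
    rcases Int.even_or_odd a with h | h <;> rcases Int.even_or_odd b with h' | h'
    · exact ⟨h, h'⟩
    · exfalso
      obtain ⟨u, rfl⟩ := h
      obtain ⟨v, rfl⟩ := h'
      ring_nf at h4
      omega
    · exfalso
      obtain ⟨u, rfl⟩ := h
      obtain ⟨v, rfl⟩ := h'
      ring_nf at h4
      omega
    · exfalso
      obtain ⟨u, rfl⟩ := h
      obtain ⟨v, rfl⟩ := h'
      ring_nf at h4
      omega
  obtain ⟨⟨m, hm⟩, ⟨n, hn⟩⟩ := h5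
  refine ⟨m, n, ?_, ?_⟩
  · rw [hm] at ha
    push_cast at ha
    linarith
  · rw [hn] at hb
    push_cast at hb
    linarith

theorem exists_iso {k : Type} [Field k] [NumberField k] [Algebra k ℂ]
    (hk : Module.finrank ℚ k = 2) (hI : ∃ j : k, algebraMap k ℂ j = I) :
    ∃ e : 𝓞 k ≃+* GaussianInt, ∀ a : 𝓞 k, ((e a : GaussianInt) : ℂ) = algebraMap k ℂ (a : k) := by
  obtain ⟨j, hj⟩ := hI
  have h1 : ∀ a : 𝓞 k, ∃ g : GaussianInt, (g : ℂ) = algebraMap k ℂ (a : k) := by
    intro a
    obtain ⟨x, y, hxy⟩ := exists_coord hk hj (a : k)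
    have h2 : IsIntegral ℤ (algebraMap k ℂ (a : k)) := a.isIntegral_coe.algebraMap
    rw [hxy] at h2
    obtain ⟨m, n, rfl, rfl⟩ := coord_int h2
    refine ⟨⟨m, n⟩, ?_⟩
    rw [hxy, GaussianInt.toComplex_def']
    push_cast
    rfl
  have h2 : ∀ g : GaussianInt, ∃ a : 𝓞 k, algebraMap k ℂ (a : k) = (g : ℂ) := by
    intro g
    have hji : IsIntegral ℤ j := by
      refine ⟨Polynomial.X ^ 2 + 1, ?_, ?_⟩
      · have h1 := Polynomial.monic_X_pow_add_C (1 : ℤ) (two_ne_zero)
        rwa [Polynomial.C_1] at h1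
      · simp [j_sq hj]
    refine ⟨(g.re : 𝓞 k) + (g.im : 𝓞 k) * ⟨j, hji⟩, ?_⟩
    rw [GaussianInt.toComplex_def]
    simp [hj]
  choose F hF using h1
  have hinj := GaussianInt.toComplex_injective
  let f : 𝓞 k →+* GaussianInt :=
    { toFun := F
      map_one' := hinj (by rw [hF]; simp)
      map_mul' := fun a b => hinj (by
        rw [hF, GaussianInt.toComplex_mul, hF, hF]; simp)
      map_zero' := hinj (by rw [hF]; simp)
      map_add' := fun a b => hinj (by
        rw [hF, GaussianInt.toComplex_add, hF, hF]; simp) }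
  have hf : Function.Bijective f := by
    constructor
    · intro a b hab
      have h3 : (F a : ℂ) = F b := congrArg _ hab
      rw [hF, hF] at h3
      exact RingOfIntegers.ext ((algebraMap k ℂ).injective h3)
    · intro g
      obtain ⟨a, ha⟩ := h2 g
      exact ⟨a, hinj (by rw [← ha]; exact hF a)⟩
  exact ⟨RingEquiv.ofBijective f hf, fun a => hF a⟩

theorem isTotallyComplex_of_I {k : Type} [Field k] [NumberField k] [Algebra k ℂ]
    (hk : Module.finrank ℚ k = 2) (hI : ∃ j : k, algebraMap k ℂ j = I) : IsTotallyComplex k := by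
  obtain ⟨j, hj⟩ := hI
  refine ⟨fun v => ?_⟩
  rw [← InfinitePlace.not_isReal_iff_isComplex]
  intro hv
  rw [InfinitePlace.isReal_iff] at hv
  have h1 : v.embedding j ^ 2 = -1 := by
    rw [← map_pow, j_sq hj, map_neg, map_one]
  have h2 : (starRingEnd ℂ) (v.embedding j) = v.embedding j := by
    have h3 := RingHom.congr_fun hv j
    simpa [ComplexEmbedding.conjugate] using h3
  obtain ⟨r, hr⟩ := Complex.conj_eq_iff_real.1 h2
  rw [hr] at h1
  have h4 : r ^ 2 = -1 := by exact_mod_cast h1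
  nlinarith [sq_nonneg r]

end Pool.Agent.CMG
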