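import Pool.Agent.CMG.PProd

/-!
# the function XG = ℘/℘(1/2) for Z[i]: basic properties

`i L = L`: reindexing the series gives `℘(iz) = -℘(z)` and `G₆ = -G₆`, so `g₃ = 0`.
`1/2, i/2, τ` are not in `L`; `iτ = τ - 1`, so `℘(τ) = -℘(τ) = 0`; `e₁ = ℘(1/2) ≠ ℘(τ) = 0` by
`P_inj` (`1/2 ± τ ∉ L`); `℘'(1/2) = 0` gives `4e₁³ = g₂ e₁`, so `g₂ = 4 e₁²`. The rest is the general
theory (`P_sum`, `P_prod`, `P_dup`, `P_inj`, `P_surj`, `P_order_sub`) divided by powers of `e₁`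
(`℘'² = 4℘³ - g₂℘ = 4 e₁³ (X³ - X)`).
-/

set_option autoImplicit false

noncomputable section

open Complex Filter Topology
open scoped PeriodPair Classical

namespace Pool.Agent.CMG

theorem mem_LG {z : ℂ} : z ∈ LG.lattice ↔ ∃ a : GaussianInt, (a : ℂ) = z := by
  rw [PeriodPair.mem_lattice]
  constructor
  · rintro ⟨m, n, rfl⟩
    refine ⟨⟨m, n⟩, ?_⟩
    rw [GaussianInt.toComplex_def]
    show (m : ℂ) + n * I = m * 1 + n * I
    ring
  · rintro ⟨a, rfl⟩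
    refine ⟨a.re, a.im, ?_⟩
    rw [GaussianInt.toComplex_def]
    show (a.re : ℂ) * 1 + a.im * I = _
    ring

theorem mul_mem_LG (α : GaussianInt) {z : ℂ} (hz : z ∈ LG.lattice) :
    (α : ℂ) * z ∈ LG.lattice := by
  rw [mem_LG] at hz ⊢
  obtain ⟨a, rfl⟩ := hz
  exact ⟨α * a, map_mul _ _ _⟩

private lemma xb_I_mem {z : ℂ} (hz : z ∈ LG.lattice) : I * z ∈ LG.lattice := by
  have h := mul_mem_LG ⟨0, 1⟩ hz
  have e : ((⟨0, 1⟩ : GaussianInt) : ℂ) = I := by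
    rw [GaussianInt.toComplex_def]
    simp
  rwa [e] at h

/-- multiplication by `i` as a permutation of the lattice -/
private def xbE : LG.lattice ≃ LG.lattice where
  toFun l := ⟨I * l, xb_I_mem l.2⟩
  invFun l := ⟨-(I * l), neg_mem (xb_I_mem l.2)⟩
  left_inv l := by
    apply Subtype.ext
    show -(I * (I * (l : ℂ))) = l
    rw [← mul_assoc, I_mul_I]
    ring
  right_inv l := by
    apply Subtype.ext
    show I * (-(I * (l : ℂ))) = l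
    linear_combination (-(l : ℂ)) * I_mul_I

private lemma xb_P_I_mul (z : ℂ) : ℘[LG] (I * z) = - ℘[LG] z := by
  unfold PeriodPair.weierstrassP
  rw [← xbE.tsum_eq, ← tsum_neg]
  refine tsum_congr fun l => ?_
  show 1 / (I * z - I * (l : ℂ)) ^ 2 - 1 / (I * (l : ℂ)) ^ 2 =
    -(1 / (z - (l : ℂ)) ^ 2 - 1 / (l : ℂ) ^ 2)
  rw [← mul_sub, mul_pow, mul_pow, I_sq, neg_one_mul, neg_one_mul, div_neg, div_neg]
  ring

private lemma xb_g₃ : LG.g₃ = 0 := by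
  have h : LG.G 6 = - LG.G 6 := by
    unfold PeriodPair.G
    rw [← tsum_neg]
    conv_lhs => rw [← xbE.tsum_eq]
    refine tsum_congr fun l => ?_
    show ((I * (l : ℂ)) ^ 6)⁻¹ = -((l : ℂ) ^ 6)⁻¹
    have h6 : I ^ 6 = -1 := by
      rw [show (6 : ℕ) = 2 * 3 from rfl, pow_mul, I_sq]
      norm_num
    rw [mul_pow, h6, neg_one_mul, inv_neg]
  unfold PeriodPair.g₃
  have h2 : LG.G 6 = 0 := by linear_combination (1 / 2 : ℂ) * h
  rw [h2, mul_zero]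

private lemma xb_mem {α β : ℚ} (h : ((α : ℂ) + β * I) ∈ LG.lattice) : α.den = 1 ∧ β.den = 1 := by
  have h2 : (α : ℂ) * LG.ω₁ + β * LG.ω₂ ∈ LG.lattice := by
    show (α : ℂ) * 1 + β * I ∈ LG.lattice
    rwa [mul_one]
  exact PeriodPair.mul_ω₁_add_mul_ω₂_mem_lattice.1 h2

private lemma xb_half : (1 / 2 : ℂ) ∉ LG.lattice := by
  intro h
  have h2 := xb_mem (α := 1 / 2) (β := 0) (by push_cast; simpa using h)
  norm_num at h2

private lemma xb_tau : tau ∉ LG.lattice := by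
  intro h
  have h2 := xb_mem (α := 1 / 2) (β := 1 / 2) (by
    have e : (((1 / 2 : ℚ) : ℂ) + ((1 / 2 : ℚ) : ℂ) * I) = tau := by
      unfold tau
      push_cast
      ring
    rw [e]
    exact h)
  norm_num at h2

private lemma xb_tau_zero : ℘[LG] tau = 0 := by
  have h1 := xb_P_I_mul tau
  have h2 : (1 : ℂ) ∈ LG.lattice := LG.ω₁_mem_lattice
  have h3 := LG.weierstrassP_sub_coe tau ⟨1, h2⟩
  have h4 : I * tau = tau - 1 := by
    unfold tau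
    linear_combination (1 / 2 : ℂ) * I_mul_I
  rw [h4] at h1
  have h5 : ℘[LG] tau = - ℘[LG] tau := h3.symm.trans h1
  linear_combination (1 / 2 : ℂ) * h5

private lemma xb_ne : ℘[LG] (1 / 2) ≠ 0 := by
  intro h
  rcases P_inj LG xb_half xb_tau (h.trans xb_tau_zero.symm) with h1 | h1
  · have h2 := xb_mem (α := 0) (β := -1 / 2) (by
      have e : (((0 : ℚ) : ℂ) + ((-1 / 2 : ℚ) : ℂ) * I) = 1 / 2 - tau := by
        unfold tau
        push_cast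
        ring
      rw [e]
      exact h1)
    norm_num at h2
  · have h2 := xb_mem (α := 1) (β := 1 / 2) (by
      have e : (((1 : ℚ) : ℂ) + ((1 / 2 : ℚ) : ℂ) * I) = 1 / 2 + tau := by
        unfold tau
        push_cast
        ring
      rw [e]
      exact h1)
    norm_num at h2

private lemma xb_g₂ : LG.g₂ = 4 * ℘[LG] (1 / 2) ^ 2 := by
  have h1 : ℘'[LG] (1 / 2) = 0 := by
    rw [P'_eq_zero_iff LG xb_half]
    have e : (2 : ℂ) * (1 / 2) = 1 := by norm_num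
    rw [e]
    exact LG.ω₁_mem_lattice
  have h2 := LG.derivWeierstrassP_sq (1 / 2) xb_half
  rw [h1, xb_g₃] at h2
  have h3 : ℘[LG] (1 / 2) * (4 * ℘[LG] (1 / 2) ^ 2 - LG.g₂) = 0 := by
    linear_combination -h2
  rcases mul_eq_zero.1 h3 with h4 | h4
  · exact absurd h4 xb_ne
  · linear_combination -h4

private lemma xb_P (z : ℂ) : ℘[LG] z = ℘[LG] (1 / 2) * XG z := by
  unfold XG
  rw [mul_div_cancel₀ _ xb_ne]

private lemma xb_P' {u : ℂ} (hu : u ∉ LG.lattice) :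
    ℘'[LG] u ^ 2 = 4 * ℘[LG] (1 / 2) ^ 3 * (XG u ^ 3 - XG u) := by
  rw [LG.derivWeierstrassP_sq u hu, xb_g₃, xb_g₂, xb_P u]
  ring

theorem XG_add_coe (z : ℂ) {l : ℂ} (hl : l ∈ LG.lattice) : XG (z + l) = XG z := by
  unfold XG
  rw [LG.weierstrassP_add_coe z ⟨l, hl⟩]

theorem XG_neg (z : ℂ) : XG (-z) = XG z := by
  unfold XG
  rw [LG.weierstrassP_neg]

theorem XG_I_mul (z : ℂ) : XG (I * z) = - XG z := by
  unfold XG
  rw [xb_P_I_mul, neg_div]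

theorem XG_half : XG (1 / 2) = 1 := div_self xb_ne

theorem XG_tau : XG tau = 0 := by
  unfold XG
  rw [xb_tau_zero, zero_div]

theorem XG_surj (c : ℂ) : ∃ z ∉ LG.lattice, XG z = c := by
  obtain ⟨z, hz, h⟩ := P_surj LG (℘[LG] (1 / 2) * c)
  refine ⟨z, hz, ?_⟩
  rw [xb_P] at h
  exact mul_left_cancel₀ xb_ne h

theorem XG_inj {u v : ℂ} (hu : u ∉ LG.lattice) (hv : v ∉ LG.lattice) (h : XG u = XG v) :
    u - v ∈ LG.lattice ∨ u + v ∈ LG.lattice := by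
  apply P_inj LG hu hv
  rw [xb_P u, xb_P v, h]

theorem XG_sum {u v : ℂ} (hu : u ∉ LG.lattice) (hv : v ∉ LG.lattice)
    (h1 : u + v ∉ LG.lattice) (h2 : u - v ∉ LG.lattice) :
    (XG (u + v) + XG (u - v)) * (XG u - XG v) ^ 2 = 2 * (XG u * XG v - 1) * (XG u + XG v) := by
  have h := P_sum LG hu hv h1 h2
  rw [xb_g₃, xb_g₂, xb_P u, xb_P v, xb_P (u + v), xb_P (u - v)] at h
  have h3 : ℘[LG] (1 / 2) ^ 3 ≠ 0 := pow_ne_zero 3 xb_ne
  apply mul_left_cancel₀ h3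
  linear_combination h

theorem XG_prod {u v : ℂ} (hu : u ∉ LG.lattice) (hv : v ∉ LG.lattice)
    (h1 : u + v ∉ LG.lattice) (h2 : u - v ∉ LG.lattice) :
    XG (u + v) * XG (u - v) * (XG u - XG v) ^ 2 = (XG u * XG v + 1) ^ 2 := by
  have h := P_prod LG hu hv h1 h2
  rw [xb_g₃, xb_g₂, xb_P u, xb_P v, xb_P (u + v), xb_P (u - v)] at h
  have h3 : ℘[LG] (1 / 2) ^ 4 ≠ 0 := pow_ne_zero 4 xb_ne
  apply mul_left_cancel₀ h3
  linear_combination h

theorem XG_dup {u : ℂ} (hu : u ∉ LG.lattice) (h2 : 2 * u ∉ LG.lattice) :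
    XG (2 * u) * (4 * (XG u ^ 3 - XG u)) = (XG u ^ 2 + 1) ^ 2 := by
  have h := P_dup LG hu h2
  rw [xb_P' hu, xb_g₃, xb_g₂, xb_P u, xb_P (2 * u)] at h
  have h3 : ℘[LG] (1 / 2) ^ 4 ≠ 0 := pow_ne_zero 4 xb_ne
  apply mul_left_cancel₀ h3
  linear_combination h

theorem XG_two_mul_mem_iff {u : ℂ} (hu : u ∉ LG.lattice) :
    2 * u ∈ LG.lattice ↔ XG u ^ 3 - XG u = 0 := by
  rw [← P'_eq_zero_iff LG hu, ← sq_eq_zero_iff, xb_P' hu]
  have h3 : (4 : ℂ) * ℘[LG] (1 / 2) ^ 3 ≠ 0 := mul_ne_zero (by norm_num) (pow_ne_zero 3 xb_ne)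
  constructor
  · intro h
    exact (mul_eq_zero.1 h).resolve_left h3
  · intro h
    rw [h, mul_zero]

theorem XG_order_sub {v : ℂ} (hv : v ∉ LG.lattice) (z : ℂ) :
    meromorphicOrderAt (fun z => XG z - XG v) z =
      ((if z ∈ LG.lattice then -2 else if z - v ∈ LG.lattice ∨ z + v ∈ LG.lattice then
        (if 2 * v ∈ LG.lattice then 2 else 1) else 0 : ℤ) : WithTop ℤ) := by
  rw [← P_order_sub LG hv z]
  have e : (fun z => XG z - XG v) =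
      (fun _ : ℂ => (℘[LG] (1 / 2))⁻¹) * (fun z => ℘[LG] z - ℘[LG] v) := by
    funext w
    show XG w - XG v = (℘[LG] (1 / 2))⁻¹ * (℘[LG] w - ℘[LG] v)
    unfold XG
    ring
  rw [e]
  exact meromorphicOrderAt_mul_of_ne_zero analyticAt_const (inv_ne_zero xb_ne)

theorem XG_diff : DifferentiableOn ℂ XG (LG.lattice : Set ℂ)ᶜ :=
  LG.differentiableOn_weierstrassP.div_const _

theorem XG_meromorphic (z : ℂ) : MeromorphicAt XG z :=
  (LG.meromorphic_weierstrassP z).div (MeromorphicAt.const _ z)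

/-- `z² XG z → 1 / ℘(1/2)` as `z → 0` -/
theorem XG_tendsto : Tendsto (fun z : ℂ => z ^ 2 * XG z) (𝓝[≠] 0) (𝓝 (℘[LG] (1 / 2))⁻¹) ∧
    ℘[LG] (1 / 2) ≠ 0 := by
  refine ⟨?_, xb_ne⟩
  have h1 : ContinuousAt ℘[LG - (0 : ℂ)] 0 := (LG.analyticAt_weierstrassPExcept 0).continuousAt
  have h2 : Tendsto (fun z : ℂ => (z ^ 2 * ℘[LG - (0 : ℂ)] z + 1) * (℘[LG] (1 / 2))⁻¹) (𝓝[≠] 0)
      (𝓝 (((0 : ℂ) ^ 2 * ℘[LG - (0 : ℂ)] 0 + 1) * (℘[LG] (1 / 2))⁻¹)) := by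
    have h3 : ContinuousAt (fun z : ℂ => (z ^ 2 * ℘[LG - (0 : ℂ)] z + 1) * (℘[LG] (1 / 2))⁻¹) 0 :=
      (((continuousAt_id.pow 2).mul h1).add continuousAt_const).mul continuousAt_const
    exact h3.tendsto.mono_left nhdsWithin_le_nhds
  have e : ((0 : ℂ) ^ 2 * ℘[LG - (0 : ℂ)] 0 + 1) * (℘[LG] (1 / 2))⁻¹ = (℘[LG] (1 / 2))⁻¹ := by
    ring
  rw [e] at h2
  refine h2.congr' ?_
  filter_upwards [self_mem_nhdsWithin] with z hz
  have hz' : z ≠ 0 := hz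
  have h4 := LG.weierstrassPExcept_add 0 z
  unfold XG
  rw [← h4]
  show (z ^ 2 * ℘[LG - (0 : ℂ)] z + 1) * (℘[LG] (1 / 2))⁻¹ =
    z ^ 2 * ((℘[LG - (0 : ℂ)] z + (1 / (z - 0) ^ 2 - 1 / (0 : ℂ) ^ 2)) / ℘[LG] (1 / 2))
  have := xb_ne
  field_simp
  ring

end Pool.Agent.CMG
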