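import Pool.Agent.CMG.SStark
import Pool.Agent.CMG.EllG
import Pool.Agent.StarkRQ.Shintani

/-!
# Stark's conjecture for real quadratic fields in the case of abelian extensions of Q(i)
-/

set_option autoImplicit false

noncomputable section

open NumberField Module Pool.Agent.StarkRQ

namespace Pool.Agent.CMG

/-- a subfield of `k(h(1/N))` is abelian over `k` -/
theorem isAbelian_of_mem {k : Type} [Field k] [NumberField k] [Algebra k ℂ] (D : EllData k)
    {N : ℕ} (hN : D.N₀ ∣ N) (hN0 : N ≠ 0) {M : Type} [Field M] [NumberField M] [Algebra k M]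
    (ι : M →+* ℂ) (hι : ∀ x : k, ι (algebraMap k M x) = algebraMap k ℂ x)
    (hM : ∀ x : M, ι x ∈ IntermediateField.adjoin k {D.h (pt (1 : 𝓞 k) N)}) :
    IsAbelianGalois k M := by
  obtain ⟨F, _, _, _, _, _, _, A, hA⟩ := exists_model D hN hN0 ι hι hM
  obtain ⟨ρ, hρ, hρs, hρk⟩ := exists_rho D hN hN0 A
  have : IsAbelianGalois k F :=
    { __ := ‹IsGalois k F›
      is_comm := ⟨fun σ τ => by
        obtain ⟨u, rfl⟩ := hρs σ
        obtain ⟨v, rfl⟩ := hρs τ
        rw [← map_mul, ← map_mul, mul_comm]⟩ }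
  exact IsAbelianGalois.tower_bot k M F

theorem gaussian {M K H : Type} [Field M] [NumberField M] [IsGalois ℚ M]
    [Field K] [NumberField K] [Field H] [NumberField H]
    [Algebra K M] [Algebra K H] [Algebra H M] [IsScalarTower K H M]
    [IsTotallyReal K] (hK : finrank ℚ K = 2) [IsAbelianGalois K M] (ι : M →+* ℂ)
    (hi : ∃ j : M, ι j = Complex.I) (hH : ∀ y : H, (ι (algebraMap H M y)).im = 0)
    (N : ℕ) (hN : N ≠ 0) (h4 : 4 ∣ N)
    (hM : ∀ x : M, ι x ∈ IntermediateField.adjoin ℚ {Complex.I, hG (1 / N)})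
    (hram : ∀ p : ℕ, p.Prime → (p : ℤ) ∣ discr M → p ∣ N)
    (G : Gal(H/K) → ℂ → ℂ) (hG : ∀ σ, IsPartialZeta N σ (G σ)) :
    ∃ R : Gal(H/K), ∃ ε : Gal(H/K) → (𝓞 H)ˣ,
      (∀ σ, ι (algebraMap H M (ε σ : 𝓞 H)) =
          Complex.exp (-(deriv (G σ) 0 - deriv (G (R * σ)) 0))) ∧
      (∀ ρ σ, ρ ((ε σ : 𝓞 H) : H) = ((ε (ρ * σ) : 𝓞 H) : H)) ∧
      (∃ (E : Type) (_ : Field E) (_ : Algebra K E) (_ : Algebra H E) (_ : IsScalarTower K H E),
        IsAbelianGalois K E ∧ ∀ σ, ∃ y : E, y ^ 2 = algebraMap H E ((ε σ : 𝓞 H) : H)) ∧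
      ∀ g : H →+* ℂ, (∃ x : K, g (algebraMap K H x) ≠ ι (algebraMap K M x)) →
        (∀ y, g (R y) = starRingEnd ℂ (g y)) ∧ ∀ σ, ‖g ((ε σ : 𝓞 H) : H)‖ = 1 := by
  obtain ⟨j, hj⟩ := hi
  have hj2 : j ^ 2 = -1 := by
    apply ι.injective
    rw [map_pow, hj, Complex.I_sq, map_neg, map_one]
  let k := IntermediateField.adjoin ℚ {j}
  let _ : Algebra k ℂ := (ι.comp (algebraMap k M)).toAlgebra
  have hmap : ∀ x : k, algebraMap k ℂ x = ι (algebraMap k M x) := fun x => rfl
  have hint : IsIntegral ℚ j := IsIntegral.of_finite ℚ j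
  have hk : finrank ℚ k = 2 := by
    rw [IntermediateField.adjoin.finrank hint]
    have h1 : minpoly ℚ j = Polynomial.X ^ 2 + 1 := by
      refine (minpoly.eq_of_irreducible_of_monic ?_ ?_ ?_).symm
      · have h2 : (Polynomial.X ^ 2 + 1 : Polynomial ℚ).natDegree = 2 := by compute_degree!
        refine (Polynomial.Monic.irreducible_iff_roots_eq_zero_of_degree_le_three (by monicity!)
          (by rw [h2]) (by rw [h2]; norm_num)).2 ?_
        refine Multiset.eq_zero_of_forall_notMem fun x hx => ?_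
        have h3 := (Polynomial.mem_roots'.1 hx).2
        simp only [Polynomial.IsRoot.def, Polynomial.eval_add, Polynomial.eval_pow,
          Polynomial.eval_X, Polynomial.eval_one] at h3
        nlinarith [sq_nonneg x]
      · simp [hj2]
      · monicity!
    rw [h1]
    compute_degree!
  have hI : ∃ j' : k, algebraMap k ℂ j' = Complex.I :=
    ⟨⟨j, IntermediateField.mem_adjoin_simple_self ℚ j⟩, hj⟩
  obtain ⟨D, hD1, hD2, hD3⟩ := exists_ellData hk hI
  have hDN : D.N₀ ∣ N := by rwa [hD1]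
  have hpt : pt (1 : 𝓞 k) N = 1 / (N : ℂ) := by
    simp [pt]
  have hM' : ∀ x : M, ι x ∈ IntermediateField.adjoin k {D.h (pt (1 : 𝓞 k) N)} := by
    intro x
    rw [hD3, hpt]
    have h1 : IntermediateField.adjoin ℚ {Complex.I, CMG.hG (1 / N)} ≤
        (IntermediateField.adjoin k {CMG.hG (1 / N)}).restrictScalars ℚ := by
      rw [IntermediateField.adjoin_le_iff]
      rintro y (rfl | rfl)
      · obtain ⟨j', hj'⟩ := hI
        rw [← hj']
        exact (IntermediateField.adjoin k {CMG.hG (1 / N)}).algebraMap_mem j'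
      · exact IntermediateField.mem_adjoin_simple_self k _
    exact h1 (hM x)
  have := isAbelian_of_mem D hDN hN ι (fun x => rfl) hM'
  have : IsTotallyComplex k := D.isComplex
  obtain ⟨η, hη, -⟩ := exists_stark D hDN hN ι (fun x => rfl) hM' hram
  exact shintani hK hk ι hH N hN hram η hη G hG

end Pool.Agent.CMG
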