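import Mathlib

/-!
# S1, S2: valuation rings of C and integrality, primes of number fields

S1: the integral closure of `ℤ` in `ℂ` is the intersection of the valuation rings containing it
(`iInf_valuationSubring_superset` or a sibling; every valuation subring contains `ℤ`).
S2: `κ(𝓞 F)` is a subring of `ℂ` with the prime ideal `κ(𝔓)`; there is a valuation ring `V` of `ℂ`
dominating its localisation (`Ideal.image_subset_nonunits_valuationSubring` or
`LocalSubring.exists_valuationRing_of_isMax`/`exists_le_valuationSubring`), so `κ(𝓞 F) ⊆ V` and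
`𝔪_V ∩ 𝓞 F = 𝔓`. Third part: `𝓞 F` localised at `𝔓` is a field or a DVR, hence a valuation ring of
`F`; if `x ∈ F ∖ 𝓞_𝔓` then `x⁻¹ ∈ 𝔓 𝓞_𝔓`, so `v(κ x⁻¹) < 1` and `κ x ∉ V`.
-/

set_option autoImplicit false

noncomputable section

open NumberField

namespace Pool.Agent.CMG

/-- S1 -/
theorem isIntegral_of_valuation {x : ℂ} (h : ∀ V : ValuationSubring ℂ, V.valuation x ≤ 1) :
    IsIntegral ℤ x := by
  have h1 : x ∈ (integralClosure (Subring.closure (∅ : Set ℂ)) ℂ).toSubring := by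
    rw [← iInf_valuationSubring_superset, Subring.mem_iInf]
    intro V
    exact (ValuationSubring.valuation_le_one_iff _ x).1 (h V.1)
  have h2 : IsIntegral (Subring.closure (∅ : Set ℂ)) x := h1
  have h3 : Algebra.IsIntegral ℤ (Subring.closure (∅ : Set ℂ)) := by
    constructor
    rintro ⟨y, hy⟩
    have hy' := hy
    rw [Subring.closure_empty, Subring.mem_bot] at hy'
    obtain ⟨n, hn⟩ := hy'
    have : (⟨y, hy⟩ : Subring.closure (∅ : Set ℂ)) = algebraMap ℤ _ n := by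
      apply Subtype.ext
      simp [← hn]
    rw [this]
    exact isIntegral_algebraMap
  exact isIntegral_trans x h2

/-- S2 -/
theorem exists_valuationSubring {F : Type} [Field F] [NumberField F] (κ : F →+* ℂ)
    (𝔓 : Ideal (𝓞 F)) (h𝔓 : 𝔓.IsPrime) :
    ∃ V : ValuationSubring ℂ, (∀ x : 𝓞 F, κ (x : F) ∈ V) ∧
      (∀ x : 𝓞 F, x ∈ 𝔓 ↔ V.valuation (κ (x : F)) < 1) ∧
      ∀ x : F, κ x ∈ V → ∃ a b : 𝓞 F, b ∉ 𝔓 ∧ x * (b : F) = (a : F) := by
  have hinj : ∀ y : 𝔓.primeCompl, IsUnit ((κ.comp (algebraMap (𝓞 F) F)) y) := by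
    intro y
    refine IsUnit.mk0 _ ?_
    have hy : (y : 𝓞 F) ≠ 0 := fun h0 => y.2 (by rw [h0]; exact 𝔓.zero_mem)
    simpa using hy
  let f : Localization.AtPrime 𝔓 →+* ℂ := IsLocalization.lift (M := 𝔓.primeCompl) hinj
  have hf : ∀ x : 𝓞 F, f (algebraMap _ _ x) = κ (x : F) := fun x => IsLocalization.lift_eq hinj x
  obtain ⟨V, hV, hloc⟩ := IsLocalRing.exists_factor_valuationRing f
  have h1 : ∀ x : 𝓞 F, κ (x : F) ∈ V := fun x => by
    rw [← hf x]
    exact hV _
  have h2 : ∀ x : 𝓞 F, x ∈ 𝔓 ↔ V.valuation (κ (x : F)) < 1 := by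
    intro x
    have e1 : x ∈ 𝔓 ↔ ¬ IsUnit (algebraMap (𝓞 F) (Localization.AtPrime 𝔓) x) := by
      rw [IsLocalization.AtPrime.isUnit_to_map_iff (Localization.AtPrime 𝔓) 𝔓 x,
        Ideal.mem_primeCompl_iff, not_not]
    have e2 : IsUnit (algebraMap (𝓞 F) (Localization.AtPrime 𝔓) x) ↔
        IsUnit (f.codRestrict V.toSubring hV (algebraMap (𝓞 F) (Localization.AtPrime 𝔓) x)) :=
      ⟨fun h => h.map _, fun h => hloc.map_nonunit _ h⟩
    rw [e1, e2]
    have e3 := V.valuation_lt_one_iff ⟨κ (x : F), h1 x⟩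
    rw [← e3, IsLocalRing.mem_maximalIdeal, mem_nonunits_iff]
    have e4 : f.codRestrict V.toSubring hV (algebraMap (𝓞 F) (Localization.AtPrime 𝔓) x) =
        (⟨κ (x : F), h1 x⟩ : V) := Subtype.ext (hf x)
    rw [e4]
  refine ⟨V, h1, h2, fun x hx => ?_⟩
  by_cases hbot : 𝔓 = ⊥
  · obtain ⟨a, b, hb, hab⟩ := IsFractionRing.div_surjective (A := 𝓞 F) x
    refine ⟨a, b, ?_, ?_⟩
    · rw [hbot, Ideal.mem_bot]
      exact nonZeroDivisors.ne_zero hb
    · have hb0 : (b : F) ≠ 0 := by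
        simpa using nonZeroDivisors.ne_zero hb
      rw [← hab]
      field_simp
  · obtain ⟨n, d, hnd | hnd⟩ :=
      IsDedekindDomain.HeightOneSpectrum.exists_primeCompl_mul_eq_or_mul_eq
        (⟨𝔓, h𝔓, hbot⟩ : IsDedekindDomain.HeightOneSpectrum (𝓞 F)) x
    · exact ⟨n, d, d.2, hnd⟩
    · by_cases hn : n ∈ 𝔓
      · exfalso
        have hd : (d : 𝓞 F) ∈ 𝔓 := by
          rw [h2]
          have h3 : κ ((d : 𝓞 F) : F) = κ x * κ (n : F) := by
            rw [← map_mul]
            exact congrArg κ hnd.symm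
          rw [h3, map_mul]
          exact mul_lt_one_of_nonneg_of_lt_one_right
            ((ValuationSubring.valuation_le_one_iff V _).2 hx) zero_le ((h2 n).1 hn)
        exact d.2 hd
      · exact ⟨d, n, hn, hnd⟩

end Pool.Agent.CMG
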