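import Pool.Agent.CMG.SDefs
import Pool.Agent.CMG.IntVal

/-!
# S4, S5: Frobenius acts by theta(1) -> theta(pi)

S4: `A.act τ` gives `c'` with `τ (θ a) = θ (c' a)`; `θ c' = θ c`, so `h (pt c' N) = h (pt c N)` (`κθ`) and
by `h_inj` `c' ≡ ε c` mod `N`, `ε` a unit; then `h_congr`, `h_unit` (`Ψ_congr`, `Ψ_unit`) and injectivity
of `κ`.
S5: `V` from `exists_valuationSubring A.κ 𝔓`. `π ∈ 𝔓`, so `v(π) < 1`. For `x ∈ F` with `κ x ∈ V`:
`x = a/b`, `b ∉ 𝔓`, and `τ x - x^q = (τa b^q - a^q τb)/(τb b^q)`, so `v(κ(τ x - x^q)) < 1`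
(`q = nrm π`; `τ b ≡ b^q ∉ 𝔓`). With `D.frob` (`a = 1`) for `x = θ 1`: `v(κ(τ θ1) - h(pt π N)) < 1`. By
`A.act`, `τ θ1 = θ c`; `D.red_inj` gives `h (pt c N) = h (pt π N)`.
-/

set_option autoImplicit false

noncomputable section

open NumberField

namespace Pool.Agent.CMG

section model

variable {k : Type} [Field k] [NumberField k] [Algebra k ℂ] (D : EllData k) {N : ℕ}
  (hN : D.N₀ ∣ N) (hN0 : N ≠ 0)
include hN hN0

variable {F : Type} [Field F] [NumberField F] [Algebra k F] [IsGalois k F] (A : Model D N F)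

/-- S4 -/
theorem act_of {τ : Gal(F/k)} {c : 𝓞 k} (hc : IsCoprime c (N : 𝓞 k)) (h : τ (A.θ 1) = A.θ c) :
    (∀ a : 𝓞 k, IsCoprime a (N : 𝓞 k) → τ (A.θ a) = A.θ (c * a)) ∧
    ∀ α a : 𝓞 k, IsCoprime α ((D.m * N : ℕ) : 𝓞 k) → IsCoprime a (N : 𝓞 k) →
      τ (A.ψ α a) = A.ψ α (c * a) := by
  obtain ⟨c', hc', h1, h2⟩ := A.act τ
  have hinj : Function.Injective A.κ := A.κ.injective
  have h3 : D.h (pt c' N) = D.h (pt c N) := by
    rw [← A.κθ c' hc', ← A.κθ c hc, ← h, h1 1 isCoprime_one_left, mul_one]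
  obtain ⟨ε, hε⟩ := D.h_inj N c' c hN hN0 hc' hc h3
  have h4 : ∀ a : 𝓞 k, (N : 𝓞 k) ∣ c' * a - (ε : 𝓞 k) * (c * a) := by
    intro a
    obtain ⟨d, hd⟩ := hε
    exact ⟨d * a, by linear_combination a * hd⟩
  refine ⟨fun a ha => ?_, fun α a hα ha => ?_⟩
  · rw [h1 a ha]
    apply hinj
    rw [A.κθ _ (hc'.mul_left ha), A.κθ _ (hc.mul_left ha),
      D.h_congr N _ _ hN hN0 (h4 a), D.h_unit]
  · rw [h2 α a hα ha]
    apply hinj
    rw [A.κψ _ _ hα (hc'.mul_left ha), A.κψ _ _ hα (hc.mul_left ha),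
      D.Ψ_congr N α _ _ hN hN0 hα (h4 a), D.Ψ_unit N α _ ε hN hN0 hα]

/-- S5 -/
theorem frob_acts {𝔓 : Ideal (𝓞 F)} (h𝔓 : 𝔓.IsPrime) {π : 𝓞 k} (hπ : Prime π)
    (hπN : IsCoprime π (N : 𝓞 k)) (hc : 𝔓.comap (algebraMap (𝓞 k) (𝓞 F)) = Ideal.span {π})
    {τ : Gal(F/k)} (hτ : ∀ x : 𝓞 F, τ • x - x ^ nrm π ∈ 𝔓) : τ (A.θ 1) = A.θ π := by
  obtain ⟨V, hV1, hV2, hV3⟩ := exists_valuationSubring (A.κ : F →+* ℂ) 𝔓 h𝔓
  simp only [RingHom.coe_coe] at hV1 hV2 hV3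
  have hone : IsCoprime (1 : 𝓞 k) (N : 𝓞 k) := isCoprime_one_left
  have hvπ : V.valuation (algebraMap k ℂ (π : k)) < 1 := by
    have h1 : algebraMap (𝓞 k) (𝓞 F) π ∈ 𝔓 := by
      have : π ∈ 𝔓.comap (algebraMap (𝓞 k) (𝓞 F)) := by
        rw [hc]
        exact Ideal.mem_span_singleton_self π
      exact this
    have h2 := (hV2 _).1 h1
    have h3 : ((algebraMap (𝓞 k) (𝓞 F) π : 𝓞 F) : F) = algebraMap k F (π : k) := rfl
    rw [h3, AlgHom.commutes] at h2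
    exact h2
  obtain ⟨hf1, hf2⟩ := D.frob N V π 1 hN hN0 hπ hπN hvπ hone
  set q := nrm π with hq
  have hx : A.κ (A.θ 1) ∈ V := by
    rw [A.κθ 1 hone]
    exact hf1
  obtain ⟨a, b, hb, hab⟩ := hV3 (A.θ 1) hx
  have hle : ∀ y : 𝓞 F, V.valuation (A.κ (y : F)) ≤ 1 := fun y =>
    (ValuationSubring.valuation_le_one_iff V _).2 (hV1 y)
  have hτv : ∀ y : 𝓞 F, V.valuation (A.κ (τ (y : F)) - A.κ (y : F) ^ q) < 1 := by
    intro y
    have h1 := (hV2 _).1 (hτ y)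
    have h2 : (((τ • y - y ^ q : 𝓞 F)) : F) = τ (y : F) - (y : F) ^ q := rfl
    rw [h2, map_sub, map_pow] at h1
    exact h1
  have hbv : V.valuation (A.κ (b : F)) = 1 :=
    le_antisymm (hle b) (not_lt.1 fun h => hb ((hV2 b).2 h))
  have hbq : V.valuation (A.κ (b : F) ^ q) = 1 := by
    rw [map_pow, hbv, one_pow]
  have hτb : V.valuation (A.κ (τ (b : F))) = 1 := by
    have h1 : A.κ (τ (b : F)) = (A.κ (τ (b : F)) - A.κ (b : F) ^ q) + A.κ (b : F) ^ q := by ring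
    rw [h1, Valuation.map_add_eq_of_lt_right _ (by rw [hbq]; exact hτv b), hbq]
  have hb0 : A.κ (b : F) ≠ 0 := by
    intro h
    rw [h, map_zero] at hbv
    exact zero_ne_one hbv
  have hτb0 : A.κ (τ (b : F)) ≠ 0 := by
    intro h
    rw [h, map_zero] at hτb
    exact zero_ne_one hτb
  have e1 : A.κ (A.θ 1) * A.κ (b : F) = A.κ (a : F) := by
    rw [← map_mul, hab]
  have e2 : A.κ (τ (A.θ 1)) * A.κ (τ (b : F)) = A.κ (τ (a : F)) := by
    rw [← map_mul, ← map_mul, hab]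
  have e3 : (A.κ (τ (A.θ 1)) - A.κ (A.θ 1) ^ q) * (A.κ (τ (b : F)) * A.κ (b : F) ^ q) =
      (A.κ (τ (a : F)) - A.κ (a : F) ^ q) * A.κ (b : F) ^ q -
        A.κ (a : F) ^ q * (A.κ (τ (b : F)) - A.κ (b : F) ^ q) := by
    rw [← e1, ← e2]
    ring
  have h5 : V.valuation (A.κ (τ (A.θ 1)) - A.κ (A.θ 1) ^ q) < 1 := by
    have h6 : V.valuation ((A.κ (τ (A.θ 1)) - A.κ (A.θ 1) ^ q) *
        (A.κ (τ (b : F)) * A.κ (b : F) ^ q)) < 1 := by
      rw [e3]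
      refine Valuation.map_sub_lt _ ?_ ?_
      · rw [map_mul, hbq, mul_one]
        exact hτv a
      · rw [map_mul]
        have h7 : V.valuation (A.κ (a : F) ^ q) ≤ 1 := by
          rw [map_pow]
          exact pow_le_one' (hle a) q
        exact mul_lt_one_of_nonneg_of_lt_one_right h7 zero_le (hτv b)
    rwa [map_mul, map_mul, hτb, hbq, mul_one, mul_one] at h6
  obtain ⟨c, hcN, hc1, _⟩ := A.act τ
  have e4 : τ (A.θ 1) = A.θ c := by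
    rw [hc1 1 hone, mul_one]
  have h8 : V.valuation (D.h (pt c N) - D.h (pt π N)) < 1 := by
    have h9 : D.h (pt c N) - D.h (pt π N) = (A.κ (τ (A.θ 1)) - A.κ (A.θ 1) ^ q) -
        (D.h (pt (π * 1) N) - D.h (pt (1 : 𝓞 k) N) ^ q) := by
      rw [e4, A.κθ c hcN, A.κθ 1 hone, mul_one]
      ring
    rw [h9]
    exact Valuation.map_sub_lt _ h5 hf2
  have h10 := D.red_inj N V π c π hN hN0 hπ hπN hvπ hcN hπN h8
  have hinj : Function.Injective A.κ := A.κ.injective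
  rw [e4]
  apply hinj
  rw [A.κθ c hcN, A.κθ π hπN, h10]

end model

end Pool.Agent.CMG
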