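import Pool.Agent.CMG.XTau
import Pool.Agent.CMG.Tors

/-!
# the set HS α: cardinality and products over E[α]

The map `q ↦ hG (tor α q)` from the nonzero classes onto `HS α` has fibres of size exactly `4`:
the orbits of the group `{1, i, -1, -i}` (`hG_eq_iff`, `exists_tor`), which acts freely on nonzero
classes, since `(1 - ε) q = 0` with `1 - ε ∣ 2` and `α` odd forces `q = 0`. On an orbit
`{w, iw, -w, -iw}` the values of `XG` are `a, -a, a, -a`, so
`∏ (XG z - XG w') = (XG z² - a²)² = (hG z - t)²` and `∏ XG w' = a⁴ = t²`.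
-/

set_option autoImplicit false

noncomputable section

open Complex Filter Topology
open scoped PeriodPair Classical


namespace Pool.Agent.CMG

/-- the class of `i` -/
private def iA (α : GaussianInt) : GaussianInt ⧸ Ideal.span {α} :=
  Ideal.Quotient.mk (Ideal.span {α}) (⟨0, 1⟩ : GaussianInt)

private theorem iA_mul_iA (α : GaussianInt) : iA α * iA α = -1 := by
  have h : (⟨0, 1⟩ : GaussianInt) * ⟨0, 1⟩ = -1 := by ext <;> simp
  rw [iA, ← map_mul, h, map_neg, map_one]

private theorem isUnit_cases {ε : GaussianInt} (h : IsUnit ε) :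
    ε = 1 ∨ ε = -1 ∨ ε = ⟨0, 1⟩ ∨ ε = -⟨0, 1⟩ := by
  have h1 : (Zsqrtd.norm ε).natAbs = 1 := Zsqrtd.norm_eq_one_iff.2 h
  have h0 : 0 ≤ Zsqrtd.norm ε := GaussianInt.norm_nonneg ε
  have h2 : ε.re * ε.re + ε.im * ε.im = 1 := by
    have : Zsqrtd.norm ε = 1 := by omega
    rw [Zsqrtd.norm_def] at this
    linarith
  have hr1 : ε.re ≤ 1 := by nlinarith [mul_self_nonneg ε.im, mul_self_nonneg ε.re]
  have hr2 : -1 ≤ ε.re := by nlinarith [mul_self_nonneg ε.im, mul_self_nonneg ε.re]
  have hi1 : ε.im ≤ 1 := by nlinarith [mul_self_nonneg ε.im, mul_self_nonneg ε.re]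
  have hi2 : -1 ≤ ε.im := by nlinarith [mul_self_nonneg ε.im, mul_self_nonneg ε.re]
  obtain ⟨a, b⟩ := ε
  simp only at h2 hr1 hr2 hi1 hi2
  interval_cases a <;> interval_cases b <;> simp_all [Zsqrtd.ext_iff]

private theorem tor_mul {α : GaussianInt} (hα : α ≠ 0) (ε : GaussianInt) (q : GaussianInt ⧸ Ideal.span {α}) :
    (ε : ℂ) * tor α q - tor α (Ideal.Quotient.mk (Ideal.span {α}) ε * q) ∈ LG.lattice := by
  set q' := Ideal.Quotient.mk (Ideal.span {α}) ε * q with hq'
  have h1 : ε * (Quotient.out q : GaussianInt) - (Quotient.out q' : GaussianInt) ∈ Ideal.span {α} := by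
    rw [← Ideal.Quotient.eq, map_mul]
    have e1 : Ideal.Quotient.mk (Ideal.span {α}) (Quotient.out q : GaussianInt) = q :=
      Quotient.out_eq' q
    have e2 : Ideal.Quotient.mk (Ideal.span {α}) (Quotient.out q' : GaussianInt) = q' :=
      Quotient.out_eq' q'
    rw [e1, e2]
  obtain ⟨b, hb⟩ := Ideal.mem_span_singleton'.1 h1
  have hα' : (α : ℂ) ≠ 0 := by
    intro h
    exact hα (by exact_mod_cast (GaussianInt.toComplex_eq_zero).1 h)
  rw [mem_LG]
  refine ⟨b, ?_⟩
  have hb' : (b : ℂ) * (α : ℂ) =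
      (ε : ℂ) * ((Quotient.out q : GaussianInt) : ℂ) - ((Quotient.out q' : GaussianInt) : ℂ) := by
    have := congrArg (fun x : GaussianInt => (x : ℂ)) hb
    simpa only [GaussianInt.toComplex_mul, GaussianInt.toComplex_sub] using this
  rw [tor, tor]
  field_simp
  linear_combination hb'

section

variable {α : GaussianInt}

private theorem XG_tor_iA (hα : α ≠ 0) (q : GaussianInt ⧸ Ideal.span {α}) :
    XG (tor α (iA α * q)) = -XG (tor α q) := by
  have h := tor_mul hα (⟨0, 1⟩ : GaussianInt) q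
  have hI : (((⟨0, 1⟩ : GaussianInt)) : ℂ) = I := by
    rw [GaussianInt.toComplex_def]; simp
  rw [hI] at h
  rw [← XG_I_mul, ← XG_add_coe (tor α (iA α * q)) h]
  congr 1
  simp [iA]

private theorem XG_tor_neg (hα : α ≠ 0) (q : GaussianInt ⧸ Ideal.span {α}) :
    XG (tor α (-q)) = XG (tor α q) := by
  have h := tor_mul hα (-1 : GaussianInt) q
  have e : Ideal.Quotient.mk (Ideal.span {α}) (-1 : GaussianInt) * q = -q := by
    rw [map_neg, map_one]; ring
  rw [e] at h
  have hI : (((-1 : GaussianInt)) : ℂ) = -1 := by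
    rw [GaussianInt.toComplex_neg, GaussianInt.toComplex_one]
  rw [hI] at h
  rw [← XG_neg (tor α q), ← XG_add_coe (tor α (-q)) h]
  congr 1
  ring

private theorem two_mul_ne (hα : IsOdd α) {q : GaussianInt ⧸ Ideal.span {α}} (hq : q ≠ 0) :
    2 * q ≠ 0 := by
  intro h
  obtain ⟨k, hk⟩ := hα
  have hn : Zsqrtd.norm α = 2 * (k : ℤ) + 1 := by
    have h0 : 0 ≤ Zsqrtd.norm α := GaussianInt.norm_nonneg α
    have : ((nG α : ℕ) : ℤ) = Zsqrtd.norm α := by
      rw [nG]; exact Int.natAbs_of_nonneg h0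
    rw [← this, hk]; push_cast; ring
  have hz : (Ideal.Quotient.mk (Ideal.span {α}) (α * star α)) = 0 := by
    rw [Ideal.Quotient.eq_zero_iff_mem]
    exact Ideal.mul_mem_right _ _ (Ideal.mem_span_singleton_self α)
  rw [← Zsqrtd.norm_eq_mul_conj, hn] at hz
  have h1 : (2 * (k : GaussianInt ⧸ Ideal.span {α}) + 1) = 0 := by
    have h2 : (((2 * (k : ℤ) + 1 : ℤ)) : GaussianInt) = 2 * (k : GaussianInt) + 1 := by push_cast; ring
    rw [h2, map_add, map_mul, map_one, map_natCast, map_ofNat] at hz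
    exact hz
  apply hq
  have : q = (2 * (k : GaussianInt ⧸ Ideal.span {α}) + 1) * q - k * (2 * q) := by ring
  rw [this, h1, h]; ring

private theorem iA_ne (hα : IsOdd α) {q : GaussianInt ⧸ Ideal.span {α}} (hq : q ≠ 0) :
    q ≠ iA α * q ∧ q ≠ -q ∧ q ≠ -(iA α * q) := by
  refine ⟨fun h => two_mul_ne hα hq ?_, fun h => two_mul_ne hα hq ?_,
    fun h => two_mul_ne hα hq ?_⟩
  · -- `(1 + i) (1 - i) q = 2 q`
    have e : 2 * q = (1 + iA α) * (q - iA α * q) + (iA α * iA α + 1) * q := by ring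
    rw [e, iA_mul_iA, ← h]; ring
  · linear_combination h
  · have e : 2 * q = (1 - iA α) * (q + iA α * q) + (iA α * iA α + 1) * q := by ring
    rw [e, iA_mul_iA]
    have : q + iA α * q = 0 := by linear_combination h
    rw [this]; ring

private theorem iA_mul_ne {q : GaussianInt ⧸ Ideal.span {α}} (hq : q ≠ 0) : iA α * q ≠ 0 := by
  intro h
  apply hq
  have : q = -(iA α * (iA α * q)) := by
    rw [← mul_assoc, iA_mul_iA]; ring
  rw [this, h]; ring

private theorem hG_tor_eq_iff (hα : α ≠ 0) {q q' : GaussianInt ⧸ Ideal.span {α}} (hq : q ≠ 0)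
    (hq' : q' ≠ 0) : hG (tor α q) = hG (tor α q') ↔
      q = q' ∨ q = iA α * q' ∨ q = -q' ∨ q = -(iA α * q') := by
  constructor
  · intro h
    obtain ⟨ε, hε, hm⟩ := (hG_eq_iff (fun h => hq ((tor_mem_iff hα q).1 h))
      (fun h => hq' ((tor_mem_iff hα q').1 h))).1 h
    have h1 : (α : ℂ) * ((ε : ℂ) * tor α q') ∈ LG.lattice := by
      have := mul_mem_LG ε (mul_tor_mem hα q')
      convert this using 1; ring
    have h2 := (exists_tor hα h1).unique (y₁ := q)
      (y₂ := Ideal.Quotient.mk (Ideal.span {α}) ε * q')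
      (by simpa using LG.lattice.neg_mem hm) (tor_mul hα ε q')
    rcases isUnit_cases hε with rfl | rfl | rfl | rfl
    · left; rw [h2]; simp
    · right; right; left; rw [h2]; simp
    · right; left; rw [h2]; rfl
    · right; right; right; rw [h2, map_neg, neg_mul]; rfl
  · rintro (rfl | rfl | rfl | rfl)
    · rfl
    · rw [hG, hG, XG_tor_iA hα]; ring
    · rw [hG, hG, XG_tor_neg hα]
    · rw [hG, hG, XG_tor_neg hα, XG_tor_iA hα]; ring

variable [Fintype (GaussianInt ⧸ Ideal.span {α})]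

/-- the nonzero classes -/
private def SS (α : GaussianInt) [Fintype (GaussianInt ⧸ Ideal.span {α})] :
    Finset (GaussianInt ⧸ Ideal.span {α}) := Finset.univ.filter (· ≠ 0)

/-- the values -/
private def TT (α : GaussianInt) [Fintype (GaussianInt ⧸ Ideal.span {α})] : Finset ℂ :=
  (SS α).image fun q => hG (tor α q)

private theorem mem_SS {q : GaussianInt ⧸ Ideal.span {α}} : q ∈ SS α ↔ q ≠ 0 := by
  simp [SS]

private theorem fib (hα : IsOdd α) {q : GaussianInt ⧸ Ideal.span {α}} (hq : q ≠ 0) :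
    (SS α).filter (fun q' => hG (tor α q') = hG (tor α q)) =
      {q, iA α * q, -q, -(iA α * q)} := by
  ext q'
  rw [Finset.mem_filter, mem_SS]
  simp only [Finset.mem_insert, Finset.mem_singleton]
  constructor
  · rintro ⟨h1, h2⟩
    exact (hG_tor_eq_iff hα.ne_zero h1 hq).1 h2
  · intro h
    have h1 : q' ≠ 0 := by
      rcases h with rfl | rfl | rfl | rfl
      · exact hq
      · exact iA_mul_ne hq
      · exact neg_ne_zero.2 hq
      · exact neg_ne_zero.2 (iA_mul_ne hq)
    exact ⟨h1, (hG_tor_eq_iff hα.ne_zero h1 hq).2 h⟩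

omit [Fintype (GaussianInt ⧸ Ideal.span {α})] in
private theorem prod_four (hα : IsOdd α) {q : GaussianInt ⧸ Ideal.span {α}} (hq : q ≠ 0)
    {M : Type*} [CommMonoid M] (f : (GaussianInt ⧸ Ideal.span {α}) → M) :
    ∏ x ∈ ({q, iA α * q, -q, -(iA α * q)} : Finset (GaussianInt ⧸ Ideal.span {α})), f x =
      f q * (f (iA α * q) * (f (-q) * f (-(iA α * q)))) := by
  obtain ⟨h1, h2, h3⟩ := iA_ne hα hq
  obtain ⟨g1, g2, g3⟩ := iA_ne hα (iA_mul_ne hq)
  have e : iA α * (iA α * q) = -q := by rw [← mul_assoc, iA_mul_iA]; ring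
  rw [Finset.prod_insert, Finset.prod_insert, Finset.prod_insert, Finset.prod_singleton]
  · simp only [Finset.mem_singleton]
    intro h
    exact h1 (neg_injective h)
  · simp only [Finset.mem_insert, Finset.mem_singleton, not_or]
    exact ⟨fun h => g1 (by rw [e]; exact h), g2⟩
  · simp only [Finset.mem_insert, Finset.mem_singleton, not_or]
    exact ⟨h1, h2, h3⟩

private theorem card_fib (hα : IsOdd α) {q : GaussianInt ⧸ Ideal.span {α}} (hq : q ≠ 0) :
    ({q, iA α * q, -q, -(iA α * q)} : Finset (GaussianInt ⧸ Ideal.span {α})).card = 4 := by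
  rw [Finset.card_eq_sum_ones]
  have := prod_four hα hq (M := Multiplicative ℕ) (fun _ => Multiplicative.ofAdd 1)
  exact this

private theorem HS_eq (hα : IsOdd α) : HS α = (TT α : Set ℂ) := by
  ext t
  simp only [HS, TT, Set.mem_image, Set.mem_ofPred_eq, Finset.coe_image, Finset.mem_coe, mem_SS]
  constructor
  · rintro ⟨w, ⟨h1, h2⟩, rfl⟩
    obtain ⟨q, hq, -⟩ := exists_tor hα.ne_zero h2
    refine ⟨q, ?_, ?_⟩
    · rintro rfl
      have h0 : tor α 0 ∈ LG.lattice := (tor_mem_iff hα.ne_zero 0).2 rfl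
      exact h1 (by simpa using LG.lattice.add_mem hq h0)
    · rw [hG, hG, ← XG_add_coe (tor α q) hq]
      congr 2; ring
  · rintro ⟨q, hq, rfl⟩
    exact ⟨tor α q, ⟨fun h => hq ((tor_mem_iff hα.ne_zero q).1 h), mul_tor_mem hα.ne_zero q⟩, rfl⟩

private theorem card_SS (hα : IsOdd α) : (SS α).card + 1 = nG α := by
  have h1 : (SS α).card = Fintype.card (GaussianInt ⧸ Ideal.span {α}) - 1 := by
    rw [SS, Finset.filter_ne', Finset.card_erase_of_mem (Finset.mem_univ _), Finset.card_univ]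
  have h2 : 0 < Fintype.card (GaussianInt ⧸ Ideal.span {α}) := Fintype.card_pos
  have h3 : Fintype.card (GaussianInt ⧸ Ideal.span {α}) = nG α := by
    rw [← card_quot hα.ne_zero, Nat.card_eq_fintype_card]
  omega

private theorem key (hα : IsOdd α) (g G : ℂ → ℂ) (h : ∀ a, g a * g (-a) = G (a ^ 2)) :
    ∏ q ∈ SS α, g (XG (tor α q)) = (∏ t ∈ TT α, G t) ^ 2 := by
  rw [← Finset.prod_pow]
  rw [← Finset.prod_fiberwise_of_maps_to (s := SS α) (t := TT α)
    (g := fun q => hG (tor α q)) (fun q hq => Finset.mem_image_of_mem _ hq)]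
  refine Finset.prod_congr rfl fun t ht => ?_
  obtain ⟨q, hq, rfl⟩ := Finset.mem_image.1 ht
  rw [mem_SS] at hq
  rw [fib hα hq, prod_four hα hq]
  rw [XG_tor_neg hα.ne_zero, XG_tor_neg hα.ne_zero, XG_tor_iA hα.ne_zero]
  rw [hG, ← h (XG (tor α q))]
  ring

end

theorem HS_card {α : GaussianInt} (hα : IsOdd α) : 4 * (HS α).ncard + 1 = nG α := by
  have := finite_quot hα.ne_zero
  letI := Fintype.ofFinite (GaussianInt ⧸ Ideal.span {α})
  rw [HS_eq hα, Set.ncard_coe_finset, ← card_SS hα]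
  congr 1
  rw [Finset.card_eq_sum_card_fiberwise (s := SS α) (t := TT α)
    (f := fun q => hG (tor α q)) (fun q hq => Finset.mem_image_of_mem _ hq)]
  rw [Finset.sum_congr rfl (g := fun _ => 4) ?_]
  · rw [Finset.sum_const, smul_eq_mul, mul_comm]
  · intro t ht
    obtain ⟨q, hq, rfl⟩ := Finset.mem_image.1 ht
    rw [mem_SS] at hq
    rw [fib hα hq, card_fib hα hq]

private theorem finprod_ne {α : GaussianInt} [Fintype (GaussianInt ⧸ Ideal.span {α})]
    (f : (GaussianInt ⧸ Ideal.span {α}) → ℂ) :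
    ∏ᶠ (q : GaussianInt ⧸ Ideal.span {α}) (_ : q ≠ 0), f q = ∏ q ∈ SS α, f q := by
  rw [← finprod_mem_coe_finset]
  refine finprod_congr fun q => ?_
  have : (q ≠ 0) = (q ∈ (SS α : Set (GaussianInt ⧸ Ideal.span {α}))) := by
    rw [Finset.mem_coe, mem_SS]
  rw [this]

theorem HS_prod_sub {α : GaussianInt} (hα : IsOdd α) (z : ℂ) : (∏ᶠ t ∈ HS α, (hG z - t)) ^ 2 =
    ∏ᶠ (q : GaussianInt ⧸ Ideal.span {α}) (_ : q ≠ 0), (XG z - XG (tor α q)) := by
  have := finite_quot hα.ne_zero
  letI := Fintype.ofFinite (GaussianInt ⧸ Ideal.span {α})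
  rw [HS_eq hα, finprod_mem_coe_finset, finprod_ne]
  rw [key hα (fun x => XG z - x) (fun t => hG z - t)]
  intro a
  rw [hG]; ring

theorem HS_prod {α : GaussianInt} (hα : IsOdd α) : (∏ᶠ t ∈ HS α, t) ^ 2 =
    ∏ᶠ (q : GaussianInt ⧸ Ideal.span {α}) (_ : q ≠ 0), XG (tor α q) := by
  have := finite_quot hα.ne_zero
  letI := Fintype.ofFinite (GaussianInt ⧸ Ideal.span {α})
  rw [HS_eq hα, finprod_mem_coe_finset, finprod_ne]
  rw [key hα (fun x => x) (fun t => -t)]
  · rw [← Finset.prod_pow, ← Finset.prod_pow]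
    refine Finset.prod_congr rfl fun t _ => by ring
  · intro a; ring

end Pool.Agent.CMG
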