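import Pool.Agent.CMG.EDefs

/-!
# Liouville theorem for meromorphic functions with periodic absolute value

`G = toMeromorphicNFOn F univ` is analytic everywhere (order `≥ 0` and normal form), agrees with
`F` on a codiscrete set; `‖G (z + l)‖ = ‖G z‖` everywhere by continuity and density. Every `z` is
congruent to a point of a compact set (`ZSpan` fundamental domain, or use `IsZLattice`), so `G` is
bounded; `Differentiable.apply_eq_apply_of_bounded`.
-/

set_option autoImplicit false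

noncomputable section

open Complex Filter Topology
open scoped PeriodPair Classical


namespace Pool.Agent.CMG

private lemma lv_nhdsNE {P : ℂ → Prop} (h : ∀ᶠ z in codiscrete ℂ, P z) (z : ℂ) :
    ∀ᶠ y in 𝓝[≠] z, P y := by
  have h1 : {y | P y} ∈ codiscrete ℂ := h
  rw [mem_codiscrete] at h1
  have h2 := h1 z
  rw [disjoint_principal_right, compl_compl] at h2
  exact h2

theorem liouville (L : PeriodPair) {F : ℂ → ℂ} (hm : ∀ z, MeromorphicAt F z)
    (ho : ∀ z, 0 ≤ meromorphicOrderAt F z)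
    (hp : ∀ l ∈ L.lattice, ∀ᶠ z in codiscrete ℂ, ‖F (z + l)‖ = ‖F z‖) :
    ∃ c, ∀ᶠ z in codiscrete ℂ, F z = c := by
  have hmo : MeromorphicOn F Set.univ := fun z _ => hm z
  set G := toMeromorphicNFOn F Set.univ with hG
  have hGF : ∀ z, G =ᶠ[𝓝[≠] z] F := fun z =>
    hmo.toMeromorphicNFOn_eq_self_on_nhdsNE (Set.mem_univ z)
  have hGa : ∀ z, AnalyticAt ℂ G z := by
    intro z
    rw [← (meromorphicNFOn_toMeromorphicNFOn F Set.univ
      (Set.mem_univ z)).meromorphicOrderAt_nonneg_iff_analyticAt,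
      meromorphicOrderAt_toMeromorphicNFOn hmo (Set.mem_univ z)]
    exact ho z
  have hGc : Continuous G := continuous_iff_continuousAt.2 fun z => (hGa z).continuousAt
  have hGd : Differentiable ℂ G := fun z => (hGa z).differentiableAt
  -- periodicity of the absolute value
  have hper : ∀ l ∈ L.lattice, ∀ z, ‖G (z + l)‖ = ‖G z‖ := by
    intro l hl z
    have h1 : ∀ᶠ y in 𝓝[≠] z, ‖G (y + l)‖ = ‖G y‖ := by
      have h2 : Tendsto (fun y : ℂ => y + l) (𝓝[≠] z) (𝓝[≠] (z + l)) := by
        refine tendsto_nhdsWithin_iff.2 ⟨?_, ?_⟩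
        · exact ((continuous_id.add continuous_const).tendsto z).mono_left nhdsWithin_le_nhds
        · filter_upwards [self_mem_nhdsWithin] with y hy
          intro h
          exact hy (add_right_cancel h)
      filter_upwards [lv_nhdsNE (hp l hl) z, hGF z, h2.eventually (hGF (z + l))] with y h3 h4 h5
      rw [h4, h5, h3]
    have h3 : Tendsto (fun y => ‖G (y + l)‖) (𝓝[≠] z) (𝓝 ‖G (z + l)‖) :=
      ((hGc.comp (continuous_id.add continuous_const)).norm.tendsto z).mono_left nhdsWithin_le_nhds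
    have h4 : Tendsto (fun y => ‖G y‖) (𝓝[≠] z) (𝓝 ‖G z‖) :=
      (hGc.norm.tendsto z).mono_left nhdsWithin_le_nhds
    exact tendsto_nhds_unique (h3.congr' h1) h4
  -- boundedness
  let φ : ℝ × ℝ → ℂ := fun p => (p.1 : ℂ) * L.ω₁ + (p.2 : ℂ) * L.ω₂
  have hφ : Continuous φ := by fun_prop
  have hK : IsCompact (φ '' (Set.Icc 0 1 ×ˢ Set.Icc 0 1)) :=
    (isCompact_Icc.prod isCompact_Icc).image hφ
  obtain ⟨C, hC⟩ := hK.exists_bound_of_continuousOn hGc.continuousOn
  have hb : ∀ z, ‖G z‖ ≤ C := by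
    intro z
    have h1 := L.basis.sum_repr z
    rw [Fin.sum_univ_two, PeriodPair.basis_zero, PeriodPair.basis_one] at h1
    set s := L.basis.repr z 0
    set t := L.basis.repr z 1
    have h2 : z = φ (Int.fract s, Int.fract t) + ((⌊s⌋ : ℂ) * L.ω₁ + (⌊t⌋ : ℂ) * L.ω₂) := by
      rw [← h1]
      simp only [φ, Complex.real_smul]
      have hs : (s : ℂ) = (Int.fract s : ℝ) + (⌊s⌋ : ℂ) := by
        rw [← Complex.ofReal_intCast, ← Complex.ofReal_add, Int.fract_add_floor]
      have ht : (t : ℂ) = (Int.fract t : ℝ) + (⌊t⌋ : ℂ) := by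
        rw [← Complex.ofReal_intCast, ← Complex.ofReal_add, Int.fract_add_floor]
      rw [hs, ht]
      ring
    rw [h2, hper _ (PeriodPair.mem_lattice.2 ⟨⌊s⌋, ⌊t⌋, rfl⟩)]
    refine hC _ ⟨(Int.fract s, Int.fract t), ⟨⟨?_, ?_⟩, ?_, ?_⟩, rfl⟩
    · exact Int.fract_nonneg _
    · exact (Int.fract_lt_one _).le
    · exact Int.fract_nonneg _
    · exact (Int.fract_lt_one _).le
  have hbd : Bornology.IsBounded (Set.range G) := by
    rw [isBounded_iff_forall_norm_le]
    refine ⟨C, ?_⟩
    rintro _ ⟨z, rfl⟩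
    exact hb z
  refine ⟨G 0, ?_⟩
  have h1 : F =ᶠ[codiscreteWithin Set.univ] G := toMeromorphicNFOn_eqOn_codiscrete hmo
  filter_upwards [h1] with z hz
  rw [hz]
  exact hGd.apply_eq_apply_of_bounded hbd z 0

end Pool.Agent.CMG
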