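import Pool.Agent.CMG.PsiOrd
import Pool.Agent.CMG.AnBB
import Pool.Agent.CMG.XTau
import Pool.Agent.CMG.Liou

/-!
# Kronecker formula up to a constant

`P = PP 1` has simple zeros exactly on `L` (`PP_eq_zero_iff`, `deriv_PP_zero_ne` and
`PP_add_one`, `PP_add_rI` for the simplicity at all lattice points). With `α = a + bi`, `N = nG α` put
`F(z) = P(z)^N / P(αz) · exp(-π (i b α z² + i (N - α) z + (N-1)/6))`. For `y = Im z`, `Y = Im (αz)`:
`N(y² - y + 1/6) - (Y² - Y + 1/6) = Re (i b α z² + i (N - α) z + (N-1)/6)`, so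
`N BB(z) - BB(αz) = -2 log |F(z)|` for `αz ∉ L`. By `BB_periodic` `|F|` is `L`-periodic off
`(1/α) L`; `F` has the order `N [z ∈ L] - [αz ∈ L]`, the same as `PsiG α` (`PsiG_order`). So
`F/PsiG α` has order `0` everywhere, and it is constant by `liouville`; the constant is not `0`.
-/

set_option autoImplicit false

noncomputable section

open Complex Filter Topology
open scoped PeriodPair Classical

namespace Pool.Agent.CMG

private lemma kc_mem {z : ℂ} : z ∈ LG.lattice ↔ ∃ m n : ℤ, z = m + n * I := by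
  rw [mem_LG]
  constructor
  · rintro ⟨a, rfl⟩
    exact ⟨a.re, a.im, GaussianInt.toComplex_def a⟩
  · rintro ⟨m, n, rfl⟩
    exact ⟨⟨m, n⟩, by simp [GaussianInt.toComplex_def]⟩

private lemma kc_zero (z : ℂ) : PP 1 z = 0 ↔ z ∈ LG.lattice := by
  rw [PP_eq_zero_iff one_pos, kc_mem]
  simp

private lemma kc_an (z : ℂ) : AnalyticAt ℂ (PP 1) z := (differentiable_PP one_pos).analyticAt z

private lemma kc_ord_add_one (z : ℂ) :
    meromorphicOrderAt (PP 1) (z + 1) = meromorphicOrderAt (PP 1) z := by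
  rw [← meromorphicOrderAt_comp_add_const_eq_meromorphicOrderAt]
  congr 1
  funext w
  exact PP_add_one 1 w

private lemma kc_ord_add_I (z : ℂ) :
    meromorphicOrderAt (PP 1) (z + I) = meromorphicOrderAt (PP 1) z := by
  rw [← meromorphicOrderAt_comp_add_const_eq_meromorphicOrderAt]
  have h : (PP 1) ∘ (· + I) = (fun w => - ee (-w)) * PP 1 := by
    funext w
    have := PP_add_rI one_pos w
    simpa using this
  rw [h, meromorphicOrderAt_mul_of_ne_zero]
  · unfold ee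
    fun_prop
  · unfold ee
    simp [Complex.exp_ne_zero]

private lemma kc_ord (z : ℂ) : meromorphicOrderAt (PP 1) z =
    ((if z ∈ LG.lattice then 1 else 0 : ℤ) : WithTop ℤ) := by
  split_ifs with h
  · obtain ⟨m, n, rfl⟩ := kc_mem.1 h
    have h1 : Function.Periodic (fun z => meromorphicOrderAt (PP 1) z) 1 := kc_ord_add_one
    have h2 : Function.Periodic (fun z => meromorphicOrderAt (PP 1) z) I := kc_ord_add_I
    have h3 := h1.int_mul m 0
    have h4 := h2.int_mul n (m : ℂ)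
    simp only [mul_one, zero_add] at h3 h4
    rw [h4, h3, (kc_an 0).meromorphicOrderAt_eq,
      (kc_an 0).analyticOrderAt_eq_one_of_zero_deriv_ne_zero
        ((kc_zero 0).2 (Submodule.zero_mem _)) (deriv_PP_zero_ne one_pos)]
    rfl
  · rw [(kc_an z).meromorphicOrderAt_eq, (kc_an z).analyticOrderAt_eq_zero.2
      (fun h1 => h ((kc_zero z).1 h1))]
    rfl

private def kE (α : GaussianInt) (z : ℂ) : ℂ :=
  Real.pi * (I * (α.im : ℂ) * α * z ^ 2 + I * ((nG α : ℂ) - α) * z + ((nG α : ℂ) - 1) / 6)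

private lemma kc_nG (α : GaussianInt) : (nG α : ℝ) = (α.re : ℝ) ^ 2 + (α.im : ℝ) ^ 2 := by
  have h1 : (α : ℂ) = ((α.re : ℝ) : ℂ) + ((α.im : ℝ) : ℂ) * I := by
    rw [GaussianInt.toComplex_def]
    push_cast
    rfl
  rw [nG_eq, ← Complex.normSq_eq_norm_sq, h1, Complex.normSq_add_mul_I]

private lemma kc_re (α : GaussianInt) (z : ℂ) : (kE α z).re = Real.pi * (nG α * (z.im ^ 2 - z.im + 1 / 6) -
    (((α : ℂ) * z).im ^ 2 - ((α : ℂ) * z).im + 1 / 6)) := by
  have h1 : (nG α : ℂ) = ((nG α : ℝ) : ℂ) := by push_cast; rfl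
  have h2 : kE α z = ((Real.pi : ℝ) : ℂ) * (I * ((α.im : ℝ) : ℂ) * (((α.re : ℝ) : ℂ) + ((α.im : ℝ) : ℂ) * I) *
      z ^ 2 + I * (((nG α : ℝ) : ℂ) - (((α.re : ℝ) : ℂ) + ((α.im : ℝ) : ℂ) * I)) * z +
      ((((nG α : ℝ) - 1) / 6 : ℝ) : ℂ)) := by
    unfold kE
    rw [GaussianInt.toComplex_def]
    push_cast
    ring
  have h3 : (α : ℂ) * z = (((α.re : ℝ) : ℂ) + ((α.im : ℝ) : ℂ) * I) * z := by
    rw [GaussianInt.toComplex_def]
    push_cast
    ring
  rw [h2, h3, kc_nG]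
  simp only [pow_two, Complex.mul_re, Complex.add_re, Complex.mul_im, Complex.add_im,
    Complex.ofReal_re, Complex.ofReal_im, Complex.I_re, Complex.I_im, Complex.sub_re,
    Complex.sub_im]
  ring

private def kF (α : GaussianInt) : ℂ → ℂ :=
  (PP 1 ^ nG α) * (PP 1 ∘ fun z => (α : ℂ) * z)⁻¹ * fun z => exp (-kE α z)

private lemma kE_an (α : GaussianInt) (z : ℂ) : AnalyticAt ℂ (kE α) z := by
  unfold kE
  fun_prop

private lemma kc_mul_an (α : GaussianInt) (z : ℂ) : AnalyticAt ℂ (fun z : ℂ => (α : ℂ) * z) z := by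
  fun_prop

private lemma kc_comp_an (α : GaussianInt) (z : ℂ) : AnalyticAt ℂ (PP 1 ∘ fun z => (α : ℂ) * z) z :=
  (kc_an _).comp (kc_mul_an α z)

private lemma kF_mer (α : GaussianInt) (z : ℂ) : MeromorphicAt (kF α) z := by
  unfold kF
  exact (((kc_an z).meromorphicAt.pow _).mul (kc_comp_an α z).meromorphicAt.inv).mul
    ((kE_an α z).neg.cexp).meromorphicAt

private lemma kc_ne {α : GaussianInt} (hα : IsOdd α) : (α : ℂ) ≠ 0 := by
  rw [Ne, GaussianInt.toComplex_eq_zero]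
  exact hα.ne_zero

private lemma kc_comp_ord {α : GaussianInt} (hα : IsOdd α) (z : ℂ) :
    meromorphicOrderAt (PP 1 ∘ fun z => (α : ℂ) * z) z =
      ((if (α : ℂ) * z ∈ LG.lattice then 1 else 0 : ℤ) : WithTop ℤ) := by
  rw [meromorphicOrderAt_comp_of_deriv_ne_zero (kc_mul_an α z), kc_ord]
  rw [deriv_const_mul_id]
  exact kc_ne hα

private lemma kF_ord {α : GaussianInt} (hα : IsOdd α) (z : ℂ) : meromorphicOrderAt (kF α) z =
    ((if z ∈ LG.lattice then (nG α : ℤ) - 1 else if α * z ∈ LG.lattice then -1 else 0 : ℤ) :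
      WithTop ℤ) := by
  have h0 : AnalyticAt ℂ (fun z => exp (-kE α z)) z := (kE_an α z).neg.cexp
  have h1 : meromorphicOrderAt (kF α) z =
      meromorphicOrderAt ((PP 1 ^ nG α) * (PP 1 ∘ fun z => (α : ℂ) * z)⁻¹) z := by
    unfold kF
    rw [mul_comm, meromorphicOrderAt_mul_of_ne_zero h0 (Complex.exp_ne_zero _)]
  rw [h1, meromorphicOrderAt_mul ((kc_an z).meromorphicAt.pow _)
    (kc_comp_an α z).meromorphicAt.inv, meromorphicOrderAt_pow (kc_an z).meromorphicAt,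
    meromorphicOrderAt_inv, kc_comp_ord hα, kc_ord]
  by_cases h2 : z ∈ LG.lattice
  · rw [if_pos h2, if_pos (mul_mem_LG α h2), if_pos h2]
    norm_cast
    simp [Int.subNatNat_eq_coe, sub_eq_add_neg]
  · rw [if_neg h2, if_neg h2]
    split_ifs
    · norm_cast
    · norm_cast

private lemma kF_ne {α : GaussianInt} {z : ℂ} (hz : (α : ℂ) * z ∉ LG.lattice) : kF α z ≠ 0 := by
  have h1 : z ∉ LG.lattice := fun h => hz (mul_mem_LG α h)
  unfold kF
  refine mul_ne_zero (mul_ne_zero (pow_ne_zero _ ?_) (inv_ne_zero ?_)) (Complex.exp_ne_zero _)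
  · exact fun h => h1 ((kc_zero z).1 h)
  · exact fun h => hz ((kc_zero _).1 h)

private lemma kF_an {α : GaussianInt} {z : ℂ} (hz : (α : ℂ) * z ∉ LG.lattice) :
    AnalyticAt ℂ (kF α) z := by
  unfold kF
  refine (((kc_an z).pow _).mul ((kc_comp_an α z).inv ?_)).mul ((kE_an α z).neg.cexp)
  exact fun h => hz ((kc_zero _).1 h)

private lemma kF_log {α : GaussianInt} {z : ℂ} (hz : (α : ℂ) * z ∉ LG.lattice) :
    nG α * BB 1 z - BB 1 (α * z) = -2 * Real.log ‖kF α z‖ := by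
  have h1 : z ∉ LG.lattice := fun h => hz (mul_mem_LG α h)
  have h2 : ‖PP 1 z‖ ≠ 0 := norm_ne_zero_iff.2 fun h => h1 ((kc_zero z).1 h)
  have h3 : ‖PP 1 (α * z)‖ ≠ 0 := norm_ne_zero_iff.2 fun h => hz ((kc_zero _).1 h)
  have h4 : ‖kF α z‖ = ‖PP 1 z‖ ^ nG α * ‖PP 1 (α * z)‖⁻¹ * Real.exp (-(kE α z).re) := by
    unfold kF
    simp only [Pi.mul_apply, Pi.pow_apply, Pi.inv_apply, Function.comp_apply, norm_mul, norm_pow,
      norm_inv, Complex.norm_exp, Complex.neg_re]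
  rw [h4, Real.log_mul (mul_ne_zero (pow_ne_zero _ h2) (inv_ne_zero h3)) (Real.exp_pos _).ne',
    Real.log_mul (pow_ne_zero _ h2) (inv_ne_zero h3), Real.log_pow, Real.log_inv, Real.log_exp,
    kc_re]
  unfold BB
  simp only [div_one]
  ring

private lemma kF_per {α : GaussianInt} {z l : ℂ} (hz : (α : ℂ) * z ∉ LG.lattice) (hl : l ∈ LG.lattice) :
    ‖kF α (z + l)‖ = ‖kF α z‖ := by
  have h0 : (α : ℂ) * (z + l) ∉ LG.lattice := by
    intro h
    apply hz
    have := Submodule.sub_mem _ h (mul_mem_LG α hl)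
    rwa [show (α : ℂ) * (z + l) - α * l = α * z by ring] at this
  have h1 := kF_log hz
  have h2 := kF_log h0
  have hp : ∀ {w m : ℂ}, w ∉ LG.lattice → m ∈ LG.lattice → BB 1 (w + m) = BB 1 w := by
    intro w m hw hm
    obtain ⟨a, b, rfl⟩ := kc_mem.1 hm
    have := BB_periodic one_pos (z := w) (fun h => hw ((kc_zero w).1 h)) a b
    rw [← this]
    congr 1
    push_cast
    ring
  rw [mul_add, hp hz (mul_mem_LG α hl), hp (fun h => hz (mul_mem_LG α h)) hl, h1] at h2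
  have h3 : Real.log ‖kF α (z + l)‖ = Real.log ‖kF α z‖ := by linarith
  exact Real.log_injOn_pos (norm_pos_iff.2 (kF_ne h0)) (norm_pos_iff.2 (kF_ne hz)) h3

private lemma kc_codiscrete {α : GaussianInt} (hα : IsOdd α) :
    ∀ᶠ z in codiscrete ℂ, (α : ℂ) * z ∉ LG.lattice := by
  have h1 : {z : ℂ | (α : ℂ) * z ∉ LG.lattice} ∈ codiscrete ℂ := by
    rw [mem_codiscrete]
    intro z
    rw [disjoint_principal_right, compl_compl]
    have h2 : meromorphicOrderAt (PP 1 ∘ fun z => (α : ℂ) * z) z ≠ ⊤ := by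
      rw [kc_comp_ord hα]
      exact WithTop.coe_ne_top
    have h3 := (meromorphicOrderAt_ne_top_iff_eventually_ne_zero
      (kc_comp_an α z).meromorphicAt).1 h2
    filter_upwards [h3] with y hy
    exact fun h => hy ((kc_zero _).2 h)
  exact h1

private lemma kc_nhdsNE {P : ℂ → Prop} (h : ∀ᶠ z in codiscrete ℂ, P z) (z : ℂ) :
    ∀ᶠ y in 𝓝[≠] z, P y := by
  have h1 : {y | P y} ∈ codiscrete ℂ := h
  rw [mem_codiscrete] at h1
  have h2 := h1 z
  rw [disjoint_principal_right, compl_compl] at h2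
  exact h2

theorem kron_const {α : GaussianInt} (hα : IsOdd α) : ∃ d : ℝ, ∀ z : ℂ, α * z ∉ LG.lattice →
    nG α * BB 1 z - BB 1 (α * z) + 2 * Real.log ‖PsiG α z‖ = d := by
  have hm : ∀ z, MeromorphicAt (kF α * (PsiG α)⁻¹) z := fun z =>
    (kF_mer α z).mul (PsiG_meromorphic α z).inv
  have ho : ∀ z, 0 ≤ meromorphicOrderAt (kF α * (PsiG α)⁻¹) z := by
    intro z
    rw [meromorphicOrderAt_mul (kF_mer α z) (PsiG_meromorphic α z).inv, meromorphicOrderAt_inv,
      kF_ord hα, PsiG_order hα]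
    norm_cast
    simp
  have hp : ∀ l ∈ LG.lattice, ∀ᶠ z in codiscrete ℂ,
      ‖(kF α * (PsiG α)⁻¹) (z + l)‖ = ‖(kF α * (PsiG α)⁻¹) z‖ := by
    intro l hl
    filter_upwards [kc_codiscrete hα] with z hz
    simp only [Pi.mul_apply, Pi.inv_apply, norm_mul, norm_inv]
    rw [kF_per hz hl, PsiG_add_coe α z hl]
  obtain ⟨c, hc⟩ := liouville LG hm ho hp
  refine ⟨-2 * Real.log ‖c‖, fun z hz => ?_⟩
  have hcont : ContinuousAt (kF α * (PsiG α)⁻¹) z :=
    ((kF_an hz).mul ((PsiG_analytic hα hz).inv (PsiG_ne_zero hα hz))).continuousAt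
  have h1 : (kF α * (PsiG α)⁻¹) z = c := by
    have h2 : Tendsto (kF α * (PsiG α)⁻¹) (𝓝[≠] z) (𝓝 ((kF α * (PsiG α)⁻¹) z)) :=
      hcont.tendsto.mono_left nhdsWithin_le_nhds
    have h3 : Tendsto (kF α * (PsiG α)⁻¹) (𝓝[≠] z) (𝓝 c) :=
      tendsto_const_nhds.congr' ((kc_nhdsNE hc z).mono fun y hy => hy.symm)
    exact tendsto_nhds_unique h2 h3
  rw [kF_log hz, ← h1]
  simp only [Pi.mul_apply, Pi.inv_apply, norm_mul, norm_inv]
  rw [Real.log_mul (norm_ne_zero_iff.2 (kF_ne hz))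
    (inv_ne_zero (norm_ne_zero_iff.2 (PsiG_ne_zero hα hz))), Real.log_inv]
  ring

end Pool.Agent.CMG
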