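import Mathlib
import Pool.Agent.CMG.EDefs

/-!
# Gaussian integers of norm 1 modulo 8N

For an integer `t` put `θ = 1 + t i`, `w = θ + x̄ θ̄ = A + t B`, `A = 1 + x̄`, `B = i (1 - x̄)`. Then
`x w = xθ + x x̄ θ̄ ≡ xθ + θ̄ = w̄` mod `8N`. `A - i B = 2`, so no odd prime divides `A` and `B`, and
`(1+i)^3` does not divide both. For a rational odd prime `q ∣ N` and a Gaussian prime `π ∣ q`: `π ∣ w`
iff `π̄ ∣ w` (from `x w ≡ w̄` mod `q`). Choose `t` = product of the odd primes `q ∣ N` such that no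
Gaussian prime over `q` divides `A`, times `8` if `(1+i)^3 ∤ A`. Then no odd prime divisor of `N` divides
`w = A + tB` (if `π ∣ A` then `π̄ ∣ A` (case `t = 0` of the above), `q ∤ t`, `π ∤ B`), and
`(1+i)^3 ∤ w`. Write `w = (1+i)^k u`, `k ≤ 2`, `1+i ∤ u`: `u` is prime to `N`; `(1 - i) = -i (1+i)` gives
`(1+i)^k (x u - (-i)^k ū) ≡ 0` mod `8N`, and `8N/(1+i)^k` is divisible by `N`. `ε = (-i)^k`.
(`N` odd is allowed.)
-/

set_option autoImplicit false

noncomputable section

open NumberField Module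

namespace Pool.Agent.CMG

private lemma gi_dvd_iff (q : ℤ) (w : GaussianInt) :
    ((q : ℤ) : GaussianInt) ∣ w ↔ q ∣ w.re ∧ q ∣ w.im := by
  exact Zsqrtd.intCast_dvd q w

private lemma norm_eq (w : GaussianInt) : ((w.norm : ℤ) : GaussianInt) = w * star w := by
  exact Zsqrtd.norm_eq_mul_conj w

private lemma norm_val (w : GaussianInt) : w.norm = w.re * w.re + w.im * w.im := by
  rw [Zsqrtd.norm_def]; ring

/-- squares modulo odd primes -/
private lemma sq_dvd {q : ℤ} (hq : Prime q) (hq2 : ¬ q ∣ 2) {w : GaussianInt}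
    (h : ((q : ℤ) : GaussianInt) ∣ w * w) : ((q : ℤ) : GaussianInt) ∣ w := by
  rw [gi_dvd_iff] at h ⊢
  obtain ⟨h1, h2⟩ := h
  have h1' : q ∣ w.re * w.re - w.im * w.im := by
    have : (w * w).re = w.re * w.re - w.im * w.im := by
      simp [Zsqrtd.re_mul]; ring
    rwa [this] at h1
  have h2' : q ∣ 2 * (w.re * w.im) := by
    have : (w * w).im = 2 * (w.re * w.im) := by
      simp [Zsqrtd.im_mul]; ring
    rwa [this] at h2
  have h3 : q ∣ w.re * w.im := (hq.dvd_or_dvd h2').resolve_left hq2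
  rcases hq.dvd_or_dvd h3 with h | h
  · refine ⟨h, ?_⟩
    have : q ∣ w.im * w.im := by
      have h4 : q ∣ w.re * w.re := h.mul_right _
      have := dvd_sub h4 h1'
      simpa using this
    exact (hq.dvd_or_dvd this).elim id id
  · refine ⟨?_, h⟩
    have : q ∣ w.re * w.re := by
      have h4 : q ∣ w.im * w.im := h.mul_right _
      have := dvd_add h1' h4
      simpa using this
    exact (hq.dvd_or_dvd this).elim id id

private def pi1 : GaussianInt := ⟨1, 1⟩

private lemma pi1_dvd {w : GaussianInt} (h : Even w.norm) : pi1 ∣ w := by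
  rw [norm_val] at h
  have h1 : Even (w.re + w.im) := by
    rcases Int.even_or_odd w.re with h2 | h2 <;> rcases Int.even_or_odd w.im with h3 | h3
    · exact h2.add h3
    · exfalso
      have := (h2.mul_right w.re).add_odd (h3.mul h3)
      exact (Int.not_even_iff_odd.mpr this) h
    · exfalso
      have := (h2.mul h2).add_even (h3.mul_right w.im)
      exact (Int.not_even_iff_odd.mpr this) h
    · exact h2.add_odd h3
  obtain ⟨m, hm⟩ := h1
  refine ⟨⟨m, m - w.re⟩, ?_⟩
  ext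
  · simp [pi1, Zsqrtd.re_mul]
  · simp [pi1, Zsqrtd.im_mul]; linarith

private lemma pi1_star : star pi1 = ⟨0, -1⟩ * pi1 := by
  ext <;> simp [pi1, Zsqrtd.re_mul, Zsqrtd.im_mul]

private lemma pi1_mul_star : pi1 * star pi1 = 2 := by
  ext <;> simp [pi1, Zsqrtd.re_mul, Zsqrtd.im_mul]

private lemma norm_pi1 : pi1.norm = 2 := by
  rw [norm_val]; simp [pi1]

private lemma pi3_dvd_eight : pi1 ^ 3 ∣ (8 : GaussianInt) := by
  refine ⟨star pi1 ^ 3, ?_⟩
  rw [← mul_pow, pi1_mul_star]; norm_num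

private lemma not_pi3_dvd_two : ¬ pi1 ^ 3 ∣ (2 : GaussianInt) := by
  rintro ⟨c, hc⟩
  have h := congrArg Zsqrtd.norm hc
  rw [Zsqrtd.norm_mul] at h
  have h1 : (pi1 ^ 3).norm = 8 := by
    rw [pow_succ, pow_succ, pow_one, Zsqrtd.norm_mul, Zsqrtd.norm_mul, norm_pi1]; norm_num
  have h2 : (2 : GaussianInt).norm = 4 := by
    rw [norm_val]; simp
  rw [h1, h2] at h
  omega

private lemma unit_negI : IsUnit (⟨0, -1⟩ : GaussianInt) := by
  refine IsUnit.of_mul_eq_one ⟨0, 1⟩ ?_
  ext <;> simp [Zsqrtd.re_mul, Zsqrtd.im_mul]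


/-- the choice of `t` -/
private lemma exists_t (N : ℕ) (hN0 : N ≠ 0) (A : GaussianInt) :
    ∃ t : ℤ, (∀ q : ℕ, q.Prime → q ≠ 2 → q ∣ N →
      (((q : ℤ) : GaussianInt) ∣ A → ¬ (q : ℤ) ∣ t) ∧ (¬ ((q : ℤ) : GaussianInt) ∣ A → (q : ℤ) ∣ t)) ∧
      (pi1 ^ 3 ∣ A → Odd t) ∧ (¬ pi1 ^ 3 ∣ A → 8 ∣ t) := by
  classical
  set S : Finset ℕ := N.primeFactors.filter fun q : ℕ => q ≠ 2 ∧ ¬ ((q : ℤ) : GaussianInt) ∣ A with hS
  have hodd : Odd (∏ q ∈ S, (q : ℤ)) := by
    refine Finset.prod_induction _ Odd (fun a b ha hb => ha.mul hb) odd_one ?_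
    intro q hq
    rw [hS, Finset.mem_filter] at hq
    exact_mod_cast (Nat.prime_of_mem_primeFactors hq.1).odd_of_ne_two hq.2.1
  have key : ∀ q : ℕ, q.Prime → q ≠ 2 → q ∣ N →
      (((q : ℤ) : GaussianInt) ∣ A → ¬ (q : ℤ) ∣ ∏ q ∈ S, (q : ℤ)) ∧
      (¬ ((q : ℤ) : GaussianInt) ∣ A → (q : ℤ) ∣ ∏ q ∈ S, (q : ℤ)) := by
    intro q hq hq2 hqN
    refine ⟨fun hA hd => ?_, fun hA => ?_⟩
    · obtain ⟨r, hr, hd'⟩ := (Prime.dvd_finsetProd_iff (Nat.prime_iff_prime_int.mp hq) _).mp hd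
      rw [hS, Finset.mem_filter] at hr
      have h1 : q ∣ r := by exact_mod_cast hd'
      have h2 := (Nat.prime_dvd_prime_iff_eq hq (Nat.prime_of_mem_primeFactors hr.1)).mp h1
      subst h2
      exact hr.2.2 hA
    · apply Finset.dvd_prod_of_mem (fun q : ℕ => (q : ℤ))
      rw [hS, Finset.mem_filter]
      exact ⟨Nat.mem_primeFactors.mpr ⟨hq, hqN, hN0⟩, hq2, hA⟩
  by_cases h3 : pi1 ^ 3 ∣ A
  · exact ⟨_, key, fun _ => hodd, fun h => absurd h3 h⟩
  · refine ⟨8 * ∏ q ∈ S, (q : ℤ), ?_, fun h => absurd h h3, fun _ => dvd_mul_right _ _⟩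
    intro q hq hq2 hqN
    refine ⟨fun hA hd => ?_, fun hA => ((key q hq hq2 hqN).2 hA).mul_left _⟩
    have hp := Nat.prime_iff_prime_int.mp hq
    rcases hp.dvd_or_dvd hd with h | h
    · have h1 : (q : ℤ) ∣ 2 ^ 3 := by norm_num; exact h
      have h2 : (q : ℤ) ∣ 2 := hp.dvd_of_dvd_pow h1
      have h3 : q ∣ 2 := by exact_mod_cast h2
      exact hq2 ((Nat.prime_dvd_prime_iff_eq hq Nat.prime_two).mp h3)
    · exact (key q hq hq2 hqN).1 hA h

/-- elements of norm `1` modulo `8N` are quotients of conjugates, up to units -/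
theorem norm_one_lemma {N : ℕ} (hN0 : N ≠ 0) {x : GaussianInt}
    (hn : ((8 * N : ℕ) : GaussianInt) ∣ x * star x - 1) :
    ∃ ε u : GaussianInt, IsUnit ε ∧ IsCoprime u (N : GaussianInt) ∧
      (N : GaussianInt) ∣ x * u - ε * star u := by
  set II : GaussianInt := ⟨0, 1⟩ with hII
  set A : GaussianInt := 1 + star x with hA
  set B : GaussianInt := II * (1 - star x) with hB
  have hIsq : II * II = -1 := by ext <;> simp [hII, Zsqrtd.re_mul, Zsqrtd.im_mul]
  have hIst : star II = -II := by ext <;> simp [hII]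
  have hAB : A - II * B = 2 := by
    rw [hA, hB, ← mul_assoc, hIsq]; ring
  obtain ⟨t, ht1, ht2, ht3⟩ := exists_t N hN0 A
  set w : GaussianInt := A + (t : GaussianInt) * B with hw
  have hwst : star w = 1 + x - (t : GaussianInt) * (II * (1 - x)) := by
    rw [hw, hA, hB]
    simp only [star_add, star_mul, star_sub, star_star, star_one, hIst, star_intCast]
    ring
  have hxw : ((8 * N : ℕ) : GaussianInt) ∣ x * w - star w := by
    have h1 : x * w - star w = (x * star x - 1) * (1 - (t : GaussianInt) * II) := by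
      rw [hwst, hw, hA, hB]; ring
    rw [h1]
    exact hn.mul_right _
  -- odd primes
  have hodd : ∀ q : ℕ, q.Prime → q ≠ 2 → q ∣ N → ¬ (q : ℤ) ∣ w.norm := by
    intro q hq hq2 hqN hd
    have hp := Nat.prime_iff_prime_int.mp hq
    have hq2' : ¬ (q : ℤ) ∣ 2 := by
      intro h
      have h3 : q ∣ 2 := by exact_mod_cast h
      exact hq2 ((Nat.prime_dvd_prime_iff_eq hq Nat.prime_two).mp h3)
    have hqN' : ((q : ℤ) : GaussianInt) ∣ ((8 * N : ℕ) : GaussianInt) := by
      obtain ⟨m, hm⟩ := hqN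
      exact ⟨((8 * m : ℕ) : GaussianInt), by rw [hm]; push_cast; ring⟩
    have h1 : ((q : ℤ) : GaussianInt) ∣ w * star w := by
      rw [← norm_eq]
      obtain ⟨m, hm⟩ := hd
      exact ⟨(m : GaussianInt), by rw [hm]; push_cast; ring⟩
    -- `x w² ≡ w w̄`
    have h2 : ((q : ℤ) : GaussianInt) ∣ x * (w * w) := by
      have h3 : x * (w * w) = (x * w - star w) * w + w * star w := by ring
      rw [h3]
      exact dvd_add ((hqN'.trans hxw).mul_right _) h1
    have h4 : ((q : ℤ) : GaussianInt) ∣ w * w := by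
      have h5 : w * w = star x * (x * (w * w)) - (x * star x - 1) * (w * w) := by ring
      rw [h5]
      exact dvd_sub (h2.mul_left _) ((hqN'.trans hn).mul_right _)
    have h6 := sq_dvd hp hq2' h4
    by_cases hqA : ((q : ℤ) : GaussianInt) ∣ A
    · have h7 : ((q : ℤ) : GaussianInt) ∣ (t : GaussianInt) * B := by
        have h8 : (t : GaussianInt) * B = w - A := by rw [hw]; ring
        rw [h8]
        exact dvd_sub h6 hqA
      have h9 : ((q : ℤ) : GaussianInt) ∣ B := by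
        rw [gi_dvd_iff] at h7 ⊢
        have e1 : ((t : GaussianInt) * B).re = t * B.re := by simp [Zsqrtd.re_mul]
        have e2 : ((t : GaussianInt) * B).im = t * B.im := by simp [Zsqrtd.im_mul]
        rw [e1, e2] at h7
        have hnt := (ht1 q hq hq2 hqN).1 hqA
        exact ⟨(hp.dvd_or_dvd h7.1).resolve_left hnt, (hp.dvd_or_dvd h7.2).resolve_left hnt⟩
      have h10 : ((q : ℤ) : GaussianInt) ∣ 2 := by
        rw [← hAB]
        exact dvd_sub hqA (h9.mul_left _)
      rw [gi_dvd_iff] at h10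
      exact hq2' (by simpa using h10.1)
    · apply hqA
      have h7 : A = w - (t : GaussianInt) * B := by rw [hw]; ring
      rw [h7]
      refine dvd_sub h6 (Dvd.dvd.mul_right ?_ _)
      obtain ⟨m, hm⟩ := (ht1 q hq hq2 hqN).2 hqA
      exact ⟨(m : GaussianInt), by rw [hm]; push_cast; ring⟩
  -- the prime `1 + i`
  have h3w : ¬ pi1 ^ 3 ∣ w := by
    intro h
    by_cases h3 : pi1 ^ 3 ∣ A
    · have ht := ht2 h3
      have h4 : pi1 ^ 3 ∣ (t : GaussianInt) * B := by
        have h8 : (t : GaussianInt) * B = w - A := by rw [hw]; ring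
        rw [h8]
        exact dvd_sub h h3
      have h5 : (8 : ℤ) ∣ t ^ 2 - 1 := by
        obtain ⟨m, hm⟩ := ht
        obtain ⟨c, hc⟩ := Int.even_mul_succ_self m
        exact ⟨c, by rw [hm]; linear_combination 4 * hc⟩
      have h6 : pi1 ^ 3 ∣ B := by
        obtain ⟨m, hm⟩ := h5
        have h7 : B = (t : GaussianInt) * ((t : GaussianInt) * B) - 8 * ((m : GaussianInt) * B) := by
          have h8 : (t : GaussianInt) ^ 2 = 1 + 8 * (m : GaussianInt) := by
            have : t ^ 2 = 1 + 8 * m := by linarith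
            exact_mod_cast congrArg (fun z : ℤ => (z : GaussianInt)) this
          linear_combination (-B) * h8
        rw [h7]
        exact dvd_sub (h4.mul_left _) (pi3_dvd_eight.mul_right _)
      apply not_pi3_dvd_two
      rw [← hAB]
      exact dvd_sub h3 (h6.mul_left _)
    · apply h3
      have h7 : A = w - (t : GaussianInt) * B := by rw [hw]; ring
      rw [h7]
      refine dvd_sub h (Dvd.dvd.mul_right ?_ _)
      obtain ⟨m, hm⟩ := ht3 h3
      refine pi3_dvd_eight.trans ⟨(m : GaussianInt), by rw [hm]; push_cast; ring⟩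
  -- extraction of the power of `1 + i`
  obtain ⟨k, u, hk, hwu, hu⟩ : ∃ (k : ℕ) (u : GaussianInt), k ≤ 2 ∧ w = pi1 ^ k * u ∧ Odd u.norm := by
    by_cases e0 : Odd w.norm
    · exact ⟨0, w, by omega, by simp, e0⟩
    obtain ⟨w1, hw1⟩ := pi1_dvd (Int.not_odd_iff_even.mp e0)
    by_cases e1 : Odd w1.norm
    · exact ⟨1, w1, by omega, by rw [hw1, pow_one], e1⟩
    obtain ⟨w2, hw2⟩ := pi1_dvd (Int.not_odd_iff_even.mp e1)
    by_cases e2 : Odd w2.norm
    · exact ⟨2, w2, by omega, by rw [hw1, hw2]; ring, e2⟩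
    obtain ⟨w3, hw3⟩ := pi1_dvd (Int.not_odd_iff_even.mp e2)
    exact absurd ⟨w3, by rw [hw1, hw2, hw3]; ring⟩ h3w
  have hnw : w.norm = pi1.norm ^ k * u.norm := by
    rw [hwu, Zsqrtd.norm_mul]
    congr 1
    exact map_pow (Zsqrtd.normMonoidHom (d := -1)) pi1 k
  refine ⟨(⟨0, -1⟩ : GaussianInt) ^ k, u, unit_negI.pow k, ?_, ?_⟩
  · have hc : IsCoprime u.norm (N : ℤ) := by
      rw [Int.isCoprime_iff_gcd_eq_one]
      by_contra hg
      obtain ⟨q, hq, hqd⟩ := Nat.exists_prime_and_dvd hg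
      have hd1 : (q : ℤ) ∣ u.norm := (Int.natCast_dvd_natCast.mpr hqd).trans (Int.gcd_dvd_left _ _)
      have hd2 : (q : ℤ) ∣ (N : ℤ) := (Int.natCast_dvd_natCast.mpr hqd).trans (Int.gcd_dvd_right _ _)
      have hd2' : q ∣ N := by exact_mod_cast hd2
      by_cases h2 : q = 2
      · subst h2
        exact (Int.not_even_iff_odd.mpr hu) (even_iff_two_dvd.mpr hd1)
      · exact hodd q hq h2 hd2' (hnw ▸ hd1.mul_left _)
    obtain ⟨a, b, hab⟩ := hc
    refine ⟨(a : GaussianInt) * star u, (b : GaussianInt), ?_⟩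
    have h1 := congrArg (fun z : ℤ => (z : GaussianInt)) hab
    simp only [Int.cast_add, Int.cast_mul, Int.cast_one, norm_eq, Int.cast_natCast] at h1
    linear_combination h1
  · obtain ⟨y, hy⟩ := hxw
    have hst : star w = (⟨0, -1⟩ : GaussianInt) ^ k * pi1 ^ k * star u := by
      rw [hwu, star_mul, star_pow, pi1_star, mul_pow]; ring
    have h1 : pi1 ^ k * (x * u - (⟨0, -1⟩ : GaussianInt) ^ k * star u) = 8 * (N : GaussianInt) * y := by
      have h2 : pi1 ^ k * (x * u - (⟨0, -1⟩ : GaussianInt) ^ k * star u) = x * w - star w := by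
        rw [hst]
        conv_rhs => rw [hwu]
        ring
      rw [h2, hy]; push_cast; ring
    have h2 : (2 : GaussianInt) ^ k * (x * u - (⟨0, -1⟩ : GaussianInt) ^ k * star u) =
        8 * (N : GaussianInt) * y * star pi1 ^ k := by
      rw [← h1, ← pi1_mul_star, mul_pow]; ring
    obtain ⟨m, hm⟩ : ∃ m, 3 = k + m := ⟨3 - k, by omega⟩
    have h3 : (2 : GaussianInt) ^ k * (x * u - (⟨0, -1⟩ : GaussianInt) ^ k * star u) =
        2 ^ k * ((N : GaussianInt) * (2 ^ m * y * star pi1 ^ k)) := by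
      rw [h2]
      have h4 : (8 : GaussianInt) = 2 ^ k * 2 ^ m := by
        rw [← pow_add, ← hm]; norm_num
      rw [h4]; ring
    have h5 : (2 : GaussianInt) ^ k ≠ 0 := by
      apply pow_ne_zero
      intro h
      have := congrArg Zsqrtd.re h
      simp at this
    exact ⟨_, mul_left_cancel₀ h5 h3⟩

end Pool.Agent.CMG
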