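import Pool.Agent.CMG.SDefs
import Pool.Agent.StarkRQ.Root

/-!
# Auxiliary results for the existence of Stark units
-/

set_option autoImplicit false

noncomputable section

open NumberField Pool.Agent.StarkRQ

namespace Pool.Agent.CMG

theorem coprime_nrm {k : Type} [Field k] [NumberField k] {β : 𝓞 k} {R : ℕ}
    (h : IsCoprime β (R : 𝓞 k)) : (nrm β).Coprime R := by
  by_contra hc
  obtain ⟨p, hp, hpn, hpR⟩ := Nat.Prime.not_coprime_iff_dvd.1 hc
  obtain ⟨P, hP, h1, h2⟩ := Ideal.exists_isMaximal_dvd_of_dvd_absNorm' hp _ hpn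
  have hβ : β ∈ P := (Ideal.span_singleton_le_iff_mem _).1 (Ideal.le_of_dvd h2)
  have hpP : ((p : ℤ) : 𝓞 k) ∈ P := by
    have : ((p : ℤ)) ∈ P.under ℤ := by
      rw [h1]
      exact Ideal.mem_span_singleton_self _
    simpa [Ideal.mem_comap] using this
  obtain ⟨u, v, huv⟩ := h
  have hR : (R : 𝓞 k) ∈ P := by
    obtain ⟨t, rfl⟩ := hpR
    rw [Nat.cast_mul]
    exact Ideal.mul_mem_right _ _ (by simpa using hpP)
  refine hP.ne_top ((Ideal.eq_top_iff_one P).2 ?_)
  rw [← huv]
  exact add_mem (Ideal.mul_mem_left _ _ hβ) (Ideal.mul_mem_left _ _ hR)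

theorem exists_shift {R : Type*} [CommRing R] [IsDomain R] [IsPrincipalIdealRing R] {b N m : R}
    (h : IsCoprime b N) (hm : m ≠ 0) : ∃ t, IsCoprime (b + N * t) (m * N) := by
  classical
  let l := (UniqueFactorizationMonoid.factors m).filter (fun q => ¬ q ∣ b)
  have hN : IsCoprime (b + N * l.prod) N := by
    obtain ⟨u, v, huv⟩ := h
    exact ⟨u, v - u * l.prod, by linear_combination huv⟩
  refine ⟨l.prod, IsCoprime.mul_right ?_ hN⟩
  refine isCoprime_of_prime_dvd (fun hh => hm hh.2) ?_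
  intro q hq hqb hqm
  obtain ⟨q', hq', hqq'⟩ := UniqueFactorizationMonoid.exists_mem_factors_of_dvd hm hq.irreducible hqm
  by_cases hb : q ∣ b
  · have h1 : q ∣ N * l.prod := by
      have := dvd_sub hqb hb
      rwa [add_sub_cancel_left] at this
    rcases hq.dvd_or_dvd h1 with h2 | h2
    · obtain ⟨u, v, huv⟩ := h
      exact hq.not_isUnit (isUnit_of_dvd_one (huv ▸ dvd_add (hb.mul_left u) (h2.mul_left v)))
    · obtain ⟨r, hr, hqr⟩ := hq.exists_mem_multiset_dvd h2
      obtain ⟨hr1, hr2⟩ := Multiset.mem_filter.1 hr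
      have hr3 := UniqueFactorizationMonoid.prime_of_factor r hr1
      exact hr2 (((hq.associated_of_dvd hr3 hqr).symm.dvd).trans hb)
  · have h1 : q ∣ l.prod := by
      refine hqq'.dvd.trans (Multiset.dvd_prod (Multiset.mem_filter.2 ⟨hq', fun h => hb (hqq'.dvd.trans h)⟩))
    refine hb ?_
    have := dvd_sub hqb (h1.mul_left N)
    rwa [add_sub_cancel_right] at this

theorem ramified_of_dvd {M : Type} [Field M] [NumberField M] {p : ℕ} (hp : p.Prime) (hp2 : p ≠ 2)
    (h : p ∣ Units.torsionOrder M) : (p : ℤ) ∣ discr M := by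
  obtain ⟨ξ, hξ⟩ := exists_primRoot M
  obtain ⟨t, ht⟩ := h
  have : Fact p.Prime := ⟨hp⟩
  have : NeZero p := ⟨hp.ne_zero⟩
  have h1 : IsPrimitiveRoot (ξ ^ t) p := by
    refine hξ.pow (Units.torsionOrder_pos M) ?_
    rw [ht, mul_comm]
  have : IsCyclotomicExtension {p} ℚ (IntermediateField.adjoin ℚ {ξ ^ t}) :=
    h1.intermediateField_adjoin_isCyclotomicExtension ℚ
  have h2 := IsCyclotomicExtension.Rat.discr_prime p (IntermediateField.adjoin ℚ {ξ ^ t})
  have h3 := discr_dvd_discr (IntermediateField.adjoin ℚ {ξ ^ t}) M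
  rw [h2] at h3
  refine dvd_trans ?_ h3
  refine Dvd.dvd.mul_left (dvd_pow_self _ ?_) _
  have := hp.two_le
  omega

theorem IsEpstein.congr {k : Type} [Field k] [NumberField k] [Algebra k ℂ] {N : ℕ} (hN : N ≠ 0)
    {a b : 𝓞 k} (h : (N : 𝓞 k) ∣ a - b) {Z : ℂ → ℂ} (hZ : IsEpstein k (pt a N) Z) :
    IsEpstein k (pt b N) Z := by
  obtain ⟨c, hc⟩ := h
  refine ⟨hZ.diff, fun s hs => ?_, hZ.zero⟩
  have h1 := hZ.sum s hs
  rw [← (Equiv.addRight (-c)).hasSum_iff] at h1
  convert h1 using 2 with ω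
  simp only [Function.comp, Equiv.coe_addRight]
  congr 4
  have h2 : (a : k) = b + N * c := by
    have := congrArg (fun x : 𝓞 k => (x : k)) hc
    simp only [map_sub, map_mul, map_natCast] at this
    linear_combination this
  have h3 : (N : ℂ) ≠ 0 := Nat.cast_ne_zero.2 hN
  simp only [pt, h2, map_add, map_mul, map_neg, map_natCast]
  field_simp
  ring

end Pool.Agent.CMG
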