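import Pool.Agent.CMG.SDefs
import Pool.Agent.CMG.SMisc
import Pool.Agent.StarkRQ.ArtSpec

/-!
# S9: partial zeta functions as sums of Epstein zeta functions

Differentiability off `1` is clear. For `Re s > 1`: `IsEpstein` at `pt a N`, `a` a representative of `u`,
says `N^{-2s} Zc u s = ∑_{b ≡ a mod N} |b|^{-2s}` (`|z + ω| = |a + Nω|/N`), with `|b|² = nrm b` (`nrm_eq`).
So the right side is `w⁻¹ ∑_b (nrm b)^{-s}` over all `b` prime to `N` with `ρ (cls b) = σ`, i.e. over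
generators of ideals prime to `N` with Artin symbol `σ`; every ideal is principal and has exactly
`w = Nat.card (𝓞 k)ˣ` generators. `IsCoprime b N` iff `(nrm b).Coprime N`. Group by the norm `n` to
get `∑ zcoeff N σ n / n^s = LSeries` (regrouping of a summable family: `HasSum.sigma`,
`Equiv.sigmaFiberEquiv`). (`N ≥ 3` by `D.units_inj` for `ε = -1`, so `b ≠ 0` if `b` is prime to `N`.)
-/

set_option autoImplicit false

noncomputable section

open NumberField Pool.Agent.StarkRQ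

namespace Pool.Agent.CMG

set_option linter.unusedSectionVars false

section

variable {k : Type} [Field k] [NumberField k]

private theorem nrm_ne_zero {b : 𝓞 k} (hb : b ≠ 0) : nrm b ≠ 0 := by
  intro h
  rw [nrm, Ideal.absNorm_eq_zero_iff, Ideal.span_singleton_eq_bot] at h
  exact hb h

private theorem coprime_iff {b : 𝓞 k} (hb : b ≠ 0) (N : ℕ) :
    IsCoprime b (N : 𝓞 k) ↔ (nrm b).Coprime N := by
  constructor
  · intro h
    by_contra hc
    obtain ⟨p, hp, hpb, hpN⟩ := Nat.Prime.not_coprime_iff_dvd.1 hc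
    have := Fact.mk hp
    have : Finite (𝓞 k ⧸ Ideal.span {b}) := by
      apply Ideal.finiteQuotientOfFreeOfNeBot
      rwa [Ne, Ideal.span_singleton_eq_bot]
    let := Fintype.ofFinite (𝓞 k ⧸ Ideal.span {b})
    have h1 : p ∣ Fintype.card (𝓞 k ⧸ Ideal.span {b}) := by
      rw [← Nat.card_eq_fintype_card, ← Submodule.cardQuot_apply, ← Ideal.absNorm_apply]
      exact hpb
    obtain ⟨x, hx⟩ := exists_prime_addOrderOf_dvd_card p h1
    have h2 : (p : 𝓞 k ⧸ Ideal.span {b}) * x = 0 := by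
      rw [← nsmul_eq_mul, ← hx]
      exact addOrderOf_nsmul_eq_zero x
    obtain ⟨u, v, huv⟩ := h
    obtain ⟨c, rfl⟩ := hpN
    have h3 : Ideal.Quotient.mk (Ideal.span {b}) (v * c) * (p : 𝓞 k ⧸ Ideal.span {b}) = 1 := by
      rw [← map_natCast (Ideal.Quotient.mk (Ideal.span {b})), ← map_mul,
        ← map_one (Ideal.Quotient.mk (Ideal.span {b})), Ideal.Quotient.eq,
        Ideal.mem_span_singleton]
      refine ⟨-u, ?_⟩
      push_cast at huv
      linear_combination huv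
    have h4 : x = 0 := by
      rw [← one_mul x, ← h3, mul_assoc, h2, mul_zero]
    rw [h4, addOrderOf_zero] at hx
    exact hp.one_lt.ne hx
  · intro h
    have h1 : IsCoprime ((nrm b : ℕ) : 𝓞 k) (N : 𝓞 k) := by
      have h2 := (Nat.isCoprime_iff_coprime.2 h).map (Int.castRingHom (𝓞 k))
      simpa using h2
    exact h1.of_isCoprime_of_dvd_left (Ideal.mem_span_singleton.1 (Ideal.absNorm_mem _))

private theorem cls_val {N : ℕ} {a : 𝓞 k} (ha : IsCoprime a (N : 𝓞 k)) :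
    (cls N a ha : 𝓞 k ⧸ Ideal.span {(N : 𝓞 k)}) = Ideal.Quotient.mk _ a := rfl

private theorem cls_eq_iff {N : ℕ} {a b : 𝓞 k} (ha : IsCoprime a (N : 𝓞 k))
    (hb : IsCoprime b (N : 𝓞 k)) : cls N a ha = cls N b hb ↔ (N : 𝓞 k) ∣ a - b := by
  rw [Units.ext_iff, cls_val, cls_val, Ideal.Quotient.eq, Ideal.mem_span_singleton]

private theorem exists_rep {N : ℕ} (u : (𝓞 k ⧸ Ideal.span {(N : 𝓞 k)})ˣ) :
    ∃ (a : 𝓞 k) (ha : IsCoprime a (N : 𝓞 k)), cls N a ha = u := by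
  obtain ⟨a, ha⟩ := Ideal.Quotient.mk_surjective (u : 𝓞 k ⧸ Ideal.span {(N : 𝓞 k)})
  obtain ⟨b, hb⟩ := Ideal.Quotient.mk_surjective
    ((u⁻¹ : (𝓞 k ⧸ Ideal.span {(N : 𝓞 k)})ˣ) : 𝓞 k ⧸ Ideal.span {(N : 𝓞 k)})
  have h1 : Ideal.Quotient.mk (Ideal.span {(N : 𝓞 k)}) (a * b) =
      Ideal.Quotient.mk (Ideal.span {(N : 𝓞 k)}) 1 := by
    rw [map_mul, ha, hb, map_one, Units.mul_inv]
  rw [Ideal.Quotient.eq, Ideal.mem_span_singleton] at h1
  obtain ⟨c, hc⟩ := h1
  have h2 : IsCoprime a (N : 𝓞 k) := ⟨b, -c, by linear_combination hc⟩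
  exact ⟨a, h2, Units.ext (by rw [cls_val, ha])⟩

/-- Elements and their ideals. -/
private theorem span_equiv [IsPrincipalIdealRing (𝓞 k)] (Q : Ideal (𝓞 k) → Prop)
    (hQ : ∀ 𝔞, Q 𝔞 → 𝔞 ≠ ⊥) :
    Nonempty ({𝔞 : Ideal (𝓞 k) // Q 𝔞} × (𝓞 k)ˣ ≃ {b : 𝓞 k // Q (Ideal.span {b})}) := by
  have hg : ∀ 𝔞 : Ideal (𝓞 k), ∃ g : 𝓞 k, Ideal.span {g} = 𝔞 := fun 𝔞 =>
    ⟨Submodule.IsPrincipal.generator 𝔞, Ideal.span_singleton_generator 𝔞⟩
  choose g hg using hg
  have h1 : ∀ (𝔞 : Ideal (𝓞 k)) (ε : (𝓞 k)ˣ), Ideal.span {(ε : 𝓞 k) * g 𝔞} = 𝔞 := by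
    intro 𝔞 ε
    rw [← Ideal.span_singleton_mul_span_singleton, Ideal.span_singleton_eq_top.2 ε.isUnit,
      Ideal.top_mul, hg]
  refine ⟨Equiv.ofBijective (fun x => ⟨(x.2 : 𝓞 k) * g x.1.1, by rw [h1]; exact x.1.2⟩) ⟨?_, ?_⟩⟩
  · rintro ⟨⟨𝔞, h𝔞⟩, ε⟩ ⟨⟨𝔟, h𝔟⟩, δ⟩ h
    have h2 : (ε : 𝓞 k) * g 𝔞 = (δ : 𝓞 k) * g 𝔟 := congrArg Subtype.val h
    have h3 : 𝔞 = 𝔟 := by rw [← h1 𝔞 ε, h2, h1]
    subst h3
    have h4 : g 𝔞 ≠ 0 := by
      intro h5
      apply hQ 𝔞 h𝔞
      rw [← hg 𝔞, h5, Ideal.span_singleton_eq_bot]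
    have h5 : ε = δ := Units.ext (mul_right_cancel₀ h4 h2)
    rw [h5]
  · rintro ⟨b, hb⟩
    have h2 : Associated (g (Ideal.span {b})) b := by
      rw [← Ideal.span_singleton_eq_span_singleton, hg]
    obtain ⟨u, hu⟩ := h2
    refine ⟨(⟨Ideal.span {b}, hb⟩, u), Subtype.ext ?_⟩
    show (u : 𝓞 k) * g (Ideal.span {b}) = b
    rw [mul_comm]
    exact hu

end

private theorem not_hasArtinSymbol_bot {k M : Type} [Field k] [NumberField k] [Field M]
    [NumberField M] [Algebra k M] {𝔞 : Ideal (𝓞 k)} {σ : Gal(M/k)} (h : HasArtinSymbol 𝔞 σ) :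
    𝔞 ≠ ⊥ := by
  obtain ⟨l, hl, rfl, -⟩ := h
  rw [← Ideal.zero_eq_bot]
  intro h0
  rw [List.prod_eq_zero_iff, List.mem_map] at h0
  obtain ⟨x, hx, h1⟩ := h0
  exact (hl x hx).2.1 h1

private theorem hasSum_congr_aux {α β : Type*} [AddCommMonoid α] [TopologicalSpace α]
    {f g : β → α} {a : α} (h : HasSum f a) (hg : ∀ b, g b = f b) : HasSum g a := by
  rwa [funext hg]

private theorem norm_pt {k : Type} [Field k] [NumberField k] [Algebra k ℂ] (D : EllData k) {N : ℕ}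
    (hN0 : N ≠ 0) (a ω : 𝓞 k) (s : ℂ) :
    (N : ℂ) ^ (-2 * s) * ((‖pt a N + algebraMap k ℂ (ω : k)‖ ^ 2 : ℝ) : ℂ) ^ (-s) =
      ((nrm (a + (N : 𝓞 k) * ω) : ℕ) : ℂ) ^ (-s) := by
  have hN : (N : ℂ) ≠ 0 := Nat.cast_ne_zero.2 hN0
  have h0 : ((a + (N : 𝓞 k) * ω : 𝓞 k) : k) = (a : k) + (N : k) * (ω : k) := by
    simp
  have h1 : pt a N + algebraMap k ℂ (ω : k) =
      algebraMap k ℂ ((a + (N : 𝓞 k) * ω : 𝓞 k) : k) / N := by
    rw [pt, h0, map_add, map_mul, map_natCast]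
    field_simp
  have h2 : ‖pt a N + algebraMap k ℂ (ω : k)‖ ^ 2 =
      (nrm (a + (N : 𝓞 k) * ω) : ℝ) / ((N : ℝ) * (N : ℝ)) := by
    rw [h1, norm_div, div_pow, nrm_eq D, Complex.norm_natCast, sq (N : ℝ)]
  have h3 : (((N : ℝ) * (N : ℝ) : ℝ) : ℂ) ^ (-s) = (N : ℂ) ^ (-2 * s) := by
    rw [Complex.ofReal_mul, Complex.mul_cpow_ofReal_nonneg (Nat.cast_nonneg _) (Nat.cast_nonneg _),
      Complex.ofReal_natCast, ← Complex.cpow_add _ _ hN]
    congr 1
    ring
  rw [h2, Complex.ofReal_div, Complex.div_cpow_ofReal_nonneg (Nat.cast_nonneg _)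
    (mul_nonneg (Nat.cast_nonneg _) (Nat.cast_nonneg _)), h3, Complex.ofReal_natCast,
    mul_div_cancel₀]
  rw [Ne, Complex.cpow_eq_zero_iff]
  exact fun h => hN h.1

/-- S9 -/
theorem zeta_eq {k : Type} [Field k] [NumberField k] [Algebra k ℂ] (D : EllData k) {N : ℕ}
    (hN : D.N₀ ∣ N) (hN0 : N ≠ 0) {M : Type} [Field M] [NumberField M] [Algebra k M]
    [Fintype (𝓞 k ⧸ Ideal.span {(N : 𝓞 k)})ˣ]
    (ρ : (𝓞 k ⧸ Ideal.span {(N : 𝓞 k)})ˣ →* Gal(M/k))
    (hρ : ∀ (a : 𝓞 k) (ha : IsCoprime a (N : 𝓞 k)) (σ : Gal(M/k)),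
      HasArtinSymbol (Ideal.span {a}) σ ↔ σ = ρ (cls N a ha))
    (Zc : (𝓞 k ⧸ Ideal.span {(N : 𝓞 k)})ˣ → ℂ → ℂ)
    (hZc : ∀ (a : 𝓞 k) (ha : IsCoprime a (N : 𝓞 k)), IsEpstein k (pt a N) (Zc (cls N a ha)))
    (σ : Gal(M/k)) :
    IsPartialZeta N σ (fun s => (Nat.card (𝓞 k)ˣ : ℂ)⁻¹ * (N : ℂ) ^ (-2 * s) *
      ∑ u, open Classical in if ρ u = σ then Zc u s else 0) := by
  classical
  have := D.pid
  have : Finite (𝓞 k)ˣ := finite_units D
  have hNC : (N : ℂ) ≠ 0 := Nat.cast_ne_zero.2 hN0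
  have hw : (Nat.card (𝓞 k)ˣ : ℂ) ≠ 0 := Nat.cast_ne_zero.2 Nat.card_pos.ne'
  constructor
  · refine DifferentiableOn.mul ?_ ?_
    · refine (differentiableOn_const _).mul ?_
      refine Differentiable.differentiableOn ?_
      intro s
      exact DifferentiableAt.const_cpow (by fun_prop) (Or.inl hNC)
    · refine DifferentiableOn.fun_sum fun u _ => ?_
      split_ifs
      · obtain ⟨a, ha, rfl⟩ := exists_rep u
        exact (hZc a ha).diff
      · exact differentiableOn_const _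
  · intro s hs
    have hs0 : -s ≠ 0 := by
      intro h
      rw [neg_eq_zero] at h
      rw [h, Complex.zero_re] at hs
      linarith
    -- the sum over one class
    have h1 : ∀ u, HasSum (fun b : 𝓞 k => if ∃ hb : IsCoprime b (N : 𝓞 k), cls N b hb = u then
        ((nrm b : ℕ) : ℂ) ^ (-s) else 0) ((N : ℂ) ^ (-2 * s) * Zc u s) := by
      intro u
      obtain ⟨a, ha, rfl⟩ := exists_rep u
      have h2 := ((hZc a ha).sum s hs).mul_left ((N : ℂ) ^ (-2 * s))
      have hinj : Function.Injective fun ω : 𝓞 k => a + (N : 𝓞 k) * ω := by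
        intro x y h
        have h3 : (N : 𝓞 k) ≠ 0 := Nat.cast_ne_zero.2 hN0
        exact mul_left_cancel₀ h3 (add_left_cancel h)
      rw [← hinj.hasSum_iff]
      · refine hasSum_congr_aux h2 ?_
        intro ω
        have h4 : IsCoprime (a + (N : 𝓞 k) * ω) (N : 𝓞 k) := by
          rw [IsCoprime.add_mul_left_left_iff]
          exact ha
        have h5 : ∃ hb : IsCoprime (a + (N : 𝓞 k) * ω) (N : 𝓞 k),
            cls N (a + (N : 𝓞 k) * ω) hb = cls N a ha := by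
          refine ⟨h4, (cls_eq_iff h4 ha).2 ⟨ω, by ring⟩⟩
        rw [Function.comp_apply, if_pos h5]
        exact (norm_pt D hN0 a ω s).symm
      · intro b hb
        rw [if_neg]
        rintro ⟨hb', h3⟩
        rw [cls_eq_iff] at h3
        obtain ⟨c, hc⟩ := h3
        exact hb ⟨c, by simp only; linear_combination -hc⟩
    have h2 : HasSum (fun b : 𝓞 k => if ∃ hb : IsCoprime b (N : 𝓞 k), ρ (cls N b hb) = σ then
        ((nrm b : ℕ) : ℂ) ^ (-s) else 0)
        ((N : ℂ) ^ (-2 * s) * ∑ u, if ρ u = σ then Zc u s else 0) := by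
      rw [Finset.mul_sum]
      have h3 := hasSum_sum (s := Finset.univ) (f := fun u (b : 𝓞 k) => if ρ u = σ then
        (if ∃ hb : IsCoprime b (N : 𝓞 k), cls N b hb = u then ((nrm b : ℕ) : ℂ) ^ (-s) else 0)
        else 0) (a := fun u => (N : ℂ) ^ (-2 * s) * if ρ u = σ then Zc u s else 0) (by
          intro u _
          by_cases hu : ρ u = σ
          · simp only [hu, if_true]
            exact h1 u
          · simp only [hu, if_false, mul_zero]
            exact hasSum_zero)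
      refine hasSum_congr_aux h3 ?_
      intro b
      by_cases hb : IsCoprime b (N : 𝓞 k)
      · rw [Finset.sum_eq_single (cls N b hb)]
        · simp [hb]
        · intro u _ hu
          have h4 : ¬ ∃ hb : IsCoprime b (N : 𝓞 k), cls N b hb = u := fun ⟨_, h⟩ => hu h.symm
          rw [if_neg h4, ite_self]
        · intro h
          exact absurd (Finset.mem_univ _) h
      · have h4 : ¬ ∃ hb : IsCoprime b (N : 𝓞 k), ρ (cls N b hb) = σ := fun ⟨h, _⟩ => hb h
        rw [if_neg h4]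
        refine (Finset.sum_eq_zero fun u _ => ?_).symm
        have h5 : ¬ ∃ hb : IsCoprime b (N : 𝓞 k), cls N b hb = u := fun ⟨h, _⟩ => hb h
        rw [if_neg h5, ite_self]
    have h3 : HasSum (fun n : ℕ => (Nat.card (𝓞 k)ˣ : ℂ) *
        LSeries.term (fun n => (zcoeff N σ n : ℂ)) s n)
        ((N : ℂ) ^ (-2 * s) * ∑ u, if ρ u = σ then Zc u s else 0) := by
      refine HasSum.sigma ((Equiv.sigmaFiberEquiv (nrm : 𝓞 k → ℕ)).hasSum_iff.2 h2) ?_
      intro n
      rcases eq_or_ne n 0 with rfl | hn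
      · rw [LSeries.term_zero, mul_zero]
        refine hasSum_congr_aux (hasSum_zero (α := ℂ)) ?_
        rintro ⟨b, hb⟩
        show (if _ then ((nrm b : ℕ) : ℂ) ^ (-s) else 0) = 0
        rw [hb, Nat.cast_zero, Complex.zero_cpow hs0, ite_self]
      · have hQ : ∀ 𝔞 : Ideal (𝓞 k), Ideal.absNorm 𝔞 = n → 𝔞 ≠ ⊥ := by
          rintro 𝔞 h rfl
          rw [Ideal.absNorm_bot] at h
          exact hn h.symm
        have hfin : Finite {𝔞 : Ideal (𝓞 k) // Ideal.absNorm 𝔞 = n} :=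
          (Ideal.finite_setOfPred_absNorm_eq n).to_subtype
        have : Finite {b : 𝓞 k // nrm b = n} := by
          obtain ⟨e⟩ := span_equiv (fun 𝔞 : Ideal (𝓞 k) => Ideal.absNorm 𝔞 = n) hQ
          exact Finite.of_equiv _ e
        let := Fintype.ofFinite {b : 𝓞 k // nrm b = n}
        have h4 : (∑ c : {b : 𝓞 k // nrm b = n},
            if ∃ hb : IsCoprime c.1 (N : 𝓞 k), ρ (cls N c.1 hb) = σ then
              ((nrm c.1 : ℕ) : ℂ) ^ (-s) else 0) =
            (Nat.card (𝓞 k)ˣ : ℂ) * LSeries.term (fun n => (zcoeff N σ n : ℂ)) s n := by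
          have hc0 : ∀ c : {b : 𝓞 k // nrm b = n}, c.1 ≠ 0 := by
            rintro ⟨c, hc⟩ h0
            exact hQ _ hc (by rw [Ideal.span_singleton_eq_bot]; exact h0)
          have hterm : LSeries.term (fun n => (zcoeff N σ n : ℂ)) s n =
              (zcoeff N σ n : ℂ) * (n : ℂ) ^ (-s) := by
            rw [LSeries.term_of_ne_zero hn, Complex.cpow_neg, div_eq_mul_inv]
          rw [hterm, zcoeff]
          by_cases hcop : n.Coprime N
          · rw [if_pos hcop]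
            have h5 : ∀ c : {b : 𝓞 k // nrm b = n},
                (∃ hb : IsCoprime c.1 (N : 𝓞 k), ρ (cls N c.1 hb) = σ) ↔
                  HasArtinSymbol (Ideal.span {c.1}) σ := by
              intro c
              have h6 : IsCoprime c.1 (N : 𝓞 k) := by
                rw [coprime_iff (hc0 c), c.2]
                exact hcop
              rw [hρ c.1 h6 σ]
              exact ⟨fun ⟨_, h⟩ => h.symm, fun h => ⟨h6, h.symm⟩⟩
            have h6 : (∑ c : {b : 𝓞 k // nrm b = n},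
                if ∃ hb : IsCoprime c.1 (N : 𝓞 k), ρ (cls N c.1 hb) = σ then
                  ((nrm c.1 : ℕ) : ℂ) ^ (-s) else 0) =
                ∑ c : {b : 𝓞 k // nrm b = n}, if HasArtinSymbol (Ideal.span {c.1}) σ then
                  (n : ℂ) ^ (-s) else 0 := by
              refine Finset.sum_congr rfl fun c _ => ?_
              simp only [h5, c.2]
            rw [h6, ← Finset.sum_filter, Finset.sum_const, nsmul_eq_mul, ← mul_assoc]
            congr 1
            rw [← Nat.cast_mul]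
            congr 1
            obtain ⟨e⟩ := span_equiv (fun 𝔞 : Ideal (𝓞 k) =>
              Ideal.absNorm 𝔞 = n ∧ HasArtinSymbol 𝔞 σ) fun 𝔞 h => hQ 𝔞 h.1
            rw [mul_comm, ← Nat.card_prod, Nat.card_congr e, ← Fintype.card_subtype,
              ← Nat.card_eq_fintype_card]
            exact Nat.card_congr (Equiv.subtypeSubtypeEquivSubtypeInter
              (fun b : 𝓞 k => nrm b = n) fun b => HasArtinSymbol (Ideal.span {b}) σ)
          · rw [if_neg hcop, Nat.cast_zero, zero_mul, mul_zero]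
            refine Finset.sum_eq_zero fun c _ => ?_
            rw [if_neg]
            rintro ⟨hb, -⟩
            rw [coprime_iff (hc0 c), c.2] at hb
            exact hcop hb
        rw [← h4]
        exact hasSum_fintype _
    show (Nat.card (𝓞 k)ˣ : ℂ)⁻¹ * (N : ℂ) ^ (-2 * s) * (∑ u, if ρ u = σ then Zc u s else 0) =
      ∑' n, LSeries.term (fun n => (zcoeff N σ n : ℂ)) s n
    have h4 := (h3.mul_left (Nat.card (𝓞 k)ˣ : ℂ)⁻¹).tsum_eq
    rw [mul_assoc, ← h4]
    refine tsum_congr fun n => ?_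
    rw [inv_mul_cancel_left₀ hw]

end Pool.Agent.CMG
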