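import Pool.Agent.CMG.Artin
import Pool.Agent.CMG.SZeta
import Pool.Agent.StarkRQ.ArtSpec

/-!
# S10, S11: norms of elliptic units, logarithms and symmetry

`sigma_norm`: `F/M` is Galois, `algebraMap M F (norm x) = ∏_{g ∈ Gal(F/M)} g x`
(`Algebra.norm_eq_prod_automorphisms`); extend `σ` to `F` and multiply.
S10: `Z, Z'` are determined by `IsPartialZeta` on `{1}ᶜ` (identity theorem), so by `zeta_eq` (with
`rs ∘ ρ`) and `Zc u 0 = 0`: `deriv Z 0 = w⁻¹ ∑_{u : rs ρ u = σ} deriv (Zc u) 0`; the class `u` for `Z`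
corresponds to `cls α * u` for `Z'`. `D.kron` (with `a` a representative of `u`; `pt (α a) N`
belongs to `cls α * u`): `nrm α · (Zc u)'(0) - (Zc (α u))'(0) = -2 log ‖Ψ α (pt a N)‖`. The fibres of
`ρ` have `w` elements (`hρk`; `ucls N` is injective by `D.units_inj`, `N₀ ∣ N`), and
`κ(τ (ψ α 1)) = Ψ α (pt a N)` for `τ = ρ u` (`act_of`, `κψ`); `sigma_norm`.
S11: take norms in `D.Ψ_symm` at `a = 1`: `ψ α 1 ^ nrm β * ψ β α = ψ β 1 ^ nrm α * ψ α β`, where
`ψ β α = ρ(cls α) (ψ β 1)`; the norm commutes with `ρ(cls α)` up to restriction since `Gal(F/k)` is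
abelian (surjectivity of `ρ` is not needed: write elements of `Gal(F/M)` by `A.act`, or use
`sigma_norm`).
-/

set_option autoImplicit false
set_option linter.unusedSectionVars false

noncomputable section

open NumberField Pool.Agent.StarkRQ

namespace Pool.Agent.CMG

section general

variable {k : Type} [Field k] [NumberField k] {F : Type} [Field F] [NumberField F] [Algebra k F]
  [IsGalois k F] {M : Type} [Field M] [NumberField M] [Algebra k M] [Algebra M F]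
  [IsScalarTower k M F] [IsAbelianGalois k M]

private theorem rs_apply (τ : Gal(F/k)) (y : M) :
    algebraMap M F (rs k M F τ y) = τ (algebraMap M F y) :=
  AlgEquiv.restrictNormal_commutes τ M y

/-- the conjugates of a norm -/
private theorem norm_gen (x : F) (σ : Gal(M/k)) :
    algebraMap M F (σ (Algebra.norm M x)) =
      ∏ τ : Gal(F/k), open Classical in if rs k M F τ = σ then τ x else 1 := by
  classical
  have : IsGalois M F := IsGalois.tower_top_of_isGalois k M F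
  obtain ⟨τ₀, hτ₀⟩ := AlgEquiv.restrictNormalHom_surjective (F := k) (K₁ := M) F σ
  have h0 : rs k M F τ₀ = σ := hτ₀
  rw [← h0, rs_apply, Algebra.norm_eq_prod_automorphisms, map_prod, Finset.prod_ite,
    Finset.prod_const_one, mul_one]
  refine Finset.prod_bij (fun (g : Gal(F/M)) _ => τ₀ * AlgEquiv.restrictScalars k g) ?_ ?_ ?_ ?_
  · intro g _
    rw [Finset.mem_filter]
    refine ⟨Finset.mem_univ _, ?_⟩
    ext y
    apply (algebraMap M F).injective
    rw [rs_apply, rs_apply, AlgEquiv.mul_apply]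
    congr 1
    exact g.commutes y
  · intro g _ g' _ h
    have h1 := mul_left_cancel h
    ext y
    exact DFunLike.congr_fun h1 y
  · intro τ hτ
    have h1 : rs k M F τ = rs k M F τ₀ := (Finset.mem_filter.1 hτ).2
    have h2 : ∀ y : M, (τ₀⁻¹ * τ) (algebraMap M F y) = algebraMap M F y := by
      intro y
      rw [AlgEquiv.mul_apply, ← rs_apply, h1, rs_apply, ← AlgEquiv.mul_apply, inv_mul_cancel,
        AlgEquiv.one_apply]
    refine ⟨AlgEquiv.ofRingEquiv (f := (τ₀⁻¹ * τ).toRingEquiv) h2, Finset.mem_univ _, ?_⟩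
    ext y
    rw [AlgEquiv.mul_apply]
    change τ₀ ((τ₀⁻¹ * τ) y) = τ y
    rw [← AlgEquiv.mul_apply, mul_inv_cancel_left]
  · intro g _
    rfl

/-- the norm of a conjugate -/
private theorem norm_conj (x : F) (τ : Gal(F/k)) :
    Algebra.norm M (τ x) = rs k M F τ (Algebra.norm M x) := by
  classical
  apply (algebraMap M F).injective
  have h1 := norm_gen (k := k) (M := M) (τ x) 1
  rw [AlgEquiv.one_apply] at h1
  rw [h1, norm_gen x (rs k M F τ)]
  refine Fintype.prod_equiv (Equiv.mulRight τ) _ _ fun g => ?_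
  rw [Equiv.coe_mulRight, map_mul]
  by_cases h : rs k M F g = 1
  · rw [if_pos h, if_pos (by rw [h, one_mul]), AlgEquiv.mul_apply]
  · rw [if_neg h, if_neg (fun h2 => h (mul_eq_right.1 h2))]

end general

section epstein

variable {k : Type} [Field k] [NumberField k] [Algebra k ℂ]

private theorem isEpstein_congr {N : ℕ} (hN0 : N ≠ 0) {a b : 𝓞 k} (h : (N : 𝓞 k) ∣ a - b)
    {Z : ℂ → ℂ} (hZ : IsEpstein k (pt a N) Z) : IsEpstein k (pt b N) Z := by
  obtain ⟨c, hc⟩ := h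
  refine ⟨hZ.diff, fun s hs => ?_, hZ.zero⟩
  have h1 := hZ.sum s hs
  have h2 : ∀ ω : 𝓞 k, pt b N + algebraMap k ℂ ((ω + c : 𝓞 k) : k) =
      pt a N + algebraMap k ℂ (ω : k) := by
    intro ω
    have hN : (N : ℂ) ≠ 0 := by exact_mod_cast hN0
    have h3 : a = b + N * c := by rw [← hc]; ring
    have e1 : algebraMap k ℂ ((ω + c : 𝓞 k) : k) =
        algebraMap k ℂ (ω : k) + algebraMap k ℂ (c : k) := map_add (algebraMap k ℂ) (ω : k) (c : k)
    have e2 : algebraMap k ℂ ((b + N * c : 𝓞 k) : k) =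
        algebraMap k ℂ (b : k) + N * algebraMap k ℂ (c : k) := by
      have e3 : ((b + N * c : 𝓞 k) : k) = (b : k) + (N : k) * (c : k) := by
        simp
      rw [e3, map_add, map_mul, map_natCast]
    rw [h3, pt, pt, e1, e2]
    field_simp
    ring
  rw [← (Equiv.addRight c).hasSum_iff]
  refine h1.congr_fun ?_
  intro ω
  rw [Function.comp_apply, Equiv.coe_addRight, h2]

end epstein

private theorem eqOn_of_partial {F L : Type*} [Field F] [NumberField F] [Field L] [NumberField L]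
    [Algebra F L] {N : ℕ} {σ : Gal(L/F)} {Z W : ℂ → ℂ} (hZ : IsPartialZeta N σ Z)
    (hW : IsPartialZeta N σ W) : Set.EqOn Z W {1}ᶜ := by
  have hopen : IsOpen ({1}ᶜ : Set ℂ) := isOpen_compl_singleton
  have h2 : (2 : ℂ) ∈ ({1}ᶜ : Set ℂ) := by norm_num
  refine (hZ.1.analyticOnNhd hopen).eqOn_of_preconnected_of_eventuallyEq
    (hW.1.analyticOnNhd hopen) ?_ h2 ?_
  · exact (isConnected_compl_singleton_of_one_lt_rank (by simp) 1).isPreconnected
  · have h3 : {s : ℂ | 1 < s.re} ∈ nhds (2 : ℂ) := by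
      refine (isOpen_lt continuous_const Complex.continuous_re).mem_nhds ?_
      change (1 : ℝ) < (2 : ℂ).re
      norm_num
    filter_upwards [h3] with s hs
    rw [hZ.2 s hs, hW.2 s hs]

section units

variable {k : Type} [Field k] [NumberField k] [Algebra k ℂ] (D : EllData k) {N : ℕ}
  (hN : D.N₀ ∣ N) (hN0 : N ≠ 0)
include hN hN0

variable {F : Type} [Field F] [NumberField F] [Algebra k F] [IsGalois k F] (A : Model D N F)
  {M : Type} [Field M] [NumberField M] [Algebra k M] [Algebra M F] [IsScalarTower k M F]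
  [IsGalois ℚ M] [IsAbelianGalois k M]

set_option linter.unusedVariables false in
/-- the conjugates of the norm -/
theorem sigma_norm (ρ : (𝓞 k ⧸ Ideal.span {(N : 𝓞 k)})ˣ →* Gal(F/k))
    (hρ : ∀ (a : 𝓞 k) (ha : IsCoprime a (N : 𝓞 k)), ρ (cls N a ha) (A.θ 1) = A.θ a)
    (α : 𝓞 k) (hα : IsCoprime α ((D.m * N : ℕ) : 𝓞 k)) (σ : Gal(M/k)) :
    algebraMap M F (σ (Algebra.norm M (A.ψ α 1))) =
      ∏ τ : Gal(F/k), open Classical in if rs k M F τ = σ then τ (A.ψ α 1) else 1 :=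
  norm_gen _ _

omit hN hN0 in
private theorem cls_mul (a b : 𝓞 k) (ha : IsCoprime a (N : 𝓞 k)) (hb : IsCoprime b (N : 𝓞 k)) :
    cls N (a * b) (ha.mul_left hb) = cls N a ha * cls N b hb := by
  apply Units.ext
  change Ideal.Quotient.mk _ (a * b) = Ideal.Quotient.mk _ a * Ideal.Quotient.mk _ b
  exact map_mul _ _ _

omit hN hN0 in
private theorem cls_surj (u : (𝓞 k ⧸ Ideal.span {(N : 𝓞 k)})ˣ) :
    ∃ (a : 𝓞 k) (ha : IsCoprime a (N : 𝓞 k)), cls N a ha = u := by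
  obtain ⟨a, ha⟩ := Ideal.Quotient.mk_surjective (u : 𝓞 k ⧸ Ideal.span {(N : 𝓞 k)})
  obtain ⟨b, hb⟩ := Ideal.Quotient.mk_surjective ((u⁻¹ : (𝓞 k ⧸ Ideal.span {(N : 𝓞 k)})ˣ) :
    𝓞 k ⧸ Ideal.span {(N : 𝓞 k)})
  have h1 : Ideal.Quotient.mk (Ideal.span {(N : 𝓞 k)}) (a * b) = 1 := by
    rw [map_mul, ha, hb, Units.mul_inv]
  rw [← map_one (Ideal.Quotient.mk (Ideal.span {(N : 𝓞 k)})), Ideal.Quotient.eq,
    Ideal.mem_span_singleton] at h1
  obtain ⟨c, hc⟩ := h1
  refine ⟨a, ⟨b, -c, by linear_combination hc⟩, Units.ext ha⟩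

omit hN hN0 in
private theorem cls_eq_iff (a b : 𝓞 k) (ha : IsCoprime a (N : 𝓞 k)) (hb : IsCoprime b (N : 𝓞 k)) :
    cls N a ha = cls N b hb ↔ (N : 𝓞 k) ∣ a - b := by
  rw [Units.ext_iff, ← Ideal.mem_span_singleton, ← Ideal.Quotient.eq]
  rfl

/-- S10 -/
theorem norm_log (ρ : (𝓞 k ⧸ Ideal.span {(N : 𝓞 k)})ˣ →* Gal(F/k))
    (hρ : ∀ (a : 𝓞 k) (ha : IsCoprime a (N : 𝓞 k)), ρ (cls N a ha) (A.θ 1) = A.θ a)
    (hρs : Function.Surjective ρ) (hρk : ∀ u, ρ u = 1 ↔ u ∈ (ucls N).range)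
    (hart : ∀ (a : 𝓞 k) (ha : IsCoprime a (N : 𝓞 k)) (σ : Gal(M/k)),
      HasArtinSymbol (Ideal.span {a}) σ ↔ σ = rs k M F (ρ (cls N a ha)))
    (α : 𝓞 k) (hα : IsCoprime α ((D.m * N : ℕ) : 𝓞 k)) (hα' : IsCoprime α (N : 𝓞 k))
    (σ : Gal(M/k)) (Z Z' : ℂ → ℂ) (hZ : IsPartialZeta N σ Z)
    (hZ' : IsPartialZeta N (σ * rs k M F (ρ (cls N α hα'))) Z') :
    nrm α * deriv Z 0 - deriv Z' 0 =
      ((- Real.log (‖A.κ (algebraMap M F (σ (Algebra.norm M (A.ψ α 1))))‖ ^ 2) : ℝ) : ℂ) := by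
  classical
  have hNk : (N : 𝓞 k) ≠ 0 := by exact_mod_cast hN0
  have : Finite (𝓞 k ⧸ Ideal.span {(N : 𝓞 k)}) :=
    Ideal.finiteQuotientOfFreeOfNeBot _ (by rwa [Ne, Ideal.span_singleton_eq_bot])
  have : Fintype (𝓞 k ⧸ Ideal.span {(N : 𝓞 k)})ˣ := Fintype.ofFinite _
  have : Finite (𝓞 k)ˣ := finite_units D
  -- Epstein zeta functions of the classes
  choose rep hrep hcls using fun u : (𝓞 k ⧸ Ideal.span {(N : 𝓞 k)})ˣ => cls_surj u
  choose Zc hZc using fun u : (𝓞 k ⧸ Ideal.span {(N : 𝓞 k)})ˣ =>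
    D.epstein N (rep u) hN hN0 (hrep u)
  have hZc' : ∀ (a : 𝓞 k) (ha : IsCoprime a (N : 𝓞 k)),
      IsEpstein k (pt a N) (Zc (cls N a ha)) := by
    intro a ha
    refine isEpstein_congr hN0 ?_ (hZc (cls N a ha))
    exact (cls_eq_iff _ _ (hrep _) ha).1 (hcls _)
  have hderiv : ∀ (σ : Gal(M/k)) (Z : ℂ → ℂ), IsPartialZeta N σ Z →
      deriv Z 0 = (Nat.card (𝓞 k)ˣ : ℂ)⁻¹ *
        ∑ u, if rs k M F (ρ u) = σ then deriv (Zc u) 0 else 0 := by
    intro σ Z hZ
    have h1 := zeta_eq D hN hN0 ((rs k M F).comp ρ) (fun a ha σ => hart a ha σ) Zc hZc' σ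
    have h2 := eqOn_of_partial hZ h1
    have h3 : Z =ᶠ[nhds 0] fun s => (Nat.card (𝓞 k)ˣ : ℂ)⁻¹ * (N : ℂ) ^ (-2 * s) *
        ∑ u, if rs k M F (ρ u) = σ then Zc u s else 0 := by
      have h4 : ({1}ᶜ : Set ℂ) ∈ nhds (0 : ℂ) := isOpen_compl_singleton.mem_nhds (by simp)
      filter_upwards [h4] with s hs
      rw [h2 hs]
      rfl
    rw [h3.deriv_eq]
    have hd : ∀ u, DifferentiableAt ℂ (Zc u) 0 := fun u =>
      (hZc u).diff.differentiableAt (isOpen_compl_singleton.mem_nhds (by simp))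
    have hs : HasDerivAt (fun s => ∑ u, if rs k M F (ρ u) = σ then Zc u s else 0)
        (∑ u, if rs k M F (ρ u) = σ then deriv (Zc u) 0 else 0) 0 := by
      have h5 : HasDerivAt (fun s => ∑ u ∈ Finset.univ, if rs k M F (ρ u) = σ then Zc u s else 0)
          (∑ u ∈ Finset.univ, if rs k M F (ρ u) = σ then deriv (Zc u) 0 else 0) 0 := by
        refine HasDerivAt.fun_sum fun u _ => ?_
        by_cases h : rs k M F (ρ u) = σ
        · simp only [if_pos h]
          exact (hd u).hasDerivAt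
        · simp only [if_neg h]
          exact hasDerivAt_const _ _
      exact h5
    have h0 : (∑ u, if rs k M F (ρ u) = σ then Zc u 0 else 0) = 0 :=
      Finset.sum_eq_zero fun u _ => by
        split_ifs
        · exact (hZc u).zero
        · rfl
    have hp : HasDerivAt (fun s : ℂ => (Nat.card (𝓞 k)ˣ : ℂ)⁻¹ * (N : ℂ) ^ (-2 * s))
        ((Nat.card (𝓞 k)ˣ : ℂ)⁻¹ * ((N : ℂ) ^ (-2 * (0 : ℂ)) * Complex.log N * (-2 * 1))) 0 := by
      refine HasDerivAt.const_mul _ ?_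
      have hN' : (N : ℂ) ≠ 0 := by exact_mod_cast hN0
      exact ((hasDerivAt_id (0 : ℂ)).const_mul (-2)).const_cpow (Or.inl hN')
    have h6 := (hp.mul hs).deriv
    rw [h0, mul_zero, zero_add, mul_zero, Complex.cpow_zero, mul_one] at h6
    exact h6
  rw [hderiv σ Z hZ, hderiv _ Z' hZ']
  -- shift the second sum
  have hshift : (∑ u, if rs k M F (ρ u) = σ * rs k M F (ρ (cls N α hα')) then deriv (Zc u) 0
      else 0) = ∑ u, if rs k M F (ρ u) = σ then deriv (Zc (cls N α hα' * u)) 0 else 0 := by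
    symm
    refine Fintype.sum_equiv (Equiv.mulLeft (cls N α hα')) _ _ fun u => ?_
    rw [Equiv.coe_mulLeft]
    have h1 : (rs k M F (ρ (cls N α hα' * u)) = σ * rs k M F (ρ (cls N α hα'))) ↔
        rs k M F (ρ u) = σ := by
      rw [mul_comm (cls N α hα') u, map_mul, map_mul]
      exact mul_left_inj _
    by_cases h : rs k M F (ρ u) = σ
    · rw [if_pos h, if_pos (h1.2 h)]
    · rw [if_neg h, if_neg (fun h2 => h (h1.1 h2))]
  rw [hshift]
  have hker : ∀ u, nrm α * deriv (Zc u) 0 - deriv (Zc (cls N α hα' * u)) 0 =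
      ((-2 * Real.log ‖A.κ (ρ u (A.ψ α 1))‖ : ℝ) : ℂ) := by
    intro u
    have h1 : cls N α hα' * u = cls N (α * rep u) (hα'.mul_left (hrep u)) := by
      rw [cls_mul α (rep u) hα' (hrep u), hcls]
    have h2 := D.kron N α (rep u) (Zc u) (Zc (cls N α hα' * u)) hN hN0 hα (hrep u) (hZc u)
      (by rw [h1]; exact hZc' _ _)
    rw [h2]
    have h3 : ρ u (A.θ 1) = A.θ (rep u) := by
      conv_lhs => rw [← hcls u]
      exact hρ _ _
    have h4 := (act_of D hN hN0 A (hrep u) h3).2 α 1 hα isCoprime_one_left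
    rw [mul_one] at h4
    rw [h4, A.κψ α (rep u) hα (hrep u)]
  have hleft : nrm α * ((Nat.card (𝓞 k)ˣ : ℂ)⁻¹ *
        ∑ u, if rs k M F (ρ u) = σ then deriv (Zc u) 0 else 0) - (Nat.card (𝓞 k)ˣ : ℂ)⁻¹ *
        (∑ u, if rs k M F (ρ u) = σ then deriv (Zc (cls N α hα' * u)) 0 else 0) =
      (Nat.card (𝓞 k)ˣ : ℂ)⁻¹ * ∑ u, if rs k M F (ρ u) = σ then
        ((-2 * Real.log ‖A.κ (ρ u (A.ψ α 1))‖ : ℝ) : ℂ) else 0 := by
    rw [mul_left_comm, ← mul_sub, Finset.mul_sum, ← Finset.sum_sub_distrib]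
    congr 1
    refine Finset.sum_congr rfl fun u _ => ?_
    by_cases h : rs k M F (ρ u) = σ
    · rw [if_pos h, if_pos h, if_pos h, ← hker u]
    · rw [if_neg h, if_neg h, if_neg h, mul_zero, sub_zero]
  rw [hleft]
  -- fibres of `ρ`
  have hcard : ∀ τ : Gal(F/k), (Finset.univ.filter fun u => ρ u = τ).card =
      Nat.card (𝓞 k)ˣ := by
    intro τ
    rw [MonoidHom.card_fiber_eq_of_mem_range ρ (Set.mem_range.2 (hρs τ))
      (Set.mem_range.2 ⟨1, map_one ρ⟩)]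
    have hinj : Function.Injective (ucls N : (𝓞 k)ˣ →* (𝓞 k ⧸ Ideal.span {(N : 𝓞 k)})ˣ) := by
      rw [injective_iff_map_eq_one]
      intro ε hε
      apply D.units_inj
      have h1 := congrArg Units.val hε
      have h2 : Ideal.Quotient.mk (Ideal.span {(N : 𝓞 k)}) (ε : 𝓞 k) =
          Ideal.Quotient.mk (Ideal.span {(N : 𝓞 k)}) 1 := by
        rw [map_one]
        exact h1
      rw [Ideal.Quotient.eq, Ideal.mem_span_singleton] at h2
      exact (Nat.cast_dvd_cast hN).trans h2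
    rw [Nat.card_congr (Equiv.ofInjective _ hinj)]
    exact (Nat.subtype_card (Finset.univ.filter fun u => ρ u = 1)
      (p := fun u => u ∈ Set.range (ucls N : (𝓞 k)ˣ →* (𝓞 k ⧸ Ideal.span {(N : 𝓞 k)})ˣ))
      (fun u => by
        rw [Finset.mem_filter, hρk u]
        simp)).symm
  have hsum : (∑ u, if rs k M F (ρ u) = σ then
        ((-2 * Real.log ‖A.κ (ρ u (A.ψ α 1))‖ : ℝ) : ℂ) else 0) =
      (Nat.card (𝓞 k)ˣ : ℂ) * ∑ τ : Gal(F/k), if rs k M F τ = σ then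
        ((-2 * Real.log ‖A.κ (τ (A.ψ α 1))‖ : ℝ) : ℂ) else 0 := by
    rw [Finset.mul_sum, ← Finset.sum_fiberwise Finset.univ ρ]
    refine Finset.sum_congr rfl fun τ _ => ?_
    rw [← hcard τ, ← nsmul_eq_mul, ← Finset.sum_const]
    refine Finset.sum_congr rfl fun u hu => ?_
    rw [(Finset.mem_filter.1 hu).2]
  have hw : (Nat.card (𝓞 k)ˣ : ℂ) ≠ 0 := by
    have : Nat.card (𝓞 k)ˣ ≠ 0 := Nat.card_pos.ne'
    exact_mod_cast this
  rw [hsum, inv_mul_cancel_left₀ hw, sigma_norm D hN hN0 A ρ hρ α hα σ, map_prod, norm_prod,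
    ← Finset.prod_pow, Real.log_prod]
  · push_cast
    rw [← Finset.sum_neg_distrib]
    refine Finset.sum_congr rfl fun τ _ => ?_
    by_cases h : rs k M F τ = σ
    · rw [if_pos h, if_pos h, Real.log_pow]
      push_cast
      ring
    · rw [if_neg h, if_neg h, map_one, norm_one, one_pow, Real.log_one]
      simp
  · intro τ _
    split_ifs
    · have h1 : A.κ (A.ψ α 1) ≠ 0 := by
        rw [A.κψ α 1 hα isCoprime_one_left]
        exact D.Ψ_ne N α 1 hN hN0 hα isCoprime_one_left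
      have h2 : A.ψ α 1 ≠ 0 := fun h => h1 (by rw [h, map_zero])
      refine pow_ne_zero _ (norm_ne_zero_iff.2 ?_)
      rw [Ne, map_eq_zero, map_eq_zero]
      exact h2
    · simp

/-- S11 -/
theorem norm_symm (ρ : (𝓞 k ⧸ Ideal.span {(N : 𝓞 k)})ˣ →* Gal(F/k))
    (hρ : ∀ (a : 𝓞 k) (ha : IsCoprime a (N : 𝓞 k)), ρ (cls N a ha) (A.θ 1) = A.θ a)
    (α β : 𝓞 k) (hα : IsCoprime α ((D.m * N : ℕ) : 𝓞 k)) (hα' : IsCoprime α (N : 𝓞 k))
    (hβ : IsCoprime β ((D.m * N : ℕ) : 𝓞 k)) (hβ' : IsCoprime β (N : 𝓞 k)) :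
    Algebra.norm M (A.ψ α 1) ^ nrm β *
        rs k M F (ρ (cls N α hα')) (Algebra.norm M (A.ψ β 1)) =
      Algebra.norm M (A.ψ β 1) ^ nrm α *
        rs k M F (ρ (cls N β hβ')) (Algebra.norm M (A.ψ α 1)) := by
  have h1 : ρ (cls N α hα') (A.ψ β 1) = A.ψ β α := by
    have := (act_of D hN hN0 A hα' (hρ α hα')).2 β 1 hβ isCoprime_one_left
    rwa [mul_one] at this
  have h2 : ρ (cls N β hβ') (A.ψ α 1) = A.ψ α β := by
    have := (act_of D hN hN0 A hβ' (hρ β hβ')).2 α 1 hα isCoprime_one_left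
    rwa [mul_one] at this
  rw [← norm_conj, ← norm_conj, ← map_pow, ← map_pow, ← map_mul, ← map_mul, h1, h2]
  congr 1
  apply A.κ.toRingHom.injective
  change A.κ _ = A.κ _
  rw [map_mul, map_mul, map_pow, map_pow, A.κψ α 1 hα isCoprime_one_left,
    A.κψ β 1 hβ isCoprime_one_left, A.κψ β α hβ hα', A.κψ α β hα hβ']
  have h3 := D.Ψ_symm N α β 1 hN hN0 hα hβ isCoprime_one_left
  rwa [mul_one, mul_one] at h3

end units

end Pool.Agent.CMG
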