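import Pool.Agent.CMG.Rho
import Pool.Agent.StarkRQ.ArtSpec

/-!
# S12: valuations of the norms

The norm is the product of `τ (ψ α 1) = ψ α (c_τ)` over `τ ∈ Gal(F/M)` (`A.act`), and
`κ(ψ α c) = Ψ α (pt c N) ≠ 0` (`Ψ_ne`). By `D.val` (`K, L` do not depend on `V` and `c`)
`v(κ norm)^K = v(B)^{L d}`, `d = |Gal(F/M)|`, for every valuation subring `V` of `ℂ`, so both quotients have
valuation `1` and are integral (`isIntegral_of_valuation`; integrality can be checked after the
injective map `κ ∘ algebraMap`). Last part: `D.val_one`.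
-/

set_option autoImplicit false

noncomputable section

open NumberField Pool.Agent.StarkRQ

namespace Pool.Agent.CMG

/-- S12 -/
theorem norm_val {k : Type} [Field k] [NumberField k] [Algebra k ℂ] (D : EllData k) {N : ℕ}
    (hN : D.N₀ ∣ N) (hN0 : N ≠ 0) {F : Type} [Field F] [NumberField F] [Algebra k F] [IsGalois k F]
    (A : Model D N F) {M : Type} [Field M] [NumberField M] [Algebra k M] [Algebra M F]
    [IsScalarTower k M F] [IsGalois ℚ M] [IsAbelianGalois k M]
    (α : 𝓞 k) (hα : IsCoprime α ((D.m * N : ℕ) : 𝓞 k)) :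
    Algebra.norm M (A.ψ α 1) ≠ 0 ∧
    (∃ K L : ℕ, 0 < K ∧ IsIntegral ℤ (Algebra.norm M (A.ψ α 1) ^ K / (D.B : M) ^ L) ∧
      IsIntegral ℤ ((D.B : M) ^ L / Algebra.norm M (A.ψ α 1) ^ K)) ∧
    (¬ IsPrimePow N → IsIntegral ℤ (Algebra.norm M (A.ψ α 1)) ∧
      IsIntegral ℤ (Algebra.norm M (A.ψ α 1))⁻¹) := by
  have hgal : IsGalois M F := IsGalois.tower_top_of_isGalois k M F
  have hone : IsCoprime (1 : 𝓞 k) (N : 𝓞 k) := isCoprime_one_left
  -- the embedding of `M`
  let j : M →+* ℂ := (A.κ : F →+* ℂ).comp (algebraMap M F)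
  have hj : Function.Injective j := j.injective
  have hact : ∀ τ : Gal(F/M), ∃ c : 𝓞 k, IsCoprime c (N : 𝓞 k) ∧
      A.κ (τ (A.ψ α 1)) = D.Ψ α (pt c N) := by
    intro τ
    obtain ⟨c, hc, _, h2⟩ := A.act (τ.restrictScalars k)
    refine ⟨c, hc, ?_⟩
    have h3 := h2 α 1 hα hone
    rw [mul_one] at h3
    rw [← A.κψ α c hα hc, ← h3]
    rfl
  choose c hc hcκ using hact
  set X := Algebra.norm M (A.ψ α 1) with hX
  have hprod : j X = ∏ τ : Gal(F/M), D.Ψ α (pt (c τ) N) := by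
    change A.κ (algebraMap M F X) = _
    rw [hX, Algebra.norm_eq_prod_automorphisms, map_prod]
    exact Finset.prod_congr rfl fun τ _ => hcκ τ
  have hjX : j X ≠ 0 := by
    rw [hprod]
    exact Finset.prod_ne_zero_iff.2 fun τ _ => D.Ψ_ne N α _ hN hN0 hα (hc τ)
  have hX0 : X ≠ 0 := fun h => hjX (by rw [h, map_zero])
  have hint : ∀ x : M, (∀ V : ValuationSubring ℂ, V.valuation (j x) ≤ 1) → IsIntegral ℤ x := by
    intro x hx
    exact (isIntegral_algHom_iff j.toIntAlgHom hj).1 (isIntegral_of_valuation hx)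
  refine ⟨hX0, ?_, fun hpp => ?_⟩
  · obtain ⟨K, L, hK, hKL⟩ := D.val N α hN hN0 hα
    have hval : ∀ V : ValuationSubring ℂ, V.valuation (j X) ^ K =
        V.valuation (D.B : ℂ) ^ (L * Fintype.card Gal(F/M)) := by
      intro V
      rw [hprod, map_prod, ← Finset.prod_pow, Finset.prod_congr rfl fun τ _ => hKL V (c τ) (hc τ),
        Finset.prod_const, Finset.card_univ, ← pow_mul]
    have hB : (D.B : ℂ) ≠ 0 := Nat.cast_ne_zero.2 D.B_pos.ne'
    have hjB : j (D.B : M) = (D.B : ℂ) := map_natCast j D.B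
    refine ⟨K, L * Fintype.card Gal(F/M), hK, hint _ fun V => ?_, hint _ fun V => ?_⟩
    · have hvB : V.valuation (D.B : ℂ) ^ (L * Fintype.card Gal(F/M)) ≠ 0 :=
        pow_ne_zero _ ((Valuation.ne_zero_iff _).2 hB)
      rw [map_div₀, map_div₀, map_pow, map_pow, map_pow, map_pow, hjB, hval V, div_self hvB]
    · have hvB : V.valuation (D.B : ℂ) ^ (L * Fintype.card Gal(F/M)) ≠ 0 :=
        pow_ne_zero _ ((Valuation.ne_zero_iff _).2 hB)
      rw [map_div₀, map_div₀, map_pow, map_pow, map_pow, map_pow, hjB, hval V, div_self hvB]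
  · have hval : ∀ V : ValuationSubring ℂ, V.valuation (j X) = 1 := by
      intro V
      rw [hprod, map_prod]
      exact Finset.prod_eq_one fun τ _ => D.val_one N α V (c τ) hN hN0 hpp hα (hc τ)
    refine ⟨hint _ fun V => (hval V).le, hint _ fun V => ?_⟩
    rw [map_inv₀, map_inv₀, hval V, inv_one]

end Pool.Agent.CMG
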