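import Mathlib

/-!
# S16: Tate criterion for abelian w-th roots

`w = Units.torsionOrder M`, `E = M(t)`, `t^w = η` (splitting field of `X^w - η`). For an extension `σ̃` of
`σ` to an algebraic closure: `(σ̃ t)^w = σ η = η^{nσ}/y_σ^w = (t^{nσ}/y_σ)^w`, so
`σ̃ t = ζ_σ t^{nσ}/y_σ ∈ E` with `ζ_σ ∈ μ_w ⊂ M` (all `w`-th roots of unity are in `M`). Hence `E/k` is
normal. Commuting: `τ̃ σ̃ t = ζ_σ^{nτ} ζ_τ^{nσ} t^{nτ nσ} / (y_τ^{nσ} τ(y_σ))` is symmetric by `hcomm`, and
`σ̃, τ̃` commute on `M`. Compare `Pool/Agent/StarkRQ/Root.lean`, `RootB.lean` (landed; a similar argument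
for square roots).
-/

set_option autoImplicit false

noncomputable section

open NumberField

namespace Pool.Agent.CMG

/-- all `w`-th roots of unity lie in `M` -/
private theorem ta_root {M F : Type} [Field M] [NumberField M] [Field F] [Algebra M F] {ζ : F}
    (hζ : ζ ^ Units.torsionOrder M = 1) :
    ∃ ξ : M, ξ ^ Units.torsionOrder M = 1 ∧ algebraMap M F ξ = ζ := by
  classical
  obtain ⟨g, hg⟩ := IsCyclic.exists_generator (α := Units.torsion M)
  have hord : orderOf g = Units.torsionOrder M := orderOf_eq_card_of_forall_mem_zpowers hg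
  have h1 : IsPrimitiveRoot g (Units.torsionOrder M) := hord ▸ IsPrimitiveRoot.orderOf g
  have h2 : IsPrimitiveRoot (((g : (𝓞 M)ˣ) : 𝓞 M) : M) (Units.torsionOrder M) := by
    have a1 : IsPrimitiveRoot ((g : (𝓞 M)ˣ)) (Units.torsionOrder M) :=
      h1.map_of_injective (f := (Units.torsion M).subtype) Subtype.val_injective
    have a2 : IsPrimitiveRoot (((g : (𝓞 M)ˣ) : 𝓞 M)) (Units.torsionOrder M) :=
      IsPrimitiveRoot.coe_units_iff.2 a1
    exact a2.map_of_injective (f := algebraMap (𝓞 M) M) (FaithfulSMul.algebraMap_injective _ _)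
  have h3 := h2.map_of_injective (f := algebraMap M F) (algebraMap M F).injective
  obtain ⟨i, _, hi⟩ := h3.eq_pow_of_pow_eq_one hζ
  refine ⟨((((g : (𝓞 M)ˣ) : 𝓞 M) : M)) ^ i, ?_, by rw [map_pow]; exact hi⟩
  rw [← pow_mul, mul_comm, pow_mul, h2.pow_eq_one, one_pow]

/-- The action on `t`. -/
private theorem ta_act {k M F : Type} [Field k] [NumberField k] [Field M] [NumberField M]
    [Algebra k M] [IsAbelianGalois k M] [Field F] [Algebra k F] [Algebra M F]
    [IsScalarTower k M F] {η : M} (hη : η ≠ 0) (n : Gal(M/k) → ℕ)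
    (y : Gal(M/k) → M)
    (hy : ∀ σ : Gal(M/k), η ^ n σ = σ η * y σ ^ Units.torsionOrder M)
    {t : F} (ht : t ^ Units.torsionOrder M = algebraMap M F η) (φ : F →ₐ[k] F) :
    ∃ σ : Gal(M/k), (∀ m : M, φ (algebraMap M F m) = algebraMap M F (σ m)) ∧
      ∃ ζ : M, ζ ^ Units.torsionOrder M = 1 ∧
        φ t * algebraMap M F (y σ) = algebraMap M F ζ * t ^ n σ := by
  have hw : Units.torsionOrder M ≠ 0 := Units.torsionOrder_ne_zero M
  refine ⟨AlgHom.restrictNormal' φ M, fun m => ?_, ?_⟩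
  · exact (AlgHom.restrictNormal_commutes φ M m).symm
  · set σ := AlgHom.restrictNormal' φ M with hσ
    have hσm : ∀ m : M, φ (algebraMap M F m) = algebraMap M F (σ m) := fun m =>
      (AlgHom.restrictNormal_commutes φ M m).symm
    have ht0 : t ≠ 0 := by
      rintro rfl
      rw [zero_pow hw] at ht
      exact hη ((map_eq_zero (algebraMap M F)).1 ht.symm)
    have hpow : (φ t * algebraMap M F (y σ)) ^ Units.torsionOrder M =
        (t ^ n σ) ^ Units.torsionOrder M := by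
      rw [mul_pow, ← map_pow, ht, hσm, ← map_pow, ← map_mul, ← hy σ, map_pow, ← ht, ← pow_mul,
        ← pow_mul, mul_comm]
    have hz : ((φ t * algebraMap M F (y σ)) / t ^ n σ) ^ Units.torsionOrder M = 1 := by
      rw [div_pow, hpow, div_self (pow_ne_zero _ (pow_ne_zero _ ht0))]
    obtain ⟨ξ, h1, h2⟩ := ta_root hz
    refine ⟨ξ, h1, ?_⟩
    rw [h2, div_mul_cancel₀ _ (pow_ne_zero _ ht0)]

/-- S16 -/
theorem tate_abelian {k M : Type} [Field k] [NumberField k] [Field M] [NumberField M]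
    [Algebra k M] [IsAbelianGalois k M] {η : M} (hη : η ≠ 0) (n : Gal(M/k) → ℕ)
    (y : Gal(M/k) → M)
    (hroot : ∀ (σ : Gal(M/k)) (ζ : M), ζ ^ Units.torsionOrder M = 1 → σ ζ = ζ ^ n σ)
    (hy : ∀ σ : Gal(M/k), η ^ n σ = σ η * y σ ^ Units.torsionOrder M)
    (hcomm : ∀ σ τ : Gal(M/k), y σ ^ n τ * σ (y τ) = y τ ^ n σ * τ (y σ)) :
    ∃ (E : Type) (_ : Field E) (_ : Algebra k E) (_ : Algebra M E)
      (_ : IsScalarTower k M E), IsAbelianGalois k E ∧
      ∃ t : E, t ^ Units.torsionOrder M = algebraMap M E η := by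
  have hw : Units.torsionOrder M ≠ 0 := Units.torsionOrder_ne_zero M
  have hy0 : ∀ σ : Gal(M/k), y σ ≠ 0 := by
    intro σ h0
    have h1 := hy σ
    rw [h0, zero_pow hw, mul_zero] at h1
    exact pow_ne_zero _ hη h1
  let Ω := AlgebraicClosure M
  obtain ⟨t, ht⟩ := IsAlgClosed.exists_pow_nat_eq (algebraMap M Ω η) (Nat.pos_of_ne_zero hw)
  let E : IntermediateField M Ω := IntermediateField.adjoin M {t}
  have htE : t ∈ E := IntermediateField.mem_adjoin_simple_self M t
  have hME : ∀ m : M, algebraMap M Ω m ∈ E := fun m => E.algebraMap_mem m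
  have hΩalg : Algebra.IsAlgebraic k Ω := Algebra.IsAlgebraic.trans k M Ω
  have hclos : IsAlgClosure k Ω := ⟨inferInstance, hΩalg⟩
  have hΩnorm : Normal k Ω := inferInstance
  -- closure under embeddings
  have hstab : ∀ φ : Ω →ₐ[k] Ω, ∀ x ∈ E, φ x ∈ E := by
    intro φ
    obtain ⟨σ, h1, ζ, h2, h3⟩ := ta_act hη n y hy ht φ
    have h4 : φ t ∈ E := by
      have h5 : φ t = algebraMap M Ω ζ * t ^ n σ / algebraMap M Ω (y σ) := by
        rw [← h3, mul_div_cancel_right₀]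
        exact (map_ne_zero (algebraMap M Ω)).2 (hy0 σ)
      rw [h5]
      exact E.div_mem (E.mul_mem (hME _) (pow_mem htE _)) (hME _)
    intro x hx
    induction hx using IntermediateField.adjoin_induction with
    | mem x hx =>
      rw [Set.mem_singleton_iff] at hx
      rw [hx]; exact h4
    | algebraMap m => rw [h1]; exact hME _
    | add x y _ _ hx hy => rw [map_add]; exact E.add_mem hx hy
    | inv x _ hx => rw [map_inv₀]; exact E.inv_mem hx
    | mul x y _ _ hx hy => rw [map_mul]; exact E.mul_mem hx hy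
  have hnorm : Normal k E := by
    have h0 : Normal k (E.restrictScalars k) := by
      rw [IntermediateField.normal_iff_forall_map_le]
      rintro φ _ ⟨x, hx, rfl⟩
      exact hstab φ x hx
    exact h0
  have hsep : Algebra.IsSeparable k E := inferInstance
  have hgal : IsGalois k E := ⟨⟩
  refine ⟨E, inferInstance, inferInstance, inferInstance, inferInstance,
    { is_comm := ⟨fun φ ψ => ?_⟩ }, ⟨⟨t, htE⟩, Subtype.ext ht⟩⟩
  have htE' : (⟨t, htE⟩ : E) ^ Units.torsionOrder M = algebraMap M E η := Subtype.ext ht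
  obtain ⟨σ, s1, ζ, s2, s3⟩ := ta_act hη n y hy htE' (φ : E →ₐ[k] E)
  obtain ⟨τ, t1, ξ, t2, t3⟩ := ta_act hη n y hy htE' (ψ : E →ₐ[k] E)
  have s1' : ∀ m : M, φ (algebraMap M E m) = algebraMap M E (σ m) := s1
  have t1' : ∀ m : M, ψ (algebraMap M E m) = algebraMap M E (τ m) := t1
  have s3' : φ ⟨t, htE⟩ * algebraMap M E (y σ) = algebraMap M E ζ * ⟨t, htE⟩ ^ n σ := s3
  have t3' : ψ ⟨t, htE⟩ * algebraMap M E (y τ) = algebraMap M E ξ * ⟨t, htE⟩ ^ n τ := t3
  have hστ : ∀ m : M, σ (τ m) = τ (σ m) := fun m => by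
    have := (inferInstance : IsMulCommutative Gal(M/k)).is_comm.comm σ τ
    exact congrArg (fun f : Gal(M/k) => f m) this
  -- the value on `t`
  have key : φ (ψ ⟨t, htE⟩) = ψ (φ ⟨t, htE⟩) := by
    have e1 : φ (ψ ⟨t, htE⟩) * (algebraMap M E (σ (y τ)) * algebraMap M E (y σ) ^ n τ) =
        algebraMap M E (ξ ^ n σ * ζ ^ n τ) * ⟨t, htE⟩ ^ (n σ * n τ) := by
      have h1 := congrArg φ t3'
      rw [map_mul, s1', map_mul, s1', map_pow, hroot σ ξ t2] at h1
      rw [← mul_assoc, h1, mul_assoc, ← mul_pow, s3', mul_pow, ← map_pow, ← pow_mul, ← mul_assoc,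
        ← map_mul]
    have e2 : ψ (φ ⟨t, htE⟩) * (algebraMap M E (τ (y σ)) * algebraMap M E (y τ) ^ n σ) =
        algebraMap M E (ζ ^ n τ * ξ ^ n σ) * ⟨t, htE⟩ ^ (n τ * n σ) := by
      have h1 := congrArg ψ s3'
      rw [map_mul, t1', map_mul, t1', map_pow, hroot τ ζ s2] at h1
      rw [← mul_assoc, h1, mul_assoc, ← mul_pow, t3', mul_pow, ← map_pow, ← pow_mul, ← mul_assoc,
        ← map_mul]
    have e3 : algebraMap M E (σ (y τ)) * algebraMap M E (y σ) ^ n τ =
        algebraMap M E (τ (y σ)) * algebraMap M E (y τ) ^ n σ := by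
      rw [← map_pow, ← map_pow, ← map_mul, ← map_mul, mul_comm, hcomm σ τ, mul_comm]
    have e4 : algebraMap M E (τ (y σ)) * algebraMap M E (y τ) ^ n σ ≠ 0 := by
      refine mul_ne_zero ?_ (pow_ne_zero _ ?_)
      · exact (map_ne_zero (algebraMap M E)).2 ((map_ne_zero τ).2 (hy0 σ))
      · exact (map_ne_zero (algebraMap M E)).2 (hy0 τ)
    rw [e3] at e1
    refine mul_right_cancel₀ e4 ?_
    rw [e1, e2, mul_comm (ξ ^ n σ), mul_comm (n σ)]
  -- equality on `E`
  apply AlgEquiv.ext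
  rintro ⟨x, hx⟩
  change φ (ψ ⟨x, hx⟩) = ψ (φ ⟨x, hx⟩)
  induction hx using IntermediateField.adjoin_induction with
  | mem x hx =>
    rw [Set.mem_singleton_iff] at hx
    subst hx
    exact key
  | algebraMap m =>
    have h0 : (⟨algebraMap M Ω m, hME m⟩ : E) = algebraMap M E m := rfl
    rw [h0, t1', s1', s1', t1', hστ]
  | add x y hx hy ihx ihy =>
    have h0 : (⟨x + y, E.add_mem hx hy⟩ : E) = ⟨x, hx⟩ + ⟨y, hy⟩ := rfl
    rw [h0, map_add, map_add, map_add, map_add, ihx, ihy]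
  | inv x hx ihx =>
    have h0 : (⟨x⁻¹, E.inv_mem hx⟩ : E) = (⟨x, hx⟩ : E)⁻¹ := rfl
    rw [h0, map_inv₀, map_inv₀, map_inv₀, map_inv₀, ihx]
  | mul x y hx hy ihx ihy =>
    have h0 : (⟨x * y, E.mul_mem hx hy⟩ : E) = ⟨x, hx⟩ * ⟨y, hy⟩ := rfl
    rw [h0, map_mul, map_mul, map_mul, map_mul, ihx, ihy]

end Pool.Agent.CMG
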