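import Pool.Agent.CMG.ModelEx
import Pool.Agent.CMG.SNorm
import Pool.Agent.CMG.SVal
import Pool.Agent.CMG.SComb
import Pool.Agent.CMG.TateAb
import Pool.Agent.CMG.SAux
import Pool.Agent.StarkRQ.ArtSpec

/-!
# S17: existence of Stark units

`exists_comb` with `R = D.m * N`; `y_α = Algebra.norm M (ψ α 1)`, `η = ∏_{α ∈ s} y_α^{c α}`. For
`α ∈ s`: `rs (ρ (cls α)) = 1` (`artin_iff`). `deriv_zeta`: `zeta_eq` gives `Z` for every `σ` (`D.epstein`);
`norm_log` with `Z' = Z`: `(nrm α - 1) Z'(0) = -log ‖ι (σ y_α)‖²`, add up. `abelian`: for every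
`σ ∈ Gal(M/k)` choose `β_σ` prime to `D.m N` with `rs (ρ (cls β_σ)) = σ` (surjectivity, `β + N t` prime
to `m`), `n σ = nrm β_σ`, `y σ = y_{β_σ}`; `norm_symm` with `α ∈ s` gives
`y_α^{n σ} = σ(y_α) y_{β_σ}^{nrm α - 1}`, hence `η^{nσ} = σ(η) y_σ^w`; `hcomm` is `norm_symm`; `hroot` is
`artin_root` (`nrm β` is prime to `w`: an odd prime dividing `w` is ramified in `M`, so it
divides `N`; `2 ∣ D.m N` by `two_dvd`). `tate_abelian`. Integrality of `g η/η`: from `norm_val`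
`g(y_α)^K/y_α^K = (g(y_α)^K/B^L)(B^L/y_α^K)` is integral together with its inverse, so `g(y_α)/y_α` and
its inverse are integral. Last part: `norm_val`.
-/

set_option autoImplicit false

noncomputable section

open NumberField Pool.Agent.StarkRQ

namespace Pool.Agent.CMG

theorem exists_cls {k : Type} [Field k] [NumberField k] {N : ℕ}
    (u : (𝓞 k ⧸ Ideal.span {(N : 𝓞 k)})ˣ) :
    ∃ (a : 𝓞 k) (ha : IsCoprime a (N : 𝓞 k)), cls N a ha = u := by
  obtain ⟨a, ha⟩ := Ideal.Quotient.mk_surjective (u : 𝓞 k ⧸ Ideal.span {(N : 𝓞 k)})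
  obtain ⟨b, hb⟩ := Ideal.Quotient.mk_surjective ((u⁻¹ : _ˣ) : 𝓞 k ⧸ Ideal.span {(N : 𝓞 k)})
  have h1 : Ideal.Quotient.mk (Ideal.span {(N : 𝓞 k)}) (a * b) = Ideal.Quotient.mk _ 1 := by
    rw [map_mul, ha, hb, map_one, ← Units.val_mul, mul_inv_cancel, Units.val_one]
  rw [Ideal.Quotient.eq, Ideal.mem_span_singleton] at h1
  obtain ⟨c, hc⟩ := h1
  have hab : IsCoprime a (N : 𝓞 k) := ⟨b, -c, by linear_combination hc⟩
  refine ⟨a, hab, Units.ext ?_⟩
  rw [← ha]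
  rfl

theorem cls_eq_iff {k : Type} [Field k] [NumberField k] {N : ℕ} {a b : 𝓞 k}
    (ha : IsCoprime a (N : 𝓞 k)) (hb : IsCoprime b (N : 𝓞 k)) :
    cls N a ha = cls N b hb ↔ (N : 𝓞 k) ∣ a - b := by
  rw [← Ideal.mem_span_singleton, ← Ideal.Quotient.eq, Units.ext_iff]
  rfl

theorem isIntegral_zpow {M : Type} [Field M] {x : M} (h : IsIntegral ℤ x)
    (h' : IsIntegral ℤ x⁻¹) (n : ℤ) : IsIntegral ℤ (x ^ n) := by
  obtain ⟨m, rfl | rfl⟩ := n.eq_nat_or_neg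
  · rw [zpow_natCast]
    exact h.pow m
  · rw [zpow_neg, zpow_natCast, ← inv_pow]
    exact h'.pow m

/-- S17 -/
theorem exists_stark {k : Type} [Field k] [NumberField k] [Algebra k ℂ] (D : EllData k) {N : ℕ}
    (hN : D.N₀ ∣ N) (hN0 : N ≠ 0) {M : Type} [Field M] [NumberField M] [Algebra k M]
    [IsGalois ℚ M] [IsAbelianGalois k M] (ι : M →+* ℂ)
    (hι : ∀ x : k, ι (algebraMap k M x) = algebraMap k ℂ x)
    (hM : ∀ x : M, ι x ∈ IntermediateField.adjoin k {D.h (pt (1 : 𝓞 k) N)})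
    (hram : ∀ p : ℕ, p.Prime → (p : ℤ) ∣ discr M → p ∣ N) :
    ∃ η : M, IsStarkUnit k ι N η ∧
      (¬ IsPrimePow N → IsIntegral ℤ η ∧ IsIntegral ℤ η⁻¹) := by
  classical
  obtain ⟨F, _, _, _, _, _, _, A, hA⟩ := exists_model D hN hN0 ι hι hM
  obtain ⟨ρ, hρ, hρs, hρk⟩ := exists_rho D hN hN0 A
  have hart := artin_iff D hN hN0 A (M := M) hram ρ hρ
  have := D.pid
  have hmN0 : D.m * N ≠ 0 := mul_ne_zero D.m_pos.ne' hN0
  obtain ⟨s, c, hs, hsum⟩ := exists_comb (k := k) (M := M) (R := D.m * N) hmN0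
    (fun p hp h => (hram p hp h).mul_left _)
  set w : ℕ := Units.torsionOrder M with hw
  have hw0 : w ≠ 0 := Units.torsionOrder_ne_zero M
  set y : 𝓞 k → M := fun α => Algebra.norm M (A.ψ α 1) with hy
  have hcop : ∀ α : 𝓞 k, IsCoprime α ((D.m * N : ℕ) : 𝓞 k) → IsCoprime α (N : 𝓞 k) := by
    intro α h
    rw [Nat.cast_mul] at h
    exact h.of_mul_right_right
  have hval := fun (α : 𝓞 k) (hα : IsCoprime α ((D.m * N : ℕ) : 𝓞 k)) =>
    norm_val D hN hN0 A (M := M) α hα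
  have hy0 : ∀ α : 𝓞 k, IsCoprime α ((D.m * N : ℕ) : 𝓞 k) → y α ≠ 0 := fun α hα => (hval α hα).1
  have hs1 : ∀ α (hα : α ∈ s), rs k M F (ρ (cls N α (hcop α (hs α hα).1))) = 1 :=
    fun α hα => ((hart α (hcop α (hs α hα).1) 1).1 (hs α hα).2).symm
  have hsymm := fun (α β : 𝓞 k) (hα : IsCoprime α ((D.m * N : ℕ) : 𝓞 k))
    (hβ : IsCoprime β ((D.m * N : ℕ) : 𝓞 k)) =>
    norm_symm D hN hN0 A (M := M) ρ hρ α β hα (hcop α hα) hβ (hcop β hβ)
  set η : M := ∏ α ∈ s, y α ^ c α with hη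
  have hη0 : η ≠ 0 := Finset.prod_ne_zero_iff.2 fun α hα => zpow_ne_zero _ (hy0 α (hs α hα).1)
  -- the zeta functions
  have hfin : Finite (𝓞 k ⧸ Ideal.span {(N : 𝓞 k)}) :=
    Ideal.finiteQuotientOfFreeOfNeBot _ (by
      rw [Ne, Ideal.span_singleton_eq_bot]
      exact_mod_cast hN0)
  have : Fintype (𝓞 k ⧸ Ideal.span {(N : 𝓞 k)})ˣ := Fintype.ofFinite _
  have hZc : ∀ u : (𝓞 k ⧸ Ideal.span {(N : 𝓞 k)})ˣ, ∃ Z : ℂ → ℂ,
      ∀ (a : 𝓞 k) (ha : IsCoprime a (N : 𝓞 k)), cls N a ha = u → IsEpstein k (pt a N) Z := by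
    intro u
    obtain ⟨b, hb, hbu⟩ := exists_cls u
    obtain ⟨Z, hZ⟩ := D.epstein N b hN hN0 hb
    refine ⟨Z, fun a ha hau => hZ.congr hN0 ((cls_eq_iff hb ha).1 (hbu.trans hau.symm))⟩
  choose Zc hZc' using hZc
  have hzeta : ∀ σ : Gal(M/k), ∃ Z : ℂ → ℂ, IsPartialZeta N σ Z := fun σ =>
    ⟨_, zeta_eq D hN hN0 ((rs k M F).comp ρ) (fun a ha σ => hart a ha σ) Zc
      (fun a ha => hZc' _ a ha rfl) σ⟩
  have hlog : ∀ (σ : Gal(M/k)) (Z : ℂ → ℂ), IsPartialZeta N σ Z → ∀ α ∈ s,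
      ((nrm α : ℂ) - 1) * deriv Z 0 = ((- Real.log (‖ι (σ (y α))‖ ^ 2) : ℝ) : ℂ) := by
    intro σ Z hZ α hα
    have h := norm_log D hN hN0 A (M := M) ρ hρ hρs hρk hart α (hs α hα).1
      (hcop α (hs α hα).1) σ Z Z hZ (by rw [hs1 α hα, mul_one]; exact hZ)
    rw [hA] at h
    rw [← h]
    ring
  refine ⟨η, ⟨hη0, ?_, ?_, ?_⟩, ?_⟩
  · -- integrality of the quotients
    intro g
    have hg : ∀ α ∈ s, IsIntegral ℤ (g (y α) / y α) ∧ IsIntegral ℤ (g (y α) / y α)⁻¹ := by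
      intro α hα
      obtain ⟨h0, ⟨K, L, hK, h1, h2⟩, -⟩ := hval α (hs α hα).1
      have hy0' := hy0 α (hs α hα).1
      have hgy0 : g (y α) ≠ 0 := (map_ne_zero g).2 hy0'
      have hB : (D.B : M) ≠ 0 := Nat.cast_ne_zero.2 D.B_pos.ne'
      have h3 : IsIntegral ℤ (g (y α ^ K / (D.B : M) ^ L)) := h1.map (g : M →+* M).toIntAlgHom
      have h4 : IsIntegral ℤ (g ((D.B : M) ^ L / y α ^ K)) := h2.map (g : M →+* M).toIntAlgHom
      have hKey1 : (g (y α) / y α) ^ K = g (y α ^ K / (D.B : M) ^ L) * ((D.B : M) ^ L / y α ^ K) := by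
        rw [map_div₀, map_pow, map_pow, map_natCast, div_pow]
        field_simp
      have hKey2 : ((g (y α) / y α)⁻¹) ^ K =
          (y α ^ K / (D.B : M) ^ L) * g ((D.B : M) ^ L / y α ^ K) := by
        rw [map_div₀, map_pow, map_pow, map_natCast, inv_pow, div_pow]
        field_simp
      exact ⟨IsIntegral.of_pow hK (hKey1 ▸ h3.mul h2), IsIntegral.of_pow hK (hKey2 ▸ h1.mul h4)⟩
    have : g η / η = ∏ α ∈ s, (g (y α) / y α) ^ c α := by
      rw [hη, map_prod, ← Finset.prod_div_distrib]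
      refine Finset.prod_congr rfl fun α _ => ?_
      rw [map_zpow₀, div_zpow]
    rw [this]
    exact IsIntegral.prod _ fun α hα => isIntegral_zpow (hg α hα).1 (hg α hα).2 _
  · -- derivatives
    intro σ
    obtain ⟨Z, hZ⟩ := hzeta σ
    refine ⟨Z, hZ, ?_⟩
    have h1 : (w : ℂ) * deriv Z 0 = ((- Real.log (‖ι (σ η)‖ ^ 2) : ℝ) : ℂ) := by
      have e1 : (w : ℂ) * deriv Z 0 = ∑ α ∈ s, (c α : ℂ) * (((nrm α : ℂ) - 1) * deriv Z 0) := by
        have : (w : ℂ) = ∑ α ∈ s, (c α : ℂ) * ((nrm α : ℂ) - 1) := by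
          have := congrArg (fun x : ℤ => (x : ℂ)) hsum
          push_cast at this
          rw [← this]
        rw [this, Finset.sum_mul]
        exact Finset.sum_congr rfl fun α _ => by ring
      rw [e1, Finset.sum_congr rfl fun α hα => by rw [hlog σ Z hZ α hα]]
      have e2 : Real.log (‖ι (σ η)‖ ^ 2) = ∑ α ∈ s, (c α : ℝ) * Real.log (‖ι (σ (y α))‖ ^ 2) := by
        have : ‖ι (σ η)‖ ^ 2 = ∏ α ∈ s, (‖ι (σ (y α))‖ ^ 2) ^ c α := by
          rw [hη, map_prod, map_prod, norm_prod, ← Finset.prod_pow]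
          refine Finset.prod_congr rfl fun α _ => ?_
          rw [map_zpow₀, map_zpow₀, norm_zpow, ← zpow_natCast, ← zpow_natCast, ← zpow_mul,
            ← zpow_mul, mul_comm]
        rw [this, Real.log_prod (fun α hα => zpow_ne_zero _ (pow_ne_zero _ (norm_ne_zero_iff.2
          ((map_ne_zero ι).2 ((map_ne_zero σ).2 (hy0 α (hs α hα).1))))))]
        exact Finset.sum_congr rfl fun α _ => Real.log_zpow _ _
      rw [e2]
      push_cast
      rw [← Finset.sum_neg_distrib]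
      exact Finset.sum_congr rfl fun α _ => by ring
    have hwC : (w : ℂ) ≠ 0 := Nat.cast_ne_zero.2 hw0
    rw [← mul_right_inj' hwC, h1, ← hw]
    push_cast
    field_simp
  · -- the abelian condition
    have hβ : ∀ σ : Gal(M/k), ∃ (β : 𝓞 k) (hβ : IsCoprime β ((D.m * N : ℕ) : 𝓞 k)),
        rs k M F (ρ (cls N β (hcop β hβ))) = σ := by
      intro σ
      obtain ⟨τ, hτ⟩ := AlgEquiv.restrictNormalHom_surjective (F := k) (K₁ := M) F σ
      obtain ⟨u, hu⟩ := hρs τ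
      obtain ⟨b, hb, hbu⟩ := exists_cls u
      obtain ⟨t, ht⟩ := exists_shift hb (m := (D.m : 𝓞 k)) (Nat.cast_ne_zero.2 D.m_pos.ne')
      have ht' : IsCoprime (b + N * t) ((D.m * N : ℕ) : 𝓞 k) := by rwa [Nat.cast_mul]
      refine ⟨b + (N : 𝓞 k) * t, ht', ?_⟩
      have : cls N (b + (N : 𝓞 k) * t) (hcop _ ht') = u := by
        rw [← hbu, cls_eq_iff]
        exact ⟨t, by ring⟩
      rw [this, hu]
      exact hτ
    choose β hβc hβρ using hβ
    refine tate_abelian hη0 (fun σ => nrm (β σ)) (fun σ => y (β σ)) ?_ ?_ ?_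
    · intro σ ζ hζ
      refine artin_root ((hart (β σ) (hcop _ (hβc σ)) σ).2 (hβρ σ).symm) hw0 ?_ hζ
      have h1 := coprime_nrm (hβc σ)
      refine Nat.coprime_of_dvd fun p hp hp1 hp2 => ?_
      have h2 : p ∣ D.m * N := by
        by_cases h : p = 2
        · rw [h]
          exact D.two_dvd.trans (Nat.mul_dvd_mul_left _ hN)
        · exact (hram p hp (ramified_of_dvd hp h hp2)).mul_left _
      exact Nat.Prime.not_coprime_iff_dvd.2 ⟨p, hp, hp1, h2⟩ h1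
    · intro σ
      have h1 : ∀ α ∈ s, y α ^ nrm (β σ) = σ (y α) * y (β σ) ^ ((nrm α : ℤ) - 1) := by
        intro α hα
        have h2 := hsymm α (β σ) (hs α hα).1 (hβc σ)
        rw [hs1 α hα, hβρ σ, AlgEquiv.one_apply] at h2
        have h3 := hy0 (β σ) (hβc σ)
        rw [zpow_sub_one₀ h3, zpow_natCast, ← mul_assoc, eq_mul_inv_iff_mul_eq₀ h3]
        rw [mul_comm (σ (y α))]
        exact h2
      have h2 : η ^ nrm (β σ) = ∏ α ∈ s, (y α ^ nrm (β σ)) ^ c α := by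
        rw [hη, ← Finset.prod_pow]
        refine Finset.prod_congr rfl fun α _ => ?_
        rw [← zpow_natCast, ← zpow_natCast, ← zpow_mul, ← zpow_mul, mul_comm]
      have h3 : ∏ α ∈ s, (y α ^ nrm (β σ)) ^ c α =
          (∏ α ∈ s, σ (y α) ^ c α) * y (β σ) ^ (∑ α ∈ s, c α * ((nrm α : ℤ) - 1)) := by
        have h4 : y (β σ) ^ (∑ α ∈ s, c α * ((nrm α : ℤ) - 1)) =
            ∏ α ∈ s, y (β σ) ^ (c α * ((nrm α : ℤ) - 1)) := by
          have h5 := hy0 (β σ) (hβc σ)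
          have : ∀ t : Finset (𝓞 k), y (β σ) ^ (∑ α ∈ t, c α * ((nrm α : ℤ) - 1)) =
              ∏ α ∈ t, y (β σ) ^ (c α * ((nrm α : ℤ) - 1)) := by
            intro t
            induction t using Finset.induction_on with
            | empty => simp
            | insert a t ha ih => rw [Finset.sum_insert ha, Finset.prod_insert ha, zpow_add₀ h5, ih]
          exact this s
        rw [h4, ← Finset.prod_mul_distrib]
        refine Finset.prod_congr rfl fun α hα => ?_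
        rw [h1 α hα, mul_zpow, ← zpow_mul, mul_comm (c α)]
      rw [h2, h3, hsum, zpow_natCast, hη, map_prod]
      congr 1
      exact Finset.prod_congr rfl fun α _ => (map_zpow₀ σ _ _).symm
    · intro σ τ
      have h2 := hsymm (β σ) (β τ) (hβc σ) (hβc τ)
      rw [hβρ σ, hβρ τ] at h2
      exact h2
  · intro hN'
    have hg : ∀ α ∈ s, IsIntegral ℤ (y α) ∧ IsIntegral ℤ (y α)⁻¹ :=
      fun α hα => (hval α (hs α hα).1).2.2 hN'
    refine ⟨IsIntegral.prod _ fun α hα => isIntegral_zpow (hg α hα).1 (hg α hα).2 _, ?_⟩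
    rw [hη, ← Finset.prod_inv_distrib]
    refine IsIntegral.prod _ fun α hα => ?_
    rw [← zpow_neg]
    exact isIntegral_zpow (hg α hα).1 (hg α hα).2 _

end Pool.Agent.CMG
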