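import Mathlib
import Pool.Agent.CMG.LNormOne
import Pool.Agent.CMG.SStark
import Pool.Agent.StarkRQ.Sym

/-!
# Artin symbols and complex conjugation, commutators

`artin_conj`: map the list in `HasArtinSymbol` by `𝔭 ↦ c(𝔭)`, `φ ↦ γ φ γ⁻¹` (`γ` maps `F` to itself, so
`γ φ γ⁻¹` fixes `F`; if `φ x ≡ x^q` mod `𝔓` then `γφγ⁻¹ x ≡ x^q` mod `γ𝔓`; `N(c𝔭) = N𝔭`; use
`RingOfIntegers.mapRingEquiv c`). `artin_commutator`: let `γ ∈ Gal(M/ℚ)`, `γ ∉ fixG k M`
(`exists_notMem_fixG`); its restriction to `k` (`k/ℚ` quadratic, normal) is the nontrivial automorphism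
`c`, and `e (c a) = star (e a)` (compare in `ℂ`: `algebraMap k ℂ (c x) = conj (algebraMap k ℂ x)`).
`norm_one_lemma` gives `a u ≡ ε c(u)` mod `N`, so `cls a = cls ε · cls c(u) · (cls u)⁻¹`; `R (cls ε) = 1`
(`Ideal.span {ε} = ⊤ = 1` has Artin symbol `1`: empty list), `toG (R (cls c(u))) = γ toG (R (cls u)) γ⁻¹`
by `artin_conj` and `hR`.
-/

set_option autoImplicit false

noncomputable section

open NumberField Module Pool.Agent.StarkRQ

namespace Pool.Agent.CMG

section conj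

open scoped Pointwise

variable {F M : Type} [Field F] [NumberField F] [Field M] [NumberField M] [Algebra F M]

private lemma exists_conj (c : F ≃+* F) (γ : Gal(M/ℚ))
    (hγ : ∀ x : F, γ (algebraMap F M x) = algebraMap F M (c x)) (ψ : Gal(M/F)) :
    ∃ ψ' : Gal(M/F), toG F M ψ' = γ * toG F M ψ * γ⁻¹ := by
  have hγ' : ∀ x : F, γ⁻¹ (algebraMap F M x) = algebraMap F M (c.symm x) := by
    intro x
    have h1 := hγ (c.symm x)
    rw [RingEquiv.apply_symm_apply] at h1
    rw [← h1]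
    exact AlgEquiv.symm_apply_apply γ _
  have h : γ * toG F M ψ * γ⁻¹ ∈ fixG F M := by
    rw [mem_fixG]
    intro x
    rw [AlgEquiv.mul_apply, AlgEquiv.mul_apply, hγ', toG_apply, AlgEquiv.commutes, hγ,
      RingEquiv.apply_symm_apply]
  exact h

private lemma absNorm_map_equiv (e : 𝓞 F ≃+* 𝓞 F) (I : Ideal (𝓞 F)) :
    Ideal.absNorm (I.map e) = Ideal.absNorm I := by
  rw [Ideal.absNorm_apply, Ideal.absNorm_apply, Submodule.cardQuot_apply, Submodule.cardQuot_apply]
  exact (Nat.card_congr (Ideal.quotientEquiv I (I.map e) e rfl).toEquiv).symm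

private lemma isFrob_conj (c : F ≃+* F) (γ : Gal(M/ℚ))
    (hγ : ∀ x : F, γ (algebraMap F M x) = algebraMap F M (c x)) {𝔭 : Ideal (𝓞 F)}
    {φ φ' : Gal(M/F)} (hφ : toG F M φ' = γ * toG F M φ * γ⁻¹) (h : IsFrob 𝔭 φ) :
    IsFrob (𝔭.map (RingOfIntegers.mapRingEquiv c)) φ' := by
  have hγ' : ∀ x : F, γ⁻¹ (algebraMap F M x) = algebraMap F M (c.symm x) := by
    intro x
    have h1 := hγ (c.symm x)
    rw [RingEquiv.apply_symm_apply] at h1
    rw [← h1]
    exact AlgEquiv.symm_apply_apply γ _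
  obtain ⟨𝔓, hP, hPp, hc⟩ := h
  have hc' : Cong (toG F M φ) 𝔓 (Ideal.absNorm 𝔭) := hc
  refine ⟨γ • 𝔓, inferInstance, ?_, ?_⟩
  · ext x
    rw [Ideal.mem_comap, Ideal.mem_pointwise_smul_iff_inv_smul_mem,
      ← Ideal.symm_apply_mem_of_equiv_iff, ← hPp, Ideal.mem_comap]
    have : γ⁻¹ • algebraMap (𝓞 F) (𝓞 M) x =
        algebraMap (𝓞 F) (𝓞 M) ((RingOfIntegers.mapRingEquiv c).symm x) := by
      apply RingOfIntegers.ext
      exact hγ' x
    rw [this]
  · have h1 := hc'.conj γ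
    rw [← hφ] at h1
    rw [absNorm_map_equiv]
    exact h1

end conj

/-- Artin symbols and conjugation -/
theorem artin_conj {F M : Type} [Field F] [NumberField F] [Field M] [NumberField M] [Algebra F M]
    [IsGalois ℚ M] [IsGalois F M] (c : F ≃+* F) (γ : Gal(M/ℚ))
    (hγ : ∀ x : F, γ (algebraMap F M x) = algebraMap F M (c x)) {a b : 𝓞 F}
    (hab : (b : F) = c (a : F)) {σ : Gal(M/F)} (h : HasArtinSymbol (Ideal.span {a}) σ) :
    ∃ σ' : Gal(M/F), toG F M σ' = γ * toG F M σ * γ⁻¹ ∧ HasArtinSymbol (Ideal.span {b}) σ' := by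
  choose cj hcj using exists_conj (M := M) c γ hγ
  have hb : RingOfIntegers.mapRingEquiv c a = b := RingOfIntegers.ext hab.symm
  obtain ⟨l, hl, hl1, hl2⟩ := h
  refine ⟨((l.map fun x => (x.1.map (RingOfIntegers.mapRingEquiv c), cj x.2)).map Prod.snd).prod,
    ?_, l.map fun x => (x.1.map (RingOfIntegers.mapRingEquiv c), cj x.2), ?_, ?_, rfl⟩
  · have h1 : γ * toG F M σ * γ⁻¹ = MulAut.conj γ (toG F M σ) := rfl
    rw [h1, ← hl2, map_list_prod, map_list_prod, map_list_prod]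
    simp only [List.map_map]
    congr 1
    refine List.map_congr_left fun x _ => ?_
    exact hcj x.2
  · intro x hx
    obtain ⟨y, hy, rfl⟩ := List.mem_map.1 hx
    obtain ⟨h1, h2, h3⟩ := hl y hy
    refine ⟨Ideal.map_isPrime_of_equiv _, ?_, isFrob_conj c γ hγ (hcj y.2) h3⟩
    intro h4
    exact h2 ((Ideal.map_eq_bot_iff_of_injective
      (f := RingOfIntegers.mapRingEquiv c) (RingEquiv.injective _)).1 h4)
  · rw [List.map_map]
    have h1 : (l.map (Prod.fst ∘ fun x : Ideal (𝓞 F) × Gal(M/F) =>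
        (x.1.map (RingOfIntegers.mapRingEquiv c), cj x.2))) =
        (l.map Prod.fst).map (Ideal.mapHom (RingOfIntegers.mapRingEquiv c)) := by
      rw [List.map_map]
      rfl
    rw [h1, ← map_list_prod, hl1, Ideal.mapHom_apply, Ideal.map_span, Set.image_singleton]
    congr 2

theorem artin_commutator {k : Type} [Field k] [NumberField k] [Algebra k ℂ]
    (hk : finrank ℚ k = 2) (hI : ∃ j : k, algebraMap k ℂ j = Complex.I)
    (e : 𝓞 k ≃+* GaussianInt) (he : ∀ a : 𝓞 k, ((e a : GaussianInt) : ℂ) = algebraMap k ℂ (a : k))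
    {M : Type} [Field M] [NumberField M] [Algebra k M] [IsGalois ℚ M] [IsAbelianGalois k M]
    {N : ℕ} (hN0 : N ≠ 0) (R : (𝓞 k ⧸ Ideal.span {(N : 𝓞 k)})ˣ →* Gal(M/k))
    (hR : ∀ (a : 𝓞 k) (ha : IsCoprime a (N : 𝓞 k)) (σ : Gal(M/k)),
      HasArtinSymbol (Ideal.span {a}) σ ↔ σ = R (cls N a ha))
    {a : 𝓞 k} (ha : IsCoprime a (N : 𝓞 k))
    (hn : ((8 * N : ℕ) : GaussianInt) ∣ e a * star (e a) - 1) :
    ∃ g h : Gal(M/ℚ), toG k M (R (cls N a ha)) = g * h * g⁻¹ * h⁻¹ := by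
  classical
  have : Algebra.IsQuadraticExtension ℚ k := ⟨hk⟩
  obtain ⟨γ, hγ⟩ := exists_notMem_fixG (M := M) hk
  set c : k ≃ₐ[ℚ] k := γ.restrictNormal k with hc
  have hγc : ∀ x : k, γ (algebraMap k M x) = algebraMap k M (c x) := fun x =>
    (AlgEquiv.restrictNormal_commutes γ k x).symm
  obtain ⟨j, hj⟩ := hI
  have hjj : j * j = -1 := by
    apply (algebraMap k ℂ).injective
    rw [map_mul, hj, Complex.I_mul_I, map_neg, map_one]
  -- every integer of `k` is `re + im * j`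
  have hdec : ∀ a : 𝓞 k, (a : k) = ((e a).re : k) + ((e a).im : k) * j := by
    intro a
    apply (algebraMap k ℂ).injective
    rw [← he, map_add, map_mul, hj, map_intCast, map_intCast, GaussianInt.toComplex_def]
  have hcdec : ∀ a : 𝓞 k, c (a : k) = ((e a).re : k) + ((e a).im : k) * c j := by
    intro a
    have h1 := congrArg c (hdec a)
    rwa [map_add, map_mul, map_intCast, map_intCast] at h1
  have hcj : c j = -j := by
    have h1 : c j * c j = -1 := by rw [← map_mul, hjj, map_neg, map_one]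
    have h2 : (c j - j) * (c j + j) = 0 := by linear_combination h1 - hjj
    rcases mul_eq_zero.1 h2 with h3 | h3
    · exfalso
      apply hγ
      rw [mem_fixG]
      intro x
      have h4 : c j = j := sub_eq_zero.1 h3
      have h5 : ∀ a : 𝓞 k, c (a : k) = a := fun a => by rw [hcdec, h4, ← hdec]
      obtain ⟨u, v, hv, rfl⟩ := IsFractionRing.div_surjective (A := 𝓞 k) x
      rw [hγc, map_div₀]
      congr 1
      rw [show c (algebraMap (𝓞 k) k u) = algebraMap (𝓞 k) k u from h5 u,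
        show c (algebraMap (𝓞 k) k v) = algebraMap (𝓞 k) k v from h5 v]
    · exact eq_neg_of_add_eq_zero_left h3
  set E : 𝓞 k ≃+* 𝓞 k := RingOfIntegers.mapRingEquiv (c : k ≃+* k) with hE
  have hEc : ∀ a : 𝓞 k, ((E a : 𝓞 k) : k) = c (a : k) := fun a => rfl
  have heE : ∀ a : 𝓞 k, e (E a) = star (e a) := by
    intro a
    apply GaussianInt.toComplex_injective
    rw [he, hEc, hcdec, hcj, map_add, map_mul, map_neg, hj, map_intCast, map_intCast,
      GaussianInt.toComplex_star, GaussianInt.toComplex_def]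
    simp
  obtain ⟨ε, u, hε, hu, hdvd⟩ := norm_one_lemma hN0 hn
  have hεe : e (e.symm ε) = ε := e.apply_symm_apply ε
  have hue : e (e.symm u) = u := e.apply_symm_apply u
  have hdvd' : (N : 𝓞 k) ∣ a * e.symm u - e.symm ε * E (e.symm u) := by
    obtain ⟨y, hy⟩ := hdvd
    refine ⟨e.symm y, ?_⟩
    apply e.injective
    rw [map_sub, map_mul, map_mul, heE, hεe, hue, map_mul, map_natCast, e.apply_symm_apply, hy]
  have hcu : IsCoprime (e.symm u) (N : 𝓞 k) := by
    have := hu.map e.symm.toRingHom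
    simpa using this
  have hcE : IsCoprime (E (e.symm u)) (N : 𝓞 k) := by
    have := hcu.map E.toRingHom
    simpa using this
  have hcε : IsCoprime (e.symm ε) (N : 𝓞 k) := by
    have h1 : IsUnit (e.symm ε) := hε.map e.symm
    exact (isCoprime_one_left (x := (N : 𝓞 k))).of_isCoprime_of_dvd_left h1.dvd
  have hmul : ∀ (x y : 𝓞 k) (hx : IsCoprime x (N : 𝓞 k)) (hy : IsCoprime y (N : 𝓞 k)),
      cls N (x * y) (hx.mul_left hy) = cls N x hx * cls N y hy := by
    intro x y hx hy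
    apply Units.ext
    change Ideal.Quotient.mk _ (x * y) = Ideal.Quotient.mk _ x * Ideal.Quotient.mk _ y
    exact map_mul _ _ _
  have hcls : cls N a ha * cls N (e.symm u) hcu = cls N (e.symm ε) hcε * cls N (E (e.symm u)) hcE := by
    rw [← hmul, ← hmul]
    exact (cls_eq_iff _ _).2 hdvd'
  have hR1 : R (cls N (e.symm ε) hcε) = 1 := by
    symm
    rw [← hR]
    have h1 : IsUnit (e.symm ε) := hε.map e.symm
    refine ⟨[], by simp, ?_, by simp⟩
    rw [List.map_nil, List.prod_nil, Ideal.one_eq_top]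
    exact (Ideal.span_singleton_eq_top.2 h1).symm
  have hart : HasArtinSymbol (Ideal.span {e.symm u}) (R (cls N (e.symm u) hcu)) :=
    (hR (e.symm u) hcu _).2 rfl
  obtain ⟨σ', hσ', hσ'art⟩ := artin_conj (c : k ≃+* k) γ hγc (a := e.symm u) (b := E (e.symm u))
    rfl hart
  have hR2 : σ' = R (cls N (E (e.symm u)) hcE) := (hR _ hcE _).1 hσ'art
  refine ⟨γ, toG k M (R (cls N (e.symm u) hcu)), ?_⟩
  rw [← hσ', eq_mul_inv_iff_mul_eq, ← map_mul, ← map_mul, hcls, map_mul, hR1, one_mul, hR2]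

end Pool.Agent.CMG
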