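import Mathlib

/-!
# S13: if almost all primes split completely the extension is trivial

If all but finitely many primes have all residue degrees `1`, the extension is trivial. Let
`m = [M' : M]`, and suppose `m ≥ 2`. Enlarge `S` by the primes below the primes which divide the
different. Over a prime `𝔭` which is not in `S` there are two different primes of norm `N𝔭`
(`exists_two`), and we get an injective map from the pairs of ideals prime to `S` to the ideals of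
`M'` (`zz_sq_le`), so that `ζ_{M,S}(s) ^ 2 ≤ ζ_{M'}(s)` for real `s > 1`. As `s → 1⁺`,
`(s-1) ζ_{M,S}(s)` and `(s-1) ζ_{M'}(s)` have positive limits, a contradiction.
-/

set_option autoImplicit false

noncomputable section

open NumberField Filter Topology UniqueFactorizationMonoid
open scoped ENNReal

namespace Pool.Agent.CMG

section

variable {K : Type} [Field K] [NumberField K]

/-- the summand of the zeta function -/
private def swt (s : ℝ) (I : Ideal (𝓞 K)) : ℝ≥0∞ := ENNReal.ofReal ((Ideal.absNorm I : ℝ) ^ (-s))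

private lemma swt_mul (s : ℝ) (I J : Ideal (𝓞 K)) : swt s (I * J) = swt s I * swt s J := by
  rw [swt, swt, swt, map_mul, Nat.cast_mul, Real.mul_rpow (Nat.cast_nonneg _) (Nat.cast_nonneg _),
    ENNReal.ofReal_mul (by positivity)]

open Classical in
/-- the sum over the nonzero ideals which are prime to `T` -/
private def ZZ (T : Finset (Ideal (𝓞 K))) (s : ℝ) : ℝ≥0∞ :=
  ∑' I : Ideal (𝓞 K), if I ≠ ⊥ ∧ ∀ p ∈ T, ¬ p ∣ I then swt s I else 0

variable (K) in
/-- the coefficients of the zeta function -/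
private def cf (s : ℝ) (n : ℕ) : ℝ :=
  if n = 0 then 0 else (Nat.card {I : Ideal (𝓞 K) // Ideal.absNorm I = n} : ℝ) * (n : ℝ) ^ (-s)

private lemma cf_nonneg (s : ℝ) (n : ℕ) : 0 ≤ cf K s n := by
  rw [cf]
  split_ifs
  · exact le_rfl
  · positivity

private lemma zz_empty (s : ℝ) : ZZ (∅ : Finset (Ideal (𝓞 K))) s =
    ∑' n : ℕ, ENNReal.ofReal (cf K s n) := by
  classical
  rw [ZZ, ← (Equiv.sigmaFiberEquiv (fun I : Ideal (𝓞 K) => Ideal.absNorm I)).tsum_eq,
    ENNReal.tsum_sigma']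
  refine tsum_congr fun n => ?_
  rw [cf]
  split_ifs with hn
  · rw [ENNReal.ofReal_zero, ENNReal.tsum_eq_zero]
    rintro ⟨I, hI⟩
    have h1 : I = ⊥ := Ideal.absNorm_eq_zero_iff.1 (hI.trans hn)
    simp [Equiv.sigmaFiberEquiv, h1]
  · have hfin : Finite {I : Ideal (𝓞 K) // Ideal.absNorm I = n} :=
      Ideal.finite_setOfPred_absNorm_eq n
    have h2 : ∀ I : {I : Ideal (𝓞 K) // Ideal.absNorm I = n},
        (if (Equiv.sigmaFiberEquiv (fun I : Ideal (𝓞 K) => Ideal.absNorm I) ⟨n, I⟩) ≠ ⊥ ∧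
          ∀ p ∈ (∅ : Finset (Ideal (𝓞 K))),
            ¬ p ∣ (Equiv.sigmaFiberEquiv (fun I : Ideal (𝓞 K) => Ideal.absNorm I) ⟨n, I⟩)
        then swt s (Equiv.sigmaFiberEquiv (fun I : Ideal (𝓞 K) => Ideal.absNorm I) ⟨n, I⟩)
        else 0) = ENNReal.ofReal ((n : ℝ) ^ (-s)) := by
      rintro ⟨I, hI⟩
      have h1 : I ≠ ⊥ := by
        rintro rfl
        rw [Ideal.absNorm_bot] at hI
        exact hn hI.symm
      simp [Equiv.sigmaFiberEquiv, h1, swt, hI]
    rw [tsum_congr h2]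
    have := Fintype.ofFinite {I : Ideal (𝓞 K) // Ideal.absNorm I = n}
    rw [tsum_fintype, Finset.sum_const, Finset.card_univ, nsmul_eq_mul, Nat.card_eq_fintype_card,
      ENNReal.ofReal_mul (Nat.cast_nonneg _), ENNReal.ofReal_natCast]

private lemma zeta_eq_tsum (s : ℝ) :
    dedekindZeta K s = ((∑' n : ℕ, cf K s n : ℝ) : ℂ) := by
  rw [dedekindZeta, LSeries, Complex.ofReal_tsum]
  refine tsum_congr fun n => ?_
  rw [LSeries.term_def, cf]
  split_ifs with hn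
  · simp
  · rw [Complex.ofReal_mul, Complex.ofReal_cpow (Nat.cast_nonneg n), Complex.ofReal_neg,
      Complex.ofReal_natCast, Complex.ofReal_natCast, Complex.cpow_neg, div_eq_mul_inv]

/-- the pole -/
private lemma zz_empty_lim : ∃ κ : ℝ, 0 < κ ∧
    (∀ᶠ s in 𝓝[>] (1 : ℝ), ZZ (∅ : Finset (Ideal (𝓞 K))) s ≠ ⊤) ∧
    Tendsto (fun s : ℝ => (s - 1) * (ZZ (∅ : Finset (Ideal (𝓞 K))) s).toReal) (𝓝[>] 1) (𝓝 κ) := by
  have h1 := tendsto_sub_one_mul_dedekindZeta_nhdsGT K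
  have h2 : Tendsto (fun s : ℝ => (s - 1) * ∑' n : ℕ, cf K s n) (𝓝[>] 1)
      (𝓝 (dedekindZeta_residue K)) := by
    have h3 := (Complex.continuous_re.tendsto _).comp h1
    refine (h3.congr fun s => ?_)
    rw [Function.comp_apply, zeta_eq_tsum, ← Complex.ofReal_one, ← Complex.ofReal_sub,
      ← Complex.ofReal_mul, Complex.ofReal_re]
  have h3 : ∀ᶠ s in 𝓝[>] (1 : ℝ), Summable (cf K s) := by
    filter_upwards [h2.eventually (eventually_gt_nhds (dedekindZeta_residue_pos K))] with s hs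
    by_contra h
    rw [tsum_eq_zero_of_not_summable h, mul_zero] at hs
    exact lt_irrefl _ hs
  refine ⟨dedekindZeta_residue K, dedekindZeta_residue_pos K, ?_, ?_⟩
  · filter_upwards [h3] with s hs
    rw [zz_empty, ← ENNReal.ofReal_tsum_of_nonneg (cf_nonneg s) hs]
    exact ENNReal.ofReal_ne_top
  · refine h2.congr' ?_
    filter_upwards [h3] with s hs
    rw [zz_empty, ← ENNReal.ofReal_tsum_of_nonneg (cf_nonneg s) hs,
      ENNReal.toReal_ofReal (tsum_nonneg (cf_nonneg s))]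

/-- one more prime -/
private lemma zz_insert {T : Finset (Ideal (𝓞 K))} (hT : ∀ p ∈ T, Prime p) {q : Ideal (𝓞 K)}
    (hq : Prime q) (hqT : q ∉ T) (s : ℝ) :
    ZZ T s = ZZ (insert q T) s + swt s q * ZZ T s := by
  classical
  conv_lhs => rw [ZZ]
  conv_rhs => rw [ZZ, ZZ]
  have h1 : ∀ I : Ideal (𝓞 K), (if I ≠ ⊥ ∧ ∀ p ∈ T, ¬ p ∣ I then swt s I else 0) =
      (if I ≠ ⊥ ∧ ∀ p ∈ insert q T, ¬ p ∣ I then swt s I else 0) +
        (if (I ≠ ⊥ ∧ ∀ p ∈ T, ¬ p ∣ I) ∧ q ∣ I then swt s I else 0) := by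
    intro I
    by_cases h2 : I ≠ ⊥ ∧ ∀ p ∈ T, ¬ p ∣ I
    · by_cases h3 : q ∣ I
      · rw [if_pos h2, if_neg, if_pos ⟨h2, h3⟩, zero_add]
        intro h4
        exact h4.2 q (Finset.mem_insert_self q T) h3
      · rw [if_pos h2, if_pos, if_neg fun h4 => h3 h4.2, add_zero]
        refine ⟨h2.1, fun p hp => ?_⟩
        rcases Finset.mem_insert.1 hp with rfl | hp
        · exact h3
        · exact h2.2 p hp
    · rw [if_neg h2, if_neg, if_neg fun h4 => h2 h4.1, add_zero]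
      intro h4
      exact h2 ⟨h4.1, fun p hp => h4.2 p (Finset.mem_insert_of_mem hp)⟩
  conv_lhs => rw [tsum_congr h1, ENNReal.tsum_add]
  congr 1
  rw [← ENNReal.tsum_mul_left]
  have hinj : Function.Injective fun J : Ideal (𝓞 K) => q * J := fun I J h =>
    mul_left_cancel₀ hq.ne_zero h
  rw [← hinj.tsum_eq]
  · refine tsum_congr fun J => ?_
    have h2 : ((q * J ≠ ⊥ ∧ ∀ p ∈ T, ¬ p ∣ q * J) ∧ q ∣ q * J) ↔ (J ≠ ⊥ ∧ ∀ p ∈ T, ¬ p ∣ J) := by
      constructor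
      · rintro ⟨⟨h3, h4⟩, -⟩
        refine ⟨?_, fun p hp h5 => h4 p hp (h5.mul_left q)⟩
        rintro rfl
        apply h3
        rw [← Ideal.zero_eq_bot, mul_zero]
      · rintro ⟨h3, h4⟩
        refine ⟨⟨?_, fun p hp h5 => ?_⟩, dvd_mul_right q J⟩
        · rw [← Ideal.zero_eq_bot] at h3 ⊢
          exact mul_ne_zero hq.ne_zero h3
        · rcases (hT p hp).dvd_or_dvd h5 with h6 | h6
          · apply hqT
            have h7 := ((hT p hp).dvd_prime_iff_associated hq).1 h6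
            rw [← associated_iff_eq.1 h7]
            exact hp
          · exact h4 p hp h6
    simp only [h2]
    split_ifs
    · rw [swt_mul]
    · rw [mul_zero]
  · intro I hI
    rw [Function.mem_support] at hI
    have h2 : (I ≠ ⊥ ∧ ∀ p ∈ T, ¬ p ∣ I) ∧ q ∣ I := by
      by_contra h3
      rw [if_neg h3] at hI
      exact hI rfl
    obtain ⟨J, rfl⟩ := h2.2
    exact ⟨J, rfl⟩

private lemma zz_lim (T : Finset (Ideal (𝓞 K))) (hT : ∀ p ∈ T, Prime p) : ∃ κ : ℝ, 0 < κ ∧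
    (∀ᶠ s in 𝓝[>] (1 : ℝ), ZZ T s ≠ ⊤) ∧
    Tendsto (fun s : ℝ => (s - 1) * (ZZ T s).toReal) (𝓝[>] 1) (𝓝 κ) := by
  classical
  induction T using Finset.induction_on with
  | empty => exact zz_empty_lim
  | insert q T hqT ih =>
    obtain ⟨κ, hκ, h1, h2⟩ := ih fun p hp => hT p (Finset.mem_insert_of_mem hp)
    have hq := hT q (Finset.mem_insert_self q T)
    have hT' : ∀ p ∈ T, Prime p := fun p hp => hT p (Finset.mem_insert_of_mem hp)
    have hN : (1 : ℝ) < (Ideal.absNorm q : ℝ) := by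
      have h3 : Ideal.absNorm q ≠ 0 := fun h => hq.ne_zero (Ideal.absNorm_eq_zero_iff.1 h)
      have h4 : Ideal.absNorm q ≠ 1 := fun h => hq.not_isUnit (by
        rw [Ideal.isUnit_iff]
        exact Ideal.absNorm_eq_one_iff.1 h)
      exact_mod_cast (by omega : 1 < Ideal.absNorm q)
    have hlt : ((Ideal.absNorm q : ℝ)) ^ (-(1 : ℝ)) < 1 :=
      Real.rpow_lt_one_of_one_lt_of_neg hN (by norm_num)
    refine ⟨κ * (1 - (Ideal.absNorm q : ℝ) ^ (-(1 : ℝ))), mul_pos hκ (sub_pos.2 hlt), ?_, ?_⟩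
    · filter_upwards [h1] with s hs
      intro h3
      apply hs
      rw [zz_insert hT' hq hqT, h3, top_add]
    · have h3 : Tendsto (fun s : ℝ => 1 - (Ideal.absNorm q : ℝ) ^ (-s)) (𝓝[>] 1)
          (𝓝 (1 - (Ideal.absNorm q : ℝ) ^ (-(1 : ℝ)))) := by
        apply Tendsto.mono_left _ nhdsWithin_le_nhds
        apply ContinuousAt.tendsto (f := fun s : ℝ => 1 - (Ideal.absNorm q : ℝ) ^ (-s))
        have : ContinuousAt (fun s : ℝ => (Ideal.absNorm q : ℝ) ^ (-s)) 1 :=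
          (Real.continuousAt_const_rpow (by linarith)).comp continuousAt_neg
        exact continuousAt_const.sub this
      refine (h2.mul h3).congr' ?_
      filter_upwards [h1] with s hs
      have h4 := zz_insert hT' hq hqT s
      have h5 : ZZ (insert q T) s ≠ ⊤ := fun h => hs (by rw [h4, h, top_add])
      have h6 : swt s q * ZZ T s ≠ ⊤ := ENNReal.mul_ne_top ENNReal.ofReal_ne_top hs
      have h7 := congrArg ENNReal.toReal h4
      rw [ENNReal.toReal_add h5 h6, ENNReal.toReal_mul, swt,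
        ENNReal.toReal_ofReal (by positivity)] at h7
      have h8 : (ZZ (insert q T) s).toReal =
          (ZZ T s).toReal * (1 - (Ideal.absNorm q : ℝ) ^ (-s)) := by
        rw [mul_sub, mul_one]
        nth_rw 1 [h7]
        ring
      rw [h8]
      ring

end

section

variable {M M' : Type} [Field M] [NumberField M] [Field M'] [NumberField M'] [Algebra M M']

/-- an injective map from pairs of ideals of `M` to ideals of `M'` -/
private lemma zz_sq_le {T : Finset (Ideal (𝓞 M))} {q₁ q₂ : Ideal (𝓞 M) → Ideal (𝓞 M')}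
    (hq₁ : ∀ p, Prime p → p ∉ T → Prime (q₁ p) ∧ (q₁ p).comap (algebraMap (𝓞 M) (𝓞 M')) = p ∧
      Ideal.absNorm (q₁ p) = Ideal.absNorm p)
    (hq₂ : ∀ p, Prime p → p ∉ T → Prime (q₂ p) ∧ (q₂ p).comap (algebraMap (𝓞 M) (𝓞 M')) = p ∧
      Ideal.absNorm (q₂ p) = Ideal.absNorm p)
    (hne : ∀ p, Prime p → p ∉ T → q₁ p ≠ q₂ p) (s : ℝ) :
    ZZ T s * ZZ T s ≤ ZZ (∅ : Finset (Ideal (𝓞 M'))) s := by
  classical
  -- the sum over a subtype
  have hsub : ZZ T s = ∑' I : {I : Ideal (𝓞 M) // I ≠ ⊥ ∧ ∀ p ∈ T, ¬ p ∣ I}, swt s I.1 := by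
    rw [ZZ]
    have h1 := tsum_subtype {I : Ideal (𝓞 M) | I ≠ ⊥ ∧ ∀ p ∈ T, ¬ p ∣ I} (swt s)
    refine Eq.trans ?_ h1.symm
    refine tsum_congr fun I => ?_
    rw [Set.indicator_apply]
    rfl
  have hmem : ∀ I : Ideal (𝓞 M), (I ≠ ⊥ ∧ ∀ p ∈ T, ¬ p ∣ I) →
      ∀ p ∈ normalizedFactors I, Prime p ∧ p ∉ T := fun I hI p hp =>
    ⟨prime_of_normalized_factor p hp, fun h => hI.2 p h (dvd_of_mem_normalizedFactors hp)⟩
  let F : {I : Ideal (𝓞 M) // I ≠ ⊥ ∧ ∀ p ∈ T, ¬ p ∣ I} ×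
      {I : Ideal (𝓞 M) // I ≠ ⊥ ∧ ∀ p ∈ T, ¬ p ∣ I} → Ideal (𝓞 M') := fun x =>
    ((normalizedFactors x.1.1).map q₁ + (normalizedFactors x.2.1).map q₂).prod
  have hprime : ∀ x : {I : Ideal (𝓞 M) // I ≠ ⊥ ∧ ∀ p ∈ T, ¬ p ∣ I} ×
      {I : Ideal (𝓞 M) // I ≠ ⊥ ∧ ∀ p ∈ T, ¬ p ∣ I},
      ∀ q ∈ (normalizedFactors x.1.1).map q₁ + (normalizedFactors x.2.1).map q₂, Prime q := by
    intro x q hq
    rcases Multiset.mem_add.1 hq with h | h
    · obtain ⟨p, hp, rfl⟩ := Multiset.mem_map.1 h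
      have := hmem _ x.1.2 p hp
      exact (hq₁ p this.1 this.2).1
    · obtain ⟨p, hp, rfl⟩ := Multiset.mem_map.1 h
      have := hmem _ x.2.2 p hp
      exact (hq₂ p this.1 this.2).1
  have hnf : ∀ x, normalizedFactors (F x) =
      (normalizedFactors x.1.1).map q₁ + (normalizedFactors x.2.1).map q₂ := fun x =>
    normalizedFactors_prod_of_prime (hprime x)
  have hF0 : ∀ x, F x ≠ ⊥ := by
    intro x h0
    have h1 : (0 : Ideal (𝓞 M')) ∈
        (normalizedFactors x.1.1).map q₁ + (normalizedFactors x.2.1).map q₂ :=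
      Multiset.prod_eq_zero_iff.1 h0
    exact (hprime x 0 h1).ne_zero rfl
  -- the parts of the factorisation
  have hcomap₁ : ∀ I : Ideal (𝓞 M), (I ≠ ⊥ ∧ ∀ p ∈ T, ¬ p ∣ I) →
      ((normalizedFactors I).map q₁).map (Ideal.comap (algebraMap (𝓞 M) (𝓞 M'))) =
        normalizedFactors I := by
    intro I hI
    rw [Multiset.map_map]
    conv_rhs => rw [← Multiset.map_id (normalizedFactors I)]
    refine Multiset.map_congr rfl fun p hp => ?_
    have := hmem _ hI p hp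
    exact (hq₁ p this.1 this.2).2.1
  have hcomap₂ : ∀ I : Ideal (𝓞 M), (I ≠ ⊥ ∧ ∀ p ∈ T, ¬ p ∣ I) →
      ((normalizedFactors I).map q₂).map (Ideal.comap (algebraMap (𝓞 M) (𝓞 M'))) =
        normalizedFactors I := by
    intro I hI
    rw [Multiset.map_map]
    conv_rhs => rw [← Multiset.map_id (normalizedFactors I)]
    refine Multiset.map_congr rfl fun p hp => ?_
    have := hmem _ hI p hp
    exact (hq₂ p this.1 this.2).2.1
  have hfil₁ : ∀ x, (normalizedFactors (F x)).filter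
      (fun q => q = q₁ (q.comap (algebraMap (𝓞 M) (𝓞 M')))) =
        (normalizedFactors x.1.1).map q₁ := by
    intro x
    rw [hnf, Multiset.filter_add, Multiset.filter_eq_self.2, Multiset.filter_eq_nil.2, add_zero]
    · intro q hq
      obtain ⟨p, hp, rfl⟩ := Multiset.mem_map.1 hq
      have := hmem _ x.2.2 p hp
      rw [(hq₂ p this.1 this.2).2.1]
      exact fun h => hne p this.1 this.2 h.symm
    · intro q hq
      obtain ⟨p, hp, rfl⟩ := Multiset.mem_map.1 hq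
      have := hmem _ x.1.2 p hp
      rw [(hq₁ p this.1 this.2).2.1]
  have hinj : Function.Injective F := by
    intro x y hxy
    have h1 : (normalizedFactors x.1.1).map q₁ = (normalizedFactors y.1.1).map q₁ := by
      rw [← hfil₁ x, ← hfil₁ y, hxy]
    have h2 : (normalizedFactors x.2.1).map q₂ = (normalizedFactors y.2.1).map q₂ := by
      have h3 := hnf x
      rw [hxy, hnf y, h1] at h3
      exact (add_left_cancel h3).symm
    have h3 : normalizedFactors x.1.1 = normalizedFactors y.1.1 := by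
      rw [← hcomap₁ _ x.1.2, ← hcomap₁ _ y.1.2, h1]
    have h4 : normalizedFactors x.2.1 = normalizedFactors y.2.1 := by
      rw [← hcomap₂ _ x.2.2, ← hcomap₂ _ y.2.2, h2]
    refine Prod.ext (Subtype.ext ?_) (Subtype.ext ?_)
    · rw [← Ideal.prod_normalizedFactors_eq_self x.1.2.1,
        ← Ideal.prod_normalizedFactors_eq_self y.1.2.1, h3]
    · rw [← Ideal.prod_normalizedFactors_eq_self x.2.2.1,
        ← Ideal.prod_normalizedFactors_eq_self y.2.2.1, h4]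
  have hnorm : ∀ (q : Ideal (𝓞 M) → Ideal (𝓞 M')), (∀ p, Prime p → p ∉ T →
      Ideal.absNorm (q p) = Ideal.absNorm p) → ∀ I : Ideal (𝓞 M), (I ≠ ⊥ ∧ ∀ p ∈ T, ¬ p ∣ I) →
      Ideal.absNorm ((normalizedFactors I).map q).prod = Ideal.absNorm I := by
    intro q hq I hI
    conv_rhs => rw [← Ideal.prod_normalizedFactors_eq_self hI.1]
    rw [map_multiset_prod, map_multiset_prod, Multiset.map_map]
    congr 1
    refine Multiset.map_congr rfl fun p hp => ?_
    have := hmem _ hI p hp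
    exact hq p this.1 this.2
  have hswt : ∀ x, swt s (F x) = swt s x.1.1 * swt s x.2.1 := by
    intro x
    simp only [F]
    rw [Multiset.prod_add, swt_mul]
    congr 1
    · rw [swt, swt, hnorm q₁ (fun p hp hpT => (hq₁ p hp hpT).2.2) _ x.1.2]
    · rw [swt, swt, hnorm q₂ (fun p hp hpT => (hq₂ p hp hpT).2.2) _ x.2.2]
  rw [hsub, ← ENNReal.tsum_mul_right]
  simp only [← ENNReal.tsum_mul_left]
  rw [← ENNReal.tsum_prod (f := fun I J : {I : Ideal (𝓞 M) // I ≠ ⊥ ∧ ∀ p ∈ T, ¬ p ∣ I} =>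
    swt s I.1 * swt s J.1)]
  simp only [← hswt]
  rw [ZZ]
  refine le_trans (le_of_eq ?_) (ENNReal.tsum_comp_le_tsum_of_injective hinj _)
  refine tsum_congr fun x => ?_
  rw [if_pos]
  exact ⟨hF0 x, by simp⟩

open Classical in
/-- the exceptional primes -/
private def bad (M' : Type) [Field M'] [NumberField M'] [Algebra M M']
    {S : Set (Ideal (𝓞 M))} (hS : S.Finite) : Finset (Ideal (𝓞 M)) :=
  hS.toFinset.filter Prime ∪ ((normalizedFactors (differentIdeal (𝓞 M) (𝓞 M'))).toFinset.image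
    (Ideal.comap (algebraMap (𝓞 M) (𝓞 M')))).filter Prime

private lemma exists_two {S : Set (Ideal (𝓞 M))} (hS : S.Finite)
    (h : ∀ 𝔮 : Ideal (𝓞 M'), 𝔮.IsPrime → 𝔮 ≠ ⊥ →
      𝔮.comap (algebraMap (𝓞 M) (𝓞 M')) ∉ S →
      Ideal.absNorm 𝔮 = Ideal.absNorm (𝔮.comap (algebraMap (𝓞 M) (𝓞 M'))))
    (hm : Module.finrank M M' ≠ 1) {p : Ideal (𝓞 M)} (hp : Prime p) (hpT : p ∉ bad M' hS) :
    ∃ q₁ q₂ : Ideal (𝓞 M'), (Prime q₁ ∧ q₁.comap (algebraMap (𝓞 M) (𝓞 M')) = p ∧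
      Ideal.absNorm q₁ = Ideal.absNorm p) ∧ (Prime q₂ ∧
        q₂.comap (algebraMap (𝓞 M) (𝓞 M')) = p ∧ Ideal.absNorm q₂ = Ideal.absNorm p) ∧
      q₁ ≠ q₂ := by
  classical
  have hm1 : 1 < Module.finrank M M' := by
    have := Module.finrank_pos (R := M) (M := M')
    omega
  have hp0 : p ≠ ⊥ := hp.ne_zero
  have hpP : p.IsPrime := Ideal.isPrime_of_prime hp
  have hpM : p.IsMaximal := hpP.isMaximal hp0
  have hpS : p ∉ S := by
    intro h1
    apply hpT
    rw [bad, Finset.mem_union, Finset.mem_filter]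
    exact Or.inl ⟨hS.mem_toFinset.2 h1, hp⟩
  have hN : 1 < Ideal.absNorm p := by
    have h3 : Ideal.absNorm p ≠ 0 := fun h => hp0 (Ideal.absNorm_eq_zero_iff.1 h)
    have h4 : Ideal.absNorm p ≠ 1 := fun h => hpP.ne_top (Ideal.absNorm_eq_one_iff.1 h)
    omega
  set P := p.map (algebraMap (𝓞 M) (𝓞 M')) with hP
  have hPN : Ideal.absNorm P = Ideal.absNorm p ^ Module.finrank M M' := by
    rw [hP, Ideal.absNorm_algebraMap, IsFractionRing.finrank_eq (𝓞 M) M (𝓞 M') M']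
  have hP0 : P ≠ ⊥ := by
    intro h0
    rw [h0, Ideal.absNorm_bot] at hPN
    exact pow_ne_zero _ (by omega) hPN.symm
  -- primes containing `P`
  have key : ∀ q : Ideal (𝓞 M'), q.IsMaximal → P ≤ q →
      Prime q ∧ q.comap (algebraMap (𝓞 M) (𝓞 M')) = p ∧ Ideal.absNorm q = Ideal.absNorm p := by
    intro q hq hPq
    have hq0 : q ≠ ⊥ := by
      rintro rfl
      exact hP0 (le_bot_iff.1 hPq)
    have h1 : q.comap (algebraMap (𝓞 M) (𝓞 M')) = p :=
      (hpM.eq_of_le (Ideal.comap_ne_top _ hq.ne_top) (Ideal.map_le_iff_le_comap.1 hPq)).symm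
    refine ⟨Ideal.prime_of_isPrime hq0 hq.isPrime, h1, ?_⟩
    rw [h q hq.isPrime hq0 (by rw [h1]; exact hpS), h1]
  have hPtop : P ≠ ⊤ := by
    intro h1
    rw [h1, Ideal.absNorm_top] at hPN
    exact (Nat.one_lt_pow (by omega) hN).ne hPN
  obtain ⟨q₁, hq₁, hPq₁⟩ := Ideal.exists_le_maximal P hPtop
  obtain ⟨J, hJ⟩ := Ideal.dvd_iff_le.2 hPq₁
  have h1 := key q₁ hq₁ hPq₁
  have hJtop : J ≠ ⊤ := by
    intro h2
    rw [hJ, h2, map_mul, Ideal.absNorm_top, mul_one, h1.2.2] at hPN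
    have h3 := Nat.pow_lt_pow_right hN hm1
    rw [pow_one] at h3
    omega
  obtain ⟨q₂, hq₂, hJq₂⟩ := Ideal.exists_le_maximal J hJtop
  have hPq₂ : P ≤ q₂ := by
    rw [hJ]
    exact Ideal.mul_le_right.trans hJq₂
  refine ⟨q₁, q₂, h1, key q₂ hq₂ hPq₂, ?_⟩
  rintro rfl
  have h2 : q₁ ^ 2 ∣ p.map (algebraMap (𝓞 M) (𝓞 M')) := by
    rw [← hP, hJ, pow_two]
    exact mul_dvd_mul_left _ (Ideal.dvd_iff_le.2 hJq₂)
  have h3 := pow_sub_one_dvd_differentIdeal (𝓞 M) (p := p) q₁ 2 hp0 h2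
  rw [show 2 - 1 = 1 from rfl, pow_one] at h3
  apply hpT
  rw [bad, Finset.mem_union, Finset.mem_filter]
  refine Or.inr ?_
  rw [Finset.mem_filter]
  refine ⟨Finset.mem_image.2 ⟨q₁, ?_, h1.2.1⟩, hp⟩
  rw [Multiset.mem_toFinset, Ideal.mem_normalizedFactors_iff differentIdeal_ne_bot]
  exact ⟨hq₁.isPrime, Ideal.dvd_iff_le.1 h3⟩

end

/-- S13 -/
theorem split_trivial {M M' : Type} [Field M] [NumberField M] [Field M'] [NumberField M']
    [Algebra M M'] {S : Set (Ideal (𝓞 M))} (hS : S.Finite)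
    (h : ∀ 𝔮 : Ideal (𝓞 M'), 𝔮.IsPrime → 𝔮 ≠ ⊥ →
      𝔮.comap (algebraMap (𝓞 M) (𝓞 M')) ∉ S →
      Ideal.absNorm 𝔮 = Ideal.absNorm (𝔮.comap (algebraMap (𝓞 M) (𝓞 M')))) :
    Module.finrank M M' = 1 := by
  classical
  by_contra hm
  have h2 : ∀ p : Ideal (𝓞 M), ∃ q : Ideal (𝓞 M') × Ideal (𝓞 M'), Prime p → p ∉ bad M' hS →
      (Prime q.1 ∧ q.1.comap (algebraMap (𝓞 M) (𝓞 M')) = p ∧
        Ideal.absNorm q.1 = Ideal.absNorm p) ∧ (Prime q.2 ∧
        q.2.comap (algebraMap (𝓞 M) (𝓞 M')) = p ∧ Ideal.absNorm q.2 = Ideal.absNorm p) ∧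
      q.1 ≠ q.2 := by
    intro p
    by_cases hp : Prime p ∧ p ∉ bad M' hS
    · obtain ⟨q₁, q₂, h3⟩ := exists_two hS h hm hp.1 hp.2
      exact ⟨(q₁, q₂), fun _ _ => h3⟩
    · exact ⟨(⊥, ⊥), fun h3 h4 => absurd ⟨h3, h4⟩ hp⟩
  choose q hq using h2
  have hle : ∀ s : ℝ, ZZ (bad M' hS) s * ZZ (bad M' hS) s ≤ ZZ (∅ : Finset (Ideal (𝓞 M'))) s :=
    fun s => zz_sq_le (q₁ := fun p => (q p).1) (q₂ := fun p => (q p).2)
      (fun p hp hpT => (hq p hp hpT).1) (fun p hp hpT => (hq p hp hpT).2.1)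
      (fun p hp hpT => (hq p hp hpT).2.2) s
  have hbad : ∀ p ∈ bad M' hS, Prime p := by
    intro p hp
    rw [bad, Finset.mem_union, Finset.mem_filter, Finset.mem_filter] at hp
    rcases hp with hp | hp
    · exact hp.2
    · exact hp.2
  obtain ⟨κ, hκ, hκ1, hκ2⟩ := zz_lim (bad M' hS) hbad
  obtain ⟨κ', hκ', hκ1', hκ2'⟩ := zz_empty_lim (K := M')
  have h3 : Tendsto (fun s : ℝ => ((s - 1) * (ZZ (bad M' hS) s).toReal) *
      ((s - 1) * (ZZ (bad M' hS) s).toReal)) (𝓝[>] 1) (𝓝 (κ * κ)) := hκ2.mul hκ2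
  have h4 : Tendsto (fun s : ℝ => (s - 1) * ((s - 1) *
      (ZZ (∅ : Finset (Ideal (𝓞 M'))) s).toReal)) (𝓝[>] 1) (𝓝 ((1 - 1) * κ')) := by
    refine Tendsto.mul ?_ hκ2'
    exact (tendsto_id.sub_const 1).mono_left nhdsWithin_le_nhds
  have h5 : κ * κ ≤ (1 - 1) * κ' := by
    refine le_of_tendsto_of_tendsto h3 h4 ?_
    filter_upwards [hκ1, hκ1', self_mem_nhdsWithin] with s hs hs' hs1
    have hs2 : (0 : ℝ) < s - 1 := sub_pos.2 hs1
    have h6 := ENNReal.toReal_mono hs' (hle s)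
    rw [ENNReal.toReal_mul] at h6
    calc ((s - 1) * (ZZ (bad M' hS) s).toReal) * ((s - 1) * (ZZ (bad M' hS) s).toReal)
        = (s - 1) * ((s - 1) * ((ZZ (bad M' hS) s).toReal * (ZZ (bad M' hS) s).toReal)) := by ring
      _ ≤ _ := by gcongr
  have h6 : 0 < κ * κ := mul_pos hκ hκ
  linarith

end Pool.Agent.CMG
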