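import Mathlib
import Pool.Agent.CMG.SplitTriv
import Pool.Agent.StarkRQ.FrobQ
import Pool.Agent.StarkRQ.FrobF

/-!
# criterion: x lies in Q(zeta_f) if the right powers of Frobenius elements fix x

Let `M' = CyclotomicField f M`, `ι' : M' → ℂ` extending `ι` (`IsAlgClosed.lift`); `M'/ℚ` is Galois
(compare `StarkRQ/Cyclo.lean`). `L = ℚ(ζ) ⊆ M'`, `ζ` a primitive `f`-th root of unity, `B = L(x) ⊆ M'`
(intermediate fields of `M'/ℚ`). Claim `B = L` by `split_trivial` (`M := L`, `M' := B`, `S` = primes over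
primes dividing `f R`): let `𝔮` be a prime of `B` over `p ∤ f R`, `𝔮₀ = 𝔮 ∩ L`, `N𝔮₀ = p^n`; `p^n ≡ 1` mod `f`
(`ζ` has order `f` modulo `𝔮₀`, as `p ∤ f`). Let `Q'` be a prime of `M'` over `𝔮` and `φ ∈ Gal(M'/ℚ)` with
`Cong φ Q' p` (`exists_cong`). `φ^n ζ = ζ^{p^n} = ζ`, and `φ^n x = x` by `h` for the restriction of `φ` to
`M`. So `φ^n` is the identity on `B`, `y ≡ y^{p^n}` mod `𝔮` for all integers `y` of `B`, hence
`N𝔮 ≤ p^n = N𝔮₀` (a finite field in which `y^q = y` has at most `q` elements), and `N𝔮₀ ≤ N𝔮`. So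
`x ∈ L` and `ι x ∈ ℚ(ι' ζ) = ℚ(exp(2πi/f))`.
-/

set_option autoImplicit false

noncomputable section

open NumberField Module Pool.Agent.StarkRQ

namespace Pool.Agent.CMG

private theorem lcc_prime {K : Type*} [CommRing K] {P : Ideal K} (hP : P.IsPrime) :
    ∀ n : ℕ, n ≠ 0 → (n : K) ∈ P → ∃ p : ℕ, p.Prime ∧ p ∣ n ∧ (p : K) ∈ P := by
  intro n
  induction n using Nat.recOnMul with
  | zero => intro h; exact absurd rfl h
  | one =>
    intro _ h
    rw [Nat.cast_one] at h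
    exact absurd ((Ideal.eq_top_iff_one P).2 h) hP.ne_top
  | prime p hp => intro _ h; exact ⟨p, hp, dvd_rfl, h⟩
  | mul a b ha hb =>
    intro h0 h
    rw [Nat.cast_mul] at h
    rcases hP.mem_or_mem h with h1 | h1
    · obtain ⟨p, hp, hpa, hpP⟩ := ha (left_ne_zero_of_mul h0) h1
      exact ⟨p, hp, hpa.mul_right b, hpP⟩
    · obtain ⟨p, hp, hpa, hpP⟩ := hb (right_ne_zero_of_mul h0) h1
      exact ⟨p, hp, hpa.mul_left a, hpP⟩

/-- a finite field in which `p` is zero has `p ^ n` elements -/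
private theorem lcc_card {K : Type*} [Field K] [Fintype K] {p : ℕ} (hp : p.Prime)
    (h : (p : K) = 0) : ∃ n : ℕ, Fintype.card K = p ^ n := by
  obtain ⟨c, hc⟩ := CharP.exists K
  have h1 : c ∣ p := (CharP.cast_eq_zero_iff K c p).1 h
  have h2 : c = p := by
    rcases (Nat.dvd_prime hp).1 h1 with h3 | h3
    · exact absurd h3 (CharP.char_ne_one K c)
    · exact h3
  subst h2
  obtain ⟨n, -, hn⟩ := FiniteField.card K c
  exact ⟨n, hn⟩

/-- a primitive root of unity remains primitive modulo a prime which does not contain `f` -/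
private theorem lcc_prim {L : Type*} [Field L] [NumberField L] {f : ℕ} [NeZero f] {ζ : L}
    (hζ : IsPrimitiveRoot ζ f) {P : Ideal (𝓞 L)} [P.IsPrime] (hf : (f : 𝓞 L) ∉ P) :
    IsPrimitiveRoot (Ideal.Quotient.mk P hζ.toInteger) f := by
  have hfQ : ((f : ℕ) : 𝓞 L ⧸ P) ≠ 0 := by
    intro h
    rw [← map_natCast (Ideal.Quotient.mk P), Ideal.Quotient.eq_zero_iff_mem] at h
    exact hf h
  have : NeZero ((f : ℕ) : 𝓞 L ⧸ P) := ⟨hfQ⟩
  rw [← Polynomial.isRoot_cyclotomic_iff]
  have h1 : (Polynomial.cyclotomic f (𝓞 L)).IsRoot hζ.toInteger :=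
    hζ.toInteger_isPrimitiveRoot.isRoot_cyclotomic (NeZero.pos f)
  have h2 := h1.map (f := Ideal.Quotient.mk P)
  rwa [Polynomial.map_cyclotomic] at h2

private theorem lcc_core {L B E : Type} [Field L] [NumberField L] [Field B] [NumberField B]
    [Field E] [NumberField E] [Algebra L B] [Algebra B E] [IsGalois ℚ E] {f N : ℕ} [NeZero f]
    (hN : N ≠ 0) (hfN : f ∣ N) {ζ : L} (hζ : IsPrimitiveRoot ζ f)
    (h : ∀ p : ℕ, p.Prime → ¬ p ∣ N → ∀ (Q : Ideal (𝓞 E)) (φ : Gal(E/ℚ)), Q.IsPrime →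
      (p : 𝓞 E) ∈ Q → Cong φ Q p → ∀ n : ℕ, p ^ n % f = 1 % f →
      ∀ y : B, (φ ^ n) (algebraMap B E y) = algebraMap B E y) :
    Module.finrank L B = 1 := by
  refine split_trivial (S := {I | ((N : ℕ) : 𝓞 L) ∈ I}) ?_ ?_
  · refine (Ideal.finite_setOfPred_absNorm_le (Ideal.absNorm
      (Ideal.span {((N : ℕ) : 𝓞 L)}))).subset fun I hI => ?_
    refine Nat.le_of_dvd (Nat.pos_of_ne_zero ?_) (Ideal.absNorm_dvd_absNorm_of_le ?_)
    · rw [Ne, Ideal.absNorm_eq_zero_iff, Ideal.span_singleton_eq_bot, Nat.cast_eq_zero]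
      exact hN
    · rw [Ideal.span_singleton_le_iff_mem]
      exact hI
  · intro 𝔮 h𝔮 h0 hS
    rw [Set.mem_ofPred_eq] at hS
    let P : Ideal (𝓞 L) := 𝔮.comap (algebraMap (𝓞 L) (𝓞 B))
    have hP0 : P ≠ ⊥ := Ideal.under_ne_bot (𝓞 L) h0
    have hP : P.IsPrime := Ideal.IsPrime.comap _
    have hPm : P.IsMaximal := hP.isMaximal hP0
    have hm : 𝔮.IsMaximal := h𝔮.isMaximal h0
    have hfin : Finite (𝓞 B ⧸ 𝔮) := Ideal.finiteQuotientOfFreeOfNeBot 𝔮 h0
    have hfin' : Finite (𝓞 L ⧸ P) := Ideal.finiteQuotientOfFreeOfNeBot P hP0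
    have hcP : Nat.card (𝓞 L ⧸ P) = Ideal.absNorm P := by
      rw [Ideal.absNorm_apply, Submodule.cardQuot_apply]
    have hcq : Nat.card (𝓞 B ⧸ 𝔮) = Ideal.absNorm 𝔮 := by
      rw [Ideal.absNorm_apply, Submodule.cardQuot_apply]
    have hSP : ((N : ℕ) : 𝓞 L) ∉ P := hS
    obtain ⟨p, hp, -, hp𝔮⟩ := lcc_prime h𝔮 (Ideal.absNorm 𝔮)
      (fun h => h0 (Ideal.absNorm_eq_zero_iff.1 h)) (Ideal.absNorm_mem 𝔮)
    have hpP : (p : 𝓞 L) ∈ P := by
      rw [Ideal.mem_comap, map_natCast]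
      exact hp𝔮
    have hpN : ¬ p ∣ N := by
      rintro ⟨c, rfl⟩
      apply hSP
      rw [Nat.cast_mul]
      exact P.mul_mem_right _ hpP
    have hfP : (f : 𝓞 L) ∉ P := by
      intro h1
      obtain ⟨c, hc⟩ := hfN
      apply hSP
      rw [hc, Nat.cast_mul]
      exact P.mul_mem_right _ h1
    -- the order of the residue field
    obtain ⟨n, hn, hnf⟩ : ∃ n : ℕ, Ideal.absNorm P = p ^ n ∧ p ^ n % f = 1 % f := by
      let := Ideal.Quotient.field P
      let := Fintype.ofFinite (𝓞 L ⧸ P)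
      have h1 : ((p : ℕ) : 𝓞 L ⧸ P) = 0 := by
        rw [← map_natCast (Ideal.Quotient.mk P), Ideal.Quotient.eq_zero_iff_mem]
        exact hpP
      obtain ⟨n, hn⟩ := lcc_card hp h1
      have h2 := lcc_prim hζ hfP
      have h3 : Ideal.Quotient.mk P hζ.toInteger ≠ 0 := h2.ne_zero (NeZero.ne f)
      have h4 := FiniteField.pow_card_sub_one_eq_one _ h3
      have h5 := h2.dvd_of_pow_eq_one _ h4
      rw [hn] at h5
      refine ⟨n, ?_, ?_⟩
      · rw [← hcP, Nat.card_eq_fintype_card, hn]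
      · exact ((Nat.modEq_iff_dvd' (Nat.one_le_pow _ _ hp.pos)).2 h5).symm
    -- a prime of `E`
    obtain ⟨Q, hQ, hQ𝔮⟩ := Ideal.exists_ideal_over_prime_of_isIntegral_of_isDomain
      (S := 𝓞 E) 𝔮 (by
        rw [(RingHom.injective_iff_ker_eq_bot _).mp
          (FaithfulSMul.algebraMap_injective (𝓞 B) (𝓞 E))]
        exact bot_le)
    have hpQ : (p : 𝓞 E) ∈ Q := by
      have h1 : (p : 𝓞 B) ∈ Q.comap (algebraMap (𝓞 B) (𝓞 E)) := by
        rw [hQ𝔮]
        exact hp𝔮
      rwa [Ideal.mem_comap, map_natCast] at h1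
    obtain ⟨φ, hφ⟩ := exists_cong hp hpQ
    have hfix := h p hp hpN Q φ hQ hpQ hφ n hnf
    have h2 : ∀ x : 𝓞 B ⧸ 𝔮, x ^ Ideal.absNorm P = x := by
      intro x
      obtain ⟨y, rfl⟩ := Ideal.Quotient.mk_surjective x
      have h3 := (hφ.pow n) (algebraMap (𝓞 B) (𝓞 E) y)
      have h4 : (φ ^ n) • algebraMap (𝓞 B) (𝓞 E) y = algebraMap (𝓞 B) (𝓞 E) y :=
        NumberField.RingOfIntegers.ext (hfix (y : B))
      rw [h4, ← map_pow, ← map_sub] at h3
      have h5 : y - y ^ p ^ n ∈ 𝔮 := by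
        rw [← hQ𝔮]
        exact h3
      rw [hn, ← map_pow, eq_comm, Ideal.Quotient.eq]
      exact h5
    have hpos : Ideal.absNorm P ≠ 0 := fun h => hP0 (Ideal.absNorm_eq_zero_iff.1 h)
    have hone : Ideal.absNorm P ≠ 1 := fun h => hP.ne_top (Ideal.absNorm_eq_one_iff.1 h)
    refine le_antisymm ?_ ?_
    · let := Ideal.Quotient.field 𝔮
      let := Fintype.ofFinite (𝓞 B ⧸ 𝔮)
      classical
      have h3 : 1 < Ideal.absNorm P := by omega
      have h4 : (Finset.univ : Finset (𝓞 B ⧸ 𝔮)) ⊆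
          (Polynomial.X ^ Ideal.absNorm P - Polynomial.X :
            Polynomial (𝓞 B ⧸ 𝔮)).roots.toFinset := by
        intro x _
        rw [Multiset.mem_toFinset, Polynomial.mem_roots
          (FiniteField.X_pow_card_sub_X_ne_zero (𝓞 B ⧸ 𝔮) h3), Polynomial.IsRoot.def]
        simp [h2 x]
      have h5 := (Finset.card_le_card h4).trans ((Multiset.toFinset_card_le _).trans
        (Polynomial.card_roots' _))
      rw [FiniteField.X_pow_card_sub_X_natDegree_eq (𝓞 B ⧸ 𝔮) h3, Finset.card_univ,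
        ← Nat.card_eq_fintype_card, hcq] at h5
      exact h5
    · rw [← hcq]
      show Ideal.absNorm P ≤ _
      rw [← hcP]
      exact Nat.card_le_card_of_injective _
        (Ideal.quotientMap_injective (I := 𝔮) (f := algebraMap (𝓞 L) (𝓞 B)))

private theorem lcc_galois {M E : Type} [Field M] [NumberField M] [IsGalois ℚ M] (n : ℕ)
    [NeZero n] [Field E] [NumberField E] [Algebra M E] [IsCyclotomicExtension {n} M E] :
    IsGalois ℚ E := by
  obtain ⟨p, hp0, hp⟩ : ∃ p : Polynomial ℚ, p ≠ 0 ∧ Polynomial.IsSplittingField ℚ M p := by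
    obtain ⟨p, hp⟩ := Normal.exists_isSplittingField ℚ M
    by_cases h : p = 0
    · refine ⟨1, one_ne_zero, ⟨by simp, ?_⟩⟩
      have := hp.adjoin_rootSet'
      rw [h] at this
      simpa using this
    · exact ⟨p, h, hp⟩
  have hX : (Polynomial.X ^ n - 1 : Polynomial ℚ) ≠ 0 :=
    (Polynomial.monic_X_pow_sub_C (1 : ℚ) (NeZero.ne n)).ne_zero
  have h1 : Polynomial.IsSplittingField M E
      ((Polynomial.X ^ n - 1 : Polynomial ℚ).map (algebraMap ℚ M)) := by
    have := IsCyclotomicExtension.isSplittingField_X_pow_sub_one n M E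
    simpa using this
  have h2 : Polynomial.IsSplittingField ℚ E (p * (Polynomial.X ^ n - 1)) :=
    Polynomial.IsSplittingField.mul (K := M) (L := E) p _ hp0 hX
  have h3 : Normal ℚ E := Normal.of_isSplittingField (p * (Polynomial.X ^ n - 1))
  exact ⟨⟩

/-- two roots of unity which are congruent modulo `Q` are equal -/
private theorem lcc_root {E : Type*} [Field E] [NumberField E] {f : ℕ} [NeZero f] {ζ : E}
    (hζ : IsPrimitiveRoot ζ f) {Q : Ideal (𝓞 E)} [Q.IsPrime] (hf : (f : 𝓞 E) ∉ Q) {a : E}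
    (ha : a ^ f = 1) {A : 𝓞 E} (hA : (A : E) = a) (h : A - hζ.toInteger ∈ Q) : a = ζ := by
  have hA' : A ^ f = 1 := by
    apply NumberField.RingOfIntegers.ext
    have h0 : ((A ^ f : 𝓞 E) : E) = (A : E) ^ f := by simp
    rw [h0, hA, ha]
    simp
  obtain ⟨i, hi, h1⟩ := hζ.toInteger_isPrimitiveRoot.eq_pow_of_pow_eq_one hA'
  have h2 := lcc_prim hζ hf
  rw [← h1, ← Ideal.Quotient.eq, map_pow] at h
  rcases Nat.lt_or_ge 1 f with hf1 | hf1
  · have h3 : i = 1 := h2.pow_inj hi hf1 (by rw [h, pow_one])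
    rw [← hA, ← h1, h3, pow_one]
    rfl
  · have hf2 : f = 1 := le_antisymm hf1 (Nat.pos_of_ne_zero (NeZero.ne f))
    subst hf2
    rw [pow_one] at ha
    rw [ha, ← IsPrimitiveRoot.one_right_iff.1 hζ]

/-- an automorphism which fixes the generators fixes the field -/
private theorem lcc_fix {F E : Type} [Field F] [Field E] [Algebra F E] {S : Set E} (σ : E →+* E)
    (h1 : ∀ a : F, σ (algebraMap F E a) = algebraMap F E a) (h2 : ∀ s ∈ S, σ s = s) {y : E}
    (hy : y ∈ IntermediateField.adjoin F S) : σ y = y := by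
  induction hy using IntermediateField.adjoin_induction with
  | mem x hx => exact h2 x hx
  | algebraMap x => exact h1 x
  | add x y _ _ hx hy => rw [map_add, hx, hy]
  | inv x _ hx => rw [map_inv₀, hx]
  | mul x y _ _ hx hy => rw [map_mul, hx, hy]

private theorem lcc_main {M E : Type} [Field M] [NumberField M] [IsGalois ℚ M] {f R : ℕ}
    [NeZero f] [Field E] [NumberField E] [Algebra M E] [IsCyclotomicExtension {f} M E]
    (hR : R ≠ 0) {x : M}
    (h : ∀ p : ℕ, p.Prime → ¬ p ∣ R → ∀ (Q : Ideal (𝓞 M)) (φ : Gal(M/ℚ)), Q.IsPrime →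
      (p : 𝓞 M) ∈ Q → Cong φ Q p → ∀ n : ℕ, p ^ n % f = 1 % f → (φ ^ n) x = x) {ζ : E}
    (hζ : IsPrimitiveRoot ζ f) :
    algebraMap M E x ∈ IntermediateField.adjoin ℚ {ζ} := by
  have hgal : IsGalois ℚ E := lcc_galois (M := M) f
  let L : IntermediateField ℚ E := IntermediateField.adjoin ℚ {ζ}
  let B : IntermediateField L E := IntermediateField.adjoin L {algebraMap M E x}
  have hB : NumberField B := NumberField.of_module_finite L B
  have hζL : ζ ∈ L := IntermediateField.mem_adjoin_simple_self ℚ ζ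
  have hζ' : IsPrimitiveRoot (⟨ζ, hζL⟩ : L) f := by
    refine IsPrimitiveRoot.of_map_of_injective (f := algebraMap L E) ?_ (algebraMap L E).injective
    exact hζ
  have h1 : Module.finrank L B = 1 := by
    refine lcc_core (E := E) (f := f) (N := f * R) (Nat.mul_ne_zero (NeZero.ne f) hR)
      (dvd_mul_right f R) hζ' ?_
    intro p hp hpN Q φ hQ hpQ hφ n hn y
    have hpf : ¬ p ∣ f := fun h1 => hpN (h1.mul_right R)
    have hpR : ¬ p ∣ R := fun h1 => hpN (h1.mul_left f)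
    have hfQ : (f : 𝓞 E) ∉ Q := by
      intro h2
      obtain ⟨u, v, huv⟩ := Nat.isCoprime_iff_coprime.2 ((Nat.Prime.coprime_iff_not_dvd hp).2 hpf)
      apply hQ.ne_top
      rw [Ideal.eq_top_iff_one]
      have h3 : (1 : 𝓞 E) = (u : 𝓞 E) * (p : 𝓞 E) + (v : 𝓞 E) * (f : 𝓞 E) := by
        have := congrArg (fun z : ℤ => (z : 𝓞 E)) huv
        push_cast at this
        exact this.symm
      rw [h3]
      exact Q.add_mem (Q.mul_mem_left _ hpQ) (Q.mul_mem_left _ h2)
    -- `ζ` is fixed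
    have hfζ : (φ ^ n) ζ = ζ := by
      have h2 : ζ ^ f = 1 := hζ.pow_eq_one
      refine lcc_root hζ hfQ (a := (φ ^ n) ζ) (A := (φ ^ n) • hζ.toInteger) ?_ rfl ?_
      · rw [← map_pow, h2, map_one]
      · have h3 := (hφ.pow n) hζ.toInteger
        have h4 : hζ.toInteger ^ p ^ n = hζ.toInteger := by
          have h5 := hζ.toInteger_isPrimitiveRoot.pow_eq_one
          have h6 : p ^ n ≡ 1 [MOD f] := hn
          have h7 := pow_eq_pow_of_modEq h6 h5
          rwa [pow_one] at h7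
        rwa [h4] at h3
    -- `x` is fixed
    have hfx : (φ ^ n) (algebraMap M E x) = algebraMap M E x := by
      have h2 := h p hp hpR (Q.comap (algebraMap (𝓞 M) (𝓞 E))) (AlgEquiv.restrictNormalHom M φ)
        (Ideal.IsPrime.comap _) (by rw [Ideal.mem_comap, map_natCast]; exact hpQ) (by
          intro y
          rw [Ideal.mem_comap, map_sub, map_pow]
          have h3 : algebraMap (𝓞 M) (𝓞 E) (AlgEquiv.restrictNormalHom M φ • y) =
              φ • algebraMap (𝓞 M) (𝓞 E) y := by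
            apply NumberField.RingOfIntegers.ext
            exact AlgEquiv.restrictNormal_commutes φ M (y : M)
          rw [h3]
          exact hφ _) n hn
      rw [← map_pow] at h2
      have h3 := AlgEquiv.restrictNormal_commutes (φ ^ n) M x
      rw [← h3]
      exact congrArg (algebraMap M E) h2
    have hfL : ∀ l : L, (φ ^ n) (algebraMap L E l) = algebraMap L E l := by
      intro l
      refine lcc_fix (F := ℚ) (S := {ζ}) ((φ ^ n : Gal(E/ℚ)) : E →+* E) (fun a => ?_)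
        (fun s hs => ?_) l.2
      · exact (φ ^ n).commutes a
      · rw [Set.mem_singleton_iff] at hs
        rw [hs]
        exact hfζ
    refine lcc_fix (F := L) (S := {algebraMap M E x}) ((φ ^ n : Gal(E/ℚ)) : E →+* E) hfL
      (fun s hs => ?_) y.2
    rw [Set.mem_singleton_iff] at hs
    rw [hs]
    exact hfx
  rw [IntermediateField.finrank_eq_one_iff] at h1
  have h2 : algebraMap M E x ∈ B := IntermediateField.mem_adjoin_simple_self L _
  rw [h1, IntermediateField.mem_bot] at h2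
  obtain ⟨l, hl⟩ := h2
  rw [← hl]
  exact l.2

/-- a criterion for lying in a cyclotomic field -/
theorem mem_cyclotomic {M : Type} [Field M] [NumberField M] [IsGalois ℚ M] {f R : ℕ} (hf : f ≠ 0)
    (hR : R ≠ 0) (ι : M →+* ℂ) {x : M}
    (h : ∀ p : ℕ, p.Prime → ¬ p ∣ R → ∀ (Q : Ideal (𝓞 M)) (φ : Gal(M/ℚ)), Q.IsPrime →
      (p : 𝓞 M) ∈ Q → Cong φ Q p → ∀ n : ℕ, p ^ n % f = 1 % f → (φ ^ n) x = x) :
    ι x ∈ IntermediateField.adjoin ℚ {Complex.exp (2 * Real.pi * Complex.I / f)} := by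
  have hfz : NeZero f := ⟨hf⟩
  have hnf : NumberField (CyclotomicField f M) :=
    IsCyclotomicExtension.numberField {f} M (CyclotomicField f M)
  have hζ := IsCyclotomicExtension.zeta_spec f M (CyclotomicField f M)
  have h1 := lcc_main (E := CyclotomicField f M) hR h hζ
  let : Algebra M ℂ := ι.toAlgebra
  let g : CyclotomicField f M →ₐ[M] ℂ := IsAlgClosed.lift
  let g' : CyclotomicField f M →ₐ[ℚ] ℂ := (g : CyclotomicField f M →+* ℂ).toRatAlgHom
  have h2 : g' (algebraMap M (CyclotomicField f M) x) = ι x := g.commutes x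
  have h3 : g' (algebraMap M (CyclotomicField f M) x) ∈
      (IntermediateField.adjoin ℚ
        {IsCyclotomicExtension.zeta f M (CyclotomicField f M)}).map g' := ⟨_, h1, rfl⟩
  rw [IntermediateField.adjoin_map, Set.image_singleton, h2] at h3
  have h4 : (g' (IsCyclotomicExtension.zeta f M (CyclotomicField f M))) ^ f = 1 := by
    rw [← map_pow, hζ.pow_eq_one, map_one]
  obtain ⟨i, -, hi⟩ := (Complex.isPrimitiveRoot_exp f hf).eq_pow_of_pow_eq_one h4
  refine (IntermediateField.adjoin_le_iff.2 ?_ : IntermediateField.adjoin ℚ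
    {g' (IsCyclotomicExtension.zeta f M (CyclotomicField f M))} ≤ _) h3
  rw [Set.singleton_subset_iff, ← hi]
  exact pow_mem (IntermediateField.mem_adjoin_simple_self ℚ _) i

end Pool.Agent.CMG
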