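import Mathlib
import Pool.Agent.CMG.LArtConj
import Pool.Agent.CMG.LCycCrit
import Pool.Agent.CMG.Final

/-!
# the maximal abelian subfield of M is cyclotomic

As in `gaussian` (`Final.lean`): `k = ℚ(j) ⊆ M`, `D` from `exists_ellData`, model `F`, `ρ` from
`exists_rho`, `R = rs ∘ ρ` with `hR` from `artin_iff`. Apply `mem_cyclotomic` with `f = 8N`, `R = N`. Let
`φ ∈ Gal(M/ℚ)` be a Frobenius at `Q ∋ p`, `p ∤ N`, `p^n ≡ 1` mod `8N`; `𝔭 = Q ∩ 𝓞 k`. If `φ ∈ fixG k M`
(i.e. `φ j = j`, `p ≡ 1` mod 4, `N𝔭 = p`): `𝔭 = (π)`, `φ = toG s`, `IsFrob 𝔭 s`, so `s = R (cls π)`,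
`φ^n = toG (R (cls π^n))`, and `π^n π̄^n = p^n ≡ 1` mod `8N`. If `φ ∉ fixG k M`: `φ j = -j`, `p ≡ 3` mod 4 is
inert, `N𝔭 = p²`, `n` is even (as `4 ∣ N`), `φ² = toG s` with `s` a Frobenius at `𝔭 = (p)`,
`φ^n = toG (R (cls p^{n/2}))`, norm `p^n`. In both cases `φ^n` is a commutator (`artin_commutator`), and
commutators fix `x` by `hx`.
-/

set_option autoImplicit false

noncomputable section

open NumberField Module Pool.Agent.StarkRQ

namespace Pool.Agent.CMG

private theorem lac_prime {K : Type*} [CommRing K] {P : Ideal K} (hP : P.IsPrime) :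
    ∀ n : ℕ, n ≠ 0 → (n : K) ∈ P → ∃ p : ℕ, p.Prime ∧ p ∣ n ∧ (p : K) ∈ P := by
  intro n
  induction n using Nat.recOnMul with
  | zero => intro h; exact absurd rfl h
  | one =>
    intro _ h
    rw [Nat.cast_one] at h
    exact absurd ((Ideal.eq_top_iff_one P).2 h) hP.ne_top
  | prime p hp => intro _ h; exact ⟨p, hp, dvd_rfl, h⟩
  | mul a b ha hb =>
    intro h0 h
    rw [Nat.cast_mul] at h
    rcases hP.mem_or_mem h with h1 | h1
    · obtain ⟨p, hp, hpa, hpP⟩ := ha (left_ne_zero_of_mul h0) h1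
      exact ⟨p, hp, hpa.mul_right b, hpP⟩
    · obtain ⟨p, hp, hpa, hpP⟩ := hb (right_ne_zero_of_mul h0) h1
      exact ⟨p, hp, hpa.mul_left a, hpP⟩

/-- a finite field in which `p` is zero has `p ^ n` elements -/
private theorem lac_card {K : Type*} [Field K] [Fintype K] {p : ℕ} (hp : p.Prime)
    (h : (p : K) = 0) : ∃ n : ℕ, n ≠ 0 ∧ Fintype.card K = p ^ n := by
  obtain ⟨c, hc⟩ := CharP.exists K
  have h1 : c ∣ p := (CharP.cast_eq_zero_iff K c p).1 h
  have h2 : c = p := by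
    rcases (Nat.dvd_prime hp).1 h1 with h3 | h3
    · exact absurd h3 (CharP.char_ne_one K c)
    · exact h3
  subst h2
  obtain ⟨n, -, hn⟩ := FiniteField.card K c
  exact ⟨n, n.pos.ne', hn⟩

/-- in a finite field with `p ^ f` elements `x ^ (p ^ n) = x` for all `x` implies `f ∣ n` -/
private theorem lac_dvd {K : Type*} [Field K] [Fintype K] {p f n : ℕ} (hp : p.Prime)
    (hc : Fintype.card K = p ^ f) (h : ∀ x : K, x ^ p ^ n = x) : f ∣ n := by
  classical
  obtain ⟨g, hg⟩ := IsCyclic.exists_generator (α := Kˣ)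
  have h1 : orderOf g = p ^ f - 1 := by
    rw [orderOf_eq_card_of_forall_mem_zpowers hg, Nat.card_eq_fintype_card, Fintype.card_units, hc]
  have h2 : g ^ (p ^ n - 1) = 1 := by
    have h3 := h (g : K)
    have h4 : (g : K) ^ (p ^ n - 1) * (g : K) = 1 * (g : K) := by
      rw [← pow_succ, Nat.sub_add_cancel (Nat.one_le_pow _ _ hp.pos), h3, one_mul]
    have h5 := mul_right_cancel₀ g.ne_zero h4
    exact Units.ext (by rw [Units.val_pow_eq_pow_val, h5, Units.val_one])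
  have h3 : p ^ f - 1 ∣ p ^ n - 1 := h1 ▸ orderOf_dvd_of_pow_eq_one h2
  have h4 := Nat.pow_sub_one_gcd_pow_sub_one p f n
  rw [Nat.gcd_eq_left h3] at h4
  have h5 : p ^ f = p ^ Nat.gcd f n := by
    have e1 := Nat.one_le_pow f p hp.pos
    have e2 := Nat.one_le_pow (Nat.gcd f n) p hp.pos
    omega
  have h6 := Nat.pow_right_injective hp.two_le h5
  rw [h6]
  exact Nat.gcd_dvd_right f n

private theorem lac_fix {F E : Type} [Field F] [Field E] [Algebra F E] {S : Set E} (σ : E →+* E)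
    (h1 : ∀ a : F, σ (algebraMap F E a) = algebraMap F E a) (h2 : ∀ s ∈ S, σ s = s) {y : E}
    (hy : y ∈ IntermediateField.adjoin F S) : σ y = y := by
  induction hy using IntermediateField.adjoin_induction with
  | mem x hx => exact h2 x hx
  | algebraMap x => exact h1 x
  | add x y _ _ hx hy => rw [map_add, hx, hy]
  | inv x _ hx => rw [map_inv₀, hx]
  | mul x y _ _ hx hy => rw [map_mul, hx, hy]

/-- powers of Frobenius elements which fix `k` are Artin symbols -/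
private theorem lac_frob {k M : Type} [Field k] [NumberField k] [IsPrincipalIdealRing (𝓞 k)]
    [Field M] [NumberField M] [Algebra k M] [IsGalois ℚ M] [IsGalois k M] {N : ℕ}
    (hram : ∀ p : ℕ, p.Prime → (p : ℤ) ∣ discr M → p ∣ N) {p : ℕ} (hp : p.Prime) (hpN : ¬ p ∣ N)
    {Q : Ideal (𝓞 M)} [Q.IsPrime] (hpQ : (p : 𝓞 M) ∈ Q) {φ : Gal(M/ℚ)} (hφ : Cong φ Q p)
    {n : ℕ} (hfix : φ ^ n ∈ fixG k M) :
    ∃ (π : 𝓞 k) (ψ : Gal(M/k)) (m f : ℕ), IsCoprime π (N : 𝓞 k) ∧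
      HasArtinSymbol (Ideal.span {π}) ψ ∧ nrm π = p ^ f ∧ n = f * m ∧ φ ^ n = toG k M ψ ^ m := by
  let P : Ideal (𝓞 k) := Q.comap (algebraMap (𝓞 k) (𝓞 M))
  have hPp : (p : 𝓞 k) ∈ P := by
    rw [Ideal.mem_comap, map_natCast]
    exact hpQ
  have hP : P.IsPrime := Ideal.IsPrime.comap _
  have hP0 : P ≠ ⊥ := by
    intro h
    rw [h] at hPp
    have h1 : (p : 𝓞 k) = 0 := by simpa using hPp
    exact hp.ne_zero (by exact_mod_cast h1)
  have hPm : P.IsMaximal := hP.isMaximal hP0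
  obtain ⟨ψ, hψ⟩ := exists_cong_over (F := k) (M := M) hP0 (Q := Q) rfl
  have hfin : Finite (𝓞 k ⧸ P) := Ideal.finiteQuotientOfFreeOfNeBot P hP0
  have hcP : Nat.card (𝓞 k ⧸ P) = Ideal.absNorm P := by
    rw [Ideal.absNorm_apply, Submodule.cardQuot_apply]
  obtain ⟨f, hf, hfn⟩ : ∃ f : ℕ, Ideal.absNorm P = p ^ f ∧ f ∣ n := by
    let := Ideal.Quotient.field P
    let := Fintype.ofFinite (𝓞 k ⧸ P)
    have h1 : ((p : ℕ) : 𝓞 k ⧸ P) = 0 := by
      rw [← map_natCast (Ideal.Quotient.mk P), Ideal.Quotient.eq_zero_iff_mem]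
      exact hPp
    obtain ⟨f, -, hf⟩ := lac_card hp h1
    refine ⟨f, by rw [← hcP, Nat.card_eq_fintype_card, hf], lac_dvd hp hf fun x => ?_⟩
    obtain ⟨y, rfl⟩ := Ideal.Quotient.mk_surjective x
    have h3 := (hφ.pow n) (algebraMap (𝓞 k) (𝓞 M) y)
    have h4 : (φ ^ n) • algebraMap (𝓞 k) (𝓞 M) y = algebraMap (𝓞 k) (𝓞 M) y :=
      NumberField.RingOfIntegers.ext (mem_fixG.1 hfix (y : k))
    rw [h4, ← map_pow, ← map_sub] at h3
    have h5 : y - y ^ p ^ n ∈ P := h3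
    rw [← map_pow, eq_comm, Ideal.Quotient.eq]
    exact h5
  obtain ⟨m, hm⟩ := hfn
  have hpd : ¬ (p : ℤ) ∣ discr M := fun h => hpN (hram p hp h)
  have h6 : φ ^ f = toG k M ψ := by
    refine Cong.unique hp hpd hpQ (hφ.pow f) ?_
    rw [← hf]
    exact hψ
  obtain ⟨π, hπ⟩ := (IsPrincipalIdealRing.principal P).principal
  have hπ' : P = Ideal.span {π} := hπ
  refine ⟨π, ψ, m, f, ?_, ?_, ?_, hm, ?_⟩
  · have h7 : π ∣ (p : 𝓞 k) := by
      rw [← Ideal.mem_span_singleton, ← hπ']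
      exact hPp
    have h8 : IsCoprime (p : 𝓞 k) (N : 𝓞 k) :=
      (Nat.isCoprime_iff_coprime.2 ((Nat.Prime.coprime_iff_not_dvd hp).2 hpN)).map
        (Int.castRingHom (𝓞 k)) |> fun h => by simpa using h
    exact h8.of_isCoprime_of_dvd_left h7
  · refine ⟨[(P, ψ)], ?_, ?_, ?_⟩
    · intro x hx
      rw [List.mem_singleton] at hx
      subst hx
      exact ⟨hP, hP0, Q, ‹_›, rfl, hψ⟩
    · simp [hπ']
    · simp
  · rw [nrm, ← hπ', hf]
  · rw [hm, pow_mul, h6]

/-- the maximal abelian subfield of `M ⊆ ℚ(i, h(1/N))` is contained in `ℚ(ζ_{8N})` -/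
theorem ab_mem_cyclotomic {M : Type} [Field M] [NumberField M] [IsGalois ℚ M] (ι : M →+* ℂ)
    (hi : ∃ j : M, ι j = Complex.I) {N : ℕ} (hN0 : N ≠ 0) (h4 : 4 ∣ N)
    (hM : ∀ x : M, ι x ∈ IntermediateField.adjoin ℚ {Complex.I, hG (1 / N)})
    (hram : ∀ p : ℕ, p.Prime → (p : ℤ) ∣ discr M → p ∣ N) {x : M}
    (hx : ∀ σ τ : Gal(M/ℚ), σ (τ x) = τ (σ x)) :
    ι x ∈ IntermediateField.adjoin ℚ {Complex.exp (2 * Real.pi * Complex.I / (8 * N : ℕ))} := by
  obtain ⟨j, hj⟩ := hi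
  have hj2 : j ^ 2 = -1 := by
    apply ι.injective
    rw [map_pow, hj, Complex.I_sq, map_neg, map_one]
  let k := IntermediateField.adjoin ℚ {j}
  let _ : Algebra k ℂ := (ι.comp (algebraMap k M)).toAlgebra
  have hint : IsIntegral ℚ j := IsIntegral.of_finite ℚ j
  have hk : finrank ℚ k = 2 := by
    rw [IntermediateField.adjoin.finrank hint]
    have h1 : minpoly ℚ j = Polynomial.X ^ 2 + 1 := by
      refine (minpoly.eq_of_irreducible_of_monic ?_ ?_ ?_).symm
      · have h2 : (Polynomial.X ^ 2 + 1 : Polynomial ℚ).natDegree = 2 := by compute_degree!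
        refine (Polynomial.Monic.irreducible_iff_roots_eq_zero_of_degree_le_three (by monicity!)
          (by rw [h2]) (by rw [h2]; norm_num)).2 ?_
        refine Multiset.eq_zero_of_forall_notMem fun x hx => ?_
        have h3 := (Polynomial.mem_roots'.1 hx).2
        simp only [Polynomial.IsRoot.def, Polynomial.eval_add, Polynomial.eval_pow,
          Polynomial.eval_X, Polynomial.eval_one] at h3
        nlinarith [sq_nonneg x]
      · simp [hj2]
      · monicity!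
    rw [h1]
    compute_degree!
  have hI : ∃ j' : k, algebraMap k ℂ j' = Complex.I :=
    ⟨⟨j, IntermediateField.mem_adjoin_simple_self ℚ j⟩, hj⟩
  obtain ⟨D, hD1, hD2, hD3⟩ := exists_ellData hk hI
  have hDN : D.N₀ ∣ N := by rwa [hD1]
  have hpt : pt (1 : 𝓞 k) N = 1 / (N : ℂ) := by
    simp [pt]
  have hM' : ∀ x : M, ι x ∈ IntermediateField.adjoin k {D.h (pt (1 : 𝓞 k) N)} := by
    intro x
    rw [hD3, hpt]
    have h1 : IntermediateField.adjoin ℚ {Complex.I, CMG.hG (1 / N)} ≤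
        (IntermediateField.adjoin k {CMG.hG (1 / N)}).restrictScalars ℚ := by
      rw [IntermediateField.adjoin_le_iff]
      rintro y (rfl | rfl)
      · obtain ⟨j', hj'⟩ := hI
        rw [← hj']
        exact (IntermediateField.adjoin k {CMG.hG (1 / N)}).algebraMap_mem j'
      · exact IntermediateField.mem_adjoin_simple_self k _
    exact h1 (hM x)
  have := isAbelian_of_mem D hDN hN0 ι (fun x => rfl) hM'
  have hcx : IsTotallyComplex k := D.isComplex
  have := D.pid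
  obtain ⟨e, he⟩ := exists_iso hk hI
  obtain ⟨F, _, _, _, _, _, _, A, hA⟩ := exists_model D hDN hN0 ι (fun x => rfl) hM'
  obtain ⟨ρ, hρ, hρs, hρk⟩ := exists_rho D hDN hN0 A
  let R : (𝓞 k ⧸ Ideal.span {(N : 𝓞 k)})ˣ →* Gal(M/k) := (rs k M F).comp ρ
  have hR : ∀ (a : 𝓞 k) (ha : IsCoprime a (N : 𝓞 k)) (σ : Gal(M/k)),
      HasArtinSymbol (Ideal.span {a}) σ ↔ σ = R (cls N a ha) :=
    fun a ha σ => artin_iff D hDN hN0 A (M := M) hram ρ hρ a ha σ
  refine mem_cyclotomic (f := 8 * N) (R := N) (by positivity) hN0 ι ?_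
  intro p hp hpN Q φ hQ hpQ hφ n hn
  -- `φ ^ n` fixes `j`
  have hjint : IsIntegral ℤ j := by
    refine ⟨Polynomial.X ^ 2 + 1, ?_, ?_⟩
    · have h1 := Polynomial.monic_X_pow_add_C (1 : ℤ) (two_ne_zero)
      rwa [Polynomial.C_1] at h1
    · simp [hj2]
  have hn4 : p ^ n % 4 = 1 := by
    have h1 : p ^ n ≡ 1 [MOD 8 * N] := hn
    have h2 : p ^ n ≡ 1 [MOD 4] := h1.of_dvd (h4.mul_left 8)
    exact h2
  have hφj : (φ ^ n) j = j := by
    have h1 : ((φ ^ n) j) ^ 2 = j ^ 2 := by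
      rw [← map_pow, hj2, map_neg, map_one]
    rcases sq_eq_sq_iff_eq_or_eq_neg.1 h1 with h2 | h2
    · exact h2
    · exfalso
      let J : 𝓞 M := ⟨j, hjint⟩
      have hJ2 : J ^ 2 = -1 := by
        apply NumberField.RingOfIntegers.ext
        have e1 : ((J ^ 2 : 𝓞 M) : M) = j ^ 2 := by simp [J]
        rw [e1, hj2]
        simp
      have h3 := (hφ.pow n) J
      have h4' : (φ ^ n) • J = -J := NumberField.RingOfIntegers.ext (by
        have e1 : ((-J : 𝓞 M) : M) = -j := by simp [J]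
        rw [e1]
        exact h2)
      have h5 : J ^ p ^ n = J := by
        have e1 : p ^ n = 4 * (p ^ n / 4) + 1 := by omega
        have e2 : J ^ 4 = 1 := by
          have : J ^ 4 = (J ^ 2) ^ 2 := by ring
          rw [this, hJ2]
          ring
        rw [e1, pow_succ, pow_mul, e2, one_pow, one_mul]
      rw [h4', h5] at h3
      have h6 : (2 : 𝓞 M) ∈ Q := by
        have h7 := Q.mul_mem_left J h3
        have h8 : J * (-J - J) = 2 := by linear_combination (-2 : 𝓞 M) * hJ2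
        rwa [h8] at h7
      have hp2 : ¬ p ∣ 2 := by
        intro h
        rw [(Nat.prime_dvd_prime_iff_eq hp Nat.prime_two).1 h] at hpN
        exact hpN ((by norm_num : (2 : ℕ) ∣ 4).trans h4)
      obtain ⟨u, v, huv⟩ := Nat.isCoprime_iff_coprime.2 ((Nat.Prime.coprime_iff_not_dvd hp).2 hp2)
      apply hQ.ne_top
      rw [Ideal.eq_top_iff_one]
      have h7 : (1 : 𝓞 M) = (u : 𝓞 M) * (p : 𝓞 M) + (v : 𝓞 M) * 2 := by
        have := congrArg (fun z : ℤ => (z : 𝓞 M)) huv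
        push_cast at this
        exact this.symm
      rw [h7]
      exact Q.add_mem (Q.mul_mem_left _ hpQ) (Q.mul_mem_left _ h6)
  have hfix : φ ^ n ∈ fixG k M := by
    rw [mem_fixG]
    intro y
    refine lac_fix (F := ℚ) (S := {j}) ((φ ^ n : Gal(M/ℚ)) : M →+* M) (fun a => ?_)
      (fun s hs => ?_) y.2
    · exact (φ ^ n).commutes a
    · rw [Set.mem_singleton_iff] at hs
      rw [hs]
      exact hφj
  obtain ⟨π, ψ, m, f, hπN, hart, hnrm, hnm, hpow⟩ := lac_frob (k := k) hram hp hpN hpQ hφ hfix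
  have hψ := (hR π hπN ψ).1 hart
  have hπm : IsCoprime (π ^ m) (N : 𝓞 k) := hπN.pow_left
  have hcls : cls N (π ^ m) hπm = cls N π hπN ^ m := by
    apply Units.ext
    exact map_pow _ _ _
  have hpow' : φ ^ n = toG k M (R (cls N (π ^ m) hπm)) := by
    rw [hcls, map_pow, map_pow, ← hψ, hpow]
  have hnorm : e π * star (e π) = ((p ^ f : ℕ) : GaussianInt) := by
    have h1 := nrm_eq_of hk hcx π
    rw [← he, ← nG_eq, hnrm] at h1
    have h2 : p ^ f = nG (e π) := by exact_mod_cast h1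
    rw [h2, ← Zsqrtd.norm_eq_mul_conj, nG]
    have h3 : ((Zsqrtd.norm (e π)).natAbs : ℤ) = Zsqrtd.norm (e π) :=
      Int.natAbs_of_nonneg (GaussianInt.norm_nonneg _)
    rw [← Int.cast_natCast (R := GaussianInt), h3]
  have hn' : ((8 * N : ℕ) : GaussianInt) ∣ e (π ^ m) * star (e (π ^ m)) - 1 := by
    have h1 : e (π ^ m) * star (e (π ^ m)) = ((p ^ n : ℕ) : GaussianInt) := by
      rw [map_pow, star_pow, ← mul_pow, hnorm, hnm, pow_mul]
      push_cast
      rfl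
    rw [h1]
    have h2 : p ^ n ≡ 1 [MOD 8 * N] := hn
    have h3 : ((8 * N : ℕ) : ℤ) ∣ ((p ^ n : ℕ) : ℤ) - 1 := by
      have := (Nat.modEq_iff_dvd.1 h2.symm)
      exact_mod_cast this
    obtain ⟨c, hc⟩ := h3
    refine ⟨(c : GaussianInt), ?_⟩
    have h5 := congrArg (fun z : ℤ => (z : GaussianInt)) hc
    push_cast at h5 ⊢
    exact h5
  obtain ⟨g, h, hgh⟩ := artin_commutator hk hI e he hN0 R hR hπm hn'
  rw [hpow', hgh]
  change g (h (g⁻¹ (h⁻¹ x))) = x
  rw [hx g⁻¹ h⁻¹]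
  have e1 : h (h⁻¹ (g⁻¹ x)) = g⁻¹ x := by
    rw [← AlgEquiv.mul_apply, mul_inv_cancel, AlgEquiv.one_apply]
  rw [e1, ← AlgEquiv.mul_apply, mul_inv_cancel, AlgEquiv.one_apply]

end Pool.Agent.CMG
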