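import Mathlib
import Pool.Agent.StarkRQ.CycCount
import Pool.Agent.StarkRQ.Lift2
import Pool.Agent.StarkRQ.Restrict
import Pool.Agent.StarkRQ.Chars
import Pool.Agent.StarkRQ.Final

/-!
# coefficients of zeta(s,sigma) + zeta(s,R sigma)

`χ = hζ.autToPow ℚ`, `T ρ` = the elements of `Gal(M/ℚ)` over `ρ ∈ Gal(H/K)`, `U = χ(T σ ∪ T (Rσ))`.
-/

set_option autoImplicit false

noncomputable section

open NumberField Module Pool.Agent.StarkRQ

namespace Pool.Agent.CMG

section

variable {k M : Type*} [Field k] [NumberField k] [Field M] [NumberField M] [Algebra k M]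
  [IsGalois ℚ M] [IsGalois k M]

private lemma LEC_sum_mul {f : ℕ} (κ : DirichletCharacter ℤ f) {a b : ℕ} (hab : a.Coprime b) :
    ∑ d ∈ (a * b).divisors, κ (d : ZMod f) =
      (∑ d ∈ a.divisors, κ (d : ZMod f)) * ∑ d ∈ b.divisors, κ (d : ZMod f) := by
  rw [Nat.divisors_mul, Finset.mul_def, Finset.sum_image hab.mul_injOn_divisors,
    Finset.sum_mul_sum, Finset.sum_product]
  simp only [Nat.cast_mul, map_mul]

private lemma LEC_S (hk : finrank ℚ k = 2) (hB : ∀ σ τ : Gal(M/k), σ * τ = τ * σ) {f : ℕ}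
    [NeZero f] (hram : ∀ p : ℕ, p.Prime → (p : ℤ) ∣ discr M → p ∣ f) {ζ : M}
    (hζ : IsPrimitiveRoot ζ f) (κ : DirichletCharacter ℤ f)
    (hκ : ∀ g : Gal(M/ℚ), κ ((hζ.autToPow ℚ g : (ZMod f)ˣ) : ZMod f) = 1 ↔ g ∈ fixG k M)
    (n : ℕ) (hn : n ≠ 0) (hnf : n.Coprime f) :
    ∀ u : (ZMod f)ˣ,
    (∑ g : Gal(M/ℚ), if hζ.autToPow ℚ g = u then (cnt k M n g : ℤ) else 0) =
      if (u : ZMod f) = (n : ZMod f) then ∑ d ∈ n.divisors, κ (d : ZMod f) else 0 := by
  have hpp : ∀ p : ℕ, p.Prime → p.Coprime f → ∀ e : ℕ, ∀ u : (ZMod f)ˣ,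
      (∑ g : Gal(M/ℚ), if hζ.autToPow ℚ g = u then (cnt k M (p ^ e) g : ℤ) else 0) =
      if (u : ZMod f) = ((p ^ e : ℕ) : ZMod f) then
        ∑ d ∈ (p ^ e).divisors, κ (d : ZMod f) else 0 := by
    intro p hp hpf e u
    rw [sum_cnt_primePow hk hB hram hζ κ hκ hp hpf e u, Nat.sum_divisors_prime_pow hp]
  induction n using Nat.recOnPosPrimePosCoprime with
  | prime_pow p e hp he =>
      exact hpp p hp (Nat.Coprime.coprime_dvd_left (dvd_pow_self p he.ne') hnf) e
  | zero => exact absurd rfl hn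
  | one =>
      obtain ⟨p, hpN, hp⟩ := Nat.exists_infinite_primes (f + 1)
      have hcop : p.Coprime f := by
        rw [hp.coprime_iff_not_dvd]
        intro h
        have := Nat.le_of_dvd (Nat.pos_of_ne_zero (NeZero.ne f)) h
        omega
      simpa using hpp p hp hcop 0
  | coprime a b ha hb hab iha ihb =>
      have ha0 : a ≠ 0 := by omega
      have hb0 : b ≠ 0 := by omega
      have haf : a.Coprime f := Nat.Coprime.coprime_mul_right hnf
      have hbf : b.Coprime f := Nat.Coprime.coprime_mul_left hnf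
      have iha' := iha ha0 haf
      have ihb' := ihb hb0 hbf
      intro u
      set χ := hζ.autToPow ℚ with hχ
      set b' : (ZMod f)ˣ := ZMod.unitOfCoprime b hbf with hb'
      have hbc : (b' : ZMod f) = (b : ZMod f) := ZMod.coe_unitOfCoprime b hbf
      have h1 : (∑ g : Gal(M/ℚ), if χ g = u then (cnt k M (a * b) g : ℤ) else 0) =
          ∑ h : Gal(M/ℚ), (cnt k M a h : ℤ) *
            ∑ g : Gal(M/ℚ), if χ g = u then (cnt k M b (h⁻¹ * g) : ℤ) else 0 := by
        simp only [Finset.mul_sum]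
        rw [Finset.sum_comm]
        refine Finset.sum_congr rfl fun g _ => ?_
        split_ifs with hg
        · rw [cnt_mul hB hram ha0 hb0 hab haf hbf]
          push_cast
          rfl
        · simp
      have h2 : ∀ h : Gal(M/ℚ), (∑ g : Gal(M/ℚ), if χ g = u then (cnt k M b (h⁻¹ * g) : ℤ) else 0) =
          if χ h = u * b'⁻¹ then ∑ d ∈ b.divisors, κ (d : ZMod f) else 0 := by
        intro h
        have h3 : (∑ g : Gal(M/ℚ), if χ g = u then (cnt k M b (h⁻¹ * g) : ℤ) else 0) =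
            ∑ g : Gal(M/ℚ), if χ g = (χ h)⁻¹ * u then (cnt k M b g : ℤ) else 0 := by
          refine Fintype.sum_equiv (Equiv.mulLeft h⁻¹) _ _ fun g => ?_
          simp only [Equiv.coe_mulLeft, map_mul, map_inv, mul_right_inj]
        rw [h3, ihb']
        have h4 : ((((χ h)⁻¹ * u : (ZMod f)ˣ) : ZMod f) = (b : ZMod f)) ↔ χ h = u * b'⁻¹ := by
          rw [← hbc, Units.val_inj]
          constructor
          · intro h5
            rw [← h5]
            simp
          · intro h5
            rw [h5]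
            simp [mul_comm]
        simp only [h4]
      rw [h1]
      simp only [h2]
      have h5 : (∑ h : Gal(M/ℚ), (cnt k M a h : ℤ) *
          if χ h = u * b'⁻¹ then ∑ d ∈ b.divisors, κ (d : ZMod f) else 0) =
          (∑ h : Gal(M/ℚ), if χ h = u * b'⁻¹ then (cnt k M a h : ℤ) else 0) *
            ∑ d ∈ b.divisors, κ (d : ZMod f) := by
        rw [Finset.sum_mul]
        refine Finset.sum_congr rfl fun h _ => ?_
        split_ifs <;> simp
      rw [h5, iha', LEC_sum_mul κ hab]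
      have h6 : (((u * b'⁻¹ : (ZMod f)ˣ) : ZMod f) = (a : ZMod f)) ↔
          (u : ZMod f) = ((a * b : ℕ) : ZMod f) := by
        rw [Nat.cast_mul, ← hbc]
        constructor
        · intro h7
          rw [← h7, ← Units.val_mul]
          simp
        · intro h7
          rw [Units.val_mul, h7, mul_assoc, ← Units.val_mul]
          simp
      simp only [h6]
      split_ifs <;> simp


end

private noncomputable def LEC_T {K H M : Type} [Field K] [NumberField K] [Field H] [NumberField H]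
    [Field M] [NumberField M] [Algebra K H] [Algebra H M] (ρ : Gal(H/K)) : Finset Gal(M/ℚ) :=
  open Classical in Finset.univ.filter fun g => ∀ y : H, g (algebraMap H M y) =
    algebraMap H M (ρ y)

private lemma LEC_mem_T {K H M : Type} [Field K] [NumberField K] [Field H] [NumberField H]
    [Field M] [NumberField M] [Algebra K H] [Algebra H M] {ρ : Gal(H/K)} {g : Gal(M/ℚ)} :
    g ∈ LEC_T ρ ↔ ∀ y : H, g (algebraMap H M y) = algebraMap H M (ρ y) := by
  simp [LEC_T]

private lemma LEC_zcoeff {K H M : Type} [Field K] [NumberField K] [Field H] [NumberField H]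
    [Field M] [NumberField M] [Algebra K M] [Algebra K H] [Algebra H M] [IsScalarTower K H M]
    [IsGalois ℚ M] [IsAbelianGalois K M] [IsGalois K H] {N : ℕ}
    (hram : ∀ p : ℕ, p.Prime → (p : ℤ) ∣ discr M → p ∣ N) (ρ : Gal(H/K)) {n : ℕ} (hn : n ≠ 0)
    (hco : n.Coprime N) :
    (zcoeff N ρ n : ℤ) = ∑ g ∈ LEC_T (M := M) ρ, (cnt K M n g : ℤ) := by
  classical
  have hA : ∀ σ τ : Gal(M/K), σ * τ = τ * σ := fun σ τ => mul_comm' σ τ
  rw [zcoeff_restrict (M := M) hA hram _ n hn, finsum_eq_sum_of_fintype]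
  push_cast
  rw [← Finset.sum_subtype (Finset.univ.filter fun s : Gal(M/K) =>
    AlgEquiv.restrictNormalHom H s = ρ) (by simp) (fun s => (zcoeff N s n : ℤ))]
  refine Finset.sum_bij (fun s _ => toG K M s) ?_ ?_ ?_ ?_
  · intro s hs
    rw [LEC_mem_T]
    intro y
    simp only [Finset.mem_filter, Finset.mem_univ, true_and] at hs
    rw [← hs, restrict_apply]
    rfl
  · intro s _ t _ h
    exact toG_injective h
  · intro g hg
    rw [LEC_mem_T] at hg
    have h1 : g ∈ fixG K M := by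
      rw [mem_fixG]
      intro x
      rw [IsScalarTower.algebraMap_apply K H M, hg, AlgEquiv.commutes]
    obtain ⟨s, rfl⟩ := h1
    refine ⟨s, ?_, rfl⟩
    simp only [Finset.mem_filter, Finset.mem_univ, true_and]
    ext y
    apply (algebraMap H M).injective
    rw [restrict_apply, ← hg y]
    rfl
  · intro s _
    rw [zcoeff_eq_cnt hA hram hn hco]

/-- the sum of the coefficients for `σ` and `R σ`, in the presence of `ζ_f` -/
theorem zcoeff_even {K H M : Type} [Field K] [NumberField K] [Field H] [NumberField H] [Field M]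
    [NumberField M] [Algebra K M] [Algebra K H] [Algebra H M] [IsScalarTower K H M] [IsGalois ℚ M]
    [IsAbelianGalois K M] (hK : finrank ℚ K = 2) {f : ℕ} [NeZero f]
    (hram : ∀ p : ℕ, p.Prime → (p : ℤ) ∣ discr M → p ∣ f) {ζ : M} (hζ : IsPrimitiveRoot ζ f)
    (κ : DirichletCharacter ℤ f)
    (hκ : ∀ g : Gal(M/ℚ), κ ((hζ.autToPow ℚ g : (ZMod f)ˣ) : ZMod f) = 1 ↔ g ∈ fixG K M)
    {z c : Gal(M/ℚ)} (hz : z * z = 1) (hfix : ∀ g : Gal(M/ℚ), g ζ = ζ ↔ g = 1 ∨ g = z)
    (hc : c ζ = ζ⁻¹) (hcH : ∀ y : H, c (algebraMap H M y) = algebraMap H M y)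
    {R : Gal(H/K)} (hR : ∀ y : H, z (algebraMap H M y) = algebraMap H M (R y)) (σ : Gal(H/K)) :
    ∃ (m : ℕ) (U : Finset (ZMod f)ˣ), (∀ u ∈ U, -u ∈ U) ∧ ∀ n : ℕ, n ≠ 0 →
      (zcoeff f σ n : ℤ) + zcoeff f (R * σ) n = m * ∑ u ∈ U,
        if (n : ZMod f) = (u : ZMod f) then ∑ d ∈ n.divisors, κ (d : ZMod f) else 0 := by
  classical
  have : IsAbelianGalois K H := IsAbelianGalois.tower_bot K H M
  have hA : ∀ σ τ : Gal(M/K), σ * τ = τ * σ := fun σ τ => mul_comm' σ τ
  set χ := hζ.autToPow ℚ with hχ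
  have hone : ∀ h : Gal(M/ℚ), χ h = 1 ↔ h ζ = ζ := by
    intro h
    have hs := hζ.autToPow_spec ℚ h
    constructor
    · intro h3
      rw [← hs, ← hχ, h3]
      rcases eq_or_ne f 1 with rfl | hf1
      · have : ζ = 1 := by simpa using hζ.pow_eq_one
        rw [this, one_pow]
      · have : Fact (1 < f) := ⟨by have := NeZero.ne f; omega⟩
        rw [Units.val_one, ZMod.val_one, pow_one]
    · intro h3
      rw [h3] at hs
      have h4 : ζ ^ (χ h : ZMod f).val = ζ ^ 1 := by rw [hs, pow_one]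
      rcases eq_or_ne f 1 with rfl | hf1
      · exact Subsingleton.elim _ _
      · have : Fact (1 < f) := ⟨by have := NeZero.ne f; omega⟩
        have h5 := hζ.pow_inj (ZMod.val_lt _) this.1 h4
        refine Units.ext (ZMod.val_injective f ?_)
        rw [h5, Units.val_one, ZMod.val_one]
  -- `χ c = -1`
  have hcχ : χ c = -1 := by
    have hs := hζ.autToPow_spec ℚ c
    have h1 : ζ ^ ((χ c : ZMod f).val + 1) = 1 := by
      rw [pow_add, pow_one, hs, hc, inv_mul_cancel₀ (hζ.ne_zero (NeZero.ne f))]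
    have h2 := (hζ.pow_eq_one_iff_dvd _).1 h1
    have h3 : (((χ c : ZMod f).val + 1 : ℕ) : ZMod f) = 0 :=
      (ZMod.natCast_eq_zero_iff _ _).2 h2
    rw [Nat.cast_add, ZMod.natCast_val, ZMod.cast_id', id_eq, Nat.cast_one] at h3
    apply Units.ext
    rw [Units.val_neg, Units.val_one]
    exact eq_neg_of_add_eq_zero_left h3
  have hRR : R * R = 1 := by
    ext y
    apply (algebraMap H M).injective
    change algebraMap H M (R (R y)) = algebraMap H M y
    rw [← hR, ← hR]
    change (z * z) _ = _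
    rw [hz]; rfl
  have hzT : ∀ {ρ : Gal(H/K)} {g : Gal(M/ℚ)}, g ∈ LEC_T ρ → z * g ∈ LEC_T (R * ρ) := by
    intro ρ g hg
    rw [LEC_mem_T] at hg ⊢
    intro y
    change z (g _) = _
    rw [hg, hR]
    rfl
  set T : Finset Gal(M/ℚ) := LEC_T σ ∪ LEC_T (R * σ) with hT
  have hTz : ∀ g, g ∈ T → z * g ∈ T := by
    intro g hg
    rw [hT, Finset.mem_union] at hg ⊢
    rcases hg with hg | hg
    · exact Or.inr (hzT hg)
    · have := hzT hg
      rw [← mul_assoc, hRR, one_mul] at this
      exact Or.inl this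
  have hTc : ∀ g, g ∈ T → c * g ∈ T := by
    have hcT : ∀ {ρ : Gal(H/K)} {g : Gal(M/ℚ)}, g ∈ LEC_T ρ → c * g ∈ LEC_T ρ := by
      intro ρ g hg
      rw [LEC_mem_T] at hg ⊢
      intro y
      change c (g _) = _
      rw [hg, hcH]
    intro g hg
    rw [hT, Finset.mem_union] at hg ⊢
    exact hg.imp hcT hcT
  set U : Finset (ZMod f)ˣ := T.image χ with hU
  have hmemU : ∀ g, χ g ∈ U ↔ g ∈ T := by
    intro g
    rw [hU, Finset.mem_image]
    constructor
    · rintro ⟨t, ht, h⟩
      have h1 : χ (g * t⁻¹) = 1 := by rw [map_mul, map_inv, h, mul_inv_cancel]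
      rw [hone, hfix] at h1
      rcases h1 with h1 | h1
      · rw [mul_inv_eq_one.1 h1]
        exact ht
      · rw [mul_inv_eq_iff_eq_mul.1 h1]
        exact hTz t ht
    · intro h
      exact ⟨g, h, rfl⟩
  have key : ∀ n : ℕ, n ≠ 0 → n.Coprime f → (∑ g ∈ T, (cnt K M n g : ℤ)) = ∑ u ∈ U,
      if (n : ZMod f) = (u : ZMod f) then ∑ d ∈ n.divisors, κ (d : ZMod f) else 0 := by
    intro n hn hnf
    have h1 : ∀ u ∈ U, (if (n : ZMod f) = (u : ZMod f) then ∑ d ∈ n.divisors, κ (d : ZMod f)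
        else 0) = ∑ g ∈ Finset.univ.filter (fun g : Gal(M/ℚ) => χ g = u), (cnt K M n g : ℤ) := by
      intro u _
      rw [Finset.sum_filter, LEC_S hK hA hram hζ κ hκ n hn hnf u]
      exact if_congr eq_comm rfl rfl
    rw [Finset.sum_congr rfl h1, ← Finset.sum_fiberwise_of_maps_to (s := T) (t := U) (g := χ)
      (fun g hg => (hmemU g).2 hg)]
    refine Finset.sum_congr rfl fun u hu => ?_
    refine Finset.sum_congr ?_ fun _ _ => rfl
    ext g
    simp only [Finset.mem_filter, Finset.mem_univ, true_and, and_iff_right_iff_imp]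
    intro h
    rw [← hmemU, h]
    exact hu
  have hU' : ∀ u ∈ U, -u ∈ U := by
    intro u hu
    rw [hU, Finset.mem_image] at hu
    obtain ⟨t, ht, rfl⟩ := hu
    have := (hmemU _).2 (hTc t ht)
    rwa [map_mul, hcχ, neg_one_mul] at this
  have hnco : ∀ n : ℕ, ¬ n.Coprime f → (∑ u ∈ U,
      if (n : ZMod f) = ((u : (ZMod f)ˣ) : ZMod f) then ∑ d ∈ n.divisors, κ (d : ZMod f) else 0)
      = 0 := by
    intro n hnf
    refine Finset.sum_eq_zero fun u _ => if_neg fun h => hnf ?_
    rw [← ZMod.isUnit_iff_coprime, h]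
    exact Units.isUnit _
  by_cases hR1 : R = 1
  · refine ⟨2, U, hU', fun n hn => ?_⟩
    by_cases hnf : n.Coprime f
    · rw [← key n hn hnf, LEC_zcoeff (M := M) hram _ hn hnf, LEC_zcoeff (M := M) hram _ hn hnf,
        hT, hR1, one_mul, Finset.union_self]
      push_cast
      ring
    · rw [hnco n hnf, zcoeff, zcoeff, if_neg hnf, if_neg hnf]
      simp
  · refine ⟨1, U, hU', fun n hn => ?_⟩
    by_cases hnf : n.Coprime f
    · rw [← key n hn hnf, LEC_zcoeff (M := M) hram _ hn hnf, LEC_zcoeff (M := M) hram _ hn hnf,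
        hT, Finset.sum_union, Nat.cast_one, one_mul]
      rw [Finset.disjoint_left]
      intro g hg hg'
      apply hR1
      rw [LEC_mem_T] at hg hg'
      have h1 : R * σ = σ := by
        ext y
        apply (algebraMap H M).injective
        rw [← hg, ← hg']
      exact mul_eq_right.1 h1
    · rw [hnco n hnf, zcoeff, zcoeff, if_neg hnf, if_neg hnf]
      simp

end Pool.Agent.CMG
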