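import Mathlib
import Pool.Agent.StarkRQ.AnConv
import Pool.Agent.StarkRQ.ContLin

/-!
# double zero at 0 for even characters

Put `F a = ZMod.LFunction (Pi.single a 1)` as in `StarkRQ/AnConv.lean`. The continuation is
`W s = ∑_{u ∈ U} ∑_a κ a F a s F (u a⁻¹) s`, and `F a 0 = hh f a` is odd in `a`; `U = -U` and
`κ (-1) = 1` show that `W 0 = 0` and `W'(0) = 0`.
-/

set_option autoImplicit false

noncomputable section

open NumberField Pool.Agent.StarkRQ

namespace Pool.Agent.CMG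

/-- the partial zeta function -/
private noncomputable def LEv.F {f : ℕ} [NeZero f] (a : ZMod f) : ℂ → ℂ :=
  ZMod.LFunction (Pi.single a 1 : ZMod f → ℂ)

private lemma LEv.differentiableOn_F {f : ℕ} [NeZero f] (a : ZMod f) :
    DifferentiableOn ℂ (LEv.F a) {1}ᶜ := fun s hs =>
  (ZMod.differentiableAt_LFunction _ s (Or.inl hs)).differentiableWithinAt

private lemma LEv.char_sq {f : ℕ} (κ : DirichletCharacter ℤ f) (a : (ZMod f)ˣ) :
    κ ((a⁻¹ : (ZMod f)ˣ) : ZMod f) = κ (a : ZMod f) := by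
  have h : IsUnit (κ (a : ZMod f)) := a.isUnit.map κ
  have h1 : κ (a : ZMod f) * κ ((a⁻¹ : (ZMod f)ˣ) : ZMod f) = 1 := by
    rw [← map_mul, Units.mul_inv, map_one]
  rcases Int.isUnit_iff.1 h with h2 | h2
  · rw [h2, one_mul] at h1
    rw [h1, h2]
  · rw [h2] at h1 ⊢
    linarith

/-- the coefficients of the product -/
private lemma LEv.coeff {f : ℕ} [NeZero f] (κ : DirichletCharacter ℤ f) (ρ : (ZMod f)ˣ)
    {n : ℕ} :
    (∑ a : (ZMod f)ˣ, (κ (a : ZMod f) : ℂ) •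
      LSeries.convolution (fun m : ℕ => (Pi.single (a : ZMod f) 1 : ZMod f → ℂ) m)
        (fun m : ℕ => (Pi.single ((ρ * a⁻¹ : (ZMod f)ˣ) : ZMod f) 1 : ZMod f → ℂ) m)) n =
      ((if (n : ZMod f) = (ρ : ZMod f) then ∑ d ∈ n.divisors, κ (d : ZMod f) else 0 : ℤ) : ℂ) := by
  classical
  rw [Finset.sum_apply]
  simp only [Pi.smul_apply, LSeries.convolution_def, smul_eq_mul, Finset.mul_sum]
  rw [Finset.sum_comm]
  have hterm : ∀ p ∈ n.divisorsAntidiagonal, (∑ a : (ZMod f)ˣ, (κ (a : ZMod f) : ℂ) *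
      ((Pi.single (a : ZMod f) 1 : ZMod f → ℂ) (p.1 : ZMod f) *
        (Pi.single ((ρ * a⁻¹ : (ZMod f)ˣ) : ZMod f) 1 : ZMod f → ℂ) (p.2 : ZMod f))) =
      if (n : ZMod f) = (ρ : ZMod f) then (κ (p.1 : ZMod f) : ℂ) else 0 := by
    intro p hp
    have hp1 := (Nat.mem_divisorsAntidiagonal.1 hp).1
    have hp2 : (p.1 : ZMod f) * (p.2 : ZMod f) = (n : ZMod f) := by
      rw [← hp1, Nat.cast_mul]
    split_ifs with h
    · have hu : IsUnit (p.1 : ZMod f) := by
        apply isUnit_of_mul_isUnit_left (y := (p.2 : ZMod f))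
        rw [hp2, h]
        exact ρ.isUnit
      obtain ⟨u, hu⟩ := hu
      rw [Finset.sum_eq_single u]
      · have h2 : (p.2 : ZMod f) = ((ρ * u⁻¹ : (ZMod f)ˣ) : ZMod f) := by
          rw [Units.val_mul, ← h, ← hp2, ← hu, mul_comm (u : ZMod f), mul_assoc, Units.mul_inv,
            mul_one]
        rw [h2, ← hu, Pi.single_eq_same, Pi.single_eq_same, mul_one, mul_one]
      · intro b _ hb
        have : (p.1 : ZMod f) ≠ (b : ZMod f) := by
          rw [← hu]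
          exact fun h => hb (Units.ext h.symm)
        rw [Pi.single_eq_of_ne this, zero_mul, mul_zero]
      · intro h
        exact absurd (Finset.mem_univ _) h
    · refine Finset.sum_eq_zero fun a _ => ?_
      by_cases h1 : (p.1 : ZMod f) = (a : ZMod f)
      · have h2 : (p.2 : ZMod f) ≠ ((ρ * a⁻¹ : (ZMod f)ˣ) : ZMod f) := by
          intro h2
          apply h
          rw [← hp2, h1, h2, Units.val_mul, mul_comm, mul_assoc, Units.inv_mul, mul_one]
        rw [Pi.single_eq_of_ne h2, mul_zero, mul_zero]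
      · rw [Pi.single_eq_of_ne h1, zero_mul, mul_zero]
  rw [Finset.sum_congr rfl hterm]
  split_ifs with h
  · rw [Nat.sum_divisorsAntidiagonal (fun d _ => (κ (d : ZMod f) : ℂ))]
    push_cast
    rfl
  · simp

private lemma LEv.eq_of_one_lt {f : ℕ} [NeZero f] (κ : DirichletCharacter ℤ f) (ρ : (ZMod f)ˣ)
    {s : ℂ} (hs : 1 < s.re) :
    LSeries (fun n => ((if (n : ZMod f) = (ρ : ZMod f) then
      ∑ d ∈ n.divisors, κ (d : ZMod f) else 0 : ℤ) : ℂ)) s =
    ∑ a : (ZMod f)ˣ, (κ (a : ZMod f) : ℂ) *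
      (LEv.F (a : ZMod f) s * LEv.F ((ρ * a⁻¹ : (ZMod f)ˣ) : ZMod f) s) := by
  have hsum : ∀ b : ZMod f, LSeriesSummable
      (fun m : ℕ => (Pi.single b 1 : ZMod f → ℂ) m) s := fun b =>
    ZMod.LSeriesSummable_of_one_lt_re _ hs
  have h1 : (fun n : ℕ => ((if (n : ZMod f) = (ρ : ZMod f) then
      ∑ d ∈ n.divisors, κ (d : ZMod f) else 0 : ℤ) : ℂ)) =
      ∑ a : (ZMod f)ˣ, (κ (a : ZMod f) : ℂ) •
      LSeries.convolution (fun m : ℕ => (Pi.single (a : ZMod f) 1 : ZMod f → ℂ) m)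
        (fun m : ℕ => (Pi.single ((ρ * a⁻¹ : (ZMod f)ˣ) : ZMod f) 1 : ZMod f → ℂ) m) :=
    funext fun n => (LEv.coeff κ ρ).symm
  rw [h1, LSeries_sum]
  · refine Finset.sum_congr rfl fun a _ => ?_
    rw [LSeries_smul, LSeries_convolution' (hsum _) (hsum _)]
    unfold LEv.F
    rw [ZMod.LFunction_eq_LSeries _ hs, ZMod.LFunction_eq_LSeries _ hs]
  · intro a _
    exact ((hsum _).convolution (hsum _)).smul _


private lemma LEv.isCont {f : ℕ} [NeZero f] (κ : DirichletCharacter ℤ f) (ρ : (ZMod f)ˣ) :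
    IsCont (fun n => ((if (n : ZMod f) = (ρ : ZMod f) then
      ∑ d ∈ n.divisors, κ (d : ZMod f) else 0 : ℤ) : ℂ))
      (fun s => ∑ a : (ZMod f)ˣ, (κ (a : ZMod f) : ℂ) *
        (LEv.F (a : ZMod f) s * LEv.F ((ρ * a⁻¹ : (ZMod f)ˣ) : ZMod f) s)) where
  diff := by
    refine DifferentiableOn.fun_sum fun a _ => ?_
    exact (((LEv.differentiableOn_F _).mul (LEv.differentiableOn_F _))).const_mul _
  summable := by
    intro s hs
    have hsum : ∀ b : ZMod f, LSeriesSummable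
        (fun m : ℕ => (Pi.single b 1 : ZMod f → ℂ) m) s := fun b =>
      ZMod.LSeriesSummable_of_one_lt_re _ hs
    have h1 : (fun n : ℕ => ((if (n : ZMod f) = (ρ : ZMod f) then
        ∑ d ∈ n.divisors, κ (d : ZMod f) else 0 : ℤ) : ℂ)) =
        ∑ a : (ZMod f)ˣ, (κ (a : ZMod f) : ℂ) •
        LSeries.convolution (fun m : ℕ => (Pi.single (a : ZMod f) 1 : ZMod f → ℂ) m)
          (fun m : ℕ => (Pi.single ((ρ * a⁻¹ : (ZMod f)ˣ) : ZMod f) 1 : ZMod f → ℂ) m) :=
      funext fun n => (LEv.coeff κ ρ).symm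
    rw [h1]
    exact LSeriesSummable.sum fun a _ => ((hsum _).convolution (hsum _)).smul _
  eq := fun s hs => (LEv.eq_of_one_lt κ ρ hs).symm

/-- a double zero at `s = 0` -/
theorem even_cont {f : ℕ} [NeZero f] (hf : 2 < f) (κ : DirichletCharacter ℤ f)
    (heven : κ (-1) = 1) (U : Finset (ZMod f)ˣ) (hU : ∀ u ∈ U, -u ∈ U) :
    ∃ W : ℂ → ℂ, IsCont (fun n => ((∑ u ∈ U, if (n : ZMod f) = (u : ZMod f) then
      ∑ d ∈ n.divisors, κ (d : ZMod f) else 0 : ℤ) : ℂ)) W ∧ W 0 = 0 ∧ deriv W 0 = 0 := by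
  classical
  have hnt : Nontrivial (ZMod f) := ZMod.nontrivial_iff.2 (by omega)
  have hneg : ∀ g : (ZMod f)ˣ → ℂ, ∑ u ∈ U, g u = ∑ u ∈ U, g (-u) := by
    intro g
    refine Finset.sum_equiv (Equiv.neg (ZMod f)ˣ) (fun u => ⟨hU u, fun h => ?_⟩) (fun u _ => ?_)
    · have := hU _ h
      rwa [Equiv.neg_apply, neg_neg] at this
    · rw [Equiv.neg_apply, neg_neg]
  have hF0 : ∀ a : (ZMod f)ˣ, LEv.F (a : ZMod f) 0 = (hh f (a : ZMod f) : ℂ) := fun a =>
    LFunction_single_zero a.ne_zero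
  have hF0n : ∀ a : (ZMod f)ˣ, LEv.F ((-a : (ZMod f)ˣ) : ZMod f) 0 =
      -LEv.F (a : ZMod f) 0 := by
    intro a
    rw [hF0, hF0, Units.val_neg, hh_neg a.ne_zero]
    push_cast
    rfl
  have hzero : ∀ S : ℂ, S = -S → S = 0 := fun S h => by
    have h2 : (2 : ℂ) * S = 0 := by linear_combination h
    exact (mul_eq_zero.1 h2).resolve_left two_ne_zero
  have h1 := IsCont.sum U (fun u _ => LEv.isCont κ u)
  refine ⟨_, ⟨h1.diff, fun s hs => ?_, fun s hs => ?_⟩, ?_, ?_⟩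
  · have := h1.summable s hs
    convert this using 1
    ext n
    rw [Finset.sum_apply]
    push_cast
    rfl
  · rw [h1.eq s hs]
    congr 1
    ext n
    rw [Finset.sum_apply]
    push_cast
    rfl
  · apply hzero
    conv_lhs => rw [hneg]
    rw [← Finset.sum_neg_distrib]
    refine Finset.sum_congr rfl fun u _ => ?_
    rw [← Finset.sum_neg_distrib]
    refine Finset.sum_congr rfl fun a _ => ?_
    rw [neg_mul, hF0n]
    ring
  · have hopen : IsOpen ({1}ᶜ : Set ℂ) := isOpen_compl_singleton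
    have hmem : (0 : ℂ) ∈ ({1}ᶜ : Set ℂ) := by simp
    have hF : ∀ b : ZMod f, HasDerivAt (LEv.F b) (deriv (LEv.F b) 0) 0 := fun b =>
      ((LEv.differentiableOn_F b).differentiableAt (hopen.mem_nhds hmem)).hasDerivAt
    have hVder : HasDerivAt (fun s => ∑ u ∈ U, ∑ a : (ZMod f)ˣ, (κ (a : ZMod f) : ℂ) *
        (LEv.F (a : ZMod f) s * LEv.F ((u * a⁻¹ : (ZMod f)ˣ) : ZMod f) s))
        (∑ u ∈ U, ∑ a : (ZMod f)ˣ, (κ (a : ZMod f) : ℂ) *
        (deriv (LEv.F (a : ZMod f)) 0 * LEv.F ((u * a⁻¹ : (ZMod f)ˣ) : ZMod f) 0 +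
        LEv.F (a : ZMod f) 0 * deriv (LEv.F ((u * a⁻¹ : (ZMod f)ˣ) : ZMod f)) 0)) 0 := by
      refine HasDerivAt.fun_sum fun u _ => ?_
      refine HasDerivAt.fun_sum fun a _ => ?_
      exact ((hF _).mul (hF _)).const_mul _
    rw [hVder.deriv]
    simp only [mul_add, Finset.sum_add_distrib]
    have hT1 : (∑ u ∈ U, ∑ a : (ZMod f)ˣ, (κ (a : ZMod f) : ℂ) *
        (deriv (LEv.F (a : ZMod f)) 0 * LEv.F ((u * a⁻¹ : (ZMod f)ˣ) : ZMod f) 0)) = 0 := by
      apply hzero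
      conv_lhs => rw [hneg]
      rw [← Finset.sum_neg_distrib]
      refine Finset.sum_congr rfl fun u _ => ?_
      rw [← Finset.sum_neg_distrib]
      refine Finset.sum_congr rfl fun a _ => ?_
      rw [neg_mul, hF0n]
      ring
    have hT2 : (∑ u ∈ U, ∑ a : (ZMod f)ˣ, (κ (a : ZMod f) : ℂ) *
        (LEv.F (a : ZMod f) 0 * deriv (LEv.F ((u * a⁻¹ : (ZMod f)ˣ) : ZMod f)) 0)) = 0 := by
      apply hzero
      conv_lhs => rw [hneg]
      rw [← Finset.sum_neg_distrib]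
      refine Finset.sum_congr rfl fun u _ => ?_
      rw [← Finset.sum_neg_distrib]
      rw [← Equiv.sum_comp (Equiv.neg (ZMod f)ˣ)]
      refine Finset.sum_congr rfl fun a _ => ?_
      have hκ : κ ((-a : (ZMod f)ˣ) : ZMod f) = κ (a : ZMod f) := by
        rw [Units.val_neg, ← neg_one_mul (a : ZMod f), map_mul, heven, one_mul]
      rw [Equiv.neg_apply, hκ, hF0n, inv_neg, neg_mul_neg]
      ring
    rw [hT1, hT2, add_zero]

end Pool.Agent.CMG
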