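import Mathlib
import Pool.Agent.StarkRQ.Shintani
import Pool.Agent.StarkRQ.ContLin

/-!
# continuation of the difference zeta(s,sigma) - zeta(s,R sigma)
-/

set_option autoImplicit false

noncomputable section

open NumberField Module Pool.Agent.StarkRQ

namespace Pool.Agent.CMG

private theorem comm_one_or {G : Type} [Group G] {A B : Subgroup G} {z : G} (hA : A.index = 2)
    (hB : B.index = 2) (hAc : ∀ a ∈ A, ∀ a' ∈ A, a * a' = a' * a)
    (hBc : ∀ a ∈ B, ∀ a' ∈ B, a * a' = a' * a) (h : ZData A B z) (g g' : G) :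
    g * g' * g⁻¹ * g'⁻¹ = 1 ∨ g * g' * g⁻¹ * g'⁻¹ = z := by
  have key : ∀ a b : G, a * b = b * a → a * b * a⁻¹ * b⁻¹ = 1 := by
    intro a b hab
    rw [hab]; group
  have hzi : z⁻¹ = z := inv_eq_of_mul_eq_one_left h.sq
  -- `b a b⁻¹ = z a` implies `[a, b] = z` and `[b, a] = z`
  have key1 : ∀ a b : G, b * a * b⁻¹ = z * a → b * a * b⁻¹ * a⁻¹ = z := by
    intro a b hab
    rw [hab]; group
  have key2 : ∀ a b : G, b * a * b⁻¹ = z * a → a * b * a⁻¹ * b⁻¹ = z := by
    intro a b hab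
    have e1 : a * b * a⁻¹ * b⁻¹ = (b * a * b⁻¹ * a⁻¹)⁻¹ := by group
    rw [e1, key1 a b hab, hzi]
  by_cases hgA : g ∈ A
  · by_cases hgB : g ∈ B
    · exact Or.inl (key _ _ (h.central g hgA hgB g'))
    · by_cases hg'A : g' ∈ A
      · exact Or.inl (key _ _ (hAc g hgA g' hg'A))
      · exact Or.inr (key2 _ _ (h.conjA g hgA hgB g' hg'A))
  · by_cases hgB : g ∈ B
    · by_cases hg'B : g' ∈ B
      · exact Or.inl (key _ _ (hBc g hgB g' hg'B))
      · exact Or.inr (key2 _ _ (h.conjB g hgB hgA g' hg'B))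
    · by_cases hg'A : g' ∈ A
      · by_cases hg'B : g' ∈ B
        · exact Or.inl (key _ _ (h.central g' hg'A hg'B g).symm)
        · exact Or.inr (key1 _ _ (h.conjA g' hg'A hg'B g hgA))
      · by_cases hg'B : g' ∈ B
        · exact Or.inr (key1 _ _ (h.conjB g' hg'B hg'A g hgB))
        · have h1 : g⁻¹ * g' ∈ A := mul_mem_of_index_two hA (fun h => hgA (inv_mem_iff.1 h)) hg'A
          have h2 : g⁻¹ * g' ∈ B := mul_mem_of_index_two hB (fun h => hgB (inv_mem_iff.1 h)) hg'B
          have h3 := h.central _ h1 h2 g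
          left
          apply key
          have h5 : g⁻¹ * g' * g = g' := by rw [h3]; group
          have h6 : g * (g⁻¹ * g' * g) = g' * g := by group
          rwa [h5] at h6

/-- the difference `ζ(s, σ) - ζ(s, R σ)` has a continuation -/
theorem exists_odd_cont {M K k H : Type} [Field M] [NumberField M] [IsGalois ℚ M] [Field K]
    [NumberField K] [Field k] [NumberField k] [Field H] [NumberField H] [Algebra K M] [Algebra k M]
    [Algebra K H] [Algebra H M] [IsScalarTower K H M] [IsTotallyReal K] [IsTotallyComplex k]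
    (hK : finrank ℚ K = 2) (hk : finrank ℚ k = 2) [IsAbelianGalois K M] [IsAbelianGalois k M]
    (ι : M →+* ℂ) (hH : ∀ y : H, (ι (algebraMap H M y)).im = 0) (N : ℕ) (hN : N ≠ 0)
    (hram : ∀ p : ℕ, p.Prime → (p : ℤ) ∣ discr M → p ∣ N)
    (hZ : ∀ t : Gal(M/k), ∃ Z : ℂ → ℂ, IsPartialZeta N t Z) :
    ∃ (z : Gal(M/ℚ)) (R : Gal(H/K)), (∀ y : H, z (algebraMap H M y) = algebraMap H M (R y)) ∧
      R * R = 1 ∧
      (∀ g h : Gal(M/ℚ), g * h * g⁻¹ * h⁻¹ = 1 ∨ g * h * g⁻¹ * h⁻¹ = z) ∧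
      (∃ g h : Gal(M/ℚ), z = g * h * g⁻¹ * h⁻¹) ∧
      (∀ g : H →+* ℂ, (∃ x : K, g (algebraMap K H x) ≠ ι (algebraMap K M x)) →
        ∀ y, g (R y) = starRingEnd ℂ (g y)) ∧
      ∀ σ : Gal(H/K), ∃ W : ℂ → ℂ, IsCont (fun n => (zcoeff N σ n : ℂ) - zcoeff N (R * σ) n) W := by
  classical
  have : IsAbelianGalois K H := IsAbelianGalois.tower_bot K H M
  have hA : ∀ σ τ : Gal(M/K), σ * τ = τ * σ := fun σ τ => mul_comm' σ τ
  have hB : ∀ σ τ : Gal(M/k), σ * τ = τ * σ := fun σ τ => mul_comm' σ τ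
  obtain ⟨c, hc⟩ := exists_cc ι
  have hcc : c * c = 1 := by
    ext x
    apply ι.injective
    change ι (c (c x)) = ι x
    rw [hc, hc, Complex.conj_conj]
  have hcK : c ∈ fixG K M := cc_mem_fixG hc
  have hck : c ∉ fixG k M := cc_notMem_fixG hc
  obtain ⟨z, hzA, hzB, hzz, hcen, hcA, hcB, hsq, b, hzb⟩ :=
    exists_z (fixG_index (M := M) hK) (fixG_index (M := M) hk) (fixG_comm hA) (fixG_comm hB)
      hcK hck hcc
  have hz : ZData (fixG K M) (fixG k M) z := ⟨hzA, hzB, hzz, hcen, hcA, hcB, hsq⟩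
  have hzc := hcen z hzA hzB
  obtain ⟨zK, hzK⟩ := hzA
  obtain ⟨zk, hzk⟩ := hzB
  have hcy : ∀ y : H, c (algebraMap H M y) = algebraMap H M y := by
    intro y
    apply ι.injective
    rw [hc]
    exact Complex.conj_eq_iff_im.2 (hH y)
  have hlmem : ∀ (σ : Gal(H/K)) (t : Gal(M/k)), t ∈ liftSet k H σ ↔
      ∃ s : Gal(M/K), toG K M s = toG k M t ∧ AlgEquiv.restrictNormalHom H s = σ := by
    intro σ t
    rw [mem_liftSet]
    constructor
    · intro h
      have h1 : toG k M t ∈ fixG K M := by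
        rw [mem_fixG]
        intro x
        rw [IsScalarTower.algebraMap_apply K H M, toG_apply, h, AlgEquiv.commutes]
      obtain ⟨s, hs⟩ := h1
      refine ⟨s, hs, ?_⟩
      ext y
      apply (algebraMap H M).injective
      rw [restrict_apply, ← h y]
      exact DFunLike.congr_fun hs (algebraMap H M y)
    · rintro ⟨s, hs, rfl⟩ y
      rw [restrict_apply]
      exact (DFunLike.congr_fun hs (algebraMap H M y)).symm
  have hzKz : ∀ x : M, zK x = z x := fun x => by rw [← hzK]; rfl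
  refine ⟨z, AlgEquiv.restrictNormalHom H zK, fun y => ?_, ?_, ?_, ⟨b, c, hzb⟩, ?_, ?_⟩
  · rw [restrict_apply, hzKz]
  · rw [← map_mul]
    have : zK * zK = 1 := by
      apply toG_injective (F := K) (M := M)
      rw [map_mul, hzK, hzz, map_one]
    rw [this, map_one]
  · exact comm_one_or (fixG_index (M := M) hK) (fixG_index (M := M) hk) (fixG_comm hA)
      (fixG_comm hB) hz
  · intro g ⟨x₀, hx₀⟩ y
    obtain ⟨γ, hγ⟩ : ∃ γ : Gal(M/ℚ), ∀ y : H, g y = ι (γ (algebraMap H M y)) := by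
      let _ : Algebra H ℂ := g.toAlgebra
      have : Algebra.IsAlgebraic H M := Algebra.IsAlgebraic.of_finite H M
      obtain ⟨γ, hγ⟩ := exists_comp ι (IsAlgClosed.lift : M →ₐ[H] ℂ).toRingHom
      refine ⟨γ, fun y => ?_⟩
      rw [← hγ]
      exact ((IsAlgClosed.lift : M →ₐ[H] ℂ).commutes y).symm
    have hγK : γ ∉ fixG K M := by
      intro h
      rw [mem_fixG] at h
      apply hx₀
      rw [hγ, ← IsScalarTower.algebraMap_apply, h]
    have hconj : γ * c = z * c * γ := by
      have := hcA c hcK hck γ hγK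
      rw [← this, inv_mul_cancel_right]
    rw [hγ, hγ, restrict_apply, ← hc]
    congr 1
    rw [hzKz]
    have e2 : γ (z (algebraMap H M y)) = z (γ (algebraMap H M y)) := by
      change (γ * z) _ = (z * γ) _
      rw [hzc]
    rw [e2]
    have e3 : γ (c (algebraMap H M y)) = z (c (γ (algebraMap H M y))) := by
      change (γ * c) _ = (z * c * γ) _
      rw [hconj]
    rw [hcy] at e3
    rw [congrArg z e3]
    change (z * z) _ = _
    rw [hzz]; rfl
  · intro σ
    choose W hW using hZ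
    have hcoef := zcoeff_sub_sum (H := H) hK hk hA hB hN hram hz hzK hzk σ (liftSet k H σ)
      (hlmem σ)
    have h1 := IsCont.sum (liftSet k H σ)
      (a := fun t n => (zcoeff N t n : ℂ) - zcoeff N (zk * t) n)
      (Z := fun t s => W t s - W (zk * t) s)
      (fun t _ => (hW t).isCont.sub (hW (zk * t)).isCont)
    refine ⟨_, h1.diff, fun s hs => ?_, fun s hs => ?_⟩
    · exact (zcoeff_summable N σ hs).sub (zcoeff_summable N _ hs)
    · rw [h1.eq s hs]
      refine LSeries_congr (fun {n} hn => ?_) s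
      rw [Finset.sum_apply]
      have := congrArg (fun m : ℤ => (m : ℂ)) (hcoef n hn)
      push_cast at this
      exact this.symm

end Pool.Agent.CMG
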