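import Mathlib
import Pool.Agent.StarkRQ.Split
import Pool.Agent.StarkRQ.FrobQ

/-!
# M(zeta_f): Galois over Q, ramification

`isGalois_cyclotomic`: `E` is a splitting field over `ℚ` of a product of a polynomial with splitting field
`M` and `X^f - 1` (as in `StarkRQ/Cyclo.lean`). `ram_cyclotomic`: let `p ∤ f`, `p ∤ discr M`. Mathlib
(`NumberTheory/NumberField/Discriminant/Different.lean`) has: `p ∤ discr E` iff all primes over `p` are
unramified. Let `Q` be a prime of `E` over `p` and `g` in its inertia group (`g x ≡ x` mod `Q` for all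
integers `x`). `g` is trivial on `M` (`p` is unramified in `M`; cf. `split_unram`, `Cong.unique` in
`StarkRQ/FrobQ.lean` with `q = 1`) and `g ζ = ζ` (`ζ' ≡ ζ` mod `Q` implies `ζ' = ζ` as `p ∤ f`), so `g = 1`, and
the ramification index is the order of the inertia group (`Ideal.card_inertia_eq_ramificationIdxIn` or
similar). Or: `E/M` is unramified over `p` because the different divides `f` (derivative of `X^f - 1`) and
ramification indices are multiplicative.
-/

set_option autoImplicit false

noncomputable section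

open NumberField Module Pool.Agent.StarkRQ

namespace Pool.Agent.CMG

/-- `M(ζ_f)` is Galois over `ℚ` -/
theorem isGalois_cyclotomic {M E : Type} [Field M] [NumberField M] [IsGalois ℚ M] [Field E]
    [NumberField E] [Algebra M E] {f : ℕ} (hf : f ≠ 0) [IsCyclotomicExtension {f} M E] :
    IsGalois ℚ E := by
  have hfn : NeZero f := ⟨hf⟩
  obtain ⟨p, hp0, hp⟩ : ∃ p : Polynomial ℚ, p ≠ 0 ∧ Polynomial.IsSplittingField ℚ M p := by
    obtain ⟨p, hp⟩ := Normal.exists_isSplittingField ℚ M
    by_cases h : p = 0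
    · refine ⟨1, one_ne_zero, ⟨by simp, ?_⟩⟩
      have := hp.adjoin_rootSet'
      rw [h] at this
      simpa using this
    · exact ⟨p, h, hp⟩
  have hX : (Polynomial.X ^ f - 1 : Polynomial ℚ) ≠ 0 :=
    (Polynomial.monic_X_pow_sub_C (1 : ℚ) hf).ne_zero
  have h1 : Polynomial.IsSplittingField M E
      ((Polynomial.X ^ f - 1 : Polynomial ℚ).map (algebraMap ℚ M)) := by
    have := IsCyclotomicExtension.isSplittingField_X_pow_sub_one f M E
    simpa using this
  have h2 : Polynomial.IsSplittingField ℚ E (p * (Polynomial.X ^ f - 1)) :=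
    Polynomial.IsSplittingField.mul (K := M) (L := E) p _ hp0 hX
  have h3 : Normal ℚ E := Normal.of_isSplittingField (p * (Polynomial.X ^ f - 1))
  exact ⟨⟩

/-- an automorphism which is the identity on `M` and on a primitive root of unity -/
private theorem lram_eq_one {M E : Type} [Field M] [NumberField M] [Field E]
    [NumberField E] [Algebra M E] {f : ℕ} [IsCyclotomicExtension {f} M E] [NeZero f] {ζ : E}
    (hζ : IsPrimitiveRoot ζ f) (g : Gal(E/ℚ))
    (hM : ∀ x : M, g (algebraMap M E x) = algebraMap M E x) (hg : g ζ = ζ) : g = 1 := by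
  let t : E ≃ₐ[M] E := AlgEquiv.ofRingEquiv (f := g.toRingEquiv) hM
  have ht : t = 1 := by
    have h8 := IsCyclotomicExtension.adjoin_primitive_root_eq_top (A := M) (B := E) hζ
    have h9 : (t : E →ₐ[M] E) = AlgHom.id M E := by
      apply AlgHom.ext_of_adjoin_eq_top h8
      intro x hx
      rw [Set.mem_singleton_iff] at hx
      rw [hx]
      exact hg
    ext x
    exact DFunLike.congr_fun h9 x
  ext x
  exact DFunLike.congr_fun ht x

/-- congruent roots of unity are equal -/
private theorem lram_root {R : Type} [CommRing R] [IsDomain R] {Q : Ideal R} [Q.IsPrime] {f p : ℕ}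
    (hf : f ≠ 0) (hp : p.Prime) (hpf : ¬ p ∣ f) (hpQ : (p : R) ∈ Q) {z w : R} (hz : z ^ f = 1)
    (hw : w ^ f = 1) (h : w - z ∈ Q) : w = z := by
  by_contra hne
  have h1 := (Commute.all w z).geom_sum₂_mul f
  rw [hz, hw, sub_self] at h1
  have h2 : (∑ i ∈ Finset.range f, w ^ i * z ^ (f - 1 - i)) = 0 :=
    (mul_eq_zero.1 h1).resolve_right (sub_ne_zero.2 hne)
  have h3 : Ideal.Quotient.mk Q w = Ideal.Quotient.mk Q z := Ideal.Quotient.eq.2 h
  have h4 := congrArg (Ideal.Quotient.mk Q) h2
  rw [map_sum, map_zero] at h4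
  simp only [map_mul, map_pow, h3] at h4
  rw [geom_sum₂_self] at h4
  have h5 : (Ideal.Quotient.mk Q z) ^ (f - 1) * Ideal.Quotient.mk Q z = 1 := by
    rw [← pow_succ, Nat.sub_add_cancel (Nat.one_le_iff_ne_zero.2 hf), ← map_pow, hz, map_one]
  have h6 : ((f : ℕ) : R ⧸ Q) = 0 := by
    calc ((f : ℕ) : R ⧸ Q) = f * ((Ideal.Quotient.mk Q z) ^ (f - 1) * Ideal.Quotient.mk Q z) := by
          rw [h5, mul_one]
      _ = 0 := by rw [← mul_assoc, h4, zero_mul]
  have h7 : (f : R) ∈ Q := by
    rw [← Ideal.Quotient.eq_zero_iff_mem, map_natCast]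
    exact h6
  have hco : IsCoprime (p : ℤ) (f : ℤ) :=
    Nat.isCoprime_iff_coprime.2 ((Nat.Prime.coprime_iff_not_dvd hp).2 hpf)
  obtain ⟨a, b, hab⟩ := hco
  have h8 : (1 : R) ∈ Q := by
    have h9 : (1 : R) = (a : R) * (p : R) + (b : R) * (f : R) := by
      have := congrArg (fun n : ℤ => (n : R)) hab
      push_cast at this
      exact this.symm
    rw [h9]
    exact Q.add_mem (Q.mul_mem_left _ hpQ) (Q.mul_mem_left _ h7)
  exact (Ideal.ne_top_iff_one Q).1 (Ideal.IsPrime.ne_top inferInstance) h8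

/-- primes ramified in `M(ζ_f)` -/
theorem ram_cyclotomic {M E : Type} [Field M] [NumberField M] [IsGalois ℚ M] [Field E]
    [NumberField E] [Algebra M E] {f : ℕ} (hf : f ≠ 0) [IsCyclotomicExtension {f} M E] {p : ℕ}
    (hp : p.Prime) (h : (p : ℤ) ∣ discr E) : (p : ℤ) ∣ discr M ∨ p ∣ f := by
  by_contra hcon
  push Not at hcon
  obtain ⟨hpM, hpf⟩ := hcon
  have hfn : NeZero f := ⟨hf⟩
  have hG : IsGalois ℚ E := isGalois_cyclotomic (M := M) hf
  have hpp : Prime (p : ℤ) := Nat.prime_iff_prime_int.mp hp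
  refine absurd h ?_
  rw [NumberField.not_dvd_discr_iff_isUnramifiedIn E (𝓞 E) hpp,
    Algebra.isUnramifiedIn_iff_forall_ramificationIdx_eq_one]
  intro Q hQ hover
  have hpQ' : ((p : ℤ) : 𝓞 E) ∈ Q :=
    (Ideal.liesOver_span_iff (Ideal.IsPrime.ne_top inferInstance) hpp).mp hover
  have hpQ : (p : 𝓞 E) ∈ Q := by exact_mod_cast hpQ'
  have hmax : (Ideal.span {(p : ℤ)}).IsMaximal :=
    PrincipalIdealRing.isMaximal_of_irreducible hpp.irreducible
  have hfin : Finite (ℤ ⧸ Ideal.span {(p : ℤ)}) := Ideal.finiteQuotientOfFreeOfNeBot _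
    (by simpa using hp.ne_zero)
  have hfin' : Finite (Ideal.span {(p : ℤ)}).ResidueField :=
    Finite.of_surjective _ (Ideal.bijective_algebraMap_quotient_residueField
      (Ideal.span {(p : ℤ)})).2
  rw [← Ideal.ramificationIdxIn_eq_ramificationIdx (Ideal.span {(p : ℤ)}) Q Gal(E/ℚ),
    ← Ideal.card_inertia_eq_ramificationIdxIn (G := Gal(E/ℚ)) (Ideal.span {(p : ℤ)}) Q,
    Nat.card_eq_one_iff_unique]
  refine ⟨⟨fun a b => ?_⟩, ⟨1⟩⟩
  have key : ∀ g : Gal(E/ℚ), g ∈ Q.inertia Gal(E/ℚ) → g = 1 := by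
    intro g hg
    obtain ⟨ζ, hζ⟩ := IsCyclotomicExtension.exists_isPrimitiveRoot M E
      (Set.mem_singleton f) hf
    have hgx : ∀ x : 𝓞 E, g • x - x ∈ Q := hg
    refine lram_eq_one (M := M) (f := f) hζ g ?_ ?_
    · -- `g` is trivial on `M`
      have hQM : (Q.comap (algebraMap (𝓞 M) (𝓞 E))).IsPrime := Ideal.comap_isPrime _ _
      have h1 : Cong (AlgEquiv.restrictNormalHom M g) (Q.comap (algebraMap (𝓞 M) (𝓞 E))) 1 := by
        intro x
        have h2 : algebraMap (𝓞 M) (𝓞 E) (AlgEquiv.restrictNormalHom M g • x) =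
            g • algebraMap (𝓞 M) (𝓞 E) x := by
          apply NumberField.RingOfIntegers.ext
          change algebraMap M E ((AlgEquiv.restrictNormalHom M g) (x : M)) =
            g (algebraMap M E (x : M))
          exact AlgEquiv.restrictNormal_commutes g M (x : M)
        rw [Ideal.mem_comap, map_sub, pow_one, h2]
        exact hgx _
      have h3 : AlgEquiv.restrictNormalHom M g = 1 :=
        Cong.unique hp hpM (by rw [Ideal.mem_comap, map_natCast]; exact hpQ) h1 (Cong.one _)
      intro x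
      have h4 := AlgEquiv.restrictNormal_commutes g M x
      have h5 : g.restrictNormal M = 1 := h3
      rw [h5] at h4
      exact h4.symm
    · -- `g` is trivial on the roots of unity
      have hint : IsIntegral ℤ ζ := hζ.isIntegral (Nat.pos_of_ne_zero hf)
      set z : 𝓞 E := ⟨ζ, hint⟩ with hz
      have hz1 : z ^ f = 1 := by
        apply NumberField.RingOfIntegers.ext
        change ζ ^ f = 1
        exact hζ.pow_eq_one
      have hw1 : (g • z) ^ f = 1 := by
        rw [← smul_pow', hz1, smul_one]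
      have h6 := lram_root hf hp hpf hpQ hz1 hw1 (hgx z)
      have h7 := congrArg (fun y : 𝓞 E => (y : E)) h6
      exact h7
  apply Subtype.ext
  rw [key a.1 a.2, key b.1 b.2]

end Pool.Agent.CMG
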