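import Mathlib
import Pool.Agent.CMG.LEvenCoeff
import Pool.Agent.CMG.LEvenDeriv
import Pool.Agent.CMG.LRam
import Pool.Agent.StarkRQ.Cyclo
import Pool.Agent.StarkRQ.Final

/-!
# double zero at 0 of zeta(s,sigma)+zeta(s,R sigma)

`ZData.commutator`: cases `g, g'` in `A ∩ B`, `A ∖ B`, `B ∖ A`, outside `A ∪ B` (such an element is a
product of one of `A` and one of `B`); `z` is central of order `≤ 2`.
`exists_even_cont`: `E = CyclotomicField f M` (Galois over `ℚ` by `isGalois_cyclotomic`, abelian over `K` by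
`isAbelianGalois_cyclotomic`, `Algebra K E`, `Algebra H E` through `M`), `ζ ∈ E` a primitive `f`-th root of
unity, `ι' : E → ℂ` extending `ι`, `c'` complex conjugation of `E` (`exists_cc`): it fixes `H`, `c' ζ = ζ⁻¹`.
`z' = g' h' g'⁻¹ h'⁻¹` for lifts `g', h'` of the `g, h` of `hz'`: restricts to `z`, fixes `ζ`. If `γ ∈ Gal(E/ℚ)`
fixes `ζ`, then `γ` fixes every `x ∈ M` with `hab` (`ι' (γ x) = ι' x` because `x ∈ ℚ(ζ)` in `E`), so `γ|M` is in
the fixing group of the field fixed by all commutators (= the commutator subgroup, which is `{1, z}` by `hz`;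
Galois correspondence), hence `γ|M ∈ {1, z}` and `γ ∈ {1, z'}` (`E = M(ζ)`). `κ` from `exists_kappa`
(`StarkRQ/Chars.lean`, `chi_surjective`), `B = fixG K E`; `κ(-1) = κ(χ c') = 1` as `c' ∈ fixG K E` (`K` real).
Apply `zcoeff_even` and `even_cont` for `E` (`hram` from `ram_cyclotomic`); `zcoeff N = zcoeff f` since `N` and
`f` have the same prime divisors (`Nat.Coprime` depends only on these). Scale by `m`.
-/

set_option autoImplicit false

noncomputable section

open NumberField Module Pool.Agent.StarkRQ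

namespace Pool.Agent.CMG

/-- commutators in the situation of `ZData` -/
theorem ZData.commutator {G : Type} [Group G] {A B : Subgroup G} {z : G} (hA : A.index = 2)
    (hB : B.index = 2) (hAc : ∀ a ∈ A, ∀ a' ∈ A, a * a' = a' * a)
    (hBc : ∀ a ∈ B, ∀ a' ∈ B, a * a' = a' * a) (h : ZData A B z) (g g' : G) :
    g * g' * g⁻¹ * g'⁻¹ = 1 ∨ g * g' * g⁻¹ * g'⁻¹ = z := by
  have hzinv : z⁻¹ = z := inv_eq_of_mul_eq_one_right h.sq
  have hzc := h.central z h.mem_A h.mem_B
  -- commuting elements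
  have hcomm : ∀ x y : G, x * y = y * x → x * y * x⁻¹ * y⁻¹ = 1 := by
    intro x y hxy
    rw [hxy]
    group
  -- `y x y⁻¹ = z x` gives `[x, y] = z`
  have h1 : ∀ x y : G, y * x * y⁻¹ = z * x → x * y * x⁻¹ * y⁻¹ = z := by
    intro x y hxy
    have h2 : x * y * x⁻¹ * y⁻¹ = x * (y * x * y⁻¹)⁻¹ := by group
    rw [h2, hxy, mul_inv_rev, mul_inv_cancel_left, hzinv]
  have h1' : ∀ x y : G, x * y * x⁻¹ = z * y → x * y * x⁻¹ * y⁻¹ = z := by
    intro x y hxy
    rw [hxy, mul_inv_cancel_right]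
  by_cases hgA : g ∈ A
  · by_cases hgB : g ∈ B
    · exact Or.inl (hcomm _ _ (h.central g hgA hgB g'))
    · by_cases hgA' : g' ∈ A
      · exact Or.inl (hcomm _ _ (hAc g hgA g' hgA'))
      · exact Or.inr (h1 _ _ (h.conjA g hgA hgB g' hgA'))
  · by_cases hgB : g ∈ B
    · by_cases hgB' : g' ∈ B
      · exact Or.inl (hcomm _ _ (hBc g hgB g' hgB'))
      · exact Or.inr (h1 _ _ (h.conjB g hgB hgA g' hgB'))
    · by_cases hgA' : g' ∈ A
      · by_cases hgB' : g' ∈ B
        · exact Or.inl (hcomm _ _ (h.central g' hgA' hgB' g).symm)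
        · exact Or.inr (h1' _ _ (h.conjA g' hgA' hgB' g hgA))
      · by_cases hgB' : g' ∈ B
        · exact Or.inr (h1' _ _ (h.conjB g' hgB' hgA' g hgB))
        · left
          have hcA : g⁻¹ * g' ∈ A := by
            rw [Subgroup.mul_mem_iff_of_index_two hA]
            simp [hgA, hgA']
          have hcB : g⁻¹ * g' ∈ B := by
            rw [Subgroup.mul_mem_iff_of_index_two hB]
            simp [hgB, hgB']
          have h2 := h.central _ hcA hcB g
          apply hcomm
          calc g * g' = g * (g * (g⁻¹ * g')) := by group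
            _ = g * ((g⁻¹ * g') * g) := by rw [h2]
            _ = g' * g := by group

/-- The Galois correspondence for the commutator subgroup. -/
private lemma LTower_fixed {M : Type} [Field M] [NumberField M] [IsGalois ℚ M] {z : Gal(M/ℚ)}
    (hzz : z * z = 1)
    (hz : ∀ g h : Gal(M/ℚ), g * h * g⁻¹ * h⁻¹ = 1 ∨ g * h * g⁻¹ * h⁻¹ = z) (g : Gal(M/ℚ))
    (hg : ∀ x : M, (∀ σ τ : Gal(M/ℚ), σ (τ x) = τ (σ x)) → g x = x) : g = 1 ∨ g = z := by
  let C : Subgroup Gal(M/ℚ) :=
    { carrier := {g | g = 1 ∨ g = z}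
      mul_mem' := by
        rintro a b (rfl | rfl) (rfl | rfl)
        · left; simp
        · right; simp
        · right; simp
        · left; exact hzz
      one_mem' := Or.inl rfl
      inv_mem' := by
        rintro a (rfl | rfl)
        · left; simp
        · right; exact inv_eq_of_mul_eq_one_right hzz }
  have hmem : g ∈ C := by
    rw [← IntermediateField.fixingSubgroup_fixedField C, IntermediateField.mem_fixingSubgroup_iff]
    intro x hx
    apply hg
    have hx' : ∀ c ∈ C, c x = x := by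
      intro c hc
      exact hx ⟨c, hc⟩
    intro σ τ
    have hc : σ⁻¹ * τ⁻¹ * σ * τ ∈ C := by
      have := hz σ⁻¹ τ⁻¹
      rw [inv_inv, inv_inv] at this
      exact this
    have h1 := hx' _ hc
    have h2 : σ (τ x) = (τ * σ) ((σ⁻¹ * τ⁻¹ * σ * τ) x) := by
      change (σ * τ) x = ((τ * σ) * (σ⁻¹ * τ⁻¹ * σ * τ)) x
      congr 1
      group
    rw [h2, h1]
    rfl
  exact hmem

/-- the statement, for an auxiliary field `E = M(ζ_f)` -/
private theorem LTower_aux {K H M E : Type} [Field K] [NumberField K] [Field H] [NumberField H]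
    [Field M] [NumberField M] [Algebra K M] [Algebra K H] [Algebra H M] [IsScalarTower K H M]
    [IsGalois ℚ M] [IsTotallyReal K] [IsAbelianGalois K M] (hK : finrank ℚ K = 2) {f : ℕ}
    (hf : 2 < f) [Field E] [NumberField E] [Algebra M E] [IsCyclotomicExtension {f} M E]
    [Algebra H E] [Algebra K E] [IsScalarTower H M E] [IsScalarTower K M E] [IsScalarTower K H E]
    (ι : M →+* ℂ)
    (hH : ∀ y : H, (ι (algebraMap H M y)).im = 0) {N : ℕ} (hN : N ≠ 0)
    (hram : ∀ p : ℕ, p.Prime → (p : ℤ) ∣ discr M → p ∣ N)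
    (hfN : ∀ p : ℕ, p.Prime → (p ∣ f ↔ p ∣ N))
    (hab : ∀ x : M, (∀ σ τ : Gal(M/ℚ), σ (τ x) = τ (σ x)) →
      ι x ∈ IntermediateField.adjoin ℚ {Complex.exp (2 * Real.pi * Complex.I / f)})
    {z : Gal(M/ℚ)} (hz : ∀ g h : Gal(M/ℚ), g * h * g⁻¹ * h⁻¹ = 1 ∨ g * h * g⁻¹ * h⁻¹ = z)
    (hz' : ∃ g h : Gal(M/ℚ), z = g * h * g⁻¹ * h⁻¹)
    {R : Gal(H/K)} (hR : ∀ y : H, z (algebraMap H M y) = algebraMap H M (R y)) (σ : Gal(H/K)) :
    ∃ W : ℂ → ℂ, IsCont (fun n => (zcoeff N σ n : ℂ) + zcoeff N (R * σ) n) W ∧ W 0 = 0 ∧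
      deriv W 0 = 0 := by
  have hf0 : f ≠ 0 := by omega
  have : NeZero f := ⟨hf0⟩
  -- the order of `z`
  have hzz : z * z = 1 := by
    obtain ⟨g, h, hgh⟩ := id hz'
    have h1 : z⁻¹ = h * g * h⁻¹ * g⁻¹ := by
      rw [hgh]
      group
    rcases hz h g with h2 | h2
    · rw [← h1] at h2
      have : z = 1 := inv_eq_one.1 h2
      rw [this, one_mul]
    · rw [← h1] at h2
      nth_rw 1 [← h2]
      rw [inv_mul_cancel]
  have : IsGalois ℚ E := isGalois_cyclotomic (M := M) hf0
  have : IsAbelianGalois K E := isAbelianGalois_cyclotomic K M f E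
  have : FiniteDimensional M E := IsCyclotomicExtension.finiteDimensional {f} M E
  obtain ⟨ζ, hζ⟩ := IsCyclotomicExtension.exists_isPrimitiveRoot M E (Set.mem_singleton f) hf0
  have htop := IsCyclotomicExtension.adjoin_primitive_root_eq_top (A := M) (B := E) hζ
  -- the embedding
  let ι' : E →+* ℂ := ComplexEmbedding.lift E ι
  have hι' : ∀ x : M, ι' (algebraMap M E x) = ι x := fun x =>
    ComplexEmbedding.lift_algebraMap_apply E ι x
  obtain ⟨c, hc⟩ := exists_cc ι'
  -- automorphisms of `E` that are trivial on `M` and on `ζ`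
  have hext : ∀ γ : Gal(E/ℚ), (∀ x : M, γ (algebraMap M E x) = algebraMap M E x) → γ ζ = ζ →
      γ = 1 := by
    intro γ h1 h2
    let t : E ≃ₐ[M] E := AlgEquiv.ofRingEquiv (f := γ.toRingEquiv) h1
    have h9 : (t : E →ₐ[M] E) = AlgHom.id M E := by
      apply AlgHom.ext_of_adjoin_eq_top htop
      intro x hx
      rw [Set.mem_singleton_iff] at hx
      rw [hx]
      exact h2
    ext x
    exact DFunLike.congr_fun h9 x
  -- restriction to `M`
  have hres : ∀ (γ : Gal(E/ℚ)) (x : M),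
      algebraMap M E (AlgEquiv.restrictNormalHom M γ x) = γ (algebraMap M E x) :=
    fun γ x => AlgEquiv.restrictNormal_commutes γ M x
  have hsurj := AlgEquiv.restrictNormalHom_surjective (F := ℚ) (K₁ := M) E
  obtain ⟨g, h, hgh⟩ := id hz'
  obtain ⟨g₁, hg₁⟩ := hsurj g
  obtain ⟨h₁, hh₁⟩ := hsurj h
  let z' : Gal(E/ℚ) := g₁ * h₁ * g₁⁻¹ * h₁⁻¹
  have hz'res : AlgEquiv.restrictNormalHom M z' = z := by
    simp only [z', map_mul, map_inv, hg₁, hh₁, hgh]
  have hz'ζ : z' ζ = ζ := commutator_fixes (w := f) g₁ h₁ ζ hζ.pow_eq_one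
  have hz'z' : z' * z' = 1 := by
    apply hext
    · intro x
      change z' (z' (algebraMap M E x)) = _
      rw [← hres, ← hres, hz'res]
      congr 1
      exact DFunLike.congr_fun hzz x
    · change z' (z' ζ) = ζ
      rw [hz'ζ, hz'ζ]
  -- elements of `M` in `ℚ(ζ)`
  have hprim' : IsPrimitiveRoot (ι' ζ) f := hζ.map_of_injective ι'.injective
  have hQ : ∀ x : M, (∀ σ τ : Gal(M/ℚ), σ (τ x) = τ (σ x)) →
      algebraMap M E x ∈ IntermediateField.adjoin ℚ {ζ} := by
    intro x hx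
    have h1 := hab x hx
    have hexp : IsPrimitiveRoot (Complex.exp (2 * Real.pi * Complex.I / f)) f :=
      Complex.isPrimitiveRoot_exp f hf0
    obtain ⟨i, -, hi⟩ := hprim'.eq_pow_of_pow_eq_one hexp.pow_eq_one
    let ι'' : E →ₐ[ℚ] ℂ := ι'.toRatAlgHom
    have h2 : IntermediateField.adjoin ℚ {Complex.exp (2 * Real.pi * Complex.I / f)} ≤
        (IntermediateField.adjoin ℚ {ζ}).map ι'' := by
      rw [IntermediateField.adjoin_simple_le_iff]
      refine ⟨ζ ^ i, pow_mem (IntermediateField.mem_adjoin_simple_self ℚ ζ) i, ?_⟩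
      change ι' (ζ ^ i) = _
      rw [map_pow, hi]
    obtain ⟨y, hy, hyx⟩ := h2 h1
    have h3 : y = algebraMap M E x := by
      apply ι'.injective
      rw [hι']
      exact hyx
    rw [← h3]
    exact hy
  have hfix : ∀ γ : Gal(E/ℚ), γ ζ = ζ ↔ γ = 1 ∨ γ = z' := by
    intro γ
    constructor
    · intro hγ
      have hfixQ : ∀ y ∈ IntermediateField.adjoin ℚ {ζ}, γ y = y := by
        intro y hy
        have h1 : IntermediateField.adjoin ℚ {ζ} ≤
            IntermediateField.fixedField (Subgroup.zpowers γ) := by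
          rw [IntermediateField.adjoin_simple_le_iff]
          rintro ⟨c, hc⟩
          obtain ⟨k, rfl⟩ := Subgroup.mem_zpowers_iff.1 hc
          change (γ ^ k) ζ = ζ
          have h2 : γ ∈ MulAction.stabilizer Gal(E/ℚ) ζ := hγ
          exact (MulAction.stabilizer Gal(E/ℚ) ζ).zpow_mem h2 k
        exact h1 hy ⟨γ, Subgroup.mem_zpowers γ⟩
      have h1 := LTower_fixed hzz hz (AlgEquiv.restrictNormalHom M γ) (fun x hx => by
        apply (algebraMap M E).injective
        rw [hres]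
        exact hfixQ _ (hQ x hx))
      rcases h1 with h1 | h1
      · left
        apply hext _ _ hγ
        intro x
        rw [← hres, h1]
        rfl
      · right
        have h2 : γ * z' = 1 := by
          apply hext
          · intro x
            change γ (z' (algebraMap M E x)) = _
            rw [← hres, ← hres, hz'res, h1]
            congr 1
            exact DFunLike.congr_fun hzz x
          · change γ (z' ζ) = ζ
            rw [hz'ζ, hγ]
        have h3 : γ = z'⁻¹ := eq_inv_of_mul_eq_one_left h2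
        rw [h3]
        exact inv_eq_of_mul_eq_one_right hz'z'
    · rintro (rfl | rfl)
      · rfl
      · exact hz'ζ
  -- complex conjugation
  have hcζ : c ζ = ζ⁻¹ := by
    apply ι'.injective
    rw [hc, map_inv₀]
    exact (Complex.inv_eq_conj (hprim'.norm'_eq_one hf0)).symm
  have hcH : ∀ y : H, c (algebraMap H E y) = algebraMap H E y := by
    intro y
    apply ι'.injective
    rw [hc]
    rw [IsScalarTower.algebraMap_apply H M E, hι']
    exact Complex.conj_eq_iff_im.2 (hH y)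
  have hcK : c ∈ fixG K E := cc_mem_fixG hc
  have hz'H : ∀ y : H, z' (algebraMap H E y) = algebraMap H E (R y) := by
    intro y
    rw [IsScalarTower.algebraMap_apply H M E, IsScalarTower.algebraMap_apply H M E (R y), ← hres,
      hz'res, hR]
  have hz'K : z' ∈ fixG K E := by
    rw [mem_fixG]
    intro x
    rw [IsScalarTower.algebraMap_apply K H E, hz'H, AlgEquiv.commutes]
  -- the character `κ`
  obtain ⟨κ, hκ⟩ := exists_kappa (hζ.autToPow ℚ) (chi_surjective hζ) (fixG K E)
    (fixG_index (M := E) hK) (by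
      intro γ hγ
      rw [MonoidHom.mem_ker] at hγ
      have h1 := hζ.autToPow_spec ℚ γ
      rw [hγ] at h1
      have : Fact (1 < f) := ⟨by omega⟩
      rw [Units.val_one, ZMod.val_one, pow_one] at h1
      rcases (hfix γ).1 h1.symm with rfl | rfl
      · exact Subgroup.one_mem _
      · exact hz'K)
  have hχc : ((hζ.autToPow ℚ c : (ZMod f)ˣ) : ZMod f) = -1 := by
    have h1 := hζ.autToPow_spec ℚ c
    rw [hcζ] at h1
    have hone : NeZero (1 : ZMod f) := by
      have : Fact (1 < f) := ⟨by omega⟩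
      exact ⟨one_ne_zero⟩
    have h2 : ζ ^ ((-1 : ZMod f)).val = ζ⁻¹ := by
      have : Fact (1 < f) := ⟨by omega⟩
      rw [ZMod.val_neg_of_ne_zero, ZMod.val_one]
      apply eq_inv_of_mul_eq_one_left
      rw [← pow_succ, Nat.sub_add_cancel (by omega), hζ.pow_eq_one]
    rw [← h2] at h1
    exact ZMod.val_injective f (hζ.pow_inj (ZMod.val_lt _) (ZMod.val_lt _) h1)
  have heven : κ (-1) = 1 := by
    rw [← hχc]
    exact (hκ c).2 hcK
  -- ramification
  have hramE : ∀ p : ℕ, p.Prime → (p : ℤ) ∣ discr E → p ∣ f := by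
    intro p hp hpE
    rcases ram_cyclotomic (M := M) hf0 hp hpE with h1 | h1
    · exact (hfN p hp).2 (hram p hp h1)
    · exact h1
  obtain ⟨m, U, hU, hcoeff⟩ := zcoeff_even (M := E) hK hramE hζ κ hκ hz'z' hfix hcζ hcH hz'H σ
  obtain ⟨W, hW, hW0, hW'⟩ := even_cont hf κ heven U hU
  -- `zcoeff N = zcoeff f`
  have hcop : ∀ n : ℕ, n.Coprime N ↔ n.Coprime f := by
    intro n
    have h1 : ∀ a : ℕ, n.Coprime a ↔ ∀ p : ℕ, p.Prime → ¬ (p ∣ n ∧ p ∣ a) := by
      intro a
      rw [Nat.coprime_iff_gcd_eq_one, Nat.eq_one_iff_not_exists_prime_dvd]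
      simp only [Nat.dvd_gcd_iff]
    rw [h1, h1]
    constructor
    · intro h2 p hp h3
      exact h2 p hp ⟨h3.1, (hfN p hp).1 h3.2⟩
    · intro h2 p hp h3
      exact h2 p hp ⟨h3.1, (hfN p hp).2 h3.2⟩
  have hzc : ∀ (τ : Gal(H/K)) (n : ℕ), zcoeff N τ n = zcoeff f τ n := by
    intro τ n
    unfold zcoeff
    simp only [hcop]
  refine ⟨fun s => (m : ℂ) * W s, ⟨?_, ?_, ?_⟩, ?_, ?_⟩
  · exact hW.diff.const_mul (m : ℂ)
  · intro s hs
    have h1 := (hW.summable s hs).smul (m : ℂ)
    refine (LSeriesSummable_congr s fun {n} hn => ?_).1 h1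
    rw [hzc, hzc]
    have h2 := congrArg (fun t : ℤ => (t : ℂ)) (hcoeff n hn)
    simp only [Pi.smul_apply, smul_eq_mul]
    push_cast at h2 ⊢
    exact h2.symm
  · intro s hs
    rw [hW.eq s hs]
    have h1 := LSeries_smul (fun n => ((∑ u ∈ U, if (n : ZMod f) = (u : ZMod f) then
      ∑ d ∈ n.divisors, κ (d : ZMod f) else 0 : ℤ) : ℂ)) (m : ℂ) s
    rw [← h1]
    refine LSeries_congr (fun {n} hn => ?_) s
    rw [hzc, hzc]
    have h2 := congrArg (fun t : ℤ => (t : ℂ)) (hcoeff n hn)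
    simp only [Pi.smul_apply, smul_eq_mul]
    push_cast at h2 ⊢
    exact h2.symm
  · simp only [hW0, mul_zero]
  · have h1 : HasDerivAt (fun s => (m : ℂ) * W s) ((m : ℂ) * deriv W 0) 0 :=
      hW.differentiableAt.hasDerivAt.const_mul (m : ℂ)
    rw [h1.deriv, hW', mul_zero]

/-- `ζ(s, σ) + ζ(s, R σ)` has a double zero at `0` -/
theorem exists_even_cont {K H M : Type} [Field K] [NumberField K] [Field H] [NumberField H]
    [Field M] [NumberField M] [Algebra K M] [Algebra K H] [Algebra H M] [IsScalarTower K H M]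
    [IsGalois ℚ M] [IsTotallyReal K] [IsAbelianGalois K M] (hK : finrank ℚ K = 2) (ι : M →+* ℂ)
    (hH : ∀ y : H, (ι (algebraMap H M y)).im = 0) {N : ℕ} (hN : N ≠ 0)
    (hram : ∀ p : ℕ, p.Prime → (p : ℤ) ∣ discr M → p ∣ N) {f : ℕ} (hf : 2 < f)
    (hfN : ∀ p : ℕ, p.Prime → (p ∣ f ↔ p ∣ N))
    (hab : ∀ x : M, (∀ σ τ : Gal(M/ℚ), σ (τ x) = τ (σ x)) →
      ι x ∈ IntermediateField.adjoin ℚ {Complex.exp (2 * Real.pi * Complex.I / f)})
    {z : Gal(M/ℚ)} (hz : ∀ g h : Gal(M/ℚ), g * h * g⁻¹ * h⁻¹ = 1 ∨ g * h * g⁻¹ * h⁻¹ = z)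
    (hz' : ∃ g h : Gal(M/ℚ), z = g * h * g⁻¹ * h⁻¹)
    {R : Gal(H/K)} (hR : ∀ y : H, z (algebraMap H M y) = algebraMap H M (R y)) (σ : Gal(H/K)) :
    ∃ W : ℂ → ℂ, IsCont (fun n => (zcoeff N σ n : ℂ) + zcoeff N (R * σ) n) W ∧ W 0 = 0 ∧
      deriv W 0 = 0 := by
  have hf0 : f ≠ 0 := by omega
  have : NeZero f := ⟨hf0⟩
  have : IsScalarTower K H (CyclotomicField f M) := IsScalarTower.of_algebraMap_eq fun x => by
    rw [IsScalarTower.algebraMap_apply K M (CyclotomicField f M),
      IsScalarTower.algebraMap_apply H M (CyclotomicField f M),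
      ← IsScalarTower.algebraMap_apply K H M]
  exact LTower_aux (E := CyclotomicField f M) hK hf ι hH hN hram hfN hab hz hz' hR σ

end Pool.Agent.CMG
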