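import Mathlib
import Pool.Agent.CMG.LTower
import Pool.Agent.CMG.LOdd
import Pool.Agent.CMG.LAbCyc

/-!
# Question 1 for the abelian extensions of Q(i)
-/

set_option autoImplicit false

noncomputable section

open NumberField Module Pool.Agent.StarkRQ

namespace Pool.Agent.CMG

/-- half the sum of the continuations of `a + b` and `a - b` -/
theorem isPartialZeta_half {K H : Type} [Field K] [NumberField K] [Field H] [NumberField H]
    [Algebra K H] {N : ℕ} {σ σ' : Gal(H/K)} {W W' : ℂ → ℂ}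
    (h : IsCont (fun n => (zcoeff N σ n : ℂ) + zcoeff N σ' n) W)
    (h' : IsCont (fun n => (zcoeff N σ n : ℂ) - zcoeff N σ' n) W') :
    IsPartialZeta N σ fun s => (1 / 2 : ℂ) * (W s + W' s) := by
  have h1 := h.add h'
  refine ⟨h1.diff.const_mul (1 / 2 : ℂ), fun s hs => ?_⟩
  have h2 := h1.eq s hs
  have h3 : ((fun n => (zcoeff N σ n : ℂ) + zcoeff N σ' n) +
      fun n => (zcoeff N σ n : ℂ) - zcoeff N σ' n) = (2 : ℂ) • fun n => (zcoeff N σ n : ℂ) := by
    ext n
    simp only [Pi.add_apply, Pi.smul_apply, smul_eq_mul]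
    ring
  rw [h3, LSeries_smul] at h2
  simp only at h2 ⊢
  rw [h2, ← mul_assoc]
  norm_num

/-- there is an embedding of `H` which differs from the given one on the real quadratic field `K` -/
theorem exists_other {K H : Type} [Field K] [NumberField K] [Field H] [NumberField H]
    [Algebra K H] (hK : finrank ℚ K = 2) (i : K →+* ℂ) :
    ∃ g : H →+* ℂ, ∃ x : K, g (algebraMap K H x) ≠ i x := by
  have h1 : Fintype.card (K →+* ℂ) = 2 := by rw [NumberField.Embeddings.card, hK]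
  have : Nontrivial (K →+* ℂ) := Fintype.one_lt_card_iff_nontrivial.1 (by rw [h1]; norm_num)
  obtain ⟨g, hg⟩ := exists_ne i
  let _ : Algebra K ℂ := g.toAlgebra
  have : Algebra.IsAlgebraic K H := Algebra.IsAlgebraic.of_finite K H
  refine ⟨(IsAlgClosed.lift : H →ₐ[K] ℂ).toRingHom, ?_⟩
  by_contra hc
  push Not at hc
  apply hg
  ext x
  rw [← hc x]
  exact ((IsAlgClosed.lift : H →ₐ[K] ℂ).commutes x).symm

/-- Question 1 (with Tate's condition) for the real subextensions of `M ⊆ ℚ(i, h(1/N))` -/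
theorem gaussian_lit {M K H : Type} [Field M] [NumberField M] [IsGalois ℚ M]
    [Field K] [NumberField K] [Field H] [NumberField H]
    [Algebra K M] [Algebra K H] [Algebra H M] [IsScalarTower K H M]
    [IsTotallyReal K] (hK : finrank ℚ K = 2) [IsAbelianGalois K M] (ι : M →+* ℂ)
    (hi : ∃ j : M, ι j = Complex.I) (hH : ∀ y : H, (ι (algebraMap H M y)).im = 0)
    (N : ℕ) (hN : N ≠ 0) (h4 : 4 ∣ N)
    (hM : ∀ x : M, ι x ∈ IntermediateField.adjoin ℚ {Complex.I, hG (1 / N)})
    (hram : ∀ p : ℕ, p.Prime → (p : ℤ) ∣ discr M → p ∣ N) :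
    ∃ G : Gal(H/K) → ℂ → ℂ, (∀ σ, IsPartialZeta N σ (G σ)) ∧
    ∃ ε : Gal(H/K) → (𝓞 H)ˣ,
      (∀ σ, ι (algebraMap H M (ε σ : 𝓞 H)) = Complex.exp (-2 * deriv (G σ) 0)) ∧
      (∀ ρ σ, ρ ((ε σ : 𝓞 H) : H) = ((ε (ρ * σ) : 𝓞 H) : H)) ∧
      (∀ g : H →+* ℂ, (∃ x : K, g (algebraMap K H x) ≠ ι (algebraMap K M x)) →
        ∀ σ, ‖g ((ε σ : 𝓞 H) : H)‖ = 1) ∧
      (∃ (E : Type) (_ : Field E) (_ : Algebra K E) (_ : Algebra H E) (_ : IsScalarTower K H E),
        IsAbelianGalois K E ∧ ∀ σ, ∃ y : E, y ^ 2 = algebraMap H E ((ε σ : 𝓞 H) : H)) ∧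
      ∃ R : Gal(H/K), (∀ σ, deriv (G (R * σ)) 0 = -deriv (G σ) 0) ∧
        ∀ g : H →+* ℂ, (∃ x : K, g (algebraMap K H x) ≠ ι (algebraMap K M x)) →
          ∀ y, g (R y) = starRingEnd ℂ (g y) := by
  have hab := fun x hx => ab_mem_cyclotomic ι hi hN h4 hM hram (x := x) hx
  obtain ⟨j, hj⟩ := hi
  have hj2 : j ^ 2 = -1 := by
    apply ι.injective
    rw [map_pow, hj, Complex.I_sq, map_neg, map_one]
  let k := IntermediateField.adjoin ℚ {j}
  let _ : Algebra k ℂ := (ι.comp (algebraMap k M)).toAlgebra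
  have hint : IsIntegral ℚ j := IsIntegral.of_finite ℚ j
  have hk : finrank ℚ k = 2 := by
    rw [IntermediateField.adjoin.finrank hint]
    have h1 : minpoly ℚ j = Polynomial.X ^ 2 + 1 := by
      refine (minpoly.eq_of_irreducible_of_monic ?_ ?_ ?_).symm
      · have h2 : (Polynomial.X ^ 2 + 1 : Polynomial ℚ).natDegree = 2 := by compute_degree!
        refine (Polynomial.Monic.irreducible_iff_roots_eq_zero_of_degree_le_three (by monicity!)
          (by rw [h2]) (by rw [h2]; norm_num)).2 ?_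
        refine Multiset.eq_zero_of_forall_notMem fun x hx => ?_
        have h3 := (Polynomial.mem_roots'.1 hx).2
        simp only [Polynomial.IsRoot.def, Polynomial.eval_add, Polynomial.eval_pow,
          Polynomial.eval_X, Polynomial.eval_one] at h3
        nlinarith [sq_nonneg x]
      · simp [hj2]
      · monicity!
    rw [h1]
    compute_degree!
  have hI : ∃ j' : k, algebraMap k ℂ j' = Complex.I :=
    ⟨⟨j, IntermediateField.mem_adjoin_simple_self ℚ j⟩, hj⟩
  obtain ⟨D, hD1, hD2, hD3⟩ := exists_ellData hk hI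
  have hDN : D.N₀ ∣ N := by rwa [hD1]
  have hpt : pt (1 : 𝓞 k) N = 1 / (N : ℂ) := by
    simp [pt]
  have hM' : ∀ x : M, ι x ∈ IntermediateField.adjoin k {D.h (pt (1 : 𝓞 k) N)} := by
    intro x
    rw [hD3, hpt]
    have h1 : IntermediateField.adjoin ℚ {Complex.I, CMG.hG (1 / N)} ≤
        (IntermediateField.adjoin k {CMG.hG (1 / N)}).restrictScalars ℚ := by
      rw [IntermediateField.adjoin_le_iff]
      rintro y (rfl | rfl)
      · obtain ⟨j', hj'⟩ := hI
        rw [← hj']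
        exact (IntermediateField.adjoin k {CMG.hG (1 / N)}).algebraMap_mem j'
      · exact IntermediateField.mem_adjoin_simple_self k _
    exact h1 (hM x)
  have := isAbelian_of_mem D hDN hN ι (fun x => rfl) hM'
  have : IsTotallyComplex k := D.isComplex
  obtain ⟨η, hη, -⟩ := exists_stark D hDN hN ι (fun x => rfl) hM' hram
  -- continuation
  obtain ⟨z, R, hzR, -, hz, hz', hRg, hodd⟩ := exists_odd_cont hK hk ι hH N hN hram fun t => by
    obtain ⟨Z, hZ, -⟩ := hη.deriv_zeta t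
    exact ⟨Z, hZ⟩
  have h2N : 2 ∣ N := (by norm_num : (2 : ℕ) ∣ 4).trans h4
  have heven := exists_even_cont hK ι hH hN hram (f := 8 * N) (by omega) (fun p hp => by
    refine ⟨fun h => ?_, fun h => h.mul_left 8⟩
    rcases hp.dvd_mul.1 h with h | h
    · have h8 : p ∣ 2 ^ 3 := h
      rw [(Nat.prime_dvd_prime_iff_eq hp Nat.prime_two).1 (hp.dvd_of_dvd_pow h8)]
      exact h2N
    · exact h) hab hz hz' hzR
  choose Wm hWm using hodd
  choose Wp hWp hWp0 hWp1 using heven
  let G : Gal(H/K) → ℂ → ℂ := fun σ s => (1 / 2 : ℂ) * (Wp σ s + Wm σ s)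
  have hG : ∀ σ, IsPartialZeta N σ (G σ) := fun σ => isPartialZeta_half (hWp σ) (hWm σ)
  obtain ⟨R', ε, h1, h2, h3, h4'⟩ := shintani hK hk ι hH N hN hram η hη G hG
  have hRR : R' = R := by
    obtain ⟨g, hg⟩ := exists_other (H := H) hK (ι.comp (algebraMap K M))
    ext y
    apply g.injective
    rw [(h4' g hg).1, hRg g hg]
  rw [hRR] at h1
  have hder : ∀ σ, deriv (G (R * σ)) 0 = -deriv (G σ) 0 := by
    intro σ
    have e1 := (hG σ).isCont.add (hG (R * σ)).isCont
    have e2 := e1.deriv_eq (hWp σ) (fun n _ => rfl)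
    rw [(hG σ).isCont.deriv_add (hG (R * σ)).isCont, hWp1] at e2
    exact eq_neg_of_add_eq_zero_right e2
  refine ⟨G, hG, ε, fun σ => ?_, h2, fun g hg => (h4' g hg).2, h3, R, hder, hRg⟩
  rw [h1, hder]
  congr 1
  ring

end Pool.Agent.CMG
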