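import Pool.Agent.CMG.SDefs

/-!
# S3: the model field

`F = IntermediateField.adjoin k {D.h (pt 1 N)}` as a type, `κ = F.val`, `θ a` is `h (pt a N)` for `a`
prime to `N` and `0` otherwise, same for `ψ` (`h_mem`, `Ψ_mem`); `act` is the field `D.act`; the
`M`-algebra structure is given by `ι`. `NumberField F`: `D.finite` and `k` is a number field.
-/

set_option autoImplicit false

noncomputable section

open NumberField

namespace Pool.Agent.CMG

/-- the model -/
private def mkModel {k : Type} [Field k] [NumberField k] [Algebra k ℂ] (D : EllData k) {N : ℕ}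
    (hN : D.N₀ ∣ N) (hN0 : N ≠ 0)
    [NumberField (IntermediateField.adjoin k {D.h (pt (1 : 𝓞 k) N)})] :
    Model D N (IntermediateField.adjoin k {D.h (pt (1 : 𝓞 k) N)}) := by
  classical
  exact
  { κ := (IntermediateField.adjoin k {D.h (pt (1 : 𝓞 k) N)}).val
    θ := fun a => if ha : IsCoprime a (N : 𝓞 k) then ⟨D.h (pt a N), D.h_mem N a hN hN0 ha⟩ else 0
    ψ := fun α a => if h : IsCoprime α ((D.m * N : ℕ) : 𝓞 k) ∧ IsCoprime a (N : 𝓞 k) then
      ⟨D.Ψ α (pt a N), D.Ψ_mem N α a hN hN0 h.1 h.2⟩ else 0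
    κθ := by
      intro a ha
      simp [ha]
    κψ := by
      intro α a hα ha
      rw [dif_pos ⟨hα, ha⟩]
      rfl
    gen := by
      have h1 : IsCoprime (1 : 𝓞 k) (N : 𝓞 k) := isCoprime_one_left
      rw [dif_pos h1]
      apply IntermediateField.map_injective
        (IntermediateField.adjoin k {D.h (pt (1 : 𝓞 k) N)}).val
      rw [IntermediateField.adjoin_map, Set.image_singleton, ← AlgHom.fieldRange_eq_map,
        IntermediateField.fieldRange_val]
      rfl
    act := by
      intro τ
      obtain ⟨c, hc, h1, h2⟩ := D.act N hN hN0 τ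
      refine ⟨c, hc, fun a ha => ?_, fun α a hα ha => ?_⟩
      · have hca : IsCoprime (c * a) (N : 𝓞 k) := hc.mul_left ha
        rw [dif_pos ha, dif_pos hca]
        exact Subtype.ext (h1 a ha)
      · have hca : IsCoprime (c * a) (N : 𝓞 k) := hc.mul_left ha
        rw [dif_pos ⟨hα, ha⟩, dif_pos ⟨hα, hca⟩]
        exact Subtype.ext (h2 α a hα ha) }

/-- S3 -/
theorem exists_model {k : Type} [Field k] [NumberField k] [Algebra k ℂ] (D : EllData k) {N : ℕ}
    (hN : D.N₀ ∣ N) (hN0 : N ≠ 0) {M : Type} [Field M] [NumberField M] [Algebra k M] (ι : M →+* ℂ)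
    (hι : ∀ x : k, ι (algebraMap k M x) = algebraMap k ℂ x)
    (hM : ∀ x : M, ι x ∈ IntermediateField.adjoin k {D.h (pt (1 : 𝓞 k) N)}) :
    ∃ (F : Type) (_ : Field F) (_ : NumberField F) (_ : Algebra k F) (_ : Algebra M F)
      (_ : IsScalarTower k M F) (_ : IsGalois k F) (A : Model D N F),
      ∀ x : M, A.κ (algebraMap M F x) = ι x := by
  haveI hfin := D.finite N hN hN0
  haveI hNF : NumberField (IntermediateField.adjoin k {D.h (pt (1 : 𝓞 k) N)}) :=
    NumberField.of_module_finite k _
  let ι' : M →+* IntermediateField.adjoin k {D.h (pt (1 : 𝓞 k) N)} :=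
    { toFun := fun x => ⟨ι x, hM x⟩
      map_one' := Subtype.ext (map_one ι)
      map_zero' := Subtype.ext (map_zero ι)
      map_mul' := fun x y => Subtype.ext (map_mul ι x y)
      map_add' := fun x y => Subtype.ext (map_add ι x y) }
  letI alg : Algebra M (IntermediateField.adjoin k {D.h (pt (1 : 𝓞 k) N)}) := ι'.toAlgebra
  have ist : IsScalarTower k M (IntermediateField.adjoin k {D.h (pt (1 : 𝓞 k) N)}) :=
    IsScalarTower.of_algebraMap_eq fun x => Subtype.ext (hι x).symm
  exact ⟨IntermediateField.adjoin k {D.h (pt (1 : 𝓞 k) N)}, inferInstance, hNF, inferInstance,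
    alg, ist, D.isGalois N hN hN0, mkModel D hN hN0, fun x => rfl⟩

end Pool.Agent.CMG
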