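import Pool.Agent.CMG.Interface

/-!
# Stark units from elliptic units: definitions used in the proof
-/

set_option autoImplicit false

noncomputable section

open NumberField

namespace Pool.Agent.CMG

/-- An abstract copy `F` of the field `k(h(1/N))`, with the elements `θ a = h(a/N)` and
`ψ α a = Ψ α (a/N)`. -/
structure Model {k : Type} [Field k] [NumberField k] [Algebra k ℂ] (D : EllData k) (N : ℕ)
    (F : Type) [Field F] [NumberField F] [Algebra k F] where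
  κ : F →ₐ[k] ℂ
  θ : 𝓞 k → F
  ψ : 𝓞 k → 𝓞 k → F
  κθ : ∀ a : 𝓞 k, IsCoprime a (N : 𝓞 k) → κ (θ a) = D.h (pt a N)
  κψ : ∀ α a : 𝓞 k, IsCoprime α ((D.m * N : ℕ) : 𝓞 k) → IsCoprime a (N : 𝓞 k) →
    κ (ψ α a) = D.Ψ α (pt a N)
  gen : IntermediateField.adjoin k {θ 1} = ⊤
  act : ∀ τ : Gal(F/k), ∃ c : 𝓞 k, IsCoprime c (N : 𝓞 k) ∧
    (∀ a : 𝓞 k, IsCoprime a (N : 𝓞 k) → τ (θ a) = θ (c * a)) ∧
    ∀ α a : 𝓞 k, IsCoprime α ((D.m * N : ℕ) : 𝓞 k) → IsCoprime a (N : 𝓞 k) →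
      τ (ψ α a) = ψ α (c * a)

/-- the class of `a` modulo `N`, for `a` prime to `N` -/
def cls {k : Type} [Field k] [NumberField k] (N : ℕ) (a : 𝓞 k) (ha : IsCoprime a (N : 𝓞 k)) :
    (𝓞 k ⧸ Ideal.span {(N : 𝓞 k)})ˣ :=
  (show IsUnit (Ideal.Quotient.mk (Ideal.span {(N : 𝓞 k)}) a) by
    obtain ⟨u, v, h⟩ := ha
    refine IsUnit.of_mul_eq_one (Ideal.Quotient.mk _ u) ?_
    rw [← map_mul, ← map_one (Ideal.Quotient.mk (Ideal.span {(N : 𝓞 k)})), Ideal.Quotient.eq,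
      Ideal.mem_span_singleton]
    exact ⟨-v, by linear_combination h⟩).unit

/-- the class of a unit modulo `N` -/
def ucls {k : Type} [Field k] [NumberField k] (N : ℕ) :
    (𝓞 k)ˣ →* (𝓞 k ⧸ Ideal.span {(N : 𝓞 k)})ˣ :=
  Units.map (Ideal.Quotient.mk (Ideal.span {(N : 𝓞 k)})).toMonoidHom

/-- the restriction of automorphisms -/
abbrev rs (k M F : Type) [Field k] [NumberField k] [Field M] [NumberField M] [Field F]
    [NumberField F] [Algebra k M] [Algebra k F] [Algebra M F] [IsScalarTower k M F]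
    [Normal k M] : Gal(F/k) →* Gal(M/k) :=
  AlgEquiv.restrictNormalHom M

end Pool.Agent.CMG
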