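import Mathlib
import Pool.Agent.CMG.SDefs
import Pool.Agent.CMG.IntVal
import Pool.Agent.CMG.ModelEx

/-!
# k(h(1/N)) is unramified outside N

The inertia groups of `F/k` at the primes which do not divide `N` are trivial, because the reduction is
injective on the points of order `N`.
-/

set_option autoImplicit false

noncomputable section

open NumberField

namespace Pool.Agent.CMG

section model

variable {k : Type} [Field k] [NumberField k] [Algebra k ℂ] (D : EllData k) {N : ℕ}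
  (hN : D.N₀ ∣ N) (hN0 : N ≠ 0)
include hN hN0

variable {F : Type} [Field F] [NumberField F] [Algebra k F] [IsGalois k F] (A : Model D N F)

include A in
/-- the inertia group is trivial -/
theorem inertia_trivial {𝔓 : Ideal (𝓞 F)} (h𝔓 : 𝔓.IsPrime) {π : 𝓞 k} (hπ : Prime π)
    (hπN : IsCoprime π (N : 𝓞 k)) (hπ𝔓 : algebraMap (𝓞 k) (𝓞 F) π ∈ 𝔓)
    {τ : Gal(F/k)} (hτ : ∀ x : 𝓞 F, τ • x - x ∈ 𝔓) : τ = 1 := by
  obtain ⟨V, hV1, hV2, hV3⟩ := exists_valuationSubring (A.κ : F →+* ℂ) 𝔓 h𝔓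
  simp only [RingHom.coe_coe] at hV1 hV2 hV3
  have hone : IsCoprime (1 : 𝓞 k) (N : 𝓞 k) := isCoprime_one_left
  have hvπ : V.valuation (algebraMap k ℂ (π : k)) < 1 := by
    have h2 := (hV2 _).1 hπ𝔓
    have h3 : ((algebraMap (𝓞 k) (𝓞 F) π : 𝓞 F) : F) = algebraMap k F (π : k) := rfl
    rw [h3, AlgHom.commutes] at h2
    exact h2
  obtain ⟨hf1, -⟩ := D.frob N V π 1 hN hN0 hπ hπN hvπ hone
  have hx : A.κ (A.θ 1) ∈ V := by
    rw [A.κθ 1 hone]
    exact hf1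
  obtain ⟨a, b, hb, hab⟩ := hV3 (A.θ 1) hx
  have hle : ∀ y : 𝓞 F, V.valuation (A.κ (y : F)) ≤ 1 := fun y =>
    (ValuationSubring.valuation_le_one_iff V _).2 (hV1 y)
  have hτv : ∀ y : 𝓞 F, V.valuation (A.κ (τ (y : F)) - A.κ (y : F)) < 1 := by
    intro y
    have h1 := (hV2 _).1 (hτ y)
    have h2 : (((τ • y - y : 𝓞 F)) : F) = τ (y : F) - (y : F) := rfl
    rw [h2, map_sub] at h1
    exact h1
  have hbv : V.valuation (A.κ (b : F)) = 1 :=
    le_antisymm (hle b) (not_lt.1 fun h => hb ((hV2 b).2 h))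
  have hτb : V.valuation (A.κ (τ (b : F))) = 1 := by
    have h1 : A.κ (τ (b : F)) = (A.κ (τ (b : F)) - A.κ (b : F)) + A.κ (b : F) := by ring
    rw [h1, Valuation.map_add_eq_of_lt_right _ (by rw [hbv]; exact hτv b), hbv]
  have e1 : A.κ (A.θ 1) * A.κ (b : F) = A.κ (a : F) := by
    rw [← map_mul, hab]
  have e2 : A.κ (τ (A.θ 1)) * A.κ (τ (b : F)) = A.κ (τ (a : F)) := by
    rw [← map_mul, ← map_mul, hab]
  have e3 : (A.κ (τ (A.θ 1)) - A.κ (A.θ 1)) * (A.κ (τ (b : F)) * A.κ (b : F)) =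
      (A.κ (τ (a : F)) - A.κ (a : F)) * A.κ (b : F) -
        A.κ (a : F) * (A.κ (τ (b : F)) - A.κ (b : F)) := by
    rw [← e1, ← e2]
    ring
  have h5 : V.valuation (A.κ (τ (A.θ 1)) - A.κ (A.θ 1)) < 1 := by
    have h6 : V.valuation ((A.κ (τ (A.θ 1)) - A.κ (A.θ 1)) *
        (A.κ (τ (b : F)) * A.κ (b : F))) < 1 := by
      rw [e3]
      refine Valuation.map_sub_lt _ ?_ ?_
      · rw [map_mul, hbv, mul_one]
        exact hτv a
      · rw [map_mul]
        exact mul_lt_one_of_nonneg_of_lt_one_right (hle a) zero_le (hτv b)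
    rwa [map_mul, map_mul, hτb, hbv, mul_one, mul_one] at h6
  obtain ⟨c, hcN, hc1, _⟩ := A.act τ
  have e4 : τ (A.θ 1) = A.θ c := by
    rw [hc1 1 hone, mul_one]
  have h8 : V.valuation (D.h (pt c N) - D.h (pt (1 : 𝓞 k) N)) < 1 := by
    rw [← A.κθ c hcN, ← A.κθ 1 hone, ← e4]
    exact h5
  have h10 := D.red_inj N V π c 1 hN hN0 hπ hπN hvπ hcN hone h8
  have h11 : τ (A.θ 1) = A.θ 1 := by
    apply A.κ.injective
    rw [e4]
    change A.κ (A.θ c) = A.κ (A.θ 1)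
    rw [A.κθ c hcN, A.κθ 1 hone, h10]
  ext x
  have hx : x ∈ IntermediateField.adjoin k {A.θ 1} := by
    rw [A.gen]
    exact IntermediateField.mem_top
  induction hx using IntermediateField.adjoin_induction with
  | mem y hy =>
    rw [Set.mem_singleton_iff] at hy
    rw [hy, h11]
    rfl
  | algebraMap y => rw [AlgEquiv.commutes, AlgEquiv.commutes]
  | add y z _ _ hy hz => rw [map_add, map_add, hy, hz]
  | inv y _ hy => rw [map_inv₀, map_inv₀, hy]
  | mul y z _ _ hy hz => rw [map_mul, map_mul, hy, hz]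

include A in
theorem not_dvd_discr_model {p : ℕ} (hp : p.Prime) (hpN : ¬ p ∣ N)
    (hpk : ¬ (p : ℤ) ∣ discr k) : ¬ (p : ℤ) ∣ discr F := by
  have hpp : Prime (p : ℤ) := Nat.prime_iff_prime_int.mp hp
  have := D.pid
  rw [not_dvd_discr_iff_forall_mem F (𝓞 F) hpp]
  intro P hP hpP
  have hpP' : (p : 𝓞 F) ∈ P := by exact_mod_cast hpP
  -- the prime below
  set 𝔭 : Ideal (𝓞 k) := P.under (𝓞 k) with h𝔭
  have hprime : 𝔭.IsPrime := Ideal.IsPrime.under (𝓞 k) P
  have hp𝔭 : (p : 𝓞 k) ∈ 𝔭 := by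
    rw [h𝔭, Ideal.under_def, Ideal.mem_comap, map_natCast]
    exact hpP'
  have h𝔭0 : 𝔭 ≠ ⊥ := by
    intro h
    rw [h, Ideal.mem_bot] at hp𝔭
    exact hp.ne_zero (by exact_mod_cast hp𝔭)
  obtain ⟨π, hπ⟩ := (IsPrincipalIdealRing.principal 𝔭).principal
  have hπ' : 𝔭 = Ideal.span {π} := hπ
  have hπ0 : π ≠ 0 := by
    rintro rfl
    apply h𝔭0
    rw [hπ', Ideal.span_singleton_eq_bot]
  have hπp : Prime π := (Ideal.span_singleton_prime hπ0).1 (by rw [← hπ']; exact hprime)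
  have hπN : IsCoprime π (N : 𝓞 k) := by
    have h1 : π ∣ (p : 𝓞 k) := by
      rw [← Ideal.mem_span_singleton, ← hπ']
      exact hp𝔭
    have h2 : IsCoprime (p : 𝓞 k) (N : 𝓞 k) := by
      have := (Nat.isCoprime_iff_coprime.2 ((hp.coprime_iff_not_dvd).2 hpN)).map
        (Int.castRingHom (𝓞 k))
      simpa using this
    exact h2.of_isCoprime_of_dvd_left h1
  have hπP : algebraMap (𝓞 k) (𝓞 F) π ∈ P := by
    have : π ∈ 𝔭 := by rw [hπ']; exact Ideal.mem_span_singleton_self π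
    exact this
  have : P.LiesOver 𝔭 := ⟨rfl⟩
  have hmax : 𝔭.IsMaximal := hprime.isMaximal h𝔭0
  have hin : P.inertia Gal(F/k) = ⊥ := by
    rw [eq_bot_iff]
    intro τ hτ
    rw [Subgroup.mem_bot]
    exact inertia_trivial D hN hN0 A hP hπp hπN hπP (fun x => hτ x)
  have hfin : Finite (𝓞 k ⧸ 𝔭) := Ideal.finiteQuotientOfFreeOfNeBot _ h𝔭0
  have hperf : PerfectField 𝔭.ResidueField := inferInstance
  have he : P.ramificationIdx (𝓞 k) = 1 := by
    rw [← Ideal.ramificationIdxIn_eq_ramificationIdx 𝔭 P Gal(F/k),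
      ← Ideal.card_inertia_eq_ramificationIdxIn (G := Gal(F/k)) 𝔭 P, hin]
    simp
  have he2 : 𝔭.ramificationIdx ℤ = 1 := by
    have h1 := (not_dvd_discr_iff_forall_mem k (𝓞 k) hpp).1 hpk 𝔭 hprime
      (by exact_mod_cast hp𝔭)
    exact Ideal.ramificationIdx_eq_one_iff.2 h1
  rw [← Ideal.ramificationIdx_eq_one_iff, Ideal.ramificationIdx_tower (R := ℤ) 𝔭 P, he, he2]

end model

end Pool.Agent.CMG
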