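import Mathlib
import Pool.Agent.CMG.LRamF
import Pool.Agent.CMG.Final

/-!
# the fields in Q(i, h(1/N)) are unramified outside N
-/

set_option autoImplicit false

noncomputable section

open NumberField Module

namespace Pool.Agent.CMG

theorem discr_of_sq {k : Type} [Field k] [NumberField k] {j : k} (hj : j ^ 2 = -1)
    (hk2 : finrank ℚ k = 2) {p : ℕ} (hp : p.Prime)
    (h : (p : ℤ) ∣ discr k) : p = 2 := by
  have hint : IsIntegral ℚ j := IsIntegral.of_finite ℚ j
  have hk : IntermediateField.adjoin ℚ {j} = ⊤ := by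
    have h0 : finrank ℚ (IntermediateField.adjoin ℚ {j}) = 2 := by
      rw [IntermediateField.adjoin.finrank hint]
      have h1 : minpoly ℚ j = Polynomial.X ^ 2 + 1 := by
        refine (minpoly.eq_of_irreducible_of_monic ?_ ?_ ?_).symm
        · have h2 : (Polynomial.X ^ 2 + 1 : Polynomial ℚ).natDegree = 2 := by compute_degree!
          refine (Polynomial.Monic.irreducible_iff_roots_eq_zero_of_degree_le_three (by monicity!)
            (by rw [h2]) (by rw [h2]; norm_num)).2 ?_
          refine Multiset.eq_zero_of_forall_notMem fun x hx => ?_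
          have h3 := (Polynomial.mem_roots'.1 hx).2
          simp only [Polynomial.IsRoot.def, Polynomial.eval_add, Polynomial.eval_pow,
            Polynomial.eval_X, Polynomial.eval_one] at h3
          nlinarith [sq_nonneg x]
        · simp [hj]
        · monicity!
      rw [h1]
      compute_degree!
    apply IntermediateField.eq_of_le_of_finrank_eq le_top
    rw [h0, IntermediateField.finrank_top', hk2]
  have h4 : IsPrimitiveRoot j 4 := by
    rw [IsPrimitiveRoot.iff (by norm_num)]
    refine ⟨by rw [show (4 : ℕ) = 2 * 2 from rfl, pow_mul, hj]; norm_num, fun l hl0 hl => ?_⟩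
    have h1 : (1 : k) ≠ -1 := fun h => by
      have : (2 : k) = 0 := by linear_combination h
      exact two_ne_zero this
    intro h2
    interval_cases l
    · rw [pow_one] at h2
      rw [h2, one_pow] at hj
      exact h1 hj
    · rw [hj] at h2
      exact h1 h2.symm
    · rw [pow_succ, hj] at h2
      have h3 : j = -1 := by linear_combination -h2
      rw [h3] at hj
      norm_num at hj
  have h5 : IsCyclotomicExtension {2 ^ 2} ℚ k := by
    have h6 : IsPrimitiveRoot j (2 ^ 2) := h4
    have h7 := h6.intermediateField_adjoin_isCyclotomicExtension ℚ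
    rw [hk] at h7
    exact IsCyclotomicExtension.equiv {2 ^ 2} ℚ _ IntermediateField.topEquiv
  have : Fact (Nat.Prime 2) := ⟨Nat.prime_two⟩
  have h6 := IsCyclotomicExtension.Rat.discr_prime_pow 2 2 k
  rw [h6] at h
  have h7 : (p : ℤ) ∣ 2 ^ 2 := by
    have e : ((-1 : ℤ) ^ (Nat.totient (2 ^ 2) / 2)) * (2 : ℕ) ^ (2 ^ (2 - 1) * ((2 - 1) * 2 - 1)) = -4 := by
      decide
    have h8 : (p : ℤ) ∣ -4 := by
      rw [← e]
      exact h
    have := (dvd_neg).1 h8
    norm_num
    exact this
  have h8 : p ∣ 2 ^ 2 := by exact_mod_cast h7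
  exact (Nat.prime_dvd_prime_iff_eq hp Nat.prime_two).1 (hp.dvd_of_dvd_pow h8)

/-- the primes ramified in a subfield of `ℚ(i, h(1/N))` divide `N` -/
theorem ram_of_mem {M : Type} [Field M] [NumberField M] (ι : M →+* ℂ)
    (hi : ∃ j : M, ι j = Complex.I) {N : ℕ} (hN : N ≠ 0) (h4 : 4 ∣ N)
    (hM : ∀ x : M, ι x ∈ IntermediateField.adjoin ℚ {Complex.I, hG (1 / N)}) (p : ℕ)
    (hp : p.Prime) (h : (p : ℤ) ∣ discr M) : p ∣ N := by
  obtain ⟨j, hj⟩ := hi
  have hj2 : j ^ 2 = -1 := by
    apply ι.injective
    rw [map_pow, hj, Complex.I_sq, map_neg, map_one]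
  let k := IntermediateField.adjoin ℚ {j}
  let _ : Algebra k ℂ := (ι.comp (algebraMap k M)).toAlgebra
  have hint : IsIntegral ℚ j := IsIntegral.of_finite ℚ j
  have hk : finrank ℚ k = 2 := by
    rw [IntermediateField.adjoin.finrank hint]
    have h1 : minpoly ℚ j = Polynomial.X ^ 2 + 1 := by
      refine (minpoly.eq_of_irreducible_of_monic ?_ ?_ ?_).symm
      · have h2 : (Polynomial.X ^ 2 + 1 : Polynomial ℚ).natDegree = 2 := by compute_degree!
        refine (Polynomial.Monic.irreducible_iff_roots_eq_zero_of_degree_le_three (by monicity!)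
          (by rw [h2]) (by rw [h2]; norm_num)).2 ?_
        refine Multiset.eq_zero_of_forall_notMem fun x hx => ?_
        have h3 := (Polynomial.mem_roots'.1 hx).2
        simp only [Polynomial.IsRoot.def, Polynomial.eval_add, Polynomial.eval_pow,
          Polynomial.eval_X, Polynomial.eval_one] at h3
        nlinarith [sq_nonneg x]
      · simp [hj2]
      · monicity!
    rw [h1]
    compute_degree!
  have hI : ∃ j' : k, algebraMap k ℂ j' = Complex.I :=
    ⟨⟨j, IntermediateField.mem_adjoin_simple_self ℚ j⟩, hj⟩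
  obtain ⟨D, hD1, hD2, hD3⟩ := exists_ellData hk hI
  have hDN : D.N₀ ∣ N := by rwa [hD1]
  have hpt : pt (1 : 𝓞 k) N = 1 / (N : ℂ) := by
    simp [pt]
  have hM' : ∀ x : M, ι x ∈ IntermediateField.adjoin k {D.h (pt (1 : 𝓞 k) N)} := by
    intro x
    rw [hD3, hpt]
    have h1 : IntermediateField.adjoin ℚ {Complex.I, CMG.hG (1 / N)} ≤
        (IntermediateField.adjoin k {CMG.hG (1 / N)}).restrictScalars ℚ := by
      rw [IntermediateField.adjoin_le_iff]
      rintro y (rfl | rfl)
      · obtain ⟨j', hj'⟩ := hI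
        rw [← hj']
        exact (IntermediateField.adjoin k {CMG.hG (1 / N)}).algebraMap_mem j'
      · exact IntermediateField.mem_adjoin_simple_self k _
    exact h1 (hM x)
  obtain ⟨F, _, _, _, _, _, _, A, hA⟩ := exists_model D hDN hN ι (fun x => rfl) hM'
  by_contra hpN
  have hpk : ¬ (p : ℤ) ∣ discr k := by
    intro h2
    have h3 : (⟨j, IntermediateField.mem_adjoin_simple_self ℚ j⟩ : k) ^ 2 = -1 :=
      Subtype.ext hj2
    have h6 := discr_of_sq h3 hk hp h2
    apply hpN
    rw [h6]
    exact (by norm_num : (2 : ℕ) ∣ 4).trans h4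
  exact not_dvd_discr_model D hDN hN A hp hpN hpk (h.trans (discr_dvd_discr M F))

end Pool.Agent.CMG
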