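import Pool.Agent.CMG.Liou

/-!
# difference formula for ℘(u+v) - ℘(u-v), ℘'' = 6℘² - g₂/2

`P_second`: differentiate `derivWeierstrassP_sq` (`℘'² = 4℘³ - g₂℘ - g₃`) and divide by `℘'`
where `℘' ≠ 0`, then continuity/identity theorem (`℘'` is not identically `0`).
`P_diff`: fix `v`, `D(u) = (℘(u+v) - ℘(u-v)) (℘u - ℘v)² + ℘'(u) ℘'(v)` is odd, meromorphic and
`L`-periodic. Order `≥ 0` everywhere: off `L ∪ (v+L) ∪ (-v+L)` clear; at `±v + L` the double pole of
`℘(u ∓ v)` is cancelled by `(℘u - ℘v)²`, which has order `≥ 2`. At `0` (hence on `L`):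
`℘(u+v) - ℘(u-v) = 2℘'(v) u + ℘⁽³⁾(v) u³/3 + O(u⁵)`, `(℘u - ℘v)² = u⁻⁴ - 2℘(v) u⁻² + O(1)`,
`℘'(u) = -2u⁻³ + O(u)`, and `℘⁽³⁾ = 12 ℘ ℘'` (from `P_second`), so `D = O(u)`. (Use
`℘[L] z = ℘[L - 0] z + 1/z²`, `analyticAt_weierstrassPExcept`, `weierstrassPExcept_neg`.) By
`liouville` `D` is constant, odd, hence `0` codiscretely, and everywhere by continuity.
-/

set_option autoImplicit false

noncomputable section

open Complex Filter Topology
open scoped PeriodPair Classical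


namespace Pool.Agent.CMG

private theorem pd_an (L : PeriodPair) {u : ℂ} (hu : u ∉ L.lattice) : AnalyticAt ℂ ℘[L] u :=
  L.analyticOnNhd_weierstrassP u hu

private theorem pd_an' (L : PeriodPair) {u : ℂ} (hu : u ∉ L.lattice) : AnalyticAt ℂ ℘'[L] u :=
  L.analyticOnNhd_derivWeierstrassP u hu

private theorem pd_hasDeriv (L : PeriodPair) {u : ℂ} (hu : u ∉ L.lattice) :
    HasDerivAt ℘[L] (℘'[L] u) u := by
  rw [← L.deriv_weierstrassP]
  exact (pd_an L hu).differentiableAt.hasDerivAt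

private theorem pd_compl_nhds (L : PeriodPair) {u : ℂ} (hu : u ∉ L.lattice) :
    ∀ᶠ z in 𝓝 u, z ∉ L.lattice :=
  L.isClosed_lattice.isOpen_compl.mem_nhds hu

/-- `℘'` does not vanish in a punctured neighbourhood of a point off the lattice -/
private theorem pd_ne (L : PeriodPair) {u : ℂ} (hu : u ∉ L.lattice) :
    ∀ᶠ z in 𝓝[≠] u, ℘'[L] z ≠ 0 := by
  rcases (pd_an' L hu).eventually_eq_zero_or_eventually_ne_zero with h | h
  · exfalso
    have hconn : IsPreconnected ((L.lattice : Set ℂ)ᶜ) :=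
      (Set.Countable.isConnected_compl_of_one_lt_rank (by simp)
        (countable_of_Lindelof_of_discrete (X := L.lattice))).isPreconnected
    have hz := L.analyticOnNhd_derivWeierstrassP.eqOn_zero_of_preconnected_of_eventuallyEq_zero
      hconn hu h
    have h0 : ∀ᶠ z : ℂ in 𝓝[≠] 0, z ∉ L.lattice := by
      filter_upwards [mem_nhdsWithin_of_mem_nhds (L.compl_lattice_sdiff_singleton_mem_nhds 0),
        self_mem_nhdsWithin] with z hz1 hz2 hz3
      exact hz1 ⟨hz3, hz2⟩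
    have hA : AnalyticAt ℂ (L.derivWeierstrassPExcept 0) 0 :=
      L.analyticAt_derivWeierstrassPExcept 0
    have hc : Tendsto (fun z : ℂ => z ^ 3 * L.derivWeierstrassPExcept 0 z) (𝓝[≠] 0) (𝓝 0) := by
      have h2 : ContinuousAt (fun z : ℂ => z ^ 3 * L.derivWeierstrassPExcept 0 z) 0 := by
        have := hA.continuousAt
        fun_prop
      have h3 := h2.tendsto.mono_left (nhdsWithin_le_nhds (s := {0}ᶜ))
      simpa using h3
    have hc2 : Tendsto (fun _ : ℂ => (2 : ℂ)) (𝓝[≠] (0 : ℂ)) (𝓝 0) := by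
      refine hc.congr' ?_
      filter_upwards [h0, self_mem_nhdsWithin] with z hz1 hz2
      have hz2' : z ≠ 0 := hz2
      have h4 := L.derivWeierstrassPExcept_def 0 z
      simp only [Submodule.coe_zero, sub_zero] at h4
      rw [h4, hz hz1]
      simp only [Pi.zero_apply, zero_add]
      field_simp
    have := tendsto_nhds_unique hc2 tendsto_const_nhds
    norm_num at this
  · exact h

theorem P_second (L : PeriodPair) {u : ℂ} (hu : u ∉ L.lattice) :
    HasDerivAt ℘'[L] (6 * ℘[L] u ^ 2 - L.g₂ / 2) u := by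
  have hA' := pd_an' L hu
  have key : ∀ z, z ∉ L.lattice →
      ℘'[L] z * (deriv ℘'[L] z - (6 * ℘[L] z ^ 2 - L.g₂ / 2)) = 0 := by
    intro z hz
    have h1 : HasDerivAt (fun z => ℘'[L] z ^ 2) (2 * ℘'[L] z * deriv ℘'[L] z) z := by
      have := ((pd_an' L hz).differentiableAt.hasDerivAt).fun_pow 2
      simpa using this
    have h2 : HasDerivAt (fun z => 4 * ℘[L] z ^ 3 - L.g₂ * ℘[L] z - L.g₃)
        (4 * (3 * ℘[L] z ^ 2 * ℘'[L] z) - L.g₂ * ℘'[L] z) z := by
      have h3 := pd_hasDeriv L hz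
      have := (((h3.fun_pow 3).const_mul 4).fun_sub (h3.const_mul L.g₂)).sub_const L.g₃
      simpa using this
    have h3 : (fun z => ℘'[L] z ^ 2) =ᶠ[𝓝 z] fun z => 4 * ℘[L] z ^ 3 - L.g₂ * ℘[L] z - L.g₃ := by
      filter_upwards [pd_compl_nhds L hz] with w hw
      exact L.derivWeierstrassP_sq w hw
    have h4 := (h1.congr_of_eventuallyEq h3.symm).unique h2
    linear_combination h4 / 2
  have hlim : Tendsto (fun z => deriv ℘'[L] z - (6 * ℘[L] z ^ 2 - L.g₂ / 2)) (𝓝[≠] u)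
      (𝓝 (deriv ℘'[L] u - (6 * ℘[L] u ^ 2 - L.g₂ / 2))) := by
    have h1 : ContinuousAt (deriv ℘'[L]) u := hA'.deriv.continuousAt
    have h2 : ContinuousAt ℘[L] u := (pd_an L hu).continuousAt
    have h3 : ContinuousAt (fun z => deriv ℘'[L] z - (6 * ℘[L] z ^ 2 - L.g₂ / 2)) u := by
      fun_prop
    exact h3.tendsto.mono_left nhdsWithin_le_nhds
  have hzero : Tendsto (fun z => deriv ℘'[L] z - (6 * ℘[L] z ^ 2 - L.g₂ / 2)) (𝓝[≠] u)
      (𝓝 0) := by
    refine tendsto_const_nhds.congr' ?_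
    filter_upwards [pd_ne L hu, mem_nhdsWithin_of_mem_nhds (pd_compl_nhds L hu)] with z hz1 hz2
    exact ((mul_eq_zero.1 (key z hz2)).resolve_left hz1).symm
  have heq := tendsto_nhds_unique hlim hzero
  have h := hA'.differentiableAt.hasDerivAt
  rwa [sub_eq_zero.1 heq] at h

/-- third order Taylor expansion of the odd part -/
private theorem pd_taylor (L : PeriodPair) {v : ℂ} (hv : v ∉ L.lattice) :
    Tendsto (fun y : ℂ => (℘[L] (v + y) - ℘[L] (v - y) - 2 * ℘'[L] v * y) / y ^ 3) (𝓝[≠] 0)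
      (𝓝 (4 * ℘[L] v * ℘'[L] v)) := by
  have hA := pd_an L hv
  have hs := hA.hasFPowerSeriesAt.isBigO_sub_partialSum_pow 4
  have hd1 : iteratedDeriv 1 ℘[L] v = ℘'[L] v := by
    rw [iteratedDeriv_one, L.deriv_weierstrassP]
  have hd3 : iteratedDeriv 3 ℘[L] v = 12 * ℘[L] v * ℘'[L] v := by
    rw [iteratedDeriv_succ', L.deriv_weierstrassP, iteratedDeriv_succ, iteratedDeriv_one]
    have h1 : deriv ℘'[L] =ᶠ[𝓝 v] fun z => 6 * ℘[L] z ^ 2 - L.g₂ / 2 := by
      filter_upwards [pd_compl_nhds L hv] with z hz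
      exact (P_second L hz).deriv
    rw [h1.deriv_eq]
    have h2 := (((pd_hasDeriv L hv).fun_pow 2).const_mul 6).sub_const (L.g₂ / 2)
    rw [h2.deriv]
    push_cast
    ring
  have hps : ∀ y : ℂ, (FormalMultilinearSeries.ofScalars ℂ
      (fun n ↦ iteratedDeriv n ℘[L] v / n.factorial)).partialSum 4 y =
      ℘[L] v + ℘'[L] v * y + iteratedDeriv 2 ℘[L] v / 2 * y ^ 2 +
        2 * ℘[L] v * ℘'[L] v * y ^ 3 := by
    intro y
    rw [FormalMultilinearSeries.partialSum]
    simp only [Finset.sum_range_succ, Finset.sum_range_zero,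
      FormalMultilinearSeries.ofScalars_apply_eq, hd1, hd3, iteratedDeriv_zero, smul_eq_mul]
    have e3 : 12 * ℘[L] v * ℘'[L] v / ((Nat.factorial 3 : ℕ) : ℂ) = 2 * ℘[L] v * ℘'[L] v := by
      norm_num [Nat.factorial]
      ring
    rw [e3]
    norm_num [Nat.factorial]
  have hs' : (fun y : ℂ => ℘[L] (v + y) - (℘[L] v + ℘'[L] v * y +
      iteratedDeriv 2 ℘[L] v / 2 * y ^ 2 + 2 * ℘[L] v * ℘'[L] v * y ^ 3)) =O[𝓝 0]
      fun y => ‖y‖ ^ 4 := by
    refine hs.congr_left fun y => ?_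
    rw [hps]
  have hneg : Tendsto (fun y : ℂ => -y) (𝓝 0) (𝓝 0) := by
    have : Continuous fun y : ℂ => -y := continuous_neg
    simpa using this.tendsto 0
  have hs2 := hs'.comp_tendsto hneg
  have hs3 : (fun y : ℂ => ℘[L] (v + y) - ℘[L] (v - y) - 2 * ℘'[L] v * y -
      4 * ℘[L] v * ℘'[L] v * y ^ 3) =O[𝓝 0] fun y => ‖y‖ ^ 4 := by
    have hs2' : (fun y : ℂ => ℘[L] (v - y) - (℘[L] v - ℘'[L] v * y +
        iteratedDeriv 2 ℘[L] v / 2 * y ^ 2 - 2 * ℘[L] v * ℘'[L] v * y ^ 3)) =O[𝓝 0]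
        fun y => ‖y‖ ^ 4 := by
      refine (hs2.congr_left fun y => ?_).congr_right fun y => ?_
      · simp only [Function.comp_apply]
        rw [← sub_eq_add_neg]
        ring
      · simp
    refine (hs'.sub hs2').congr_left fun y => ?_
    ring
  have hs4 : Tendsto (fun y : ℂ => (℘[L] (v + y) - ℘[L] (v - y) - 2 * ℘'[L] v * y -
      4 * ℘[L] v * ℘'[L] v * y ^ 3) / y ^ 3) (𝓝[≠] 0) (𝓝 0) := by
    have h1 := hs3.mono (nhdsWithin_le_nhds (s := ({0}ᶜ : Set ℂ)))
    obtain ⟨C, hC⟩ := h1.bound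
    have h2 : Tendsto (fun y : ℂ => C * ‖y‖) (𝓝[≠] 0) (𝓝 0) := by
      have : Continuous fun y : ℂ => C * ‖y‖ := by fun_prop
      have h3 := (this.tendsto 0).mono_left (nhdsWithin_le_nhds (s := ({0}ᶜ : Set ℂ)))
      simpa using h3
    refine squeeze_zero_norm' ?_ h2
    filter_upwards [hC, self_mem_nhdsWithin] with y hy hy0
    have hy0' : y ≠ 0 := hy0
    have hyn : 0 < ‖y‖ := norm_pos_iff.2 hy0'
    rw [norm_div, norm_pow, div_le_iff₀ (by positivity)]
    refine hy.trans (le_of_eq ?_)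
    rw [norm_pow, norm_norm]
    ring
  have h5 := hs4.add_const (4 * ℘[L] v * ℘'[L] v)
  rw [zero_add] at h5
  refine h5.congr' ?_
  filter_upwards [self_mem_nhdsWithin] with y hy0
  have hy0' : y ≠ 0 := hy0
  field_simp
  ring

/-- the double poles of `℘` -/
private theorem pd_sq (L : PeriodPair) (w z₀ : ℂ) :
    ∃ c, Tendsto (fun u : ℂ => (u - z₀) ^ 2 * ℘[L] (u + w)) (𝓝[≠] z₀) (𝓝 c) := by
  have hm : MeromorphicAt (fun u : ℂ => (u - z₀) ^ 2 * ℘[L] (u + w)) z₀ := by
    have h1 : MeromorphicAt (fun u : ℂ => ℘[L] (u + w)) z₀ := by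
      have := L.meromorphic_weierstrassP
      fun_prop
    fun_prop
  rw [tendsto_nhds_iff_meromorphicOrderAt_nonneg hm]
  by_cases h : z₀ + w ∈ L.lattice
  · have h1 : meromorphicOrderAt (fun u : ℂ => ℘[L] (u + w)) z₀ = -2 := by
      have h0 := meromorphicOrderAt_comp_add_const_eq_meromorphicOrderAt (c := w) (f := ℘[L])
        (x := z₀)
      exact h0.trans (L.order_weierstrassP _ h)
    have h2 : MeromorphicAt (fun u : ℂ => ℘[L] (u + w)) z₀ :=
      meromorphicAt_of_meromorphicOrderAt_ne_zero (by rw [h1]; decide)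
    have h3 : MeromorphicAt (fun u : ℂ => (u - z₀) ^ 2) z₀ := by fun_prop
    rw [fun_meromorphicOrderAt_mul h3 h2, h1, fun_meromorphicOrderAt_pow_id_sub_const]
    decide
  · refine AnalyticAt.meromorphicOrderAt_nonneg ?_
    have h1 : AnalyticAt ℂ (fun u : ℂ => ℘[L] (u + w)) z₀ :=
      AnalyticAt.fun_comp (g := ℘[L]) (f := fun u : ℂ => u + w) (x := z₀) (pd_an L h)
        (by fun_prop)
    fun_prop

private def DD (L : PeriodPair) (v u : ℂ) : ℂ :=
  (℘[L] (u + v) - ℘[L] (u - v)) * (℘[L] u - ℘[L] v) ^ 2 + ℘'[L] u * ℘'[L] v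

private theorem DD_mero (L : PeriodPair) (v z : ℂ) : MeromorphicAt (DD L v) z := by
  have h1 := L.meromorphic_weierstrassP
  have h2 := L.meromorphic_derivWeierstrassP
  unfold DD
  fun_prop

private theorem DD_per (L : PeriodPair) (v : ℂ) {l : ℂ} (hl : l ∈ L.lattice) (u : ℂ) :
    DD L v (u + l) = DD L v u := by
  have e1 : u + l + v = (u + v) + ((⟨l, hl⟩ : L.lattice) : ℂ) := by
    simp only
    ring
  have e2 : u + l - v = (u - v) + ((⟨l, hl⟩ : L.lattice) : ℂ) := by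
    simp only
    ring
  have e3 : u + l = u + ((⟨l, hl⟩ : L.lattice) : ℂ) := rfl
  unfold DD
  rw [e1, e2, e3, L.weierstrassP_add_coe, L.weierstrassP_add_coe, L.weierstrassP_add_coe,
    L.derivWeierstrassP_add_coe]

private theorem DD_neg (L : PeriodPair) (v u : ℂ) : DD L v (-u) = - DD L v u := by
  have e1 : -u + v = -(u - v) := by ring
  have e2 : -u - v = -(u + v) := by ring
  unfold DD
  rw [e1, e2, L.weierstrassP_neg, L.weierstrassP_neg, L.weierstrassP_neg,
    L.derivWeierstrassP_neg]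
  ring

/-- the order at the origin -/
private theorem DD_order_zero (L : PeriodPair) {v : ℂ} (hv : v ∉ L.lattice) :
    0 ≤ meromorphicOrderAt (DD L v) 0 := by
  set c := ℘[L] v with hc
  set d := ℘'[L] v with hd
  have hP : AnalyticAt ℂ (L.weierstrassPExcept 0) 0 := L.analyticAt_weierstrassPExcept 0
  have hP' : AnalyticAt ℂ (L.derivWeierstrassPExcept 0) 0 :=
    L.analyticAt_derivWeierstrassPExcept 0
  have hPv : ContinuousAt ℘[L] v := (pd_an L hv).continuousAt
  have h1 := pd_taylor L hv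
  rw [← hc, ← hd] at h1
  -- F(u) / u
  have h2 : Tendsto (fun y : ℂ => (℘[L] (v + y) - ℘[L] (v - y)) / y) (𝓝[≠] 0)
      (𝓝 (2 * d)) := by
    have hy2 : Tendsto (fun y : ℂ => y ^ 2) (𝓝[≠] 0) (𝓝 0) := by
      have : Continuous fun y : ℂ => y ^ 2 := by fun_prop
      have h3 := (this.tendsto 0).mono_left (nhdsWithin_le_nhds (s := ({0}ᶜ : Set ℂ)))
      simpa using h3
    have h3 := (h1.mul hy2).add_const (2 * d)
    rw [mul_zero, zero_add] at h3
    refine h3.congr' ?_
    filter_upwards [self_mem_nhdsWithin] with y hy0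
    have hy0' : y ≠ 0 := hy0
    field_simp
    ring
  have h3 : Tendsto (fun y : ℂ => L.weierstrassPExcept 0 y - c) (𝓝[≠] 0) (𝓝 (-c)) := by
    have h4 := (hP.continuousAt.tendsto.mono_left
      (nhdsWithin_le_nhds (s := ({0}ᶜ : Set ℂ)))).sub_const c
    simpa using h4
  have hid : Tendsto (fun y : ℂ => y) (𝓝[≠] 0) (𝓝 0) :=
    tendsto_id.mono_left nhdsWithin_le_nhds
  have h4 : Tendsto (fun y : ℂ => L.derivWeierstrassPExcept 0 y) (𝓝[≠] 0)
      (𝓝 (L.derivWeierstrassPExcept 0 0)) :=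
    hP'.continuousAt.tendsto.mono_left nhdsWithin_le_nhds
  have hlim := ((h1.add ((h3.mul h2).const_mul 2)).add
    (((hid.pow 2).mul (h3.pow 2)).mul h2)).add ((hid.mul h4).mul_const d)
  have hlim' : Tendsto (fun u => u * DD L v u) (𝓝[≠] 0) (𝓝 0) := by
    have e : 4 * c * d + 2 * (-c * (2 * d)) + (0 : ℂ) ^ 2 * (-c) ^ 2 * (2 * d) +
        0 * L.derivWeierstrassPExcept 0 0 * d = 0 := by ring
    rw [e] at hlim
    refine hlim.congr' ?_
    filter_upwards [self_mem_nhdsWithin] with y hy0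
    have hy0' : y ≠ 0 := hy0
    have e1 := L.weierstrassPExcept_add 0 y
    have e2 := L.derivWeierstrassPExcept_sub 0 y
    simp only [Submodule.coe_zero, sub_zero, ne_eq, OfNat.ofNat_ne_zero, not_false_eq_true,
      zero_pow, div_zero] at e1 e2
    unfold DD
    rw [← hc, ← hd, ← e1, ← e2, add_comm y v]
    have e3 : ℘[L] (y - v) = ℘[L] (v - y) := by
      rw [← L.weierstrassP_neg, neg_sub]
    rw [e3]
    generalize ℘[L] (v + y) = A
    generalize ℘[L] (v - y) = B
    generalize L.weierstrassPExcept 0 y = P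
    generalize L.derivWeierstrassPExcept 0 y = P'
    field_simp
    ring
  have hm : MeromorphicAt (fun u => u * DD L v u) 0 := by
    have := DD_mero L v 0
    fun_prop
  have hpos := (tendsto_zero_iff_meromorphicOrderAt_pos hm).1 hlim'
  have hmul := fun_meromorphicOrderAt_mul (f := fun u : ℂ => u) (g := DD L v) (x := 0)
    (by fun_prop) (DD_mero L v 0)
  have hone : meromorphicOrderAt (fun u : ℂ => u) 0 = 1 := meromorphicOrderAt_id
  rw [hmul, hone] at hpos
  cases ho : meromorphicOrderAt (DD L v) 0 with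
  | top => exact le_top
  | coe n =>
    rw [ho] at hpos
    have h5 : (0 : ℤ) < 1 + n := by exact_mod_cast hpos
    have h6 : (0 : ℤ) ≤ n := by omega
    exact_mod_cast h6

/-- the order at a point with `℘ z₀ = ℘ v` -/
private theorem DD_order_pm (L : PeriodPair) {v z₀ : ℂ} (hz : z₀ ∉ L.lattice)
    (he : ℘[L] z₀ = ℘[L] v) : 0 ≤ meromorphicOrderAt (DD L v) z₀ := by
  rw [← tendsto_nhds_iff_meromorphicOrderAt_nonneg (DD_mero L v z₀)]
  obtain ⟨a, ha⟩ := pd_sq L v z₀
  obtain ⟨b, hb⟩ := pd_sq L (-v) z₀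
  have hs : Tendsto (fun u : ℂ => (u - z₀)⁻¹ * (℘[L] u - ℘[L] v)) (𝓝[≠] z₀) (𝓝 (℘'[L] z₀)) := by
    have h3 := hasDerivAt_iff_tendsto_slope.1 (pd_hasDeriv L hz)
    refine h3.congr fun u => ?_
    rw [slope_def_field, he]
    ring
  have hc : Tendsto ℘'[L] (𝓝[≠] z₀) (𝓝 (℘'[L] z₀)) :=
    (pd_an' L hz).continuousAt.tendsto.mono_left nhdsWithin_le_nhds
  refine ⟨_, (((ha.sub hb).mul (hs.pow 2)).add (hc.mul_const (℘'[L] v))).congr' ?_⟩
  filter_upwards [self_mem_nhdsWithin] with u hu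
  have hu' : u - z₀ ≠ 0 := sub_ne_zero.2 hu
  unfold DD
  rw [← sub_eq_add_neg]
  generalize ℘[L] (u + v) = A
  generalize ℘[L] (u - v) = B
  generalize ℘[L] u - ℘[L] v = C
  field_simp

private theorem DD_an (L : PeriodPair) {v z : ℂ} (hz : z ∉ L.lattice)
    (h1 : z + v ∉ L.lattice) (h2 : z - v ∉ L.lattice) : AnalyticAt ℂ (DD L v) z := by
  have a1 : AnalyticAt ℂ (fun u : ℂ => ℘[L] (u + v)) z :=
    AnalyticAt.fun_comp (g := ℘[L]) (f := fun u : ℂ => u + v) (x := z) (pd_an L h1) (by fun_prop)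
  have a2 : AnalyticAt ℂ (fun u : ℂ => ℘[L] (u - v)) z :=
    AnalyticAt.fun_comp (g := ℘[L]) (f := fun u : ℂ => u - v) (x := z) (pd_an L h2) (by fun_prop)
  have a3 := pd_an L hz
  have a4 := pd_an' L hz
  unfold DD
  fun_prop

private theorem DD_order (L : PeriodPair) {v : ℂ} (hv : v ∉ L.lattice) (z : ℂ) :
    0 ≤ meromorphicOrderAt (DD L v) z := by
  by_cases hz : z ∈ L.lattice
  · have h0 := meromorphicOrderAt_comp_add_const_eq_meromorphicOrderAt (c := z) (f := DD L v)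
      (x := 0)
    have h1 : (DD L v) ∘ (· + z) = DD L v := by
      funext u
      exact DD_per L v hz u
    rw [h1, zero_add] at h0
    rw [← h0]
    exact DD_order_zero L hv
  · by_cases h1 : z + v ∈ L.lattice
    · refine DD_order_pm L hz ?_
      have := L.weierstrassP_add_coe (-v) ⟨z + v, h1⟩
      rw [L.weierstrassP_neg] at this
      rw [← this]
      simp
    · by_cases h2 : z - v ∈ L.lattice
      · refine DD_order_pm L hz ?_
        have := L.weierstrassP_add_coe v ⟨z - v, h2⟩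
        rw [← this]
        simp
      · exact (DD_an L hz h1 h2).meromorphicOrderAt_nonneg

theorem P_diff (L : PeriodPair) {u v : ℂ} (hu : u ∉ L.lattice) (hv : v ∉ L.lattice)
    (h1 : u + v ∉ L.lattice) (h2 : u - v ∉ L.lattice) :
    (℘[L] (u + v) - ℘[L] (u - v)) * (℘[L] u - ℘[L] v) ^ 2 = - (℘'[L] u * ℘'[L] v) := by
  obtain ⟨c, hc⟩ := liouville L (F := DD L v) (DD_mero L v) (DD_order L hv)
    (fun l hl => Eventually.of_forall fun z => by rw [DD_per L v hl])
  have hne : ∀ z : ℂ, ∀ᶠ y in 𝓝[≠] z, DD L v y = c := by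
    intro z
    have h1 : {y | DD L v y = c} ∈ codiscrete ℂ := hc
    rw [mem_codiscrete] at h1
    have h2 := h1 z
    rw [disjoint_principal_right, compl_compl] at h2
    exact h2
  have hc0 : c = 0 := by
    have hneg : Tendsto (fun y : ℂ => -y) (𝓝[≠] 0) (𝓝[≠] 0) := by
      refine tendsto_nhdsWithin_iff.2 ⟨?_, ?_⟩
      · have : Continuous fun y : ℂ => -y := continuous_neg
        have h3 := (this.tendsto 0).mono_left (nhdsWithin_le_nhds (s := ({0}ᶜ : Set ℂ)))
        simpa using h3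
      · filter_upwards [self_mem_nhdsWithin] with y hy
        simpa using hy
    obtain ⟨y, hy1, hy2⟩ := ((hne 0).and (hneg.eventually (hne 0))).exists
    rw [DD_neg, hy1] at hy2
    have : 2 * c = 0 := by linear_combination -hy2
    simpa using this
  subst hc0
  have hcont := (DD_an L hu h1 h2).continuousAt
  have h3 : Tendsto (DD L v) (𝓝[≠] u) (𝓝 (DD L v u)) :=
    hcont.tendsto.mono_left nhdsWithin_le_nhds
  have h4 : Tendsto (DD L v) (𝓝[≠] u) (𝓝 0) :=
    tendsto_const_nhds.congr' (by filter_upwards [hne u] with y hy using hy.symm)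
  have h5 := tendsto_nhds_unique h3 h4
  unfold DD at h5
  linear_combination h5

end Pool.Agent.CMG
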