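import Pool.Agent.CMG.PSum

/-!
# zeros of ℘', injectivity and surjectivity of ℘

(A period `l` of `℘`, i.e. `℘(z + l) = ℘(z)` for generic `z`, is in `L`: look at the poles.)
`P'_eq_zero_iff`: `←` `℘'` is odd and periodic. `→` if `℘'(u) = 0` then `P_diff` (with `u` in the
role of `v`) gives `℘(z+u) = ℘(z-u)` for generic `z`, so `2u ∈ L`. `P_inj`: if `℘u = ℘v`, `u ± v ∉ L`,
then `P_sum` gives `0 = 4℘(u)³ - g₂℘(u) - g₃ = ℘'(u)²` and likewise for `v`, so `2u, 2v ∈ L`; now
`P_sum` for `(z,u)` and `(z,v)`: `2℘(z+u)(℘z - e)² = 2℘(z+v)(℘z - e)²` for generic `z`, so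
`u - v ∈ L`. `P_surj`: otherwise `1/(℘ - c)` contradicts `liouville` (it vanishes on `L`).
-/

set_option autoImplicit false

noncomputable section

open Complex Filter Topology
open scoped PeriodPair Classical

namespace Pool.Agent.CMG

namespace PInjAux

theorem cob (L : PeriodPair) {l : ℂ} (hl : l ∈ L.lattice) :
    Tendsto ℘[L] (𝓝[≠] l) (Bornology.cobounded ℂ) := by
  refine tendsto_cobounded_of_meromorphicOrderAt_neg ?_
  rw [L.order_weierstrassP l hl]
  decide

/-- the pole at `0` is not matched by a function that is continuous at `0` -/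
theorem no_match (L : PeriodPair) {f : ℂ → ℂ} (hf : ContinuousAt f 0)
    (h : ∀ᶠ w in 𝓝[≠] (0 : ℂ), ℘[L] w = f w) : False := by
  have h1 : Tendsto f (𝓝[≠] (0 : ℂ)) (Bornology.cobounded ℂ) :=
    (cob L (Submodule.zero_mem _)).congr' h
  have h2 : Tendsto f (𝓝[≠] (0 : ℂ)) (𝓝 (f 0)) := hf.tendsto.mono_left nhdsWithin_le_nhds
  exact h2.not_tendsto (Metric.disjoint_nhds_cobounded _) h1

theorem ev_zero (L : PeriodPair) : ∀ᶠ w in 𝓝[≠] (0 : ℂ), w ∉ L.lattice := by
  have h1 : ∀ᶠ w in 𝓝[≠] (0 : ℂ), w ∈ ((L.lattice : Set ℂ) \ {(0 : ℂ)})ᶜ :=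
    mem_nhdsWithin_of_mem_nhds (L.compl_lattice_sdiff_singleton_mem_nhds 0)
  filter_upwards [h1, self_mem_nhdsWithin] with w hw hw0 hwL
  exact hw ⟨hwL, hw0⟩

theorem ev_add (L : PeriodPair) {a : ℂ} (ha : a ∉ L.lattice) :
    ∀ᶠ w in 𝓝[≠] (0 : ℂ), w + a ∉ L.lattice := by
  have h1 : IsOpen ((L.lattice : Set ℂ)ᶜ) := L.isClosed_lattice.isOpen_compl
  have h2 : ContinuousAt (fun w : ℂ => w + a) 0 := by fun_prop
  have h3 : (L.lattice : Set ℂ)ᶜ ∈ 𝓝 ((0 : ℂ) + a) := by
    rw [zero_add]; exact h1.mem_nhds ha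
  exact mem_nhdsWithin_of_mem_nhds (h2 h3)

theorem contAt (L : PeriodPair) {a : ℂ} (ha : a ∉ L.lattice) :
    ContinuousAt (fun w : ℂ => ℘[L] (w + a)) 0 := by
  have h1 : ContinuousAt ℘[L] ((0 : ℂ) + a) := by
    rw [zero_add]; exact (L.analyticOnNhd_weierstrassP a ha).continuousAt
  exact ContinuousAt.comp (f := fun w : ℂ => w + a) h1 (by fun_prop)

theorem countable_lattice (L : PeriodPair) : (L.lattice : Set ℂ).Countable := by
  have : Countable L.lattice := L.latticeEquivProd.toEquiv.countable_iff.mpr inferInstance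
  exact this

theorem preconn (L : PeriodPair) : IsPreconnected ((L.lattice : Set ℂ)ᶜ) := by
  refine (Set.Countable.isPathConnected_compl_of_one_lt_rank ?_ (countable_lattice L)).isConnected.isPreconnected
  rw [Complex.rank_real_complex]
  norm_num

theorem ev_ne (L : PeriodPair) {a : ℂ} (ha : a ∉ L.lattice) (c : ℂ) :
    ∀ᶠ w in 𝓝[≠] (0 : ℂ), ℘[L] (w + a) ≠ c := by
  have han : AnalyticAt ℂ (fun z => ℘[L] z - c) a :=
    (L.analyticOnNhd_weierstrassP a ha).sub analyticAt_const
  have key : ∀ᶠ z in 𝓝[≠] a, ℘[L] z - c ≠ 0 := by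
    rcases han.eventually_eq_zero_or_eventually_ne_zero with h | h
    · exfalso
      have h1 : Set.EqOn (fun z => ℘[L] z - c) 0 ((L.lattice : Set ℂ)ᶜ) := by
        refine AnalyticOnNhd.eqOn_zero_of_preconnected_of_eventuallyEq_zero
          (L.analyticOnNhd_weierstrassP.sub analyticOnNhd_const) (preconn L) ha h
      refine no_match L (f := fun _ => c) continuousAt_const ?_
      filter_upwards [ev_zero L] with w hw
      have := h1 hw
      simpa [sub_eq_zero] using this
    · exact h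
  have ht : Tendsto (fun w : ℂ => w + a) (𝓝[≠] (0 : ℂ)) (𝓝[≠] a) := by
    refine tendsto_nhdsWithin_iff.2 ⟨?_, ?_⟩
    · have : ContinuousWithinAt (fun w : ℂ => w + a) {0}ᶜ 0 := by fun_prop
      simpa using this.tendsto
    · filter_upwards [self_mem_nhdsWithin] with y hy
      simpa using hy
  filter_upwards [ht.eventually key] with w hw h
  exact hw (by rw [h, sub_self])

theorem P_add (L : PeriodPair) {l : ℂ} (hl : l ∈ L.lattice) (z : ℂ) : ℘[L] (z + l) = ℘[L] z :=
  L.weierstrassP_add_coe z ⟨l, hl⟩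

theorem P'_add (L : PeriodPair) {l : ℂ} (hl : l ∈ L.lattice) (z : ℂ) : ℘'[L] (z + l) = ℘'[L] z :=
  L.derivWeierstrassP_add_coe z ⟨l, hl⟩

end PInjAux

open PInjAux

theorem P'_eq_zero_iff (L : PeriodPair) {u : ℂ} (hu : u ∉ L.lattice) :
    ℘'[L] u = 0 ↔ 2 * u ∈ L.lattice := by
  constructor
  · intro h
    by_contra h2
    refine no_match L (contAt L h2) ?_
    have hu2 : -(2 * u) ∉ L.lattice := fun hh => h2 (by simpa using Submodule.neg_mem _ hh)
    -- `z = w + u`
    filter_upwards [ev_zero L, ev_add L hu, ev_add L h2, ev_ne L hu (℘[L] u)] with w hw hwu hw2 hne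
    have e := P_diff L hwu hu (by rw [show w + u + u = w + 2 * u by ring]; exact hw2)
      (by rw [add_sub_cancel_right]; exact hw)
    rw [h, mul_zero, neg_zero, add_sub_cancel_right, show w + u + u = w + 2 * u by ring] at e
    rcases mul_eq_zero.mp e with h3 | h3
    · exact (sub_eq_zero.mp h3).symm
    · exact absurd (sub_eq_zero.mp (pow_eq_zero_iff (two_ne_zero)|>.mp h3)) hne
  · intro h
    have h1 : ℘'[L] (-u + 2 * u) = ℘'[L] (-u) := P'_add L h (-u)
    rw [L.derivWeierstrassP_neg, show -u + 2 * u = u by ring] at h1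
    have h2 : (2 : ℂ) * ℘'[L] u = 0 := by linear_combination h1
    simpa using h2

theorem P_inj (L : PeriodPair) {u v : ℂ} (hu : u ∉ L.lattice) (hv : v ∉ L.lattice)
    (h : ℘[L] u = ℘[L] v) : u - v ∈ L.lattice ∨ u + v ∈ L.lattice := by
  by_contra hcon
  push Not at hcon
  obtain ⟨h1, h2⟩ := hcon
  have hs := P_sum L hu hv h2 h1
  have hu0 : ℘'[L] u = 0 := by
    have := L.derivWeierstrassP_sq u hu
    rw [← h] at hs
    have h3 : ℘'[L] u ^ 2 = 0 := by
      rw [this]
      linear_combination -hs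
    exact pow_eq_zero_iff two_ne_zero |>.mp h3
  have hv0 : ℘'[L] v = 0 := by
    have := L.derivWeierstrassP_sq v hv
    rw [h] at hs
    have h3 : ℘'[L] v ^ 2 = 0 := by
      rw [this]
      linear_combination -hs
    exact pow_eq_zero_iff two_ne_zero |>.mp h3
  have h2u := (P'_eq_zero_iff L hu).mp hu0
  have h2v := (P'_eq_zero_iff L hv).mp hv0
  have hvu : v - u ∉ L.lattice := fun hh => h1 (by simpa using Submodule.neg_mem _ hh)
  have hun : -u ∉ L.lattice := fun hh => hu (by simpa using Submodule.neg_mem _ hh)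
  have huv : -(u + v) ∉ L.lattice := fun hh => h2 (by simpa using Submodule.neg_mem _ hh)
  refine no_match L (contAt L hvu) ?_
  filter_upwards [ev_zero L, ev_add L hun, ev_add L hvu, ev_add L huv,
    ev_ne L hun (℘[L] u)] with w hw hw1 hw2 hw3 hne
  have hw4 : w + -u - u ∉ L.lattice := fun hh => hw (by
    have := Submodule.add_mem _ hh h2u
    rwa [show w + -u - u + 2 * u = w by ring] at this)
  have e1 := P_sum L hw1 hu (by rw [show w + -u + u = w by ring]; exact hw) hw4
  have e2 := P_sum L hw1 hv (by rw [show w + -u + v = w + (v - u) by ring]; exact hw2)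
    (by rw [show w + -u - v = w + -(u + v) by ring]; exact hw3)
  have p1 : ℘[L] (w + -u - u) = ℘[L] w := by
    have := P_add L h2u (w + -u - u)
    rwa [show w + -u - u + 2 * u = w by ring, eq_comm] at this
  have p2 : ℘[L] (w + -u - v) = ℘[L] (w + (v - u)) := by
    have := P_add L h2v (w + -u - v)
    rwa [show w + -u - v + 2 * v = w + (v - u) by ring, eq_comm] at this
  rw [p1, show w + -u + u = w by ring] at e1
  rw [p2, show w + -u + v = w + (v - u) by ring, ← h] at e2
  have h3 : (℘[L] w - ℘[L] (w + (v - u))) * (℘[L] (w + -u) - ℘[L] u) ^ 2 = 0 := by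
    linear_combination (1/2) * e1 - (1/2) * e2
  rcases mul_eq_zero.mp h3 with h4 | h4
  · exact sub_eq_zero.mp h4
  · exact absurd (sub_eq_zero.mp (pow_eq_zero_iff (two_ne_zero)|>.mp h4)) hne

theorem P_surj (L : PeriodPair) (c : ℂ) : ∃ z ∉ L.lattice, ℘[L] z = c := by
  by_contra hcon
  push Not at hcon
  set F : ℂ → ℂ := fun z => (℘[L] z - c)⁻¹ with hF
  have hmer : ∀ z, MeromorphicAt F z := fun z =>
    ((L.meromorphic_weierstrassP z).sub (MeromorphicAt.const c z)).inv
  -- tends to 0 at lattice points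
  have ht0 : ∀ l ∈ L.lattice, Tendsto F (𝓝[≠] l) (𝓝 0) := by
    intro l hl
    have h1 : Tendsto (fun z => ℘[L] z - c) (𝓝[≠] l) (Bornology.cobounded ℂ) := by
      have h2 := cob L hl
      rw [← tendsto_norm_atTop_iff_cobounded] at h2 ⊢
      refine tendsto_atTop_mono (fun z => norm_sub_norm_le _ _) ?_
      exact tendsto_atTop_add_const_right _ (-‖c‖) h2
    exact Filter.tendsto_inv₀_cobounded.comp h1
  have hord : ∀ z, 0 ≤ meromorphicOrderAt F z := by
    intro z
    rw [← tendsto_nhds_iff_meromorphicOrderAt_nonneg (hmer z)]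
    by_cases hz : z ∈ L.lattice
    · exact ⟨0, ht0 z hz⟩
    · refine ⟨F z, ?_⟩
      have h1 : ContinuousAt F z := by
        refine ContinuousAt.inv₀ ?_ (sub_ne_zero.mpr (hcon z hz))
        exact (L.analyticOnNhd_weierstrassP z hz).continuousAt.sub continuousAt_const
      exact h1.tendsto.mono_left nhdsWithin_le_nhds
  obtain ⟨d, hd⟩ := liouville L hmer hord (by
    intro l hl
    refine Filter.Eventually.of_forall fun z => ?_
    simp only [hF]
    rw [P_add L hl])
  have hd' : ∀ z, ∀ᶠ w in 𝓝[≠] z, F w = d := by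
    intro z
    have := mem_codiscrete.mp hd z
    rwa [Filter.disjoint_principal_right, compl_compl] at this
  have hd0 : d = 0 := by
    have h1 := ht0 0 (Submodule.zero_mem _)
    have h2 : Tendsto F (𝓝[≠] (0 : ℂ)) (𝓝 d) :=
      (tendsto_const_nhds).congr' ((hd' 0).mono fun w hw => hw.symm)
    exact tendsto_nhds_unique h2 h1
  obtain ⟨w, hw1, hw2⟩ := ((hd' 0).and (ev_zero L)).exists
  have : F w ≠ 0 := inv_ne_zero (sub_ne_zero.mpr (hcon w hw2))
  exact this (by rw [hw1, hd0])

end Pool.Agent.CMG
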