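import Pool.Agent.CMG.PInj

/-!
# product and duplication formula, orders of ℘ - ℘(v)

`P_prod`: `4 T T' = (T+T')² - (T-T')²` with `P_sum`, `P_diff` and `℘'² = 4℘³ - g₂℘ - g₃`, divide by
`4 (℘u - ℘v)²` (nonzero by `P_inj`); `ring`-type identity. `P_dup`: let `v → u` in `P_prod`:
`℘(u-v) (℘u - ℘v)² → ℘'(u)²`. `P_order_sub`: on `L` `order_weierstrassP`; elsewhere `℘ - ℘(v)` is
analytic, it vanishes only at `±v + L` (`P_inj`), simply if `2v ∉ L` (`P'_eq_zero_iff`). If
`2v ∈ L`: `℘'(v) = 0` and `℘''(v) = 6e² - g₂/2 ≠ 0`, `e = ℘(v)`: otherwise `P_sum` for `(z, v)` (with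
`℘(z+v) = ℘(z-v)`, `4e³ - g₂e - g₃ = 0`) reads `2℘(z-v)(℘z - e)² = 2e(℘z - e)²`, so `℘(z - v) = e` for
generic `z`, absurd.
-/

set_option autoImplicit false

noncomputable section

open Complex Filter Topology
open scoped PeriodPair Classical


namespace Pool.Agent.CMG

theorem P_prod (L : PeriodPair) {u v : ℂ} (hu : u ∉ L.lattice) (hv : v ∉ L.lattice)
    (h1 : u + v ∉ L.lattice) (h2 : u - v ∉ L.lattice) :
    ℘[L] (u + v) * ℘[L] (u - v) * (℘[L] u - ℘[L] v) ^ 2 =
      (℘[L] u * ℘[L] v + L.g₂ / 4) ^ 2 + L.g₃ * (℘[L] u + ℘[L] v) := by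
  have hs := P_sum L hu hv h1 h2
  have hd := P_diff L hu hv h1 h2
  have ha := L.derivWeierstrassP_sq u hu
  have hb := L.derivWeierstrassP_sq v hv
  have hne : ℘[L] u - ℘[L] v ≠ 0 := fun h => by
    rcases P_inj L hu hv (sub_eq_zero.1 h) with h | h
    · exact h2 h
    · exact h1 h
  have h4 : 4 * (℘[L] u - ℘[L] v) ^ 2 ≠ 0 := mul_ne_zero (by norm_num) (pow_ne_zero 2 hne)
  apply mul_left_cancel₀ h4
  generalize ℘[L] (u + v) = T at *
  generalize ℘[L] (u - v) = T' at *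
  generalize ℘[L] u = a at *
  generalize ℘[L] v = b at *
  generalize ℘'[L] u = a' at *
  generalize ℘'[L] v = b' at *
  generalize L.g₂ = g2 at *
  generalize L.g₃ = g3 at *
  linear_combination ((T + T') * (a - b) ^ 2 + (2 * (a * b - g2 / 4) * (a + b) - g3)) * hs -
    ((T - T') * (a - b) ^ 2 - a' * b') * hd - b' ^ 2 * ha - (4 * a ^ 3 - g2 * a - g3) * hb

/-- `h ^ 2 * ℘(h)` tends to `1`. -/
private theorem tendsto_sq_mul (L : PeriodPair) :
    Tendsto (fun h : ℂ => h ^ 2 * ℘[L] h) (𝓝[≠] 0) (𝓝 1) := by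
  have hA : AnalyticAt ℂ (L.weierstrassPExcept 0) 0 := L.analyticAt_weierstrassPExcept 0
  have h1 : Tendsto (fun h : ℂ => h ^ 2 * L.weierstrassPExcept 0 h + 1) (𝓝[≠] 0) (𝓝 1) := by
    have h2 : ContinuousAt (fun h : ℂ => h ^ 2 * L.weierstrassPExcept 0 h + 1) 0 := by
      have := hA.continuousAt
      fun_prop
    have h3 := h2.tendsto.mono_left (nhdsWithin_le_nhds (s := {0}ᶜ))
    simpa using h3
  refine h1.congr' ?_
  filter_upwards [self_mem_nhdsWithin] with h hh
  have hh0 : h ≠ 0 := hh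
  have h4 := L.ite_eq_one_sub_sq_mul_weierstrassP 0 L.lattice.zero_mem h
  rw [if_neg hh0] at h4
  simp only [sub_zero] at h4
  rw [h4]
  simp

theorem P_dup (L : PeriodPair) {u : ℂ} (hu : u ∉ L.lattice) (h2 : 2 * u ∉ L.lattice) :
    ℘[L] (2 * u) * ℘'[L] u ^ 2 = (℘[L] u ^ 2 + L.g₂ / 4) ^ 2 + 2 * L.g₃ * ℘[L] u := by
  have hAu : AnalyticAt ℂ ℘[L] u := L.analyticOnNhd_weierstrassP u hu
  have hA2 : AnalyticAt ℂ ℘[L] (2 * u) := L.analyticOnNhd_weierstrassP (2 * u) h2
  have hd : HasDerivAt ℘[L] (℘'[L] u) u := by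
    rw [← L.deriv_weierstrassP]
    exact hAu.differentiableAt.hasDerivAt
  have hsl : Tendsto (fun h : ℂ => h⁻¹ * (℘[L] (u + h) - ℘[L] u)) (𝓝[≠] 0) (𝓝 (℘'[L] u)) := by
    have h3 := hd.tendsto_slope_zero
    simpa only [smul_eq_mul] using h3
  have hadd : ∀ w : ℂ, Tendsto (fun h : ℂ => w + h) (𝓝[≠] 0) (𝓝 w) := by
    intro w
    have h3 : ContinuousAt (fun h : ℂ => w + h) 0 := by fun_prop
    have h4 := h3.tendsto.mono_left (nhdsWithin_le_nhds (s := {0}ᶜ))
    simpa using h4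
  have hc : Tendsto (fun h : ℂ => ℘[L] (u + h)) (𝓝[≠] 0) (𝓝 (℘[L] u)) :=
    hAu.continuousAt.tendsto.comp (hadd u)
  have hc2 : Tendsto (fun h : ℂ => ℘[L] (2 * u + h)) (𝓝[≠] 0) (𝓝 (℘[L] (2 * u))) :=
    hA2.continuousAt.tendsto.comp (hadd (2 * u))
  have hL := (hc2.mul (tendsto_sq_mul L)).mul (hsl.pow 2)
  have hR := ((((hc.const_mul (℘[L] u)).add_const (L.g₂ / 4)).pow 2).add
    ((hc.const_add (℘[L] u)).const_mul L.g₃))
  have e1 : ∀ᶠ h : ℂ in 𝓝[≠] 0, u + h ∉ L.lattice :=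
    (hadd u).eventually (L.isClosed_lattice.isOpen_compl.mem_nhds hu)
  have e2 : ∀ᶠ h : ℂ in 𝓝[≠] 0, 2 * u + h ∉ L.lattice :=
    (hadd (2 * u)).eventually (L.isClosed_lattice.isOpen_compl.mem_nhds h2)
  have e3 : ∀ᶠ h : ℂ in 𝓝[≠] 0, h ∈ ((L.lattice : Set ℂ) \ {0})ᶜ :=
    mem_nhdsWithin_of_mem_nhds (L.compl_lattice_sdiff_singleton_mem_nhds 0)
  have heq := tendsto_nhds_unique (hL.congr' (by
    filter_upwards [e1, e2, e3, self_mem_nhdsWithin] with h h3 h4 h5 h6
    have h6' : h ≠ 0 := h6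
    have h7 : h ∉ L.lattice := fun h8 => h5 ⟨h8, h6⟩
    have h9 := P_prod L hu h3 (by rwa [← add_assoc, ← two_mul]) (by
      rw [sub_add_cancel_left]
      exact fun h10 => h7 (by simpa using L.lattice.neg_mem h10))
    rw [← add_assoc, ← two_mul, sub_add_cancel_left, L.weierstrassP_neg] at h9
    rw [← h9]
    field_simp
    ring)) hR
  linear_combination heq

private theorem second_ne_zero (L : PeriodPair) {v : ℂ} (hv : v ∉ L.lattice)
    (h2 : 2 * v ∈ L.lattice) : 6 * ℘[L] v ^ 2 - L.g₂ / 2 ≠ 0 := by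
  intro h0
  have hd0 : ℘'[L] v = 0 := (P'_eq_zero_iff L hv).2 h2
  have hb := L.derivWeierstrassP_sq v hv
  rw [hd0] at hb
  have hz : v / 2 ∉ L.lattice := fun h => hv (by
    have := L.lattice.add_mem h h
    rwa [add_halves] at this)
  have hz2 : v / 2 - v ∉ L.lattice := fun h => hz (by
    have := L.lattice.neg_mem h
    rwa [neg_sub, sub_half] at this)
  have hz3 : v / 2 + v ∉ L.lattice := fun h => hz2 (by
    have := L.lattice.sub_mem h h2
    rwa [show v / 2 + v - 2 * v = v / 2 - v by ring] at this)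
  have hs := P_sum L hz hv hz3 hz2
  have hper : ℘[L] (v / 2 + v) = ℘[L] (v / 2 - v) := by
    have := L.weierstrassP_add_coe (v / 2 - v) ⟨2 * v, h2⟩
    rw [← this]
    congr 1
    push_cast
    ring
  rw [hper] at hs
  have hne : ℘[L] (v / 2) - ℘[L] v ≠ 0 := fun h => by
    rcases P_inj L hz hv (sub_eq_zero.1 h) with h | h
    · exact hz2 h
    · exact hz3 h
  have hval : ℘[L] (v / 2 - v) = ℘[L] v := by
    have h4 : 2 * (℘[L] (v / 2) - ℘[L] v) ^ 2 ≠ 0 :=
      mul_ne_zero (by norm_num) (pow_ne_zero 2 hne)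
    apply mul_left_cancel₀ h4
    generalize ℘[L] (v / 2 - v) = T at *
    generalize ℘[L] (v / 2) = a at *
    generalize ℘[L] v = e at *
    generalize L.g₂ = g2 at *
    generalize L.g₃ = g3 at *
    linear_combination hs - hb + (a + e) * h0 - 2 * e * h0
  rcases P_inj L hz2 hv hval with h | h
  · apply hz
    have := L.lattice.add_mem h h2
    rwa [show v / 2 - v - v + 2 * v = v / 2 by ring] at this
  · apply hz
    rwa [sub_add_cancel] at h

theorem P_order_sub (L : PeriodPair) {v : ℂ} (hv : v ∉ L.lattice) (z : ℂ) :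
    meromorphicOrderAt (fun z => ℘[L] z - ℘[L] v) z =
      ((if z ∈ L.lattice then -2 else if z - v ∈ L.lattice ∨ z + v ∈ L.lattice then
        (if 2 * v ∈ L.lattice then 2 else 1) else 0 : ℤ) : WithTop ℤ) := by
  by_cases hz : z ∈ L.lattice
  · rw [if_pos hz]
    have h1 := L.order_weierstrassP z hz
    have h2 : AnalyticAt ℂ (fun _ : ℂ => -℘[L] v) z := analyticAt_const
    have h3 : meromorphicOrderAt ℘[L] z < meromorphicOrderAt (fun _ : ℂ => -℘[L] v) z := by
      rw [h1]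
      refine lt_of_lt_of_le ?_ h2.meromorphicOrderAt_nonneg
      decide
    have h4 := meromorphicOrderAt_add_eq_left_of_lt h2.meromorphicAt h3
    rw [h1] at h4
    have h5 : (℘[L] + fun _ : ℂ => -℘[L] v) = fun z => ℘[L] z - ℘[L] v := by
      funext w
      simp [sub_eq_add_neg]
    rw [h5] at h4
    exact h4
  rw [if_neg hz]
  have hA : AnalyticAt ℂ ℘[L] z := L.analyticOnNhd_weierstrassP z hz
  have hA1 : AnalyticAt ℂ (fun z => ℘[L] z - ℘[L] v) z := hA.sub analyticAt_const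
  rw [hA1.meromorphicOrderAt_eq]
  by_cases hzv : z - v ∈ L.lattice ∨ z + v ∈ L.lattice
  · rw [if_pos hzv]
    have hval : ℘[L] z = ℘[L] v := by
      rcases hzv with h | h
      · have := L.weierstrassP_add_coe v ⟨z - v, h⟩
        rw [← this]
        simp
      · have := L.weierstrassP_add_coe (-v) ⟨z + v, h⟩
        rw [L.weierstrassP_neg] at this
        rw [← this]
        simp
    have h2zv : 2 * z ∈ L.lattice ↔ 2 * v ∈ L.lattice := by
      rcases hzv with h | h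
      · have h3 : 2 * z = 2 * v + ((z - v) + (z - v)) := by ring
        rw [h3, Submodule.add_mem_iff_left _ (L.lattice.add_mem h h)]
      · have h3 : 2 * z = -(2 * v) + ((z + v) + (z + v)) := by ring
        rw [h3, Submodule.add_mem_iff_left _ (L.lattice.add_mem h h), Submodule.neg_mem_iff]
    by_cases h2v : 2 * v ∈ L.lattice
    · rw [if_pos h2v]
      have h2z := h2zv.2 h2v
      have h3 := hA.analyticOrderAt_deriv_add_one
      rw [L.deriv_weierstrassP, hval] at h3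
      have h4 : AnalyticAt ℂ ℘'[L] z := L.analyticOnNhd_derivWeierstrassP z hz
      have h5 : analyticOrderAt ℘'[L] z = 1 := by
        apply h4.analyticOrderAt_eq_one_of_zero_deriv_ne_zero
        · exact (P'_eq_zero_iff L hz).2 h2z
        · rw [(P_second L hz).deriv]
          exact second_ne_zero L hz h2z
      rw [← h3, h5]
      rfl
    · rw [if_neg h2v]
      have h3 : deriv ℘[L] z ≠ 0 := by
        rw [L.deriv_weierstrassP]
        intro h
        exact h2v (h2zv.1 ((P'_eq_zero_iff L hz).1 h))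
      have h4 := hA.analyticOrderAt_sub_eq_one_of_deriv_ne_zero h3
      rw [hval] at h4
      rw [h4]
      rfl
  · rw [if_neg hzv]
    have h3 : analyticOrderAt (fun z => ℘[L] z - ℘[L] v) z = 0 := by
      rw [hA1.analyticOrderAt_eq_zero]
      intro h
      exact hzv (P_inj L hz hv (sub_eq_zero.1 h))
    rw [h3]
    rfl

end Pool.Agent.CMG
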