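import Pool.Agent.CMG.PDiff

/-!
# sum formula for ℘(u+v) + ℘(u-v)

Put `X = ℘ u`, `Y = ℘ v`. Differentiating `P_diff` in `v` gives `℘'(u+v) + ℘'(u-v)`; this is the
derivative in `u` of `N / (X - Y)²`, `N = 2 (XY - g₂/4)(X + Y) - g₃`, so that
`Ψ = ℘(u+v) + ℘(u-v) - N / (X - Y)²` has derivative `0` near `0`, and tends to `0` at `0`. So `Ψ`
vanishes near `0`, and the formula follows everywhere by the identity theorem on the (connected)
complement of a countable set.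
-/

set_option autoImplicit false

noncomputable section

open Complex Filter Topology
open scoped PeriodPair Classical


namespace Pool.Agent.CMG

private lemma ps_hasDeriv (L : PeriodPair) {z : ℂ} (hz : z ∉ L.lattice) :
    HasDerivAt ℘[L] (℘'[L] z) z := by
  have h := (L.analyticOnNhd_weierstrassP z hz).differentiableAt.hasDerivAt
  rwa [L.deriv_weierstrassP] at h

private lemma ps_open (L : PeriodPair) (c : ℂ) : IsOpen {z : ℂ | z + c ∉ L.lattice} := by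
  have h := L.isClosed_lattice.isOpen_compl
  exact h.preimage (continuous_id.add continuous_const)

private lemma ps_open' (L : PeriodPair) (c : ℂ) : IsOpen {z : ℂ | c - z ∉ L.lattice} := by
  have h := L.isClosed_lattice.isOpen_compl
  exact h.preimage (continuous_const.sub continuous_id)

private lemma ps_star (L : PeriodPair) {u v : ℂ} (hu : u ∉ L.lattice) (hv : v ∉ L.lattice)
    (h1 : u + v ∉ L.lattice) (h2 : u - v ∉ L.lattice) :
    (℘'[L] (u + v) + ℘'[L] (u - v)) * (℘[L] u - ℘[L] v) ^ 3 =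
      -℘'[L] u * (2 * ℘'[L] v ^ 2 + (6 * ℘[L] v ^ 2 - L.g₂ / 2) * (℘[L] u - ℘[L] v)) := by
  have hd := P_diff L hu hv h1 h2
  have hev : (fun t => (℘[L] (u + t) - ℘[L] (u - t)) * (℘[L] u - ℘[L] t) ^ 2) =ᶠ[𝓝 v]
      (fun t => - (℘'[L] u * ℘'[L] t)) := by
    have e1 : ∀ᶠ t in 𝓝 v, t ∉ L.lattice :=
      (L.isClosed_lattice.isOpen_compl).mem_nhds hv
    have e2 : ∀ᶠ t in 𝓝 v, t + u ∉ L.lattice :=
      (ps_open L u).mem_nhds (by simpa [add_comm] using h1)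
    have e3 : ∀ᶠ t in 𝓝 v, u - t ∉ L.lattice :=
      (ps_open' L u).mem_nhds h2
    filter_upwards [e1, e2, e3] with t t1 t2 t3
    exact P_diff L hu t1 (by rwa [add_comm]) t3
  have a1 : HasDerivAt (fun t => ℘[L] (u + t)) (℘'[L] (u + v)) v :=
    (ps_hasDeriv L h1).comp_const_add u v
  have a2 : HasDerivAt (fun t => ℘[L] (u - t)) (-℘'[L] (u - v)) v :=
    (ps_hasDeriv L h2).comp_const_sub u v
  have a3 := ((ps_hasDeriv L hv).const_sub (℘[L] u)).pow 2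
  have a4 := (a1.sub a2).mul a3
  have a5 := (((P_second L hv).const_mul (℘'[L] u)).neg)
  have a6 := (a5.congr_of_eventuallyEq hev).unique a4
  simp only [Nat.add_one_sub_one, pow_one, Nat.cast_ofNat, Pi.sub_apply, Pi.pow_apply] at a6
  linear_combination (-(℘[L] u - ℘[L] v)) * a6 + 2 * ℘'[L] v * hd

private lemma ps_psi_deriv (L : PeriodPair) {u v : ℂ} (hu : u ∉ L.lattice) (hv : v ∉ L.lattice)
    (h1 : u + v ∉ L.lattice) (h2 : u - v ∉ L.lattice) (hXY : ℘[L] u - ℘[L] v ≠ 0) :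
    HasDerivAt (fun z => ℘[L] (z + v) + ℘[L] (z - v) -
      (2 * (℘[L] z * ℘[L] v - L.g₂ / 4) * (℘[L] z + ℘[L] v) - L.g₃) /
        (℘[L] z - ℘[L] v) ^ 2) 0 u := by
  have a1 : HasDerivAt (fun t => ℘[L] (t + v)) (℘'[L] (u + v)) u :=
    (ps_hasDeriv L h1).comp_add_const u v
  have a2 : HasDerivAt (fun t => ℘[L] (t - v)) (℘'[L] (u - v)) u :=
    (ps_hasDeriv L h2).comp_sub_const u v
  have a0 := ps_hasDeriv L hu
  have a3 := (((((a0.mul_const (℘[L] v)).sub_const (L.g₂ / 4)).const_mul 2).mul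
    (a0.add_const (℘[L] v))).sub_const L.g₃).div ((a0.sub_const (℘[L] v)).pow 2)
    (pow_ne_zero 2 hXY)
  have a4 := (a1.add a2).sub a3
  refine a4.congr_deriv ?_
  have hs := ps_star L hu hv h1 h2
  have hq := L.derivWeierstrassP_sq v hv
  simp only [Nat.add_one_sub_one, pow_one, Nat.cast_ofNat, Pi.pow_apply, Pi.mul_apply]
  rw [sub_eq_zero, eq_div_iff (by exact pow_ne_zero 2 (pow_ne_zero 2 hXY))]
  have hs' : (℘'[L] (u + v) + ℘'[L] (u - v)) * (℘[L] u - ℘[L] v) ^ 3 =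
      -℘'[L] u * (2 * (4 * ℘[L] v ^ 3 - L.g₂ * ℘[L] v - L.g₃) +
        (6 * ℘[L] v ^ 2 - L.g₂ / 2) * (℘[L] u - ℘[L] v)) := by
    rw [hs, hq]
  linear_combination (℘[L] u - ℘[L] v) * hs'

private lemma ps_near (L : PeriodPair) {v : ℂ} (hv : v ∉ L.lattice) :
    ∀ᶠ z in 𝓝[≠] (0 : ℂ), z ∉ L.lattice ∧ z + v ∉ L.lattice ∧ z - v ∉ L.lattice ∧
      ℘[L] z - ℘[L] v ≠ 0 := by
  have hv' : -v ∉ L.lattice := fun h => hv (by simpa using L.lattice.neg_mem h)
  have e1 : ∀ᶠ z in 𝓝[≠] (0 : ℂ), z ∉ L.lattice := by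
    have h := L.compl_lattice_sdiff_singleton_mem_nhds 0
    filter_upwards [nhdsWithin_le_nhds h, self_mem_nhdsWithin] with z hz hz0 hzl
    exact hz ⟨hzl, hz0⟩
  have e2 : ∀ᶠ z in 𝓝[≠] (0 : ℂ), z + v ∉ L.lattice :=
    nhdsWithin_le_nhds ((ps_open L v).mem_nhds (by simpa using hv))
  have e3 : ∀ᶠ z in 𝓝[≠] (0 : ℂ), z + -v ∉ L.lattice :=
    nhdsWithin_le_nhds ((ps_open L (-v)).mem_nhds (by simpa using hv))
  have e4 : ∀ᶠ z in 𝓝[≠] (0 : ℂ), ℘[L] z ∈ ({℘[L] v} : Set ℂ)ᶜ := by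
    have ht : Tendsto ℘[L] (𝓝[≠] (0 : ℂ)) (Bornology.cobounded ℂ) := by
      apply tendsto_cobounded_of_meromorphicOrderAt_neg
      rw [L.order_weierstrassP 0 (Submodule.zero_mem _)]
      decide
    exact ht (Bornology.isBounded_def.1 Bornology.isBounded_singleton)
  filter_upwards [e1, e2, e3, e4] with z z1 z2 z3 z4
  exact ⟨z1, z2, by rwa [sub_eq_add_neg], fun h => z4 (by simpa [sub_eq_zero] using h)⟩

private lemma ps_psi_zero (L : PeriodPair) {v : ℂ} (hv : v ∉ L.lattice) :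
    ∀ᶠ z in 𝓝[≠] (0 : ℂ), ℘[L] (z + v) + ℘[L] (z - v) -
      (2 * (℘[L] z * ℘[L] v - L.g₂ / 4) * (℘[L] z + ℘[L] v) - L.g₃) /
        (℘[L] z - ℘[L] v) ^ 2 = 0 := by
  set Ψ : ℂ → ℂ := fun z => ℘[L] (z + v) + ℘[L] (z - v) -
      (2 * (℘[L] z * ℘[L] v - L.g₂ / 4) * (℘[L] z + ℘[L] v) - L.g₃) /
        (℘[L] z - ℘[L] v) ^ 2 with hΨ
  have hv' : -v ∉ L.lattice := fun h => hv (by simpa using L.lattice.neg_mem h)
  have ht : Tendsto ℘[L] (𝓝[≠] (0 : ℂ)) (Bornology.cobounded ℂ) := by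
    apply tendsto_cobounded_of_meromorphicOrderAt_neg
    rw [L.order_weierstrassP 0 (Submodule.zero_mem _)]
    decide
  have hw : Tendsto (fun z => (℘[L] z)⁻¹) (𝓝[≠] (0 : ℂ)) (𝓝 0) :=
    tendsto_inv₀_cobounded.comp ht
  have an1 : AnalyticAt ℂ (fun z => ℘[L] (z + v)) 0 := by
    have h := L.analyticOnNhd_weierstrassP (0 + v) (by simpa using hv)
    exact h.fun_comp_of_eq (by fun_prop) rfl
  have an2 : AnalyticAt ℂ (fun z => ℘[L] (z - v)) 0 := by
    have h := L.analyticOnNhd_weierstrassP (0 - v) (by simpa using hv)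
    exact h.fun_comp_of_eq (by fun_prop) rfl
  have hmer : MeromorphicAt Ψ 0 := by
    have m0 := L.meromorphic_weierstrassP 0
    have m1 := an1.meromorphicAt
    have m2 := an2.meromorphicAt
    exact (m1.add m2).sub (((((MeromorphicAt.const 2 0).mul ((m0.mul
      (MeromorphicAt.const (℘[L] v) 0)).sub (MeromorphicAt.const (L.g₂ / 4) 0))).mul
      (m0.add (MeromorphicAt.const (℘[L] v) 0))).sub (MeromorphicAt.const L.g₃ 0)).div
      ((m0.sub (MeromorphicAt.const (℘[L] v) 0)).pow 2))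
  have hlim : Tendsto Ψ (𝓝[≠] (0 : ℂ)) (𝓝 0) := by
    have q1 : Tendsto (fun z => ℘[L] (z + v) + ℘[L] (z - v)) (𝓝[≠] (0 : ℂ))
        (𝓝 (℘[L] v + ℘[L] v)) := by
      have h := (an1.continuousAt.tendsto.add an2.continuousAt.tendsto)
      simp only [zero_add, zero_sub, L.weierstrassP_neg] at h
      exact h.mono_left nhdsWithin_le_nhds
    have q2 : Tendsto (fun z => (2 * (℘[L] v - L.g₂ / 4 * (℘[L] z)⁻¹) *
        (1 + ℘[L] v * (℘[L] z)⁻¹) - L.g₃ * (℘[L] z)⁻¹ ^ 2) /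
        (1 - ℘[L] v * (℘[L] z)⁻¹) ^ 2) (𝓝[≠] (0 : ℂ))
        (𝓝 ((2 * (℘[L] v - L.g₂ / 4 * 0) * (1 + ℘[L] v * 0) - L.g₃ * 0 ^ 2) /
          (1 - ℘[L] v * 0) ^ 2)) := by
      refine Tendsto.div ?_ ?_ (by simp)
      · exact ((((hw.const_mul _).const_sub _).const_mul _).mul
          ((hw.const_mul _).const_add _)).sub ((hw.pow 2).const_mul _)
      · exact ((hw.const_mul _).const_sub _).pow 2
    have q3 := q1.sub q2
    have e0 : ℘[L] v + ℘[L] v - ((2 * (℘[L] v - L.g₂ / 4 * 0) * (1 + ℘[L] v * 0) -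
        L.g₃ * 0 ^ 2) / (1 - ℘[L] v * 0) ^ 2) = 0 := by
      simp; ring
    rw [e0] at q3
    refine q3.congr' ?_
    have e4 : ∀ᶠ z in 𝓝[≠] (0 : ℂ), ℘[L] z ∈ ({(0 : ℂ)} : Set ℂ)ᶜ :=
      ht (Bornology.isBounded_def.1 Bornology.isBounded_singleton)
    filter_upwards [e4, ps_near L hv] with z z4 zn
    have hX : ℘[L] z ≠ 0 := z4
    have hXY := zn.2.2.2
    have hXY' : 1 - ℘[L] v * (℘[L] z)⁻¹ ≠ 0 := by
      intro h
      apply hXY
      have : (1 - ℘[L] v * (℘[L] z)⁻¹) * ℘[L] z = 0 := by rw [h, zero_mul]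
      field_simp at this
      exact this
    simp only [hΨ]
    congr 1
    rw [div_eq_div_iff (pow_ne_zero 2 hXY') (pow_ne_zero 2 hXY)]
    field_simp
  have hder : deriv Ψ =ᶠ[𝓝[≠] (0 : ℂ)] 0 := by
    filter_upwards [ps_near L hv] with z hz
    exact (ps_psi_deriv L hz.1 hv hz.2.1 hz.2.2.1 hz.2.2.2).deriv
  have htop : meromorphicOrderAt (deriv Ψ) 0 = ⊤ := by
    rw [meromorphicOrderAt_eq_top_iff]
    exact hder
  have hpos := (tendsto_zero_iff_meromorphicOrderAt_pos hmer).1 hlim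
  have hT : meromorphicOrderAt Ψ 0 = ⊤ := by
    by_contra hne
    obtain ⟨n, hn⟩ := WithTop.ne_top_iff_exists.1 hne
    have hn0 : 0 < n := by
      rw [← hn] at hpos
      exact_mod_cast hpos
    have := meromorphicOrderAt_deriv_eq_sub_one (𝕜 := ℂ) (f := Ψ) (x := 0) (n := n)
      (by exact_mod_cast hn0.ne') hn.symm
    rw [htop] at this
    exact WithTop.coe_ne_top this.symm
  rw [meromorphicOrderAt_eq_top_iff] at hT
  exact hT

private lemma ps_countable (L : PeriodPair) : (L.lattice : Set ℂ).Countable := by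
  refine (Set.countable_range (fun p : ℤ × ℤ => (p.1 : ℂ) * L.ω₁ + p.2 * L.ω₂)).mono ?_
  intro x hx
  obtain ⟨m, n, h⟩ := PeriodPair.mem_lattice.1 hx
  exact ⟨(m, n), h⟩

theorem P_sum (L : PeriodPair) {u v : ℂ} (hu : u ∉ L.lattice) (hv : v ∉ L.lattice)
    (h1 : u + v ∉ L.lattice) (h2 : u - v ∉ L.lattice) :
    (℘[L] (u + v) + ℘[L] (u - v)) * (℘[L] u - ℘[L] v) ^ 2 =
      2 * (℘[L] u * ℘[L] v - L.g₂ / 4) * (℘[L] u + ℘[L] v) - L.g₃ := by
  set S : Set ℂ := (L.lattice : Set ℂ) ∪ ((fun z => z - v) '' (L.lattice : Set ℂ)) ∪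
    ((fun z => z + v) '' (L.lattice : Set ℂ)) with hS
  have hSc : S.Countable := ((ps_countable L).union ((ps_countable L).image _)).union
    ((ps_countable L).image _)
  have hconn : IsPreconnected Sᶜ := by
    refine (hSc.isConnected_compl_of_one_lt_rank ?_).isPreconnected
    rw [Complex.rank_real_complex]
    exact_mod_cast Nat.one_lt_two
  have hmem : ∀ z, z ∈ Sᶜ ↔ z ∉ L.lattice ∧ z + v ∉ L.lattice ∧ z - v ∉ L.lattice := by
    intro z
    simp only [hS, Set.compl_union, Set.mem_inter_iff, Set.mem_compl_iff, Set.mem_image,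
      SetLike.mem_coe, not_exists, not_and]
    constructor
    · rintro ⟨⟨a, b⟩, c⟩
      exact ⟨a, fun h => b _ h (by ring), fun h => c _ h (by ring)⟩
    · rintro ⟨a, b, c⟩
      refine ⟨⟨a, ?_⟩, ?_⟩
      · rintro x hx rfl
        exact b (by simpa using hx)
      · rintro x hx rfl
        exact c (by simpa using hx)
  set Φ : ℂ → ℂ := fun z => (℘[L] (z + v) + ℘[L] (z - v)) * (℘[L] z - ℘[L] v) ^ 2 -
      (2 * (℘[L] z * ℘[L] v - L.g₂ / 4) * (℘[L] z + ℘[L] v) - L.g₃) with hΦ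
  have hana : AnalyticOnNhd ℂ Φ Sᶜ := by
    intro z hz
    obtain ⟨z1, z2, z3⟩ := (hmem z).1 hz
    have b0 := L.analyticOnNhd_weierstrassP z z1
    have b1 : AnalyticAt ℂ (fun z => ℘[L] (z + v)) z :=
      (L.analyticOnNhd_weierstrassP (z + v) z2).fun_comp_of_eq (by fun_prop) rfl
    have b2 : AnalyticAt ℂ (fun z => ℘[L] (z - v)) z :=
      (L.analyticOnNhd_weierstrassP (z - v) z3).fun_comp_of_eq (by fun_prop) rfl
    exact ((b1.add b2).mul ((b0.sub analyticAt_const).pow 2)).sub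
      (((analyticAt_const.mul ((b0.mul analyticAt_const).sub analyticAt_const)).mul
        (b0.add analyticAt_const)).sub analyticAt_const)
  -- the formula holds near `0`
  have hnear : ∀ᶠ z in 𝓝[≠] (0 : ℂ), z ∈ Sᶜ ∧ Φ z = 0 := by
    filter_upwards [ps_near L hv, ps_psi_zero L hv] with z hz hp
    refine ⟨(hmem z).2 ⟨hz.1, hz.2.1, hz.2.2.1⟩, ?_⟩
    rw [sub_eq_zero, eq_div_iff (pow_ne_zero 2 hz.2.2.2)] at hp
    simp only [hΦ]
    rw [hp, sub_self]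
  have hnear2 := (eventually_eventually_nhds.2 (eventually_nhdsWithin_iff.1 hnear))
  have hnear3 : ∀ᶠ y in 𝓝[≠] (0 : ℂ), ∀ᶠ z in 𝓝 y, z ∈ ({0} : Set ℂ)ᶜ → z ∈ Sᶜ ∧ Φ z = 0 :=
    hnear2.filter_mono nhdsWithin_le_nhds
  have hnear4 : ∀ᶠ y in 𝓝[≠] (0 : ℂ), y ≠ 0 := eventually_mem_nhdsWithin
  obtain ⟨y, hy, hy0, hyn⟩ := (hnear3.and (hnear4.and hnear)).exists
  have hyS : y ∈ Sᶜ := hyn.1
  have hye : Φ =ᶠ[𝓝 y] 0 := by
    filter_upwards [hy, isOpen_ne.mem_nhds hy0] with z hz hz0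
    exact (hz hz0).2
  have := hana.eqOn_zero_of_preconnected_of_eventuallyEq_zero hconn hyS hye
    ((hmem u).2 ⟨hu, h1, h2⟩)
  simpa [hΦ, sub_eq_zero] using this

end Pool.Agent.CMG
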