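import Pool.Agent.CMG.FrobActs
import Pool.Agent.StarkRQ.ArtSpec

/-!
# S6: the reciprocity homomorphism rho

An element of `Gal(F/k)` is determined by its value at `θ 1` (`A.gen`). For `a` prime to `N` there is
`τ` with `τ (θ 1) = θ a`: factor `a` into primes (`𝓞 k` is a PID); for a unit `ε` `θ ε = θ 1` (`h_unit`);
for a prime `π` prime to `N` take a Frobenius element at a prime of `F` over `(π)`
(`Pool.Agent.StarkRQ.exists_isFrob` in `StarkRQ/ArtSpec.lean`, unfold `IsFrob`,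
`Ideal.absNorm (span {π}) = nrm π`) and `frob_acts`; products by `act_of`. `θ a` depends only on `a`
modulo `N` (`h_congr`), so `ρ` is well defined on classes (every unit of `𝓞 k/N` is a class
`cls N a ha`), multiplicative by `act_of`, surjective by `A.act`; `ρ (cls a) = 1` iff
`h (pt a N) = h (pt 1 N)` iff `a ≡ ε` (`h_inj`).
-/

set_option autoImplicit false

noncomputable section

open NumberField Pool.Agent.StarkRQ

namespace Pool.Agent.CMG

private theorem rho_ext {k : Type} [Field k] [NumberField k] [Algebra k ℂ] {D : EllData k} {N : ℕ}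
    {F : Type} [Field F] [NumberField F] [Algebra k F] [IsGalois k F]
    (A : Model D N F) {τ τ' : Gal(F/k)} (h : τ (A.θ 1) = τ' (A.θ 1)) : τ = τ' := by
  have h1 : IntermediateField.adjoin k {A.θ 1} ≤
      IntermediateField.fixedField (Subgroup.zpowers (τ'⁻¹ * τ)) := by
    rw [IntermediateField.adjoin_simple_le_iff, IntermediateField.mem_fixedField_iff]
    intro f hf
    obtain ⟨n, rfl⟩ := Subgroup.mem_zpowers_iff.1 hf
    have h2 : (τ'⁻¹ * τ) (A.θ 1) = A.θ 1 := by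
      rw [AlgEquiv.mul_apply, h, ← AlgEquiv.mul_apply, inv_mul_cancel, AlgEquiv.one_apply]
    have h3 : (τ'⁻¹ * τ) ∈ MulAction.stabilizer Gal(F/k) (A.θ 1) := h2
    exact (MulAction.stabilizer Gal(F/k) (A.θ 1)).zpow_mem h3 n
  rw [A.gen] at h1
  have h4 : τ'⁻¹ * τ = 1 := by
    ext x
    exact (IntermediateField.mem_fixedField_iff _ _).1 (h1 (IntermediateField.mem_top (x := x)))
      _ (Subgroup.mem_zpowers _)
  rw [inv_mul_eq_one] at h4
  exact h4.symm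

section

variable {k : Type} [Field k] [NumberField k] [Algebra k ℂ] (D : EllData k) {N : ℕ}
  (hN : D.N₀ ∣ N) (hN0 : N ≠ 0) {F : Type} [Field F] [NumberField F] [Algebra k F] [IsGalois k F]
  (A : Model D N F)

include hN hN0

private theorem rho_congr {a b : 𝓞 k} (ha : IsCoprime a (N : 𝓞 k)) (hb : IsCoprime b (N : 𝓞 k))
    (h : (N : 𝓞 k) ∣ a - b) : A.θ a = A.θ b := by
  have hinj : Function.Injective A.κ := A.κ.injective
  apply hinj
  rw [A.κθ a ha, A.κθ b hb, D.h_congr N a b hN hN0 h]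

private theorem rho_unit (ε : (𝓞 k)ˣ) : A.θ (ε : 𝓞 k) = A.θ 1 := by
  have hinj : Function.Injective A.κ := A.κ.injective
  have h1 : IsCoprime (ε : 𝓞 k) (N : 𝓞 k) := ⟨((ε⁻¹ : (𝓞 k)ˣ) : 𝓞 k), 0, by simp⟩
  apply hinj
  rw [A.κθ _ h1, A.κθ 1 isCoprime_one_left]
  have := D.h_unit N 1 ε
  rwa [mul_one] at this

private theorem rho_exists (a : 𝓞 k) :
    IsCoprime a (N : 𝓞 k) → ∃ τ : Gal(F/k), τ (A.θ 1) = A.θ a := by
  haveI := D.pid
  induction a using UniqueFactorizationMonoid.induction_on_prime with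
  | h₁ =>
    intro h
    refine ⟨1, ?_⟩
    rw [AlgEquiv.one_apply]
    refine (rho_congr D hN hN0 A h isCoprime_one_left ?_).symm
    rw [isCoprime_zero_left] at h
    exact h.dvd
  | h₂ x hx =>
    intro _
    obtain ⟨ε, rfl⟩ := hx
    exact ⟨1, (rho_unit D hN hN0 A ε).symm⟩
  | h₃ a p _ hp ih =>
    intro h
    have hpN : IsCoprime p (N : 𝓞 k) := h.of_mul_left_left
    have haN : IsCoprime a (N : 𝓞 k) := h.of_mul_left_right
    obtain ⟨τ, hτ⟩ := ih haN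
    have hprime : (Ideal.span {p}).IsPrime := (Ideal.span_singleton_prime hp.ne_zero).2 hp
    have hbot : (Ideal.span {p} : Ideal (𝓞 k)) ≠ ⊥ := by
      rw [Ne, Ideal.span_singleton_eq_bot]
      exact hp.ne_zero
    obtain ⟨Q, hQ, hQp⟩ := exists_over (M := F) (Ideal.span {p})
    obtain ⟨ψ, hψ⟩ := exists_cong_over hbot hQp
    have h1 : ψ (A.θ 1) = A.θ p := frob_acts D hN hN0 A hQ hp hpN hQp hψ
    refine ⟨ψ * τ, ?_⟩
    rw [AlgEquiv.mul_apply, hτ]
    exact (act_of D hN hN0 A hpN h1).1 a haN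

end

/-- S6 -/
theorem exists_rho {k : Type} [Field k] [NumberField k] [Algebra k ℂ] (D : EllData k) {N : ℕ}
    (hN : D.N₀ ∣ N) (hN0 : N ≠ 0) {F : Type} [Field F] [NumberField F] [Algebra k F] [IsGalois k F]
    (A : Model D N F) : ∃ ρ : (𝓞 k ⧸ Ideal.span {(N : 𝓞 k)})ˣ →* Gal(F/k),
    (∀ (a : 𝓞 k) (ha : IsCoprime a (N : 𝓞 k)), ρ (cls N a ha) (A.θ 1) = A.θ a) ∧
    Function.Surjective ρ ∧ ∀ u, ρ u = 1 ↔ u ∈ (ucls N).range := by
  have hval : ∀ (a : 𝓞 k) (ha : IsCoprime a (N : 𝓞 k)),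
      ((cls N a ha : (𝓞 k ⧸ Ideal.span {(N : 𝓞 k)})ˣ) : 𝓞 k ⧸ Ideal.span {(N : 𝓞 k)}) =
        Ideal.Quotient.mk _ a := fun _ _ => rfl
  have hdvd : ∀ a b : 𝓞 k, (Ideal.Quotient.mk (Ideal.span {(N : 𝓞 k)})) a =
      Ideal.Quotient.mk _ b → (N : 𝓞 k) ∣ a - b := fun a b h => by
    rwa [Ideal.Quotient.eq, Ideal.mem_span_singleton] at h
  have hrep : ∀ u : (𝓞 k ⧸ Ideal.span {(N : 𝓞 k)})ˣ, ∃ (a : 𝓞 k)
      (ha : IsCoprime a (N : 𝓞 k)), cls N a ha = u := by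
    intro u
    obtain ⟨a, ha⟩ := Ideal.Quotient.mk_surjective (u : 𝓞 k ⧸ Ideal.span {(N : 𝓞 k)})
    obtain ⟨b, hb⟩ := Ideal.Quotient.mk_surjective ((u⁻¹ : (𝓞 k ⧸ Ideal.span {(N : 𝓞 k)})ˣ) :
      𝓞 k ⧸ Ideal.span {(N : 𝓞 k)})
    have h1 : Ideal.Quotient.mk (Ideal.span {(N : 𝓞 k)}) (a * b) = Ideal.Quotient.mk _ 1 := by
      rw [map_mul, ha, hb, map_one, Units.mul_inv]
    obtain ⟨d, hd⟩ := hdvd _ _ h1
    refine ⟨a, ⟨b, -d, by linear_combination hd⟩, Units.ext ?_⟩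
    rw [hval, ha]
  choose r hr hru using hrep
  have hex := rho_exists D hN hN0 A
  choose t ht using hex
  have hkey : ∀ (u : (𝓞 k ⧸ Ideal.span {(N : 𝓞 k)})ˣ) (a : 𝓞 k) (ha : IsCoprime a (N : 𝓞 k)),
      cls N a ha = u → t (r u) (hr u) (A.θ 1) = A.θ a := by
    intro u a ha h
    rw [ht]
    refine rho_congr D hN hN0 A (hr u) ha (hdvd _ _ ?_)
    rw [← hval _ (hr u), ← hval a ha, hru, h]
  let ρ : (𝓞 k ⧸ Ideal.span {(N : 𝓞 k)})ˣ →* Gal(F/k) :=
    MonoidHom.mk' (fun u => t (r u) (hr u)) (by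
      intro u v
      apply rho_ext A
      have h1 : cls N (r u * r v) ((hr u).mul_left (hr v)) = u * v := by
        apply Units.ext
        rw [hval, map_mul, Units.val_mul, ← hval _ (hr u), ← hval _ (hr v), hru, hru]
      rw [hkey (u * v) _ ((hr u).mul_left (hr v)) h1, AlgEquiv.mul_apply, ht (r v) (hr v)]
      exact ((act_of D hN hN0 A (hr u) (ht (r u) (hr u))).1 (r v) (hr v)).symm)
  have hρ : ∀ u (a : 𝓞 k) (ha : IsCoprime a (N : 𝓞 k)), cls N a ha = u →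
      ρ u (A.θ 1) = A.θ a := hkey
  refine ⟨ρ, fun a ha => hρ _ a ha rfl, ?_, ?_⟩
  · intro τ
    obtain ⟨c, hc, h1, _⟩ := A.act τ
    refine ⟨cls N c hc, rho_ext A ?_⟩
    rw [hρ _ c hc rfl, h1 1 isCoprime_one_left, mul_one]
  · intro u
    constructor
    · intro h
      have h1 : A.θ (r u) = A.θ 1 := by
        rw [← hρ u (r u) (hr u) (hru u), h, AlgEquiv.one_apply]
      have h2 : D.h (pt (r u) N) = D.h (pt (1 : 𝓞 k) N) := by
        rw [← A.κθ _ (hr u), ← A.κθ 1 isCoprime_one_left, h1]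
      obtain ⟨ε, hε⟩ := D.h_inj N (r u) 1 hN hN0 (hr u) isCoprime_one_left h2
      refine ⟨ε, Units.ext ?_⟩
      rw [mul_one] at hε
      rw [← hru u, hval]
      change Ideal.Quotient.mk _ (ε : 𝓞 k) = _
      symm
      rw [Ideal.Quotient.eq, Ideal.mem_span_singleton]
      exact hε
    · rintro ⟨ε, rfl⟩
      have h1 : IsCoprime (ε : 𝓞 k) (N : 𝓞 k) := ⟨((ε⁻¹ : (𝓞 k)ˣ) : 𝓞 k), 0, by simp⟩
      have h2 : cls N (ε : 𝓞 k) h1 = ucls N ε := Units.ext rfl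
      apply rho_ext A
      rw [hρ _ _ h1 h2, AlgEquiv.one_apply]
      exact rho_unit D hN hN0 A ε

end Pool.Agent.CMG
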