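import Pool.Agent.CMG.XTau
import Pool.Agent.CMG.Tors
import Pool.Agent.CMG.GInd

/-!
# Galois action on torsion points

`sigma_mul`: call the statement `P(α)`. `P(0)`, `P(1)` clear, `P(α) → P(iα)`. Claim:
`P(α), P(β), P(α-β) → P(α+β)`. If `αz ∈ L` (equivalently `αz' ∈ L`) or `βz ∈ L`: clear by
periodicity. Else put `u = αz`, `v = βz`, `u' = αz'`, `v' = βz'`. If `X u ≠ X v`: then `X u' ≠ X v'`
(`σ` is injective), `u ± v, u' ± v' ∉ L` and `XG_sum` gives the claim. If `X u = X v`: then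
`u ± v ∈ L` for one sign (`XG_inj`), same for `u', v'`. If `u - v ∈ L` then `u' - v' ∈ L`,
`X(u+v) = X(2u)`, `XG_dup`, `XG_two_mul_mem_iff`. If `u - v ∉ L` then `u' - v' ∉ L` by `P(α-β)`, so
`u + v ∈ L` and `u' + v' ∈ L`. Then `gauss_induction`; `P(1+i)` is
`XG_one_add_I` together with `mem_or_tau` (`(1+i)z ∈ L ↔ XG z = 0` for `z ∉ L`).
`exists_sigma`: if `n` is a unit take `c = 1`. Otherwise `σ (XG (1/n)) = XG w`, `w ∉ L`
(`XG_surj`); `nw ∈ L` by `sigma_mul`, so `w = c/n`; `c` is prime to `n` because `αw ∈ L ↔ n ∣ α`.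
For `a` use `sigma_mul` with `α = a`.
-/

set_option autoImplicit false

noncomputable section

open Complex Filter Topology
open scoped PeriodPair Classical


namespace Pool.Agent.CMG

section Rel

variable (K : Subfield ℂ) (σ : K →+* ℂ)

/-- `w ↦ w'` is compatible with `σ` -/
private def Rl (w w' : ℂ) : Prop :=
  (w ∈ LG.lattice ↔ w' ∈ LG.lattice) ∧ ∃ h : XG w ∈ K, σ ⟨XG w, h⟩ = XG w'

private lemma XG_mem {w : ℂ} (hw : w ∈ LG.lattice) : XG w = 0 := by
  have h0 : XG 0 = 0 := by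
    have h := XG_I_mul 0
    rw [mul_zero] at h
    have h2 : (2 : ℂ) * XG 0 = 0 := by linear_combination h
    exact (mul_eq_zero.1 h2).resolve_left two_ne_zero
  have h := XG_add_coe 0 hw
  rw [zero_add] at h
  rw [h, h0]

private lemma XG_congr {w w₁ : ℂ} (h : w - w₁ ∈ LG.lattice) : XG w = XG w₁ := by
  have h1 := XG_add_coe w₁ h
  rwa [add_sub_cancel] at h1

variable {K σ}

private lemma Rl.mk' {w w' x y : ℂ} (h : w ∈ LG.lattice ↔ w' ∈ LG.lattice) (hx : XG w = x)
    (hy : XG w' = y) (hK : x ∈ K) (hσ : σ ⟨x, hK⟩ = y) : Rl K σ w w' := by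
  subst hx
  subst hy
  exact ⟨h, hK, hσ⟩

private lemma Rl.of_mem {w w' : ℂ} (hw : w ∈ LG.lattice) (hw' : w' ∈ LG.lattice) :
    Rl K σ w w' := by
  refine Rl.mk' ⟨fun _ => hw', fun _ => hw⟩ (XG_mem hw) (XG_mem hw') K.zero_mem ?_
  exact map_zero σ

private lemma Rl.congr {w w' w₁ w₁' : ℂ} (h : Rl K σ w₁ w₁') (h1 : w - w₁ ∈ LG.lattice)
    (h2 : w' - w₁' ∈ LG.lattice) : Rl K σ w w' := by
  obtain ⟨ha, hb, hc⟩ := h
  refine Rl.mk' ?_ (XG_congr h1) (XG_congr h2) hb hc
  constructor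
  · intro hw
    have h3 : w₁ ∈ LG.lattice := by
      have := sub_mem hw h1
      rwa [sub_sub_cancel] at this
    have := add_mem h2 (ha.1 h3)
    rwa [sub_add_cancel] at this
  · intro hw
    have h3 : w₁' ∈ LG.lattice := by
      have := sub_mem hw h2
      rwa [sub_sub_cancel] at this
    have := add_mem h1 (ha.2 h3)
    rwa [sub_add_cancel] at this

private lemma I_mul_mem {w : ℂ} : I * w ∈ LG.lattice ↔ w ∈ LG.lattice := by
  constructor
  · intro h
    have h1 := mul_mem_LG ⟨0, -1⟩ h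
    have h2 : ((⟨0, -1⟩ : GaussianInt) : ℂ) * (I * w) = w := by
      rw [GaussianInt.toComplex_def']
      push_cast
      linear_combination -w * I_mul_I
    rwa [h2] at h1
  · intro h
    have h1 := mul_mem_LG ⟨0, 1⟩ h
    have h2 : ((⟨0, 1⟩ : GaussianInt) : ℂ) * w = I * w := by
      rw [GaussianInt.toComplex_def']
      push_cast
      ring
    rwa [h2] at h1

private lemma Rl.I_mul {w w' : ℂ} (h : Rl K σ w w') : Rl K σ (I * w) (I * w') := by
  obtain ⟨ha, hb, hc⟩ := h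
  refine Rl.mk' (by rw [I_mul_mem, I_mul_mem, ha]) (XG_I_mul w) (XG_I_mul w') (K.neg_mem hb) ?_
  have : (⟨-XG w, K.neg_mem hb⟩ : K) = -⟨XG w, hb⟩ := rfl
  rw [this, map_neg, hc]

private lemma Rl.add {u v u' v' : ℂ} (hu : Rl K σ u u') (hv : Rl K σ v v')
    (hd : Rl K σ (u - v) (u' - v')) : Rl K σ (u + v) (u' + v') := by
  by_cases hu0 : u ∈ LG.lattice
  · refine hv.congr ?_ ?_
    · rwa [add_sub_cancel_right]
    · rw [add_sub_cancel_right]
      exact hu.1.1 hu0
  by_cases hv0 : v ∈ LG.lattice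
  · refine hu.congr ?_ ?_
    · rwa [add_sub_cancel_left]
    · rw [add_sub_cancel_left]
      exact hv.1.1 hv0
  have hu0' : u' ∉ LG.lattice := fun h => hu0 (hu.1.2 h)
  have hv0' : v' ∉ LG.lattice := fun h => hv0 (hv.1.2 h)
  obtain ⟨hua, hub, huc⟩ := hu
  obtain ⟨hva, hvb, hvc⟩ := hv
  obtain ⟨hda, hdb, hdc⟩ := hd
  by_cases hX : XG u = XG v
  · have hX' : XG u' = XG v' := by
      rw [← huc, ← hvc]
      congr 1
      exact Subtype.ext hX
    by_cases hd0 : u - v ∈ LG.lattice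
    · have hd0' := hda.1 hd0
      have hcong : Rl K σ (2 * u) (2 * u') := by
        have e3 : XG u ^ 3 - XG u ∈ K := K.sub_mem (K.pow_mem hub 3) hub
        have e4 : σ ⟨XG u ^ 3 - XG u, e3⟩ = XG u' ^ 3 - XG u' := by
          have : (⟨XG u ^ 3 - XG u, e3⟩ : K) = ⟨XG u, hub⟩ ^ 3 - ⟨XG u, hub⟩ := rfl
          rw [this, map_sub, map_pow, huc]
        have e5 : XG u ^ 3 - XG u = 0 ↔ XG u' ^ 3 - XG u' = 0 := by
          rw [← e4]
          constructor
          · intro h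
            have : (⟨XG u ^ 3 - XG u, e3⟩ : K) = 0 := Subtype.ext h
            rw [this, map_zero]
          · intro h
            have h1 := (map_eq_zero σ).1 h
            exact congrArg Subtype.val h1
        by_cases h20 : 2 * u ∈ LG.lattice
        · exact Rl.of_mem h20 ((XG_two_mul_mem_iff hu0').2 (e5.1 ((XG_two_mul_mem_iff hu0).1 h20)))
        · have h20' : 2 * u' ∉ LG.lattice := fun h =>
            h20 ((XG_two_mul_mem_iff hu0).2 (e5.2 ((XG_two_mul_mem_iff hu0').1 h)))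
          have h6 : XG u ^ 3 - XG u ≠ 0 := fun h => h20 ((XG_two_mul_mem_iff hu0).2 h)
          have h6' : XG u' ^ 3 - XG u' ≠ 0 := fun h => h20' ((XG_two_mul_mem_iff hu0').2 h)
          have h7 : XG (2 * u) = (XG u ^ 2 + 1) ^ 2 / (4 * (XG u ^ 3 - XG u)) := by
            rw [eq_div_iff (mul_ne_zero (by norm_num) h6)]
            exact XG_dup hu0 h20
          have h7' : XG (2 * u') = (XG u' ^ 2 + 1) ^ 2 / (4 * (XG u' ^ 3 - XG u')) := by
            rw [eq_div_iff (mul_ne_zero (by norm_num) h6')]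
            exact XG_dup hu0' h20'
          have h8 : (XG u ^ 2 + 1) ^ 2 / (4 * (XG u ^ 3 - XG u)) =
              (((⟨XG u, hub⟩ : K) ^ 2 + 1) ^ 2 / (4 * ((⟨XG u, hub⟩ : K) ^ 3 -
                (⟨XG u, hub⟩ : K))) : K) := by
            push_cast
            rfl
          refine Rl.mk' ⟨fun h => absurd h h20, fun h => absurd h h20'⟩ (h7.trans h8) h7'
            (Subtype.prop _) ?_
          rw [Subtype.coe_eta]
          simp only [map_div₀, map_pow, map_add, map_one, map_mul, map_sub, huc, map_ofNat]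
      refine hcong.congr ?_ ?_
      · have : u + v - 2 * u = -(u - v) := by ring
        rw [this]
        exact neg_mem hd0
      · have : u' + v' - 2 * u' = -(u' - v') := by ring
        rw [this]
        exact neg_mem hd0'
    · have hd0' : u' - v' ∉ LG.lattice := fun h => hd0 (hda.2 h)
      exact Rl.of_mem ((XG_inj hu0 hv0 hX).resolve_left hd0)
        ((XG_inj hu0' hv0' hX').resolve_left hd0')
  · have hX' : XG u' ≠ XG v' := by
      intro h
      apply hX
      rw [← huc, ← hvc] at h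
      have := σ.injective h
      exact congrArg Subtype.val this
    have aux : ∀ {u v : ℂ}, XG u ≠ XG v → u - v ∉ LG.lattice ∧ u + v ∉ LG.lattice := by
      intro u v h
      refine ⟨fun h1 => h (XG_congr h1), fun h1 => h ?_⟩
      have : u - (-v) ∈ LG.lattice := by rwa [sub_neg_eq_add]
      rw [XG_congr this, XG_neg]
    obtain ⟨h1, h2⟩ := aux hX
    obtain ⟨h1', h2'⟩ := aux hX'
    have h3 : XG u - XG v ≠ 0 := sub_ne_zero.2 hX
    have h3' : XG u' - XG v' ≠ 0 := sub_ne_zero.2 hX'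
    have h4 : XG (u + v) = 2 * (XG u * XG v - 1) * (XG u + XG v) / (XG u - XG v) ^ 2 -
        XG (u - v) := by
      rw [eq_sub_iff_add_eq, eq_div_iff (pow_ne_zero 2 h3)]
      exact XG_sum hu0 hv0 h2 h1
    have h4' : XG (u' + v') = 2 * (XG u' * XG v' - 1) * (XG u' + XG v') / (XG u' - XG v') ^ 2 -
        XG (u' - v') := by
      rw [eq_sub_iff_add_eq, eq_div_iff (pow_ne_zero 2 h3')]
      exact XG_sum hu0' hv0' h2' h1'
    have h8 : 2 * (XG u * XG v - 1) * (XG u + XG v) / (XG u - XG v) ^ 2 - XG (u - v) =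
        ((2 * ((⟨XG u, hub⟩ : K) * (⟨XG v, hvb⟩ : K) - 1) * ((⟨XG u, hub⟩ : K) +
          (⟨XG v, hvb⟩ : K)) / ((⟨XG u, hub⟩ : K) - (⟨XG v, hvb⟩ : K)) ^ 2 -
            (⟨XG (u - v), hdb⟩ : K) : K) : ℂ) := by
      push_cast
      rfl
    refine Rl.mk' ⟨fun h => absurd h h2, fun h => absurd h h2'⟩ (h4.trans h8) h4'
      (Subtype.prop _) ?_
    rw [Subtype.coe_eta]
    simp only [map_div₀, map_pow, map_add, map_one, map_mul, map_sub, huc, hvc, hdc, map_ofNat]

private lemma one_add_I_mem_iff {z : ℂ} (hz : z ∉ LG.lattice) :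
    (1 + I) * z ∈ LG.lattice ↔ XG z = 0 := by
  constructor
  · intro h
    have h1 := (mem_or_tau h).resolve_left hz
    rw [XG_congr h1, XG_tau]
  · intro h
    have h1 : XG z = XG tau := by rw [h, XG_tau]
    have h2 : (1 + I) * tau ∈ LG.lattice := by
      rw [tau_notMem.2]
      have := mul_mem_LG ⟨0, 1⟩ (mem_LG.2 ⟨1, rfl⟩)
      rw [GaussianInt.toComplex_def'] at this
      simpa using this
    have h3 : ∀ w ∈ LG.lattice, (1 + I) * w ∈ LG.lattice := by
      intro w hw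
      have := mul_mem_LG ⟨1, 1⟩ hw
      rw [GaussianInt.toComplex_def'] at this
      simpa using this
    rcases XG_inj hz tau_notMem.1 h1 with h4 | h4
    · have := add_mem (h3 _ h4) h2
      rwa [← mul_add, sub_add_cancel] at this
    · have := sub_mem (h3 _ h4) h2
      rwa [← mul_sub, add_sub_cancel_right] at this

private lemma Rl.one_add_I {z z' : ℂ} (hI : I ∈ K) (hσ : σ ⟨I, hI⟩ = I) (hz : z ∉ LG.lattice)
    (hz' : z' ∉ LG.lattice) (hK : XG z ∈ K) (h : σ ⟨XG z, hK⟩ = XG z') :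
    Rl K σ ((1 + I) * z) ((1 + I) * z') := by
  have h0 : XG z = 0 ↔ XG z' = 0 := by
    rw [← h]
    constructor
    · intro h1
      have : (⟨XG z, hK⟩ : K) = 0 := Subtype.ext h1
      rw [this, map_zero]
    · intro h1
      exact congrArg Subtype.val ((map_eq_zero σ).1 h1)
  by_cases h1 : XG z = 0
  · exact Rl.of_mem ((one_add_I_mem_iff hz).2 h1) ((one_add_I_mem_iff hz').2 (h0.1 h1))
  · have h1' : XG z' ≠ 0 := fun h => h1 (h0.2 h)
    have h2 : (1 + I) * z ∉ LG.lattice := fun h => h1 ((one_add_I_mem_iff hz).1 h)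
    have h2' : (1 + I) * z' ∉ LG.lattice := fun h => h1' ((one_add_I_mem_iff hz').1 h)
    have h3 : 2 * I * XG z ≠ 0 := mul_ne_zero (mul_ne_zero two_ne_zero I_ne_zero) h1
    have h3' : 2 * I * XG z' ≠ 0 := mul_ne_zero (mul_ne_zero two_ne_zero I_ne_zero) h1'
    have h4 : XG ((1 + I) * z) = (XG z ^ 2 - 1) / (2 * I * XG z) := by
      rw [eq_div_iff h3, ← XG_one_add_I h2]
      ring
    have h4' : XG ((1 + I) * z') = (XG z' ^ 2 - 1) / (2 * I * XG z') := by
      rw [eq_div_iff h3', ← XG_one_add_I h2']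
      ring
    have h8 : (XG z ^ 2 - 1) / (2 * I * XG z) =
        ((((⟨XG z, hK⟩ : K) ^ 2 - 1) / (2 * (⟨I, hI⟩ : K) * (⟨XG z, hK⟩ : K)) : K) : ℂ) := by
      push_cast
      rfl
    refine Rl.mk' ⟨fun h => absurd h h2, fun h => absurd h h2'⟩ (h4.trans h8) h4'
      (Subtype.prop _) ?_
    rw [Subtype.coe_eta]
    simp only [map_div₀, map_pow, map_one, map_mul, map_sub, h, hσ, map_ofNat]

end Rel

/-- the key step: `X (αz) ↦ X (αz')` if `X z ↦ X z'` -/
theorem sigma_mul (K : Subfield ℂ) (σ : K →+* ℂ) (hI : I ∈ K) (hσ : σ ⟨I, hI⟩ = I) {z z' : ℂ}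
    (hz : z ∉ LG.lattice) (hz' : z' ∉ LG.lattice) (hK : XG z ∈ K) (h : σ ⟨XG z, hK⟩ = XG z')
    (α : GaussianInt) : (α * z ∈ LG.lattice ↔ α * z' ∈ LG.lattice) ∧
      ∃ hα : XG (α * z) ∈ K, σ ⟨XG (α * z), hα⟩ = XG (α * z') := by
  change Rl K σ (α * z) (α * z')
  refine gauss_induction (P := fun α : GaussianInt => Rl K σ (α * z) (α * z')) ?_ ?_ ?_ ?_ ?_ α
  · refine Rl.of_mem ?_ ?_
    · simp
    · simp
  · have h1 : Rl K σ z z' := ⟨⟨fun h => absurd h hz, fun h => absurd h hz'⟩, hK, h⟩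
    simpa using h1
  · have h1 := Rl.one_add_I hI hσ hz hz' hK h
    rw [GaussianInt.toComplex_def']
    simpa using h1
  · intro α hα
    have h1 := hα.I_mul
    have h2 : (((⟨0, 1⟩ * α : GaussianInt) : ℂ)) = I * α := by
      rw [map_mul, GaussianInt.toComplex_def']
      simp
    rw [h2, mul_assoc, mul_assoc]
    exact h1
  · intro α β hα hβ hd
    rw [map_sub, sub_mul, sub_mul] at hd
    have h1 := Rl.add hα hβ hd
    rw [map_add, add_mul, add_mul]
    exact h1

theorem exists_sigma {n : GaussianInt} (hn : n ≠ 0) (K : Subfield ℂ) (σ : K →+* ℂ) (hI : I ∈ K)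
    (hσ : σ ⟨I, hI⟩ = I) (hK : XG (1 / n) ∈ K) : ∃ c : GaussianInt, IsCoprime c n ∧
      ∀ a : GaussianInt, ∃ h : XG (a / n) ∈ K, σ ⟨XG (a / n), h⟩ = XG (c * a / n) := by
  have hn' : (n : ℂ) ≠ 0 := by
    simpa using hn
  by_cases hu : IsUnit n
  · refine ⟨1, isCoprime_one_left, fun a => ?_⟩
    have h1 : (a : ℂ) / n ∈ LG.lattice := (div_mem_iff hn).2 (hu.dvd)
    have h2 : ((1 : GaussianInt) : ℂ) * a / n ∈ LG.lattice := by
      rw [map_one, one_mul]
      exact h1
    exact (Rl.of_mem (K := K) (σ := σ) h1 h2).2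
  · have hz : 1 / (n : ℂ) ∉ LG.lattice := by
      intro h
      apply hu
      have h1 := (div_mem_iff (a := 1) hn).1 (by simpa using h)
      exact isUnit_of_dvd_one h1
    obtain ⟨w, hw, hw'⟩ := XG_surj (σ ⟨XG (1 / n), hK⟩)
    have key := sigma_mul K σ hI hσ hz hw hK hw'.symm
    have h1 : (n : ℂ) * w ∈ LG.lattice := by
      rw [← (key n).1, mul_one_div_cancel hn']
      exact mem_LG.2 ⟨1, by simp⟩
    obtain ⟨c, hc⟩ := mem_LG.1 h1
    have hwc : w = c / n := by
      rw [hc]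
      field_simp
    refine ⟨c, ?_, fun a => ?_⟩
    · refine isCoprime_of_irreducible_dvd (fun h => hn h.2) ?_
      rintro p hp ⟨c₁, hc₁⟩ ⟨n₁, hn₁⟩
      have h2 : ((n₁ : ℂ)) * w ∈ LG.lattice := by
        rw [hwc, ← mul_div_assoc, ← map_mul]
        rw [div_mem_iff hn]
        exact ⟨c₁, by rw [hc₁, hn₁]; ring⟩
      have h3 := (key n₁).1.2 h2
      rw [mul_one_div, div_mem_iff hn] at h3
      obtain ⟨d, hd⟩ := h3
      have hn₁0 : n₁ ≠ 0 := by
        rintro rfl
        exact hn (by rw [hn₁, mul_zero])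
      apply hp.not_isUnit
      refine IsUnit.of_mul_eq_one d ?_
      apply mul_left_cancel₀ hn₁0
      rw [hn₁] at hd
      linear_combination -hd
    · obtain ⟨h2, h3⟩ := (key a).2
      have h4 : (a : ℂ) * (1 / n) = a / n := by rw [mul_one_div]
      have h5 : (a : ℂ) * w = c * a / n := by
        rw [hwc]
        ring
      rw [h5] at h3
      simp only [h4] at h2 h3
      exact ⟨h2, h3⟩

end Pool.Agent.CMG
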