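import Pool.Agent.CMG.Sigma

/-!
# Galois action on PsiG

By `exists_sigma` with `n = α` (`XG (1/α) ∈ K` by `hK`): `σ (XG (a/α)) = XG (c a/α)`, `c` prime to
`α`, so `σ` maps the set `HS α` onto itself (`w ∉ L`, `αw ∈ L` means `w ≡ a/α`, `α ∤ a`). Hence
`σ (∏_{t ∈ HS α} (hG z - t)) = ∏_{t ∈ HS α} (hG w - t)`; `σ α = α`.
-/

set_option autoImplicit false

noncomputable section

open Complex Filter Topology
open scoped PeriodPair Classical


namespace Pool.Agent.CMG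

private theorem sigma_coe (K : Subfield ℂ) (σ : K →+* ℂ) (hI : I ∈ K) (hσ : σ ⟨I, hI⟩ = I)
    (α : GaussianInt) : ∃ h : (α : ℂ) ∈ K, σ ⟨(α : ℂ), h⟩ = α := by
  let e : K := (α.re : K) + (α.im : K) * ⟨I, hI⟩
  have he : (e : ℂ) = α := by
    rw [GaussianInt.toComplex_def]
    simp [e]
  have hmem : (α : ℂ) ∈ K := he ▸ e.2
  refine ⟨hmem, ?_⟩
  have h1 : (⟨(α : ℂ), hmem⟩ : K) = e := Subtype.ext he.symm
  rw [h1]
  simp only [e, map_add, map_mul, map_intCast, hσ]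
  rw [GaussianInt.toComplex_def]

/-- the action on the set `HS α` -/
private theorem sigma_HS {α : GaussianInt} (hα : IsOdd α) (K : Subfield ℂ) (σ : K →+* ℂ) (hI : I ∈ K)
    (hσ : σ ⟨I, hI⟩ = I) (hK : ∀ z : ℂ, (∃ m : GaussianInt, m ≠ 0 ∧ m * z ∈ LG.lattice) → XG z ∈ K)
    {t : ℂ} (ht : t ∈ HS α) : ∃ h : t ∈ K, σ ⟨t, h⟩ ∈ HS α := by
  have hα0 : α ≠ 0 := hα.ne_zero
  have hαC : (α : ℂ) ≠ 0 := by
    intro h0
    exact hα0 (GaussianInt.toComplex_eq_zero.1 h0)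
  have h1 : XG (1 / α) ∈ K := by
    refine hK _ ⟨α, hα0, ?_⟩
    rw [mul_one_div_cancel hαC]
    exact mem_LG.2 ⟨1, by simp⟩
  obtain ⟨c, hc, hcx⟩ := exists_sigma hα0 K σ hI hσ h1
  obtain ⟨v, ⟨hv1, hv2⟩, rfl⟩ := ht
  obtain ⟨b, hb⟩ := mem_LG.1 hv2
  have hvb : v = b / α := by
    rw [hb]
    field_simp
  obtain ⟨hbK, hb2⟩ := hcx b
  have hXv : XG v ∈ K := by rw [hvb]; exact hbK
  have hmem : hG v ∈ K := pow_mem hXv 2
  refine ⟨hmem, ?_⟩
  have h2 : σ ⟨hG v, hmem⟩ = hG (c * b / α) := by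
    have e1 : (⟨hG v, hmem⟩ : K) = (⟨XG (b / α), hbK⟩ : K) ^ 2 := by
      apply Subtype.ext
      change XG v ^ 2 = _
      rw [hvb]
      rfl
    rw [e1, map_pow, hb2]
    rfl
  rw [h2]
  refine ⟨c * b / α, ⟨?_, ?_⟩, rfl⟩
  · intro h3
    apply hv1
    rw [hvb, div_mem_iff hα0]
    have h4 : ((c * b : GaussianInt) : ℂ) / α ∈ LG.lattice := by
      rw [map_mul]
      exact h3
    rw [div_mem_iff hα0] at h4
    exact hc.symm.dvd_of_dvd_mul_left h4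
  · rw [mul_div_cancel₀ _ hαC]
    exact mem_LG.2 ⟨c * b, by rw [map_mul]⟩

theorem sigma_PsiG {α : GaussianInt} (hα : IsOdd α) (K : Subfield ℂ) (σ : K →+* ℂ) (hI : I ∈ K)
    (hσ : σ ⟨I, hI⟩ = I) (hK : ∀ z : ℂ, (∃ m : GaussianInt, m ≠ 0 ∧ m * z ∈ LG.lattice) → XG z ∈ K)
    {z w : ℂ} (hz : ∃ m : GaussianInt, m ≠ 0 ∧ m * z ∈ LG.lattice)
    (hw : σ ⟨hG z, pow_mem (hK z hz) 2⟩ = hG w) :
    ∃ h : PsiG α z ∈ K, σ ⟨PsiG α z, h⟩ = PsiG α w := by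
  have hα0 : α ≠ 0 := hα.ne_zero
  have hfin := HS_finite hα0
  have hS := fun t (ht : t ∈ hfin.toFinset) =>
    sigma_HS hα K σ hI hσ hK ((hfin.mem_toFinset).1 ht)
  choose hSK hSσ using hS
  let g : ℂ → ℂ := fun t => if h : t ∈ K then σ ⟨t, h⟩ else 0
  have hg : ∀ t (h : t ∈ K), g t = σ ⟨t, h⟩ := fun t h => dif_pos h
  have hinj : Set.InjOn g (hfin.toFinset : Set ℂ) := by
    intro t ht s hs h
    rw [hg t (hSK t ht), hg s (hSK s hs)] at h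
    have := σ.injective h
    exact congrArg Subtype.val this
  have himg : hfin.toFinset.image g = hfin.toFinset := by
    apply Finset.eq_of_subset_of_card_le
    · intro s hs
      obtain ⟨t, ht, rfl⟩ := Finset.mem_image.1 hs
      rw [hg t (hSK t ht), hfin.mem_toFinset]
      exact hSσ t ht
    · rw [Finset.card_image_of_injOn hinj]
  let hzK : K := ⟨hG z, pow_mem (hK z hz) 2⟩
  let PK : K := ∏ t ∈ hfin.toFinset.attach, (hzK - ⟨t.1, hSK t.1 t.2⟩)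
  have hPK : (PK : ℂ) = ∏ᶠ t ∈ HS α, (hG z - t) := by
    rw [finprod_mem_eq_finite_toFinset_prod _ hfin]
    have e1 : (PK : ℂ) = K.subtype PK := rfl
    rw [e1]
    simp only [PK, map_prod, map_sub]
    exact Finset.prod_attach hfin.toFinset (fun t => hG z - t)
  have hσP : σ PK = ∏ᶠ t ∈ HS α, (hG w - t) := by
    rw [finprod_mem_eq_finite_toFinset_prod _ hfin]
    simp only [PK, map_prod, map_sub]
    have e1 : ∀ t ∈ hfin.toFinset.attach, σ hzK - σ ⟨t.1, hSK t.1 t.2⟩ = hG w - g t.1 := by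
      intro t _
      rw [hg t.1 (hSK t.1 t.2)]
      change σ ⟨hG z, _⟩ - _ = _
      rw [hw]
    rw [Finset.prod_congr rfl e1, Finset.prod_attach hfin.toFinset (fun t => hG w - g t)]
    conv_rhs => rw [← himg]
    rw [Finset.prod_image hinj]
  obtain ⟨hαK, hσα⟩ := sigma_coe K σ hI hσ α
  let p : K := 2 ^ ((nG α - 1) / 2) / ((⟨(α : ℂ), hαK⟩ : K) * PK)
  have hp : (p : ℂ) = PsiG α z := by
    have e1 : (p : ℂ) = K.subtype p := rfl
    rw [e1]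
    simp only [p, map_div₀, map_pow, map_mul, map_ofNat]
    unfold PsiG
    rw [← hPK]
    rfl
  have hmem : PsiG α z ∈ K := hp ▸ p.2
  refine ⟨hmem, ?_⟩
  have h1 : (⟨PsiG α z, hmem⟩ : K) = p := Subtype.ext hp.symm
  rw [h1]
  simp only [p, map_div₀, map_pow, map_mul, map_ofNat]
  rw [hσP, hσα]
  rfl

end Pool.Agent.CMG
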