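import Pool.Agent.CMG.XTau

/-!
# valuations: the subgroup InE and congruences

Write `a = XG u`, `b = XG w`, `T = XG (u+w)`, `T' = XG (u-w)`, `s = T + T' =
2(ab-1)(a+b)/(a-b)²`, `p = TT' = (ab+1)²/(a-b)²` (`XG_sum`, `XG_prod`). `v` the valuation; note
`v(2), v(4), v(6) ≤ 1`.
`add`: `v(a), v(b) > 1`, `u ± w ∉ L`: `y = 1/T` satisfies `y² = (s/p) y - 1/p` with
`s/p = 2(ab-1)(a+b)/(ab+1)²`, `1/p = (a-b)²/(ab+1)²`, both of valuation `< 1` (`v(ab ± 1) = v(ab)`), so
`v(y) < 1` (if `v y ≥ 1` then `v(y²) ≤ max(v(s/p) v(y), v(1/p)) < v(y)²`); first `T, T' ≠ 0` as `p ≠ 0`.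
If `u - w ∈ L`: `XG_dup`, `v(XG(2u)) = v(a)⁴/(v(4) v(a)³) > 1`. (If `a = b` then `u ± w ∈ L`.)
`mul`: `XG (iz) = -XG z` and sums.
`XG_add_InE`: `w ∈ L` clear; otherwise `v(a) ≤ 1 < v(b)` and
`s - 2a = (6a²b - 2a - 2b - 2a³)/(a-b)²`, `p - a² = (2ab + 1 - a⁴ + 2a³b)/(a-b)²` have valuation
`≤ 1/v(b) < 1`; `T² = sT - p` gives `v(T) ≤ 1`, and `(T-a)² = (s-2a)T - (p-a²)`.
`InE_of_XG_sub`: if `u ± w ∈ L` clear. Otherwise `T, T'` with `v ≤ 1` would give `v(ab+1) < 1` (from
`TT'(a-b)² = (ab+1)²`) and `v(2(ab-1)(a+b)) < 1`; as `a ≡ b`, `a² ≡ -1` and `2(a²-1)(2a) ≡ -8a ≡ 0`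
modulo the maximal ideal, but `v(8a) = 1`.
-/

set_option autoImplicit false

noncomputable section

open Complex Filter Topology
open scoped PeriodPair Classical


namespace Pool.Agent.CMG

section val

private theorem ve_lt {Γ : Type*} [LinearOrderedCommGroupWithZero Γ] {a b : Γ} (ha : 1 < a)
    (hb : 1 < b) : a < a * b := by
  have h0 : 0 < a := zero_lt_one.trans ha
  calc a = a * 1 := (mul_one a).symm
    _ < a * b := mul_lt_mul_of_pos_left hb h0

variable (V : ValuationSubring ℂ)

private theorem ve_nat (n : ℕ) : V.valuation (n : ℂ) ≤ 1 :=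
  (V.valuation_le_one_iff _).2 (natCast_mem V n)

private theorem ve_ofNat (n : ℕ) [n.AtLeastTwo] : V.valuation (OfNat.ofNat n : ℂ) ≤ 1 := by
  rw [← Nat.cast_ofNat (R := ℂ)]
  exact ve_nat V _

/-- the points which reduce to `0` -/
def InE (u : ℂ) : Prop := u ∈ LG.lattice ∨ 1 < V.valuation (XG u)

variable {V}

/-- the quadratic equation of `XG (u + w)` -/
private theorem ve_quad {u w : ℂ} (hu : u ∉ LG.lattice) (hw : w ∉ LG.lattice)
    (h1 : u + w ∉ LG.lattice) (h2 : u - w ∉ LG.lattice) :
    XG (u + w) * (2 * (XG u * XG w - 1) * (XG u + XG w) - XG (u + w) * (XG u - XG w) ^ 2) =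
      (XG u * XG w + 1) ^ 2 := by
  linear_combination XG_prod hu hw h1 h2 - XG (u + w) * XG_sum hu hw h1 h2

theorem InE.neg {u : ℂ} (hu : InE V u) : InE V (-u) := by
  rcases hu with hu | hu
  · exact Or.inl (neg_mem hu)
  · right
    rwa [XG_neg]

theorem InE.add {u w : ℂ} (hu : InE V u) (hw : InE V w) : InE V (u + w) := by
  by_cases huL : u ∈ LG.lattice
  · rcases hw with hw | hw
    · exact Or.inl (add_mem huL hw)
    · right
      rwa [add_comm, XG_add_coe w huL]
  by_cases hwL : w ∈ LG.lattice
  · rcases hu with hu | hu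
    · exact absurd hu huL
    · right
      rwa [XG_add_coe u hwL]
  by_cases h1 : u + w ∈ LG.lattice
  · exact Or.inl h1
  right
  replace hu : 1 < V.valuation (XG u) := hu.resolve_left huL
  replace hw : 1 < V.valuation (XG w) := hw.resolve_left hwL
  by_cases h2 : u - w ∈ LG.lattice
  · -- `u ≡ w`
    have h3 : XG (u + w) = XG (2 * w) := by
      rw [show u + w = 2 * w + (u - w) by ring, XG_add_coe _ h2]
    have h4 : 2 * w ∉ LG.lattice := by
      intro h
      apply h1
      rw [show u + w = 2 * w + (u - w) by ring]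
      exact add_mem h h2
    have h5 := XG_dup hwL h4
    rw [← h3] at h5
    have h6 : V.valuation (XG w ^ 2 + 1) = V.valuation (XG w) ^ 2 := by
      rw [Valuation.map_add_eq_of_lt_left, map_pow]
      rw [map_pow, map_one]
      exact one_lt_pow₀ hw (by norm_num)
    have h7 : V.valuation (XG w ^ 3 - XG w) = V.valuation (XG w) ^ 3 := by
      rw [sub_eq_add_neg, Valuation.map_add_eq_of_lt_left, map_pow]
      rw [map_pow, Valuation.map_neg]
      calc V.valuation (XG w) < V.valuation (XG w) * V.valuation (XG w) := ve_lt hw hw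
        _ < V.valuation (XG w) * V.valuation (XG w) * V.valuation (XG w) :=
          ve_lt (hw.trans (ve_lt hw hw)) hw
        _ = V.valuation (XG w) ^ 3 := by rw [pow_succ, pow_two]
    have h8 := congrArg V.valuation h5
    rw [map_mul, map_mul, h7, map_pow, h6] at h8
    have h9 : V.valuation (4 : ℂ) ≤ 1 := ve_ofNat V 4
    have hpos : 0 < V.valuation (XG w) ^ 3 := pow_pos (zero_lt_one.trans hw) 3
    have h10 : V.valuation (XG w) * V.valuation (XG w) ^ 3 ≤
        V.valuation (XG (u + w)) * V.valuation (XG w) ^ 3 := by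
      calc V.valuation (XG w) * V.valuation (XG w) ^ 3
          = (V.valuation (XG w) ^ 2) ^ 2 := by rw [← pow_mul, ← pow_succ']
        _ = V.valuation (XG (u + w)) * (V.valuation 4 * V.valuation (XG w) ^ 3) := h8.symm
        _ ≤ V.valuation (XG (u + w)) * (1 * V.valuation (XG w) ^ 3) :=
          mul_le_mul_right (mul_le_mul_left h9 _) _
        _ = V.valuation (XG (u + w)) * V.valuation (XG w) ^ 3 := by rw [one_mul]
    exact hw.trans_le (le_of_mul_le_mul_right h10 hpos)
  · by_contra hcon
    push Not at hcon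
    have h3 := ve_quad huL hwL h1 h2
    set a := V.valuation (XG u) with ha
    set b := V.valuation (XG w) with hb
    have hab : 1 < a * b := hu.trans (ve_lt hu hw)
    have h4 : V.valuation (XG u * XG w + 1) = a * b := by
      rw [Valuation.map_add_eq_of_lt_left, map_mul]
      rw [map_mul, map_one]
      exact hab
    have h5 : V.valuation (XG u * XG w - 1) = a * b := by
      rw [sub_eq_add_neg, Valuation.map_add_eq_of_lt_left, map_mul]
      rw [map_mul, Valuation.map_neg, map_one]
      exact hab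
    have h6 : V.valuation (XG u + XG w) < a * b := by
      refine (Valuation.map_add _ _ _).trans_lt (max_lt (ve_lt hu hw) ?_)
      rw [mul_comm]
      exact ve_lt hw hu
    have h7 : V.valuation (XG u - XG w) < a * b := by
      refine (Valuation.map_sub _ _ _).trans_lt (max_lt (ve_lt hu hw) ?_)
      rw [mul_comm]
      exact ve_lt hw hu
    have hpos : 0 < a * b := zero_lt_one.trans hab
    have h8 := congrArg V.valuation h3
    rw [map_mul, map_pow, h4] at h8
    have h9 : V.valuation (2 * (XG u * XG w - 1) * (XG u + XG w) -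
        XG (u + w) * (XG u - XG w) ^ 2) < (a * b) ^ 2 := by
      refine (Valuation.map_sub _ _ _).trans_lt (max_lt ?_ ?_)
      · rw [map_mul, map_mul, h5, sq]
        calc V.valuation 2 * (a * b) * V.valuation (XG u + XG w)
            ≤ 1 * (a * b) * V.valuation (XG u + XG w) :=
              mul_le_mul_left (mul_le_mul_left (ve_ofNat V 2) _) _
          _ = (a * b) * V.valuation (XG u + XG w) := by rw [one_mul]
          _ < (a * b) * (a * b) := mul_lt_mul_of_pos_left h6 hpos
      · rw [map_mul, map_pow]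
        calc V.valuation (XG (u + w)) * V.valuation (XG u - XG w) ^ 2
            ≤ 1 * V.valuation (XG u - XG w) ^ 2 := mul_le_mul_left hcon _
          _ = V.valuation (XG u - XG w) ^ 2 := one_mul _
          _ < (a * b) ^ 2 := pow_lt_pow_left₀ h7 zero_le' (by norm_num)
    have h10 : V.valuation (XG (u + w)) * V.valuation (2 * (XG u * XG w - 1) * (XG u + XG w) -
        XG (u + w) * (XG u - XG w) ^ 2) ≤ V.valuation (2 * (XG u * XG w - 1) * (XG u + XG w) -
        XG (u + w) * (XG u - XG w) ^ 2) := by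
      calc _ ≤ 1 * V.valuation (2 * (XG u * XG w - 1) * (XG u + XG w) -
        XG (u + w) * (XG u - XG w) ^ 2) := mul_le_mul_left hcon _
        _ = _ := one_mul _
    rw [h8] at h10
    exact absurd h9 h10.not_gt

private theorem ve_zero : InE V 0 := Or.inl (zero_mem _)

private theorem ve_int {u : ℂ} (hu : InE V u) (n : ℤ) : InE V (n * u) := by
  have h : ∀ n : ℕ, InE V (n * u) := by
    intro n
    induction n with
    | zero => simpa using ve_zero
    | succ n ih =>
      rw [Nat.cast_succ, add_mul, one_mul]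
      exact ih.add hu
  obtain ⟨m, rfl | rfl⟩ := n.eq_nat_or_neg
  · simpa using h m
  · have := (h m).neg
    simpa using this

private theorem ve_I {u : ℂ} (hu : InE V u) : InE V (I * u) := by
  rcases hu with hu | hu
  · left
    have := mul_mem_LG (⟨0, 1⟩ : GaussianInt) hu
    simpa [GaussianInt.toComplex_def] using this
  · right
    rwa [XG_I_mul, Valuation.map_neg]

theorem InE.mul {u : ℂ} (hu : InE V u) (α : GaussianInt) : InE V (α * u) := by
  rw [GaussianInt.toComplex_def, add_mul, mul_assoc]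
  exact (ve_int hu _).add (ve_int (ve_I hu) _)

theorem XG_add_InE {u w : ℂ} (hu : ¬ InE V u) (hw : InE V w) :
    V.valuation (XG (u + w) - XG u) < 1 := by
  have huL : u ∉ LG.lattice := fun h => hu (Or.inl h)
  by_cases hwL : w ∈ LG.lattice
  · rw [XG_add_coe u hwL, sub_self, map_zero]
    exact zero_lt_one
  have h1 : u + w ∉ LG.lattice := by
    intro h
    apply hu
    have h2 : InE V (u + w) := Or.inl h
    have h3 := h2.add hw.neg
    rwa [add_neg_cancel_right] at h3
  have h2 : u - w ∉ LG.lattice := by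
    intro h
    apply hu
    have h2 : InE V (u - w) := Or.inl h
    have h3 := h2.add hw
    rwa [sub_add_cancel] at h3
  have hw' : 1 < V.valuation (XG w) := hw.resolve_left hwL
  have hu' : V.valuation (XG u) ≤ 1 := by
    by_contra h
    push Not at h
    exact hu (Or.inr h)
  have h3 := ve_quad huL hwL h1 h2
  set T := XG (u + w) with hT
  set a := XG u with ha
  set b := XG w with hb
  have h4 : (T - a) ^ 2 * (a - b) ^ 2 = (T - a) * (6 * a ^ 2 * b - 2 * a - 2 * b - 2 * a ^ 3) +
      (4 * a * b * (a ^ 2 - 1) - (a ^ 2 + 1) ^ 2) := by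
    linear_combination -h3
  by_contra hcon
  push Not at hcon
  have ha1 : ∀ n : ℕ, V.valuation (a ^ n) ≤ 1 := fun n => by
    rw [map_pow]
    exact pow_le_one₀ zero_le' hu'
  have hV : ∀ x : ℂ, x ∈ V ↔ V.valuation x ≤ 1 := fun x => (V.valuation_le_one_iff x).symm
  have haV : a ∈ V := (hV a).2 hu'
  have h5 : V.valuation (a - b) = V.valuation b := by
    rw [sub_eq_add_neg, Valuation.map_add_eq_of_lt_right, Valuation.map_neg]
    rw [Valuation.map_neg]
    exact hu'.trans_lt hw'
  have hn : ∀ n : ℕ, (n : ℂ) ∈ V := fun n => natCast_mem V n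
  have h6V : (6 : ℂ) ∈ V := by simpa using hn 6
  have h2V : (2 : ℂ) ∈ V := by simpa using hn 2
  have h4V : (4 : ℂ) ∈ V := by simpa using hn 4
  have h6 : V.valuation (6 * a ^ 2 * b - 2 * a - 2 * b - 2 * a ^ 3) ≤ V.valuation b := by
    have e : 6 * a ^ 2 * b - 2 * a - 2 * b - 2 * a ^ 3 =
        (6 * a ^ 2 - 2) * b + (-(2 * a) - 2 * a ^ 3) := by ring
    rw [e]
    refine (Valuation.map_add _ _ _).trans (max_le ?_ ?_)
    · rw [map_mul]
      calc _ ≤ 1 * V.valuation b := mul_le_mul_left ((hV _).1
            (sub_mem (mul_mem h6V (pow_mem haV 2)) h2V)) _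
        _ = V.valuation b := one_mul _
    · exact ((hV _).1 (sub_mem (neg_mem (mul_mem h2V haV)) (mul_mem h2V (pow_mem haV 3)))).trans
        hw'.le
  have h7 : V.valuation (4 * a * b * (a ^ 2 - 1) - (a ^ 2 + 1) ^ 2) ≤ V.valuation b := by
    have e : 4 * a * b * (a ^ 2 - 1) - (a ^ 2 + 1) ^ 2 =
        (4 * a * (a ^ 2 - 1)) * b + (-(a ^ 2 + 1) ^ 2) := by ring
    rw [e]
    refine (Valuation.map_add _ _ _).trans (max_le ?_ ?_)
    · rw [map_mul]
      calc _ ≤ 1 * V.valuation b := mul_le_mul_left ((hV _).1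
            (mul_mem (mul_mem h4V haV) (sub_mem (pow_mem haV 2) (one_mem V)))) _
        _ = V.valuation b := one_mul _
    · exact ((hV _).1 (neg_mem (pow_mem (add_mem (pow_mem haV 2) (one_mem V)) 2))).trans hw'.le
  have h8 := congrArg V.valuation h4
  rw [map_mul, map_pow, map_pow, h5] at h8
  have hd0 : 0 < V.valuation (T - a) := zero_lt_one.trans_le hcon
  have hb0 : 0 < V.valuation b := zero_lt_one.trans hw'
  have h9 : V.valuation (T - a) ^ 2 * V.valuation b ^ 2 ≤ V.valuation (T - a) * V.valuation b := by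
    rw [h8]
    refine (Valuation.map_add _ _ _).trans (max_le ?_ ?_)
    · rw [map_mul]
      exact mul_le_mul_right h6 _
    · refine h7.trans ?_
      calc V.valuation b = 1 * V.valuation b := (one_mul _).symm
        _ ≤ V.valuation (T - a) * V.valuation b := mul_le_mul_left hcon _
  have h10 : V.valuation (T - a) * V.valuation b <
      V.valuation (T - a) ^ 2 * V.valuation b ^ 2 := by
    have h11 : 1 < V.valuation (T - a) * V.valuation b :=
      calc 1 < V.valuation b := hw'
        _ = 1 * V.valuation b := (one_mul _).symm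
        _ ≤ V.valuation (T - a) * V.valuation b := mul_le_mul_left hcon _
    calc V.valuation (T - a) * V.valuation b
        < (V.valuation (T - a) * V.valuation b) * (V.valuation (T - a) * V.valuation b) :=
          ve_lt h11 h11
      _ = V.valuation (T - a) ^ 2 * V.valuation b ^ 2 := by rw [sq, sq, mul_mul_mul_comm]
  exact absurd h10 h9.not_gt

theorem InE_of_XG_sub {u w : ℂ} (h2 : V.valuation (2 : ℂ) = 1) (hu : ¬ InE V u) (hw : ¬ InE V w)
    (h : V.valuation (XG u - XG w) < 1) : InE V (u + w) ∨ InE V (u - w) := by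
  by_contra hcon
  push Not at hcon
  obtain ⟨hp, hm⟩ := hcon
  have huL : u ∉ LG.lattice := fun h => hu (Or.inl h)
  have hwL : w ∉ LG.lattice := fun h => hw (Or.inl h)
  have hpL : u + w ∉ LG.lattice := fun h => hp (Or.inl h)
  have hmL : u - w ∉ LG.lattice := fun h => hm (Or.inl h)
  have hT : V.valuation (XG (u + w)) ≤ 1 := by
    by_contra h
    push Not at h
    exact hp (Or.inr h)
  have hT' : V.valuation (XG (u - w)) ≤ 1 := by
    by_contra h
    push Not at h
    exact hm (Or.inr h)
  have hw1 : V.valuation (XG w) ≤ 1 := by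
    by_contra h
    push Not at h
    exact hw (Or.inr h)
  have h3 := congrArg V.valuation (XG_prod huL hwL hpL hmL)
  have h4 := congrArg V.valuation (XG_sum huL hwL hpL hmL)
  have hsq : V.valuation (XG u - XG w) ^ 2 < 1 := pow_lt_one₀ zero_le' h (by norm_num)
  rw [map_mul, map_mul, map_pow, map_pow] at h3
  rw [map_mul, map_mul, map_mul, map_pow, h2, one_mul] at h4
  have h5 : V.valuation (XG u * XG w + 1) < 1 := by
    have h6 : V.valuation (XG u * XG w + 1) ^ 2 < 1 := by
      rw [← h3]
      calc V.valuation (XG (u + w)) * V.valuation (XG (u - w)) * V.valuation (XG u - XG w) ^ 2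
          ≤ 1 * V.valuation (XG u - XG w) ^ 2 := mul_le_mul_left (mul_le_one' hT hT') _
        _ = V.valuation (XG u - XG w) ^ 2 := one_mul _
        _ < 1 := hsq
    by_contra h7
    push Not at h7
    exact absurd h6 (one_le_pow₀ h7).not_gt
  have h6 : V.valuation (XG u * XG w - 1) = 1 := by
    rw [show XG u * XG w - 1 = -2 + (XG u * XG w + 1) by ring, Valuation.map_add_eq_of_lt_left,
      Valuation.map_neg, h2]
    rw [Valuation.map_neg, h2]
    exact h5
  rw [h6, one_mul] at h4
  have h7 : V.valuation (XG u + XG w) < 1 := by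
    rw [← h4]
    calc V.valuation (XG (u + w) + XG (u - w)) * V.valuation (XG u - XG w) ^ 2
        ≤ 1 * V.valuation (XG u - XG w) ^ 2 :=
          mul_le_mul_left ((Valuation.map_add _ _ _).trans (max_le hT hT')) _
      _ = V.valuation (XG u - XG w) ^ 2 := one_mul _
      _ < 1 := hsq
  have h8 : V.valuation (XG u) < 1 := by
    have h9 : V.valuation (2 * XG u) < 1 := by
      rw [show 2 * XG u = (XG u + XG w) + (XG u - XG w) by ring]
      exact (Valuation.map_add _ _ _).trans_lt (max_lt h7 h)
    rwa [map_mul, h2, one_mul] at h9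
  have h9 : V.valuation (XG u * XG w) < 1 := by
    rw [map_mul]
    calc V.valuation (XG u) * V.valuation (XG w) ≤ V.valuation (XG u) * 1 :=
          mul_le_mul_right hw1 _
      _ = V.valuation (XG u) := mul_one _
      _ < 1 := h8
  have h10 : V.valuation (XG u * XG w + 1) = 1 := by
    rw [Valuation.map_add_eq_of_lt_right, map_one]
    rw [map_one]
    exact h9
  exact absurd h5 (by rw [h10]; exact lt_irrefl _)

end val

end Pool.Agent.CMG
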