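import Pool.Agent.CMG.ValE
import Pool.Agent.CMG.TFive

/-!
# valuations: torsion points in InE

Every Gaussian integer has `v ≤ 1`. For a prime `π` and `w ∉ L`, `πw ∈ L`, the multiples of `w` are
all of `E[π]` (`GaussianInt/π` is a field).
`mem_of_InE`: suppose `w ∉ L`. Factor `α` into primes: there are `δ`, `π ∣ α` prime with `δw ∉ L`,
`πδw ∈ L`, `δw ∈ InE` (`InE.mul`), `v(π) = 1`. Then all nonzero points of `E[π]` are in `InE`, i.e.
`v(XG) > 1`. If `π` is odd this contradicts `∏_{q≠0} XG (tor π q) = ±π⁻²` (`T5`), whose valuation is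
`1` (the product is not empty). If `π` divides `1+i`: `δw ≡ τ` and `XG τ = 0`.
`InE_of_prime`: `∏ v(XG (tor π q)) = v(π)⁻² > 1`, so some nonzero `tor π q` is in `InE`, and `w` is a
multiple of it.
-/

set_option autoImplicit false

noncomputable section

open Complex Filter Topology
open scoped PeriodPair Classical


namespace Pool.Agent.CMG

section val

variable {V : ValuationSubring ℂ}

private theorem vt_sq {x : V.ValueGroup} (h : x ^ 2 = 1) : x = 1 := by
  rcases lt_trichotomy x 1 with h1 | h1 | h1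
  · exfalso
    have h2 : x * x ≤ x := mul_le_of_le_one_right' h1.le
    rw [← pow_two, h] at h2
    exact absurd h1 (not_lt.2 h2)
  · exact h1
  · exfalso
    have h2 : x ≤ x * x := le_mul_of_one_le_right' h1.le
    rw [← pow_two, h] at h2
    exact absurd h1 (not_lt.2 h2)

private theorem vt_I : V.valuation (I : ℂ) = 1 := by
  apply vt_sq
  rw [← map_pow, I_sq, Valuation.map_neg, map_one]

private theorem vt_le (β : GaussianInt) : V.valuation (β : ℂ) ≤ 1 := by
  rw [ValuationSubring.valuation_le_one_iff, GaussianInt.toComplex_def]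
  have h1 : (I : ℂ) ∈ V := (V.valuation_le_one_iff _).1 (vt_I (V := V)).le
  exact V.add_mem _ _ (intCast_mem V _) (V.mul_mem _ _ (intCast_mem V _) h1)

private theorem InE_congr {u w : ℂ} (hu : InE V u) (h : w - u ∈ LG.lattice) : InE V w := by
  rcases hu with hu | hu
  · left
    have := LG.lattice.add_mem hu h
    rwa [add_sub_cancel] at this
  · right
    have h1 := XG_add_coe u h
    rw [add_sub_cancel] at h1
    rwa [h1]

private theorem vt_tor {π : GaussianInt} (hπ : Prime π) {w : ℂ} (hw : π * w ∈ LG.lattice)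
    (hw' : w ∉ LG.lattice) (q : GaussianInt ⧸ Ideal.span {π}) :
    ∃ β : GaussianInt, tor π q - β * w ∈ LG.lattice := by
  have h0 : (π : ℂ) ≠ 0 := by
    rw [Ne, GaussianInt.toComplex_eq_zero]
    exact hπ.ne_zero
  obtain ⟨q₀, hq₀, -⟩ := exists_tor hπ.ne_zero hw
  set a : GaussianInt := Quotient.out q₀ with ha
  set b : GaussianInt := Quotient.out q with hb
  have hq₀' : q₀ ≠ 0 := by
    intro h
    have h1 := (tor_mem_iff hπ.ne_zero q₀).2 h
    have h2 := LG.lattice.add_mem hq₀ h1
    rw [sub_add_cancel] at h2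
    exact hw' h2
  have hdvd : ¬ π ∣ a := by
    intro h
    have h1 := (div_mem_iff (a := a) hπ.ne_zero).2 h
    exact hq₀' ((tor_mem_iff hπ.ne_zero q₀).1 h1)
  have hcop : IsCoprime π a := hπ.irreducible.coprime_iff_not_dvd.2 hdvd
  obtain ⟨s, t, hst⟩ := hcop
  refine ⟨b * t, ?_⟩
  have h1 : (s : ℂ) * π + t * a = 1 := by
    rw [← GaussianInt.toComplex_mul, ← GaussianInt.toComplex_mul, ← GaussianInt.toComplex_add, hst,
      GaussianInt.toComplex_one]
  have h2 : ((b * t : GaussianInt) : ℂ) * (w - tor π q₀) ∈ LG.lattice := mul_mem_LG _ hq₀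
  have h3 : ((b * s : GaussianInt) : ℂ) ∈ LG.lattice := mem_LG.2 ⟨_, rfl⟩
  have h4 : tor π q - ((b * t : GaussianInt) : ℂ) * w =
      ((b * s : GaussianInt) : ℂ) - ((b * t : GaussianInt) : ℂ) * (w - tor π q₀) := by
    have e1 : tor π q = (b : ℂ) / π := rfl
    have e2 : tor π q₀ = (a : ℂ) / π := rfl
    rw [e1, e2, GaussianInt.toComplex_mul, GaussianInt.toComplex_mul]
    field_simp
    linear_combination (-(b : ℂ)) * h1
  rw [h4]
  exact LG.lattice.sub_mem h3 h2

private theorem vt_one_le {ι : Type*} (f : ι → V.ValueGroup) (s : Finset ι)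
    (h : ∀ i ∈ s, 1 ≤ f i) : 1 ≤ ∏ i ∈ s, f i := by
  induction s using Finset.induction_on with
  | empty => simp
  | insert a s ha ih =>
    rw [Finset.prod_insert ha]
    exact one_le_mul (h a (Finset.mem_insert_self _ _))
      (ih fun i hi => h i (Finset.mem_insert_of_mem hi))

private theorem vt_le_one {ι : Type*} (f : ι → V.ValueGroup) (s : Finset ι)
    (h : ∀ i ∈ s, f i ≤ 1) : ∏ i ∈ s, f i ≤ 1 := by
  induction s using Finset.induction_on with
  | empty => simp
  | insert a s ha ih =>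
    rw [Finset.prod_insert ha]
    exact mul_le_one' (h a (Finset.mem_insert_self _ _))
      (ih fun i hi => h i (Finset.mem_insert_of_mem hi))

/-- the product over the nonzero points of `E[π]` -/
private theorem vt_prod {π : GaussianInt} (hπ0 : π ≠ 0) (hπ' : IsOdd π) :
    ∃ _ : Fintype (GaussianInt ⧸ Ideal.span {π}),
      (∏ q : GaussianInt ⧸ Ideal.span {π}, if q ≠ 0 then V.valuation (XG (tor π q)) else 1) *
        V.valuation (π : ℂ) ^ 2 = 1 := by
  have hfin := finite_quot hπ0
  refine ⟨Fintype.ofFinite _, ?_⟩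
  obtain ⟨ε, hε, -, h⟩ := T5 hπ'
  have h0 : (π : ℂ) ≠ 0 := by
    rw [Ne, GaussianInt.toComplex_eq_zero]
    exact hπ0
  letI := Fintype.ofFinite (GaussianInt ⧸ Ideal.span {π})
  rw [finprod_eq_prod_of_fintype] at h
  simp only [finprod_eq_if] at h
  have h1 := congrArg V.valuation h
  rw [map_prod, map_div₀, map_pow] at h1
  have h2 : V.valuation ε = 1 := by
    apply vt_sq
    rw [← map_pow, hε, map_one]
  have h3 : ∀ q : GaussianInt ⧸ Ideal.span {π},
      V.valuation (if q ≠ 0 then XG (tor π q) else 1) =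
        if q ≠ 0 then V.valuation (XG (tor π q)) else 1 := by
    intro q
    split_ifs
    · rfl
    · exact map_one _
  simp only [h3] at h1
  have h4 : V.valuation (π : ℂ) ≠ 0 := by
    rw [Ne, map_eq_zero]
    exact h0
  rw [h1, h2, one_div, inv_mul_cancel₀ (pow_ne_zero 2 h4)]

private theorem vt_even {π : GaussianInt} (hπ : Prime π) (h : ¬ IsOdd π) {w : ℂ}
    (hw : π * w ∈ LG.lattice) : (1 + I) * w ∈ LG.lattice := by
  have h1 : Even (π.re + π.im) := by
    have h2 : Even (nG π) := Nat.not_odd_iff_even.1 h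
    have h3 : Even (Zsqrtd.norm π) := by
      rw [← Int.natAbs_even]
      exact h2
    rw [Zsqrtd.norm_def] at h3
    have h4 : π.re * π.re - -1 * π.im * π.im = (π.re + π.im) * (π.re + π.im) - 2 * (π.re * π.im) := by
      ring
    rw [h4, Int.even_sub] at h3
    have h5 := h3.2 (even_two_mul _)
    rw [Int.even_mul] at h5
    tauto
  obtain ⟨u, hu⟩ := h1
  have hfac : π = (⟨1, 1⟩ : GaussianInt) * ⟨u, u - π.re⟩ := by
    rw [Zsqrtd.ext_iff]
    simp only [Zsqrtd.re_mul, Zsqrtd.im_mul]
    constructor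
    · ring
    · linarith
  have hnu : ¬ IsUnit (⟨1, 1⟩ : GaussianInt) := by
    intro hu'
    have h6 := Zsqrtd.norm_eq_one_iff.2 hu'
    simp [Zsqrtd.norm_def] at h6
  rcases hπ.irreducible.isUnit_or_isUnit hfac with h7 | h7
  · exact absurd h7 hnu
  · obtain ⟨c, hc⟩ := h7
    have h8 : ((c⁻¹ : GaussianIntˣ) : GaussianInt) * π = ⟨1, 1⟩ := by
      rw [hfac, ← hc, mul_comm (⟨1, 1⟩ : GaussianInt), ← mul_assoc, Units.inv_mul, one_mul]
    have h9 : ((((c⁻¹ : GaussianIntˣ) : GaussianInt)) : ℂ) * (π : ℂ) = 1 + I := by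
      rw [← GaussianInt.toComplex_mul, h8, GaussianInt.toComplex_def']
      simp
    rw [← h9, mul_assoc]
    exact mul_mem_LG _ hw

private theorem vt_prime {π : GaussianInt} (hπ : Prime π) (hα : V.valuation (π : ℂ) = 1) {w : ℂ}
    (hw : π * w ∈ LG.lattice) (h : InE V w) : w ∈ LG.lattice := by
  by_contra hw'
  by_cases hodd : IsOdd π
  · obtain ⟨_, hp⟩ := vt_prod (V := V) hπ.ne_zero hodd
    rw [hα, one_pow, mul_one] at hp
    have hall : ∀ q : GaussianInt ⧸ Ideal.span {π}, q ≠ 0 → 1 < V.valuation (XG (tor π q)) := by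
      intro q hq
      obtain ⟨β, hβ⟩ := vt_tor hπ hw hw' q
      rcases InE_congr (h.mul β) hβ with h1 | h1
      · exact absurd ((tor_mem_iff hπ.ne_zero q).1 h1) hq
      · exact h1
    obtain ⟨q₀, hq₀, -⟩ := exists_tor hπ.ne_zero hw
    have hq₀' : q₀ ≠ 0 := by
      intro h
      have h1 := (tor_mem_iff hπ.ne_zero q₀).2 h
      have h2 := LG.lattice.add_mem hq₀ h1
      rw [sub_add_cancel] at h2
      exact hw' h2
    have h1 := vt_one_le (V := V) (fun q : GaussianInt ⧸ Ideal.span {π} =>
      if q ≠ 0 then V.valuation (XG (tor π q)) else 1) (Finset.univ.erase q₀) (by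
        intro q _
        split_ifs with h2
        · exact (hall q h2).le
        · exact le_rfl)
    rw [← Finset.mul_prod_erase Finset.univ _ (Finset.mem_univ q₀), if_pos hq₀'] at hp
    have h2 : V.valuation (XG (tor π q₀)) ≤ 1 := by
      rw [← hp]
      exact le_mul_of_one_le_right' h1
    exact absurd (hall q₀ hq₀') (not_lt.2 h2)
  · rcases mem_or_tau (vt_even hπ hodd hw) with h1 | h1
    · exact hw' h1
    · rcases h with h2 | h2
      · exact hw' h2
      · have h3 := XG_add_coe tau h1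
        rw [add_sub_cancel, XG_tau] at h3
        rw [h3, map_zero] at h2
        exact absurd h2 (not_lt.2 zero_le_one)

theorem mem_of_InE {α : GaussianInt} (hα : V.valuation (α : ℂ) = 1) {w : ℂ} (hw : α * w ∈ LG.lattice)
    (h : InE V w) : w ∈ LG.lattice := by
  induction α using UniqueFactorizationMonoid.induction_on_prime generalizing w with
  | h₁ =>
    rw [GaussianInt.toComplex_zero, map_zero] at hα
    exact absurd hα zero_ne_one
  | h₂ α hu =>
    obtain ⟨c, rfl⟩ := hu
    have h1 := mul_mem_LG ((c⁻¹ : GaussianIntˣ) : GaussianInt) hw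
    rw [← mul_assoc, ← GaussianInt.toComplex_mul, Units.inv_mul, GaussianInt.toComplex_one,
      one_mul] at h1
    exact h1
  | h₃ β π hβ hπ ih =>
    have h1 : V.valuation (π : ℂ) * V.valuation (β : ℂ) = 1 := by
      rw [← map_mul, ← GaussianInt.toComplex_mul]
      exact hα
    have h2 := vt_le (V := V) π
    have h3 := vt_le (V := V) β
    have h4 : V.valuation (π : ℂ) = 1 := by
      refine le_antisymm h2 ?_
      rw [← h1]
      exact mul_le_of_le_one_right' h3
    have h5 : V.valuation (β : ℂ) = 1 := by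
      rw [h4, one_mul] at h1
      exact h1
    refine ih h5 (vt_prime hπ h4 ?_ (h.mul β)) h
    rw [← mul_assoc, ← GaussianInt.toComplex_mul]
    exact hw

theorem InE_of_prime {π : GaussianInt} (hπ : Prime π) (hπ' : IsOdd π) (hV : V.valuation (π : ℂ) < 1)
    {w : ℂ} (hw : π * w ∈ LG.lattice) : InE V w := by
  by_cases hw' : w ∈ LG.lattice
  · exact Or.inl hw'
  obtain ⟨_, hp⟩ := vt_prod (V := V) hπ.ne_zero hπ'
  have h1 : ∃ q : GaussianInt ⧸ Ideal.span {π}, q ≠ 0 ∧ 1 < V.valuation (XG (tor π q)) := by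
    by_contra hcon
    push Not at hcon
    have h2 := vt_le_one (V := V) (fun q : GaussianInt ⧸ Ideal.span {π} =>
      if q ≠ 0 then V.valuation (XG (tor π q)) else 1) Finset.univ (by
        intro q _
        split_ifs with h2
        · exact hcon q h2
        · exact le_rfl)
    have h3 : V.valuation (π : ℂ) ^ 2 < 1 := by
      rw [pow_two]
      exact (mul_le_of_le_one_right' hV.le).trans_lt hV
    have h4 : (∏ q : GaussianInt ⧸ Ideal.span {π}, if q ≠ 0 then V.valuation (XG (tor π q)) else 1) *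
        V.valuation (π : ℂ) ^ 2 < 1 := (mul_le_of_le_one_left' h2).trans_lt h3
    rw [hp] at h4
    exact lt_irrefl _ h4
  obtain ⟨q, hq, hqv⟩ := h1
  have hq' : tor π q ∉ LG.lattice := fun h2 => hq ((tor_mem_iff hπ.ne_zero q).1 h2)
  obtain ⟨q₀, hq₀, -⟩ := exists_tor hπ.ne_zero hw
  obtain ⟨β, hβ⟩ := vt_tor hπ (mul_tor_mem hπ.ne_zero q) hq' q₀
  have h2 : InE V (tor π q) := Or.inr hqv
  exact InE_congr (InE_congr (h2.mul β) hβ) hq₀

end val

end Pool.Agent.CMG
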