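import Pool.Agent.CMG.XTau
import Pool.Agent.CMG.Tors

/-!
# valuations over 2: points of odd order

`(1+i)^m ≡ 1` mod `β` for some `m ≥ 1`, so `x_j = hG ((1+i)^j w)` is periodic, and
`4 x_j x_{j+1} = -(x_j - 1)²` (`hG_one_add_I`; no point `(1+i)^j w` is in `L`, all `x_j ≠ 0` since
`XG u = 0` iff `u ≡ τ`). If `v(x_j) > 1` then `v(x_{j+1}) = v(x_j)/v(4) > v(x_j)`, increasing forever,
contradiction to periodicity; if `v(x_j) < 1` then `v(x_{j+1}) = 1/(v(4)v(x_j)) > 1`. So
`v(x_j) = 1` and `v(x_j - 1)² = v(4)`, `v(x_j - 1) = v(2)`. From `4x_j (x_{j+1} - 1) = -(x_j + 1)²`: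
`v(x_j + 1)² = v(4) v(2)`, so `v(x_j + 1) < v(2)` and `v(x_j² - 1) < v(4)`.
`T_sub`: algebra from `hG_one_add_I`. `val_odd_odd`: `y_j = hG ((1+i)^j w')`, `d_j = v(x_j - y_j) ≠ 0`
(a unit multiple of `(1+i)^j w'` would be `≡ (1+i)^j w`, and `1+i` is invertible on `E[β]`), periodic
in `j`, `d_{j+1} v(4) = d_j v(x_j y_j - 1)`, `x y - 1 = y(x - y) + (y² - 1)`. If `d_j < v(4)` then
`v(xy-1) < v(4)` and `d_{j+1} < d_j`, decreasing forever; if `d_j > v(4)` then `v(xy-1) = d_j` and
`d_{j+1} = d_j²/v(4) > d_j`, increasing forever. So `d_j = v(4)`.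
-/

set_option autoImplicit false

noncomputable section

open Complex Filter Topology
open scoped PeriodPair Classical


namespace Pool.Agent.CMG

section aux

private theorem no_incr {Γ : Type*} [LinearOrder Γ] (f : ℕ → Γ) (c : Γ) {m : ℕ} (hm : 0 < m)
    (hper : ∀ j, f (j + m) = f j) (h : ∀ j, c < f j → f j < f (j + 1)) (j : ℕ) : f j ≤ c := by
  by_contra hj
  rw [not_le] at hj
  have h1 : ∀ k, f j < f (j + (k + 1)) := by
    intro k
    induction k with
    | zero => exact h j hj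
    | succ k ih => exact ih.trans (h _ (hj.trans ih))
  have h2 := h1 (m - 1)
  rw [Nat.sub_add_cancel hm, hper] at h2
  exact lt_irrefl _ h2

private theorem no_decr {Γ : Type*} [LinearOrder Γ] (f : ℕ → Γ) (c : Γ) {m : ℕ} (hm : 0 < m)
    (hper : ∀ j, f (j + m) = f j) (h : ∀ j, f j < c → f (j + 1) < f j) (j : ℕ) : c ≤ f j :=
  no_incr (Γ := Γᵒᵈ) f c hm hper h j

/-- the Gaussian integer `1 + i` -/
private def gg : GaussianInt := ⟨1, 1⟩

private theorem gg_coe : ((gg : GaussianInt) : ℂ) = 1 + I := by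
  rw [gg, GaussianInt.toComplex_def₂]
  apply Complex.ext <;> simp

private theorem gg_coprime {β : GaussianInt} (hβ : IsOdd β) : IsCoprime gg β := by
  have h1 : IsCoprime (2 : ℤ) (Zsqrtd.norm β) := by
    rw [Int.isCoprime_iff_gcd_eq_one, Int.gcd_comm]
    have h2 : Odd (Zsqrtd.norm β).natAbs := hβ
    have h3 : Nat.Coprime (Zsqrtd.norm β).natAbs 2 := Nat.coprime_two_right.2 h2
    exact h3
  have h2 : IsCoprime ((2 : ℤ) : GaussianInt) ((Zsqrtd.norm β : ℤ) : GaussianInt) :=
    h1.map (Int.castRingHom GaussianInt)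
  have h3 : ((Zsqrtd.norm β : ℤ) : GaussianInt) = β * star β := Zsqrtd.norm_eq_mul_conj β
  rw [h3] at h2
  have h4 : ((2 : ℤ) : GaussianInt) = gg * ⟨1, -1⟩ := by
    rw [gg]
    decide
  rw [h4] at h2
  exact h2.of_mul_left_left.of_mul_right_left

/-- `(1 + i) ^ m ≡ 1` on the points of order `β` -/
private theorem exists_period {β : GaussianInt} (hβ : IsOdd β) :
    ∃ m : ℕ, 0 < m ∧ ∀ w : ℂ, β * w ∈ LG.lattice → (1 + I) ^ m * w - w ∈ LG.lattice := by
  have hfin : Finite (GaussianInt ⧸ Ideal.span {β}) := finite_quot hβ.ne_zero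
  obtain ⟨a, b, hab⟩ := gg_coprime hβ
  have hu : IsUnit (Ideal.Quotient.mk (Ideal.span {β}) gg) := by
    refine IsUnit.of_mul_eq_one (Ideal.Quotient.mk (Ideal.span {β}) a) ?_
    rw [← map_mul, ← map_one (Ideal.Quotient.mk (Ideal.span {β})), Ideal.Quotient.eq,
      Ideal.mem_span_singleton]
    refine ⟨-b, ?_⟩
    rw [← hab]
    ring
  obtain ⟨u, hu⟩ := hu
  refine ⟨Nat.card (GaussianInt ⧸ Ideal.span {β})ˣ, Nat.card_pos, fun w hw => ?_⟩
  have h1 : u ^ Nat.card (GaussianInt ⧸ Ideal.span {β})ˣ = 1 := pow_card_eq_one'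
  generalize Nat.card (GaussianInt ⧸ Ideal.span {β})ˣ = m at *
  have h2 : Ideal.Quotient.mk (Ideal.span {β}) (gg ^ m) = Ideal.Quotient.mk _ 1 := by
    rw [map_pow, ← hu, map_one, ← Units.val_pow_eq_pow_val, h1, Units.val_one]
  rw [Ideal.Quotient.eq, Ideal.mem_span_singleton] at h2
  obtain ⟨c, hc⟩ := h2
  have h3 := mul_mem_LG c hw
  have h4 : (c : ℂ) * (β * w) = (1 + I) ^ m * w - w := by
    have h5 : ((gg ^ m - 1 : GaussianInt) : ℂ) = ((β * c : GaussianInt) : ℂ) := by rw [hc]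
    rw [map_sub, map_pow, gg_coe, map_mul, map_one] at h5
    linear_combination (-w) * h5
  rwa [h4] at h3

private theorem pow_notMem {β : GaussianInt} (hβ : IsOdd β) {w : ℂ} (hw : w ∉ LG.lattice)
    (h : β * w ∈ LG.lattice) (j : ℕ) : (1 + I) ^ j * w ∉ LG.lattice := by
  intro h1
  apply hw
  refine mem_of_coprime (α := gg ^ j) (β := β) ((gg_coprime hβ).pow_left) ?_ h
  rwa [map_pow, gg_coe]

private theorem hG_add_coe (z : ℂ) {l : ℂ} (hl : l ∈ LG.lattice) : hG (z + l) = hG z := by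
  rw [hG, hG, XG_add_coe z hl]

private theorem hG_per {β : GaussianInt} {m : ℕ}
    (hm : ∀ w : ℂ, β * w ∈ LG.lattice → (1 + I) ^ m * w - w ∈ LG.lattice) {w : ℂ}
    (h : β * w ∈ LG.lattice) (j : ℕ) : hG ((1 + I) ^ (j + m) * w) = hG ((1 + I) ^ j * w) := by
  have h1 := mul_mem_LG (gg ^ j) (hm w h)
  rw [map_pow, gg_coe] at h1
  rw [← hG_add_coe ((1 + I) ^ j * w) h1]
  congr 1
  rw [pow_add]
  ring

private theorem hG_ne_zero {z : ℂ} (hz : (1 + I) * z ∉ LG.lattice) : hG z ≠ 0 := by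
  have hz0 : z ∉ LG.lattice := fun h => hz (by
    have := mul_mem_LG gg h
    rwa [gg_coe] at this)
  intro h
  have h1 : XG z = XG tau := by
    rw [XG_tau]
    exact pow_eq_zero_iff (two_ne_zero) |>.1 h
  have hI : I ∈ LG.lattice := by
    rw [mem_LG]
    refine ⟨⟨0, 1⟩, ?_⟩
    rw [GaussianInt.toComplex_def₂]
    apply Complex.ext <;> simp
  rcases XG_inj hz0 tau_notMem.1 h1 with h2 | h2
  · apply hz
    have h3 := mul_mem_LG gg h2
    rw [gg_coe, mul_sub, tau_notMem.2] at h3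
    have h4 := LG.lattice.add_mem h3 hI
    rwa [sub_add_cancel] at h4
  · apply hz
    have h3 := mul_mem_LG gg h2
    rw [gg_coe, mul_add, tau_notMem.2] at h3
    have h4 := LG.lattice.sub_mem h3 hI
    rwa [add_sub_cancel_right] at h4

end aux

section val

variable {V : ValuationSubring ℂ}

private theorem v4 (V : ValuationSubring ℂ) :
    V.valuation (4 : ℂ) = V.valuation (2 : ℂ) ^ 2 := by
  rw [← map_pow]
  norm_num

private theorem v2_ne (V : ValuationSubring ℂ) : V.valuation (2 : ℂ) ≠ 0 := by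
  rw [Valuation.ne_zero_iff]
  norm_num

private theorem v4_ne (V : ValuationSubring ℂ) : V.valuation (4 : ℂ) ≠ 0 := by
  rw [Valuation.ne_zero_iff]
  norm_num

private theorem val_step_one {w : ℂ} (h2 : V.valuation (2 : ℂ) < 1) (hw : w ∉ LG.lattice)
    {β : GaussianInt} (hβ : IsOdd β) (h : β * w ∈ LG.lattice) (j : ℕ) :
    V.valuation (hG ((1 + I) ^ j * w)) = 1 := by
  obtain ⟨m, hm, hper⟩ := exists_period hβ
  set x : ℕ → ℂ := fun j => hG ((1 + I) ^ j * w) with hx
  have hx0 : ∀ j, x j ≠ 0 := fun j => hG_ne_zero (by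
    rw [← mul_assoc, ← pow_succ']
    exact pow_notMem hβ hw h _)
  have hrec : ∀ j, 4 * x j * x (j + 1) = -(x j - 1) ^ 2 := by
    intro j
    have h1 : (1 + I) ^ (j + 1) * w = (1 + I) * ((1 + I) ^ j * w) := by
      rw [pow_succ']
      ring
    simp only [hx]
    rw [h1]
    apply hG_one_add_I
    rw [← h1]
    exact pow_notMem hβ hw h _
  have hv4 : V.valuation (4 : ℂ) < 1 := by
    rw [v4]
    exact pow_lt_one' h2 two_ne_zero
  have hval : ∀ j, V.valuation (4 : ℂ) * V.valuation (x j) * V.valuation (x (j + 1)) =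
      V.valuation (x j - 1) ^ 2 := by
    intro j
    rw [← map_mul, ← map_mul, hrec, Valuation.map_neg, map_pow]
  have hup : ∀ j, 1 < V.valuation (x j) → V.valuation (x j) < V.valuation (x (j + 1)) := by
    intro j hj
    have h3 : V.valuation (x j - 1) = V.valuation (x j) := by
      rw [Valuation.map_sub_eq_of_lt_left]
      rwa [map_one]
    have h4 := hval j
    have hne : V.valuation (x j) ≠ 0 := (zero_lt_one.trans hj).ne'
    rw [h3, sq, mul_right_comm] at h4
    have h5 : V.valuation (4 : ℂ) * V.valuation (x (j + 1)) = V.valuation (x j) :=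
      mul_right_cancel₀ hne h4
    rw [← h5]
    have h6 : V.valuation (x (j + 1)) ≠ 0 := (Valuation.ne_zero_iff _).2 (hx0 _)
    exact mul_lt_of_lt_one_left (zero_lt_iff.2 h6) hv4
  have hle : ∀ j, V.valuation (x j) ≤ 1 :=
    no_incr (fun j => V.valuation (x j)) 1 hm (fun j => by
      simp only [hx]
      rw [hG_per hper h]) hup
  refine le_antisymm (hle j) ?_
  by_contra hlt
  rw [not_le] at hlt
  have h3 : V.valuation (x j - 1) = 1 := by
    rw [Valuation.map_sub_eq_of_lt_right, map_one]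
    rwa [map_one]
  have h4 := hval j
  rw [h3, one_pow] at h4
  have h5 : V.valuation (4 : ℂ) * V.valuation (x j) * V.valuation (x (j + 1)) < 1 := by
    have h6 := hle (j + 1)
    have h7 : V.valuation (4 : ℂ) * V.valuation (x j) < 1 :=
      mul_lt_one_of_nonneg_of_lt_one_left zero_le hv4 hlt.le
    exact mul_lt_one_of_nonneg_of_lt_one_left zero_le h7 h6
  exact h5.ne h4

theorem val_odd {w : ℂ} (h2 : V.valuation (2 : ℂ) < 1) (hw : w ∉ LG.lattice) {β : GaussianInt}
    (hβ : IsOdd β) (h : β * w ∈ LG.lattice) :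
    V.valuation (hG w) = 1 ∧ V.valuation (hG w - 1) = V.valuation (2 : ℂ) ∧
      V.valuation (hG w ^ 2 - 1) < V.valuation (4 : ℂ) := by
  have key : ∀ z : ℂ, (1 + I) * z ∉ LG.lattice → V.valuation (hG z) = 1 →
      V.valuation (hG ((1 + I) * z)) = 1 → V.valuation (hG z - 1) = V.valuation (2 : ℂ) := by
    intro z hz h3 h4
    have h5 := congrArg V.valuation (hG_one_add_I hz)
    rw [map_mul, map_mul, h3, h4, mul_one, mul_one, Valuation.map_neg, map_pow, v4] at h5
    exact ((pow_left_inj₀ zero_le zero_le two_ne_zero).1 h5).symm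
  have n1 : (1 + I) * w ∉ LG.lattice := by
    have := pow_notMem hβ hw h 1
    rwa [pow_one] at this
  have n2 : (1 + I) * ((1 + I) * w) ∉ LG.lattice := by
    have := pow_notMem hβ hw h 2
    rwa [sq, mul_assoc] at this
  have w0 : V.valuation (hG w) = 1 := by
    have := val_step_one h2 hw hβ h 0
    rwa [pow_zero, one_mul] at this
  have w1 : V.valuation (hG ((1 + I) * w)) = 1 := by
    have := val_step_one h2 hw hβ h 1
    rwa [pow_one] at this
  have w2 : V.valuation (hG ((1 + I) * ((1 + I) * w))) = 1 := by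
    have := val_step_one h2 hw hβ h 2
    rwa [sq, mul_assoc] at this
  have e0 := key w n1 w0 w1
  have e1 := key _ n2 w1 w2
  refine ⟨w0, e0, ?_⟩
  have h5 : 4 * hG w * (hG ((1 + I) * w) - 1) = -(hG w + 1) ^ 2 := by
    linear_combination hG_one_add_I n1
  have h6 := congrArg V.valuation h5
  rw [map_mul, map_mul, w0, mul_one, e1, Valuation.map_neg, map_pow, v4] at h6
  have h7 : V.valuation (hG w + 1) < V.valuation (2 : ℂ) := by
    have h8 : V.valuation (hG w + 1) ^ 2 < V.valuation (2 : ℂ) ^ 2 := by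
      rw [← h6]
      exact mul_lt_of_lt_one_right (zero_lt_iff.2 (pow_ne_zero 2 (v2_ne V))) h2
    exact lt_of_pow_lt_pow_left' 2 h8
  have h9 : hG w ^ 2 - 1 = (hG w - 1) * (hG w + 1) := by ring
  rw [h9, map_mul, e0, v4, sq]
  exact mul_lt_mul_of_pos_left h7 (zero_lt_iff.2 (v2_ne V))

/-- the formula for the backward step -/
theorem T_sub {x y : ℂ} {z w : ℂ} (hx : x = hG z) (hy : y = hG w)
    (hz : (1 + I) * z ∉ LG.lattice) (hw : (1 + I) * w ∉ LG.lattice) :
    4 * x * y * (hG ((1 + I) * z) - hG ((1 + I) * w)) = - ((x - y) * (x * y - 1)) := by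
  have h1 := hG_one_add_I hz
  have h2 := hG_one_add_I hw
  rw [← hx] at h1
  rw [← hy] at h2
  linear_combination y * h1 - x * h2

theorem val_odd_odd {w w' : ℂ} (h2 : V.valuation (2 : ℂ) < 1) (hw : w ∉ LG.lattice)
    (hw' : w' ∉ LG.lattice) {β : GaussianInt} (hβ : IsOdd β) (h : β * w ∈ LG.lattice)
    (h' : β * w' ∈ LG.lattice) (hne : hG w ≠ hG w') :
    V.valuation (hG w - hG w') = V.valuation (4 : ℂ) := by
  obtain ⟨m, hm, hper⟩ := exists_period hβ
  set x : ℕ → ℂ := fun j => hG ((1 + I) ^ j * w) with hx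
  set y : ℕ → ℂ := fun j => hG ((1 + I) ^ j * w') with hy
  have hxy : ∀ j, x j - y j ≠ 0 := by
    intro j h3
    apply hne
    obtain ⟨ε, hε, h4⟩ := (hG_eq_iff (pow_notMem hβ hw h j) (pow_notMem hβ hw' h' j)).1
      (sub_eq_zero.1 h3)
    rw [hG_eq_iff hw hw']
    refine ⟨ε, hε, ?_⟩
    refine mem_of_coprime (α := gg ^ j) (β := β) ((gg_coprime hβ).pow_left) ?_ ?_
    · rw [map_pow, gg_coe]
      rwa [show (1 + I) ^ j * (w - ε * w') = (1 + I) ^ j * w - ε * ((1 + I) ^ j * w') by ring]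
    · rw [show (β : ℂ) * (w - ε * w') = β * w - ε * (β * w') by ring]
      exact LG.lattice.sub_mem h (mul_mem_LG ε h')
  have hmem : ∀ j, (β : ℂ) * ((1 + I) ^ j * w') ∈ LG.lattice := by
    intro j
    have h3 := mul_mem_LG (gg ^ j) h'
    rw [map_pow, gg_coe] at h3
    rwa [show (β : ℂ) * ((1 + I) ^ j * w') = (1 + I) ^ j * (β * w') by ring]
  have hvx : ∀ j, V.valuation (x j) = 1 := fun j => val_step_one h2 hw hβ h j
  have hvy : ∀ j, V.valuation (y j) = 1 := fun j => val_step_one h2 hw' hβ h' j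
  have hvy2 : ∀ j, V.valuation (y j ^ 2 - 1) < V.valuation (4 : ℂ) := fun j =>
    (val_odd h2 (pow_notMem hβ hw' h' j) hβ (hmem j)).2.2
  have hrec : ∀ j, V.valuation (4 : ℂ) * V.valuation (x (j + 1) - y (j + 1)) =
      V.valuation (x j - y j) * V.valuation (x j * y j - 1) := by
    intro j
    have h1 : ∀ w : ℂ, (1 + I) ^ (j + 1) * w = (1 + I) * ((1 + I) ^ j * w) := by
      intro w
      rw [pow_succ']
      ring
    have h3 := T_sub (x := x j) (y := y j) (z := (1 + I) ^ j * w) (w := (1 + I) ^ j * w') rfl rfl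
      (by rw [← h1]; exact pow_notMem hβ hw h _) (by rw [← h1]; exact pow_notMem hβ hw' h' _)
    have h4 := congrArg V.valuation h3
    rw [← h1, ← h1, map_mul, map_mul, map_mul, hvx, hvy, mul_one, mul_one, Valuation.map_neg,
      map_mul] at h4
    exact h4
  have hexp : ∀ j, x j * y j - 1 = y j * (x j - y j) + (y j ^ 2 - 1) := fun j => by ring
  have hperd : ∀ j, V.valuation (x (j + m) - y (j + m)) = V.valuation (x j - y j) := by
    intro j
    simp only [hx, hy]
    rw [hG_per hper h, hG_per hper h']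
  have hpos : ∀ j, 0 < V.valuation (x j - y j) := fun j =>
    zero_lt_iff.2 ((Valuation.ne_zero_iff _).2 (hxy j))
  have h4pos : 0 < V.valuation (4 : ℂ) := zero_lt_iff.2 (v4_ne V)
  have hup : ∀ j, V.valuation (4 : ℂ) < V.valuation (x j - y j) →
      V.valuation (x j - y j) < V.valuation (x (j + 1) - y (j + 1)) := by
    intro j hj
    have h3 : V.valuation (x j * y j - 1) = V.valuation (x j - y j) := by
      rw [hexp, Valuation.map_add_eq_of_lt_left]
      · rw [map_mul, hvy, one_mul]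
      · rw [map_mul, hvy, one_mul]
        exact (hvy2 j).trans hj
    have h4 := hrec j
    rw [h3] at h4
    refine lt_of_mul_lt_mul_left' (a := V.valuation (4 : ℂ)) ?_
    rw [h4]
    exact mul_lt_mul_of_pos_right hj (hpos j)
  have hdown : ∀ j, V.valuation (x j - y j) < V.valuation (4 : ℂ) →
      V.valuation (x (j + 1) - y (j + 1)) < V.valuation (x j - y j) := by
    intro j hj
    have h3 : V.valuation (x j * y j - 1) < V.valuation (4 : ℂ) := by
      rw [hexp]
      apply Valuation.map_add_lt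
      · rwa [map_mul, hvy, one_mul]
      · exact hvy2 j
    have h4 := hrec j
    refine lt_of_mul_lt_mul_left' (a := V.valuation (4 : ℂ)) ?_
    rw [h4, mul_comm]
    exact mul_lt_mul_of_pos_right h3 (hpos j)
  have r1 := no_incr (fun j => V.valuation (x j - y j)) _ hm hperd hup 0
  have r2 := no_decr (fun j => V.valuation (x j - y j)) _ hm hperd hdown 0
  have r3 := le_antisymm r1 r2
  simpa only [hx, hy, pow_zero, one_mul] using r3

end val

end Pool.Agent.CMG
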